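import Pool.Agent.H88.D2.Sfl

/-!
# The curvature of a static coordinate in the frame vectors

Weights: the second derivative of the static label in the direction of the coordinate `x` is natural
at every ball (`CEv.zS`); if the natural size at another window `j` is below the natural size at the
window `k`, then it is small at `k`. `sta_one`: place one over a rough coordinate. `sta_two`: place two
over two rough coordinates.
-/

set_option autoImplicit false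

namespace Pool.TN

open Finset Real MvPolynomial
open Pool.Agent.H49.Ent Pool.Agent.H32.Dense Pool.STK Pool.KA Pool.KSAT Pool.K2S Pool.PB Pool.S6C
open Pool.GEN Pool.CHT Pool.CHX Pool.ISO Pool.D2R Pool.D2Z Pool.D2F
open Pool.LBT (ThrOf)
open Pool.FLF (Fam.sub)
open Pool.PB.Trl (rt rt_mem t_rt)

variable {m J : ℕ}

/-- Two balls of one event. -/
theorem CEv.bb (D r : ℕ) : ∃ C : ℕ, ∀ {m J : ℕ} {F : Fam m J} {c : ℕ → Fin m}
    {Dr N M A cl : ℕ} {Sc : ℕ → Prop} {w e h pp : ℕ → ℕ} {z g gc gT g₀ : ℕ → ℕ → ℕ} {κ : ℝ}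
    {B : F.Ω → Prop} {G : ℕ → PtT F → ℕ → MvPolynomial (Option (Fin m)) ℝ}
    {H : ℕ → LnT F → ℕ → MvPolynomial (Option (Fin m)) ℝ}
    {T : ℕ → PtT F → ℕ → MvPolynomial (Option (Fin m)) ℝ}
    {TH : ℕ → LnT F → ℕ → MvPolynomial (Option (Fin m)) ℝ}
    {Gt : ℕ → PtT F → MvPolynomial (Option (Fin m)) ℝ}
    {Ht : ℕ → LnT F → MvPolynomial (Option (Fin m)) ℝ},
    CEv F c r D Dr N M A cl Sc w e h pp z g gc gT g₀ κ B G H T TH Gt Ht →
    ∀ {i j q : ℕ}, i ≤ N → j ≤ N → q ≤ M → w i ≤ w j → z i q = w j - w i → ∀ ω, B ω →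
    ∀ l ≤ r, ∀ V : Option (Fin m) → ℝ, |cv (gG G ω i l - gG G ω j l) V| ≤
      2 ^ (C + cl) / 2 ^ min (g i l + (w j - w i)) (g₀ j l) *
        en c (g₀ j) (w j) (gG G ω j) l V := by
  obtain ⟨C, hbal⟩ := bale_dd D r
  refine ⟨C, ?_⟩
  intro m J F c Dr N M A cl Sc w e h pp z g gc gT g₀ κ B G H T TH Gt Ht E i j q hi hj hq hw hz ω hω
    l hl V
  have hc' : Set.InjOn c (Set.Iio r) := E.inj.mono (Set.Iio_subset_Iio (by omega))
  have h4 := hbal hc' E.bal (by positivity) hi hj hq hw hz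
    (fun y l => (E.evs i hi).ball.degG y l) (fun y l => (E.evs i hi).ball.depG y l)
    (E.evs j hj).ball ω hω l hl V
  rw [nrm_en] at h4
  unfold gG
  rw [cv_subl, cv_grd, cv_grd, pow_add]
  exact h4

/-- A covector without coordinates. -/
theorem cv_c0 {c : ℕ → Fin m} {W : Option (Fin m) → ℝ} (h : CvC c 0 W)
    {V : Option (Fin m) → ℝ} (h0 : V none = 0) : cv W V = 0 := by
  have e1 : cv W V = cv W 0 := cv_congr h (by rw [h0]; rfl) fun j hj => absurd hj (by omega)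
  rw [e1]
  unfold cv
  simp

/-- The first components of the vectors of a frame. -/
theorem ev_lt {c : ℕ → Fin m} {n : ℕ} (hc : Set.InjOn c (Set.Iio n))
    {Ξ : ℕ → Option (Fin m) → ℝ} (hΞ : ∀ l, CvC c l (Ξ l)) {x : ℕ} (hx : x ≤ n) {j : ℕ} :
    j < x → ev c n Ξ x (some (c j)) = 0 := by
  induction j using Nat.strong_induction_on with
  | _ j ih =>
    intro hj
    have h1 := ev_comp hc hΞ x (show j < n by omega)
    rw [if_neg (by omega)] at h1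
    have h2 : cv (Ξ j) (ev c n Ξ x) = 0 := by
      have e1 : cv (Ξ j) (ev c n Ξ x) = cv (Ξ j) 0 := cv_congr (hΞ j) (by rw [ev_none]; rfl)
        fun l hl => by
          rw [ih l hl (by omega)]
          rfl
      rw [e1]
      unfold cv
      simp
    linarith

theorem ev_eq {c : ℕ → Fin m} {n : ℕ} (hc : Set.InjOn c (Set.Iio n))
    {Ξ : ℕ → Option (Fin m) → ℝ} (hΞ : ∀ l, CvC c l (Ξ l)) {x : ℕ} (hx : x < n) :
    ev c n Ξ x (some (c x)) = 1 := by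
  have h1 := ev_comp hc hΞ x hx
  rw [if_pos rfl] at h1
  have h2 : cv (Ξ x) (ev c n Ξ x) = 0 := by
    have e1 : cv (Ξ x) (ev c n Ξ x) = cv (Ξ x) 0 := cv_congr (hΞ x) (by rw [ev_none]; rfl)
      fun l hl => by
        rw [ev_lt hc hΞ hx.le hl]
        rfl
    rw [e1]
    unfold cv
    simp
  linarith

/-- The second derivative sees only the coordinates of the chart. -/
theorem hs_cg {c : ℕ → Fin m} {l : ℕ} {Q : MvPolynomial (Option (Fin m)) ℝ} (hQ : DepC c l Q)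
    (x W : Option (Fin m) → ℝ) {V V' : Option (Fin m) → ℝ} (h0 : V none = V' none)
    (h1 : ∀ j < l, V (some (c j)) = V' (some (c j))) : hs Q x W V = hs Q x W V' := by
  obtain ⟨φ, hφ⟩ : ∃ φ : Option (Fin m) → ℝ, φ = fun o => dd (pderiv o Q) x W := ⟨_, rfl⟩
  have e1 : ∀ V, hs Q x W V = cv φ V := fun V => by
    rw [hφ]
    rfl
  have e2 : CvC c l φ := by
    intro y hy
    rw [hφ]
    show dd (pderiv (some y) Q) x W = 0
    rw [pd_zero' hQ (fun j hj => (hy j hj).symm)]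
    unfold dd
    simp
  rw [e1, e1]
  exact cv_congr e2 h0 h1

section

variable {F : Fam m J} {c : ℕ → Fin m} {r D Dr N M A cl : ℕ} {Sc : ℕ → Prop}
    {w e h pp : ℕ → ℕ} {z g gc gT g₀ : ℕ → ℕ → ℕ} {κ : ℝ} {B : F.Ω → Prop}
    {G : ℕ → PtT F → ℕ → MvPolynomial (Option (Fin m)) ℝ}
    {H : ℕ → LnT F → ℕ → MvPolynomial (Option (Fin m)) ℝ}
    {T : ℕ → PtT F → ℕ → MvPolynomial (Option (Fin m)) ℝ}
    {TH : ℕ → LnT F → ℕ → MvPolynomial (Option (Fin m)) ℝ}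
    {Gt : ℕ → PtT F → MvPolynomial (Option (Fin m)) ℝ}
    {Ht : ℕ → LnT F → MvPolynomial (Option (Fin m)) ℝ}

/-- **The windows** `i` (label) and `j` (ball) for the curvature of the static label of the place
`s`. -/
structure ZNum (r N A cl X : ℕ) (w pp : ℕ → ℕ) (gc gT g₀ : ℕ → ℕ → ℕ) (s i j : ℕ) : Prop where
  jN : j ≤ N
  wj : w i ≤ w j
  th : ∀ l < r, cl ≤ gT j l ∧ cl ≤ gc j l
  pj : cl ≤ pp j
  gr : cl ≤ gc j r
  lb : g₀ j s + (A - w j) ≤ gT i s + X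

/-- The curvature of the static label in a direction of size `2 ^ n`. -/
theorem CEv.zV (E : CEv F c r D Dr N M A cl Sc w e h pp z g gc gT g₀ κ B G H T TH Gt Ht)
    {s i j X : ℕ} (hi : i ≤ N) (hgi : cl ≤ gT i s) (hsr : s < r) (hns : ∀ x < s, ¬ Sc x)
    (hZ : ZNum r N A cl X w pp gc gT g₀ s i j) {ω : F.Ω} (hω : B ω)
    {V : Option (Fin m) → ℝ} {Y : ℝ} (hV : en c (g₀ j) (w j) (gG G ω j) s V ≤ Y) :
    |hs (TH i (slam F (w i) ω) s) (bt F ω) (bd F ω) V| ≤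
      2 ^ (12 * cl + 4 * r + X + 10) * 2 ^ w j / 2 ^ g₀ j s * Y :=
  (E.zS hi hZ.jN hZ.wj hZ.th hZ.pj hZ.gr hω hsr hns hgi hZ.lb V).trans
    (mul_le_mul_of_nonneg_left hV (by positivity))

end

/-- The vectors of two frames which agree below `s`. -/
theorem ev_agree {c : ℕ → Fin m} {n s : ℕ} (hc : Set.InjOn c (Set.Iio n)) (hs : s ≤ n)
    {Ξ Ξ' : ℕ → Option (Fin m) → ℝ} (hΞ : ∀ l, CvC c l (Ξ l)) (hΞ' : ∀ l, CvC c l (Ξ' l))
    (h : ∀ l < s, Ξ l = Ξ' l) (x : ℕ) {j : ℕ} :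
    j < s → ev c n Ξ x (some (c j)) = ev c s Ξ' x (some (c j)) := by
  have hcs : Set.InjOn c (Set.Iio s) := hc.mono (Set.Iio_subset_Iio hs)
  induction j using Nat.strong_induction_on with
  | _ j ih =>
    intro hj
    have h1 := ev_comp hc hΞ x (show j < n by omega)
    have h2 := ev_comp hcs hΞ' x hj
    have h3 : cv (Ξ j) (ev c n Ξ x) = cv (Ξ' j) (ev c s Ξ' x) := by
      rw [h j hj]
      exact cv_congr (hΞ' j) (by rw [ev_none, ev_none]) fun l hl => ih l hl (by omega)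
    linarith

/-- **A static coordinate over one rough coordinate**: the curvature is natural or the event is
small. -/
theorem sta_one (m D r : ℕ) (hD : 1 ≤ D) (hr : 2 ≤ r) : ∃ C : ℕ, 1 ≤ C ∧
    ∀ {θ : ℝ} {S : PCl m} {P : List (Fin m) × Fin m → ℝ → ℝ → ℝ} (_ : ThrOf (chsys m θ) S P)
    (_ : TmH S) (c : ℕ → Fin m) (_ : Set.InjOn c (Set.Iio (r + 1))) (a : ℚ) (e₁ h₁ ε κ₀ : ℝ)
    (_ : 0 ≤ a) (_ : a < 1) (_ : e₁ < θ * a) (_ : 0 < h₁) (_ : bet P c 0 a a + h₁ ≤ 1)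
    (_ : bet P c 1 a a + h₁ ≤ 1) (_ : 0 < ε) (_ : 0 < κ₀),
    Bas S (fun J F A₀ => ∀ {Dr N M A cl X t i k : ℕ} {Sc : ℕ → Prop} {w e h pp : ℕ → ℕ}
      {z g gc gT g₀ : ℕ → ℕ → ℕ} {κ : ℝ} {B : F.Ω → Prop}
      {G : ℕ → PtT F → ℕ → MvPolynomial (Option (Fin m)) ℝ}
      {H : ℕ → LnT F → ℕ → MvPolynomial (Option (Fin m)) ℝ}
      {T : ℕ → PtT F → ℕ → MvPolynomial (Option (Fin m)) ℝ}
      {TH : ℕ → LnT F → ℕ → MvPolynomial (Option (Fin m)) ℝ}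
      {Gt : ℕ → PtT F → MvPolynomial (Option (Fin m)) ℝ}
      {Ht : ℕ → LnT F → MvPolynomial (Option (Fin m)) ℝ},
      CEv F c r D Dr N M A cl Sc w e h pp z g gc gT g₀ κ B G H T TH Gt Ht → Sub B A₀ →
      ε * J ≤ cl → C ≤ cl → i ≤ N → k ≤ N → w i ≤ w k → w k ≤ ⌊(a : ℝ) * J⌋₊ → ¬ Sc 0 →
      (∀ l < r, cl ≤ gT k l ∧ cl ≤ gc k l) → cl ≤ pp k → cl ≤ gc k r → cl ≤ gT i 1 →
      (A - w k) + g₀ k 1 + t ≤ gT i 1 → (A - w k) + g₀ k 1 + t ≤ gT k 1 →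
      C * (cl + X + 1) ≤ t → C * (cl + X + 1) ≤ g₀ k 0 →
      (∀ l ≤ 1, e k + g₀ k l + C * (cl + X + 1) ≤ J) → e k + C * (cl + X + 1) ≤ ⌊e₁ * J⌋₊ →
      ⌊(bet P c 0 a a + h₁) * J⌋₊ + w k ≤ g₀ k 0 + X + ⌊(a : ℝ) * J⌋₊ →
      ⌊(bet P c 1 a a + h₁) * J⌋₊ + w k ≤ g₀ k 1 + X + ⌊(a : ℝ) * J⌋₊ →
      (∀ V : F.Ω → Option (Fin m) → ℝ, (∀ ω, B ω → V ω none = 0 ∧ V ω (some (c 0)) = 1) →
        Pe F.p (fun ω => B ω ∧ |hs (TH i (slam F (w i) ω) 1) (bt F ω) (bd F ω) (V ω)| ≤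
          2 ^ (w k + g₀ k 0) / 2 ^ (g₀ k 1 + t)) < κ₀ * Pe F.p A₀) ∧
      ∀ j, ZNum r N A cl X w pp gc gT g₀ 1 i j →
        w j + g₀ j 0 + g₀ k 1 + t + C * (cl + X + 1) ≤ w k + g₀ k 0 + g₀ j 1 →
        Pe F.p B < κ₀ * Pe F.p A₀) := by
  classical
  obtain ⟨C, hC, hfl⟩ := sta_flat m D r 1 hD hr
  refine ⟨C + 20 + 4 * r, by omega, ?_⟩
  intro θ S P hP hT c hc a e₁ h₁ ε κ₀ ha0 ha he hh hb0 hbs hε hκ
  refine Bas.mono 0 (hfl hP hT c hc a e₁ h₁ ε κ₀ ha0 ha he hh hb0 hbs hε hκ) ?_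
  rintro J - F A₀ hfA
  intro Dr N M A cl X t i k Sc w e h pp z g gc gT g₀ κ B G H T TH Gt Ht E hBA hεc hCc hi hk hw hwa
    hns h1 hp hgr hgi n1 n2 ht hg₀ hroom hef f0 fs
  have hpn := Pe_nonneg F.isLaw
  have hCZ : C * (cl + X + 1) + (20 + 4 * r) * (cl + X + 1) =
      (C + 20 + 4 * r) * (cl + X + 1) := by ring
  have hns' : ∀ x < 1, ¬ Sc x := fun x hx => by
    rw [Nat.lt_one_iff.1 hx]
    exact hns
  have hc1 : Set.InjOn c (Set.Iio 1) := hc.mono (Set.Iio_subset_Iio (by omega))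
  have hΓ : ∀ ω l, CvC c l (gG G ω k l) := fun ω l => cvc_grd ((E.evs k hk).ball.depG _ l) _
  have hmain : ∀ V : F.Ω → Option (Fin m) → ℝ, (∀ ω, B ω → V ω none = 0 ∧
      V ω (some (c 0)) = 1) → Pe F.p (fun ω => B ω ∧
      |hs (TH i (slam F (w i) ω) 1) (bt F ω) (bd F ω) (V ω)| ≤
          2 ^ (w k + g₀ k 0) / 2 ^ (g₀ k 1 + t)) < κ₀ * Pe F.p A₀ := by
    intro V hV
    have h2 := hfA E hBA hεc (by omega) hi hk hw hwa hns' h1 hp hgr n1 n2 (t := t) (X := X)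
      (by omega) (fun l hl => by
        rw [Nat.lt_one_iff.1 hl]
        omega) (fun l hl => by
        have := hroom l hl
        omega) (by omega) f0 fs
    refine lt_of_le_of_lt (Pe_mono F.isLaw fun ω hω => ⟨hω.1, fun x hx => ?_⟩) h2
    rw [Nat.lt_one_iff.1 hx]
    have h3 := hV ω hω.1
    rw [hs_cg ((E.evs i hi).thin.depH _ 1) (bt F ω) (bd F ω) (V' := V ω)
      (by rw [ev_none, h3.1]) (fun j hj => by
        rw [Nat.lt_one_iff.1 hj, h3.2, ev_eq hc1 (hΓ ω) (by norm_num)])]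
    exact hω.2
  refine ⟨hmain, fun j hZ hj => ?_⟩
  have h2 := hmain (fun ω => ev c 1 (gG G ω k) 0) (fun ω _ => ⟨ev_none _ _ _ _,
    ev_eq hc1 (hΓ ω) (by norm_num)⟩)
  refine lt_of_le_of_lt (Pe_mono F.isLaw fun ω hω => ⟨hω, ?_⟩) h2
  have hΓj : ∀ l, CvC c l (gG G ω j l) := fun l => cvc_grd ((E.evs j hZ.jN).ball.depG _ l) _
  have h3 : en c (g₀ j) (w j) (gG G ω j) 1 (ev c 1 (gG G ω k) 0) ≤ 2 ^ g₀ j 0 := by
    rw [en_succ, en_zero, ev_none, abs_zero, mul_zero, zero_add, ev_eq hc1 (hΓ ω) (by norm_num),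
      cv_c0 (hΓj 0) (ev_none _ _ _ _), sub_zero, abs_one, mul_one]
  refine (E.zV hi hgi (by omega) hns' hZ hω h3).trans ?_
  have e1 : 2 ^ (12 * cl + 4 * r + X + 10) * 2 ^ w j / 2 ^ g₀ j 1 * 2 ^ g₀ j 0 =
      (2 : ℝ) ^ (12 * cl + 4 * r + X + 10 + w j + g₀ j 0) / 2 ^ g₀ j 1 := by
    rw [pow_add 2 (12 * cl + 4 * r + X + 10 + w j), pow_add 2 (12 * cl + 4 * r + X + 10) (w j)]
    ring
  rw [e1, div_le_div_iff₀ (by positivity) (by positivity), ← pow_add, ← pow_add]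
  refine p2 ?_
  have h4 : 12 * cl + 4 * r + X + 10 ≤ (20 + 4 * r) * (cl + X + 1) := by nlinarith
  omega

/-- **The relation of the balls** `j` and `k` in the first coordinate (slope one) and the second
one. -/
def BRel (M X : ℕ) (w : ℕ → ℕ) (z g₀ : ℕ → ℕ → ℕ) (j k : ℕ) : Prop :=
  (w j ≤ w k ∧ (∃ q ≤ M, z j q = w k - w j) ∧ g₀ k 0 + w j ≤ g₀ j 0 + w k + X ∧
    g₀ j 1 + (w k - w j) ≤ g₀ k 1 + X) ∨
  (w k ≤ w j ∧ (∃ q ≤ M, z k q = w j - w k) ∧ g₀ j 0 + w k ≤ g₀ k 0 + w j + X ∧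
    g₀ k 1 + (w j - w k) ≤ g₀ j 1 + X)

/-- The curvature of a static coordinate over two rough coordinates, from the weights. -/
theorem CEv.z2 (D r : ℕ) (hr : 3 ≤ r) : ∃ C : ℕ, 1 ≤ C ∧ ∀ {m J : ℕ} {F : Fam m J}
    {c : ℕ → Fin m} {Dr N M A cl : ℕ} {Sc : ℕ → Prop} {w e h pp : ℕ → ℕ}
    {z g gc gT g₀ : ℕ → ℕ → ℕ} {κ : ℝ}
    {B : F.Ω → Prop} {G : ℕ → PtT F → ℕ → MvPolynomial (Option (Fin m)) ℝ}
    {H : ℕ → LnT F → ℕ → MvPolynomial (Option (Fin m)) ℝ}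
    {T : ℕ → PtT F → ℕ → MvPolynomial (Option (Fin m)) ℝ}
    {TH : ℕ → LnT F → ℕ → MvPolynomial (Option (Fin m)) ℝ}
    {Gt : ℕ → PtT F → MvPolynomial (Option (Fin m)) ℝ}
    {Ht : ℕ → LnT F → MvPolynomial (Option (Fin m)) ℝ},
    CEv F c r D Dr N M A cl Sc w e h pp z g gc gT g₀ κ B G H T TH Gt Ht →
    ∀ {X t i k x₀ : ℕ} {jx : ℕ → ℕ}, i ≤ N → k ≤ N → ¬ Sc 0 → ¬ Sc 1 → cl ≤ gT i 2 →
      (∀ x < 2, x ≠ x₀ → ZNum r N A cl X w pp gc gT g₀ 2 i (jx x) ∧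
        w (jx x) + g₀ (jx x) x + g₀ k 2 + t + C * (cl + X + 1) ≤
          w k + g₀ k x + g₀ (jx x) 2) → (0 ≠ x₀ → BRel M X w z g₀ (jx 0) k) →
      ∀ ω, B ω → (x₀ < 2 → |hs (TH i (slam F (w i) ω) 2) (bt F ω) (bd F ω)
        (ev c 2 (gG G ω k) x₀)| ≤ 2 ^ (w k + g₀ k x₀) / 2 ^ (g₀ k 2 + t + C * (cl + X + 1))) →
      ∀ x < 2, |hs (TH i (slam F (w i) ω) 2) (bt F ω) (bd F ω)
        (ev c 2 (gG G ω k) x)| ≤ 2 ^ (w k + g₀ k x) / 2 ^ (g₀ k 2 + t) := by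
  obtain ⟨C₃, hbb⟩ := CEv.bb D r
  refine ⟨2 * C₃ + 40 + 4 * r, by omega, ?_⟩
  intro m J F c Dr N M A cl Sc w e h pp z g gc gT g₀ κ B G H T TH Gt Ht E X t i k x₀ jx hi hk hs0 hs1
    hgi hZ hR ω hω hx₀
  have hc2 : Set.InjOn c (Set.Iio 2) := E.inj.mono (Set.Iio_subset_Iio (by omega))
  have hΓ : ∀ j ≤ N, ∀ l, CvC c l (gG G ω j l) := fun j hj l =>
    cvc_grd ((E.evs j hj).ball.depG _ l) _
  have hns : ∀ x < 2, ¬ Sc x := fun x hx => by
    have : x = 0 ∨ x = 1 := by omega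
    rcases this with rfl | rfl
    · exact hs0
    · exact hs1
  obtain ⟨Q, hQ⟩ : ∃ Q, Q = cl + X + 1 := ⟨_, rfl⟩
  rw [← hQ] at hZ hx₀
  obtain ⟨u, hu⟩ : ∃ u, u = t + (C₃ + 10) * Q := ⟨_, rfl⟩
  have hQ0 : (2 * C₃ + 40 + 4 * r) * Q = (C₃ + 10) * Q + (C₃ + 20 + 4 * r) * Q + 10 * Q := by ring
  have hQ1 : 12 * cl + 4 * r + X + 10 ≤ (20 + 4 * r) * Q := by rw [hQ]; nlinarith
  have hQ2 : (C₃ + 20 + 4 * r) * Q = C₃ * Q + (20 + 4 * r) * Q := by ring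
  have hQ3 : (C₃ + 10) * Q = C₃ * Q + 10 * Q := by ring
  have hQ4 : C₃ ≤ C₃ * Q := Nat.le_mul_of_pos_right _ (by omega)
  -- the direction of the second coordinate
  have hz1 : |hs (TH i (slam F (w i) ω) 2) (bt F ω) (bd F ω) (ev c 2 (gG G ω k) 1)| ≤
      2 ^ (w k + g₀ k 1) / 2 ^ (g₀ k 2 + u) := by
    by_cases h1 : x₀ = 1
    · have h2 := hx₀ (by omega)
      rw [h1] at h2
      refine h2.trans (div_le_div_of_nonneg_left (by positivity) (by positivity) (p2 ?_))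
      omega
    · obtain ⟨n1, n2⟩ := hZ 1 (by norm_num) (Ne.symm h1)
      have hV : en c (g₀ (jx 1)) (w (jx 1)) (gG G ω (jx 1)) 2 (ev c 2 (gG G ω k) 1) ≤
          2 ^ g₀ (jx 1) 1 := by
        have e0 : ev c 2 (gG G ω k) 1 (some (c 0)) = 0 :=
          ev_lt hc2 (hΓ k hk) (by norm_num) (by norm_num)
        have e1 : ev c 2 (gG G ω k) 1 (some (c 1)) = 1 := ev_eq hc2 (hΓ k hk) (by norm_num)
        have e2 : cv (gG G ω (jx 1) 1) (ev c 2 (gG G ω k) 1) = 0 := by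
          have e3 : cv (gG G ω (jx 1) 1) (ev c 2 (gG G ω k) 1) = cv (gG G ω (jx 1) 1) 0 :=
            cv_congr (hΓ _ n1.jN 1) (by rw [ev_none]; rfl) fun l hl => by
              rw [Nat.lt_one_iff.1 hl, e0]
              rfl
          rw [e3]
          unfold cv
          simp
        rw [en_succ, en_succ, en_zero, ev_none, e0, e1, e2, cv_c0 (hΓ _ n1.jN 0)
          (ev_none _ _ _ _)]
        simp
      refine (E.zV hi hgi (by omega) hns n1 hω hV).trans ?_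
      have e1 : 2 ^ (12 * cl + 4 * r + X + 10) * 2 ^ w (jx 1) / 2 ^ g₀ (jx 1) 2 *
          2 ^ g₀ (jx 1) 1 = (2 : ℝ) ^ (12 * cl + 4 * r + X + 10 + w (jx 1) + g₀ (jx 1) 1) /
            2 ^ g₀ (jx 1) 2 := by
        rw [pow_add 2 (12 * cl + 4 * r + X + 10 + w (jx 1)),
          pow_add 2 (12 * cl + 4 * r + X + 10) (w (jx 1))]
        ring
      rw [e1, div_le_div_iff₀ (by positivity) (by positivity), ← pow_add, ← pow_add]
      exact p2 (by omega)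
  intro x hx
  have hx' : x = 0 ∨ x = 1 := by omega
  rcases hx' with rfl | rfl
  · -- the direction of the first coordinate
    by_cases h0 : 0 = x₀
    · have h2 := hx₀ (by omega)
      rw [← h0] at h2
      refine h2.trans (div_le_div_of_nonneg_left (by positivity) (by positivity) (p2 ?_))
      omega
    obtain ⟨n1, n2⟩ := hZ 0 (by norm_num) h0
    obtain ⟨j, hj⟩ : ∃ j, j = jx 0 := ⟨_, rfl⟩
    have hRj := hR h0
    rw [← hj] at n1 n2 hRj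
    obtain ⟨V, hV⟩ : ∃ V, V = ev c 2 (gG G ω k) 0 := ⟨_, rfl⟩
    have v0 : V none = 0 := by rw [hV]; exact ev_none _ _ _ _
    have v1 : V (some (c 0)) = 1 := by rw [hV]; exact ev_eq hc2 (hΓ k hk) (by norm_num)
    have v2 : V (some (c 1)) = cv (gG G ω k 1) V := by
      have h3 := ev_comp hc2 (hΓ k hk) 0 (show 1 < 2 by norm_num)
      rw [if_neg (by norm_num), ← hV] at h3
      linarith
    have hen1 : ∀ y ≤ N, en c (g₀ y) (w y) (gG G ω y) 1 V = 2 ^ g₀ y 0 := fun y hy => by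
      rw [en_succ, en_zero, v0, v1, cv_c0 (hΓ y hy 0) v0]
      simp
    rw [← hV]
    rcases hRj with ⟨w1, ⟨q, hq, hz⟩, r1, r2⟩ | ⟨w1, ⟨q, hq, hz⟩, r1, r2⟩
    · -- an early window
      have a1 := E.ng j n1.jN 1 (by omega)
      have h4 := hbb E n1.jN hk hq w1 hz ω hω 1 (by omega) V
      rw [hen1 k hk] at h4
      have h5 : (2 : ℝ) ^ (C₃ + cl) / 2 ^ min (g j 1 + (w k - w j)) (g₀ k 1) * 2 ^ g₀ k 0 ≤
          2 ^ (C₃ + 3 * cl + 2 * X) * 2 ^ g₀ j 0 / 2 ^ g₀ j 1 := by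
        rw [div_mul_eq_mul_div, div_le_div_iff₀ (by positivity) (by positivity), ← pow_add,
          ← pow_add, ← pow_add, ← pow_add]
        refine p2 ?_
        rcases le_total (g j 1 + (w k - w j)) (g₀ k 1) with h | h
        · rw [min_eq_left h]
          omega
        · rw [min_eq_right h]
          omega
      have hen : en c (g₀ j) (w j) (gG G ω j) 2 V ≤ 2 ^ (C₃ + 3 * cl + 2 * X + 1) *
          2 ^ g₀ j 0 := by
        rw [show (2 : ℕ) = 1 + 1 from rfl, en_succ, hen1 j n1.jN, v2, ← cv_subl]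
        rw [cv_swp] at h4
        have h6 := h4.trans h5
        rw [le_div_iff₀ (by positivity)] at h6
        have h7 : (1 : ℝ) ≤ 2 ^ (C₃ + 3 * cl + 2 * X) := one_le_pow₀ (by norm_num)
        have h8 := mul_le_mul_of_nonneg_right h7 (show (0 : ℝ) ≤ 2 ^ g₀ j 0 by positivity)
        rw [pow_succ 2 (C₃ + 3 * cl + 2 * X)]
        linarith
      refine (E.zV hi hgi (by omega) hns n1 hω hen).trans ?_
      have e1 : 2 ^ (12 * cl + 4 * r + X + 10) * 2 ^ w j / 2 ^ g₀ j 2 *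
          (2 ^ (C₃ + 3 * cl + 2 * X + 1) * 2 ^ g₀ j 0) =
          (2 : ℝ) ^ (12 * cl + 4 * r + X + 10 + w j + (C₃ + 3 * cl + 2 * X + 1) + g₀ j 0) /
            2 ^ g₀ j 2 := by
        rw [pow_add 2 (12 * cl + 4 * r + X + 10 + w j + (C₃ + 3 * cl + 2 * X + 1)),
          pow_add 2 (12 * cl + 4 * r + X + 10 + w j), pow_add 2 (12 * cl + 4 * r + X + 10) (w j)]
        ring
      rw [e1, div_le_div_iff₀ (by positivity) (by positivity), ← pow_add, ← pow_add]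
      exact p2 (by omega)
    · -- a deep window
      have a1 := E.ng k hk 1 (by omega)
      have h4 := hbb E hk n1.jN hq w1 hz ω hω 1 (by omega) V
      rw [hen1 j n1.jN] at h4
      obtain ⟨U, hU⟩ : ∃ U, U = ev c 2 (gG G ω j) 0 := ⟨_, rfl⟩
      have u0 : U none = 0 := by rw [hU]; exact ev_none _ _ _ _
      have u1 : U (some (c 0)) = 1 := by rw [hU]; exact ev_eq hc2 (hΓ j n1.jN) (by norm_num)
      have u2 : U (some (c 1)) = cv (gG G ω j 1) V := by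
        have h3 := ev_comp hc2 (hΓ j n1.jN) 0 (show 1 < 2 by norm_num)
        rw [if_neg (by norm_num), ← hU] at h3
        have h6 : cv (gG G ω j 1) U = cv (gG G ω j 1) V :=
          cv_congr (hΓ j n1.jN 1) (by rw [u0, v0]) fun l hl => by
            rw [Nat.lt_one_iff.1 hl, u1, v1]
        linarith
      obtain ⟨E₁, hE₁⟩ : ∃ E₁, E₁ = ev c 2 (gG G ω k) 1 := ⟨_, rfl⟩
      have x0 : E₁ (some (c 0)) = 0 := by
        rw [hE₁]
        exact ev_lt hc2 (hΓ k hk) (by norm_num) (by norm_num)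
      have x1 : E₁ (some (c 1)) = 1 := by rw [hE₁]; exact ev_eq hc2 (hΓ k hk) (by norm_num)
      have xn : E₁ none = 0 := by rw [hE₁]; exact ev_none _ _ _ _
      obtain ⟨f, hf⟩ : ∃ f, f = cv (gG G ω k 1 - gG G ω j 1) V := ⟨_, rfl⟩
      have hdec : hs (TH i (slam F (w i) ω) 2) (bt F ω) (bd F ω) V =
          hs (TH i (slam F (w i) ω) 2) (bt F ω) (bd F ω) U +
            f * hs (TH i (slam F (w i) ω) 2) (bt F ω) (bd F ω) E₁ := by
        rw [← hs_smul_right, ← hs_add_right]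
        refine hs_cg ((E.evs i hi).thin.depH _ 2) _ _ ?_ fun l hl => ?_
        · show V none = U none + f * E₁ none
          rw [v0, u0, xn]
          ring
        · show V (some (c l)) = U (some (c l)) + f * E₁ (some (c l))
          have : l = 0 ∨ l = 1 := by omega
          rcases this with rfl | rfl
          · rw [v1, u1, x0]
            ring
          · rw [v2, u2, x1, hf, cv_subl]
            ring
      have henU : en c (g₀ j) (w j) (gG G ω j) 2 U ≤ 2 ^ g₀ j 0 := by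
        rw [en_sz _ _ _ _ _ u0, hU]
        exact sz_ev hc2 (hΓ j n1.jN) _ le_rfl
      have h6 := E.zV hi hgi (by omega) hns n1 hω henU
      rw [← hf] at h4
      rw [← hE₁] at hz1
      rw [hdec]
      refine (abs_add_le _ _).trans ?_
      rw [abs_mul]
      have h7 : 2 ^ (12 * cl + 4 * r + X + 10) * 2 ^ w j / 2 ^ g₀ j 2 * 2 ^ g₀ j 0 ≤
          (2 : ℝ) ^ (w k + g₀ k 0) / 2 ^ (g₀ k 2 + (t + 1)) := by
        have e1 : 2 ^ (12 * cl + 4 * r + X + 10) * 2 ^ w j / 2 ^ g₀ j 2 * 2 ^ g₀ j 0 =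
            (2 : ℝ) ^ (12 * cl + 4 * r + X + 10 + w j + g₀ j 0) / 2 ^ g₀ j 2 := by
          rw [pow_add 2 (12 * cl + 4 * r + X + 10 + w j),
            pow_add 2 (12 * cl + 4 * r + X + 10) (w j)]
          ring
        rw [e1, div_le_div_iff₀ (by positivity) (by positivity), ← pow_add, ← pow_add]
        exact p2 (by omega)
      have h8 : |f| * |hs (TH i (slam F (w i) ω) 2) (bt F ω) (bd F ω) E₁| ≤
          (2 : ℝ) ^ (w k + g₀ k 0) / 2 ^ (g₀ k 2 + (t + 1)) := by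
        refine (mul_le_mul h4 hz1 (abs_nonneg _) (by positivity)).trans ?_
        have e1 : (2 : ℝ) ^ (C₃ + cl) / 2 ^ min (g k 1 + (w j - w k)) (g₀ j 1) * 2 ^ g₀ j 0 *
            (2 ^ (w k + g₀ k 1) / 2 ^ (g₀ k 2 + u)) =
            2 ^ (C₃ + cl + g₀ j 0 + (w k + g₀ k 1)) /
              2 ^ (min (g k 1 + (w j - w k)) (g₀ j 1) + (g₀ k 2 + u)) := by
          rw [pow_add 2 (C₃ + cl + g₀ j 0), pow_add 2 (C₃ + cl),
            pow_add 2 (min (g k 1 + (w j - w k)) (g₀ j 1))]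
          field_simp
        rw [e1, div_le_div_iff₀ (by positivity) (by positivity), ← pow_add, ← pow_add]
        refine p2 ?_
        rcases le_total (g k 1 + (w j - w k)) (g₀ j 1) with h | h
        · rw [min_eq_left h]
          omega
        · rw [min_eq_right h]
          omega
      refine (add_le_add (h6.trans h7) h8).trans (le_of_eq ?_)
      rw [show g₀ k 2 + (t + 1) = g₀ k 2 + t + 1 by ring, pow_succ 2 (g₀ k 2 + t)]
      ring
  · refine hz1.trans (div_le_div_of_nonneg_left (by positivity) (by positivity) (p2 ?_))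
    omega

/-- **A static coordinate over two rough coordinates**: with windows `jx x` for all directions
`x ≠ x₀`, the curvature in the direction `x₀` is natural up to `2 ^ t` outside a small event; with
`x₀ = 2` the event is small. -/
theorem sta_two (m D r : ℕ) (hD : 1 ≤ D) (hr : 3 ≤ r) : ∃ C : ℕ, 1 ≤ C ∧
    ∀ {θ : ℝ} {S : PCl m} {P : List (Fin m) × Fin m → ℝ → ℝ → ℝ} (_ : ThrOf (chsys m θ) S P)
    (_ : TmH S) (c : ℕ → Fin m) (_ : Set.InjOn c (Set.Iio (r + 1))) (a : ℚ) (e₁ h₁ ε κ₀ : ℝ)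
    (_ : 0 ≤ a) (_ : a < 1) (_ : e₁ < θ * a) (_ : 0 < h₁) (_ : bet P c 0 a a + h₁ ≤ 1)
    (_ : bet P c 2 a a + h₁ ≤ 1) (_ : 0 < ε) (_ : 0 < κ₀),
    Bas S (fun J F A₀ => ∀ {Dr N M A cl X t i k x₀ : ℕ} {jx : ℕ → ℕ} {Sc : ℕ → Prop}
      {w e h pp : ℕ → ℕ} {z g gc gT g₀ : ℕ → ℕ → ℕ} {κ : ℝ} {B : F.Ω → Prop}
      {G : ℕ → PtT F → ℕ → MvPolynomial (Option (Fin m)) ℝ}
      {H : ℕ → LnT F → ℕ → MvPolynomial (Option (Fin m)) ℝ}
      {T : ℕ → PtT F → ℕ → MvPolynomial (Option (Fin m)) ℝ}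
      {TH : ℕ → LnT F → ℕ → MvPolynomial (Option (Fin m)) ℝ}
      {Gt : ℕ → PtT F → MvPolynomial (Option (Fin m)) ℝ}
      {Ht : ℕ → LnT F → MvPolynomial (Option (Fin m)) ℝ},
      CEv F c r D Dr N M A cl Sc w e h pp z g gc gT g₀ κ B G H T TH Gt Ht → Sub B A₀ →
      ε * J ≤ cl → C ≤ cl → i ≤ N → k ≤ N → w i ≤ w k → w k ≤ ⌊(a : ℝ) * J⌋₊ → ¬ Sc 0 → ¬ Sc 1 →
      (∀ l < r, cl ≤ gT k l ∧ cl ≤ gc k l) → cl ≤ pp k → cl ≤ gc k r → cl ≤ gT i 2 →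
      (A - w k) + g₀ k 2 + t ≤ gT i 2 → (A - w k) + g₀ k 2 + t ≤ gT k 2 →
      C * (cl + X + 1) ≤ t → (∀ l < 2, C * (cl + X + 1) ≤ g₀ k l) →
      (∀ l ≤ 2, e k + g₀ k l + C * (cl + X + 1) ≤ J) → e k + C * (cl + X + 1) ≤ ⌊e₁ * J⌋₊ →
      ⌊(bet P c 0 a a + h₁) * J⌋₊ + w k ≤ g₀ k 0 + X + ⌊(a : ℝ) * J⌋₊ →
      ⌊(bet P c 2 a a + h₁) * J⌋₊ + w k ≤ g₀ k 2 + X + ⌊(a : ℝ) * J⌋₊ →
      (∀ x < 2, x ≠ x₀ → ZNum r N A cl X w pp gc gT g₀ 2 i (jx x) ∧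
        w (jx x) + g₀ (jx x) x + g₀ k 2 + t + C * (cl + X + 1) ≤
          w k + g₀ k x + g₀ (jx x) 2) → (0 ≠ x₀ → BRel M X w z g₀ (jx 0) k) →
      Pe F.p (fun ω => B ω ∧ (x₀ < 2 → |hs (TH i (slam F (w i) ω) 2) (bt F ω) (bd F ω)
        (ev c 2 (gG G ω k) x₀)| ≤ 2 ^ (w k + g₀ k x₀) / 2 ^ (g₀ k 2 + t + C * (cl + X + 1)))) <
          κ₀ * Pe F.p A₀) := by
  classical
  obtain ⟨C, hC, hfl⟩ := sta_flat m D r 2 hD hr
  obtain ⟨C', hC', hz⟩ := CEv.z2 D r hr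
  refine ⟨C + C', by omega, ?_⟩
  intro θ S P hP hT c hc a e₁ h₁ ε κ₀ ha0 ha he hh hb0 hbs hε hκ
  refine Bas.mono 0 (hfl hP hT c hc a e₁ h₁ ε κ₀ ha0 ha he hh hb0 hbs hε hκ) ?_
  rintro J - F A₀ hfA
  intro Dr N M A cl X t i k x₀ jx Sc w e h pp z g gc gT g₀ κ B G H T TH Gt Ht E hBA hεc hCc hi hk hw
    hwa hs0 hs1 h1 hp hgr hgi n1 n2 ht hg₀ hroom hef f0 fs hZ hR
  have hns : ∀ x < 2, ¬ Sc x := fun x hx => by
    have : x = 0 ∨ x = 1 := by omega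
    rcases this with rfl | rfl
    · exact hs0
    · exact hs1
  have hCC : (C + C') * (cl + X + 1) = C * (cl + X + 1) + C' * (cl + X + 1) := by ring
  have h2 := hfA E hBA hεc (by omega) hi hk hw hwa hns h1 hp hgr n1 n2 (t := t) (X := X)
    (by omega) (fun l hl => by
      have := hg₀ l hl
      omega) (fun l hl => by
      have := hroom l hl
      omega) (by omega) f0 fs
  refine lt_of_le_of_lt (Pe_mono F.isLaw fun ω hω => ⟨hω.1, ?_⟩) h2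
  refine hz E hi hk hs0 hs1 hgi (fun x hx hx0 => ⟨(hZ x hx hx0).1, ?_⟩) hR ω hω.1
    (fun hx => (hω.2 hx).trans (div_le_div_of_nonneg_left (by positivity) (by positivity)
      (p2 (by omega))))
  have := (hZ x hx hx0).2
  omega

end Pool.TN
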