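import Pool.Agent.H88.D2.Sfh
import Pool.Agent.H95.R136.Ap2

/-!
# The static place two over a static place one, class statements

`CEv.dq`: the derivative along the line of the component in the direction of the place one, from its
nearness to a ball. `sta_st`: the event without curvature of the place two is small.
-/

set_option autoImplicit false

namespace Pool.TN

open Finset Real MvPolynomial
open Pool.Agent.H49.Ent Pool.Agent.H32.Dense Pool.STK Pool.KA Pool.KSAT Pool.K2S Pool.PB Pool.S6C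
open Pool.GEN Pool.CHT Pool.CHX Pool.ISO Pool.D2R Pool.D2Z Pool.D2F
open Pool.LBT (ThrOf)
open Pool.FLF (Fam.sub)
open Pool.PB.Trl (rt rt_mem t_rt)

variable {m J : ℕ}

/-- The second derivative in the direction of the unit vector of the place one. -/
theorem hs_uQ {c : ℕ → Fin m} (hc : Set.InjOn c (Set.Iio 2)) {Q : MvPolynomial (Option (Fin m)) ℝ}
    (hQ : DepC c 2 Q) (x W : Option (Fin m) → ℝ) :
    hs Q x W (uQ c) = dd (pderiv (some (c 1)) Q) x W := by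
  rw [hs_sum_c hc hQ x W (uQ_n c), Finset.sum_range_succ, Finset.sum_range_one, uQ_0 hc, uQ_1]
  ring

/-- **The derivative of the component in the direction of the place one.** -/
theorem CEv.dq (m D r : ℕ) (hD : 1 ≤ D) (hr : 3 ≤ r) : ∃ C : ℕ, 1 ≤ C ∧ ∀ {J : ℕ} {F : Fam m J}
    {c : ℕ → Fin m} {Dr N M A cl : ℕ} {Sc : ℕ → Prop} {w e h pp : ℕ → ℕ}
    {z g gc gT g₀ : ℕ → ℕ → ℕ} {κ θ : ℝ}
    {B : F.Ω → Prop} {G : ℕ → PtT F → ℕ → MvPolynomial (Option (Fin m)) ℝ}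
    {H : ℕ → LnT F → ℕ → MvPolynomial (Option (Fin m)) ℝ}
    {T : ℕ → PtT F → ℕ → MvPolynomial (Option (Fin m)) ℝ}
    {TH : ℕ → LnT F → ℕ → MvPolynomial (Option (Fin m)) ℝ}
    {Gt : ℕ → PtT F → MvPolynomial (Option (Fin m)) ℝ}
    {Ht : ℕ → LnT F → MvPolynomial (Option (Fin m)) ℝ},
    CEv F c r D Dr N M A cl Sc w e h pp z g gc gT g₀ κ B G H T TH Gt Ht →
    ∀ (hB : 0 < Pe F.p B) {i j Y n : ℕ}, i ≤ N → j ≤ N → w i ≤ w j → cl ≤ pp j → cl ≤ gc j r →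
      0 ≤ θ → (Fam.sub F B hB).Tm θ →
      C * (θ + 1) ≤ ((J : ℝ) - w j) * Real.log 2 → Real.exp (C * (θ + 1)) ≤ 2 ^ n →
      (∀ ω, B ω → |kT w TH ω i 2 (some (c 1)) - gG G ω j 2 (some (c 1))| ≤
        2 ^ Y * (2 ^ g₀ j 1 / 2 ^ g₀ j 2)) →
      ∃ B' : F.Ω → Prop, Sub B' B ∧ Pe F.p B / 2 ≤ Pe F.p B' ∧ ∀ ω, B' ω →
        |hs (TH i (slam F (w i) ω) 2) (bt F ω) (bd F ω) (uQ c)| ≤
          2 ^ (C * (cl + n + 1) + Y) * (2 ^ (w j + g₀ j 1) / 2 ^ g₀ j 2) := by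
  obtain ⟨C₁, hC₁, hrem⟩ := rem_fam m D 1
  obtain ⟨C₂, hC₂, hmk⟩ := Pool.Agent.H40.BFL.unit_markov D
  obtain ⟨C₃, hC₃⟩ := exists_nat_ge C₁
  obtain ⟨C₄, hC₄⟩ := pow_unbounded_of_one_lt C₂ (one_lt_two (α := ℝ))
  refine ⟨C₃ + C₄ + 20 + 4 * r, by omega, ?_⟩
  intro J F c Dr N M A cl Sc w e h pp z g gc gT g₀ κ θ B G H T TH Gt Ht E hB i j Y n hi hj hij h1
    h2 hθ hTm hCJ hexp hnear
  have hjJ : w j ≤ J := (E.wA j hj).trans E.AJ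
  have hc2 : Set.InjOn c (Set.Iio 2) := E.inj.mono (Set.Iio_subset_Iio (by omega))
  have hCC : C₁ * (θ + 1) ≤ ((C₃ + C₄ + 20 + 4 * r : ℕ) : ℝ) * (θ + 1) := by
    refine mul_le_mul_of_nonneg_right (hC₃.trans ?_) (by linarith)
    exact_mod_cast (by omega : C₃ ≤ C₃ + C₄ + 20 + 4 * r)
  obtain ⟨d, hd⟩ : ∃ d, d = w j - w i := ⟨_, rfl⟩
  have hwj : w j = w i + d := by omega
  obtain ⟨n0, hn0⟩ : ∃ x : ℝ, x = 2 ^ g₀ j 1 / 2 ^ g₀ j 2 := ⟨_, rfl⟩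
  have hn00 : 0 < n0 := by rw [hn0]; positivity
  obtain ⟨S, hS⟩ : ∃ S : ℝ, S = 2 ^ (cl + Y + 1) * n0 := ⟨_, rfl⟩
  have hS0 : 0 < S := by rw [hS]; positivity
  have h1c : (1 : ℝ) ≤ 2 ^ cl := one_le_pow₀ (by norm_num)
  have h1Y : (1 : ℝ) ≤ 2 ^ Y := one_le_pow₀ (by norm_num)
  -- the two closed labels
  obtain ⟨Q₁, hQ₁⟩ : ∃ Q : LnT F → MvPolynomial (Option (Fin m)) ℝ, Q = ltr (TH i) d 2 :=
    ⟨_, rfl⟩
  obtain ⟨Q₂, hQ₂⟩ : ∃ Q : LnT F → MvPolynomial (Option (Fin m)) ℝ,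
    Q = Hno (c 2) (fun s => H j s 2) := ⟨_, rfl⟩
  have hd1 : ∀ s, (Q₁ s).totalDegree ≤ D := fun s => by
    rw [hQ₁]
    exact (E.evs i hi).thin.degH _ 2
  have hp1 : ∀ s, DepC c 2 (Q₁ s) := fun s => by
    rw [hQ₁]
    exact (E.evs i hi).thin.depH _ 2
  have hd2 : ∀ s, (Q₂ s).totalDegree ≤ D := fun s => by
    rw [hQ₂]
    exact deg_Hno _ _ _ hD ((E.evs j hj).ball.degH _ 2)
  have hp2 : ∀ s, DepC c 2 (Q₂ s) := fun s => by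
    rw [hQ₂]
    exact depC_Hno _ _ _ ((E.evs j hj).ball.depH _ 2)
  have hQ1s : ∀ ω : F.Ω, Q₁ (slam F (w j) ω) = TH i (slam F (w i) ω) 2 := fun ω => by
    rw [hQ₁, hd]
    exact ltr_slam F (TH i) hij hjJ 2 ω
  obtain ⟨q, hq⟩ : ∃ q : ℕ → LnT F → Polynomial ℝ,
    q = fun _ s => kpol c (w j) Q₁ s 1 - kpol c (w j) Q₂ s 1 := ⟨_, rfl⟩
  have hqd : ∀ j' < 1, ∀ s, (q j' s).natDegree ≤ D := fun _ _ s => by
    rw [hq]
    exact (Polynomial.natDegree_sub_le _ _).trans (max_le (kpol_deg (F := F) c (w j) hd1 s 1)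
      (kpol_deg (F := F) c (w j) hd2 s 1))
  have hdif : ∀ ω, B ω → |grd (Q₂ (slam F (w j) ω)) (bt F ω) (some (c 1)) -
      gG G ω j 2 (some (c 1))| ≤ 2 ^ cl * n0 := fun ω hω => by
    have h3 := ((E.row j hj j hj le_rfl 0 (by omega) (by omega)).dif ω hω 2 (by omega)).1 (uQ c)
    rw [nrm_en, dd_sub] at h3
    have e0 : (fun j' => grd (G j (ptr F J ω) j') (bt F ω)) = gG G ω j := rfl
    rw [e0, en2v _ _ (E.cΓ hj ω) (uQ_n c), cv1v (E.cΓ hj ω 1) (uQ_n c), uQ_0 hc2, uQ_1, abs_zero,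
      mul_zero, mul_zero, sub_zero, abs_one, mul_one, zero_add, ← cv_grd, ← cv_grd,
      cv_uQ hc2 (cvc_grd ((E.evs j hj).ball.depG _ 2) _)] at h3
    rw [cv_uQ hc2 (cvc_grd (depC_Hno _ _ _ ((E.evs j hj).ball.depH _ 2)) _)] at h3
    rw [hQ₂, hn0]
    refine h3.trans (le_of_eq ?_)
    ring
  obtain ⟨B', c1, c2, c3⟩ := hrem J F B hB (w j) q (fun _ => S) θ hjJ hqd (fun _ _ => hS0) hθ hTm
    (hCC.trans hCJ) (fun ω hω _ _ => by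
      rw [hq]
      beta_reduce
      rw [Polynomial.eval_sub, kpol_rt F c hjJ Q₁ ω 1, kpol_rt F c hjJ Q₂ ω 1, hQ1s]
      have b1 := hnear ω hω
      rw [← hn0] at b1
      have b2 := hdif ω hω
      have e1 : grd (TH i (slam F (w i) ω) 2) (bt F ω) (some (c 1)) -
          grd (Q₂ (slam F (w j) ω)) (bt F ω) (some (c 1)) =
          (kT w TH ω i 2 (some (c 1)) - gG G ω j 2 (some (c 1))) -
          (grd (Q₂ (slam F (w j) ω)) (bt F ω) (some (c 1)) - gG G ω j 2 (some (c 1))) := by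
        unfold kT
        ring
      rw [e1]
      refine (abs_sub _ _).trans ((add_le_add b1 b2).trans ?_)
      rw [← add_mul, hS]
      refine mul_le_mul_of_nonneg_right ?_ hn00.le
      have f1 : (2 : ℝ) ^ Y ≤ 2 ^ (cl + Y) := p2 (by omega)
      have f2 : (2 : ℝ) ^ cl ≤ 2 ^ (cl + Y) := p2 (by omega)
      have f3 : (2 : ℝ) ^ (cl + Y + 1) = 2 ^ (cl + Y) * 2 := pow_succ _ _
      linarith only [f1, f2, f3])
  refine ⟨B', c1, c2, fun ω hω => ?_⟩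
  have hωB := c1 ω hω
  have hsup : ∀ τ ∈ Set.Icc (0 : ℝ) 1, |(q 0 (slam F (w j) ω)).eval τ| ≤ 2 ^ n * S :=
    fun τ hτ => (c3 ω hω 0 (by norm_num) τ hτ).trans (mul_le_mul_of_nonneg_right
      ((Real.exp_le_exp.2 hCC).trans hexp) hS0.le)
  have hder := hmk _ (2 ^ n * S) (hqd 0 (by norm_num) _) hsup (rt F (w j) ω) (rt_mem F (w j) ω)
  rw [hq] at hder
  beta_reduce at hder
  rw [Polynomial.derivative_sub, Polynomial.eval_sub, kpol_der F c hjJ Q₁ ω 1,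
    kpol_der F c hjJ Q₂ ω 1, ← hs_uQ hc2 (hp1 _), ← hs_uQ hc2 (hp2 _), hQ1s] at hder
  have hz := E.zG hj h1 h2 hωB (l := 2) (by omega) (uQ c)
  rw [en2v _ _ (E.cΓ hj ω) (uQ_n c), cv1v (E.cΓ hj ω 1) (uQ_n c), uQ_0 hc2, uQ_1, abs_zero,
    mul_zero, mul_zero, sub_zero, abs_one, mul_one, zero_add, ← hQ₂] at hz
  obtain ⟨a, ha⟩ : ∃ a : ℝ, a = hs (TH i (slam F (w i) ω) 2) (bt F ω) (bd F ω) (uQ c) := ⟨_, rfl⟩
  obtain ⟨b, hb⟩ : ∃ b : ℝ, b = hs (Q₂ (slam F (w j) ω)) (bt F ω) (bd F ω) (uQ c) := ⟨_, rfl⟩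
  rw [← ha, ← hb] at hder
  rw [← hb] at hz
  rw [← ha]
  have e1 : |a - b| ≤ 2 ^ w j * (C₂ * (2 ^ n * S)) := by
    have e2 : 1 / 2 ^ w j * a - 1 / 2 ^ w j * b = 1 / 2 ^ w j * (a - b) := by ring
    rw [e2, abs_mul, abs_of_pos (by positivity : (0 : ℝ) < 1 / 2 ^ w j), one_div,
      inv_mul_le_iff₀ (by positivity)] at hder
    exact hder
  have e2 : |a| ≤ |a - b| + |b| := by
    have : a = (a - b) + b := by ring
    calc |a| = |(a - b) + b| := by rw [← this]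
      _ ≤ _ := abs_add_le _ _
  refine e2.trans ((add_le_add e1 hz).trans ?_)
  obtain ⟨U, hU⟩ : ∃ U : ℝ, U = 2 ^ w j * n0 := ⟨_, rfl⟩
  have hU0 : 0 < U := by rw [hU]; positivity
  have e3 : (2 : ℝ) ^ (w j + g₀ j 1) / 2 ^ g₀ j 2 = U := by
    rw [hU, hn0, pow_add 2 (w j)]
    ring
  have e4 : 2 ^ w j * (C₂ * (2 ^ n * S)) = C₂ * 2 ^ (n + cl + Y + 1) * U := by
    rw [hS, hU, show n + cl + Y + 1 = n + (cl + Y + 1) by ring, pow_add 2 n (cl + Y + 1)]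
    ring
  have e5 : (2 : ℝ) ^ (3 * cl + 2 * r + 2) * 2 ^ w j / 2 ^ g₀ j 2 * 2 ^ g₀ j 1 =
      2 ^ (3 * cl + 2 * r + 2) * U := by
    rw [hU, hn0]
    ring
  rw [e3, e4, e5, ← add_mul]
  refine mul_le_mul_of_nonneg_right ?_ hU0.le
  obtain ⟨Z, hZ⟩ : ∃ Z, Z = C₄ + n + 3 * cl + 2 * r + Y + 2 := ⟨_, rfl⟩
  have f1 : C₂ * 2 ^ (n + cl + Y + 1) ≤ 2 ^ Z := by
    calc C₂ * 2 ^ (n + cl + Y + 1) ≤ 2 ^ C₄ * 2 ^ (n + cl + Y + 1) :=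
          mul_le_mul_of_nonneg_right hC₄.le (by positivity)
      _ = 2 ^ (C₄ + (n + cl + Y + 1)) := (pow_add _ _ _).symm
      _ ≤ _ := p2 (by omega)
  have f2 : (2 : ℝ) ^ (3 * cl + 2 * r + 2) ≤ 2 ^ Z := p2 (by omega)
  have f3 : (2 : ℝ) ^ Z * 2 ≤ 2 ^ ((C₃ + C₄ + 20 + 4 * r) * (cl + n + 1) + Y) := by
    rw [← pow_succ]
    refine p2 ?_
    have h5 : (C₃ + C₄ + 20 + 4 * r) * (cl + n + 1) = C₃ * (cl + n + 1) +
        C₄ * (cl + n + 1) + (20 + 4 * r) * (cl + n + 1) := by ring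
    have h6 : C₄ ≤ C₄ * (cl + n + 1) := Nat.le_mul_of_pos_right _ (by omega)
    have h7 : n + 3 * cl + 2 * r + 3 ≤ (20 + 4 * r) * (cl + n + 1) := by nlinarith
    omega
  linarith only [f1, f2, f3]

/-- **The numbers of** `sta_st`: the label window `i`, the ball `k`, a finer ball `j`, the last ball
`l`; `Q` the loss. -/
structure SNum (J r N A cl X Q : ℕ) (w e pp : ℕ → ℕ) (gc gT g₀ : ℕ → ℕ → ℕ)
    (i k j l a₁ e₁ b0 b2 : ℕ) : Prop where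
  ik : BNum r N A cl X w pp gc gT g₀ i k
  kk : BNum r N A cl X w pp gc gT g₀ k k
  ij : BNum r N A cl X w pp gc gT g₀ i j
  il : BNum r N A cl X w pp gc gT g₀ i l
  kl : BNum r N A cl X w pp gc gT g₀ k l
  lbj : g₀ j 1 + (A - w j) ≤ gT i 1 + X
  qx : ∀ x, x = k ∨ x = j → gT l 1 + g₀ x 2 ≤ g₀ l 2 + (A - w l) + g₀ x 1 + X ∧
    g₀ l 1 + g₀ x 2 ≤ g₀ l 2 + g₀ x 1 + X
  K1 : w k ≤ a₁
  ex : ∃ E₁, A - w k ≤ E₁ ∧ gT k 1 ≤ g₀ k 1 + E₁ ∧ E₁ + g₀ k 2 + Q ≤ gT i 2 ∧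
    E₁ + g₀ k 2 + Q ≤ gT k 2
  g0 : ∀ x < 2, Q ≤ g₀ k x
  rm : ∀ x ≤ 2, e k + g₀ k x + Q ≤ J
  ef : e k + Q ≤ e₁
  f0 : b0 + w k ≤ g₀ k 0 + X + a₁
  f2 : b2 + w k ≤ g₀ k 2 + X + a₁
  wt : w j + g₀ j 0 + g₀ k 2 + Q + Q ≤ w k + g₀ k 0 + g₀ j 2

/-- **The curvature of the static place two** in the direction of the static place one is not small. -/
theorem sta_st (m D r : ℕ) (hD : 1 ≤ D) (hr : 3 ≤ r) : ∃ C : ℕ, 1 ≤ C ∧
    ∀ {θ : ℝ} {S : PCl m} {P : List (Fin m) × Fin m → ℝ → ℝ → ℝ} (_ : ThrOf (chsys m θ) S P)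
    (_ : TmH S) (c : ℕ → Fin m) (_ : Set.InjOn c (Set.Iio (r + 1))) (a : ℚ) (e₁ h₁ ε κ₀ : ℝ)
    (_ : 0 ≤ a) (_ : a < 1) (_ : e₁ < θ * a) (_ : 0 < h₁) (_ : bet P c 0 a a + h₁ ≤ 1)
    (_ : bet P c 2 a a + h₁ ≤ 1) (_ : 0 < ε) (_ : 0 < κ₀),
    Bas S (fun J F A₀ => ∀ {Dr N M A cl X Y i k j l : ℕ} {Sc : ℕ → Prop} {w e h pp : ℕ → ℕ}
      {z g gc gT g₀ : ℕ → ℕ → ℕ} {κ : ℝ} {B : F.Ω → Prop}
      {G : ℕ → PtT F → ℕ → MvPolynomial (Option (Fin m)) ℝ}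
      {H : ℕ → LnT F → ℕ → MvPolynomial (Option (Fin m)) ℝ}
      {T : ℕ → PtT F → ℕ → MvPolynomial (Option (Fin m)) ℝ}
      {TH : ℕ → LnT F → ℕ → MvPolynomial (Option (Fin m)) ℝ}
      {Gt : ℕ → PtT F → MvPolynomial (Option (Fin m)) ℝ}
      {Ht : ℕ → LnT F → MvPolynomial (Option (Fin m)) ℝ},
      CEv F c r D Dr N M A cl Sc w e h pp z g gc gT g₀ κ B G H T TH Gt Ht → Sub B A₀ →
      ε * J ≤ cl → C ≤ cl → ¬ Sc 0 → Sc 1 →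
      SNum J r N A cl X (C * (cl + X + Y + 1)) w e pp gc gT g₀ i k j l ⌊(a : ℝ) * J⌋₊
        ⌊e₁ * J⌋₊ ⌊(bet P c 0 a a + h₁) * J⌋₊ ⌊(bet P c 2 a a + h₁) * J⌋₊ →
      (∀ ω, B ω → ∀ x, x = k ∨ x = j → |gG G ω l 2 (some (c 1)) - gG G ω x 2 (some (c 1))| ≤
        2 ^ Y * (2 ^ g₀ x 1 / 2 ^ g₀ x 2)) →
      Pe F.p (fun ω => B ω ∧ |hs (TH i (slam F (w i) ω) 2) (bt F ω) (bd F ω) (uQ c)| ≤
        2 ^ (w k + g₀ k 1) / 2 ^ (g₀ k 2 + 2 * (C * (cl + X + Y + 1)))) < κ₀ * Pe F.p A₀) := by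
  classical
  obtain ⟨C₀, hC₀, hfl⟩ := sta_flatG m D r 2 hD hr
  obtain ⟨C₁, hC₁, hv2⟩ := CEv.v2 D r hr
  obtain ⟨C₂, hC₂, hu4⟩ := CEv.u4 r hr
  obtain ⟨C, hC⟩ : ∃ C, C = C₀ * (60 * (r + 1) + 8) + C₁ + C₂ + 20 := ⟨_, rfl⟩
  refine ⟨C, by omega, ?_⟩
  intro θ S P hP hT c hc a e₁ h₁ ε κ₀ ha0 ha1 he hh hb0 hb2 hε hκ
  refine Bas.mono 0 (hfl hP hT c hc a e₁ h₁ ε κ₀ ha0 ha1 he hh hb0 hb2 hε hκ) ?_
  rintro J - F A₀ hfA
  intro Dr N M A cl X Y i k j l Sc w e h pp z g gc gT g₀ κ B G H T TH Gt Ht E hBA hεc hCc hs0 hs1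
    n hch
  have hc2 : Set.InjOn c (Set.Iio 2) := hc.mono (Set.Iio_subset_Iio (by omega))
  obtain ⟨S', hS'⟩ : ∃ S', S' = cl + X + 1 := ⟨_, rfl⟩
  obtain ⟨q, hq⟩ : ∃ q, q = cl + X + Y + 1 := ⟨_, rfl⟩
  obtain ⟨Q, hQ⟩ : ∃ Q, Q = C * q := ⟨_, rfl⟩
  obtain ⟨Z, hZ⟩ : ∃ Z, Z = 6 * S' + Y := ⟨_, rfl⟩
  obtain ⟨Zv, hZv⟩ : ∃ Zv, Zv = 60 * (r + 1) * S' + Z := ⟨_, rfl⟩
  obtain ⟨Q₀, hQ₀⟩ : ∃ Q₀, Q₀ = C₀ * (cl + X + Zv + 1) := ⟨_, rfl⟩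
  rw [← hq, ← hQ] at n ⊢
  have hC0C : C₀ ≤ C₀ * (60 * (r + 1) + 8) := Nat.le_mul_of_pos_right _ (by omega)
  have hSq : S' ≤ q := by omega
  have hQQ : Q₀ + C₂ * q + 20 * q ≤ Q := by
    have e1 : cl + X + Zv + 1 ≤ (60 * (r + 1) + 8) * q := by
      have e2 : 60 * (r + 1) * S' ≤ 60 * (r + 1) * q := Nat.mul_le_mul_left _ hSq
      have e3 : (60 * (r + 1) + 8) * q = 60 * (r + 1) * q + 8 * q := by ring
      omega
    have e2 := Nat.mul_le_mul_left C₀ e1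
    have e3 : C * q = C₀ * ((60 * (r + 1) + 8) * q) + C₁ * q + C₂ * q + 20 * q := by
      rw [hC]
      ring
    omega
  have hkq : ∀ ω, B ω → |kT w TH ω k 2 (some (c 1)) - gG G ω k 2 (some (c 1))| ≤
      2 ^ Z * (2 ^ g₀ k 1 / 2 ^ g₀ k 2) := fun ω hω => by
    have h3 := n.qx k (Or.inl rfl)
    rw [hZ, hS']
    exact E.kq hr n.kl hω (hch ω hω k (Or.inl rfl)) h3.1 h3.2
  have hjq : ∀ ω, B ω → |kT w TH ω i 2 (some (c 1)) - gG G ω j 2 (some (c 1))| ≤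
      2 ^ Z * (2 ^ g₀ j 1 / 2 ^ g₀ j 2) := fun ω hω => by
    have h3 := n.qx j (Or.inr rfl)
    rw [hZ, hS']
    exact E.kq hr n.il hω (hch ω hω j (Or.inr rfl)) h3.1 h3.2
  obtain ⟨E₁, x1, x2, x3, x4⟩ := n.ex
  have hmain := hfA E hBA hεc (by omega) (X := X) (Zv := Zv) (t := Q) n.ik.iN n.ik.jN n.ik.ij
    n.K1 n.kk.cp n.kk.cr (by omega) (fun x hx => by
      have := n.g0 x hx
      omega) (fun x hx => by
      have := n.rm x hx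
      omega) (by have := n.ef; omega) n.f0 n.f2 (fun ω hω => by
      rw [hZv, hS']
      exact hv2 E (by omega) hs0 n.ik n.kk x1 x2 x3 x4 hω (hkq ω hω))
  refine lt_of_le_of_lt (Pe_mono F.isLaw ?_) hmain
  rintro ω ⟨hω, hsm⟩
  refine ⟨hω, fun x hx => ?_⟩
  have hQd : DepC c 2 (TH i (slam F (w i) ω) 2) := (E.evs i n.ik.iN).thin.depH _ 2
  have hΓ : ∀ y, CvC c y (gG G ω k y) := E.cΓ n.ik.jN ω
  have hx01 : x = 0 ∨ x = 1 := by omega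
  rcases hx01 with rfl | rfl
  · -- the frame vector
    obtain ⟨P', hP'⟩ : ∃ P, P = ev c 2 (kT w TH ω i) 0 := ⟨_, rfl⟩
    obtain ⟨V₀, hV₀⟩ : ∃ V, V = ev c 2 (gG G ω k) 0 := ⟨_, rfl⟩
    have hFP : FrP c w TH ω i P' := by
      have h3 := ev_comp hc2 (E.cK n.ik.iN ω) 0 (show 1 < 2 by norm_num)
      rw [if_neg (by norm_num), ← hP'] at h3
      exact ⟨by rw [hP']; exact ev_none _ _ _ _, by
        rw [hP']
        exact ev_eq hc2 (E.cK n.ik.iN ω) (by norm_num), by linarith only [h3]⟩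
    have v0 : V₀ none = 0 := by rw [hV₀]; exact ev_none _ _ _ _
    have v1 : V₀ (some (c 0)) = 1 := by rw [hV₀]; exact ev_eq hc2 hΓ (by norm_num)
    have v2 : V₀ (some (c 1)) = cv (gG G ω k 1) V₀ := by
      have h3 := ev_comp hc2 hΓ 0 (show 1 < 2 by norm_num)
      rw [if_neg (by norm_num), ← hV₀] at h3
      linarith only [h3]
    obtain ⟨al, hal⟩ : ∃ al, al = V₀ (some (c 1)) - P' (some (c 1)) := ⟨_, rfl⟩
    have hal1 : |al| ≤ 2 ^ (8 * S') * (2 ^ g₀ k 0 / 2 ^ g₀ k 1) := by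
      have h3 := E.u1 hr hs0 n.ik hω v0
      rw [v1, abs_one, mul_one, cv_subl, ← hS'] at h3
      have e1 : cv (kT w TH ω i 1) V₀ = P' (some (c 1)) := by
        rw [hFP.p2, cv1v (E.cK n.ik.iN ω 1) v0, cv1v (E.cK n.ik.iN ω 1) hFP.p0, v1, hFP.p1]
      rw [e1, ← v2, abs_sub_comm, ← hal] at h3
      rw [← mul_div_assoc, le_div_iff₀ (by positivity)]
      linarith only [h3]
    have e1 : hs (TH i (slam F (w i) ω) 2) (bt F ω) (bd F ω) V₀ =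
        hs (TH i (slam F (w i) ω) 2) (bt F ω) (bd F ω) (P' + al • uQ c) := by
      refine hs_cg hQd _ _ ?_ fun y hy => ?_
      · rw [v0, Pi.add_apply, Pi.smul_apply, uQ_n, hFP.p0, smul_zero, add_zero]
      · have hy01 : y = 0 ∨ y = 1 := by omega
        rcases hy01 with rfl | rfl
        · rw [v1, Pi.add_apply, Pi.smul_apply, uQ_0 hc2, hFP.p1, smul_zero, add_zero]
        · rw [Pi.add_apply, Pi.smul_apply, uQ_1, smul_eq_mul, mul_one, hal]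
          ring
    rw [← hV₀, e1, hs_add_right, hs_smul_right]
    have h4 := hu4 E hs0 hs1 n.ij n.lbj hω (hjq ω hω) hFP
    rw [← hS'] at h4
    have k1 : (2 : ℝ) ^ (C₂ * S' + Z) * (2 ^ (w j + g₀ j 0) / 2 ^ g₀ j 2) ≤
        2 ^ (w k + g₀ k 0) / 2 ^ (g₀ k 2 + Q + 1) := by
      rw [← mul_div_assoc, div_le_div_iff₀ (by positivity) (by positivity), ← pow_add, ← pow_add,
        ← pow_add]
      refine p2 ?_
      have h5 := n.wt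
      have h6 : C₂ * S' ≤ C₂ * q := Nat.mul_le_mul_left _ hSq
      omega
    have k2 : |al| * |hs (TH i (slam F (w i) ω) 2) (bt F ω) (bd F ω) (uQ c)| ≤
        2 ^ (w k + g₀ k 0) / 2 ^ (g₀ k 2 + Q + 1) := by
      refine (mul_le_mul hal1 hsm (abs_nonneg _) (by positivity)).trans ?_
      have e2 : (2 : ℝ) ^ (8 * S') * (2 ^ g₀ k 0 / 2 ^ g₀ k 1) *
          (2 ^ (w k + g₀ k 1) / 2 ^ (g₀ k 2 + 2 * Q)) =
          2 ^ (8 * S' + w k + g₀ k 0) / 2 ^ (g₀ k 2 + 2 * Q) := by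
        rw [pow_add 2 (w k), pow_add 2 (8 * S' + w k), pow_add 2 (8 * S')]
        field_simp
      rw [e2, div_le_div_iff₀ (by positivity) (by positivity), ← pow_add, ← pow_add]
      exact p2 (by omega)
    rw [← abs_mul] at k2
    refine (abs_add_le _ _).trans ((add_le_add (h4.trans k1) k2).trans (le_of_eq ?_))
    rw [show g₀ k 2 + Q + 1 = (g₀ k 2 + Q) + 1 by ring, pow_succ (2 : ℝ) (g₀ k 2 + Q)]
    have e3 : (2 : ℝ) ^ (w k + g₀ k 0) / (2 ^ (g₀ k 2 + Q) * 2) =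
        2 ^ (w k + g₀ k 0) / 2 ^ (g₀ k 2 + Q) / 2 := by rw [div_div]
    rw [e3]
    ring
  · -- the direction of the place one
    obtain ⟨V₀, hV₀⟩ : ∃ V, V = ev c 2 (gG G ω k) 1 := ⟨_, rfl⟩
    have e1 : hs (TH i (slam F (w i) ω) 2) (bt F ω) (bd F ω) V₀ =
        hs (TH i (slam F (w i) ω) 2) (bt F ω) (bd F ω) (uQ c) := by
      refine hs_cg hQd _ _ ?_ fun y hy => ?_
      · rw [uQ_n, hV₀]
        exact ev_none _ _ _ _
      · have hy01 : y = 0 ∨ y = 1 := by omega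
        rcases hy01 with rfl | rfl
        · rw [uQ_0 hc2, hV₀]
          exact ev_lt hc2 hΓ (by norm_num) (by norm_num)
        · rw [uQ_1, hV₀]
          exact ev_eq hc2 hΓ (by norm_num)
    rw [← hV₀, e1]
    refine hsm.trans ?_
    rw [div_le_div_iff₀ (by positivity) (by positivity), ← pow_add, ← pow_add]
    exact p2 (by omega)

end Pool.TN
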