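import Pool.Agent.H3.D2G.RecH

/-!
# The joint of the cells with all the parameters chosen at the window

`CelQI`: as `CelQH`; the radii, the lists of windows, the accuracy and the scale are chosen after the
class, the window `g` and the property at `g`. `cell_of_gi`, `lCellA_of_gi`: the joints.
-/

set_option autoImplicit false

namespace Pool.PKG

open MeasureTheory Set Filter Topology
open Pool.Agent.H49.Ent Pool.Agent.H32.Dense Pool.STK Pool.KA Pool.KSAT Pool.K2S Pool.PB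
open Pool.GEN Pool.S6C Pool.STAT Pool.CHT Pool.GRW Pool.ONE Pool.STA
open Pool.LBT (LSys ThrOf)
open Pool.LEV (Law)
open Pool.ALL (RateOf)
open Pool.TOP (TopS)
open Pool.STR (ThinAt SteepAt StaAt sta_of_pairs)
open Pool.ISO (PtD lvN WinD)

/-- **The class theorem of a cell at a window** `g`: all the parameters are chosen after the class,
the window and the property at the window. -/
def CelQI {ι : Type} (n i : ℕ) (h : ℝ) (Sl : ℕ → ℝ) (κ : ℕ → Kg) (Q : PropG n ι) : Prop :=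
  ∀ al : ℝ, 0 < al → ∀ K₀ : ℝ, 0 < K₀ → ∀ del : ℝ, 0 < del → ∀ S₀ : ℕ, 1 ≤ S₀ →
    ∀ (S : PCl n) (g₀ : ℝ → ℝ) (P : List (Fin n) × Fin n → ℝ → ℝ → ℝ)
    (θ : ℝ) (c : ℕ → Fin n) (Pt : ℝ → ℝ → ℝ) (r : ℝ → ℝ) (L T : ℕ → ℝ → ℝ → ℝ) (G : Set ℝ) (g : ℝ),
    IsClosed G → g ∈ G → (∀ l < n, HasDerivAt (fun x => L l x x) (Sl l) g) →
    (∀ p : ι, ∃ k₀ : ℕ, Q p k₀ S P θ c Pt r L T κ G g) →
    ∃ (K : ℝ) (N : ℕ) (A V : ℕ → ℝ), 1 ≤ K ∧ (∀ k < N, -K ≤ V k ∧ V k ≤ A k ∧ A k ≤ K) ∧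
    ∀ S₂ : ℕ, S₀ ≤ S₂ → ∃ (K' : ℝ) (N' : ℕ) (V' : ℕ → ℝ), K ≤ K' ∧
      (∀ k < N', -K' ≤ V' k ∧ V' k ≤ K') ∧ ∃ ε q₁ : ℝ, 0 < ε ∧ 0 < q₁ ∧
      ∀ (P₂ : ℕ → List (Fin n) × Fin n → ℝ → ℝ → ℝ) (θ₂ Eb e₂ : ℕ → ℝ) (q t : ℝ), q < q₁ →
      RecG S al g₀ P θ P₂ θ₂ Eb e₂ c Pt r h K₀ g L T Sl κ G S₀ N A V S₂ N' V' K' ε q t →
      L i (t + q) (t + q) ≤ L i (t + q) t + del * q

/-- A class theorem which does not use the property at the points near the window. -/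
theorem CellQ.qi {ι : Type} {n i : ℕ} (hi1 : 1 ≤ i) (hi : i < n) {h : ℝ} {Sl : ℕ → ℝ}
    {κ' : ℕ → Kd} {κ : ℕ → Kg} (hκi : κ i = .stp) (hκ : ∀ l < i, κ l = ofKd (κ' l))
    {Q : PropG n ι} (H : CellQ n i Sl κ') : CelQI n i h Sl κ Q := by
  intro al _ K₀ _ del hdel S₀ hS₀ S g₀ P θ c Pt r L T G g _ _ _ _
  obtain ⟨K, N, A, V, h1, h2, H⟩ := H del hdel S₀ hS₀
  refine ⟨K, N, A, V, h1, h2, fun S₂ hS₂ => ?_⟩
  obtain ⟨N', V', h4, ε, hε, H⟩ := H S₂ hS₂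
  exact ⟨K, N', V', le_rfl, h4, ε, 1, hε, one_pos, fun P₂ θ₂ Eb e₂ q t _ R =>
    H S P (P₂ i) θ (θ₂ i) c (L i) L T (Eb i) (e₂ i) q t (R.recQ hi1 hi hκi hκ)⟩

variable {n : ℕ} {hn : 2 ≤ n} {S : PCl n} {P : ℝ → ℝ → ℝ} {r : ℝ → ℝ}
  {P' : ℕ → List (Fin n) × Fin n → ℝ → ℝ → ℝ} {Λ : Finset (Fin n) → Fin n → ℝ → ℝ → ℝ}
  {PB : ℕ → List (Fin n) × Fin n → ℝ → ℝ → ℝ} {PQ : ℚ → List (Fin n) × Fin n → ℝ → ℝ → ℝ}

/-- **A cell from its class theorem at a window**, with a property at the window. -/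
theorem cell_of_gi {ι : Type} [Countable ι] {Q : PropG n ι} (hQ : AePG n Q)
    (H : PkT hn S P r P' Λ PB) (hTop : TopS n)
    (hF : FZX (n - 1)) (h : ℝ) {κ : List Kd} (hκn : κ.length ≤ n - 1)
    (hcls : ∀ Sl : ℕ → ℝ, (∀ (l : ℕ) (hl : l < κ.length), 
      (κ[l] = .one → Sl l = 1) ∧ (κ[l] = .thin → 1 < Sl l) ∧ (κ[l] = .sta → 2 ≤ Sl l)) →
      2 < Sl κ.length → (∀ l < n, 1 ≤ Sl l) → CelQI n κ.length h Sl (kgL κ) Q) :
    Cell H hTop hF h κ := by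
  intro o
  filter_upwards [joint_aeH hQ H hTop hF o (kgL κ), H.dia_all H.pble hTop hF,
    sl_one H hTop hF, one_zero H hTop hF o] with g h1 hdia h1s h0 R _ hk hs hst
  have ho := R.rwd.mem
  obtain ⟨α, Q₁, c', F⟩ := H.toPk.fac hTop hF ho
  have hg0 := F.g0
  have hg1 := F.g1
  have hkg : ∀ l < n, KgAt hn P P' PB o l g (kgL κ l) := fun l hl => by
    rcases lt_trichotomy l κ.length with h5 | h5 | h5
    · rw [kgL_lt h5]
      exact (hk l h5).kg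
    · rw [h5, kgL_len]
      exact ⟨hs, hst⟩
    · unfold kgL
      rw [if_neg (by omega), if_neg (by omega)]
      trivial
  obtain ⟨S', G, HT, hG, hgG, W, hQg⟩ := h1 ho hkg
  obtain ⟨al, g₀, s', d', e', K₁, N₁, hal, hg₀, hC⟩ := HT.cl
  have hl0 : LvL hn P P' o 0 g g = g := by
    rw [Pool.Z4.lvL_eq o (by omega)]
    exact H.toPk.act_diag hTop hF ho
  refine sta_of_pairs (H.lawL o κ.length) hg0 hg1 (hdia o ho κ.length hκn).1
    fun K₀ del hK₀ hdel => ?_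
  obtain ⟨P₂, θ₂, Eb, e₂, S₀, hS₀, W⟩ := W.recG HT hkg (fun l _ => rfl) (h0 ho) hl0 R.rwd.rdif R.defi hal hg₀
    ⟨s', d', e', K₁, N₁, hC⟩
  obtain ⟨K, N, A, V, hK, hAV, hc⟩ := hcls (SlL hn P P' o g) (fun l hl => by
    have h3 := hk l hl
    refine ⟨fun h4 => ?_, fun h4 => ?_, fun h4 => ?_⟩
    · rw [h4] at h3
      exact h3
    · rw [h4] at h3
      exact h3.1
    · rw [h4] at h3
      exact h3.1) hs (h1s o ho) al hal (K₀ + del) (by linarith) del hdel S₀ hS₀ S' g₀ (P' o.2)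
    (tht o.2) (cc hn o.1.1) P r (LvL hn P P' o) (LvT hn PB o) G g hG hgG
    (fun l hl => (hdia o ho l (by omega)).1.hasDerivAt) (fun p => by
      obtain ⟨k₀, h5, -⟩ := hQg p
      exact ⟨k₀, h5⟩)
  obtain ⟨S₂, hS₂, W⟩ := W K₀ K N A V (by linarith) hK hAV del hdel
  obtain ⟨K', N', V', hKK, hV', ε, q₂, hε, hq₂, hc⟩ := hc S₂ hS₂
  obtain ⟨q₁, hq₁, W⟩ := W K' N' V' hKK hV' ε hε
  refine ⟨min q₁ q₂, lt_min hq₁ hq₂, fun q u hq hq' hu => ?_⟩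
  obtain ⟨t, ht1, ht2, hR⟩ := W q u hq (hq'.trans_le (min_le_left _ _)) hu
  exact ⟨t, ht1, ht2, hc P₂ θ₂ Eb e₂ q t (hq'.trans_le (min_le_right _ _)) hR⟩

end Pool.PKG

namespace Pool.ASM

open MeasureTheory Set Filter Topology
open Pool.GEN Pool.PKG Pool.SW
open Pool.ONE (Ext0 Ext)
open Pool.MIC6

/-- **A cell for all classes from its class theorem at a window**, with the rate and a property
which uses the statements of lower dimension. -/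
theorem lCellA_of_gi {n : ℕ} {ι : Type} [Countable ι] {Q : PropG n ι}
    (hQ : (∀ k, 1 ≤ k → k < n → FZX k) → AePG n Q) {κ : List Kd} (hκn : κ.length ≤ n - 1)
    (hcls : ∀ h : ℝ, 0 < h → h ≤ 1 → ∀ Sl : ℕ → ℝ, (∀ (l : ℕ) (hl : l < κ.length), 
      (κ[l] = .one → Sl l = 1) ∧ (κ[l] = .thin → 1 < Sl l) ∧ (κ[l] = .sta → 2 ≤ Sl l)) →
      2 < Sl κ.length → (∀ l < n, 1 ≤ Sl l) → CelQI n κ.length h Sl (kgL κ) Q) :
    LCellA n κ := fun _ => by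
  refine (Tol.le (1 / 2) (by norm_num)).mono fun η hη => ?_
  intro hn hZ hF hTop D hD hD1 _ S P r P' Λ PB H
  have h1 := hη D hD
  exact cell_of_gi (hQ hZ) H hTop hF _ hκn (hcls _ (mul_pos (by linarith) hD) (by nlinarith))

end Pool.ASM
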