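import Pool.Agent.H88.D2.Uov

/-!
# A static coordinate over a static coordinate, at the level of the class

`uov_cls`: on a quarter of the event the ball chart of the place two (over one rough and one static
coordinate) has a closed gradient on the window `t`, natural at the ball `k`.
-/

set_option autoImplicit false

namespace Pool.TN

open Finset Real MvPolynomial
open Pool.Agent.H49.Ent Pool.Agent.H32.Dense Pool.STK Pool.KA Pool.KSAT Pool.K2S Pool.PB Pool.S6C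
open Pool.GEN Pool.CHT Pool.CHX Pool.ISO Pool.D2R Pool.D2Z Pool.D2F
open Pool.LBT (ThrOf)
open Pool.FLF (Fam.sub)
open Pool.PB.Trl (rt rt_mem t_rt)

variable {m J : ℕ}

/-- **The closed gradient of the place two at the level of the class.** `i`: the window of the
labels (the anchor), `t`: the window of the line, `k`: the ball; `t₀`: the loss of the lower bound
of the curvature, `y`: the excess of the static side. -/
theorem uov_cls (m D r : ℕ) (hD : 1 ≤ D) (hr : 3 ≤ r) : ∃ C : ℕ, 1 ≤ C ∧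
    ∀ {θ : ℝ} {S : PCl m} {P : List (Fin m) × Fin m → ℝ → ℝ → ℝ} (_ : ThrOf (chsys m θ) S P)
    (_ : TmH S) (c : ℕ → Fin m) (_ : Set.InjOn c (Set.Iio (r + 1))) (a : ℚ) (e₁ h₁ ε κ₀ : ℝ)
    (_ : 0 ≤ a) (_ : a < 1) (_ : e₁ < θ * a) (_ : 0 < h₁) (_ : bet P c 0 a a + h₁ ≤ 1)
    (_ : bet P c 1 a a + h₁ ≤ 1) (_ : 0 < ε) (_ : 0 < κ₀),
    Bas S (fun J F A₀ => ∀ {Dr N M A cl X y t₀ i t k : ℕ} {Sc : ℕ → Prop} {w e h pp : ℕ → ℕ}
      {z g gc gT g₀ : ℕ → ℕ → ℕ} {κ : ℝ} {B : F.Ω → Prop}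
      {G : ℕ → PtT F → ℕ → MvPolynomial (Option (Fin m)) ℝ}
      {H : ℕ → LnT F → ℕ → MvPolynomial (Option (Fin m)) ℝ}
      {T : ℕ → PtT F → ℕ → MvPolynomial (Option (Fin m)) ℝ}
      {TH : ℕ → LnT F → ℕ → MvPolynomial (Option (Fin m)) ℝ}
      {Gt : ℕ → PtT F → MvPolynomial (Option (Fin m)) ℝ}
      {Ht : ℕ → LnT F → MvPolynomial (Option (Fin m)) ℝ},
      CEv F c r D Dr N M A cl Sc w e h pp z g gc gT g₀ κ B G H T TH Gt Ht → Sub B A₀ →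
      κ₀ * Pe F.p A₀ ≤ Pe F.p B → ε * J ≤ cl → C ≤ cl → ¬ Sc 0 → Sc 1 →
      UNum r N A cl X y t₀ w gc gT g₀ i t k → ZNum r N A cl X w pp gc gT g₀ 1 i i →
      w k ≤ ⌊(a : ℝ) * J⌋₊ → (∀ l < r, cl ≤ gT k l ∧ cl ≤ gc k l) → cl ≤ pp k → cl ≤ gc k r →
      (A - w k) + g₀ k 1 + t₀ ≤ gT i 1 → (A - w k) + g₀ k 1 + t₀ ≤ gT k 1 →
      C * (cl + X + 1) ≤ t₀ → C * (cl + X + 1) ≤ g₀ k 0 →
      (∀ l ≤ 1, e k + g₀ k l + C * (cl + X + 1) ≤ J) → e k + C * (cl + X + 1) ≤ ⌊e₁ * J⌋₊ →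
      ⌊(bet P c 0 a a + h₁) * J⌋₊ + w k ≤ g₀ k 0 + X + ⌊(a : ℝ) * J⌋₊ →
      ⌊(bet P c 1 a a + h₁) * J⌋₊ + w k ≤ g₀ k 1 + X + ⌊(a : ℝ) * J⌋₊ →
      w i + g₀ i 0 + g₀ k 1 + t₀ + y + C * (cl + X + 1) ≤
        w k + g₀ k 0 + g₀ i 1 + (w t - w i) →
      ∃ B' : F.Ω → Prop, Sub B' B ∧ Pe F.p B ≤ 4 * Pe F.p B' ∧ ∀ ω, B' ω →
        ∀ V : Option (Fin m) → ℝ, V none = 0 →
        |∑ j ∈ range 2, (lamU c (w t) (w t - w i) (TH i) (slam F (w t) ω) j).eval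
            (rt F (w t) ω) * V (some (c j)) - cv (gG G ω k 2) V| ≤
          2 ^ (C * (cl + X + t₀ + 1)) / 2 ^ g₀ k 2 *
            en c (g₀ k) (w k) (gG G ω k) 2 V) := by
  classical
  obtain ⟨C₁, hC₁, hone⟩ := sta_one m D r hD (by omega)
  obtain ⟨C₂, hC₂, hzv⟩ := CEv.zvar m D r (by omega)
  obtain ⟨C₃, hC₃, huv⟩ := CEv.uov r hr
  refine ⟨C₁ + 2 * C₂ + C₃ + 1, by omega, ?_⟩
  intro θ S P hP hT c hc a e₁ h₁ ε κ₀ ha0 ha he hh hb0 hbs hε hκ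
  have hL2 : 0 < Real.log 2 := Real.log_pos (by norm_num)
  have haR : (a : ℝ) < 1 := by exact_mod_cast ha
  have ha0R : (0 : ℝ) ≤ a := by exact_mod_cast ha0
  obtain ⟨μ, hμ⟩ : ∃ μ : ℝ, μ = min ε (1 - a) * Real.log 2 / 2 := ⟨_, rfl⟩
  have hμ0 : 0 < μ := by
    rw [hμ]
    have : 0 < min ε (1 - (a : ℝ)) := lt_min hε (by linarith)
    positivity
  have hC2R : (1 : ℝ) ≤ C₂ := by exact_mod_cast hC₂
  have hC20 : (0 : ℝ) < C₂ := by linarith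
  obtain ⟨ε₁, hε₁⟩ : ∃ ε₁ : ℝ, ε₁ = μ / C₂ := ⟨_, rfl⟩
  have hε₁0 : 0 < ε₁ := by rw [hε₁]; positivity
  have htm := bas_ev (hT.2 ε₁ hε₁0) hκ
  have hpos : Bas S (fun _ F A => 0 < Pe F.p A) := ⟨1, one_pos, 0, fun J _ F A hA =>
    hT.1 1 J F A hA⟩
  obtain ⟨J₁, hJ₁⟩ := exists_nat_ge ((C₂ : ℝ) / μ)
  refine Bas.mono J₁ (((hone hP hT c hc a e₁ h₁ ε (κ₀ / 4) ha0 ha he hh hb0 hbs hε
    (by positivity)).and htm).and hpos) ?_
  rintro J hJ F A₀ ⟨⟨hoA, htA⟩, hA0⟩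
  intro Dr N M A cl X y t₀ i t k Sc w e h pp z g gc gT g₀ κ B G H T TH Gt Ht E hBA hBκ hεc hCc hs0
    hs1 n hZ hwa h1 hp hgr n1 n2 ht hg₀ hroom hef f0 fs hnum
  have hpn := Pe_nonneg F.isLaw
  have hB0 : 0 < Pe F.p B := (mul_pos hκ hA0).trans_le hBκ
  have hJ0 : (0 : ℝ) ≤ J := Nat.cast_nonneg J
  have hik : w i ≤ w k := n.it.trans n.tk
  have hCC : C₁ * (cl + X + 1) + 2 * C₂ * (cl + X + 1) + (C₃ + 1) * (cl + X + 1) =
      (C₁ + 2 * C₂ + C₃ + 1) * (cl + X + 1) := by ring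
  -- the times
  have hJ1 : (C₂ : ℝ) ≤ μ * J := by
    have h2 : (J₁ : ℝ) ≤ J := by exact_mod_cast hJ
    have h3 := hJ₁.trans h2
    rw [div_le_iff₀ hμ0] at h3
    linarith
  have hθ0 : 0 ≤ ε₁ * J := by positivity
  have hmain : C₂ * (ε₁ * J + 1) ≤ min ε (1 - (a : ℝ)) * Real.log 2 * J := by
    have e1 : C₂ * (ε₁ * J) = μ * J := by rw [hε₁]; field_simp
    have e2 : 2 * (μ * J) = min ε (1 - (a : ℝ)) * Real.log 2 * J := by rw [hμ]; ring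
    rw [mul_add, mul_one, e1]
    linarith
  have hm1 : C₂ * (ε₁ * J + 1) ≤ cl * Real.log 2 := by
    refine hmain.trans ?_
    have e1 : min ε (1 - (a : ℝ)) * Real.log 2 * J ≤ ε * Real.log 2 * J :=
      mul_le_mul_of_nonneg_right (mul_le_mul_of_nonneg_right (min_le_left _ _) hL2.le) hJ0
    have e2 := mul_le_mul_of_nonneg_right hεc hL2.le
    linarith
  have hm2 : C₂ * (ε₁ * J + 1) ≤ ((J : ℝ) - w i) * Real.log 2 := by
    refine hmain.trans ?_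
    have e1 : min ε (1 - (a : ℝ)) * Real.log 2 * J ≤ (1 - a) * Real.log 2 * J :=
      mul_le_mul_of_nonneg_right (mul_le_mul_of_nonneg_right (min_le_right _ _) hL2.le) hJ0
    have e2 : (w i : ℝ) ≤ a * J := by
      have h2 : (w i : ℝ) ≤ ⌊(a : ℝ) * J⌋₊ := by exact_mod_cast hik.trans hwa
      exact h2.trans (Nat.floor_le (mul_nonneg ha0R hJ0))
    have e3 := mul_le_mul_of_nonneg_right e2 hL2.le
    linarith
  have hexp : Real.exp (C₂ * (ε₁ * J + 1)) ≤ 2 ^ cl := by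
    have e2 : Real.exp (C₂ * (ε₁ * J + 1)) ≤ Real.exp (cl * Real.log 2) :=
      Real.exp_le_exp.2 hm1
    rw [mul_comm (cl : ℝ), ← Real.rpow_def_of_pos (by norm_num), Real.rpow_natCast] at e2
    exact e2
  -- the variation
  obtain ⟨B₁, b1, b2, b3⟩ := hzv E hB0 (X := X) (n := cl) n.iN n.tN n.it hs0 (n.cT 1 (by omega)).1
    hZ hθ0 (htA B hBA hBκ hB0) hm2 hexp
  -- the lower bound
  obtain ⟨V₀, hV₀⟩ : ∃ V₀ : F.Ω → Option (Fin m) → ℝ, V₀ = fun ω => ev c 1 (gG G ω k) 0 :=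
    ⟨_, rfl⟩
  have hc1 : Set.InjOn c (Set.Iio 1) := hc.mono (Set.Iio_subset_Iio (by omega))
  have hΓ : ∀ ω l, CvC c l (gG G ω k l) := fun ω l => cvc_grd ((E.evs k n.kN).ball.depG _ l) _
  have v0 : ∀ ω, V₀ ω none = 0 := fun ω => by rw [hV₀]; exact ev_none _ _ _ _
  have v1 : ∀ ω, V₀ ω (some (c 0)) = 1 := fun ω => by
    rw [hV₀]
    exact ev_eq hc1 (hΓ ω) (by norm_num)
  have hbad := (hoA E hBA hεc (by omega) n.iN n.kN hik hwa hs0 h1 hp hgr (n.cT 1 (by omega)).1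
    n1 n2 (t := t₀) (X := X) (by omega) (by omega) (fun l hl => by
      have := hroom l hl
      omega) (by omega) f0 fs).1 V₀ (fun ω _ => ⟨v0 ω, v1 ω⟩)
  obtain ⟨bad, hbd⟩ : ∃ bad : F.Ω → Prop, bad = fun ω => B ω ∧
      |hs (TH i (slam F (w i) ω) 1) (bt F ω) (bd F ω) (V₀ ω)| ≤
        2 ^ (w k + g₀ k 0) / 2 ^ (g₀ k 1 + t₀) := ⟨_, rfl⟩
  rw [← hbd] at hbad
  refine ⟨fun ω => B₁ ω ∧ ¬ bad ω, fun ω hω => b1 ω hω.1, ?_, fun ω hω V hV => ?_⟩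
  · have h3 := Pe_or F.isLaw (A := B₁) (B₀ := bad) (B₁ := fun ω => B₁ ω ∧ ¬ bad ω)
      (fun ω hω => by
        by_cases h4 : bad ω
        · exact Or.inl h4
        · exact Or.inr ⟨hω, h4⟩)
    linarith
  · have hBω := b1 ω hω.1
    refine (huv E hs0 hs1 n ω hBω (fun V' hV' hV'1 => ?_) (fun u hu => ?_) V hV).trans ?_
    · have h3 : ¬ |hs (TH i (slam F (w i) ω) 1) (bt F ω) (bd F ω) (V₀ ω)| ≤
          2 ^ (w k + g₀ k 0) / 2 ^ (g₀ k 1 + t₀) := fun h => hω.2 (by rw [hbd]; exact ⟨hBω, h⟩)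
      rw [hs_cg ((E.evs i n.iN).thin.depH _ 1) (bt F ω) (bd F ω) (V' := V₀ ω)
        (by rw [v0, hV']) (fun j hj => by rw [Nat.lt_one_iff.1 hj, v1, hV'1])]
      exact (not_le.1 h3).le
    · refine (b3 ω hω.1 u hu 0 (Set.left_mem_Icc.2 zero_le_one)).trans ?_
      rw [div_le_div_iff₀ (by positivity) (by positivity), ← pow_add, ← pow_add, ← pow_add]
      refine p2 ?_
      have e2 : C₂ * (cl + X + cl + 1) ≤ 2 * C₂ * (cl + X + 1) := by nlinarith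
      have e3 : (C₃ + 1) * (cl + X + 1) ≥ 1 := by nlinarith
      omega
    · have hen : 0 ≤ en c (g₀ k) (w k) (gG G ω k) 2 V := en_nonneg _ _ _ _ _ _
      refine mul_le_mul_of_nonneg_right (div_le_div_of_nonneg_right (p2 ?_) (by positivity)) hen
      exact Nat.mul_le_mul_right _ (by omega)

end Pool.TN
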