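import Pool.Agent.H88.D2.Sfw
import Pool.Agent.H89.D2.Ex2
import Pool.Agent.H73.D2.Tlh

/-!
# A static coordinate over a static coordinate

`CEv.tgt`: the event of a static cell with the coordinate `l` as the target. `zvar`: the curvature of
the static place one hardly varies on a later window. `CEv.uov`: the ball chart of the place two (over
one rough and one static coordinate) has a closed gradient, natural at the ball.
-/

set_option autoImplicit false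

namespace Pool.TN

open Finset Real MvPolynomial
open Pool.Agent.H49.Ent Pool.Agent.H32.Dense Pool.STK Pool.KA Pool.KSAT Pool.K2S Pool.PB Pool.S6C
open Pool.GEN Pool.CHT Pool.CHX Pool.ISO Pool.D2R Pool.D2Z Pool.D2F
open Pool.LBT (ThrOf)
open Pool.FLF (Fam.sub)
open Pool.PB.Trl (rt rt_mem t_rt)

variable {m J : ℕ}

section

variable {F : Fam m J} {c : ℕ → Fin m} {r D Dr N M A cl : ℕ} {Sc : ℕ → Prop}
    {w e h pp : ℕ → ℕ} {z g gc gT g₀ : ℕ → ℕ → ℕ} {κ : ℝ} {B : F.Ω → Prop}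
    {G : ℕ → PtT F → ℕ → MvPolynomial (Option (Fin m)) ℝ}
    {H : ℕ → LnT F → ℕ → MvPolynomial (Option (Fin m)) ℝ}
    {T : ℕ → PtT F → ℕ → MvPolynomial (Option (Fin m)) ℝ}
    {TH : ℕ → LnT F → ℕ → MvPolynomial (Option (Fin m)) ℝ}
    {Gt : ℕ → PtT F → MvPolynomial (Option (Fin m)) ℝ}
    {Ht : ℕ → LnT F → MvPolynomial (Option (Fin m)) ℝ}

/-- Smaller events. -/
theorem CEv.sb (E : CEv F c r D Dr N M A cl Sc w e h pp z g gc gT g₀ κ B G H T TH Gt Ht)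
    {B' : F.Ω → Prop} {κ₁ κ₂ : ℝ} (hB : Sub B' B) (h1 : κ₁ * Pe F.p B ≤ Pe F.p B') (h0 : 0 ≤ κ₂)
    (h2 : κ ≤ κ₂ * κ₁) :
    CEv F c r D Dr N M A cl Sc w e h pp z g gc gT g₀ κ₂ B' G H T TH Gt Ht where
  inj := E.inj
  AJ := E.AJ
  wA := E.wA
  evs := fun k hk => (E.evs k hk).sub hB h1 h0 h2
  bal := ⟨fun k hk ω hω => E.bal.inc k hk ω (hB ω hω),
    fun k hk k' hk' q hq hw hz ω hω => E.bal.bal k hk k' hk' q hq hw hz ω (hB ω hω)⟩
  row := fun i hi j hj hw q q1 q2 => (E.row i hi j hj hw q q1 q2).sub hB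
  lab := fun l hl i hi j hj hw => ⟨fun q q1 q2 => ((E.lab l hl i hi j hj hw).1 q q1 q2).sub hB,
    fun q q1 q2 => ((E.lab l hl i hi j hj hw).2 q q1 q2).sub hB⟩
  cur := fun k hk ω hω => E.cur k hk ω (hB ω hω)
  ng := E.ng
  room := E.room
  roomT := E.roomT

/-- **The coordinate** `l` **as the target.** -/
theorem CEv.tgt (E : CEv F c r D Dr N M A cl Sc w e h pp z g gc gT g₀ κ B G H T TH Gt Ht)
    {l : ℕ} (hl : l < r) :
    CEv F c l D Dr N M A cl Sc w e h (fun i => gT i l) z g gc gT g₀ κ B G H T TH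
      (fun i y => T i y l) (fun i s => TH i s l) where
  inj := E.inj.mono (Set.Iio_subset_Iio (by omega))
  AJ := E.AJ
  wA := E.wA
  evs := fun k hk => Pool.RCV.evS_tgt (E.inj.mono (Set.Iio_subset_Iio (by omega)))
    (E.evs k hk) hl
  bal := ⟨fun k hk ω hω i hi => E.bal.inc k hk ω hω i (by omega),
    fun k hk k' hk' q hq hw hz ω hω i hi => E.bal.bal k hk k' hk' q hq hw hz ω hω i (by omega)⟩
  row := fun i hi j hj hw q q1 q2 => (E.lab l hl i hi j hj hw).1 q q1 q2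
  lab := fun x hx i hi j hj hw => E.lab x (by omega) i hi j hj hw
  cur := fun k hk ω hω x hx => E.cur k hk ω hω x (by omega)
  ng := fun k hk x hx => E.ng k hk x (by omega)
  room := fun k hk x hx => E.room k hk x (by omega)
  roomT := fun k hk x hx => E.roomT k hk x (by omega)

end

/-- The labels of the window `w` on a later window. -/
noncomputable def ltr {F : Fam m J} (TH : LnT F → ℕ → MvPolynomial (Option (Fin m)) ℝ) (q l : ℕ)
    (s : LnT F) : MvPolynomial (Option (Fin m)) ℝ := TH (co q s) l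

theorem ltr_slam (F : Fam m J) (TH : LnT F → ℕ → MvPolynomial (Option (Fin m)) ℝ) {a b : ℕ}
    (hab : a ≤ b) (hb : b ≤ J) (l : ℕ) (ω : F.Ω) :
    ltr TH (b - a) l (slam F b ω) = TH (slam F a ω) l := by
  unfold ltr
  rw [co_slam F hab hb]

/-- The gradients of a label along the line, on a later window. -/
theorem kpol_ltr {F : Fam m J} (c : ℕ → Fin m)
    (TH : LnT F → ℕ → MvPolynomial (Option (Fin m)) ℝ) (a q l : ℕ) (s : LnT F) (j : ℕ) :
    kpol c (a + q) (ltr TH q l) s j = (kpol c a (fun s => TH s l) (co q s) j).comp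
      (Polynomial.C (((s.2.2 % 2 ^ q : ℕ) : ℝ) / 2 ^ q) +
        Polynomial.C (1 / 2 ^ q) * Polynomial.X) := by
  unfold kpol ltr
  rw [← Pool.V1E.aeval_comp']
  congr 1
  exact congrArg (fun f => MvPolynomial.aeval f) (funext fun o => Pool.V1E.lc_co a q s o)

/-- The curvature of the place one as a polynomial. -/
theorem kpol_one (F : Fam m J) {c : ℕ → Fin m} {t : ℕ} (ht : t ≤ J)
    {Q : LnT F → MvPolynomial (Option (Fin m)) ℝ} (hQ : ∀ s, DepC c 1 (Q s)) (ω : F.Ω)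
    {V : Option (Fin m) → ℝ} (h0 : V none = 0) (h1 : V (some (c 0)) = 1) :
    2 ^ t * (Polynomial.derivative (kpol c t Q (slam F t ω) 0)).eval (rt F t ω) =
      hs (Q (slam F t ω)) (bt F ω) (bd F ω) V := by
  have hc : Set.InjOn c (Set.Iio 1) := fun x hx y hy _ => by
    rw [Set.mem_Iio] at hx hy
    omega
  have h2 := kpol_hs F hc ht hQ ω h0
  rw [Finset.sum_range_one, h1, mul_one] at h2
  rw [h2]
  field_simp

/-- **The curvature of the static place one hardly varies on a later window.** -/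
theorem CEv.zvar (m D r : ℕ) (hr : 2 ≤ r) : ∃ C : ℕ, 1 ≤ C ∧ ∀ {J : ℕ} {F : Fam m J}
    {c : ℕ → Fin m} {Dr N M A cl : ℕ} {Sc : ℕ → Prop} {w e h pp : ℕ → ℕ}
    {z g gc gT g₀ : ℕ → ℕ → ℕ} {κ θ : ℝ}
    {B : F.Ω → Prop} {G : ℕ → PtT F → ℕ → MvPolynomial (Option (Fin m)) ℝ}
    {H : ℕ → LnT F → ℕ → MvPolynomial (Option (Fin m)) ℝ}
    {T : ℕ → PtT F → ℕ → MvPolynomial (Option (Fin m)) ℝ}
    {TH : ℕ → LnT F → ℕ → MvPolynomial (Option (Fin m)) ℝ}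
    {Gt : ℕ → PtT F → MvPolynomial (Option (Fin m)) ℝ}
    {Ht : ℕ → LnT F → MvPolynomial (Option (Fin m)) ℝ},
    CEv F c r D Dr N M A cl Sc w e h pp z g gc gT g₀ κ B G H T TH Gt Ht →
    ∀ (hB : 0 < Pe F.p B) {i t X n : ℕ}, i ≤ N → t ≤ N → w i ≤ w t → ¬ Sc 0 → cl ≤ gT i 1 →
      ZNum r N A cl X w pp gc gT g₀ 1 i i → 0 ≤ θ → (Fam.sub F B hB).Tm θ →
      C * (θ + 1) ≤ ((J : ℝ) - w i) * Real.log 2 → Real.exp (C * (θ + 1)) ≤ 2 ^ n →
      ∃ B' : F.Ω → Prop, Sub B' B ∧ Pe F.p B / 2 ≤ Pe F.p B' ∧ ∀ ω, B' ω →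
        ∀ u ∈ Set.Icc (0 : ℝ) 1, ∀ u' ∈ Set.Icc (0 : ℝ) 1,
        |2 ^ w t * (Polynomial.derivative (kpol c (w t) (ltr (TH i) (w t - w i) 1)
            (slam F (w t) ω) 0)).eval u -
          2 ^ w t * (Polynomial.derivative (kpol c (w t) (ltr (TH i) (w t - w i) 1)
            (slam F (w t) ω) 0)).eval u'| ≤
          2 ^ (C * (cl + X + n + 1)) * 2 ^ (w i + g₀ i 0) / 2 ^ (g₀ i 1 + (w t - w i)) := by
  obtain ⟨C₁, hC₁, hrem⟩ := rem_fam m D 1
  obtain ⟨C₂, hC₂, hlip⟩ := Pool.Agent.H40.SLP.lip_one D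
  obtain ⟨C₃, hC₃⟩ := exists_nat_ge C₁
  obtain ⟨C₄, hC₄⟩ := pow_unbounded_of_one_lt C₂ (one_lt_two (α := ℝ))
  refine ⟨C₃ + C₄ + 20 + 4 * r, by omega, ?_⟩
  intro J F c Dr N M A cl Sc w e h pp z g gc gT g₀ κ θ B G H T TH Gt Ht E hB i t X n hi ht hit hs0
    hgi hZ hθ hTm hCJ hexp
  have hiJ : w i ≤ J := (E.wA i hi).trans E.AJ
  have htJ : w t ≤ J := (E.wA t ht).trans E.AJ
  have hCC : C₁ * (θ + 1) ≤ ((C₃ + C₄ + 20 + 4 * r : ℕ) : ℝ) * (θ + 1) := by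
    refine mul_le_mul_of_nonneg_right (hC₃.trans ?_) (by linarith)
    exact_mod_cast (by omega : C₃ ≤ C₃ + C₄ + 20 + 4 * r)
  have hns : ∀ x < 1, ¬ Sc x := fun x hx => by
    rw [Nat.lt_one_iff.1 hx]
    exact hs0
  obtain ⟨S, hS⟩ : ∃ S : ℝ, S = 2 ^ (12 * cl + 4 * r + X + 10) * 2 ^ w i / 2 ^ g₀ i 1 *
    2 ^ g₀ i 0 := ⟨_, rfl⟩
  have hS0 : 0 < S := by rw [hS]; positivity
  have hdT : ∀ s : LnT F, (TH i s 1).totalDegree ≤ D := fun s => (E.evs i hi).thin.degH s 1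
  have hpT : ∀ s : LnT F, DepC c 1 (TH i s 1) := fun s => (E.evs i hi).thin.depH s 1
  obtain ⟨q, hq⟩ : ∃ q : ℕ → ((Fin m → ℝ) × (Fin m → ℝ)) × F.ζ × ℕ → Polynomial ℝ,
    q = fun _ s => Polynomial.C (2 ^ w i) *
      Polynomial.derivative (kpol c (w i) (fun s => TH i s 1) s 0) := ⟨_, rfl⟩
  have hqd : ∀ j < 1, ∀ s, (q j s).natDegree ≤ D := fun j _ s => by
    rw [hq]
    refine (Polynomial.natDegree_C_mul_le _ _).trans ((Polynomial.natDegree_derivative_le _).trans ?_)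
    have := kpol_deg (F := F) c (w i) hdT s 0
    omega
  obtain ⟨B', c1, c2, c3⟩ := hrem J F B hB (w i) q (fun _ => S) θ hiJ hqd (fun _ _ => hS0) hθ hTm
    (hCC.trans hCJ) (fun ω hω j hj => by
      have hΓ : ∀ l, CvC c l (gG G ω i l) := fun l => cvc_grd ((E.evs i hi).ball.depG _ l) _
      have hc1 : Set.InjOn c (Set.Iio 1) := E.inj.mono (Set.Iio_subset_Iio (by omega))
      have v0 := ev_none c 1 (gG G ω i) 0
      have v1 := ev_eq hc1 hΓ (show 0 < 1 by norm_num)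
      have hen : en c (g₀ i) (w i) (gG G ω i) 1 (ev c 1 (gG G ω i) 0) ≤ 2 ^ g₀ i 0 := by
        rw [en_succ, en_zero, v0, v1, cv_c0 (hΓ 0) v0]
        simp
      have h1 := E.zV hi hgi (by omega) hns hZ hω hen
      rw [hq]
      beta_reduce
      rw [Polynomial.eval_mul, Polynomial.eval_C, kpol_one F hiJ hpT ω v0 v1, hS]
      exact h1)
  refine ⟨B', c1, c2, fun ω hω u hu u' hu' => ?_⟩
  have hsup : ∀ τ ∈ Set.Icc (0 : ℝ) 1, |(q 0 (slam F (w i) ω)).eval τ| ≤ 2 ^ n * S :=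
    fun τ hτ => (c3 ω hω 0 (by norm_num) τ hτ).trans (mul_le_mul_of_nonneg_right
      ((Real.exp_le_exp.2 hCC).trans hexp) hS0.le)
  obtain ⟨d, hd⟩ : ∃ d, d = w t - w i := ⟨_, rfl⟩
  have hwt : w t = w i + d := by omega
  obtain ⟨al, hal⟩ : ∃ al : ℝ, al = (((slam F (w t) ω).2.2 % 2 ^ d : ℕ) : ℝ) / 2 ^ d := ⟨_, rfl⟩
  have hkey : ∀ x : ℝ, 2 ^ w t * (Polynomial.derivative (kpol c (w t) (ltr (TH i) d 1)
      (slam F (w t) ω) 0)).eval x = (q 0 (slam F (w i) ω)).eval (al + 1 / 2 ^ d * x) := by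
    intro x
    have h1 := kpol_ltr (F := F) c (TH i) (w i) d 1 (slam F (w t) ω) 0
    rw [← hwt, ← hal] at h1
    rw [h1, hq, hd, co_slam F hit htJ ω]
    simp only [Polynomial.derivative_comp, Polynomial.eval_mul, Polynomial.eval_comp,
      Polynomial.eval_add, Polynomial.eval_C, Polynomial.eval_X, Polynomial.derivative_add,
      Polynomial.derivative_C, Polynomial.derivative_mul, Polynomial.derivative_X, zero_mul,
      zero_add, mul_one]
    rw [← hd]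
    have e1 : (2 : ℝ) ^ w t = 2 ^ w i * 2 ^ d := by rw [hwt, pow_add]
    rw [e1]
    field_simp
  have hal0 : 0 ≤ al := by rw [hal]; positivity
  have hd0 : (0 : ℝ) < 2 ^ d := by positivity
  have hal1 : al + 1 / 2 ^ d ≤ 1 := by
    rw [hal, ← add_div, div_le_one hd0]
    have h2 : (slam F (w t) ω).2.2 % 2 ^ d + 1 ≤ 2 ^ d := Nat.mod_lt _ (by positivity)
    exact_mod_cast h2
  have hb0 : (0 : ℝ) ≤ 1 / 2 ^ d := by positivity
  have hx : ∀ x ∈ Set.Icc (0 : ℝ) 1, |al + 1 / 2 ^ d * x| ≤ 2 := by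
    intro x hx
    have h3 : 1 / 2 ^ d * x ≤ 1 / 2 ^ d := mul_le_of_le_one_right hb0 hx.2
    have h4 : 0 ≤ 1 / 2 ^ d * x := mul_nonneg hb0 hx.1
    rw [abs_of_nonneg (by linarith)]
    linarith
  rw [← hd, hkey, hkey]
  refine (hlip _ (2 ^ n * S) (hqd 0 (by norm_num) _) hsup _ _ (hx u hu) (hx u' hu')).trans ?_
  have e1 : |al + 1 / 2 ^ d * u - (al + 1 / 2 ^ d * u')| ≤ 1 / 2 ^ d := by
    have e2 : al + 1 / 2 ^ d * u - (al + 1 / 2 ^ d * u') = 1 / 2 ^ d * (u - u') := by ring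
    rw [e2, abs_mul, abs_of_nonneg hb0]
    refine mul_le_of_le_one_right hb0 ?_
    rw [abs_le]
    constructor
    · linarith [hu.1, hu'.2]
    · linarith [hu.2, hu'.1]
  calc C₂ * (2 ^ n * S) * |al + 1 / 2 ^ d * u - (al + 1 / 2 ^ d * u')| ≤
        2 ^ C₄ * (2 ^ n * S) * (1 / 2 ^ d) :=
        mul_le_mul (mul_le_mul_of_nonneg_right hC₄.le (by positivity)) e1 (abs_nonneg _)
          (by positivity)
    _ = 2 ^ (C₄ + n + (12 * cl + 4 * r + X + 10)) * 2 ^ (w i + g₀ i 0) /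
          2 ^ (g₀ i 1 + d) := by
        rw [hS, pow_add 2 (C₄ + n), pow_add 2 C₄, pow_add 2 (w i) (g₀ i 0),
          pow_add 2 (g₀ i 1) d]
        field_simp
    _ ≤ _ := by
        refine div_le_div_of_nonneg_right (mul_le_mul_of_nonneg_right (p2 ?_) (by positivity))
          (by positivity)
        have h5 : (C₃ + C₄ + 20 + 4 * r) * (cl + X + n + 1) = C₃ * (cl + X + n + 1) +
            C₄ * (cl + X + n + 1) + (20 + 4 * r) * (cl + X + n + 1) := by ring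
        have h6 : C₄ ≤ C₄ * (cl + X + n + 1) := Nat.le_mul_of_pos_right _ (by omega)
        have h7 : 12 * cl + 4 * r + X + n + 10 ≤ (20 + 4 * r) * (cl + X + n + 1) := by nlinarith
        omega

/-- **The closed correction** of the direction of the static place one, for the row of the label
`TH · l`: the denominator is frozen at the beginning of the window `t`. -/
noncomputable def dlU {F : Fam m J} (c : ℕ → Fin m) (t q l : ℕ)
    (TH : LnT F → ℕ → MvPolynomial (Option (Fin m)) ℝ) (s : LnT F) : Polynomial ℝ :=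
  Polynomial.C (((Polynomial.derivative (kpol c t (ltr TH q 1) s 0)).eval 0)⁻¹) *
    (Polynomial.derivative (kpol c t (ltr TH q l) s 0) +
      Polynomial.derivative (kpol c t (ltr TH q l) s 1) * kpol c t (ltr TH q 1) s 0)

/-- **The closed gradient** of the static place two over the static place one. -/
noncomputable def lamU {F : Fam m J} (c : ℕ → Fin m) (t q : ℕ)
    (TH : LnT F → ℕ → MvPolynomial (Option (Fin m)) ℝ) (s : LnT F) (j : ℕ) : Polynomial ℝ :=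
  if j = 0 then kpol c t (ltr TH q 2) s 0 - dlU c t q 2 TH s * kpol c t (ltr TH q 1) s 0
  else kpol c t (ltr TH q 2) s 1 + dlU c t q 2 TH s

theorem dlU_deg {F : Fam m J} {c : ℕ → Fin m} {t q l D : ℕ}
    {TH : LnT F → ℕ → MvPolynomial (Option (Fin m)) ℝ} (h : ∀ s l, (TH s l).totalDegree ≤ D)
    (s : LnT F) : (dlU c t q l TH s).natDegree ≤ 2 * D := by
  have h0 : ∀ (l j : ℕ), (kpol c t (ltr TH q l) s j).natDegree ≤ D := fun l j =>
    kpol_deg (F := F) c t (fun s => h (co q s) l) s j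
  have h1 : ∀ (l j : ℕ), (Polynomial.derivative (kpol c t (ltr TH q l) s j)).natDegree ≤ D :=
    fun l j => (Polynomial.natDegree_derivative_le _).trans (by have := h0 l j; omega)
  unfold dlU
  refine (Polynomial.natDegree_C_mul_le _ _).trans ((Polynomial.natDegree_add_le _ _).trans
    (max_le ((h1 l 0).trans (by omega)) (Polynomial.natDegree_mul_le.trans ?_)))
  have := h1 l 1
  have := h0 1 0
  omega

theorem lamU_deg {F : Fam m J} {c : ℕ → Fin m} {t q D : ℕ}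
    {TH : LnT F → ℕ → MvPolynomial (Option (Fin m)) ℝ} (h : ∀ s l, (TH s l).totalDegree ≤ D)
    (s : LnT F) (j : ℕ) : (lamU c t q TH s j).natDegree ≤ 3 * D := by
  have h0 : ∀ (l j : ℕ), (kpol c t (ltr TH q l) s j).natDegree ≤ D := fun l j =>
    kpol_deg (F := F) c t (fun s => h (co q s) l) s j
  have h1 := dlU_deg (c := c) (t := t) (q := q) (l := 2) h s
  unfold lamU
  split_ifs
  · refine (Polynomial.natDegree_sub_le _ _).trans (max_le ((h0 2 0).trans (by omega))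
      (Polynomial.natDegree_mul_le.trans ?_))
    have := h0 1 0
    omega
  · exact (Polynomial.natDegree_add_le _ _).trans (max_le ((h0 2 1).trans (by omega))
      (h1.trans (by omega)))

/-- **The numbers** of `CEv.uov`: `i` the window of the labels, `t` the window of the line, `k` the
ball; `y`: the excess of the static side, `t₀`: the loss of the lower bound. -/
structure UNum (r N A cl X y t₀ : ℕ) (w : ℕ → ℕ) (gc gT g₀ : ℕ → ℕ → ℕ) (i t k : ℕ) : Prop where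
  iN : i ≤ N
  tN : t ≤ N
  kN : k ≤ N
  it : w i ≤ w t
  tk : w t ≤ w k
  cT : ∀ l ≤ 2, cl ≤ gT i l ∧ cl ≤ gT k l ∧ cl ≤ gc k l
  m1 : gT k 1 ≤ gT i 1 + X
  lb1 : g₀ k 1 + (A - w k) ≤ gT k 1 + X
  lb2 : g₀ k 2 + (A - w k) ≤ gT i 2 + X
  ex : gT k 1 ≤ g₀ k 1 + (A - w k) + y

/-- **The ball chart of a static coordinate over a static one has a closed gradient**, natural at the
ball. -/
theorem CEv.uov (r : ℕ) (hr : 3 ≤ r) : ∃ C : ℕ, 1 ≤ C ∧ ∀ {m J : ℕ} {F : Fam m J}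
    {c : ℕ → Fin m} {D Dr N M A cl : ℕ} {Sc : ℕ → Prop} {w e h pp : ℕ → ℕ}
    {z g gc gT g₀ : ℕ → ℕ → ℕ} {κ : ℝ}
    {B : F.Ω → Prop} {G : ℕ → PtT F → ℕ → MvPolynomial (Option (Fin m)) ℝ}
    {H : ℕ → LnT F → ℕ → MvPolynomial (Option (Fin m)) ℝ}
    {T : ℕ → PtT F → ℕ → MvPolynomial (Option (Fin m)) ℝ}
    {TH : ℕ → LnT F → ℕ → MvPolynomial (Option (Fin m)) ℝ}
    {Gt : ℕ → PtT F → MvPolynomial (Option (Fin m)) ℝ}
    {Ht : ℕ → LnT F → MvPolynomial (Option (Fin m)) ℝ},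
    CEv F c r D Dr N M A cl Sc w e h pp z g gc gT g₀ κ B G H T TH Gt Ht →
    ∀ {X y t₀ i t k : ℕ}, ¬ Sc 0 → Sc 1 → UNum r N A cl X y t₀ w gc gT g₀ i t k →
    ∀ ω, B ω →
      (∀ V : Option (Fin m) → ℝ, V none = 0 → V (some (c 0)) = 1 →
        2 ^ (w k + g₀ k 0) / 2 ^ (g₀ k 1 + t₀) ≤
          |hs (TH i (slam F (w i) ω) 1) (bt F ω) (bd F ω) V|) →
      (∀ u ∈ Set.Icc (0 : ℝ) 1,
        |2 ^ w t * (Polynomial.derivative (kpol c (w t) (ltr (TH i) (w t - w i) 1)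
            (slam F (w t) ω) 0)).eval u -
          2 ^ w t * (Polynomial.derivative (kpol c (w t) (ltr (TH i) (w t - w i) 1)
            (slam F (w t) ω) 0)).eval 0| ≤
          2 ^ (w k + g₀ k 0) / 2 ^ (g₀ k 1 + (t₀ + y + 1))) →
      ∀ V : Option (Fin m) → ℝ, V none = 0 →
      |∑ j ∈ range 2, (lamU c (w t) (w t - w i) (TH i) (slam F (w t) ω) j).eval
          (rt F (w t) ω) * V (some (c j)) - cv (gG G ω k 2) V| ≤
        2 ^ (C * (cl + X + t₀ + 1)) / 2 ^ g₀ k 2 *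
          en c (g₀ k) (w k) (gG G ω k) 2 V := by
  obtain ⟨C₁, hC₁, hex⟩ := CEv.ex 2
  refine ⟨C₁ + 40, by omega, ?_⟩
  intro m J F c D Dr N M A cl Sc w e h pp z g gc gT g₀ κ B G H T TH Gt Ht E X y t₀ i t k hs0 hs1 n
    ω hω hlow hvar V hV0
  have hi := n.iN
  have ht := n.tN
  have hk := n.kN
  have hik : w i ≤ w k := n.it.trans n.tk
  have hrad := E.radA hk
  have htJ : w t ≤ J := (E.wA t ht).trans E.AJ
  have hc2 : Set.InjOn c (Set.Iio 2) := E.inj.mono (Set.Iio_subset_Iio (by omega))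
  have hns : ∀ x < 1, ¬ Sc x := fun x hx => by
    rw [Nat.lt_one_iff.1 hx]
    exact hs0
  have hΓ : ∀ l, CvC c l (gG G ω k l) := fun l => cvc_grd ((E.evs k hk).ball.depG _ l) _
  have hκ : ∀ j ≤ N, ∀ l, CvC c l (kT w TH ω j l) := fun j hj l =>
    cvc_grd ((E.evs j hj).thin.depH _ l) _
  have a0 := E.ng k hk 0 (by omega)
  have a1 := E.ng k hk 1 (by omega)
  have a2 := E.ng k hk 2 (by omega)
  have b0 := n.cT 0 (by omega)
  have b1 := n.cT 1 (by omega)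
  have b2 := n.cT 2 (by omega)
  have hrg := E.t_rg hk (show 0 < r by omega) hs0
  have m1 := n.m1
  have lb1 := n.lb1
  have lb2 := n.lb2
  have hxy := n.ex
  -- the vectors of the frame
  obtain ⟨Ξ, hΞd⟩ : ∃ Ξ, Ξ = mx Sc (kT w TH ω i) (gG G ω k) := ⟨_, rfl⟩
  have hΞ : ∀ l, CvC c l (Ξ l) := fun l => by rw [hΞd]; exact mx_cvc (hκ i hi) hΓ l
  have hΞ1 : Ξ 1 = kT w TH ω i 1 := by rw [hΞd]; exact mx_pos hs1
  obtain ⟨P, hP⟩ : ∃ P, P = ev c 2 Ξ 0 := ⟨_, rfl⟩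
  obtain ⟨Q, hQ⟩ : ∃ Q, Q = ev c 2 Ξ 1 := ⟨_, rfl⟩
  have p0 : P none = 0 := by rw [hP]; exact ev_none _ _ _ _
  have p1 : P (some (c 0)) = 1 := by rw [hP]; exact ev_eq hc2 hΞ (by norm_num)
  have p2' : P (some (c 1)) = cv (kT w TH ω i 1) P := by
    have h3 := ev_comp hc2 hΞ 0 (show 1 < 2 by norm_num)
    rw [if_neg (by norm_num), ← hP, hΞ1] at h3
    linarith
  have q0 : Q none = 0 := by rw [hQ]; exact ev_none _ _ _ _
  have q1 : Q (some (c 0)) = 0 := by rw [hQ]; exact ev_lt hc2 hΞ (by norm_num) (by norm_num)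
  have q2 : Q (some (c 1)) = 1 := by rw [hQ]; exact ev_eq hc2 hΞ (by norm_num)
  have hcv1 : ∀ W : Option (Fin m) → ℝ, CvC c 1 W → ∀ V : Option (Fin m) → ℝ, V none = 0 →
      cv W V = W (some (c 0)) * V (some (c 0)) := fun W hW V hV => by
    have hc1 : Set.InjOn c (Set.Iio 1) := E.inj.mono (Set.Iio_subset_Iio (by omega))
    rw [cv_eq hc1 hW, hV, mul_zero, zero_add, Finset.sum_range_one]
  have hcv2 : ∀ W : Option (Fin m) → ℝ, CvC c 2 W → ∀ V : Option (Fin m) → ℝ, V none = 0 →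
      cv W V = W (some (c 0)) * V (some (c 0)) + W (some (c 1)) * V (some (c 1)) :=
    fun W hW V hV => by
      rw [cv_eq hc2 hW, hV, mul_zero, zero_add, Finset.sum_range_succ, Finset.sum_range_one]
  -- sizes of the vectors
  have hen0 : ∀ (g' : ℕ → ℕ) (a : ℕ) (χ : ℕ → Option (Fin m) → ℝ), (∀ l, CvC c l (χ l)) →
      ∀ V : Option (Fin m) → ℝ, V none = 0 → en c g' a χ 1 V = 2 ^ g' 0 * |V (some (c 0))| :=
    fun g' a χ hχ V hV => by
      rw [en_succ, en_zero, hV, cv_c0 (hχ 0) hV]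
      simp
  have hQT : en c (gT k) A (kT w TH ω k) 2 Q = 2 ^ gT k 1 := by
    rw [show (2 : ℕ) = 1 + 1 from rfl, en_succ, hen0 _ _ _ (hκ k hk) Q q0, q1, q2,
      hcv1 _ (hκ k hk 1) Q q0, q1]
    simp
  have hQG : en c (g₀ k) (w k) (gG G ω k) 2 Q = 2 ^ g₀ k 1 := by
    rw [show (2 : ℕ) = 1 + 1 from rfl, en_succ, hen0 _ _ _ hΓ Q q0, q1, q2,
      hcv1 _ (hΓ 1) Q q0, q1]
    simp
  -- the chart of the static place one, on the vectors without time component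
  obtain ⟨u, hu⟩ : ∃ u : ℝ, u = 2 ^ (8 * cl + 2 * X + 4) := ⟨_, rfl⟩
  have hgg : ∀ V : Option (Fin m) → ℝ, V none = 0 →
      2 ^ g₀ k 1 * |cv (kT w TH ω i 1 - gG G ω k 1) V| ≤ u * (2 ^ g₀ k 0 * |V (some (c 0))|) := by
    intro V hV
    obtain ⟨q, hq⟩ : ∃ q, q = g₀ k 1 + (A - w k) - (3 * cl + 2 * X) := ⟨_, rfl⟩
    have h3 := E.tb (show 1 < r by omega) hi hk hik (q := q) (by omega) (by omega) hω V
    rw [hen0 _ _ _ (hκ k hk) V hV, hen0 _ _ _ hΓ V hV] at h3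
    have hv0 := abs_nonneg (V (some (c 0)))
    refine (mul_le_mul_of_nonneg_left h3 (by positivity)).trans ?_
    have e1 : 2 ^ g₀ k 1 * (2 ^ cl / 2 ^ q * (2 ^ gT k 0 * |V (some (c 0))|) +
        2 ^ cl / 2 ^ g₀ k 1 * (2 ^ g₀ k 0 * |V (some (c 0))|)) =
        (2 ^ (g₀ k 1 + cl + gT k 0) / 2 ^ q + 2 ^ (cl + g₀ k 0)) * |V (some (c 0))| := by
      rw [pow_add 2 (g₀ k 1 + cl), pow_add 2 (g₀ k 1) cl, pow_add 2 cl]
      field_simp
    rw [e1, ← mul_assoc]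
    refine mul_le_mul_of_nonneg_right ?_ hv0
    have e2 : (2 : ℝ) ^ (g₀ k 1 + cl + gT k 0) / 2 ^ q ≤ 2 ^ (8 * cl + 2 * X + 3 + g₀ k 0) := by
      rw [div_le_iff₀ (by positivity), ← pow_add]
      exact p2 (by omega)
    have e3 : (2 : ℝ) ^ (cl + g₀ k 0) ≤ 2 ^ (8 * cl + 2 * X + 3 + g₀ k 0) := p2 (by omega)
    have e4 : u * 2 ^ g₀ k 0 = 2 * 2 ^ (8 * cl + 2 * X + 3 + g₀ k 0) := by
      rw [hu, pow_add 2 (8 * cl + 2 * X + 3), pow_succ 2 (8 * cl + 2 * X + 3)]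
      ring
    rw [e4]
    linarith
  have hPT : en c (gT k) A (kT w TH ω k) 2 P ≤ 2 ^ (2 * cl + X + 1) * 2 ^ gT k 0 := by
    obtain ⟨q, hq⟩ : ∃ q, q = min (gT i 1) (gT k 1) - cl := ⟨_, rfl⟩
    have hq1 : q + cl ≤ gT i 1 := by omega
    have hq2 : q + cl ≤ gT k 1 := by omega
    have hq3 : gT k 1 ≤ q + cl + X := by omega
    have h3 := E.tt (show 1 < r by omega) hi hk hik hq1 hq2 hω P
    rw [hen0 _ _ _ (hκ k hk) P p0, p1, abs_one, mul_one] at h3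
    rw [show (2 : ℕ) = 1 + 1 from rfl, en_succ, hen0 _ _ _ (hκ k hk) P p0, p1, abs_one, mul_one,
      p2', ← cv_subl]
    have e1 : 2 ^ gT k 1 * (2 ^ cl / 2 ^ q * 2 ^ gT k 0) ≤ (2 : ℝ) ^ (2 * cl + X) * 2 ^ gT k 0 := by
      have e2 : 2 ^ gT k 1 * (2 ^ cl / 2 ^ q * 2 ^ gT k 0) =
          (2 : ℝ) ^ (gT k 1 + cl) / 2 ^ q * 2 ^ gT k 0 := by
        rw [pow_add]
        ring
      rw [e2]
      refine mul_le_mul_of_nonneg_right ?_ (by positivity)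
      rw [div_le_iff₀ (by positivity), ← pow_add]
      exact p2 (by omega)
    have e3 := (mul_le_mul_of_nonneg_left h3 (show (0 : ℝ) ≤ 2 ^ gT k 1 by positivity)).trans e1
    have e4 : (1 : ℝ) ≤ 2 ^ (2 * cl + X) := one_le_pow₀ (by norm_num)
    have e5 := mul_le_mul_of_nonneg_right e4 (show (0 : ℝ) ≤ 2 ^ gT k 0 by positivity)
    rw [pow_succ 2 (2 * cl + X)]
    linarith
  have hPG : en c (g₀ k) (w k) (gG G ω k) 2 P ≤ (1 + u) * 2 ^ g₀ k 0 := by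
    have h3 := hgg P p0
    rw [p1, abs_one, mul_one] at h3
    rw [show (2 : ℕ) = 1 + 1 from rfl, en_succ, hen0 _ _ _ hΓ P p0, p1, abs_one, mul_one,
      p2', ← cv_subl]
    linarith
  -- the row of the label of the place two
  obtain ⟨qN, hqN⟩ : ∃ q, q = g₀ k 2 + (A - w k) - (3 * cl + X) := ⟨_, rfl⟩
  have hq1 : qN + cl ≤ gT i 2 := by omega
  have hq2 : qN + cl ≤ gc k 2 := by omega
  have hrow : ∀ V, |cv (kT w TH ω i 2 - gG G ω k 2) V| ≤
      2 ^ cl / 2 ^ qN * en c (gT k) A (kT w TH ω k) 2 V +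
      2 ^ cl / 2 ^ g₀ k 2 * en c (g₀ k) (w k) (gG G ω k) 2 V := fun V =>
    E.tb (show 2 < r by omega) hi hk hik hq1 hq2 hω V
  -- on the frame vector of the rough direction
  obtain ⟨v, hv⟩ : ∃ v : ℝ, v = 2 ^ (12 * cl + 3 * X + 8) := ⟨_, rfl⟩
  have hA0 : |cv (kT w TH ω i 2 - gG G ω k 2) P| ≤ v * (2 ^ g₀ k 0 / 2 ^ g₀ k 2) := by
    refine (hrow P).trans ((add_le_add (mul_le_mul_of_nonneg_left hPT (by positivity))
      (mul_le_mul_of_nonneg_left hPG (by positivity))).trans ?_)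
    have e1 : 2 ^ cl / 2 ^ qN * (2 ^ (2 * cl + X + 1) * 2 ^ gT k 0) ≤
        2 ^ (8 * cl + 2 * X + 3) * ((2 : ℝ) ^ g₀ k 0 / 2 ^ g₀ k 2) := by
      have e2 : 2 ^ cl / 2 ^ qN * (2 ^ (2 * cl + X + 1) * 2 ^ gT k 0) =
          (2 : ℝ) ^ (cl + (2 * cl + X + 1) + gT k 0) / 2 ^ qN := by
        rw [pow_add 2 (cl + (2 * cl + X + 1)), pow_add 2 cl]
        ring
      rw [e2, ← mul_div_assoc, div_le_div_iff₀ (by positivity) (by positivity), ← pow_add,
        ← pow_add, ← pow_add]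
      exact p2 (by omega)
    have e3 : 2 ^ cl / 2 ^ g₀ k 2 * ((1 + u) * 2 ^ g₀ k 0) =
        2 ^ cl * (1 + u) * ((2 : ℝ) ^ g₀ k 0 / 2 ^ g₀ k 2) := by ring
    rw [e3]
    have e4 : (2 : ℝ) ^ cl * (1 + u) ≤ 2 ^ (9 * cl + 2 * X + 5) := by
      have f1 : (1 : ℝ) ≤ u := by
        rw [hu]
        exact one_le_pow₀ (by norm_num)
      calc (2 : ℝ) ^ cl * (1 + u) ≤ 2 ^ cl * (2 * u) :=
            mul_le_mul_of_nonneg_left (by linarith) (by positivity)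
        _ = 2 ^ (9 * cl + 2 * X + 5) := by
            rw [hu, show 9 * cl + 2 * X + 5 = cl + (8 * cl + 2 * X + 4) + 1 by ring,
              pow_succ 2 (cl + (8 * cl + 2 * X + 4)), pow_add 2 cl (8 * cl + 2 * X + 4)]
            ring
    have e5 : (2 : ℝ) ^ (8 * cl + 2 * X + 3) + 2 ^ (9 * cl + 2 * X + 5) ≤ v := by
      rw [hv]
      have f1 : (2 : ℝ) ^ (8 * cl + 2 * X + 3) ≤ 2 ^ (12 * cl + 3 * X + 7) := p2 (by omega)
      have f2 : (2 : ℝ) ^ (9 * cl + 2 * X + 5) ≤ 2 ^ (12 * cl + 3 * X + 7) := p2 (by omega)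
      have f3 : (2 : ℝ) ^ (12 * cl + 3 * X + 8) = 2 ^ (12 * cl + 3 * X + 7) * 2 := pow_succ _ _
      linarith
    have n1 : (0 : ℝ) ≤ 2 ^ g₀ k 0 / 2 ^ g₀ k 2 := by positivity
    have e6 := mul_le_mul_of_nonneg_right e4 n1
    have e7 := mul_le_mul_of_nonneg_right e5 n1
    linarith
  -- the coefficient of the static direction
  obtain ⟨a, ha⟩ : ∃ a, a = cv (gG G ω k 2 - kT w TH ω i 2) Q := ⟨_, rfl⟩
  have haB : |a| ≤ v * 2 ^ y * (2 ^ g₀ k 1 / 2 ^ g₀ k 2) := by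
    rw [ha, cv_swp]
    refine (hrow Q).trans ?_
    rw [hQT, hQG]
    have e1 : 2 ^ cl / 2 ^ qN * 2 ^ gT k 1 ≤
        2 ^ (6 * cl + 2 * X + y) * ((2 : ℝ) ^ g₀ k 1 / 2 ^ g₀ k 2) := by
      rw [div_mul_eq_mul_div, ← mul_div_assoc, div_le_div_iff₀ (by positivity) (by positivity),
        ← pow_add, ← pow_add, ← pow_add, ← pow_add]
      exact p2 (by omega)
    have e2 : (2 : ℝ) ^ cl / 2 ^ g₀ k 2 * 2 ^ g₀ k 1 = 2 ^ cl * (2 ^ g₀ k 1 / 2 ^ g₀ k 2) := by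
      ring
    rw [e2]
    have e3 : (2 : ℝ) ^ (6 * cl + 2 * X + y) + 2 ^ cl ≤ v * 2 ^ y := by
      rw [hv, ← pow_add]
      have f1 : (2 : ℝ) ^ (6 * cl + 2 * X + y) ≤ 2 ^ (12 * cl + 3 * X + 7 + y) := p2 (by omega)
      have f2 : (2 : ℝ) ^ cl ≤ 2 ^ (12 * cl + 3 * X + 7 + y) := p2 (by omega)
      have f3 : (2 : ℝ) ^ (12 * cl + 3 * X + 8 + y) = 2 ^ (12 * cl + 3 * X + 7 + y) * 2 := by
        rw [show 12 * cl + 3 * X + 8 + y = (12 * cl + 3 * X + 7 + y) + 1 by ring,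
          pow_succ 2 (12 * cl + 3 * X + 7 + y)]
      linarith
    have n1 : (0 : ℝ) ≤ 2 ^ g₀ k 1 / 2 ^ g₀ k 2 := by positivity
    have e4 := mul_le_mul_of_nonneg_right e3 n1
    linarith
  -- the relation E_0
  obtain ⟨Nn, hNn⟩ : ∃ x, x = hs (TH i (slam F (w i) ω) 2) (bt F ω) (bd F ω) P := ⟨_, rfl⟩
  obtain ⟨zz, hzz⟩ : ∃ x, x = hs (TH i (slam F (w i) ω) 1) (bt F ω) (bd F ω) P := ⟨_, rfl⟩
  have hE0 : |Nn - a * zz| ≤ 2 ^ (C₁ * (cl + X + 1)) * (2 ^ A / 2 ^ qN + 2 ^ w k / 2 ^ g₀ k 2) *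
      2 ^ g₀ k 0 := by
    have h3 := hex (E.tgt (show 2 < r by omega)) (i₀ := i) (i₁ := i) (k := k) (P := qN) (X := X)
      hi hi hk hik hik (fun l hl hsl => by
        have : l = 1 := by
          by_contra hne
          exact hs0 (by rwa [show l = 0 by omega] at hsl)
        rw [this]
        exact ⟨b1.1, b1.2.1, b1.2.2⟩) (fun l hl hsl => by
        have : l = 1 := by
          by_contra hne
          exact hs0 (by rwa [show l = 0 by omega] at hsl)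
        rw [this]
        exact ⟨m1, lb1⟩) hq1 hq2 ω hω 0 hs0
    rw [← hΞd, ← hP, ← hNn, Finset.sum_range_succ, Finset.sum_range_one, wt_neg hs0, wt_pos hs1,
      zero_mul, zero_add, ← hQ, ← hzz] at h3
    rw [ha]
    exact h3
  -- the polynomials at the sample
  obtain ⟨d, hd⟩ : ∃ d, d = w t - w i := ⟨_, rfl⟩
  rw [← hd] at hvar ⊢
  obtain ⟨s, hsd⟩ : ∃ s, s = slam F (w t) ω := ⟨_, rfl⟩
  obtain ⟨τ, hτ⟩ : ∃ τ, τ = rt F (w t) ω := ⟨_, rfl⟩
  rw [← hsd] at hvar ⊢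
  rw [← hτ]
  have hlt : ∀ l, ltr (TH i) d l s = TH i (slam F (w i) ω) l := fun l => by
    rw [hsd, hd]
    exact ltr_slam F (TH i) n.it htJ l ω
  have hkv : ∀ l j, (kpol c (w t) (ltr (TH i) d l) s j).eval τ =
      kT w TH ω i l (some (c j)) := fun l j => by
    rw [hsd, hτ, kpol_rt F c htJ, ← hsd, hlt]
    rfl
  have hkd : ∀ l, (∀ s, DepC c l (TH i s l)) → l ≤ 2 → ∀ V : Option (Fin m) → ℝ, V none = 0 →
      2 ^ w t * (∑ j ∈ range l, (Polynomial.derivative (kpol c (w t) (ltr (TH i) d l) s j)).eval τ *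
        V (some (c j))) = hs (TH i (slam F (w i) ω) l) (bt F ω) (bd F ω) V := fun l hdp hl V hV => by
    have h3 := kpol_hs F (c := c) (l := l) (t := w t) (hc2.mono (Set.Iio_subset_Iio hl)) htJ
      (Q := ltr (TH i) d l) (fun s => hdp (co d s)) ω hV
    rw [← hsd, ← hτ, hlt] at h3
    rw [h3]
    field_simp
  obtain ⟨z0, hz0⟩ : ∃ x, x = 2 ^ w t * (Polynomial.derivative (kpol c (w t)
    (ltr (TH i) d 1) s 0)).eval 0 := ⟨_, rfl⟩
  have hzt : 2 ^ w t * (Polynomial.derivative (kpol c (w t) (ltr (TH i) d 1) s 0)).eval τ = zz := by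
    have h3 := hkd 1 (fun s => (E.evs i hi).thin.depH s 1) (by norm_num) P p0
    rw [Finset.sum_range_one, p1, mul_one, ← hzz] at h3
    exact h3
  obtain ⟨Lw, hLw⟩ : ∃ x : ℝ, x = 2 ^ (w k + g₀ k 0) / 2 ^ (g₀ k 1 + t₀) := ⟨_, rfl⟩
  have hLw0 : 0 < Lw := by rw [hLw]; positivity
  have hzz1 : Lw ≤ |zz| := by
    rw [hLw, hzz]
    exact hlow P p0 p1
  have hvz : |zz - z0| ≤ Lw / 2 ^ (y + 1) := by
    have h3 := hvar τ (by rw [hτ]; exact rt_mem F (w t) ω)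
    rw [hzt, ← hz0] at h3
    refine h3.trans (le_of_eq ?_)
    rw [hLw, show g₀ k 1 + (t₀ + y + 1) = g₀ k 1 + t₀ + (y + 1) by ring, pow_add 2 (g₀ k 1 + t₀)]
    field_simp
  have h2y : (1 : ℝ) ≤ 2 ^ y := one_le_pow₀ (by norm_num)
  have hz0L : Lw / 2 ≤ |z0| := by
    have h3 : Lw / 2 ^ (y + 1) ≤ Lw / 2 := by
      refine div_le_div_of_nonneg_left hLw0.le (by norm_num) ?_
      rw [pow_succ]
      linarith
    have h4 := abs_sub_abs_le_abs_sub zz z0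
    linarith
  have hz00 : z0 ≠ 0 := by
    intro h
    rw [h, abs_zero] at hz0L
    linarith
  obtain ⟨de, hde⟩ : ∃ de, de = (dlU c (w t) d 2 (TH i) s).eval τ := ⟨_, rfl⟩
  have hdeN : de = Nn / z0 := by
    have h3 := hkd 2 (fun s => (E.evs i hi).thin.depH s 2) le_rfl P p0
    rw [Finset.sum_range_succ, Finset.sum_range_one, p1, mul_one, p2', hcv1 _ (hκ i hi 1) P p0,
      p1, mul_one, ← hNn] at h3
    rw [hde]
    unfold dlU
    rw [Polynomial.eval_mul, Polynomial.eval_C, Polynomial.eval_add, Polynomial.eval_mul, hkv,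
      ← h3, hz0]
    have hpw : (2 : ℝ) ^ w t ≠ 0 := by positivity
    rw [mul_div_mul_left _ _ hpw]
    ring
  have hlam : ∑ j ∈ range 2, (lamU c (w t) d (TH i) s j).eval τ * V (some (c j)) =
      cv (kT w TH ω i 2) V + de * (V (some (c 1)) - cv (kT w TH ω i 1) V) := by
    rw [Finset.sum_range_succ, Finset.sum_range_one, hcv2 _ (hκ i hi 2) V hV0,
      hcv1 _ (hκ i hi 1) V hV0]
    unfold lamU
    rw [if_pos rfl, if_neg (by norm_num), Polynomial.eval_sub, Polynomial.eval_add,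
      Polynomial.eval_mul, hkv, hkv, hkv, ← hde]
    ring
  rw [hlam]
  -- the difference
  have hdec : cv (kT w TH ω i 2) V + de * (V (some (c 1)) - cv (kT w TH ω i 1) V) -
      cv (gG G ω k 2) V = V (some (c 0)) * cv (kT w TH ω i 2 - gG G ω k 2) P +
        (V (some (c 1)) - cv (kT w TH ω i 1) V) * (de - a) := by
    rw [ha, cv_subl, cv_subl, hcv2 _ (hκ i hi 2) V hV0, hcv2 _ (hΓ 2) V hV0,
      hcv2 _ (hκ i hi 2) P p0, hcv2 _ (hΓ 2) P p0, hcv2 _ (hκ i hi 2) Q q0, hcv2 _ (hΓ 2) Q q0,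
      hcv1 _ (hκ i hi 1) V hV0, p2', hcv1 _ (hκ i hi 1) P p0, p1, q1, q2]
    ring
  rw [hdec]
  -- the correction is natural
  have hda : |de - a| ≤ 2 ^ (C₁ * (cl + X + 1) + 12 * cl + 3 * X + t₀ + 10) *
      (2 ^ g₀ k 1 / 2 ^ g₀ k 2) := by
    have e1 : de - a = (Nn - a * zz) / z0 + a * ((zz - z0) / z0) := by
      rw [hdeN]
      field_simp
      ring
    rw [e1]
    refine (abs_add_le _ _).trans ?_
    rw [abs_div, abs_mul, abs_div]
    have hz0p : 0 < |z0| := abs_pos.2 hz00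
    have f1 : |zz - z0| / |z0| ≤ 1 / 2 ^ y := by
      rw [div_le_div_iff₀ hz0p (by positivity), one_mul]
      have g1 := mul_le_mul_of_nonneg_right hvz (show (0 : ℝ) ≤ 2 ^ y by positivity)
      have g2 : Lw / 2 ^ (y + 1) * 2 ^ y = Lw / 2 := by
        rw [pow_succ]
        field_simp
      rw [g2] at g1
      exact g1.trans hz0L
    have f2 : |a| * (|zz - z0| / |z0|) ≤ v * (2 ^ g₀ k 1 / 2 ^ g₀ k 2) := by
      refine (mul_le_mul haB f1 (by positivity) (by rw [hv]; positivity)).trans (le_of_eq ?_)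
      field_simp
    have f3 : |Nn - a * zz| / |z0| ≤ 2 ^ (C₁ * (cl + X + 1) + 3 * cl + X + t₀ + 3) *
        (2 ^ g₀ k 1 / 2 ^ g₀ k 2) := by
      have g0 : (2 : ℝ) ^ A / 2 ^ qN ≤ 2 ^ (3 * cl + X + 1) * (2 ^ w k / 2 ^ g₀ k 2) := by
        rw [← mul_div_assoc, div_le_div_iff₀ (by positivity) (by positivity), ← pow_add,
          ← pow_add, ← pow_add]
        exact p2 (by omega)
      have g1 : (2 : ℝ) ^ A / 2 ^ qN + 2 ^ w k / 2 ^ g₀ k 2 ≤
          2 ^ (3 * cl + X + 2) * (2 ^ w k / 2 ^ g₀ k 2) := by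
        have g2 : (1 : ℝ) ≤ 2 ^ (3 * cl + X + 1) := one_le_pow₀ (by norm_num)
        have g3 := mul_le_mul_of_nonneg_right g2 (show (0 : ℝ) ≤ 2 ^ w k / 2 ^ g₀ k 2 by
          positivity)
        rw [show 3 * cl + X + 2 = (3 * cl + X + 1) + 1 by ring, pow_succ 2 (3 * cl + X + 1)]
        linarith
      have g4 : |Nn - a * zz| ≤ 2 ^ (C₁ * (cl + X + 1)) * (2 ^ (3 * cl + X + 2) *
          (2 ^ w k / 2 ^ g₀ k 2)) * 2 ^ g₀ k 0 :=
        hE0.trans (mul_le_mul_of_nonneg_right (mul_le_mul_of_nonneg_left g1 (by positivity))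
          (by positivity))
      rw [div_le_iff₀ hz0p]
      have g5 : 2 ^ (C₁ * (cl + X + 1) + 3 * cl + X + t₀ + 3) *
          ((2 : ℝ) ^ g₀ k 1 / 2 ^ g₀ k 2) * (Lw / 2) =
          2 ^ (C₁ * (cl + X + 1)) * (2 ^ (3 * cl + X + 2) *
          (2 ^ w k / 2 ^ g₀ k 2)) * 2 ^ g₀ k 0 := by
        rw [hLw, show C₁ * (cl + X + 1) + 3 * cl + X + t₀ + 3 =
          C₁ * (cl + X + 1) + (3 * cl + X + 2) + t₀ + 1 by ring,
          pow_succ 2 (C₁ * (cl + X + 1) + (3 * cl + X + 2) + t₀),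
          pow_add 2 (C₁ * (cl + X + 1) + (3 * cl + X + 2)) t₀,
          pow_add 2 (C₁ * (cl + X + 1)) (3 * cl + X + 2), pow_add 2 (w k) (g₀ k 0),
          pow_add 2 (g₀ k 1) t₀]
        field_simp
      have g6 := mul_le_mul_of_nonneg_left hz0L (show (0 : ℝ) ≤
        2 ^ (C₁ * (cl + X + 1) + 3 * cl + X + t₀ + 3) * (2 ^ g₀ k 1 / 2 ^ g₀ k 2) by positivity)
      rw [g5] at g6
      exact g4.trans g6
    have n1 : (0 : ℝ) ≤ 2 ^ g₀ k 1 / 2 ^ g₀ k 2 := by positivity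
    have f4 : (2 : ℝ) ^ (C₁ * (cl + X + 1) + 3 * cl + X + t₀ + 3) + v ≤
        2 ^ (C₁ * (cl + X + 1) + 12 * cl + 3 * X + t₀ + 10) := by
      rw [hv]
      have g1 : (2 : ℝ) ^ (C₁ * (cl + X + 1) + 3 * cl + X + t₀ + 3) ≤
          2 ^ (C₁ * (cl + X + 1) + 12 * cl + 3 * X + t₀ + 9) := p2 (by omega)
      have g2 : (2 : ℝ) ^ (12 * cl + 3 * X + 8) ≤
          2 ^ (C₁ * (cl + X + 1) + 12 * cl + 3 * X + t₀ + 9) := p2 (by omega)
      have g3 : (2 : ℝ) ^ (C₁ * (cl + X + 1) + 12 * cl + 3 * X + t₀ + 10) =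
          2 ^ (C₁ * (cl + X + 1) + 12 * cl + 3 * X + t₀ + 9) * 2 := pow_succ _ _
      linarith
    have f5 := mul_le_mul_of_nonneg_right f4 n1
    linarith
  -- the sizes of the components of `V`
  have hVs : |V (some (c 1)) - cv (kT w TH ω i 1) V| * 2 ^ g₀ k 1 ≤
      (1 + u) * en c (g₀ k) (w k) (gG G ω k) 2 V := by
    have h3 := hgg V hV0
    have h4 := cv_dev (kT w TH ω i 1) (gG G ω k 1) V (V (some (c 1)))
    have h5 : en c (g₀ k) (w k) (gG G ω k) 2 V = 2 ^ g₀ k 0 * |V (some (c 0))| +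
        2 ^ g₀ k 1 * |V (some (c 1)) - cv (gG G ω k 1) V| := by
      rw [show (2 : ℕ) = 1 + 1 from rfl, en_succ, hen0 _ _ _ hΓ V hV0]
    have h6 : 0 ≤ 2 ^ g₀ k 0 * |V (some (c 0))| := by positivity
    have h7 : 0 ≤ 2 ^ g₀ k 1 * |V (some (c 1)) - cv (gG G ω k 1) V| := by positivity
    have hu0 : 0 ≤ u := by rw [hu]; positivity
    rw [cv_swp] at h3
    have h8 : |V (some (c 1)) - cv (kT w TH ω i 1) V| ≤
        |V (some (c 1)) - cv (gG G ω k 1) V| + |cv (gG G ω k 1 - kT w TH ω i 1) V| := by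
      have e1 : V (some (c 1)) - cv (kT w TH ω i 1) V =
          (V (some (c 1)) - cv (gG G ω k 1) V) + cv (gG G ω k 1 - kT w TH ω i 1) V := by
        rw [cv_subl]
        ring
      rw [e1]
      exact abs_add_le _ _
    rw [h5]
    have h9 := mul_le_mul_of_nonneg_right h8 (show (0 : ℝ) ≤ 2 ^ g₀ k 1 by positivity)
    have h10 := mul_nonneg hu0 h7
    nlinarith
  have hVr : |V (some (c 0))| * 2 ^ g₀ k 0 ≤ en c (g₀ k) (w k) (gG G ω k) 2 V := by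
    rw [show (2 : ℕ) = 1 + 1 from rfl, en_succ, hen0 _ _ _ hΓ V hV0]
    have h7 : 0 ≤ 2 ^ g₀ k 1 * |V (some (c 1)) - cv (gG G ω k 1) V| := by positivity
    linarith
  obtain ⟨En, hEn⟩ : ∃ x, x = en c (g₀ k) (w k) (gG G ω k) 2 V := ⟨_, rfl⟩
  have hEn0 : 0 ≤ En := by
    rw [hEn]
    exact en_nonneg _ _ _ _ _ _
  rw [← hEn] at hVs hVr ⊢
  obtain ⟨Z, hZ⟩ : ∃ Z, Z = C₁ * (cl + X + 1) + 12 * cl + 3 * X + t₀ + 10 := ⟨_, rfl⟩
  rw [← hZ] at hda
  have hg0 : (0 : ℝ) < 2 ^ g₀ k 0 := by positivity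
  have hg1 : (0 : ℝ) < 2 ^ g₀ k 1 := by positivity
  have hg2 : (0 : ℝ) < 2 ^ g₀ k 2 := by positivity
  refine (abs_add_le _ _).trans ?_
  rw [abs_mul, abs_mul]
  have k1 : |V (some (c 0))| * |cv (kT w TH ω i 2 - gG G ω k 2) P| ≤ v / 2 ^ g₀ k 2 * En := by
    refine (mul_le_mul_of_nonneg_left hA0 (abs_nonneg _)).trans ?_
    have e1 : |V (some (c 0))| * (v * (2 ^ g₀ k 0 / 2 ^ g₀ k 2)) =
        v / 2 ^ g₀ k 2 * (|V (some (c 0))| * 2 ^ g₀ k 0) := by ring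
    rw [e1]
    exact mul_le_mul_of_nonneg_left hVr (by rw [hv]; positivity)
  have k2 : |V (some (c 1)) - cv (kT w TH ω i 1) V| * |de - a| ≤
      2 ^ Z / 2 ^ g₀ k 2 * ((1 + u) * En) := by
    refine (mul_le_mul_of_nonneg_left hda (abs_nonneg _)).trans ?_
    have e1 : |V (some (c 1)) - cv (kT w TH ω i 1) V| * (2 ^ Z * (2 ^ g₀ k 1 / 2 ^ g₀ k 2)) =
        2 ^ Z / 2 ^ g₀ k 2 * (|V (some (c 1)) - cv (kT w TH ω i 1) V| * 2 ^ g₀ k 1) := by ring
    rw [e1]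
    exact mul_le_mul_of_nonneg_left hVs (by positivity)
  refine (add_le_add k1 k2).trans ?_
  have e1 : v / 2 ^ g₀ k 2 * En + 2 ^ Z / 2 ^ g₀ k 2 * ((1 + u) * En) =
      (v + 2 ^ Z * (1 + u)) / 2 ^ g₀ k 2 * En := by ring
  rw [e1]
  refine mul_le_mul_of_nonneg_right (div_le_div_of_nonneg_right ?_ hg2.le) hEn0
  have f1 : v ≤ 2 ^ (Z + (8 * cl + 2 * X + 5)) := by
    rw [hv]
    exact p2 (by omega)
  have f2 : (2 : ℝ) ^ Z * (1 + u) ≤ 2 ^ (Z + (8 * cl + 2 * X + 5)) := by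
    rw [pow_add 2 Z]
    refine mul_le_mul_of_nonneg_left ?_ (by positivity)
    rw [show 8 * cl + 2 * X + 5 = (8 * cl + 2 * X + 4) + 1 by ring,
      pow_succ 2 (8 * cl + 2 * X + 4), ← hu]
    have : (1 : ℝ) ≤ u := by
      rw [hu]
      exact one_le_pow₀ (by norm_num)
    linarith
  have f3 : (2 : ℝ) ^ (Z + (8 * cl + 2 * X + 6)) = 2 ^ (Z + (8 * cl + 2 * X + 5)) * 2 := by
    rw [show Z + (8 * cl + 2 * X + 6) = (Z + (8 * cl + 2 * X + 5)) + 1 by ring,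
      pow_succ 2 (Z + (8 * cl + 2 * X + 5))]
  have f4 : (2 : ℝ) ^ (Z + (8 * cl + 2 * X + 6)) ≤ 2 ^ ((C₁ + 40) * (cl + X + t₀ + 1)) := by
    refine p2 ?_
    rw [hZ]
    have e2 : (C₁ + 40) * (cl + X + t₀ + 1) = C₁ * (cl + X + 1) + C₁ * t₀ +
        40 * (cl + X + t₀ + 1) := by ring
    rw [e2]
    omega
  linarith

end Pool.TN
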