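import Pool.Agent.H88.D2.Ssc
import Pool.Agent.H23.D2.Clc

/-!
# The cell `[one, sta, sta]` in the form `CellC`
-/

set_option autoImplicit false

namespace Pool.TN

open Pool.PKG (Kd)

/-- **The class theorem of the cell** `[one, sta, sta]` of slopes `1, 2, 2` and any target, from the
closed gradient in the direction of the second static place. -/
theorem cellC_ssC {n : ℕ} {Sl : ℕ → ℝ} {κ : ℕ → Kd} (k0 : κ 0 = .one) (k1 : κ 1 = .sta)
    (k2 : κ 2 = .sta) (h0 : Sl 0 = 1) (h1 : Sl 1 = 2) (h2 : Sl 2 = 2) : CellC n 2 Sl κ :=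
  fun S₀ hS₀ => cellC_ss k0 k1 k2 h0 h1 h2 S₀ hS₀

end Pool.TN
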