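import Pool.Agent.H66.D2.Ece

/-!
# A tower of closed gradients at a ball of the event

`cev_afd`: closed gradients of the charts of a ball (all places) on the window `t` are the data of an
affine tower. `twr_end`: above the threshold the event is small.
-/

set_option autoImplicit false

namespace Pool.TN

open Finset Real MvPolynomial
open Pool.Agent.H49.Ent Pool.Agent.H32.Dense Pool.STK Pool.KA Pool.KSAT Pool.K2S Pool.PB Pool.S6C
open Pool.GEN Pool.CHT Pool.CHX Pool.ISO Pool.D2R Pool.D2Z Pool.D2F Pool.AFT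
open Pool.LBT (ThrOf)
open Pool.FLF (Fam.sub)
open Pool.PB.Trl (rt rt_mem t_rt)
open Pool.D2T (der_of)

variable {m : ℕ}

/-- **A tower of closed gradients** at the ball `k`, the own line on the window `t`. -/
theorem cev_afd (m D D₁ r : ℕ) (hD : 1 ≤ D) : ∃ C : ℕ, 1 ≤ C ∧ ∀ {J : ℕ} {F : Fam m J}
    {c : ℕ → Fin m} {Dr N M A cl : ℕ} {Sc : ℕ → Prop} {w e h pp : ℕ → ℕ}
    {z g gc gT g₀ : ℕ → ℕ → ℕ} {κ : ℝ} {B : F.Ω → Prop}
    {G : ℕ → PtT F → ℕ → MvPolynomial (Option (Fin m)) ℝ}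
    {H : ℕ → LnT F → ℕ → MvPolynomial (Option (Fin m)) ℝ}
    {T : ℕ → PtT F → ℕ → MvPolynomial (Option (Fin m)) ℝ}
    {TH : ℕ → LnT F → ℕ → MvPolynomial (Option (Fin m)) ℝ}
    {Gt : ℕ → PtT F → MvPolynomial (Option (Fin m)) ℝ}
    {Ht : ℕ → LnT F → MvPolynomial (Option (Fin m)) ℝ}
    {lam : LnT F → ℕ → ℕ → Polynomial ℝ} {k t Z K : ℕ} {θ : ℝ} (_ : 0 < Pe F.p B),
    CEv F c r D Dr N M A cl Sc w e h pp z g gc gT g₀ κ B G H T TH Gt Ht → C ≤ cl →
    k ≤ N → cl ≤ pp k → cl ≤ gc k r → t ≤ w k → C * (cl + Z + 1) ≤ K → 0 ≤ θ →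
    (∀ (B' : F.Ω → Prop) (hB' : 0 < Pe F.p B'), Sub B' B →
      Pe F.p B ≤ 2 ^ (r + 2) * Pe F.p B' → (Fam.sub F B' hB').Tm θ) →
    C * (θ + 1) ≤ ((J : ℝ) - w k) * Real.log 2 → Real.exp (C * (θ + 1)) ≤ 2 ^ K →
    (∀ s l j, (lam s l j).natDegree ≤ D₁) →
    (∀ ω, B ω → ∀ l ≤ r, ∀ V : Option (Fin m) → ℝ, V none = 0 →
      |∑ j ∈ range l, (lam (slam F t ω) l j).eval (rt F t ω) * V (some (c j)) -
        cv (gG G ω k l) V| ≤ 2 ^ Z / 2 ^ g₀ k l * en c (g₀ k) (w k) (gG G ω k) l V) →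
    ∃ B' : F.Ω → Prop, Sub B' B ∧ Pe F.p B ≤ 2 ^ (r + 2) * Pe F.p B' ∧
      AfD F c (r + 1) D₁ t (w k) (e k + (r + 1)) (g₀ k) (2 ^ (C * (K + 1))) B'
        (gpt F (G k)) (ab t lam) := by
  choose C₁ hC₁ hder using fun l => der_of m D D₁ l hD
  obtain ⟨C₂, hC₂, hrnd⟩ := chn_rnd D (r + 1)
  obtain ⟨C₃, hC₃, hvlr⟩ := CEv.vlr D r
  obtain ⟨C₄, hC₄, hafo⟩ := afo_afd m D₁ (r + 1)
  obtain ⟨Cs, hCs⟩ : ∃ Cs, Cs = ∑ l ∈ range (r + 1), C₁ l := ⟨_, rfl⟩
  have hC₁s : ∀ l ≤ r, C₁ l ≤ Cs := fun l hl => by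
    rw [hCs]
    exact Finset.single_le_sum (f := C₁) (fun _ _ => Nat.zero_le _)
      (Finset.mem_range.2 (Nat.lt_succ_of_le hl))
  have hCs1 : 1 ≤ Cs := (hC₁ 0).trans (hC₁s 0 (Nat.zero_le _))
  obtain ⟨Q, hQ⟩ : ∃ Q, Q = Cs + C₂ + C₃ + 2 * r + 10 := ⟨_, rfl⟩
  obtain ⟨C, hC⟩ : ∃ C, C = C₄ * (Q + 1) + Q := ⟨_, rfl⟩
  refine ⟨C, by omega, ?_⟩
  intro J F c Dr N M A cl Sc w e h pp z g gc gT g₀ κ B G H T TH Gt Ht lam k t Z K θ hB E hcl hk hpk
    hgk htk hK hθ hTm hCJ hexp hlam hspa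
  have hQC : Q ≤ C := by omega
  have hC4C : C₄ ≤ C := by
    rw [hC]
    nlinarith [Nat.zero_le (C₄ * Q)]
  have hθ1 : 0 ≤ θ + 1 := by linarith
  have hmono : ∀ {X : ℕ}, X ≤ C → (X : ℝ) * (θ + 1) ≤ ((J : ℝ) - w k) * Real.log 2 ∧
      Real.exp (X * (θ + 1)) ≤ 2 ^ K := fun hX =>
    ⟨le_trans (mul_le_mul_of_nonneg_right (by exact_mod_cast hX) hθ1) hCJ,
      (Real.exp_le_exp.2 (mul_le_mul_of_nonneg_right (by exact_mod_cast hX) hθ1)).trans hexp⟩
  have hwJ : w k ≤ J := (E.wA k hk).trans E.AJ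
  have hc := E.inj
  have hKq : Q * (cl + Z + 1) ≤ K := (Nat.mul_le_mul_right _ hQC).trans hK
  have hQe : Q * (cl + Z + 1) = Cs * (cl + Z + 1) + C₂ * (cl + Z + 1) + C₃ * (cl + Z + 1) +
      2 * (r * (cl + Z + 1)) + 10 * (cl + Z + 1) := by
    rw [hQ]
    ring
  have hrq : r ≤ r * (cl + Z + 1) := Nat.le_mul_of_pos_right _ (by omega)
  have hcq : C₃ * (cl + 1) ≤ C₃ * (cl + Z + 1) := Nat.mul_le_mul_left _ (by omega)
  -- the rounded ball
  have hnb : ∀ ω, B ω → Nc c (g₀ k) (w k) (r + 1) 1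
      (fun l => grd (G k (ptr F J ω) l) (bt F ω)) (gpt F (G k) (ptr F J ω)) := fun ω hω =>
    hrnd hc (E.evs k hk).ball (fun l hl => by
      have a1 := E.room k hk l (by omega)
      have a2 := E.ng k hk l (by omega)
      omega) ω hω
  have hngG : ∀ ω, (fun l => grd (G k (ptr F J ω) l) (bt F ω)) = gG G ω k := fun ω => rfl
  -- the coefficients
  have hlΓ : ∀ ω, B ω → ∀ l ≤ r, ∀ j < l, |gpt F (G k) (ptr F J ω) l (some (c j))| ≤
      2 ^ ((e k + (r + 1)) + nlp (g₀ k) j l) := by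
    intro ω hω l hl j hj
    have hcl' : Set.InjOn c (Set.Iio l) := hc.mono (Set.Iio_subset_Iio (by omega))
    have h4 := coe_near (r := l) hcl' (g := g₀ k) (e := e k) (χ := gG G ω k)
      (fun j => cvc_grd ((E.evs k hk).ball.depG _ j) _)
      (fun l' hl' j hj => lip_bt (E.evs k hk).ball hω (by omega) hj) (X := 1) zero_le_one
      (ψ := gpt F (G k) (ptr F J ω) l) (fun V h0' => by
        have h5 := hnb ω hω l (by omega) V
        rw [en_sz _ _ _ _ _ h0'] at h5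
        exact h5) hj
    refine h4.trans ?_
    have h6 : (1 : ℝ) + 1 * l ≤ 2 ^ (r + 1) := by
      have h7 : l + 1 ≤ 2 ^ (r + 1) := (by omega : l + 1 ≤ r + 1).trans Nat.lt_two_pow_self.le
      have h8 : ((l + 1 : ℕ) : ℝ) ≤ ((2 ^ (r + 1) : ℕ) : ℝ) := by exact_mod_cast h7
      push_cast at h8
      linarith
    refine (mul_le_mul_of_nonneg_right h6 (by positivity)).trans ?_
    rw [← pow_add]
    exact p2 (by omega)
  -- the derivatives
  have hKK : ∀ {x : ℕ}, x ≤ Q * (cl + Z + 1) → (2 : ℝ) ^ x ≤ 2 ^ K := fun hx =>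
    p2 (hx.trans hKq)
  have hall : ∀ L ≤ r + 1, ∃ B' : F.Ω → Prop, Sub B' B ∧ Pe F.p B ≤ 2 ^ L * Pe F.p B' ∧
      ∀ ω, B' ω → ∀ l < L, ∀ V : Option (Fin m) → ℝ, V none = 0 →
      |∑ j ∈ range l, (Polynomial.derivative (lam (slam F t ω) l j)).eval (rt F t ω) *
        V (some (c j))| ≤ 2 ^ (w k - t) * (2 ^ (Cs * (K + 1)) / 2 ^ g₀ k l *
          nrm c (G k (ptr F J ω)) (g₀ k) (w k) l (bt F ω) V) := by
    intro L
    induction L with
    | zero =>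
      exact fun _ => ⟨B, fun ω hω => hω, by simp, fun ω _ l hl => absurd hl (by omega)⟩
    | succ l ih =>
      intro hl
      obtain ⟨B₁, s1, s2, s3⟩ := ih (by omega)
      have hlr : l ≤ r := by omega
      have hpos : 0 < Pe F.p B₁ := by
        by_contra hcon
        have : (2 : ℝ) ^ l * Pe F.p B₁ ≤ 0 :=
          mul_nonpos_of_nonneg_of_nonpos (by positivity) (not_lt.1 hcon)
        linarith
      have hTm1 := hTm B₁ hpos s1 (s2.trans (mul_le_mul_of_nonneg_right (p2 (by omega))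
        hpos.le))
      have hCl := hmono (((hC₁s l hlr).trans (by omega : Cs ≤ Q)).trans hQC)
      obtain ⟨B₂, t1, t2, t3⟩ := hder l (k := K) (Y := 2 ^ K) (g := g₀ k) (θ := θ) (w := t)
        (a := w k) (c := c) (G := G k) (H := H k) (lam := fun s j => lam s l j) hpos
        (hc.mono (Set.Iio_subset_Iio (by omega))) htk hwJ
        (by
          calc (2 : ℝ) = 2 ^ 1 := (pow_one 2).symm
            _ ≤ 2 ^ K := hKK (by omega)) le_rfl hθ hTm1 hCl.1 hCl.2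
        (fun s l => (E.evs k hk).ball.degH s l) (fun s l => (E.evs k hk).ball.depH s l)
        (fun ω hω x hx => by
          have h4 := (E.row k hk k hk le_rfl 0 (by omega) (by omega)).dif ω (s1 ω hω) x
            (hx.trans hlr)
          exact ⟨fun V => (h4.1 V).trans (mul_le_mul_of_nonneg_right
            (div_le_div_of_nonneg_right (hKK (by omega)) (by positivity))
            (nrm_nonneg _ _ _ _ _ _ _)), fun V V' Z => (h4.2 V V' Z).trans
            (mul_le_mul_of_nonneg_right (div_le_div_of_nonneg_right (hKK (by omega))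
            (by positivity)) (add_nonneg (mul_nonneg (nrm_nonneg _ _ _ _ _ _ _)
            (nrm_nonneg _ _ _ _ _ _ _)) (nrz_nonneg _ _ _ _ _ _ _ _ _)))⟩)
        (fun ω hω => by
          rw [nrm_en]
          refine (en_mono c (g₀ k) (w k) _ hlr _).trans (((E.bdG hk hpk hgk (s1 ω hω)).2 r
            le_rfl).trans (mul_le_mul_of_nonneg_right ((one_r r cl).trans (hKK (by omega)))
            (by positivity))))
        (fun ω hω x hx V => by
          have h4 := E.hG hk hpk hgk (s1 ω hω) (hx.trans hlr) V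
          rw [nrm_en]
          refine h4.trans (mul_le_mul_of_nonneg_right ?_ (en_nonneg _ _ _ _ _ _))
          rw [mul_div_assoc]
          exact mul_le_mul_of_nonneg_right (hKK (by omega)) (by positivity))
        (fun s j => hlam s l j)
        (fun ω hω V h0 => by
          have h4 := hspa ω (s1 ω hω) l hlr V h0
          rw [nrm_en]
          refine h4.trans (mul_le_mul_of_nonneg_right (div_le_div_of_nonneg_right
            (hKK (by omega)) (by positivity)) (en_nonneg _ _ _ _ _ _)))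
      refine ⟨B₂, fun ω hω => s1 ω (t1 ω hω), ?_, fun ω hω l' hl' V h0 => ?_⟩
      · rw [pow_succ]
        have : (0 : ℝ) < 2 ^ l := by positivity
        nlinarith
      · rcases Nat.lt_succ_iff_lt_or_eq.1 hl' with h5 | h5
        · exact s3 ω (t1 ω hω) l' h5 V h0
        · subst h5
          refine (t3 ω hω V h0).trans (mul_le_mul_of_nonneg_left (mul_le_mul_of_nonneg_right
            (div_le_div_of_nonneg_right (p2 (Nat.mul_le_mul_right _ (hC₁s l' hlr)))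
            (by positivity)) (nrm_nonneg _ _ _ _ _ _ _)) (by positivity))
  obtain ⟨B₁, s1, s2, s3⟩ := hall (r + 1) le_rfl
  have hpos : 0 < Pe F.p B₁ := by
    by_contra hcon
    have : (2 : ℝ) ^ (r + 1) * Pe F.p B₁ ≤ 0 :=
      mul_nonpos_of_nonneg_of_nonpos (by positivity) (not_lt.1 hcon)
    linarith
  -- the tower at the own times
  obtain ⟨U, hU⟩ : ∃ U : ℕ, U = Q * (K + 1) := ⟨_, rfl⟩
  have hUe : U = Cs * (K + 1) + C₂ * (K + 1) + C₃ * (K + 1) + 2 * (r * (K + 1)) +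
      10 * (K + 1) := by
    rw [hU, hQ]
    ring
  have hKU : K ≤ U := by omega
  have hrU : r ≤ r * (K + 1) := Nat.le_mul_of_pos_right _ (by omega)
  have hge : ∀ ω, B ω → ∀ l ≤ r, ∀ V : Option (Fin m) → ℝ,
      en c (g₀ k) (w k) (gG G ω k) l V ≤ 2 ^ (r + 1) *
        en c (g₀ k) (w k) (gpt F (G k) (ptr F J ω)) l V := fun ω hω l hl V => by
    have h4 := (hnb ω hω).en_ge zero_le_one (l := l) (by omega) V
    rw [hngG, one_add_one_eq_two] at h4
    exact h4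
  have hA : AfO F c (r + 1) D₁ t (w k) (e k + (r + 1)) (g₀ k) (2 ^ U) B₁ (gpt F (G k)) lam :=
    { dep := fun y l => cvc_grd ((E.evs k hk).ball.depG y l) _
      deg := hlam
      lip := fun ω hω l hl j hj => hlΓ ω (s1 ω hω) l (by omega) j hj
      vel := fun ω hω l hl => by
        have h4 := hvlr E (by
          have : C₃ ≤ Q := by omega
          omega) k hk hpk hgk 0 (Nat.zero_le _) ω (s1 ω hω) l (by omega)
        have h5 : gpt F (G k) (ptr F J ω) l = grd (G k (ptr F J ω) l) (hx F ω) := rfl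
        rw [h5, ]
        rw [mul_div_assoc] at h4
        exact h4.trans (mul_le_mul_of_nonneg_right (p2 (by omega)) (by positivity))
      spa := fun ω hω l hl V h0 => by
        have h4 := hspa ω (s1 ω hω) l (by omega) V h0
        have h5 := hnb ω (s1 ω hω) l hl V
        rw [hngG] at h5
        have h6 : |cv (gG G ω k l) V - cv (gpt F (G k) (ptr F J ω) l) V| ≤
            1 / 2 ^ g₀ k l * en c (g₀ k) (w k) (gG G ω k) l V := by
          rw [abs_sub_comm, ← cv_subl]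
          exact h5
        have h7 := hge ω (s1 ω hω) l (by omega) V
        have e1 : ∑ j ∈ range l, (lam (slam F t ω) l j).eval (rt F t ω) * V (some (c j)) -
            cv (gpt F (G k) (ptr F J ω) l) V =
            (∑ j ∈ range l, (lam (slam F t ω) l j).eval (rt F t ω) * V (some (c j)) -
              cv (gG G ω k l) V) + (cv (gG G ω k l) V -
              cv (gpt F (G k) (ptr F J ω) l) V) := by ring
        rw [e1]
        refine (abs_add_le _ _).trans ((add_le_add h4 h6).trans ?_)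
        obtain ⟨E₁, hE₁⟩ : ∃ x, x = en c (g₀ k) (w k) (gG G ω k) l V := ⟨_, rfl⟩
        obtain ⟨E₂, hE₂⟩ : ∃ x, x = en c (g₀ k) (w k) (gpt F (G k) (ptr F J ω)) l V :=
          ⟨_, rfl⟩
        have hE₂0 : 0 ≤ E₂ := by rw [hE₂]; exact en_nonneg _ _ _ _ _ _
        rw [← hE₁, ← hE₂] at h7
        rw [← hE₁, ← hE₂]
        have e2 : 2 ^ Z / 2 ^ g₀ k l * E₁ + 1 / 2 ^ g₀ k l * E₁ =
            (2 ^ Z + 1) / 2 ^ g₀ k l * E₁ := by ring
        rw [e2]
        have e3 : (2 : ℝ) ^ Z + 1 ≤ 2 ^ (Z + 1) := by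
          have : (1 : ℝ) ≤ 2 ^ Z := one_le_pow₀ (by norm_num)
          rw [pow_succ]
          linarith
        calc (2 ^ Z + 1) / 2 ^ g₀ k l * E₁ ≤ 2 ^ (Z + 1) / 2 ^ g₀ k l * (2 ^ (r + 1) * E₂) :=
              mul_le_mul (div_le_div_of_nonneg_right e3 (by positivity)) h7
                (by rw [hE₁]; exact en_nonneg _ _ _ _ _ _) (by positivity)
          _ = 2 ^ (Z + 1 + (r + 1)) / 2 ^ g₀ k l * E₂ := by
              rw [pow_add 2 (Z + 1) (r + 1)]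
              ring
          _ ≤ _ := mul_le_mul_of_nonneg_right (div_le_div_of_nonneg_right (p2 (by omega))
              (by positivity)) hE₂0
      der := fun ω hω l hl V h0 => by
        have h4 := s3 ω hω l hl V h0
        have h7 := hge ω (s1 ω hω) l (by omega) V
        rw [nrm_en, hngG] at h4
        refine h4.trans ?_
        obtain ⟨E₁, hE₁⟩ : ∃ x, x = en c (g₀ k) (w k) (gG G ω k) l V := ⟨_, rfl⟩
        obtain ⟨E₂, hE₂⟩ : ∃ x, x = en c (g₀ k) (w k) (gpt F (G k) (ptr F J ω)) l V :=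
          ⟨_, rfl⟩
        have hE₂0 : 0 ≤ E₂ := by rw [hE₂]; exact en_nonneg _ _ _ _ _ _
        rw [← hE₁, ← hE₂] at h7
        rw [← hE₁, ← hE₂]
        calc 2 ^ (w k - t) * (2 ^ (Cs * (K + 1)) / 2 ^ g₀ k l * E₁) ≤
              2 ^ (w k - t) * (2 ^ (Cs * (K + 1)) / 2 ^ g₀ k l * (2 ^ (r + 1) * E₂)) :=
              mul_le_mul_of_nonneg_left (mul_le_mul_of_nonneg_left h7 (by positivity))
                (by positivity)
          _ = 2 ^ (Cs * (K + 1) + (r + 1)) * 2 ^ (w k - t) / 2 ^ g₀ k l * E₂ := by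
              rw [pow_add 2 (Cs * (K + 1)) (r + 1)]
              ring
          _ ≤ _ := mul_le_mul_of_nonneg_right (div_le_div_of_nonneg_right
              (mul_le_mul_of_nonneg_right (p2 (by omega)) (by positivity)) (by positivity))
              hE₂0 }
  have hm4 := hmono hC4C
  have hJt : C₄ * (θ + 1) ≤ ((J : ℝ) - t) * Real.log 2 := by
    refine hm4.1.trans (mul_le_mul_of_nonneg_right ?_ (Real.log_pos (by norm_num)).le)
    have : (t : ℝ) ≤ w k := by exact_mod_cast htk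
    linarith
  obtain ⟨B', t1, t2, t3⟩ := hafo hpos hc htk hwJ hθ (hTm B₁ hpos s1 (s2.trans
    (mul_le_mul_of_nonneg_right (p2 (by omega)) hpos.le))) hJt (hm4.2.trans (p2 hKU)) hA
  refine ⟨B', fun ω hω => s1 ω (t1 ω hω), ?_, afd_mono t3 (p2 ?_)⟩
  · rw [pow_succ]
    have : (0 : ℝ) < 2 ^ (r + 1) := by positivity
    nlinarith
  · have e1 : C * (K + 1) = C₄ * (Q * (K + 1)) + C₄ * (K + 1) + Q * (K + 1) := by
      rw [hC]
      ring
    have e2 : C₄ * (U + 1) = C₄ * U + C₄ := by ring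
    have e3 : C₄ ≤ C₄ * (K + 1) := Nat.le_mul_of_pos_right _ (Nat.succ_pos K)
    rw [e1, e2, hU]
    omega

/-- The numbers of `twr_end`: `K` the radius of the ball, `t` the window of the line. -/
structure NumE (r J t K at' wt' eb' bt' e Q : ℕ) (g : ℕ → ℕ) : Prop where
  K1 : K ≤ at'
  t1 : t ≤ wt'
  n1 : e + Q ≤ eb'
  n2 : ∀ l ≤ r, e + g l + Q ≤ J
  n4 : ∀ l ≤ r, Q ≤ g l
  n6 : bt' + K + Q ≤ g r + at'

/-- **A tower of closed gradients above the threshold** is on a small event. -/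
theorem twr_end (m D D₁ r : ℕ) (hD : 1 ≤ D) : ∃ C : ℕ, 1 ≤ C ∧
    ∀ {θ : ℝ} {S : PCl m} {P : List (Fin m) × Fin m → ℝ → ℝ → ℝ} (_ : ThrOf (chsys m θ) S P)
    (_ : TmH S) (c : ℕ → Fin m) (_ : Set.InjOn c (Set.Iio (r + 1))) (a w' : ℚ)
    (b eb h' ε κ₀ : ℝ) (_ : 0 ≤ w') (_ : w' ≤ a) (_ : a ≤ 1) (_ : b < 1) (_ : eb < θ * w')
    (_ : 0 < h') (_ : bet P c r a w' + h' ≤ 1) (_ : 0 < ε) (_ : 0 < κ₀),
    Bas S (fun J F A₀ => ∀ {Dr N M A cl : ℕ} {Sc : ℕ → Prop} {w e h pp : ℕ → ℕ}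
      {z g gc gT g₀ : ℕ → ℕ → ℕ} {κ : ℝ} {B : F.Ω → Prop}
      {G : ℕ → PtT F → ℕ → MvPolynomial (Option (Fin m)) ℝ}
      {H : ℕ → LnT F → ℕ → MvPolynomial (Option (Fin m)) ℝ}
      {T : ℕ → PtT F → ℕ → MvPolynomial (Option (Fin m)) ℝ}
      {TH : ℕ → LnT F → ℕ → MvPolynomial (Option (Fin m)) ℝ}
      {Gt : ℕ → PtT F → MvPolynomial (Option (Fin m)) ℝ}
      {Ht : ℕ → LnT F → MvPolynomial (Option (Fin m)) ℝ},
      CEv F c r D Dr N M A cl Sc w e h pp z g gc gT g₀ κ B G H T TH Gt Ht → Sub B A₀ →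
      ε * J ≤ cl → C ≤ cl →
      ∀ {k t Z : ℕ} {lam : LnT F → ℕ → ℕ → Polynomial ℝ}, k ≤ N → cl ≤ pp k → cl ≤ gc k r →
      t ≤ w k → (∀ s l j, (lam s l j).natDegree ≤ D₁) →
      (∀ ω, B ω → ∀ l ≤ r, ∀ V : Option (Fin m) → ℝ, V none = 0 →
        |∑ j ∈ range l, (lam (slam F t ω) l j).eval (rt F t ω) * V (some (c j)) -
          cv (gG G ω k l) V| ≤ 2 ^ Z / 2 ^ g₀ k l * en c (g₀ k) (w k) (gG G ω k) l V) →
      (w k : ℝ) ≤ b * J →
      NumE r J t (w k) ⌊(a : ℝ) * J⌋₊ ⌊(w' : ℝ) * J⌋₊ ⌊eb * J⌋₊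
        ⌊(bet P c r a w' + h') * J⌋₊ (e k) (C * (cl + Z + 1)) (g₀ k) →
      Pe F.p B < κ₀ * Pe F.p A₀) := by
  classical
  obtain ⟨C₁, hC₁, hafd⟩ := cev_afd m D D₁ r hD
  obtain ⟨V, hV⟩ : ∃ V, V = C₁ * C₁ + C₁ := ⟨_, rfl⟩
  obtain ⟨C, hC⟩ : ∃ C, C = (r + 1) * (2 * V + r + 3) + V + r + 1 := ⟨_, rfl⟩
  have hC₁V : C₁ ≤ V := by rw [hV]; exact Nat.le_add_left _ _
  have hVC : V ≤ C := by
    rw [hC]
    nlinarith [Nat.zero_le ((r + 1) * (2 * V + r + 3))]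
  refine ⟨C, by omega, ?_⟩
  intro θ S P hP hT c hc a w' b eb h' ε κ₀ hw0 hwa ha hb he hh h2 hε hκ
  have hL2 : 0 < Real.log 2 := Real.log_pos (by norm_num)
  obtain ⟨δ, hδ, b3⟩ := aff_no hP c r D₁ hc a w' eb h' hw0 hwa ha he hh h2
  obtain ⟨κ₁, hκ₁⟩ : ∃ κ₁ : ℝ, κ₁ = κ₀ / 2 ^ (r + 2) := ⟨_, rfl⟩
  have hκ₁0 : 0 < κ₁ := by rw [hκ₁]; positivity
  obtain ⟨μ, hμ⟩ : ∃ μ : ℝ, μ = min ε (1 - b) * Real.log 2 / 2 := ⟨_, rfl⟩
  have hμ0 : 0 < μ := by
    rw [hμ]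
    have : 0 < min ε (1 - b) := lt_min hε (by linarith)
    positivity
  have hCM0 : (0 : ℝ) < C₁ := by
    have : (1 : ℝ) ≤ C₁ := by exact_mod_cast hC₁
    linarith
  obtain ⟨ε₁, hε₁⟩ : ∃ ε₁ : ℝ, ε₁ = μ / C₁ := ⟨_, rfl⟩
  have hε₁0 : 0 < ε₁ := by rw [hε₁]; positivity
  have htm := bas_ev (hT.2 ε₁ hε₁0) hκ₁0
  have hpos : Bas S (fun _ F A => 0 < Pe F.p A) := ⟨1, one_pos, 0, fun J _ F A hA =>
    hT.1 1 J F A hA⟩
  obtain ⟨J₁, hJ₁⟩ := exists_nat_ge (C₁ / μ)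
  obtain ⟨J₂, hJ₂⟩ := exists_nat_ge (-Real.log (κ₁ / 2) / δ)
  refine Bas.mono (max J₁ J₂) ((b3.and htm).and hpos) ?_
  rintro J hJ F A₀ ⟨⟨haA, htA⟩, hA0⟩
  intro Dr N M A cl Sc w e h pp z g gc gT g₀ κ B G H T TH Gt Ht E hBA hεc hCc k t Z lam hk hpk hgk
    htk hlam hspa hkb ne
  by_contra hcon
  rw [not_lt] at hcon
  have hB0 : 0 < Pe F.p B := (mul_pos hκ hA0).trans_le hcon
  have hJ0 : (0 : ℝ) ≤ J := Nat.cast_nonneg J
  have hkJ : w k ≤ J := (E.wA k hk).trans E.AJ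
  obtain ⟨K, hK⟩ : ∃ K, K = C₁ * (cl + Z + 1) := ⟨_, rfl⟩
  have hclK : cl ≤ K := by
    rw [hK]
    calc cl ≤ 1 * (cl + Z + 1) := by omega
      _ ≤ _ := Nat.mul_le_mul_right _ hC₁
  have hJ1 : (C₁ : ℝ) ≤ μ * J := by
    have h2 : (J₁ : ℝ) ≤ J := by exact_mod_cast (le_max_left _ _).trans hJ
    have h3 := hJ₁.trans h2
    rw [div_le_iff₀ hμ0] at h3
    linarith
  have hJ2 : Real.exp (-(δ * J)) ≤ κ₁ / 2 := by
    have h2 : (J₂ : ℝ) ≤ J := by exact_mod_cast (le_max_right _ _).trans hJ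
    have h3 := hJ₂.trans h2
    rw [div_le_iff₀ hδ] at h3
    have h4 : -(δ * (J : ℝ)) ≤ Real.log (κ₁ / 2) := by linarith
    exact (Real.exp_le_exp.2 h4).trans (Real.exp_log (by positivity)).le
  have hmain : (C₁ : ℝ) * (ε₁ * J + 1) ≤ min ε (1 - b) * Real.log 2 * J := by
    have e1 : (C₁ : ℝ) * (ε₁ * J) = μ * J := by rw [hε₁]; field_simp
    have e2 : 2 * (μ * J) = min ε (1 - b) * Real.log 2 * J := by rw [hμ]; ring
    rw [mul_add, mul_one, e1]
    linarith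
  have hm1 : (C₁ : ℝ) * (ε₁ * J + 1) ≤ K * Real.log 2 := by
    refine hmain.trans ?_
    have e1 : min ε (1 - b) * Real.log 2 * J ≤ ε * Real.log 2 * J :=
      mul_le_mul_of_nonneg_right (mul_le_mul_of_nonneg_right (min_le_left _ _) hL2.le) hJ0
    have e2 := mul_le_mul_of_nonneg_right hεc hL2.le
    have e3 : (cl : ℝ) * Real.log 2 ≤ K * Real.log 2 :=
      mul_le_mul_of_nonneg_right (by exact_mod_cast hclK) hL2.le
    linarith
  have hm2 : (C₁ : ℝ) * (ε₁ * J + 1) ≤ ((J : ℝ) - w k) * Real.log 2 := by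
    refine hmain.trans ?_
    have e1 : min ε (1 - b) * Real.log 2 * J ≤ (1 - b) * Real.log 2 * J :=
      mul_le_mul_of_nonneg_right (mul_le_mul_of_nonneg_right (min_le_right _ _) hL2.le) hJ0
    have e3 := mul_le_mul_of_nonneg_right hkb hL2.le
    linarith
  have hexp : Real.exp (C₁ * (ε₁ * J + 1)) ≤ 2 ^ K := by
    have e2 : Real.exp (C₁ * (ε₁ * J + 1)) ≤ Real.exp (K * Real.log 2) :=
      Real.exp_le_exp.2 hm1
    rwa [mul_comm (K : ℝ), ← Real.rpow_def_of_pos (by norm_num), Real.rpow_natCast] at e2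
  have hκB : ∀ {B' : F.Ω → Prop}, Pe F.p B ≤ 2 ^ (r + 2) * Pe F.p B' →
      κ₁ * Pe F.p A₀ ≤ Pe F.p B' := fun {B'} h3 => by
    rw [hκ₁, div_mul_eq_mul_div, div_le_iff₀ (by positivity)]
    linarith
  obtain ⟨B', c1, c2, hAf⟩ := hafd (lam := lam) (k := k) (t := t) (Z := Z) (K := K) (θ := ε₁ * J)
    hB0 E (by omega) hk hpk hgk htk (le_of_eq hK.symm) (by positivity) (fun B' hB' s1 s2 =>
    htA B' (fun ω hω => hBA ω (s1 ω hω)) (hκB s2) hB') hm2 hexp hlam hspa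
  -- the numbers
  obtain ⟨u, hu⟩ : ∃ u, u = C₁ * (K + 1) := ⟨_, rfl⟩
  obtain ⟨x, hx⟩ : ∃ x, x = 2 * u + r + 3 := ⟨_, rfl⟩
  obtain ⟨q, hq⟩ : ∃ q, q = cl + Z + 1 := ⟨_, rfl⟩
  have hCx : (r + 1) * x + u + r + 1 ≤ C * q := by
    have e0 : u ≤ V * q := by
      rw [hu, hK, ← hq, hV]
      have e1 : C₁ ≤ C₁ * q := Nat.le_mul_of_pos_right _ (by omega)
      have e2 : C₁ * (C₁ * q + 1) = C₁ * C₁ * q + C₁ := by ring
      have e3 : (C₁ * C₁ + C₁) * q = C₁ * C₁ * q + C₁ * q := by ring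
      rw [e2, e3]
      omega
    have e1 : x ≤ (2 * V + r + 3) * q := by
      rw [hx]
      have e2 : (2 * V + r + 3) * q = 2 * (V * q) + r * q + 3 * q := by ring
      have e3 : r ≤ r * q := Nat.le_mul_of_pos_right _ (by omega)
      rw [e2]
      omega
    have e2 := Nat.mul_le_mul_left (r + 1) e1
    have e3 : C * q = (r + 1) * ((2 * V + r + 3) * q) + V * q + (r + 1) * q := by
      rw [hC]
      ring
    have e4 : r + 1 ≤ (r + 1) * q := Nat.le_mul_of_pos_right _ (by omega)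
    rw [e3]
    omega
  rw [← hu] at hAf
  have hlx : ∀ l < r + 1, (l + 1) * x ≤ (r + 1) * x := fun l hl =>
    Nat.mul_le_mul_right _ (by omega)
  have hrx : r + 1 ≤ (r + 1) * x := Nat.le_mul_of_pos_right _ (by omega)
  have ne1 := ne.n1
  have ne6 := ne.n6
  rw [← hq] at ne1 ne6
  have hfin := haA (w k) t (e k + (r + 1)) x (g₀ k) (2 ^ u) _ _ B' htk
    ne.K1 ne.t1 (by omega) (fun l hl => by
      have h3 := ne.n2 l (by omega)
      rw [← hq] at h3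
      omega) (by positivity) (num_end hx) (fun l hl => by
      have h6 := hlx l hl
      have h3 := ne.n4 l (by omega)
      rw [← hq] at h3
      omega) (by omega) (fun ω hω => hBA ω (c1 ω hω)) hAf
  have h9 := hκB c2
  have h10 : Real.exp (-(δ * J)) * Pe F.p A₀ ≤ κ₁ / 2 * Pe F.p A₀ :=
    mul_le_mul_of_nonneg_right hJ2 hA0.le
  have h11 : 0 < κ₁ * Pe F.p A₀ := mul_pos hκ₁0 hA0
  linarith

end Pool.TN
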