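import Pool.Agent.H88.D2.Nov
import Pool.Agent.H88.D2.Twr
import Pool.Agent.H23.D2.Thp

/-!
# The end of the cell with two static coordinates

`ss_end`: over one rough coordinate and two static ones, if the component of the ball chart of the
target in the direction of the higher static place is closed and natural, the event is small.
-/

set_option autoImplicit false

namespace Pool.TN

open Finset Real MvPolynomial
open Pool.Agent.H49.Ent Pool.Agent.H32.Dense Pool.STK Pool.KA Pool.KSAT Pool.K2S Pool.PB Pool.S6C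
open Pool.GEN Pool.CHT Pool.CHX Pool.ISO Pool.D2R Pool.D2Z Pool.D2F
open Pool.LBT (ThrOf)
open Pool.FLF (Fam.sub)
open Pool.PB.Trl (rt rt_mem t_rt)

variable {m : ℕ}

/-- The gradients of the tower over two static places. -/
noncomputable def lamSS {J : ℕ} {F : Fam m J} (c : ℕ → Fin m) (t q q₁ : ℕ)
    (TH Φ : LnT F → ℕ → MvPolynomial (Option (Fin m)) ℝ) (mu : LnT F → Polynomial ℝ)
    (s : LnT F) (l j : ℕ) : Polynomial ℝ :=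
  if l = 1 then kpol c t (ltr TH q 1) s j
  else if l = 2 then lamU c t q TH s j
  else if l = 3 then lamN c t q q₁ TH Φ mu s j
  else 0

theorem lamSS_deg {J : ℕ} {F : Fam m J} {c : ℕ → Fin m} {t q q₁ D D₁ : ℕ}
    {TH Φ : LnT F → ℕ → MvPolynomial (Option (Fin m)) ℝ} {mu : LnT F → Polynomial ℝ}
    (h : ∀ s l, (TH s l).totalDegree ≤ D) (hΦ : ∀ s l, (Φ s l).totalDegree ≤ D)
    (hm : ∀ s, (mu s).natDegree ≤ D₁) (s : LnT F) (l j : ℕ) :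
    (lamSS c t q q₁ TH Φ mu s l j).natDegree ≤ 5 * D + D₁ := by
  unfold lamSS
  split_ifs
  · exact (kpol_deg (F := F) c t (fun s => h (co q s) 1) s j).trans (by omega)
  · exact (lamU_deg h s j).trans (by omega)
  · exact lamN_deg h hΦ hm s j
  · rw [Polynomial.natDegree_zero]
    exact Nat.zero_le _

/-- **The numbers of the cell with two static places**: `i₀` the anchor of the static labels, `i₁` the
window of the row label, `i₂` the window of the line, `i₃` the ball; `Q` the loss; `y`, `y₂` the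
excess of the static sides at `i₃`. -/
structure NumSS (J N A cl X Q y y₂ : ℕ) (w e pp : ℕ → ℕ) (gc gT g₀ : ℕ → ℕ → ℕ)
    (i₀ i₁ i₂ i₃ a₁ e₁ b0 b1 : ℕ) : Prop where
  h0 : i₀ ≤ N
  h1 : i₁ ≤ N
  h2 : i₂ ≤ N
  h3 : i₃ ≤ N
  w0 : w i₀ ≤ w i₂
  w1 : w i₁ ≤ w i₂
  w2 : w i₂ ≤ w i₃
  p0 : ∀ l < 3, cl ≤ gT i₀ l ∧ cl ≤ gc i₀ l
  p3 : ∀ l < 3, cl ≤ gT i₃ l ∧ cl ≤ gc i₃ l
  q0 : cl ≤ pp i₀ ∧ cl ≤ gc i₀ 3
  q1 : cl ≤ pp i₁
  q3 : cl ≤ pp i₃ ∧ cl ≤ gc i₃ 3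
  s0 : g₀ i₀ 1 + (A - w i₀) ≤ gT i₀ 1 + X
  s3 : ∀ l, l = 1 ∨ l = 2 → gT i₃ l ≤ gT i₀ l + X ∧ g₀ i₃ l + (A - w i₃) ≤ gT i₃ l + X ∧
    g₀ i₃ l + (A - w i₃) ≤ gT i₀ l + X
  ex : gT i₃ 1 ≤ g₀ i₃ 1 + (A - w i₃) + y
  ex2 : gT i₃ 2 ≤ g₀ i₃ 2 + (A - w i₃) + y₂
  rw : g₀ i₃ 3 + (A - w i₃) ≤ pp i₁ + X
  K1 : w i₃ ≤ a₁
  l0 : (A - w i₃) + g₀ i₃ 1 + Q ≤ gT i₀ 1
  l3 : (A - w i₃) + g₀ i₃ 1 + Q ≤ gT i₃ 1
  g0 : Q ≤ g₀ i₃ 0
  rm : ∀ l ≤ 1, e i₃ + g₀ i₃ l + Q ≤ J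
  ef : e i₃ + Q ≤ e₁
  f0 : b0 + w i₃ ≤ g₀ i₃ 0 + X + a₁
  f1 : b1 + w i₃ ≤ g₀ i₃ 1 + X + a₁
  va : w i₀ + g₀ i₀ 0 + g₀ i₃ 1 + (y + y₂) + Q ≤ w i₃ + g₀ i₃ 0 + g₀ i₀ 1 + (w i₂ - w i₀)

/-- **The end of the cell with two static coordinates.** -/
theorem ss_end (m D D₁ : ℕ) (hD : 1 ≤ D) : ∃ C : ℕ, 1 ≤ C ∧
    ∀ {θ : ℝ} {S : PCl m} {P : List (Fin m) × Fin m → ℝ → ℝ → ℝ} (_ : ThrOf (chsys m θ) S P)
    (_ : TmH S) (c : ℕ → Fin m) (_ : Set.InjOn c (Set.Iio (3 + 1))) (a₁ : ℚ) (e₁ h₁ : ℝ)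
    (_ : 0 ≤ a₁) (_ : a₁ < 1) (_ : e₁ < θ * a₁) (_ : 0 < h₁) (_ : bet P c 0 a₁ a₁ + h₁ ≤ 1)
    (_ : bet P c 1 a₁ a₁ + h₁ ≤ 1) (a w' : ℚ)
    (b eb h' ε κ₀ : ℝ) (_ : 0 ≤ w') (_ : w' ≤ a) (_ : a ≤ 1) (_ : b < 1) (_ : eb < θ * w')
    (_ : 0 < h') (_ : bet P c 3 a w' + h' ≤ 1) (_ : 0 < ε) (_ : 0 < κ₀),
    Bas S (fun J F A₀ => ∀ {Dr N M A cl : ℕ} {Sc : ℕ → Prop} {w e h pp : ℕ → ℕ}
      {z g gc gT g₀ : ℕ → ℕ → ℕ} {κ : ℝ} {B : F.Ω → Prop}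
      {G : ℕ → PtT F → ℕ → MvPolynomial (Option (Fin m)) ℝ}
      {H : ℕ → LnT F → ℕ → MvPolynomial (Option (Fin m)) ℝ}
      {T : ℕ → PtT F → ℕ → MvPolynomial (Option (Fin m)) ℝ}
      {TH : ℕ → LnT F → ℕ → MvPolynomial (Option (Fin m)) ℝ}
      {Gt : ℕ → PtT F → MvPolynomial (Option (Fin m)) ℝ}
      {Ht : ℕ → LnT F → MvPolynomial (Option (Fin m)) ℝ},
      CEv F c 3 D Dr N M A cl Sc w e h pp z g gc gT g₀ κ B G H T TH Gt Ht → Sub B A₀ →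
      ε * J ≤ cl → C ≤ cl → ¬ Sc 0 → Sc 1 → Sc 2 →
      ∀ {i₀ i₁ i₂ i₃ X Y y y₂ : ℕ} {mu : LnT F → Polynomial ℝ},
      NumSS J N A cl X (C * (cl + X + 1)) y y₂ w e pp gc gT g₀ i₀ i₁ i₂ i₃ ⌊(a₁ : ℝ) * J⌋₊
        ⌊e₁ * J⌋₊ ⌊(bet P c 0 a₁ a₁ + h₁) * J⌋₊ ⌊(bet P c 1 a₁ a₁ + h₁) * J⌋₊ →
      (∀ s, (mu s).natDegree ≤ D₁) →
      (∀ ω, B ω → |(mu (slam F (w i₂) ω)).eval (rt F (w i₂) ω) - gG G ω i₃ 3 (some (c 2))| ≤
        2 ^ Y * 2 ^ g₀ i₃ 2 / 2 ^ g₀ i₃ 3) →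
      (w i₃ : ℝ) ≤ b * J →
      NumE 3 J (w i₂) (w i₃) ⌊(a : ℝ) * J⌋₊ ⌊(w' : ℝ) * J⌋₊ ⌊eb * J⌋₊
        ⌊(bet P c 3 a w' + h') * J⌋₊ (e i₃) (C * (cl + X + Y + 1)) (g₀ i₃) →
      Pe F.p B < κ₀ * Pe F.p A₀) := by
  classical
  obtain ⟨C₁, hC₁, hone⟩ := sta_one m D 3 hD (by norm_num)
  obtain ⟨C₂, hC₂, hzv⟩ := CEv.zvar m D 3 (by norm_num)
  obtain ⟨C₃, hC₃, huov⟩ := CEv.uov 3 le_rfl
  obtain ⟨C₄, hC₄, hnov⟩ := CEv.nov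
  obtain ⟨C₅, hC₅, htw⟩ := twr_end m D (5 * D + D₁) 3 hD
  obtain ⟨C₆, hC₆⟩ : ∃ C₆, C₆ = (C₃ + C₄) * (C₁ + 1) + 8 := ⟨_, rfl⟩
  obtain ⟨C, hC⟩ : ∃ C, C = 2 * C₁ + 2 * C₂ + C₅ * (C₆ + 1) + 2 := ⟨_, rfl⟩
  have hC5C : C₅ ≤ C := by
    rw [hC]
    nlinarith [Nat.zero_le (C₅ * C₆)]
  refine ⟨C, by omega, ?_⟩
  intro θ S P hP hT c hc a₁ e₁ h₁ ha0 ha1 he1 hh1 hb0 hb1 a w' b eb h' ε κ₀ hw0 hwa ha hb he hh h2
    hε hκ
  have hL2 : 0 < Real.log 2 := Real.log_pos (by norm_num)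
  have haR : (a₁ : ℝ) < 1 := by exact_mod_cast ha1
  have ha0R : (0 : ℝ) ≤ a₁ := by exact_mod_cast ha0
  obtain ⟨μ, hμ⟩ : ∃ μ : ℝ, μ = min ε (1 - a₁) * Real.log 2 / 2 := ⟨_, rfl⟩
  have hμ0 : 0 < μ := by
    rw [hμ]
    have : 0 < min ε (1 - (a₁ : ℝ)) := lt_min hε (by linarith)
    positivity
  have hC2R : (1 : ℝ) ≤ C₂ := by exact_mod_cast hC₂
  have hC20 : (0 : ℝ) < C₂ := by linarith
  obtain ⟨ε₁, hε₁⟩ : ∃ ε₁ : ℝ, ε₁ = μ / C₂ := ⟨_, rfl⟩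
  have hε₁0 : 0 < ε₁ := by rw [hε₁]; positivity
  have htm := bas_ev (hT.2 ε₁ hε₁0) hκ
  have hpos : Bas S (fun _ F A => 0 < Pe F.p A) := ⟨1, one_pos, 0, fun J _ F A hA =>
    hT.1 1 J F A hA⟩
  obtain ⟨J₁, hJ₁⟩ := exists_nat_ge ((C₂ : ℝ) / μ)
  refine Bas.mono J₁ ((((hone hP hT c hc a₁ e₁ h₁ ε (κ₀ / 4) ha0 ha1 he1 hh1 hb0 hb1 hε
    (by positivity)).and htm).and hpos).and
    (htw hP hT c hc a w' b eb h' ε (κ₀ / 4) hw0 hwa ha hb he hh h2 hε (by positivity))) ?_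
  rintro J hJ F A₀ ⟨⟨⟨hoA, htA⟩, hA0⟩, htwA⟩
  intro Dr N M A cl Sc w e h pp z g gc gT g₀ κ B G H T TH Gt Ht E hBA hεc hCc hs0 hs1 hs2 i₀ i₁ i₂
    i₃ X Y y y₂ mu n hmd hmu hbJ ne
  by_contra hcon
  rw [not_lt] at hcon
  have hpn := Pe_nonneg F.isLaw
  have hB0 : 0 < Pe F.p B := (mul_pos hκ hA0).trans_le hcon
  have hJ0 : (0 : ℝ) ≤ J := Nat.cast_nonneg J
  have hik : w i₀ ≤ w i₃ := n.w0.trans n.w2
  have n0 := n.h0
  have n2 := n.h2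
  have n3 := n.h3
  have hC0 : C * (cl + X + 1) = 2 * (C₁ * (cl + X + 1)) + 2 * (C₂ * (cl + X + 1)) +
      C₅ * (C₆ + 1) * (cl + X + 1) + 2 * (cl + X + 1) := by rw [hC]; ring
  obtain ⟨Q0, hQ0⟩ : ∃ Q, Q = C * (cl + X + 1) := ⟨_, rfl⟩
  rw [← hQ0] at n hC0
  obtain ⟨t₀, ht₀⟩ : ∃ t, t = C₁ * (cl + X + 1) := ⟨_, rfl⟩
  -- the times
  have hJ1 : (C₂ : ℝ) ≤ μ * J := by
    have h2 : (J₁ : ℝ) ≤ J := by exact_mod_cast hJ
    have h3 := hJ₁.trans h2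
    rw [div_le_iff₀ hμ0] at h3
    linarith
  have hθ0 : 0 ≤ ε₁ * J := by positivity
  have hmain : C₂ * (ε₁ * J + 1) ≤ min ε (1 - (a₁ : ℝ)) * Real.log 2 * J := by
    have e1 : C₂ * (ε₁ * J) = μ * J := by rw [hε₁]; field_simp
    have e2 : 2 * (μ * J) = min ε (1 - (a₁ : ℝ)) * Real.log 2 * J := by rw [hμ]; ring
    rw [mul_add, mul_one, e1]
    linarith
  have hm1 : C₂ * (ε₁ * J + 1) ≤ cl * Real.log 2 := by
    refine hmain.trans ?_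
    have e1 : min ε (1 - (a₁ : ℝ)) * Real.log 2 * J ≤ ε * Real.log 2 * J :=
      mul_le_mul_of_nonneg_right (mul_le_mul_of_nonneg_right (min_le_left _ _) hL2.le) hJ0
    have e2 := mul_le_mul_of_nonneg_right hεc hL2.le
    linarith
  have hm2 : C₂ * (ε₁ * J + 1) ≤ ((J : ℝ) - w i₀) * Real.log 2 := by
    refine hmain.trans ?_
    have e1 : min ε (1 - (a₁ : ℝ)) * Real.log 2 * J ≤ (1 - a₁) * Real.log 2 * J :=
      mul_le_mul_of_nonneg_right (mul_le_mul_of_nonneg_right (min_le_right _ _) hL2.le) hJ0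
    have e2 : (w i₀ : ℝ) ≤ a₁ * J := by
      have h2 : (w i₀ : ℝ) ≤ ⌊(a₁ : ℝ) * J⌋₊ := by exact_mod_cast hik.trans n.K1
      exact h2.trans (Nat.floor_le (mul_nonneg ha0R hJ0))
    have e3 := mul_le_mul_of_nonneg_right e2 hL2.le
    linarith
  have hexp : Real.exp (C₂ * (ε₁ * J + 1)) ≤ 2 ^ cl := by
    have e2 : Real.exp (C₂ * (ε₁ * J + 1)) ≤ Real.exp (cl * Real.log 2) :=
      Real.exp_le_exp.2 hm1
    rw [mul_comm (cl : ℝ), ← Real.rpow_def_of_pos (by norm_num), Real.rpow_natCast] at e2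
    exact e2
  have hZ0 : ZNum 3 N A cl X w pp gc gT g₀ 1 i₀ i₀ :=
    ⟨n.h0, le_rfl, n.p0, n.q0.1, n.q0.2, n.s0⟩
  have hZ3 : ZNum 3 N A cl X w pp gc gT g₀ 1 i₀ i₃ :=
    ⟨n.h3, hik, n.p3, n.q3.1, n.q3.2, (n.s3 1 (Or.inl rfl)).2.2⟩
  -- the variation
  obtain ⟨B₁, b1, b2, b3⟩ := hzv E hB0 (X := X) (n := cl) n.h0 n.h2 n.w0 hs0
    (n.p0 1 (by norm_num)).1 hZ0 hθ0 (htA B hBA hcon hB0) hm2 hexp
  -- the lower bound
  obtain ⟨V₀, hV₀⟩ : ∃ V₀ : F.Ω → Option (Fin m) → ℝ, V₀ = fun ω => ev c 1 (gG G ω i₃) 0 :=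
    ⟨_, rfl⟩
  have hc1 : Set.InjOn c (Set.Iio 1) := hc.mono (Set.Iio_subset_Iio (by norm_num))
  have hΓ : ∀ ω l, CvC c l (gG G ω i₃ l) := fun ω l =>
    cvc_grd ((E.evs i₃ n.h3).ball.depG _ l) _
  have v0 : ∀ ω, V₀ ω none = 0 := fun ω => by rw [hV₀]; exact ev_none _ _ _ _
  have v1 : ∀ ω, V₀ ω (some (c 0)) = 1 := fun ω => by
    rw [hV₀]
    exact ev_eq hc1 (hΓ ω) (by norm_num)
  have hbad := (hoA E hBA hεc (by omega) n.h0 n.h3 hik n.K1 hs0 n.p3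
    n.q3.1 n.q3.2 (n.p0 1 (by norm_num)).1 (t := t₀) (X := X)
    (by have := n.l0; omega) (by have := n.l3; omega) (by omega) (by have := n.g0; omega)
    (fun l hl => by
      have := n.rm l hl
      omega) (by have := n.ef; omega) (by have := n.f0; omega) (by have := n.f1; omega)).1 V₀
      (fun ω _ => ⟨v0 ω, v1 ω⟩)
  obtain ⟨bad, hbd⟩ : ∃ bad : F.Ω → Prop, bad = fun ω => B ω ∧
      |hs (TH i₀ (slam F (w i₀) ω) 1) (bt F ω) (bd F ω) (V₀ ω)| ≤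
        2 ^ (w i₃ + g₀ i₃ 0) / 2 ^ (g₀ i₃ 1 + t₀) := ⟨_, rfl⟩
  rw [← hbd] at hbad
  obtain ⟨B₂, hB₂⟩ : ∃ B₂ : F.Ω → Prop, B₂ = fun ω => B₁ ω ∧ ¬ bad ω := ⟨_, rfl⟩
  have s1 : Sub B₂ B₁ := fun ω hω => by
    rw [hB₂] at hω
    exact hω.1
  have s2 : Sub B₂ B := fun ω hω => b1 ω (s1 ω hω)
  have hP2 : Pe F.p B / 4 ≤ Pe F.p B₂ := by
    have h3 := Pe_or F.isLaw (A := B₁) (B₀ := bad) (B₁ := B₂)
      (fun ω hω => by
        rw [hB₂]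
        by_cases h4 : bad ω
        · exact Or.inl h4
        · exact Or.inr ⟨hω, h4⟩)
    linarith
  have hlow : ∀ ω, B₂ ω → ∀ V : Option (Fin m) → ℝ, V none = 0 → V (some (c 0)) = 1 →
      2 ^ (w i₃ + g₀ i₃ 0) / 2 ^ (g₀ i₃ 1 + t₀) ≤
        |hs (TH i₀ (slam F (w i₀) ω) 1) (bt F ω) (bd F ω) V| := fun ω hω V hV hV1 => by
    rw [hB₂] at hω
    have h3 : ¬ |hs (TH i₀ (slam F (w i₀) ω) 1) (bt F ω) (bd F ω) (V₀ ω)| ≤
        2 ^ (w i₃ + g₀ i₃ 0) / 2 ^ (g₀ i₃ 1 + t₀) := fun h => hω.2 (by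
      rw [hbd]
      exact ⟨b1 ω hω.1, h⟩)
    rw [hs_cg ((E.evs i₀ n.h0).thin.depH _ 1) (bt F ω) (bd F ω) (V' := V₀ ω)
      (by rw [v0, hV]) (fun j hj => by rw [Nat.lt_one_iff.1 hj, v1, hV1])]
    exact (not_le.1 h3).le
  have hvar : ∀ ω, B₂ ω → ∀ u ∈ Set.Icc (0 : ℝ) 1,
      |2 ^ w i₂ * (Polynomial.derivative (kpol c (w i₂) (ltr (TH i₀) (w i₂ - w i₀) 1)
          (slam F (w i₂) ω) 0)).eval u -
        2 ^ w i₂ * (Polynomial.derivative (kpol c (w i₂) (ltr (TH i₀) (w i₂ - w i₀) 1)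
          (slam F (w i₂) ω) 0)).eval 0| ≤
        2 ^ (w i₃ + g₀ i₃ 0) / 2 ^ (g₀ i₃ 1 + (t₀ + (y + y₂) + 1)) := fun ω hω u hu => by
    refine (b3 ω (s1 ω hω) u hu 0 (Set.left_mem_Icc.2 zero_le_one)).trans ?_
    rw [div_le_div_iff₀ (by positivity) (by positivity), ← pow_add, ← pow_add, ← pow_add]
    refine p2 ?_
    have e2 : C₂ * (cl + X + cl + 1) ≤ 2 * (C₂ * (cl + X + 1)) := by nlinarith
    have := n.va
    omega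
  have hE2 := E.sb (B' := B₂) (κ₁ := 1 / 4) (κ₂ := 4 * max κ 0) s2 (by linarith) (by positivity)
    (by
      have := le_max_left κ 0
      linarith)
  -- the numbers of the pointwise statements
  have hun : ∀ y', y ≤ y' → UNum 3 N A cl X y' t₀ w gc gT g₀ i₀ i₂ i₃ := fun y' hy =>
    { iN := n.h0
      tN := n.h2
      kN := n.h3
      it := n.w0
      tk := n.w2
      cT := fun l hl => ⟨(n.p0 l (by omega)).1, (n.p3 l (by omega)).1, (n.p3 l (by omega)).2⟩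
      m1 := (n.s3 1 (Or.inl rfl)).1
      lb1 := (n.s3 1 (Or.inl rfl)).2.1
      lb2 := (n.s3 2 (Or.inr rfl)).2.2
      ex := n.ex.trans (by omega) }
  have hnn : NNum N A cl X y y₂ t₀ w pp gc gT g₀ i₀ i₁ i₂ i₃ :=
    { un := hun y le_rfl
      i1N := n.h1
      i1t := n.w1
      c3 := n.q3.2
      m2 := (n.s3 2 (Or.inr rfl)).1
      lb2 := (n.s3 2 (Or.inr rfl)).2.1
      lb3 := n.rw
      cp := n.q1
      ex2 := n.ex2 }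
  obtain ⟨Z, hZ⟩ : ∃ Z, Z = C₆ * (cl + X + Y + 1) := ⟨_, rfl⟩
  obtain ⟨q, hq⟩ : ∃ q, q = cl + X + Y + 1 := ⟨_, rfl⟩
  have hZ1 : C₃ * (cl + X + t₀ + 1) ≤ Z ∧ C₄ * (cl + X + t₀ + Y + 1) ≤ Z ∧
      7 * cl + X + 1 ≤ Z := by
    have e1 : cl + X + t₀ + Y + 1 ≤ (C₁ + 1) * q := by
      have : C₁ * (cl + X + 1) ≤ C₁ * q := Nat.mul_le_mul_left _ (by omega)
      have e2 : (C₁ + 1) * q = C₁ * q + q := by ring
      omega
    have e2 : Z = C₃ * ((C₁ + 1) * q) + C₄ * ((C₁ + 1) * q) + 8 * q := by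
      rw [hZ, hC₆, ← hq]
      ring
    have e3 := Nat.mul_le_mul_left C₃ e1
    have e4 := Nat.mul_le_mul_left C₄ e1
    have e5 : C₃ * (cl + X + t₀ + 1) ≤ C₃ * (cl + X + t₀ + Y + 1) :=
      Nat.mul_le_mul_left _ (by omega)
    refine ⟨by omega, by omega, by omega⟩
  have hfin := htwA hE2 (fun ω hω => hBA ω (s2 ω hω)) hεc (by omega) (k := i₃) (t := w i₂)
    (Z := Z) (lam := lamSS c (w i₂) (w i₂ - w i₀) (w i₂ - w i₁) (TH i₀)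
      (fun s _ => Ht i₁ s) mu) n.h3 n.q3.1 n.q3.2 n.w2
    (fun s l j => lamSS_deg (fun s l => (E.evs i₀ n.h0).thin.degH s l)
      (fun s _ => (E.evs i₁ n.h1).dH s) hmd s l j)
    (fun ω hω l hl V hV => by
      have hωB := s2 ω hω
      have hen : ∀ l, 0 ≤ en c (g₀ i₃) (w i₃) (gG G ω i₃) l V := fun l => en_nonneg _ _ _ _ _ _
      have h4 : l = 0 ∨ l = 1 ∨ l = 2 ∨ l = 3 := by omega
      rcases h4 with rfl | rfl | rfl | rfl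
      · rw [Finset.sum_range_zero, zero_sub, abs_neg, cv_c0 (hΓ ω 0) hV, abs_zero]
        exact mul_nonneg (by positivity) (hen 0)
      · refine (E.row1 (by norm_num) n.h0 n.h2 n.h3 n.w0 n.w2 hs0 (n.p0 1 (by norm_num)).1
          (n.p3 1 (by norm_num)).2 (n.s3 1 (Or.inl rfl)).2.2 hωB hV).trans
          (mul_le_mul_of_nonneg_right (div_le_div_of_nonneg_right (p2 hZ1.2.2) (by positivity))
          (hen 1))
      · refine (huov E hs0 hs1 (hun (y + y₂) (by omega)) ω hωB (hlow ω hω) (hvar ω hω)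
          V hV).trans
          (mul_le_mul_of_nonneg_right (div_le_div_of_nonneg_right (p2 hZ1.1) (by positivity))
          (hen 2))
      · refine (hnov E hs0 hs1 hs2 hnn hZ3 ω hωB (hlow ω hω) (hvar ω hω) mu (hmu ω hωB)
          V hV).trans
          (mul_le_mul_of_nonneg_right (div_le_div_of_nonneg_right (p2 hZ1.2.1) (by positivity))
          (hen 3)))
    hbJ
    (by
      have hX : C₅ * (cl + Z + 1) ≤ C * (cl + X + Y + 1) := by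
        have e1 : cl + Z + 1 ≤ (C₆ + 1) * q := by
          rw [hZ, ← hq]
          have : (C₆ + 1) * q = C₆ * q + q := by ring
          omega
        have e2 : C₅ * ((C₆ + 1) * q) ≤ C * q := by
          rw [← Nat.mul_assoc]
          refine Nat.mul_le_mul_right _ ?_
          rw [hC]
          omega
        exact (Nat.mul_le_mul_left _ e1).trans (by rw [← hq]; exact e2)
      exact
        { K1 := ne.K1
          t1 := ne.t1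
          n1 := by have := ne.n1; omega
          n2 := fun l hl => by have := ne.n2 l hl; omega
          n4 := fun l hl => hX.trans (ne.n4 l hl)
          n6 := by have := ne.n6; omega })
  linarith

end Pool.TN
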