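import Pool.Agent.H66.D2.Apa
import Pool.Agent.H88.D2.Sse

/-!
# The numbers of the cell with two static places
-/

set_option autoImplicit false

namespace Pool.TN

open Finset Real MvPolynomial

/-- **The numbers of the cell** `[one, sta, sta]`: the windows `0` (static charts), `1` (row label and
line), `2` (ball). -/
theorem num_ss {N J A cl : ℕ} {Sc : ℕ → Prop} {w e pp : ℕ → ℕ} {g gc gT g₀ : ℕ → ℕ → ℕ}
    {U y τ Ee K A' : ℝ} {v Sl Λ : ℕ → ℝ}
    (h : ApN 3 N J A cl Sc w e pp g gc gT g₀ U y τ Ee K A' v Sl Λ) (hN : 2 ≤ N)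
    (hSc : ∀ l < 3, Sc l ↔ l = 1 ∨ l = 2) {s b : ℝ} (s0 : Sl 0 = 1) (s1 : Sl 1 = 2)
    (s2 : Sl 2 = s) (s3 : Sl 3 = b) (hs : 2 ≤ s) (v1 : v 1 = 0) (v2 : v 2 = 1)
    (F1 : b ≤ A') (F2 : 2 ≤ A') (F3 : v 0 ≤ -(s * (A' - 1) + 1)) (F4 : A' + 1 ≤ K)
    (F5 : -v 0 + 1 ≤ K) (hy : y ≤ 1 / 1000) {X Q Q' : ℕ} (hX1 : 20 * (y * U) ≤ X)
    (hQ : (Q : ℝ) ≤ U / 100) (hQ' : (Q' : ℝ) ≤ U / 100)
    {a₁ e₁ b0 b1 at' wt' eb' bt' : ℕ} (ha₁ : w 2 ≤ a₁) (he₁ : Ee + 3 * K * U - 1 ≤ e₁)
    (hb0 : (b0 : ℝ) ≤ Λ 0 + U + 5 * (y * U)) (hb1 : (b1 : ℝ) ≤ Λ 1 + 2 * U + 5 * (y * U))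
    (hat : w 2 ≤ at') (hwt : w 1 ≤ wt') (heb : Ee + 3 * K * U - 1 ≤ eb')
    (hbt : (bt' : ℝ) + Q' + 5 * (y * U) ≤ Λ 3 + b * U) :
    ∃ y₁ y₂ : ℕ, NumSS J N A cl X Q y₁ y₂ w e pp gc gT g₀ 0 1 1 2 a₁ e₁ b0 b1 ∧
      NumE 3 J (w 1) (w 2) at' wt' eb' bt' (e 2) Q' (g₀ 2) := by
  have hU := h.U0
  have hyU0 : 0 < y * U := mul_pos h.y0 hU
  have hyU := h.yU
  have hyUs : y * U ≤ U / 1000 := by
    have := mul_le_mul_of_nonneg_right hy hU.le
    linarith
  have c1 := h.cl1
  have hsl := h.sl
  have U1 := mul_le_mul_of_nonneg_right F1 hU.le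
  have U2 := mul_le_mul_of_nonneg_right F2 hU.le
  have U3 := mul_le_mul_of_nonneg_right F3 hU.le
  have U4 := mul_le_mul_of_nonneg_right F4 hU.le
  have U5 := mul_le_mul_of_nonneg_right F5 hU.le
  have sA : (A' - 1) * U ≤ s * (A' - 1) * U := by
    refine mul_le_mul_of_nonneg_right ?_ hU.le
    have := mul_le_mul_of_nonneg_right (show (1 : ℝ) ≤ s by linarith)
      (show (0 : ℝ) ≤ A' - 1 by linarith)
    linarith
  have sA2 : 2 * ((A' - 1) * U) ≤ s * (A' - 1) * U := by
    have := mul_le_mul_of_nonneg_right (mul_le_mul_of_nonneg_right hs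
      (show (0 : ℝ) ≤ A' - 1 by linarith)) hU.le
    linarith
  have sA' : 2 * (A' * U) ≤ s * A' * U := by
    have := mul_le_mul_of_nonneg_right (mul_le_mul_of_nonneg_right hs
      (show (0 : ℝ) ≤ A' by linarith)) hU.le
    linarith
  have sU : 2 * U ≤ s * U := mul_le_mul_of_nonneg_right hs hU.le
  have hv0 : v 0 * U ≤ 0 := by linarith
  -- the windows
  have W0 := h.w1 0 (by omega)
  have W1 := h.w1 1 (by omega)
  have W2 := h.w1 2 hN
  rw [v1] at W1
  rw [v2] at W2
  have A1 := h.A1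
  have A2 := h.A2
  have hv01 : v 0 ≤ v 1 := by
    rw [v1]
    nlinarith
  have m01 : w 0 ≤ w 1 := h.wm 0 (by omega) 1 (by omega) hv01
  have m12 : w 1 ≤ w 2 := h.wm 1 (by omega) 2 hN (by rw [v1, v2]; linarith)
  have hA : ∀ k ≤ N, ((A - w k : ℕ) : ℝ) = A - w k := fun k hk => by
    rw [Nat.cast_sub (h.wA k hk)]
  have h10 : ((w 1 - w 0 : ℕ) : ℝ) = w 1 - w 0 := by rw [Nat.cast_sub m01]
  -- rough and static
  have hr0 : ¬ Sc 0 := fun hsc => by
    have := (hSc 0 (by norm_num)).1 hsc
    omega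
  have hst1 : Sc 1 := (hSc 1 (by norm_num)).2 (Or.inl rfl)
  have hst2 : Sc 2 := (hSc 2 (by norm_num)).2 (Or.inr rfl)
  have gT0 : ∀ k ≤ N, gT k 0 = gc k 0 := fun k hk => h.gr k hk 0 (by norm_num) hr0
  have gT1 : ∀ k ≤ N, Λ 1 + 2 * A' * U - 4 * (y * U) ≤ gT k 1 ∧
      (gT k 1 : ℝ) ≤ Λ 1 + 2 * A' * U + 4 * (y * U) := fun k hk => by
    have := h.gs k hk 1 (by norm_num) hst1
    rw [s1] at this
    exact this
  have gT2 : ∀ k ≤ N, Λ 2 + s * A' * U - 4 * (y * U) ≤ gT k 2 ∧
      (gT k 2 : ℝ) ≤ Λ 2 + s * A' * U + 4 * (y * U) := fun k hk => by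
    have := h.gs k hk 2 (by norm_num) hst2
    rw [s2] at this
    exact this
  -- levels of the ball
  have G2 : ∀ l ≤ 3, Λ l + Sl l * U - 2 * (y * U) ≤ g₀ 2 l ∧
      (g₀ 2 l : ℝ) ≤ Λ l + Sl l * U + 2 * (y * U) := fun l hl => by
    have := h.ga 2 hN l hl
    rw [v2, mul_one] at this
    exact this
  have G20 := G2 0 (by norm_num)
  have G21 := G2 1 (by norm_num)
  have G22 := G2 2 (by norm_num)
  have G23 := G2 3 le_rfl
  rw [s0] at G20
  rw [s1] at G21
  rw [s2] at G22
  rw [s3] at G23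
  have G00 := h.ga 0 (by omega) 0 (by norm_num)
  have G01 := h.ga 0 (by omega) 1 (by norm_num)
  rw [s0] at G00
  rw [s1] at G01
  have C2 : ∀ l ≤ 3, Λ l + Sl l * U + (A' - 1) * U - 4 * (y * U) ≤ gc 2 l := fun l hl => by
    have := (h.gd 2 hN l hl).1
    rw [v2, mul_one] at this
    exact this
  -- positivity
  have lo0 : ∀ l ≤ 3, U - y * U ≤ Λ l + Sl l * v 0 * U := fun l hl => by
    have h1 := h.lo 0 (by omega) l hl
    linarith
  have lo1 : ∀ l ≤ 3, U - y * U ≤ Λ l := fun l hl => by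
    have h1 := lo0 l hl
    have h2 : Sl l * (v 0 * U) ≤ 0 := mul_nonpos_of_nonneg_of_nonpos (by linarith [hsl l hl]) hv0
    linarith
  have slU : ∀ l ≤ 3, U ≤ Sl l * U := fun l hl => by
    have := mul_le_mul_of_nonneg_right (hsl l hl) hU.le
    linarith
  have lo2 : ∀ l ≤ 3, 2 * U - y * U ≤ Λ l + Sl l * U := fun l hl => by
    linarith [lo1 l hl, slU l hl]
  have gc0 : ∀ l ≤ 3, U - 5 * (y * U) ≤ gc 0 l := fun l hl => by
    have h1 := (h.gd 0 (by omega) l hl).1
    have h2 := lo0 l hl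
    have h3 : 0 ≤ (A' - v 0) * U := by linarith
    linarith
  have gc2 : ∀ l ≤ 3, U - 5 * (y * U) ≤ gc 2 l := fun l hl => by
    have h1 := C2 l hl
    have h2 := lo2 l hl
    linarith
  have pp0 : U - 5 * (y * U) ≤ pp 0 := by
    have h1 := h.pa 0 (by omega)
    have h2 := lo0 3 le_rfl
    have h3 : 0 ≤ 2 * (A' - v 0) * U := by linarith
    linarith
  have pp1 : Λ 3 + 2 * A' * U - 4 * (y * U) ≤ pp 1 := by
    have h1 := h.pa 1 (by omega)
    rw [v1] at h1
    linarith
  have pp2 : U - 5 * (y * U) ≤ pp 2 := by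
    have h1 := h.pa 2 hN
    rw [v2, mul_one] at h1
    have h2 := lo2 3 le_rfl
    linarith
  have ro := h.ro
  have hroomg : ∀ l ≤ 3, Λ l + Sl l * U + Ee + 3 * K * U ≤ J + y * U := fun l hl => by
    have h1 := ro l hl
    have h2 : 0 ≤ Sl l * ((K - 1) * U) := by
      have := hsl l hl
      have : 0 ≤ (K - 1) * U := by linarith
      exact mul_nonneg (by linarith) this
    linarith
  have e2' := h.ee 2 hN
  obtain ⟨y₁, hy₁⟩ : ∃ y₁ : ℕ, y₁ = ⌈(A' - 1) * U + 10 * (y * U)⌉₊ := ⟨_, rfl⟩
  have hy₁1 : (A' - 1) * U + 10 * (y * U) ≤ y₁ := by rw [hy₁]; exact Nat.le_ceil _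
  have hy₁2 : (y₁ : ℝ) ≤ (A' - 1) * U + 10 * (y * U) + 1 := by
    rw [hy₁]
    exact (Nat.ceil_lt_add_one (by linarith)).le
  obtain ⟨y₂, hy₂⟩ : ∃ y₂ : ℕ, y₂ = ⌈(s - 1) * (A' - 1) * U + 10 * (y * U)⌉₊ := ⟨_, rfl⟩
  have hy₂1 : (s - 1) * (A' - 1) * U + 10 * (y * U) ≤ y₂ := by rw [hy₂]; exact Nat.le_ceil _
  have hy₂2 : (y₂ : ℝ) ≤ (s - 1) * (A' - 1) * U + 10 * (y * U) + 1 := by
    rw [hy₂]
    exact (Nat.ceil_lt_add_one (by linarith)).le
  refine ⟨y₁, y₂, ?_, ?_⟩
  · exact
      { h0 := by omega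
        h1 := by omega
        h2 := by omega
        h3 := hN
        w0 := m01
        w1 := le_rfl
        w2 := m12
        p0 := fun l hl => ⟨nat_le_of_real (by
          have h0 : l = 0 ∨ l = 1 ∨ l = 2 := by omega
          rcases h0 with rfl | rfl | rfl
          · rw [gT0 0 (by omega)]
            linarith [gc0 0 (by norm_num)]
          · linarith [(gT1 0 (by omega)).1, lo1 1 (by norm_num)]
          · linarith [(gT2 0 (by omega)).1, lo1 2 (by norm_num)]), nat_le_of_real (by
          linarith [gc0 l hl.le])⟩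
        p3 := fun l hl => ⟨nat_le_of_real (by
          have h0 : l = 0 ∨ l = 1 ∨ l = 2 := by omega
          rcases h0 with rfl | rfl | rfl
          · rw [gT0 2 hN]
            linarith [gc2 0 (by norm_num)]
          · linarith [(gT1 2 hN).1, lo1 1 (by norm_num)]
          · linarith [(gT2 2 hN).1, lo1 2 (by norm_num)]), nat_le_of_real (by
          linarith [gc2 l hl.le])⟩
        q0 := ⟨nat_le_of_real (by linarith), nat_le_of_real (by linarith [gc0 3 le_rfl])⟩
        q1 := nat_le_of_real (by linarith [lo1 3 le_rfl])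
        q3 := ⟨nat_le_of_real (by linarith), nat_le_of_real (by linarith [gc2 3 le_rfl])⟩
        s0 := nat_le_of_real (by
          push_cast
          rw [hA 0 (by omega)]
          linarith [(gT1 0 (by omega)).1])
        s3 := fun l hl => by
          rcases hl with rfl | rfl
          · refine ⟨nat_le_of_real ?_, nat_le_of_real ?_, nat_le_of_real ?_⟩
            · push_cast
              linarith [(gT1 2 hN).2, (gT1 0 (by omega)).1]
            · push_cast
              rw [hA 2 hN]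
              linarith [(gT1 2 hN).1]
            · push_cast
              rw [hA 2 hN]
              linarith [(gT1 0 (by omega)).1]
          · refine ⟨nat_le_of_real ?_, nat_le_of_real ?_, nat_le_of_real ?_⟩
            · push_cast
              linarith [(gT2 2 hN).2, (gT2 0 (by omega)).1]
            · push_cast
              rw [hA 2 hN]
              linarith [(gT2 2 hN).1]
            · push_cast
              rw [hA 2 hN]
              linarith [(gT2 0 (by omega)).1]
        ex := nat_le_of_real (by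
          push_cast
          rw [hA 2 hN]
          linarith [(gT1 2 hN).2])
        ex2 := nat_le_of_real (by
          push_cast
          rw [hA 2 hN]
          linarith [(gT2 2 hN).2])
        rw := nat_le_of_real (by
          push_cast
          rw [hA 2 hN]
          linarith)
        K1 := ha₁
        l0 := nat_le_of_real (by
          push_cast
          rw [hA 2 hN]
          linarith [(gT1 0 (by omega)).1])
        l3 := nat_le_of_real (by
          push_cast
          rw [hA 2 hN]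
          linarith [(gT1 2 hN).1])
        g0 := nat_le_of_real (by linarith [lo2 0 (by norm_num)])
        rm := fun l hl => nat_le_of_real (by
          push_cast
          have h0 : l = 0 ∨ l = 1 := by omega
          rcases h0 with rfl | rfl
          · have h1 := hroomg 0 (by norm_num)
            rw [s0] at h1
            linarith
          · have h1 := hroomg 1 (by norm_num)
            rw [s1] at h1
            linarith)
        ef := nat_le_of_real (by
          push_cast
          linarith)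
        f0 := nat_le_of_real (by
          have h1 : (w 2 : ℝ) ≤ a₁ := by exact_mod_cast ha₁
          push_cast
          linarith)
        f1 := nat_le_of_real (by
          have h1 : (w 2 : ℝ) ≤ a₁ := by exact_mod_cast ha₁
          push_cast
          linarith)
        va := nat_le_of_real (by
          push_cast
          rw [h10]
          linarith) }
  · have hg : ∀ l ≤ 3, U ≤ g₀ 2 l := fun l hl => by
      linarith [(G2 l hl).1, lo2 l hl]
    exact
      { K1 := hat
        t1 := hwt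
        n1 := nat_le_of_real (by
          push_cast
          linarith)
        n2 := fun l hl => nat_le_of_real (by
          push_cast
          have h1 := hroomg l hl
          have h2 := (G2 l hl).2
          linarith)
        n4 := fun l hl => nat_le_of_real (by linarith [hg l hl])
        n6 := nat_le_of_real (by
          have h1 : (w 2 : ℝ) ≤ at' := by exact_mod_cast hat
          push_cast
          linarith) }

end Pool.TN
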