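import Pool.Agent.H88.D2.Kr5
import Pool.Agent.H88.D2.Nss
import Pool.Agent.H88.D2.Ss2

/-!
# The cell with two static coordinates of slopes two and three

`cellQ_s3`: the cells `[one, sta, sta]` of slopes `1, 2, 3`.
-/

set_option autoImplicit false

namespace Pool.TN

open Finset Real MvPolynomial
open Pool.Agent.H49.Ent Pool.Agent.H32.Dense Pool.STK Pool.KA Pool.KSAT Pool.K2S Pool.PB Pool.S6C
open Pool.GEN Pool.CHT Pool.CHX Pool.ISO Pool.D2R Pool.D2Z Pool.D2F Pool.AFT Pool.PKG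
open Pool.LBT (ThrOf)
open Pool.FLF (Fam.sub)

theorem fl_le_ss {x B : ℝ} (h : x ≤ B) (hB : 0 ≤ B) : (⌊x⌋₊ : ℝ) ≤ B := by
  rcases le_total 0 x with h1 | h1
  · exact (Nat.floor_le h1).trans h
  · rw [Nat.floor_of_nonpos h1]
    simpa using hB

/-- The first windows. -/
def nkS (n₁ : ℕ) (k : ℕ) : ℕ :=
  if k = 0 then 0 else if k = 1 then 3 * n₁ - 2 else if k = 2 then 3 * n₁ - 1
    else if k = 3 then 3 * n₁ else 4 * n₁ - 3

/-- **The class theorem of the cells** `[one, sta, sta]` of slopes `1, 2, 3`. -/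
theorem cellQ_s3 {n : ℕ} {Sl : ℕ → ℝ} {κ : ℕ → Kd} (k0 : κ 0 = .one) (k1 : κ 1 = .sta)
    (k2 : κ 2 = .sta) (h0 : Sl 0 = 1) (h1 : Sl 1 = 2) (h2 : Sl 2 = 3) :
    CellQ n 3 Sl κ := by
  intro del hdel S₀ hS₀
  obtain ⟨b, hb⟩ : ∃ b, b = Sl 3 := ⟨_, rfl⟩
  obtain ⟨n₁, hn₁, hbn⟩ : ∃ n₁ : ℕ, 4 ≤ n₁ ∧ b ≤ n₁ := by
    obtain ⟨n, hn⟩ := exists_nat_ge b
    refine ⟨n + 4, by omega, ?_⟩
    push_cast
    linarith only [hn]
  have hn₁R : (4 : ℝ) ≤ n₁ := by exact_mod_cast hn₁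
  obtain ⟨A', hA'⟩ : ∃ A' : ℝ, A' = n₁ := ⟨_, rfl⟩
  obtain ⟨K, hK⟩ : ∃ K : ℝ, K = 3 * n₁ + 3 := ⟨_, rfl⟩
  obtain ⟨a₀, ha₀⟩ : ∃ a₀ : ℝ, a₀ = -(3 * (n₁ : ℝ) - 2) := ⟨_, rfl⟩
  obtain ⟨nk, hnk⟩ : ∃ nk : ℕ → ℕ, nk = nkS n₁ := ⟨_, rfl⟩
  have nk0 : nk 0 = 0 := by rw [hnk]; rfl
  have nk1 : nk 1 = 3 * n₁ - 2 := by rw [hnk]; rfl
  have nk2 : nk 2 = 3 * n₁ - 1 := by rw [hnk]; rfl
  have nk3 : nk 3 = 3 * n₁ := by rw [hnk]; rfl
  have nk4 : nk 4 = 4 * n₁ - 3 := by rw [hnk]; rfl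
  have nk1R : (nk 1 : ℝ) = 3 * n₁ - 2 := by
    rw [nk1, Nat.cast_sub (by omega)]
    push_cast
    ring
  have nk2R : (nk 2 : ℝ) = 3 * n₁ - 1 := by
    rw [nk2, Nat.cast_sub (by omega)]
    push_cast
    ring
  have nk4R : (nk 4 : ℝ) = 4 * n₁ - 3 := by
    rw [nk4, Nat.cast_sub (by omega)]
    push_cast
    ring
  have hnkl : ∀ k < 4, nk k < nk 4 := fun k hk => by
    have h5 : k = 0 ∨ k = 1 ∨ k = 2 ∨ k = 3 := by omega
    rcases h5 with rfl | rfl | rfl | rfl <;> omega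
  have hnkR : ∀ k ≤ 4, (nk k : ℝ) ≤ 4 * n₁ - 3 := fun k hk => by
    rw [← nk4R]
    rcases Nat.lt_or_ge k 4 with h5 | h5
    · exact_mod_cast (hnkl k h5).le
    · have h6 : k = 4 := by omega
      rw [h6]
  obtain ⟨Al, hAl⟩ : ∃ Al : ℕ → ℝ, Al = fun k => if k = 5 then 1 else A' := ⟨_, rfl⟩
  obtain ⟨Vl, hVl⟩ : ∃ Vl : ℕ → ℝ, Vl = fun k => if k = 5 then 0 else a₀ + nk k := ⟨_, rfl⟩
  have Al4 : Al 5 = 1 := by rw [hAl]; simp
  have Vl4 : Vl 5 = 0 := by rw [hVl]; simp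
  have Alk : ∀ k ≤ 4, Al k = A' := fun k hk => by
    rw [hAl]
    simp only [show k ≠ 5 by omega, if_false]
  have Vlk : ∀ k ≤ 4, Vl k = a₀ + nk k := fun k hk => by
    rw [hVl]
    simp only [show k ≠ 5 by omega, if_false]
  have hub0 : ∀ k ≤ 4, a₀ ≤ a₀ + nk k ∧ a₀ + nk k + 1 ≤ A' := fun k hk => by
    have h5 : (0 : ℝ) ≤ nk k := Nat.cast_nonneg _
    exact ⟨by linarith only [h5], by linarith only [ha₀, hnkR k hk, hA']⟩
  have hA4 : 4 ≤ A' := by linarith only [hA', hn₁R]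
  refine ⟨K, 6, Al, Vl, by linarith only [hK, hn₁R], fun k hk => ?_, fun S₂ hS₂ => ?_⟩
  · rcases Nat.lt_or_ge k 5 with h5 | h5
    · rw [Alk k (by omega), Vlk k (by omega)]
      have h6 := hub0 k (by omega)
      exact ⟨by linarith only [h6.1, hK, ha₀], by linarith only [h6.2], by
        linarith only [hK, hn₁R, hA']⟩
    · have h6 : k = 5 := by omega
      subst h6
      rw [Al4, Vl4]
      exact ⟨by linarith only [hK, hn₁R], by norm_num, by linarith only [hK, hn₁R]⟩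
  obtain ⟨D₀, hD₀, hcev⟩ := cevk n S₀ hS₀
  obtain ⟨D, hDD, hcev⟩ := hcev S₂ hS₂
  have hD : 1 ≤ D := hD₀.trans hDD
  obtain ⟨C, hC1, hend⟩ := ss3_end n D hD
  have hCR : (1 : ℝ) ≤ C := by exact_mod_cast hC1
  have hC0 : (0 : ℝ) < C := by linarith only [hCR]
  obtain ⟨m₀, hm₀⟩ : ∃ m₀ : ℝ, m₀ = min 1 del := ⟨_, rfl⟩
  have m00 : 0 < m₀ := by rw [hm₀]; exact lt_min one_pos hdel
  have m01 : m₀ ≤ 1 := by rw [hm₀]; exact min_le_left _ _
  have m02 : m₀ ≤ del := by rw [hm₀]; exact min_le_right _ _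
  obtain ⟨y, hy⟩ : ∃ y : ℝ, y = m₀ / (12000 * C) := ⟨_, rfl⟩
  have hy0 : 0 < y := by rw [hy]; positivity
  have hyC : 12000 * (C * y) = m₀ := by rw [hy]; field_simp
  have hyy : y ≤ C * y := le_mul_of_one_le_left hy0.le hCR
  have hy1 : y ≤ 1 / 12000 := by linarith only [hyC, hyy, m01]
  obtain ⟨n₀, p, s', ε₀, y', hn₀, hp, hs', hns, hε₀, hy'0, hy'y, hcev⟩ := hcev D le_rfl Sl y
    (1 / 2) hy0 (by linarith only [hy1]) (by norm_num)
    (fun l hl1 hl2 => by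
      have : l = 1 ∨ l = 2 := by omega
      rcases this with rfl | rfl
      · rw [h1]; norm_num
      · rw [h2]; norm_num) ⟨by rw [h0, h1]; norm_num, by rw [h0, h2]; norm_num⟩
    (by rw [h1, h2]; norm_num)
  have hpR : (0 : ℝ) < p := by
    have : (1 : ℝ) ≤ p := by exact_mod_cast hp
    linarith only [this]
  obtain ⟨q₁, hq₁⟩ : ∃ q₁, q₁ = nk 4 * p := ⟨_, rfl⟩
  obtain ⟨V', hV'⟩ : ∃ V' : ℕ → ℝ, V' = fun j => if j ≤ q₁ then a₀ + j / p else
    a₀ + nk ((j - (q₁ + 1)) / n₀) + (((j - (q₁ + 1)) % n₀ : ℕ) + 1) * s' := ⟨_, rfl⟩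
  have hV'1 : ∀ k ≤ q₁, V' k = a₀ + k / p := fun k hk => by
    rw [hV']
    simp only [hk, if_true]
  have hV'2 : ∀ k ≤ 4, ∀ j, 1 ≤ j → j ≤ n₀ → V' (q₁ + 1 + (k * n₀ + (j - 1))) =
      a₀ + nk k + j * s' := fun k hk j hj1 hj2 => by
    rw [hV']
    beta_reduce
    rw [if_neg (by omega), show q₁ + 1 + (k * n₀ + (j - 1)) - (q₁ + 1) = k * n₀ + (j - 1) by omega]
    have h5 : (k * n₀ + (j - 1)) / n₀ = k := by
      rw [mul_comm, Nat.mul_add_div (by omega), Nat.div_eq_of_lt (by omega), add_zero]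
    have h6 : (k * n₀ + (j - 1)) % n₀ = j - 1 := by
      rw [mul_comm, Nat.mul_add_mod, Nat.mod_eq_of_lt (by omega)]
    rw [h5, h6]
    have h7 : ((j - 1 : ℕ) : ℝ) + 1 = j := by
      have : ((j - 1 + 1 : ℕ) : ℝ) = j := by rw [Nat.sub_add_cancel hj1]
      push_cast at this
      exact this
    rw [h7]
  refine ⟨q₁ + 1 + 5 * n₀, V', fun j hj => ?_, min ε₀ (y' / 4), lt_min hε₀ (by positivity), ?_⟩
  · rcases Nat.lt_or_ge q₁ j with h5 | h5
    · have h6 : (j - (q₁ + 1)) / n₀ ≤ 4 := by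
        have : (j - (q₁ + 1)) / n₀ < 5 := Nat.div_lt_of_lt_mul (by
          rw [mul_comm]
          omega)
        omega
      have h7 : (((j - (q₁ + 1)) % n₀ : ℕ) : ℝ) + 1 ≤ n₀ + 1 := by
        have : (j - (q₁ + 1)) % n₀ < n₀ := Nat.mod_lt _ (by omega)
        have : (((j - (q₁ + 1)) % n₀ : ℕ) : ℝ) ≤ n₀ := by exact_mod_cast this.le
        linarith only [this]
      have h8 := mul_le_mul_of_nonneg_right h7 hs'.le
      have h9 := hub0 _ h6
      have h10 : 0 ≤ ((((j - (q₁ + 1)) % n₀ : ℕ) : ℝ) + 1) * s' := by positivity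
      rw [hV']
      beta_reduce
      rw [if_neg (by omega)]
      exact ⟨by linarith only [h9.1, h10, hK, ha₀], by
        linarith only [h9.2, h8, hns, hK, hn₁R, hA']⟩
    · rw [hV'1 j h5]
      have h6 : (0 : ℝ) ≤ j / p := by positivity
      have h7 : (j : ℝ) / p ≤ 4 * n₁ - 3 := by
        rw [div_le_iff₀ hpR, ← nk4R]
        have : (j : ℝ) ≤ (nk 4 * p : ℕ) := by
          rw [← hq₁]
          exact_mod_cast h5
        push_cast at this
        exact this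
      exact ⟨by linarith only [h6, ha₀, hK], by linarith only [h7, ha₀, hK, hn₁R]⟩
  intro S P P₂ θ θ₂ c Pt L T Eb e₂' q t R
  by_contra hcon
  rw [not_le] at hcon
  have hq := R.q0
  have hεe : min ε₀ (y' / 4) ≤ ε₀ := min_le_left _ _
  have hεy : min ε₀ (y' / 4) ≤ y' / 4 := min_le_right _ _
  have hε0 : 0 < min ε₀ (y' / 4) := lt_min hε₀ (by positivity)
  have hyq : 0 < y' * q := mul_pos hy'0 hq
  have hK3 : 3 ≤ K := by linarith only [hK, hn₁R]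
  have y3 : y' ≤ 1 / 1000 := by linarith only [hy1, hy'y]
  obtain ⟨a, w', ra1, ra2, ra3, ra4, ra5, ra6, ra7, ra8, ra9, rb, rn, rt3⟩ :=
    RecQ.ra R hy'0 y3 hεy hK3 (j := 5) (by norm_num) Al4 Vl4
  have ht0 := R.t0
  have ht1 := R.t1
  have hKq1 : 3 * q ≤ K * q := mul_le_mul_of_nonneg_right hK3 hq.le
  have bx1 : |t + q - t| ≤ K * q := by
    rw [abs_le]
    exact ⟨by linarith only [hKq1, hq], by linarith only [hKq1, hq]⟩
  have L13 : L 3 (t + q) (t + q) ≤ L 3 t t + b * q + y' / 4 * q := by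
    have h4 := abs_le.1 (R.dL 3 le_rfl (t + q) bx1)
    have h5 := mul_le_mul_of_nonneg_right hεy hq.le
    rw [add_sub_cancel_left, ← hb] at h4
    linarith only [h4.2, h5]
  have hbet3 : bet P₂ c 3 a w' + y' * q ≤ 1 := by
    have h4 := R.room 3 le_rfl (t + q) bx1
    have h5 := mul_le_mul_of_nonneg_right y3 hq.le
    have h6 : 0 < del * q := mul_pos hdel hq
    linarith only [h4, h5, h6, rt3, hcon, hKq1, hq, R.Eb0]
  obtain ⟨u, hu⟩ : ∃ u : ℕ → ℝ, u = fun k => if k ≤ 4 then a₀ + nk k else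
    a₀ + ((k - 5 : ℕ) : ℝ) / p := ⟨_, rfl⟩
  have hu1 : ∀ k ≤ 4, u k = a₀ + nk k := fun k hk => by
    rw [hu]
    simp only [hk, if_true]
  have hu2 : ∀ k ≤ nk 4 * p, u (4 + 1 + k) = a₀ + k / p := fun k _ => by
    rw [hu]
    beta_reduce
    rw [if_neg (by omega), show 4 + 1 + k - 5 = k by omega]
  have hub : ∀ k ≤ 4, u 0 ≤ u k ∧ u k + 1 ≤ A' ∧ 2 ≤ K + u k := fun k hk => by
    have h5 := hub0 k hk
    rw [hu1 k hk, hu1 0 (by norm_num), nk0, Nat.cast_zero, add_zero]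
    exact ⟨h5.1, h5.2, by linarith only [h5.1, hK, ha₀]⟩
  obtain ⟨K₁, hK₁, hcev⟩ := hcev R hε0.le hεe (by linarith only [hK3]) A' a₀ 4 nk u
    (fun l => κ l = .sta) (by linarith only [hK, hn₁R, hA']) hu1 hu2 hnkl
    (fun k hk => ⟨by linarith only [(hub k hk).2.2], by linarith only [(hub k hk).2.1]⟩)
    (by linarith only [ha₀, hK])
    (fun k hk => ⟨k, by omega, Alk k hk, by rw [Vlk k hk, hu1 k hk]⟩)
    (fun k hk => ⟨k, by omega, hV'1 k (by omega)⟩)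
    (fun k hk j hj1 hj2 => ⟨q₁ + 1 + (k * n₀ + (j - 1)), by
      have h5 : k * n₀ ≤ 4 * n₀ := Nat.mul_le_mul_right _ hk
      omega, by rw [hV'2 k hk j hj1 hj2, hu1 k hk]⟩) (fun l hl hsc => by
      cases h5 : κ l with
      | one => exact Or.inl rfl
      | thin => exact Or.inr rfl
      | sta => exact absurd h5 hsc) (fun l hl hsc => hsc)
  have hV1 := hcev 1 one_pos
  have hV2 := hend R.thr₂ R.tmh c R.inj a e₂' (y' * q) (ra5.trans ra6) ra7 ra8 hyq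
    (rb 0 (by norm_num)) (rb 1 (by norm_num)) (rb 2 (by norm_num)) a w' (t + K * q) e₂' (y' * q)
    (y' * q / 2) (1 / K₁) ra5 ra6 ra7.le ht1 ra9 hyq hbet3 (by positivity) (by positivity)
  have hpos : Bas S (fun _ F A => 0 < Pe F.p A) := ⟨1, one_pos, 0, fun J _ F A hA =>
    R.tmh.1 1 J F A hA⟩
  obtain ⟨J₁, hJ₁⟩ := exists_nat_ge (((C : ℝ) + 2) / (y' * q))
  refine Pool.LBT.bas_false R.ne (Φ := fun _ _ _ => True) ⟨1, one_pos, 0, fun _ _ _ _ _ =>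
    trivial⟩ (Bas.mono J₁ ((hV1.and hV2).and hpos) ?_)
  rintro J hJ F A₀ ⟨⟨hA1, hA2⟩, hA0⟩ -
  have hJR : (J₁ : ℝ) ≤ J := by exact_mod_cast hJ
  have hyU : (C : ℝ) + 2 ≤ y' * (q * J) := by
    have h4 := hJ₁.trans hJR
    rw [div_le_iff₀ hyq] at h4
    linarith only [h4]
  have hJ0 : (0 : ℝ) ≤ J := Nat.cast_nonneg J
  obtain ⟨U, hU⟩ : ∃ U : ℝ, U = q * J := ⟨_, rfl⟩
  rw [← hU] at hyU
  have hU0 : 0 ≤ U := by rw [hU]; positivity
  obtain ⟨w, hw⟩ : ∃ w : ℕ → ℕ, w = fun k => ⌊(t + u k * q) * J⌋₊ := ⟨_, rfl⟩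
  obtain ⟨A, hA⟩ : ∃ A : ℕ, A = ⌊(t + A' * q) * J⌋₊ := ⟨_, rfl⟩
  obtain ⟨cl, hcl⟩ : ∃ cl : ℕ, cl = ⌊y' * q * J⌋₊ := ⟨_, rfl⟩
  obtain ⟨M, z, B, e, h, pp, g, gc, gT, g₀, G, H, Th, TH, Gt, Ht, hBA, hBP, E, hap, hchn⟩ :=
    hA1 w A cl (fun k => by rw [hw]) hA hcl
  rw [← hU] at hap hchn
  obtain ⟨Y, hY⟩ : ∃ Y, Y = ⌊y * U⌋₊ := ⟨_, rfl⟩
  rw [← hY] at hchn
  have yU0 : 0 ≤ y * U := mul_nonneg hy0.le hU0
  have hYR : (Y : ℝ) ≤ y * U := by
    rw [hY]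
    exact Nat.floor_le yU0
  obtain ⟨X, hX⟩ : ∃ X, X = 50 * cl := ⟨_, rfl⟩
  obtain ⟨Q, hQ⟩ : ∃ Q, Q = C * (cl + X + Y + 1) := ⟨_, rfl⟩
  have c1 := hap.cl1
  have c2 := hap.cl2
  have XR : (X : ℝ) = 50 * cl := by rw [hX]; push_cast; ring
  have hCyU : 12000 * (C * (y * U)) = m₀ * U := by
    rw [← hyC]
    ring
  have hmU1 : m₀ * U ≤ U := mul_le_of_le_one_left hU0 m01
  have hmU2 : m₀ * U ≤ del * U := mul_le_mul_of_nonneg_right m02 hU0
  have yUC : y * U ≤ C * (y * U) := le_mul_of_one_le_left yU0 hCR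
  have hy'U : y' * U ≤ y * U := mul_le_mul_of_nonneg_right hy'y hU0
  have Q0 : (Q : ℝ) ≤ 53 * (C * (y * U)) := by
    have h5 : (Q : ℝ) = C * (cl + 50 * cl + Y + 1) := by rw [hQ, hX]; push_cast; ring
    rw [h5]
    have h6 : (cl : ℝ) + 50 * cl + Y + 1 ≤ 53 * (y * U) := by
      linarith only [c1, hyU, hCR, hYR, hy'U]
    have h7 := mul_le_mul_of_nonneg_left h6 hC0.le
    linarith only [h7]
  have QR : (Q : ℝ) ≤ U / 100 := by linarith only [Q0, hCyU, hmU1, hU0]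
  have hX20 : 20 * (y' * U) ≤ X := by rw [XR]; linarith only [c2, hyU, hCR]
  have q0 : u 0 = -(3 * (n₁ : ℝ) - 2) := by
    rw [hu1 0 (by norm_num), nk0, ha₀, Nat.cast_zero, add_zero]
  have q1 : u 1 = 0 := by
    rw [hu1 1 (by norm_num), nk1R, ha₀]
    ring
  have q2 : u 2 = 1 := by
    rw [hu1 2 (by norm_num), nk2R, ha₀]
    ring
  have q3 : u 3 = 2 := by
    rw [hu1 3 (by norm_num), nk3, ha₀]
    push_cast
    ring
  have q4 : u 4 = n₁ - 1 := by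
    rw [hu1 4 (by norm_num), nk4R, ha₀]
    ring
  have vA : ∀ k ≤ 4, u k + 1 ≤ A' := fun k hk => (hub k hk).2.1
  have vK : ∀ k ≤ 4, 2 ≤ K + u k := fun k hk => (hub k hk).2.2
  have u4A : u 4 + 1 = A' := by rw [q4, hA']; ring
  have hKU : 3 * U ≤ K * U := mul_le_mul_of_nonneg_right hK3 hU0
  have W1 := hap.w1 1 (by norm_num)
  have W2 := hap.w1 2 (by norm_num)
  rw [q1] at W1
  rw [q2] at W2
  have hwa2 : w 2 ≤ ⌊(a : ℝ) * J⌋₊ := by
    rw [hw]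
    exact Nat.floor_le_floor (mul_le_mul_of_nonneg_right
      (by rw [q2, one_mul]; exact ra1.le) hJ0)
  have hww1 : w 1 ≤ ⌊(w' : ℝ) * J⌋₊ := by
    rw [hw]
    exact Nat.floor_le_floor (mul_le_mul_of_nonneg_right
      (by rw [q1, zero_mul, add_zero]; exact ra3.le) hJ0)
  have heb1 : Eb * J + 3 * K * U - 1 ≤ (⌊e₂' * J⌋₊ : ℝ) := by
    have h5 := Nat.lt_floor_add_one (e₂' * J)
    have h6 := mul_le_mul_of_nonneg_right R.Ebe.le hJ0
    have h9 : (Eb + 3 * K * q) * J = Eb * J + 3 * K * U := by rw [hU]; ring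
    rw [h9] at h6
    linarith only [h5, h6]
  have hbt0 : (⌊(bet P₂ c 0 a a + y' * q) * J⌋₊ : ℝ) ≤ L 0 t t * J + U + 5 * (y' * U) := by
    have h5 := rn 0 (by norm_num) J
    rw [← hU, h0, one_mul] at h5
    exact h5
  have hbt1 : (⌊(bet P₂ c 1 a a + y' * q) * J⌋₊ : ℝ) ≤ L 1 t t * J + 2 * U + 5 * (y' * U) := by
    have h5 := rn 1 (by norm_num) J
    rw [← hU, h1] at h5
    exact h5
  have hbt3 : (⌊(bet P₂ c 3 a w' + y' * q) * J⌋₊ : ℝ) + Q + 5 * (y' * U) ≤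
      L 3 t t * J + b * U := by
    have h5 : (⌊(bet P₂ c 3 a w' + y' * q) * J⌋₊ : ℝ) ≤ L 3 t t * J + b * U + 3 * (y' * U) -
        del * U := by
      refine fl_le_ss ?_ ?_
      · have h7 : bet P₂ c 3 a w' + y' * q ≤ L 3 t t + b * q + 3 * (y' * q) - del * q := by
          linarith only [rt3, hcon, L13, hyq]
        have h8 := mul_le_mul_of_nonneg_right h7 hJ0
        have h9 : (L 3 t t + b * q + 3 * (y' * q) - del * q) * J = L 3 t t * J + b * U +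
            3 * (y' * U) - del * U := by rw [hU]; ring
        rw [h9] at h8
        exact h8
      · have h7 := (R.lawL 3 le_rfl).mono_a t (t + q) t (by linarith only [ht0, hKq1, hq]) le_rfl
          (by linarith only [hq]) (by linarith only [ht1, hKq1, hq])
        have h8 : L 3 t t ≤ L 3 t t + b * q + 3 * (y' * q) - del * q := by
          linarith only [h7, hcon, L13, hyq]
        have h9 := mul_le_mul_of_nonneg_right h8 hJ0
        have h9' : (L 3 t t + b * q + 3 * (y' * q) - del * q) * J = L 3 t t * J + b * U +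
            3 * (y' * U) - del * U := by rw [hU]; ring
        rw [h9'] at h9
        have h10 := hap.lo 1 (by norm_num) 3 le_rfl
        rw [q1] at h10
        have h11 : 0 ≤ (K - y') * U := mul_nonneg (by linarith only [hK3, y3]) hU0
        linarith only [h9, h10, h11]
    linarith only [h5, Q0, hCyU, hmU2, hy'U, yUC, hU0]
  obtain ⟨y₁, y₂, n1, n2⟩ := num_ss hap (by norm_num) (fun l hl => by
      constructor
      · intro h5
        by_contra h6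
        have h7 : l = 0 := by omega
        rw [h7, k0] at h5
        exact Kd.noConfusion h5
      · rintro (rfl | rfl)
        · exact k1
        · exact k2) h0 h1 h2 hb.symm (by norm_num) q1 q2 (by rw [hA']; exact hbn)
    (by linarith only [hA4]) (by rw [q0, hA']; linarith only [hn₁R])
    (by rw [hA', hK]; linarith only [hn₁R]) (by rw [q0, hK]; linarith only [hn₁R]) y3 hX20 QR QR
    (a₁ := ⌊(a : ℝ) * J⌋₊) (e₁ := ⌊e₂' * J⌋₊) (b0 := ⌊(bet P₂ c 0 a a + y' * q) * J⌋₊)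
    (b1 := ⌊(bet P₂ c 1 a a + y' * q) * J⌋₊) (at' := ⌊(a : ℝ) * J⌋₊) (wt' := ⌊(w' : ℝ) * J⌋₊)
    (eb' := ⌊e₂' * J⌋₊) (bt' := ⌊(bet P₂ c 3 a w' + y' * q) * J⌋₊) hwa2 heb1 hbt0 hbt1 hwa2 hww1
    heb1 hbt3
  have heb : e 2 + Q ≤ ⌊e₂' * J⌋₊ := n1.ef
  have hBN : ∀ i ≤ 4, ∀ j ≤ 4, u i ≤ u j → BNum 3 4 A cl X w pp gc gT g₀ i j :=
    fun i hi j hj hij => hap.BN hX20 le_rfl k1 k2 hi hj hij (vK i hi) (vK j hj) y3 (vA i hi)
      (vA j hj)
  have hkq : ∀ x, x = 0 ∨ x = 2 ∨ x = 3 → gT 4 1 + g₀ x 2 ≤ g₀ 4 2 + (A - w 4) + g₀ x 1 + X ∧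
      g₀ 4 1 + g₀ x 2 ≤ g₀ 4 2 + g₀ x 1 + X := fun x hx => by
    have hx2 : x ≤ 4 := by omega
    have hxu : u x ≤ 2 := by
      rcases hx with rfl | rfl | rfl
      · rw [q0]; linarith only [hn₁R]
      · rw [q2]; norm_num
      · rw [q3]
    refine hap.kqn hX20 le_rfl k1 h1 hx2 le_rfl u4A ?_ (by rw [q4]; linarith only [hxu, hn₁R])
    rw [q4, h2]
    linarith only [hxu, hn₁R]
  -- the levels
  have G01 := hap.ga 0 (by norm_num) 1 (by norm_num)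
  have G02 := hap.ga 0 (by norm_num) 2 (by norm_num)
  have G21 := hap.ga 2 (by norm_num) 1 (by norm_num)
  have G22 := hap.ga 2 (by norm_num) 2 (by norm_num)
  have W0 := hap.w1 0 (by norm_num)
  have dA1 := hap.A1
  have dA2 := hap.A2
  have T21 := hap.gs 2 (by norm_num) 1 (by norm_num) k1
  have T22 := hap.gs 2 (by norm_num) 2 (by norm_num) k2
  have T02 := hap.gs 0 (by norm_num) 2 (by norm_num) k2
  have T01 := hap.gs 0 (by norm_num) 1 (by norm_num) k1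
  rw [h1] at G01 G21 T21 T01
  rw [h2] at G02 G22 T22 T02
  rw [q2] at G21 G22
  have hAU : 4 * U ≤ A' * U := mul_le_mul_of_nonneg_right hA4 hU0
  have hyUs := hap.yUs y3
  have hgT11 : A - w 2 ≤ gT 2 1 - g₀ 2 1 ∧ g₀ 2 1 ≤ gT 2 1 := by
    have h6 : (g₀ 2 1 : ℝ) + (A - w 2 : ℕ) ≤ gT 2 1 := by
      rw [hap.cA (by norm_num)]
      linarith only [T21.1, G21.2, dA2, W2.1, hAU, hyUs, hU0, hyU, hCR]
    have h7 : g₀ 2 1 + (A - w 2) ≤ gT 2 1 := by exact_mod_cast h6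
    omega
  have hex2 : ∀ i, i = 0 ∨ i = 2 → gT 2 1 + g₀ 2 2 + Q ≤ gT i 2 + g₀ 2 1 := fun i hi => by
    refine nat_le_of_real ?_
    push_cast
    rcases hi with rfl | rfl
    · linarith only [T21.2, T02.1, G21.1, G22.2, QR, hyUs, hU0, hAU]
    · linarith only [T21.2, T22.1, G21.1, G22.2, QR, hyUs, hU0, hAU]
  have hSN : SNum J 3 4 A cl X Q w e pp gc gT g₀ 0 2 3 4 ⌊(a : ℝ) * J⌋₊ ⌊e₂' * J⌋₊
      ⌊(bet P₂ c 0 a a + y' * q) * J⌋₊ ⌊(bet P₂ c 2 a a + y' * q) * J⌋₊ :=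
    { ik := hBN 0 (by norm_num) 2 (by norm_num) (hub 2 (by norm_num)).1
      kk := hBN 2 (by norm_num) 2 (by norm_num) le_rfl
      ij := hBN 0 (by norm_num) 3 (by norm_num) (hub 3 (by norm_num)).1
      il := hBN 0 (by norm_num) 4 (by norm_num) (hub 4 (by norm_num)).1
      kl := hBN 2 (by norm_num) 4 (by norm_num) (by rw [q2, q4]; linarith only [hn₁R])
      lbj := by
        refine nat_le_of_real ?_
        push_cast
        rw [hap.cA (by norm_num)]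
        have b1 := (hap.ga 3 (by norm_num) 1 (by norm_num)).2
        have d2 := (hap.w1 3 (by norm_num)).1
        rw [h1, q3] at b1
        rw [q3] at d2
        linarith only [T01.1, b1, dA2, d2, hAU, hX20, hyU, hCR, hU0, hyUs]
      qx := fun x hx => hkq x (by omega)
      K1 := hwa2
      ex := ⟨gT 2 1 - g₀ 2 1, hgT11.1, by omega, by
        have := hex2 0 (Or.inl rfl)
        omega, by
        have := hex2 2 (Or.inr rfl)
        omega⟩
      g0 := fun x hx => nat_le_of_real (by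
        linarith only [hap.g00 (k := 2) (l := x) (by norm_num) (by omega) (vK 2 (by norm_num)) y3,
          QR, hU0])
      rm := fun x hx => hap.rm (by norm_num) (by omega) (by rw [q2]; linarith only [hK3]) QR
        (by linarith only [hK3]) y3
      ef := heb
      f0 := hap.thr hX20 (by norm_num) (by norm_num) q2 hwa2 (by
        have := rn 0 (by norm_num) J
        rw [← hU] at this
        exact this)
      f2 := hap.thr hX20 (by norm_num) (by norm_num) q2 hwa2 (by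
        have := rn 2 (by norm_num) J
        rw [← hU] at this
        exact this)
      wt := by
        refine hap.wt2 QR (by norm_num) (by norm_num) (by norm_num) (by norm_num) ?_ y3
        rw [q2, q3, h0, h2]
        norm_num }
  have hva := n1.va
  have hexn := n1.ex
  have hNS : NumS3 J 4 A cl X Q y₁ y₂ w e pp gc gT g₀ 0 1 2 3 4 ⌊(a : ℝ) * J⌋₊ ⌊e₂' * J⌋₊
      ⌊(bet P₂ c 0 a a + y' * q) * J⌋₊ ⌊(bet P₂ c 1 a a + y' * q) * J⌋₊
      ⌊(bet P₂ c 2 a a + y' * q) * J⌋₊ := by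
    have m01' : w 0 ≤ w 1 := n1.w0
    have e01 : ((w 1 - w 0 : ℕ) : ℝ) = w 1 - w 0 := by rw [Nat.cast_sub m01']
    have hva' : (w 0 : ℝ) + g₀ 0 0 + g₀ 2 1 + (y₁ + y₂) + Q ≤ w 2 + g₀ 2 0 + g₀ 0 1 +
        (w 1 - w 0) := by
      rw [← e01]
      exact_mod_cast hva
    have hex' : (gT 2 1 : ℝ) ≤ g₀ 2 1 + (A - w 2) + y₁ := by
      rw [← hap.cA (by norm_num)]
      exact_mod_cast hexn
    have G00 := hap.ga 0 (by norm_num) 0 (by norm_num)
    have G20 := hap.ga 2 (by norm_num) 0 (by norm_num)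
    rw [h0] at G00 G20
    rw [q2] at G20
    have hu0U : u 0 * U + 3 * (A' * U) ≤ 2 * U := by
      rw [q0, hA']
      linarith only [hU0]
    refine ⟨n1, hSN, hkq 0 (Or.inl rfl), nat_le_of_real ?_, nat_le_of_real ?_⟩
    · push_cast
      rw [e01]
      linarith only [hva', hex', G00.1, G20.2, G01.1, G01.2, G21.1, G21.2, G22.2, G02.1, T21.1,
        W0.1, W0.2, W1.1, W1.2, W2.1, W2.2, dA1, dA2, QR, hyUs, hU0, hAU, hu0U, hyU, hCR]
    · push_cast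
      linarith only [hva', hex', G00.1, G20.2, G01.1, G01.2, G21.1, G21.2, T21.1,
        W0.1, W0.2, W1.1, W1.2, W2.1, W2.2, dA1, dA2, QR, hyUs, hU0, hAU, hu0U, hyU, hCR]
  rw [hQ] at hNS n2
  have hfin := hA2 E hBA (by
      have : y' * q / 2 * J = y' * U / 2 := by rw [hU]; ring
      rw [this]
      linarith only [c2, hyU, hCR]) (nat_le_of_real (by linarith only [c2, hyU]))
    (by rw [k0]; simp) k1 k2 hNS (fun ω hω x hx => hchn ω hω x (by omega)) (by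
      have h5 : (t + K * q) * J = t * J + K * U := by rw [hU]; ring
      rw [h5]
      linarith only [W2.2, hKU, hU0]) n2
  have h6 : 1 / K₁ * Pe F.p A₀ ≤ Pe F.p B := by
    rw [div_mul_eq_mul_div, one_mul, div_le_iff₀ hK₁]
    linarith only [hBP]
  linarith only [hfin, h6]

end Pool.TN
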