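import Pool.Agent.H23.D2.Bgr
import Pool.Agent.H66.D2.Wfe
import Pool.Agent.H66.D2.Spa
import Pool.Agent.H88.D2.Cwx

/-!
# The closed gradient at a ball from the closed relative gradient

`gnh_last`: the last component of the relative gradient. `mu_pt`: the gradient of the ball chart of
the target in the direction of the last place is closed if the relative gradient is.
-/

set_option autoImplicit false

namespace Pool.TN

open Finset Real MvPolynomial
open Pool.Agent.H49.Ent Pool.Agent.H32.Dense Pool.STK Pool.KA Pool.KSAT Pool.K2S Pool.PB Pool.S6C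
open Pool.GEN Pool.CHT Pool.CHX Pool.ISO Pool.D2R Pool.D2Z Pool.D2F
open Pool.FLF (Fam.sub)
open Pool.D2T (sh sh_rt sh_deg)
open Pool.PB.Trl (rt rt_mem t_rt)

variable {m J : ℕ}

/-- **The last component of the relative gradient.** -/
theorem gnh_last {F : Fam m J} {c : ℕ → Fin m} {i : ℕ} (hi : 1 ≤ i)
    (hc : Set.InjOn c (Set.Iio i)) (γ : ℕ → ℕ)
    {G G' : PtT F → ℕ → MvPolynomial (Option (Fin m)) ℝ} (hG : ∀ y l, DepC c l (G y l))
    (hG' : ∀ y l, DepC c l (G' y l)) (ω : F.Ω) :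
    gnh F c i γ G G' ω (i - 1) = 2 ^ γ i / 2 ^ γ (i - 1) *
      (grd (G' (ptr F J ω) i) (bt F ω) (some (c (i - 1))) -
        grd (G (ptr F J ω) i) (bt F ω) (some (c (i - 1)))) := by
  have h := gnh_sum hc γ hG hG' ω (V := un (c (i - 1))) (un_none _)
  have hsmall : ∀ l < i, ∀ Q : MvPolynomial (Option (Fin m)) ℝ, DepC c l Q →
      dd Q (bt F ω) (un (c (i - 1))) = 0 := by
    intro l hl Q hQ
    rw [← cv_grd, cv_un]
    show eval (bt F ω) (pderiv (some (c (i - 1))) Q) = 0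
    rw [pd_zero' hQ (fun j hj he => ?_), map_zero]
    have := hc (Set.mem_Iio.2 (show j < i by omega)) (Set.mem_Iio.2 (show i - 1 < i by omega)) he
    omega
  have hL : dd (G' (ptr F J ω) i - G (ptr F J ω) i) (bt F ω) (un (c (i - 1))) =
      grd (G' (ptr F J ω) i) (bt F ω) (some (c (i - 1))) -
        grd (G (ptr F J ω) i) (bt F ω) (some (c (i - 1))) := by
    rw [← cv_grd, cv_un]
    show eval (bt F ω) (pderiv _ (_ - _)) = _
    rw [map_sub, map_sub]
    rfl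
  rw [hL, Finset.sum_eq_single (i - 1)] at h
  · rw [hsmall (i - 1) (by omega) _ (hG _ _), un, if_pos rfl, sub_zero, mul_one] at h
    rw [div_mul_eq_mul_div, eq_div_iff (by positivity), h]
  · intro j hj hne
    rw [mem_range] at hj
    rw [hsmall j hj _ (hG _ _), un, if_neg (fun he => hne (hc (Set.mem_Iio.2 hj)
      (Set.mem_Iio.2 (show i - 1 < i by omega)) (Option.some_injective _ he))), sub_zero,
      mul_zero, mul_zero]
  · intro h1
    exact absurd (mem_range.2 (by omega)) h1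

/-- The closed gradient of the chart of the target in the direction of the place `i - 1`, on the
window `t`: `mu` on the window `W`, relative to the closed chart `H` of the window `w`. -/
noncomputable def muC {F : Fam m J} (c : ℕ → Fin m) (t W w i : ℕ) (γ : ℕ → ℕ)
    (mu : LnT F → Polynomial ℝ) (H : LnT F → ℕ → MvPolynomial (Option (Fin m)) ℝ) (s : LnT F) :
    Polynomial ℝ :=
  Polynomial.C ((2 : ℝ) ^ γ (i - 1) / 2 ^ γ i) * sh (t - W) mu s +
    sh (t - w) (fun s => kpol c w (fun s => H s i) s (i - 1)) s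

theorem muC_deg {F : Fam m J} {c : ℕ → Fin m} {t W w i D D₁ : ℕ} {γ : ℕ → ℕ}
    {mu : LnT F → Polynomial ℝ} {H : LnT F → ℕ → MvPolynomial (Option (Fin m)) ℝ}
    (hm : ∀ s, (mu s).natDegree ≤ D₁) (hH : ∀ s, (H s i).totalDegree ≤ D) (s : LnT F) :
    (muC c t W w i γ mu H s).natDegree ≤ max D₁ D := by
  unfold muC
  refine (Polynomial.natDegree_add_le _ _).trans (max_le_max ?_ ?_)
  · exact (Polynomial.natDegree_C_mul_le _ _).trans (sh_deg _ hm s)
  · exact sh_deg _ (fun s => kpol_deg c w hH s (i - 1)) s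

theorem muC_rt (F : Fam m J) (c : ℕ → Fin m) {t W w i : ℕ} (hW : W ≤ t) (hw : w ≤ t)
    (ht : t ≤ J) (γ : ℕ → ℕ) (mu : LnT F → Polynomial ℝ)
    (H : LnT F → ℕ → MvPolynomial (Option (Fin m)) ℝ) (ω : F.Ω) :
    (muC c t W w i γ mu H (slam F t ω)).eval (rt F t ω) =
      2 ^ γ (i - 1) / 2 ^ γ i * (mu (slam F W ω)).eval (rt F W ω) +
        grd (H (slam F w ω) i) (bt F ω) (some (c (i - 1))) := by
  unfold muC
  rw [Polynomial.eval_add, Polynomial.eval_mul, Polynomial.eval_C, sh_rt F hW ht, sh_rt F hw ht,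
    kpol_rt F c (hw.trans ht)]

/-- **The closed gradient at the ball.** `w`: the window of the closed chart, `x`: the far window,
`K`: the ball. -/
theorem mu_pt {F : Fam m J} {c : ℕ → Fin m} {t W w i : ℕ} (hi : 1 ≤ i)
    (hc : Set.InjOn c (Set.Iio i)) (hW : W ≤ t) (hw : w ≤ t) (ht : t ≤ J) {γ γK : ℕ → ℕ}
    {Gw Gx GK : PtT F → ℕ → MvPolynomial (Option (Fin m)) ℝ}
    {H : LnT F → ℕ → MvPolynomial (Option (Fin m)) ℝ} (h1 : ∀ y l, DepC c l (Gw y l))
    (h2 : ∀ y l, DepC c l (Gx y l)) (h3 : ∀ y l, DepC c l (GK y l)) {ω : F.Ω}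
    (hH : Gw (ptr F J ω) i = H (slam F w ω) i) {mu : LnT F → Polynomial ℝ} {δ U : ℝ}
    (hg : |gnh F c i γ Gw Gx ω (i - 1) - (mu (slam F W ω)).eval (rt F W ω)| ≤ δ)
    (hU : |gnh F c i γK GK Gx ω (i - 1)| ≤ U) :
    |(muC c t W w i γ mu H (slam F t ω)).eval (rt F t ω) -
      grd (GK (ptr F J ω) i) (bt F ω) (some (c (i - 1)))| ≤
      2 ^ γ (i - 1) / 2 ^ γ i * δ + 2 ^ γK (i - 1) / 2 ^ γK i * U := by
  rw [muC_rt F c hW hw ht]
  rw [gnh_last hi hc γ h1 h2] at hg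
  rw [gnh_last hi hc γK h3 h2] at hU
  rw [hH] at hg
  obtain ⟨a, ha⟩ : ∃ a, a = grd (H (slam F w ω) i) (bt F ω) (some (c (i - 1))) := ⟨_, rfl⟩
  obtain ⟨b, hb⟩ : ∃ b, b = grd (Gx (ptr F J ω) i) (bt F ω) (some (c (i - 1))) := ⟨_, rfl⟩
  obtain ⟨d, hd⟩ : ∃ d, d = grd (GK (ptr F J ω) i) (bt F ω) (some (c (i - 1))) := ⟨_, rfl⟩
  obtain ⟨p, hp⟩ : ∃ p, p = (mu (slam F W ω)).eval (rt F W ω) := ⟨_, rfl⟩
  rw [← ha, ← hb, ← hp] at hg
  rw [← hd, ← hb] at hU
  rw [← ha, ← hp, ← hd]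
  obtain ⟨ρ, hρ⟩ : ∃ ρ : ℝ, ρ = 2 ^ γ (i - 1) / 2 ^ γ i := ⟨_, rfl⟩
  obtain ⟨ρK, hρK⟩ : ∃ ρ : ℝ, ρ = 2 ^ γK (i - 1) / 2 ^ γK i := ⟨_, rfl⟩
  have hρ0 : 0 < ρ := by rw [hρ]; positivity
  have hρK0 : 0 < ρK := by rw [hρK]; positivity
  have e1 : (2 : ℝ) ^ γ i / 2 ^ γ (i - 1) = 1 / ρ := by rw [hρ, one_div_div]
  have e2 : (2 : ℝ) ^ γK i / 2 ^ γK (i - 1) = 1 / ρK := by rw [hρK, one_div_div]
  rw [e1] at hg
  rw [e2] at hU
  rw [← hρ, ← hρK]
  have k1 : |(b - a) - ρ * p| ≤ ρ * δ := by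
    have : (b - a) - ρ * p = ρ * (1 / ρ * (b - a) - p) := by field_simp
    rw [this, abs_mul, abs_of_pos hρ0]
    exact mul_le_mul_of_nonneg_left hg hρ0.le
  have k2 : |b - d| ≤ ρK * U := by
    have : b - d = ρK * (1 / ρK * (b - d)) := by field_simp
    rw [this, abs_mul, abs_of_pos hρK0]
    exact mul_le_mul_of_nonneg_left hU hρK0.le
  have : ρ * p + a - d = -((b - a) - ρ * p) + (b - d) := by ring
  rw [this]
  refine (abs_add_le _ _).trans (add_le_add ?_ k2)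
  rw [abs_neg]
  exact k1

end Pool.TN
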