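import Pool.Agent.H88.D2.Ssa
import Pool.Agent.H60.ASM.GnM

/-!
# The cell `[one, sta, sta]` of the assembly

`c1ss_of`: the cell `LCellM 4 [one, sta, sta]` from one part, the class theorem of the cell of the slopes
`1, 2, 2` and a target of slope larger than two.
-/

set_option autoImplicit false

namespace Pool.ASM

open MeasureTheory Set Filter Topology
open Pool.GEN Pool.PKG Pool.SW
open Pool.ONE (Ext0 Ext)
open Pool.MIC6

/-- **The part**: the class theorem of the cell of the slopes `1, 2, 2` and a target of slope larger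
than two, with a property which holds at almost every window. -/
def PartSS : Prop := ∃ (ι : Type) (_ : Countable ι) (Q : PropG 4 ι),
  ((∀ k, 1 ≤ k → k < 4 → FZX k) → AePG 4 Q) ∧
  ∀ h : ℝ, 0 < h → h ≤ 1 → ∀ Sl : ℕ → ℝ, Sl 0 = 1 → Sl 1 = 2 → Sl 2 = 2 → 2 < Sl 3 →
    (∀ l < 4, 1 ≤ Sl l) → CelQI 4 3 h Sl (kgL [.one, .sta, .sta]) Q

/-- **The cell** `[one, sta, sta]`, all classes. -/
theorem c1ssA_of (H : PartSS) : LCellA 4 [Kd.one, Kd.sta, Kd.sta] := by
  obtain ⟨ι, hι, Q, hQ, hSS⟩ := H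
  exact lCellA_ss le_rfl hQ hSS

/-- **The cell** `[one, sta, sta]` of the assembly. -/
theorem c1ss_of (H : PartSS) : LCellM 4 [Kd.one, Kd.sta, Kd.sta] := (c1ssA_of H).v.m

end Pool.ASM
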