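import Pool.Agent.H88.D2.Stw

/-!
# One rough and one static coordinate: the numbers near a good window

`stvN_of`: the numbers `StvN` from levels which are affine up to small errors.
-/

set_option autoImplicit false

namespace Pool.JST

open Finset Real MvPolynomial
open Pool.Agent.H49.Ent Pool.Agent.H32.Dense Pool.STK Pool.KA Pool.KSAT Pool.K2S Pool.PB Pool.S6C
open Pool.GEN Pool.CHT Pool.CHX Pool.ISO Pool.D2R Pool.D2Z Pool.D2F Pool.RCV Pool.AFT
open Pool.LBT (ThrOf)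
open Pool.FLF (Fam.sub)

variable {m J : ℕ}

/-- **The numbers of the cell.** `q`: the unit; windows `t - ρ q`, `t`, `t + q`, `t + 2 q`, radius
`t + A q`; `x`: the error of the levels; `ζ`: the loss. -/
theorem stvN_of {P : List (Fin m) × Fin m → ℝ → ℝ → ℝ} {c : ℕ → Fin m}
    {C ζ Eb e h t q ρ A s b δ x u : ℝ} {a' w' : ℚ} {o : ℕ → ℝ} {lv : ℕ → ℕ → ℝ}
    {be p : ℕ → ℝ} {Λ : ℕ → ℝ} (hC : 1 ≤ C) (hEb : 0 ≤ Eb) (hq : 0 < q) (hζ : 0 < ζ)
    (hxζ : 256 * x ≤ ζ) (huζ : 32 * u ≤ ζ) (hCζ : 8 * (C * ζ) ≤ q)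
    (hCδ : 8 * (C * ζ) ≤ δ * q) (hA : 3 ≤ A) (hs : 2 ≤ s) (hb : b ≤ A)
    (hρ : s * A + b ≤ ρ) (hb2 : 2 ≤ b)
    (o0 : o 0 = t - ρ * q) (o1 : o 1 = t) (o2 : o 2 = t + q) (o3 : o 3 = t + 2 * q)
    (ht : q ≤ o 0) (ha1 : t + A * q ≤ 1)
    (h0 : ∀ j < 4, |lv j 0 - Λ 0 - (o j - t)| ≤ x)
    (h1 : ∀ j < 4, |lv j 1 - Λ 1 - s * (o j - t)| ≤ x)
    (h2 : ∀ j < 4, |lv j 2 - Λ 2 - b * (o j - t)| ≤ x)
    (hbe : ∀ j < 4, |be j - Λ 1 - s * (A * q)| ≤ 2 * x)
    (hlow : ∀ j < 4, ∀ l < 3, o j ≤ lv j l)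
    (hroom : ∀ j < 4, ∀ l < 3, Eb + lv j l + 3 * ((ρ + A) * q) ≤ 1)
    (hbr : ∀ j < 4, Eb + be j + q ≤ 1) (hb0 : q ≤ be 0)
    (hp1 : Λ 2 + 2 * (A * q) - 4 * x - u ≤ p 1) (hpj : ∀ j < 4, 1 ≤ j → q ≤ p j)
    (hEe : Eb + q ≤ e) (hw' : t ≤ w') (hwa : w' ≤ a') (ha' : t + q ≤ a')
    (ha'1 : a' < 1)
    (f0 : bet P c 0 a' a' ≤ lv 2 0 + ζ / 16) (f1 : bet P c 1 a' a' ≤ lv 2 1 + ζ / 16)
    (f2 : bet P c 2 a' w' + δ * q ≤ lv 2 2 + ζ / 16) (hhζ : 16 * h ≤ ζ)
    (hbt0 : 0 ≤ bet P c 0 a' a') (hbt1 : 0 ≤ bet P c 1 a' a') (hbt2 : 0 ≤ bet P c 2 a' w') :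
    StvN P c C ζ Eb e h (t + A * q) a' w' o lv be p := by
  have hζC : ζ ≤ C * ζ := le_mul_of_one_le_left hζ.le hC
  have ha'R : (a' : ℝ) < 1 := by exact_mod_cast ha'1
  have hwR : (w' : ℝ) ≤ a' := by exact_mod_cast hwa
  have hAq : 3 * q ≤ A * q := mul_le_mul_of_nonneg_right hA hq.le
  have hsA : 2 * (A * q) ≤ s * (A * q) := mul_le_mul_of_nonneg_right hs (by linarith)
  have hbq : b * q ≤ A * q := mul_le_mul_of_nonneg_right hb hq.le
  have hb2q : 2 * q ≤ b * q := mul_le_mul_of_nonneg_right hb2 hq.le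
  have hρq : s * (A * q) + b * q ≤ ρ * q := by
    have := mul_le_mul_of_nonneg_right hρ hq.le
    linarith
  have hsq : 2 * q ≤ s * q := mul_le_mul_of_nonneg_right hs hq.le
  have hsAq : s * q * 3 ≤ s * (A * q) := by
    have := mul_le_mul_of_nonneg_left hAq (by linarith : 0 ≤ s)
    linarith
  have hsA2 : A * q + 2 * (s * q) ≤ 2 * q + s * (A * q) := by
    have : 0 ≤ (s - 1) * ((A - 2) * q) :=
      mul_nonneg (by linarith) (mul_nonneg (by linarith) hq.le)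
    linarith
  have e0 : o 0 - t = -(ρ * q) := by rw [o0]; ring
  have e1 : o 1 - t = 0 := by rw [o1]; ring
  have e2 : o 2 - t = q := by rw [o2]; ring
  have e3 : o 3 - t = 2 * q := by rw [o3]; ring
  have a00 := abs_le.1 (h0 0 (by norm_num))
  have a01 := abs_le.1 (h0 1 (by norm_num))
  have a02 := abs_le.1 (h0 2 (by norm_num))
  have a03 := abs_le.1 (h0 3 (by norm_num))
  have a10 := abs_le.1 (h1 0 (by norm_num))
  have a11 := abs_le.1 (h1 1 (by norm_num))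
  have a12 := abs_le.1 (h1 2 (by norm_num))
  have a13 := abs_le.1 (h1 3 (by norm_num))
  have a22 := abs_le.1 (h2 2 (by norm_num))
  have c0 := abs_le.1 (hbe 0 (by norm_num))
  have c1 := abs_le.1 (hbe 1 (by norm_num))
  have c2 := abs_le.1 (hbe 2 (by norm_num))
  have c3 := abs_le.1 (hbe 3 (by norm_num))
  rw [e0] at a00 a10
  rw [e1] at a01 a11
  rw [e2] at a02 a12 a22
  rw [e3] at a03 a13
  have hlt4 : ∀ {φ : ℕ → Prop}, φ 0 → φ 1 → φ 2 → φ 3 → ∀ j < 4, φ j := by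
    intro φ p0 p1 p2 p3 j hj
    interval_cases j
    exacts [p0, p1, p2, p3]
  have hρ0 : 0 ≤ ρ * q := by linarith
  have r2 := hroom 2 (by norm_num)
  have hr := fun (l : ℕ) (hl : l < 3) => r2 l hl
  have hoj : ∀ j < 4, q ≤ o j := hlt4 ht (by rw [o1]; linarith) (by rw [o2]; linarith)
    (by rw [o3]; linarith)
  constructor
  · rw [o0, o1]; linarith
  · rw [o1, o2]; linarith
  · rw [o2, o3]; linarith
  · rw [o3]; linarith
  · exact ha1
  · exact hwa
  · have : (0 : ℝ) ≤ w' := by linarith [hoj 1 (by norm_num)]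
    exact_mod_cast this
  · exact ha'1
  · rw [o2]; exact ha'
  · rw [o1]; exact hw'
  · linarith
  · linarith
  · linarith
  · exact fun j hj hj1 => by linarith [hpj j hj hj1]
  · linarith
  · exact fun j hj l hl => by linarith [hlow j hj l hl, hoj j hj]
  · exact fun j hj l hl => by linarith [hroom j hj l hl]
  · have := hroom 0 (by norm_num) 0 (by norm_num)
    rw [o0]
    linarith
  · linarith [hbr 0 (by norm_num)]
  · refine hlt4 ?_ ?_ ?_ ?_
    · rw [sub_self, abs_zero]; linarith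
    · rw [o0, o1, abs_le]; constructor <;> linarith
    · rw [o0, o2, abs_le]; constructor <;> linarith
    · rw [o0, o3, abs_le]; constructor <;> linarith
  · refine hlt4 (fun h => absurd h (by norm_num)) (fun h => absurd h (by norm_num))
      (fun _ => ?_) (fun _ => ?_)
    · rw [o0]; linarith
    · rw [o0]; linarith
  · rw [o0]; linarith
  · linarith
  · rw [o0, o1]; linarith
  · rw [o0, o1, o2]; linarith
  · rw [o2, o3]; linarith
  · rw [o2]; linarith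
  · rw [o2]; linarith
  · rw [o2]; linarith
  · have := hr 0 (by norm_num)
    linarith
  · have := hr 1 (by norm_num)
    linarith
  · have := hr 2 (by norm_num)
    linarith
  · exact hbt0
  · exact hbt1
  · exact hbt2

end Pool.JST
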