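import Pool.Agent.H88.D2.Sto
import Pool.Agent.H88.D2.Stq
import Pool.Agent.H23.D2.Rcq

/-!
# The cell with one rough and one static coordinate before the target

`cellQ_sta`: the class theorem of the cell. `lCellA_sta`: the cell for all classes.
-/

set_option autoImplicit false

namespace Pool.JST

open Finset Real MvPolynomial
open Pool.Agent.H49.Ent Pool.Agent.H32.Dense Pool.STK Pool.KA Pool.KSAT Pool.K2S Pool.PB Pool.S6C
open Pool.GEN Pool.CHT Pool.CHX Pool.ISO Pool.D2R Pool.D2Z Pool.D2F Pool.RCV Pool.AFT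
open Pool.LBT (ThrOf)
open Pool.LEV (Law)
open Pool.FLF (Fam.sub)
open Pool.PKG (PtI KdQ Kd CellQ)

/-- The offsets of the windows. -/
noncomputable def vst (ρ : ℝ) (k : ℕ) : ℝ :=
  if k = 0 then -ρ else if k = 2 then 1 else if k = 3 then 2 else 0

/-- The offsets of the radii. -/
noncomputable def ast (A : ℝ) (k : ℕ) : ℝ := if k < 4 then A else 1

/-- **The cell with one rough and one static coordinate before the target**, class theorem. -/
theorem cellQ_sta (n : ℕ) (Sl : ℕ → ℝ) (κ : ℕ → Kd) (hκ0 : κ 0 = .one) (hκ1 : κ 1 = .sta) :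
    CellQ n 2 Sl κ := by
  intro δ hδ S₀ hS₀
  obtain ⟨s, hs⟩ : ∃ s, s = max (Sl 1) 2 := ⟨_, rfl⟩
  obtain ⟨b, hb⟩ : ∃ b, b = max (Sl 2) 2 := ⟨_, rfl⟩
  have hs2 : 2 ≤ s := by rw [hs]; exact le_max_right _ _
  have hb2 : 2 ≤ b := by rw [hb]; exact le_max_right _ _
  obtain ⟨A, hA⟩ : ∃ A, A = b + 1 := ⟨_, rfl⟩
  obtain ⟨ρ, hρ⟩ : ∃ ρ, ρ = s * A + b := ⟨_, rfl⟩
  have hA3 : 3 ≤ A := by linarith
  have hsA : 0 ≤ s * A := mul_nonneg (by linarith) (by linarith)
  obtain ⟨K, hK⟩ : ∃ K, K = ρ + A + 1 := ⟨_, rfl⟩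
  have hρ0 : 2 ≤ ρ := by linarith
  have hK1 : 1 ≤ K := by linarith
  have hv : ∀ k, -ρ ≤ vst ρ k ∧ vst ρ k ≤ 2 := by
    intro k
    unfold vst
    split_ifs <;> constructor <;> linarith
  have v0 : vst ρ 0 = -ρ := by simp [vst]
  have v1 : vst ρ 1 = 0 := by simp [vst]
  have v2 : vst ρ 2 = 1 := by simp [vst]
  have v3 : vst ρ 3 = 2 := by simp [vst]
  have v4 : vst ρ 4 = 0 := by simp [vst]
  have hat : ∀ k < 4, ast A k = A := fun k hk => by unfold ast; rw [if_pos hk]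
  have a4 : ast A 4 = 1 := by simp [ast]
  refine ⟨K, 5, ast A, vst ρ, hK1, ?_, ?_⟩
  · intro k hk
    have := hv k
    refine ⟨by linarith, ?_, ?_⟩
    · rcases Nat.lt_or_ge k 4 with h | h
      · rw [hat k h]
        linarith
      · have h4 : k = 4 := by omega
        rw [h4, a4, v4]
        exact zero_le_one
    · rcases Nat.lt_or_ge k 4 with h | h
      · rw [hat k h]
        linarith
      · have h4 : k = 4 := by omega
        rw [h4, a4]
        exact hK1
  intro S₂ hS₂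
  refine ⟨0, fun _ => 0, fun k hk => absurd hk (Nat.not_lt_zero k), ?_⟩
  -- the constants
  obtain ⟨D, hD, hwin⟩ := Pool.D2R.RecQ.wins n 2 S₂ (by norm_num) (hS₀.trans hS₂)
  obtain ⟨C₀, CB, hC₀, -, hwin⟩ := hwin D le_rfl
  obtain ⟨Cs, hCs, hstv⟩ := stv_win n D D hD le_rfl
  obtain ⟨Cn, hCn, hnat⟩ := sto_nat n D hD
  have hCnR : (1 : ℝ) ≤ Cn := by exact_mod_cast hCn
  obtain ⟨δ', hδ'⟩ : ∃ δ', δ' = min δ 1 := ⟨_, rfl⟩
  have hδ0 : 0 < δ' := by rw [hδ']; exact lt_min hδ one_pos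
  have hδ1 : δ' ≤ 1 := by rw [hδ']; exact min_le_right _ _
  have hδδ : δ' ≤ δ := by rw [hδ']; exact min_le_left _ _
  obtain ⟨z, hz⟩ : ∃ z, z = δ' / (16 * Cs) := ⟨_, rfl⟩
  have hz0 : 0 < z := by rw [hz]; positivity
  have hCz : 16 * (Cs * z) = δ' := by
    rw [hz]
    field_simp
  obtain ⟨zn, hzn⟩ : ∃ zn, zn = z / (16 * Cn) := ⟨_, rfl⟩
  have hzn0 : 0 < zn := by rw [hzn]; positivity
  have hCzn : 16 * (Cn * zn) = z := by
    rw [hzn]
    field_simp
  obtain ⟨y, hy⟩ : ∃ y, y = zn / (64 * C₀) := ⟨_, rfl⟩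
  have hy0 : 0 < y := by rw [hy]; positivity
  have hCy : 64 * (C₀ * y) = zn := by
    rw [hy]
    field_simp
  obtain ⟨ε, hε⟩ : ∃ ε, ε = y / (64 * C₀) := ⟨_, rfl⟩
  have hε0 : 0 < ε := by rw [hε]; positivity
  have hCε : 64 * (C₀ * ε) = y := by
    rw [hε]
    field_simp
  have hzCz : z ≤ Cs * z := le_mul_of_one_le_left hz0.le hCs
  have hznC : zn ≤ Cn * zn := le_mul_of_one_le_left hzn0.le hCnR
  have hyC : y ≤ C₀ * y := le_mul_of_one_le_left hy0.le hC₀
  have hεC : ε ≤ C₀ * ε := le_mul_of_one_le_left hε0.le hC₀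
  refine ⟨ε, hε0, ?_⟩
  intro S P P₂ θ θ₂ c Pt L T Eb e₂ q t R
  by_contra hcon
  have hcon := not_le.1 hcon
  -- the record
  have hq := R.q0
  have hEb := R.Eb0
  have e1 : Sl 0 = 1 := by
    have := R.kd 0 (by norm_num)
    rw [hκ0] at this
    exact this
  have h1 := R.kd 1 (by norm_num)
  rw [hκ1] at h1
  obtain ⟨h11, h12⟩ := h1
  have es : s = Sl 1 := by rw [hs]; exact max_eq_left h11
  have eb : b = Sl 2 := by rw [hb]; exact max_eq_left R.s2.le
  have hx : 0 < ε * q := mul_pos hε0 hq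
  have hKq : K * q = ρ * q + A * q + q := by rw [hK]; ring
  have hAq : 3 * q ≤ A * q := mul_le_mul_of_nonneg_right hA3 hq.le
  have hρq : 2 * q ≤ ρ * q := mul_le_mul_of_nonneg_right hρ0 hq.le
  have ht0 := R.t0
  have ht1 := R.t1
  have h3K : 3 * K * q = 3 * (ρ * q + A * q + q) := by rw [← hKq]; ring
  obtain ⟨o, ho⟩ : ∃ o : ℕ → ℝ, o = fun k => t + vst ρ k * q := ⟨_, rfl⟩
  have o0 : o 0 = t - ρ * q := by rw [ho]; simp only [v0]; ring
  have o1 : o 1 = t := by rw [ho]; simp only [v1]; ring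
  have o2 : o 2 = t + q := by rw [ho]; simp only [v2]; ring
  have o3 : o 3 = t + 2 * q := by rw [ho]; simp only [v3]
  have hov : ∀ k, t + vst ρ k * q = o k := fun k => by rw [ho]
  have hlt4 : ∀ {φ : ℕ → Prop}, φ 0 → φ 1 → φ 2 → φ 3 → ∀ j < 4, φ j := by
    intro φ p0 p1 p2 p3 j hj
    interval_cases j
    exacts [p0, p1, p2, p3]
  have hob : ∀ j < 4, t - ρ * q ≤ o j ∧ o j ≤ t + 2 * q :=
    hlt4 (by rw [o0]; constructor <;> linarith) (by rw [o1]; constructor <;> linarith)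
      (by rw [o2]; constructor <;> linarith) (by rw [o3]; constructor <;> linarith)
  have hox : ∀ j < 4, |o j - t| ≤ K * q := fun j hj => by
    have := hob j hj
    rw [abs_le]
    constructor <;> linarith
  have hax : |t + A * q - t| ≤ K * q := by
    rw [abs_le]
    constructor <;> linarith
  have htx : |t - t| ≤ K * q := by
    rw [sub_self, abs_zero]
    linarith
  have hz1 : z * q ≤ Cs * z * q := mul_le_mul_of_nonneg_right hzCz hq.le
  have hCzq : 16 * (Cs * (z * q)) = δ' * q := by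
    rw [← hCz]
    ring
  have hδq : δ' * q ≤ δ * q := mul_le_mul_of_nonneg_right hδδ hq.le
  have hδq1 : δ' * q ≤ q := by
    have := mul_le_mul_of_nonneg_right hδ1 hq.le
    linarith
  have hzq : 0 < z * q := mul_pos hz0 hq
  have hznq : 0 < zn * q := mul_pos hzn0 hq
  have hyq : 0 < y * q := mul_pos hy0 hq
  have hCznq : 16 * (Cn * (zn * q)) = z * q := by
    rw [← hCzn]
    ring
  have hCyq : 64 * (C₀ * (y * q)) = zn * q := by
    rw [← hCy]
    ring
  have hCεq : 64 * (C₀ * (ε * q)) = y * q := by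
    rw [← hCε]
    ring
  have q1 : z * q ≤ Cs * (z * q) := le_mul_of_one_le_left hzq.le hCs
  have q2 : zn * q ≤ Cn * (zn * q) := le_mul_of_one_le_left hznq.le hCnR
  have q3 : y * q ≤ C₀ * (y * q) := le_mul_of_one_le_left hyq.le hC₀
  have q4 : ε * q ≤ C₀ * (ε * q) := le_mul_of_one_le_left hx.le hC₀
  have hPt : L 2 = Pt := by
    rw [R.lv 2 le_rfl]
    funext a w
    unfold lvN
    rw [if_neg (lt_irrefl 2)]
  -- the levels
  have hpk : ∀ j < 4, PtI S P θ c 2 Pt S₂ Eb (t + A * q) (o j) ∧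
      PtI S P θ c 2 Pt S₂ Eb (o j) (o j) := fun j hj => by
    have := R.pt j (by omega)
    rwa [hat j hj, hov j] at this
  have hlow : ∀ j < 4, ∀ l < 3, o j ≤ L l (o j) (o j) := fun j hj l hl => by
    obtain ⟨r', vs, e, e₀, E, sg, Q, d1, -⟩ := (hpk j hj).2
    rw [R.lv l (by omega)]
    exact d1.low R.thr l
  have hPta : ∀ j < 4, t + A * q ≤ L 2 (t + A * q) (o j) := fun j hj => by
    obtain ⟨r', vs, e, e₀, E, sg, Q, d1, -⟩ := (hpk j hj).1
    rw [hPt]
    exact d1.self.low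
  have hro : ∀ l < 3, ∀ x : ℝ, |x - t| ≤ K * q → L l x x + Eb + 3 * (ρ * q + A * q + q) < 1 :=
    fun l hl x hx => by
      have := R.room l (by omega) x hx
      rwa [h3K] at this
  have hbe : ∀ j < 4, L 1 (t + A * q) (t + A * q) ≤ L 1 (t + A * q) (o j) + ε * q ∧
      L 1 (t + A * q) (o j) ≤ L 1 (t + A * q) (t + A * q) := fun j hj => by
    have h3 := hob j hj
    exact ⟨h12 _ _ (by linarith) (by linarith) (by linarith),
      (R.lawL 1 (by norm_num)).mono_w _ _ _ (by linarith) (by linarith) le_rfl (by linarith)⟩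
  have hdA := abs_le.1 (R.dL 1 (by norm_num) _ hax)
  have hdA' : t + A * q - t = A * q := by ring
  rw [hdA', ← es] at hdA
  have hstp := R.stp (t + A * q) (o 1) (by rw [o1]; linarith) (by rw [o1]; linarith)
    (by linarith)
  have hTL := (R.TL 1 (by norm_num) 2 le_rfl).1
  rw [hat 1 (by norm_num), hov 1] at hTL
  have hdT := abs_le.1 (R.dT 2 le_rfl t htx)
  rw [sub_self, mul_zero, sub_zero] at hdT
  rw [o1] at hstp hTL
  -- the rational pair
  obtain ⟨d, hd, hrat⟩ := R.rat 4 (by norm_num) (zn * q / 16) (by positivity)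
  rw [a4, v4, one_mul, zero_mul, add_zero] at hrat
  obtain ⟨w', hw'1, hw'2⟩ := exists_rat_btwn (show t < t + min d q by
    linarith [lt_min hd hq])
  obtain ⟨a', ha'1, ha'2⟩ := exists_rat_btwn (show t + q < t + q + min d q by
    linarith [lt_min hd hq])
  have hdm : min d q ≤ d := min_le_left _ _
  have hqm : min d q ≤ q := min_le_right _ _
  have hwaR : (w' : ℝ) ≤ a' := by linarith
  have hwa : w' ≤ a' := by exact_mod_cast hwaR
  obtain ⟨rt1, -, rt2⟩ := hrat a' w' ha'1.le (by linarith) hw'1.le (by linarith) hwaR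
  have ha'R : (a' : ℝ) < 1 := by linarith
  have ha'1' : a' < 1 := by exact_mod_cast ha'R
  have hw'x : |(w' : ℝ) - t| ≤ K * q := by
    rw [abs_le]
    constructor <;> linarith
  have ha'x : |(a' : ℝ) - t| ≤ K * q := by
    rw [abs_le]
    constructor <;> linarith
  have hw'0 : (0 : ℝ) ≤ w' := by linarith
  have ha'0 : (0 : ℝ) ≤ a' := by linarith
  have hEbe := R.Ebe
  rw [h3K] at hEbe
  have hbt : ∀ l w, (0 : ℝ) ≤ w → w ≤ a' → 0 ≤ bet P₂ c l a' w := fun l w hw hwa' =>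
    ha'0.trans (R.thr₂.low _ _ _ hw hwa' ha'R.le)
  obtain ⟨h, hh⟩ : ∃ h : ℝ, h = zn * q / 16 := ⟨_, rfl⟩
  have hh0 : 0 < h := by rw [hh]; positivity
  have rt20 := rt2 0 (by norm_num)
  have rt21 := rt2 1 (by norm_num)
  have g0 := hro 0 (by norm_num) _ (hox 2 (by norm_num))
  have g1 := hro 1 (by norm_num) _ (hox 2 (by norm_num))
  have g2 := hro 2 (by norm_num) _ (hox 2 (by norm_num))
  have d20 := abs_le.1 (R.dL 0 (by norm_num) _ (hox 2 (by norm_num)))
  have d30 := abs_le.1 (R.dL 0 (by norm_num) _ (hox 3 (by norm_num)))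
  have d21 := abs_le.1 (R.dL 1 (by norm_num) _ (hox 2 (by norm_num)))
  have d31 := abs_le.1 (R.dL 1 (by norm_num) _ (hox 3 (by norm_num)))
  have h02 := hlow 2 (by norm_num) 0 (by norm_num)
  have m2 : o 2 - t = q := by rw [o2]; ring
  have m3 : o 3 - t = 2 * q := by rw [o3]; ring
  have msq : 2 * q ≤ s * q := mul_le_mul_of_nonneg_right hs2 hq.le
  rw [e1, one_mul, m2] at d20
  rw [e1, one_mul, m3] at d30
  rw [← es, m2] at d21
  rw [← es, m3] at d31
  have hN : StvN P₂ c Cs (z * q) Eb e₂ h (t + A * q) a' w' o (fun j l => L l (o j) (o j))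
      (fun j => L 1 (t + A * q) (o j))
      (fun j => L 2 (t + A * q) (o j) - 2 * (C₀ * (y * q))) := by
    refine stvN_of (ρ := ρ) (s := s) (b := b) (δ := δ) (x := ε * q) (u := 2 * (C₀ * (y * q)))
      (Λ := fun l => L l t t) hCs hEb.le hq hzq (by linarith) (by linarith) (by linarith)
      (by linarith) hA3 hs2 (by linarith) (by rw [hρ]) hb2 o0 o1 o2 o3
      (by rw [o0]; linarith) (by linarith) (fun j hj => ?_) (fun j hj => ?_) (fun j hj => ?_)
      (fun j hj => ?_) hlow (fun j hj l hl => ?_) (fun j hj => ?_) ?_ ?_ (fun j hj hj1 => ?_)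
      (by linarith) hw'1.le hwa ha'1.le ha'1' ?_ ?_ ?_ (by rw [hh]; linarith)
      (hbt 0 a' ha'0 le_rfl) (hbt 1 a' ha'0 le_rfl) (hbt 2 w' hw'0 hwaR)
    · have := R.dL 0 (by norm_num) _ (hox j hj)
      rwa [e1, one_mul] at this
    · have := R.dL 1 (by norm_num) _ (hox j hj)
      rwa [← es] at this
    · have := R.dL 2 (by norm_num) _ (hox j hj)
      rwa [← eb] at this
    · have h3 := hbe j hj
      rw [abs_le]
      constructor <;> linarith
    · have h3 := hro l hl _ (hox j hj)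
      have h4 : 3 * ((ρ + A) * q) = 3 * (ρ * q + A * q) := by ring
      rw [h4]
      linarith
    · have h3 := hro 1 (by norm_num) _ hax
      have h4 := hbe j hj
      linarith
    · have h3 := hbe 0 (by norm_num)
      have h4 := hlow 1 (by norm_num) 1 (by norm_num)
      rw [o1] at h4
      have h5 : 2 * (A * q) ≤ s * (A * q) := mul_le_mul_of_nonneg_right hs2 (by linarith)
      linarith
    · rw [o1]
      linarith
    · have h3 := hPta j hj
      linarith
    · rw [o2]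
      linarith
    · rw [o2]
      linarith
    · rw [o2]
      linarith
  -- the windows
  obtain ⟨K₁, bb, hK₁, hwin⟩ := hwin R hS₂ hε0.le A y (1 / 2) 3 3 0 (vst ρ) (fun l => l = 0) hK1
    hy0 (by linarith) (by linarith) (by norm_num) le_rfl (by linarith)
    (fun k hk => ⟨k, by omega, hat k (by omega), rfl⟩)
    (fun k hk => by
      have := hv k
      constructor <;> linarith)
    (fun k h1 h2 => absurd h1 (by omega))
    (fun l _ h => Or.inl (by
      have h3 : l = 0 := h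
      rw [h3]
      exact hκ0))
  have e₂a : e₂ < θ₂ * a' := R.e₂θ _ ha'x
  obtain ⟨κn, hκn, hnat⟩ := hnat (S := S) (P := P₂) (θ := θ₂) (c := c) (R := fun l => l = 0)
    (C₀ := C₀) (a := t + A * q) (Eb := Eb) (ηm := y * q) (ζ := zn * q) (e := e₂) (h := h)
    (κ₀ := 1 / K₁) (o := o) (ε := fun _ => 3 * ε * q)
    (p' := fun k => L 2 (t + A * q) (o k) - 2 * (C₀ * (y * q))) (η := fun _ => y * q)
    (σ := fun _ => y * q) (lv := fun k l => L l (o k) (o k))
    (be := fun k l => L l (t + A * q) (o k)) (Dr := D) (N := 3) (M := 0) (k := 2) (k' := 3)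
    (W := a') R.thr₂ R.tmh R.inj le_rfl (by norm_num) le_rfl hh0 hznq (by positivity)
    (by linarith) (by exact_mod_cast ha'0) ha'1' e₂a (by linarith) (by rw [o2]; exact ha'1.le)
    (by rw [o2, o3]; linarith) (fun l hl => by
      show bet P₂ c l a' a' + h ≤ 1 ∧ bet P₂ c l a' a' + h + o 2 ≤ L l (o 2) (o 2) + a' + zn * q
      have h3 := rt2 l (by omega)
      have h4 := hro l (by omega) _ (hox 2 (by norm_num))
      rw [← o2] at h3
      constructor
      · rw [hh]; linarith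
      · rw [hh]; linarith [o2]) (fun l hl => by
      show Eb + L l (o 2) (o 2) + Cn * (zn * q) ≤ 1
      have h4 := hro l (by omega) _ (hox 2 (by norm_num))
      linarith) (fun l hl => by
      show Eb + L l (o 3) (o 3) + Cn * (zn * q) ≤ 1
      have h4 := hro l (by omega) _ (hox 3 (by norm_num))
      linarith) (by
      show Cn * (zn * q) ≤ L 0 (o 2) (o 2)
      linarith) (by
      show |(L 0 (o 2) (o 2) - o 2) - (L 0 (o 3) (o 3) - o 3)| ≤ zn * q
      rw [abs_le]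
      constructor <;> linarith) (by
      show L 1 (o 2) (o 2) - o 2 + Cn * (zn * q) ≤ L 1 (o 3) (o 3) - o 3
      linarith)
  have hstv := hstv (S := S) (P := P₂) (θ := θ₂) (c := c) (R := fun l => l = 0) (C₀ := C₀)
    (a := t + A * q) (Eb := Eb) (ηm := y * q) (ζ := z * q) (h := h) (e := e₂)
    (κ := 1 / (K₁ * Cn)) (o := o) (ε := fun _ => 3 * ε * q)
    (p' := fun k => L 2 (t + A * q) (o k) - 2 * (C₀ * (y * q))) (η := fun _ => y * q)
    (σ := fun _ => y * q) (lv := fun k l => L l (o k) (o k))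
    (be := fun k l => L l (t + A * q) (o k)) (N := 3) (M := 0) (f := fun j => j) (a' := a')
    (w' := w') R.thr₂ R.tmh R.inj (fun j hj => by omega) rfl (by norm_num) hzq hh0
    (by positivity) R.th₂0.le (R.e₂θ _ hw'x) (by linarith) hN
  obtain ⟨J₁, hJ₁⟩ := exists_nat_ge (4 / q)
  obtain ⟨κw, hκw⟩ : ∃ κw : ℝ, κw = min κn (1 / (Cn * 2 ^ 24)) := ⟨_, rfl⟩
  have hκw0 : 0 < κw := by rw [hκw]; exact lt_min hκn (by positivity)
  have key : Bas S (fun _ _ _ => False) := by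
    refine Bas.mono J₁ ((hwin κw hκw0).and (hnat.and hstv)) ?_
    rintro J hJ F A₀ ⟨hw, hn, hs⟩
    have hp := Pe_nonneg F.isLaw
    have hJ0 : (0 : ℝ) ≤ J := Nat.cast_nonneg J
    have hqJ : 4 ≤ q * J := by
      have h1 : (J₁ : ℝ) ≤ J := by exact_mod_cast hJ
      have h2 := hJ₁.trans h1
      rw [div_le_iff₀ hq] at h2
      linarith
    obtain ⟨zz, hzz⟩ : ∃ zz : ℕ → ℕ → ℕ, zz = fun k _ => if k = 2 then
      ⌊o 3 * J⌋₊ - ⌊o 2 * J⌋₊ else ⌊(t + A * q) * J⌋₊ - ⌊o k * J⌋₊ := ⟨_, rfl⟩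
    have hfl : ∀ {x y : ℝ}, 0 ≤ y → y + q ≤ x →
        1 / 2 * q * J ≤ ((⌊x * J⌋₊ - ⌊y * J⌋₊ : ℕ) : ℝ) := by
      intro x y hy hxy
      have h1 : y * J + q * J ≤ x * J := by
        have := mul_le_mul_of_nonneg_right hxy hJ0
        linarith
      have h2 : ⌊y * J⌋₊ ≤ ⌊x * J⌋₊ := Nat.floor_le_floor (by linarith)
      rw [Nat.cast_sub h2]
      have h3 := Nat.floor_le (mul_nonneg hy hJ0)
      have h4 := (Nat.lt_floor_add_one (x * (J : ℝ))).le
      linarith
    have hz2 : zz 2 0 = ⌊o 3 * J⌋₊ - ⌊o 2 * J⌋₊ := by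
      rw [hzz]
      simp
    have hzr : ∀ k ≤ 3, ∀ p ≤ 0, 1 / 2 * q * J ≤ zz k p ∧
        zz k p ≤ ⌊(t + A * q) * J⌋₊ - ⌊(t + vst ρ k * q) * J⌋₊ := by
      intro k hk p _
      rw [hov k]
      have h1 := hob k (by omega)
      rw [hzz]
      show 1 / 2 * q * J ≤ ((if k = 2 then ⌊o 3 * J⌋₊ - ⌊o 2 * J⌋₊ else
        ⌊(t + A * q) * J⌋₊ - ⌊o k * J⌋₊ : ℕ) : ℝ) ∧ (if k = 2 then ⌊o 3 * J⌋₊ - ⌊o 2 * J⌋₊ else
        ⌊(t + A * q) * J⌋₊ - ⌊o k * J⌋₊) ≤ ⌊(t + A * q) * J⌋₊ - ⌊o k * J⌋₊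
      split_ifs with h2
      · rw [h2]
        refine ⟨hfl (by rw [o2]; linarith) (by rw [o2, o3]; linarith), Nat.sub_le_sub_right
          (Nat.floor_le_floor (mul_le_mul_of_nonneg_right (by rw [o3]; linarith) hJ0)) _⟩
      · exact ⟨hfl (by linarith) (by linarith), le_rfl⟩
    obtain ⟨B, gc, gT, g₀, G, H, Th, TH, Gt, Ht, k1, k2, k3, -⟩ := hw zz hzr
    have hWn : Wins F c 2 D D 3 0 (fun l => l = 0) C₀ (t + A * q) Eb (y * q) o
        (fun _ => 3 * ε * q) (fun k => L 2 (t + A * q) (o k) - 2 * (C₀ * (y * q)))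
        (fun _ => y * q) (fun _ => y * q) (fun k l => L l (o k) (o k))
        (fun k l => L l (t + A * q) (o k)) bb κw zz B gc gT g₀ G H Th TH Gt Ht := by
      rw [ho]
      exact k3
    obtain ⟨B', l1, l2, l3⟩ := hn zz κw bb B gc gT g₀ G H Th TH Gt Ht 0 hWn
      (by rw [hκw]; exact min_le_left _ _) k1 (by
        rw [one_div, inv_mul_le_iff₀ hK₁]
        exact k2) le_rfl hz2
    have h3 := hs zz κw Cn bb B B' gc gT g₀ G H Th TH Gt Ht 0 ⌊Cn * (zn * q) * J⌋₊ hWn hκw0.le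
      le_rfl hz2 l1 l2 (by linarith) (by
        have h4 : κw ≤ 1 / (Cn * 2 ^ 24) := by rw [hκw]; exact min_le_right _ _
        rw [le_div_iff₀ (by positivity)] at h4
        linarith) k1 l3 (by
        have h4 : (⌊Cn * (zn * q) * J⌋₊ : ℝ) ≤ Cn * (zn * q) * J :=
          Nat.floor_le (by positivity)
        have h5 := mul_le_mul_of_nonneg_right hCznq.le hJ0
        linarith [mul_nonneg hzq.le hJ0])
    have h4 : Pe F.p A₀ ≤ K₁ * (Cn * Pe F.p B') :=
      k2.trans (mul_le_mul_of_nonneg_left l2 hK₁.le)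
    rw [one_div, ← div_eq_inv_mul, lt_div_iff₀ (by positivity)] at h3
    linarith
  obtain ⟨τ, hτ, J₃, h3⟩ := key
  obtain ⟨J, hJ, F, A₀, hA₀⟩ := R.ne τ hτ J₃
  exact h3 J hJ F A₀ hA₀

end Pool.JST

namespace Pool.ASM

open Pool.PKG

/-- **The cell `[one, sta]`** for all classes. -/
theorem lCellA_sta {n : ℕ} (hn : 3 ≤ n) : LCellA n [.one, .sta] :=
  lCellA_of_q (by simp) (by simp; omega) fun Sl _ _ =>
    Pool.JST.cellQ_sta n Sl (fun l => [Kd.one, Kd.sta].getD l .one) rfl rfl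

end Pool.ASM
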