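import Pool.Agent.H23.D2.Cls
import Pool.Agent.H60.D2.Crw
import Pool.Agent.H95.GN.Fit

/-!
# The row covector

`ROut1.rel`: the first and second derivatives of the row label against those of the visible ball
chart, at the own exact point. `row_cov`: if the visible curvature of the target is natural, the
second derivative of the row label in the direction of the own line is the difference of the
gradients on the correction `Z`, up to natural terms. `cov_rough`: over rough coordinates the row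
covector is natural in all directions. `EvS.tgt`: a static coordinate as a target.
-/

set_option autoImplicit false

namespace Pool.RCV

open Finset Real MvPolynomial
open Pool.Agent.H49.Ent Pool.Agent.H32.Dense Pool.STK Pool.KA Pool.KSAT Pool.K2S Pool.PB Pool.S6C
open Pool.GEN Pool.CHT Pool.CHX Pool.ISO Pool.D2R Pool.D2Z Pool.D2F
open Pool.PB.Trl (rt rt_mem t_rt)

variable {m J : ℕ}

section

variable {F : Fam m J} {c : ℕ → Fin m} {r w a v p : ℕ} {g₀ gT : ℕ → ℕ} {U : ℝ}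
  {B : F.Ω → Prop} {G₀ : PtT F → ℕ → MvPolynomial (Option (Fin m)) ℝ}
  {H₀ : LnT F → ℕ → MvPolynomial (Option (Fin m)) ℝ}
  {T : PtT F → ℕ → MvPolynomial (Option (Fin m)) ℝ}
  {TH : LnT F → ℕ → MvPolynomial (Option (Fin m)) ℝ}
  {Ht : LnT F → MvPolynomial (Option (Fin m)) ℝ}

/-- The gradient of the row label against the visible gradient. -/
theorem rel1 (h : ROut1 F c r w a v g₀ gT p U B G₀ H₀ T TH Ht) (ha : a ≤ J) {ω : F.Ω} (hω : B ω)
    (V : Option (Fin m) → ℝ) :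
    |dd (Ht (slam F w ω)) (bt F ω) V - dd (G₀ (ptr F J ω) r) (bt F ω) V| ≤
      U / 2 ^ p * nrm c (TH (slam F a ω)) gT (a + v) r (bt F ω) V +
      U / 2 ^ g₀ r * nrm c (G₀ (ptr F J ω)) g₀ a r (bt F ω) V := by
  have h1 := h.win ω hω (rt F a ω) (rt_mem F a ω) V
  rw [ptw_rt F ha ω, dd_sub] at h1
  have h2 := (h.dif ω hω r le_rfl).1 V
  rw [dd_sub] at h2
  have e : dd (Ht (slam F w ω)) (bt F ω) V - dd (G₀ (ptr F J ω) r) (bt F ω) V =
      (dd (Ht (slam F w ω)) (bt F ω) V -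
        dd (Hno (c r) (fun s => H₀ s r) (slam F a ω)) (bt F ω) V) +
      (dd (Hno (c r) (fun s => H₀ s r) (slam F a ω)) (bt F ω) V -
        dd (G₀ (ptr F J ω) r) (bt F ω) V) := by ring
  rw [e]
  exact (abs_add_le _ _).trans (add_le_add h1 h2)

/-- The second derivatives. -/
theorem rel2 (h : ROut1 F c r w a v g₀ gT p U B G₀ H₀ T TH Ht) (ha : a ≤ J) {ω : F.Ω} (hω : B ω)
    (V Z : Option (Fin m) → ℝ) :
    |hs (Ht (slam F w ω)) (bt F ω) (bd F ω) V + dd (Ht (slam F w ω)) (bt F ω) Z -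
      (hs (G₀ (ptr F J ω) r) (bt F ω) (bd F ω) V + dd (G₀ (ptr F J ω) r) (bt F ω) Z)| ≤
      U / 2 ^ p * (2 ^ a * nrm c (TH (slam F a ω)) gT (a + v) r (bt F ω) V +
        nrz c (TH (slam F a ω)) gT (a + v) r (bt F ω) (bd F ω) V Z) +
      U / 2 ^ g₀ r * (nrm c (G₀ (ptr F J ω)) g₀ a r (bt F ω) (bd F ω) *
        nrm c (G₀ (ptr F J ω)) g₀ a r (bt F ω) V +
        nrz c (G₀ (ptr F J ω)) g₀ a r (bt F ω) (bd F ω) V Z) := by
  have h1 := h.hsw ω hω (rt F a ω) (rt_mem F a ω) V Z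
  rw [ptw_rt F ha ω, dd_sub, hs_sub] at h1
  have h2 := (h.dif ω hω r le_rfl).2 (bd F ω) V Z
  rw [dd_sub, hs_sub] at h2
  have e : hs (Ht (slam F w ω)) (bt F ω) (bd F ω) V + dd (Ht (slam F w ω)) (bt F ω) Z -
      (hs (G₀ (ptr F J ω) r) (bt F ω) (bd F ω) V + dd (G₀ (ptr F J ω) r) (bt F ω) Z) =
      (hs (Ht (slam F w ω)) (bt F ω) (bd F ω) V -
        hs (Hno (c r) (fun s => H₀ s r) (slam F a ω)) (bt F ω) (bd F ω) V +
        (dd (Ht (slam F w ω)) (bt F ω) Z -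
          dd (Hno (c r) (fun s => H₀ s r) (slam F a ω)) (bt F ω) Z)) +
      (hs (Hno (c r) (fun s => H₀ s r) (slam F a ω)) (bt F ω) (bd F ω) V -
        hs (G₀ (ptr F J ω) r) (bt F ω) (bd F ω) V +
        (dd (Hno (c r) (fun s => H₀ s r) (slam F a ω)) (bt F ω) Z -
          dd (G₀ (ptr F J ω) r) (bt F ω) Z)) := by ring
  rw [e]
  exact (abs_add_le _ _).trans (add_le_add h1 h2)

/-- The size of the own direction. -/
theorem nrm_bd (h : ROut1 F c r w a v g₀ gT p U B G₀ H₀ T TH Ht) {ω : F.Ω} (hω : B ω) :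
    nrm c (G₀ (ptr F J ω)) g₀ a r (bt F ω) (bd F ω) ≤ (1 + r * U) * 2 ^ a := by
  unfold nrm
  have e1 : bd F ω none = 1 := rfl
  have h2 : ∑ l ∈ range r, (2 : ℝ) ^ g₀ l *
      |bd F ω (some (c l)) - dd (G₀ (ptr F J ω) l) (bt F ω) (bd F ω)| ≤ r * (U * 2 ^ a) := by
    refine (Finset.sum_le_sum fun l hl => ?_).trans (le_of_eq (by
      rw [Finset.sum_const, Finset.card_range, nsmul_eq_mul]))
    have h3 := h.vel ω ω hω hω rfl l (mem_range.1 hl).le
    rw [le_div_iff₀ (by positivity)] at h3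
    linarith
  rw [e1, abs_one]
  linarith

/-- **The row covector.** -/
theorem row_cov (h : ROut1 F c r w a v g₀ gT p U B G₀ H₀ T TH Ht) (ha : a ≤ J) (hU : 0 ≤ U)
    {K X : ℝ} {ω : F.Ω} (hω : B ω) {V Z : Option (Fin m) → ℝ} {v' : ℕ}
    (hN : nrm c (G₀ (ptr F J ω)) g₀ a r (bt F ω) V ≤ X)
    (hV : nrm c (TH (slam F a ω)) gT (a + v) r (bt F ω) V ≤ K * 2 ^ v' * X)
    (hZ : nrz c (TH (slam F a ω)) gT (a + v) r (bt F ω) (bd F ω) V Z ≤
      K * 2 ^ v' * (2 ^ a * X))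
    (hZG : nrz c (G₀ (ptr F J ω)) g₀ a r (bt F ω) (bd F ω) V Z ≤ K * (2 ^ a * X))
    (hvc : |hs (G₀ (ptr F J ω) r) (bt F ω) (bd F ω) V| ≤ K * (2 ^ a / 2 ^ g₀ r) * X) :
    |hs (Ht (slam F w ω)) (bt F ω) (bd F ω) V + dd (Ht (slam F w ω)) (bt F ω) Z -
      dd (G₀ (ptr F J ω) r) (bt F ω) Z| ≤
      (2 * U * K * (2 ^ (a + v') / 2 ^ p) + (U * (1 + r * U + K) + K) * (2 ^ a / 2 ^ g₀ r)) * X := by
  have h1 := rel2 h ha hω V Z
  have hX0 : 0 ≤ X := (nrm_nonneg _ _ _ _ _ _ _).trans hN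
  have h2 := nrm_bd h hω
  have hr0 : (0 : ℝ) ≤ r := Nat.cast_nonneg r
  have h3 : nrm c (G₀ (ptr F J ω)) g₀ a r (bt F ω) (bd F ω) *
      nrm c (G₀ (ptr F J ω)) g₀ a r (bt F ω) V ≤ (1 + r * U) * 2 ^ a * X :=
    mul_le_mul h2 hN (nrm_nonneg _ _ _ _ _ _ _) (by positivity)
  have h4 : U / 2 ^ p * (2 ^ a * nrm c (TH (slam F a ω)) gT (a + v) r (bt F ω) V +
        nrz c (TH (slam F a ω)) gT (a + v) r (bt F ω) (bd F ω) V Z) ≤
      2 * U * K * (2 ^ (a + v') / 2 ^ p) * X := by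
    have h5 : 2 ^ a * nrm c (TH (slam F a ω)) gT (a + v) r (bt F ω) V +
        nrz c (TH (slam F a ω)) gT (a + v) r (bt F ω) (bd F ω) V Z ≤
        2 ^ a * (K * 2 ^ v' * X) + K * 2 ^ v' * (2 ^ a * X) :=
      add_le_add (mul_le_mul_of_nonneg_left hV (by positivity)) hZ
    refine (mul_le_mul_of_nonneg_left h5 (by positivity)).trans (le_of_eq ?_)
    rw [pow_add]
    ring
  have h5 : U / 2 ^ g₀ r * (nrm c (G₀ (ptr F J ω)) g₀ a r (bt F ω) (bd F ω) *
        nrm c (G₀ (ptr F J ω)) g₀ a r (bt F ω) V +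
        nrz c (G₀ (ptr F J ω)) g₀ a r (bt F ω) (bd F ω) V Z) ≤
      U * (1 + r * U + K) * (2 ^ a / 2 ^ g₀ r) * X := by
    refine (mul_le_mul_of_nonneg_left (add_le_add h3 hZG) (by positivity)).trans (le_of_eq ?_)
    ring
  have e : hs (Ht (slam F w ω)) (bt F ω) (bd F ω) V + dd (Ht (slam F w ω)) (bt F ω) Z -
      dd (G₀ (ptr F J ω) r) (bt F ω) Z =
      (hs (Ht (slam F w ω)) (bt F ω) (bd F ω) V + dd (Ht (slam F w ω)) (bt F ω) Z -
      (hs (G₀ (ptr F J ω) r) (bt F ω) (bd F ω) V + dd (G₀ (ptr F J ω) r) (bt F ω) Z)) +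
      hs (G₀ (ptr F J ω) r) (bt F ω) (bd F ω) V := by ring
  rw [e]
  refine (abs_add_le _ _).trans ((add_le_add (h1.trans (add_le_add h4 h5)) hvc).trans
    (le_of_eq ?_))
  ring

/-- The visible and the closed ball chart are near. -/
theorem nc_dif (h : ROut1 F c r w a v g₀ gT p U B G₀ H₀ T TH Ht) {ω : F.Ω} (hω : B ω) :
    Nc c g₀ a r U (fun j => grd (G₀ (ptr F J ω) j) (bt F ω))
      (fun j => grd (hn c H₀ (slam F a ω) j) (bt F ω)) := by
  intro l hl V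
  rw [cv_subl, cv_grd, cv_grd, ← nrm_en]
  have h1 := (h.dif ω hω l hl.le).1 V
  rwa [dd_sub] at h1

/-- The norms of the visible and of the closed ball chart. -/
theorem nrm_hn (h : ROut1 F c r w a v g₀ gT p U B G₀ H₀ T TH Ht) (hU : 0 ≤ U) {ω : F.Ω}
    (hω : B ω) {l : ℕ} (hl : l ≤ r) (V : Option (Fin m) → ℝ) :
    nrm c (hn c H₀ (slam F a ω)) g₀ a l (bt F ω) V ≤
      (1 + U) ^ r * nrm c (G₀ (ptr F J ω)) g₀ a l (bt F ω) V := by
  have h1 := (nc_dif h hω).en_le hU hl V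
  rwa [← nrm_en, ← nrm_en] at h1

/-- The thin norm over rough coordinates. -/
theorem nrm_thin (h : ROut1 F c r w a v g₀ gT p U B G₀ H₀ T TH Ht) (hU : 0 ≤ U) {v' : ℕ}
    (hv : v ≤ v') (hg : ∀ l < r, gT l ≤ g₀ l + v')
    (hT : ∀ s, ∀ l < r, TH s l = Hno (c l) (fun s => H₀ s l) s) {ω : F.Ω} (hω : B ω)
    (V : Option (Fin m) → ℝ) :
    nrm c (TH (slam F a ω)) gT (a + v) r (bt F ω) V ≤
      (1 + U) ^ r * 2 ^ v' * nrm c (G₀ (ptr F J ω)) g₀ a r (bt F ω) V := by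
  have h1 := nrm_hn h hU hω le_rfl V
  have h2 : nrm c (TH (slam F a ω)) gT (a + v) r (bt F ω) V ≤
      2 ^ v' * nrm c (hn c H₀ (slam F a ω)) g₀ a r (bt F ω) V := by
    unfold nrm
    rw [mul_add, Finset.mul_sum]
    refine add_le_add ?_ (Finset.sum_le_sum fun l hl => ?_)
    · rw [pow_add, ← mul_assoc]
      refine mul_le_mul_of_nonneg_right ?_ (abs_nonneg _)
      rw [mul_comm]
      exact mul_le_mul_of_nonneg_right (pow_le_pow_right₀ (by norm_num) hv) (by positivity)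
    · have hl' := mem_range.1 hl
      rw [hT _ l hl', ← mul_assoc, ← pow_add]
      exact mul_le_mul_of_nonneg_right (pow_le_pow_right₀ (by norm_num) (by
        have := hg l hl'
        omega)) (abs_nonneg _)
  refine h2.trans ((mul_le_mul_of_nonneg_left h1 (by positivity)).trans (le_of_eq ?_))
  ring

/-- The constant of `cov_rough`. -/
noncomputable def kc (r : ℕ) (U K : ℝ) : ℝ :=
  (1 + U) ^ r + r * ((K + U * (1 + r * U) + U * (r * K)) * (1 + U) ^ r * (1 + U) ^ r) + (r + 1) * K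

theorem kc_nonneg (r : ℕ) {U K : ℝ} (hU : 0 ≤ U) (hK : 0 ≤ K) : 0 ≤ kc r U K := by
  unfold kc
  positivity

/-- **Over rough coordinates the row covector is natural.** -/
theorem cov_rough (h : ROut1 F c r w a v g₀ gT p U B G₀ H₀ T TH Ht) (ha : a ≤ J) (hU : 0 ≤ U)
    {K : ℝ} (hK : 0 ≤ K) {v' : ℕ} (hv : v ≤ v') (hg : ∀ l < r, gT l ≤ g₀ l + v')
    (hT : ∀ s, ∀ l < r, TH s l = Hno (c l) (fun s => H₀ s l) s) {ω : F.Ω} (hω : B ω)
    (hvc : ∀ l ≤ r, ∀ V : Option (Fin m) → ℝ, |hs (G₀ (ptr F J ω) l) (bt F ω) (bd F ω) V| ≤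
      K * (2 ^ a / 2 ^ g₀ l) * nrm c (G₀ (ptr F J ω)) g₀ a l (bt F ω) V)
    (V : Option (Fin m) → ℝ) :
    |hs (Ht (slam F w ω)) (bt F ω) (bd F ω) V| ≤
      (3 * U * kc r U K + U * (1 + r * U) + kc r U K) *
        (2 ^ (a + v') / 2 ^ p + 2 ^ a / 2 ^ g₀ r) *
        nrm c (G₀ (ptr F J ω)) g₀ a r (bt F ω) V := by
  obtain ⟨X, hX⟩ : ∃ X, X = nrm c (G₀ (ptr F J ω)) g₀ a r (bt F ω) V := ⟨_, rfl⟩
  obtain ⟨K₁, hK₁⟩ : ∃ K₁ : ℝ, K₁ = (K + U * (1 + r * U) + U * (r * K)) * (1 + U) ^ r := ⟨_, rfl⟩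
  obtain ⟨Y, hY⟩ : ∃ Y : ℝ, Y = (1 + U) ^ r := ⟨_, rfl⟩
  have hr0 : (0 : ℝ) ≤ r := Nat.cast_nonneg r
  have hY1 : 1 ≤ Y := by rw [hY]; exact one_le_pow₀ (by linarith)
  have hX0 : 0 ≤ X := by rw [hX]; exact nrm_nonneg _ _ _ _ _ _ _
  have hK10 : 0 ≤ K₁ := by rw [hK₁]; positivity
  -- the closed curvature
  have h1 := cur_cl (c := c) (g := g₀) (a := a) (n := r) (U := U) (K := K) (W₀ := 1 + r * U)
    (G := G₀ (ptr F J ω)) (ψ := hn c H₀ (slam F a ω)) (x := bt F ω) (W := bd F ω) hU hK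
    (by positivity) (fun l hl => (h.dif ω hω l hl.le).1) (fun l hl V V' Z =>
      (h.dif ω hω l hl.le).2 V V' Z) (fun l hl => by
        have h2 := nrm_bd h hω
        refine le_trans ?_ h2
        rw [nrm_en, nrm_en]
        exact en_mono c g₀ a _ hl.le _)
    (fun l hl V => hvc l hl.le V)
  have h2 : ∀ l < r, 2 ^ gT l * |hs (TH (slam F a ω) l) (bt F ω) (bd F ω) V| ≤
      K₁ * Y * 2 ^ v' * (2 ^ a * X) := by
    intro l hl
    have h3 := h1 l hl V
    have h4 : Nv c l a g₀ (hn c H₀ (slam F a ω)) (bt F ω) V ≤ Y * X := by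
      have h5 := nrm_hn h hU hω le_rfl V
      rw [← hX, ← hY, nrm_en] at h5
      rw [nv_en]
      exact (en_mono c g₀ a _ hl.le V).trans h5
    have h5 : hs (TH (slam F a ω) l) (bt F ω) (bd F ω) V =
        hs (hn c H₀ (slam F a ω) l) (bt F ω) (bd F ω) V := by rw [hT _ l hl]; rfl
    rw [h5]
    rw [← hK₁] at h3
    have h6 := h3.trans (mul_le_mul_of_nonneg_left h4 (by positivity))
    have h7 : (2 : ℝ) ^ gT l ≤ 2 ^ g₀ l * 2 ^ v' := by
      rw [← pow_add]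
      exact pow_le_pow_right₀ (by norm_num) (hg l hl)
    refine (mul_le_mul h7 h6 (abs_nonneg _) (by positivity)).trans (le_of_eq ?_)
    field_simp
  have h3 : nrz c (TH (slam F a ω)) gT (a + v) r (bt F ω) (bd F ω) V 0 ≤
      r * (K₁ * Y * 2 ^ v' * (2 ^ a * X)) := by
    unfold nrz
    have e1 : (2 : ℝ) ^ (a + v) * |(0 : Option (Fin m) → ℝ) none| = 0 := by
      rw [Pi.zero_apply, abs_zero, mul_zero]
    rw [e1, zero_add]
    refine (Finset.sum_le_sum fun l hl => ?_).trans (le_of_eq (by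
      rw [Finset.sum_const, Finset.card_range, nsmul_eq_mul]))
    have e3 : dd (TH (slam F a ω) l) (bt F ω) 0 = 0 := by
      have := dd_smul (TH (slam F a ω) l) (bt F ω) (0 : Option (Fin m) → ℝ) 0
      rwa [zero_smul, zero_mul] at this
    rw [Pi.zero_apply, e3, sub_zero, zero_sub, abs_neg]
    exact h2 l (mem_range.1 hl)
  have h4 : nrz c (G₀ (ptr F J ω)) g₀ a r (bt F ω) (bd F ω) V 0 ≤ r * (K * (2 ^ a * X)) := by
    unfold nrz
    have e1 : (2 : ℝ) ^ a * |(0 : Option (Fin m) → ℝ) none| = 0 := by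
      rw [Pi.zero_apply, abs_zero, mul_zero]
    rw [e1, zero_add]
    refine (Finset.sum_le_sum fun l hl => ?_).trans (le_of_eq (by
      rw [Finset.sum_const, Finset.card_range, nsmul_eq_mul]))
    have hl' := mem_range.1 hl
    have e3 : dd (G₀ (ptr F J ω) l) (bt F ω) 0 = 0 := by
      have := dd_smul (G₀ (ptr F J ω) l) (bt F ω) (0 : Option (Fin m) → ℝ) 0
      rwa [zero_smul, zero_mul] at this
    rw [Pi.zero_apply, e3, sub_zero, zero_sub, abs_neg]
    have e4 := hvc l hl'.le V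
    have e5 : nrm c (G₀ (ptr F J ω)) g₀ a l (bt F ω) V ≤ X := by
      rw [hX, nrm_en, nrm_en]
      exact en_mono c g₀ a _ hl'.le V
    refine (mul_le_mul_of_nonneg_left (e4.trans (mul_le_mul_of_nonneg_left e5 (by positivity)))
      (by positivity)).trans (le_of_eq ?_)
    field_simp
  have h5 := nrm_thin h hU hv hg hT hω V
  rw [← hX, ← hY] at h5
  have h6 := hvc r le_rfl V
  rw [← hX] at h6
  obtain ⟨K₂, hK₂⟩ : ∃ K₂ : ℝ, K₂ = Y + r * (K₁ * Y) + (r + 1) * K := ⟨_, rfl⟩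
  have hK20 : 0 ≤ K₂ := by rw [hK₂]; positivity
  have h7 := row_cov (K := K₂) h ha hU hω (V := V) (Z := 0) (v' := v') (X := X) hX.ge (h5.trans (by
      refine mul_le_mul_of_nonneg_right (mul_le_mul_of_nonneg_right ?_ (by positivity)) hX0
      rw [hK₂]
      have : 0 ≤ r * (K₁ * Y) + (r + 1) * K := by positivity
      linarith)) (h3.trans (by
      have e : (r : ℝ) * (K₁ * Y * 2 ^ v' * (2 ^ a * X)) =
        r * (K₁ * Y) * 2 ^ v' * (2 ^ a * X) := by ring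
      rw [e]
      refine mul_le_mul_of_nonneg_right (mul_le_mul_of_nonneg_right ?_ (by positivity))
        (by positivity)
      rw [hK₂]
      have : 0 ≤ Y + (r + 1) * K := by positivity
      linarith)) (h4.trans (by
      rw [← mul_assoc]
      refine mul_le_mul_of_nonneg_right ?_ (by positivity)
      rw [hK₂]
      have : 0 ≤ Y + r * (K₁ * Y) + K := by positivity
      linarith)) (h6.trans (by
      refine mul_le_mul_of_nonneg_right (mul_le_mul_of_nonneg_right ?_ (by positivity)) hX0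
      rw [hK₂]
      have : 0 ≤ Y + r * (K₁ * Y) + r * K := by positivity
      linarith))
  have e0 : ∀ P : MvPolynomial (Option (Fin m)) ℝ, dd P (bt F ω) 0 = 0 := fun P => by
    have := dd_smul P (bt F ω) (0 : Option (Fin m) → ℝ) 0
    rwa [zero_smul, zero_mul] at this
  rw [e0, e0, add_zero, sub_zero] at h7
  rw [← hX]
  refine h7.trans (mul_le_mul_of_nonneg_right ?_ hX0)
  have e1 : kc r U K = K₂ := by
    rw [hK₂, hK₁, hY]
    unfold kc
    ring
  rw [e1]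
  have f1 : (0 : ℝ) ≤ 2 ^ (a + v') / 2 ^ p := by positivity
  have f2 : (0 : ℝ) ≤ 2 ^ a / 2 ^ g₀ r := by positivity
  have f3 : 0 ≤ U * K₂ := mul_nonneg hU hK20
  have f4 : 0 ≤ U * (1 + r * U) := by positivity
  have e2 : U * (1 + r * U + K₂) + K₂ = U * (1 + r * U) + U * K₂ + K₂ := by ring
  rw [e2]
  nlinarith [mul_nonneg f3 f1, mul_nonneg f3 f2, mul_nonneg f4 f1, mul_nonneg hK20 f1]

end

/-- **A coordinate of the thin chain as a target.** -/
theorem evS_tgt {F : Fam m J} {c : ℕ → Fin m} {r D Dr w' v M : ℕ} {z : ℕ → ℕ}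
    {e h p : ℕ} {R : ℕ → Prop} {g gc gT g₀ : ℕ → ℕ} {κ : ℝ} {B : F.Ω → Prop}
    {G₀ : PtT F → ℕ → MvPolynomial (Option (Fin m)) ℝ}
    {H₀ : LnT F → ℕ → MvPolynomial (Option (Fin m)) ℝ}
    {T : PtT F → ℕ → MvPolynomial (Option (Fin m)) ℝ}
    {TH : LnT F → ℕ → MvPolynomial (Option (Fin m)) ℝ}
    {Gt : PtT F → MvPolynomial (Option (Fin m)) ℝ}
    {Ht : LnT F → MvPolynomial (Option (Fin m)) ℝ} (hc : Set.InjOn c (Set.Iio r))
    (H : EvS F c r D Dr w' v M z e h p R g gc gT g₀ κ B G₀ H₀ T TH Gt Ht) {l : ℕ} (hl : l < r) :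
    EvS F c l D Dr w' v M z e h (gT l) R g gc gT g₀ κ B G₀ H₀ T TH (fun y => T y l)
      (fun s => TH s l) where
  ball := H.ball.mono (by omega) (fun _ => le_rfl) le_rfl le_rfl
  cls := fun ω hω k hk => H.cls ω hω k (by omega)
  relb := Pool.VFD.relvF_pre H.relb hc H.ball.depG hl.le
  near := fun ω hω k hk => H.near ω hω k (by omega)
  rad := fun i hi => (H.rad i hi).mono (by omega) (fun _ => le_rfl) le_rfl le_rfl
  top := H.top.mono (by omega) (fun _ => le_rfl) le_rfl le_rfl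
  gle := fun k hk => H.gle k (by omega)
  thin := H.thin.mono hl.le (fun _ => le_rfl) le_rfl le_rfl
  relt := Pool.VFD.relvF_pre H.relt hc H.thin.depG hl.le
  rgh := fun k hk => H.rgh k (by omega)
  dG := fun y => H.thin.degG y l
  dH := fun s => H.thin.degH s l
  pG := fun y => H.thin.depG y l
  pH := fun s => H.thin.depH s l
  pos := fun ω hω => H.thin.pos ω hω l hl
  agr := fun ω hω b hb => H.thin.agr ω hω l hl b hb

end Pool.RCV
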