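import Pool.Agent.H57.AVG.C1h
import Pool.Agent.H88.D2.Mcv
import Pool.Agent.H88.D2.Cwy

/-!
# The closed gradient at a ball in a class

`lbsE_of`: the coefficient bounds of the closed charts of a ball. `C1O`: the output of `c1_cls`.
`winb_tel`: the gradient of the ball chart along a chain of balls, in the direction of the last place.
`grdA`, `grdT`: the gradients over the fine chains of the record.
-/

set_option autoImplicit false

namespace Pool.TN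

open Finset Real MvPolynomial
open Pool.Agent.H49.Ent Pool.Agent.H32.Dense Pool.STK Pool.KA Pool.KSAT Pool.K2S Pool.PB Pool.S6C
open Pool.GEN Pool.CHT Pool.CHX Pool.ISO Pool.D2R Pool.D2Z Pool.D2F
open Pool.AVG57 (LbsE ClU)
open Pool.FLF (Fam.sub)
open Pool.D2T (sh sh_rt sh_deg)
open Pool.PB.Trl (rt rt_mem t_rt)
open Pool.BFL (Pb)
open Pool.PKG (RecQ Kd)

/-- **Coefficient bounds of the closed charts of a ball.** -/
theorem lbsE_of (m D v : ℕ) : ∃ C : ℝ, 1 ≤ C ∧ ∀ {J : ℕ} {F : Fam m J} {c : ℕ → Fin m}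
    {Dr M K : ℕ} {z : ℕ → ℕ} {e h : ℕ} {g γ : ℕ → ℕ} {κ w θ E : ℝ} {p s : ℕ → ℝ}
    {B : F.Ω → Prop} {G₀ : PtT F → ℕ → MvPolynomial (Option (Fin m)) ℝ}
    {H₀ : LnT F → ℕ → MvPolynomial (Option (Fin m)) ℝ} (hB : 0 < Pe F.p B),
    EvB F c (v + 1) D Dr ⌊w * J⌋₊ M z e h g γ κ B G₀ H₀ → D ≤ K → ⌊w * J⌋₊ ≤ J → 0 ≤ θ →
    (Fam.sub F B hB).Tm θ → C * (θ + 1) ≤ ((J : ℝ) - ⌊w * J⌋₊) * Real.log 2 →
    C * Real.exp (C * (θ + 1)) ≤ 2 ^ (E * J) → (∀ l ≤ v + 1, ⌊p l * J⌋₊ ≤ γ l) →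
    (∀ l ≤ v + 1, (γ l : ℝ) ≤ s l * J) →
    ∃ B' : F.Ω → Prop, Sub B' B ∧ Pe F.p B / 2 ≤ Pe F.p B' ∧
      LbsE F c v K w p s E γ B' G₀ H₀ := by
  classical
  obtain ⟨C₁, hC₁, hrem⟩ := rem_fam m (D + 1) (v + 2)
  obtain ⟨C₂, hC₂, hco⟩ := Pool.Agent.H40.FR.unit_coef (D + 1)
  refine ⟨C₁ + C₂, by linarith, ?_⟩
  intro J F c Dr M K z e h g γ κ w θ E p s B G₀ H₀ hB Ev hDK hwJ hθ hTm hCJ hexp hlo hhi
  have hθ1 : 0 ≤ θ + 1 := by linarith
  have hdeg : ∀ i < v + 2, ∀ s : LnT F, (dv ⌊w * J⌋₊ (fun s (_ : Fin m) => H₀ s i) (c i) s).natDegree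
      ≤ D + 1 := fun i _ s => natDegree_dv _ (G := fun s (_ : Fin m) => H₀ s i)
      (fun s _ => Ev.ball.degH _ _) _ _
  obtain ⟨B', h1, h2, h3⟩ := hrem J F B hB ⌊w * J⌋₊
    (fun i s => dv ⌊w * J⌋₊ (fun s (_ : Fin m) => H₀ s i) (c i) s) (fun _ => 1) θ hwJ hdeg
    (fun _ _ => one_pos) hθ hTm (by
      refine le_trans (mul_le_mul_of_nonneg_right ?_ hθ1) hCJ
      linarith) (fun ω hω i hi => by
      rw [dv_hgt (G := fun _ => G₀) hwJ (Ev.cls ω hω i (by omega))]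
      refine (Ev.ball.pos ω hω i (by omega)).trans ?_
      rw [div_le_one (by positivity)]
      exact one_le_pow₀ (by norm_num))
  refine ⟨B', h1, h2, ?_⟩
  refine
    { deg := fun s l => (Ev.ball.degH s l).trans hDK
      dep := fun s l => Ev.ball.depH s l
      cls := fun ω hω l hl => Ev.cls ω (h1 ω hω) l (by omega)
      pos := fun ω hω l hl => Ev.ball.pos ω (h1 ω hω) l (by omega)
      lo := hlo
      hi := hhi
      co := fun ω hω l hl b => ?_ }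
  refine (hco _ (Real.exp (C₁ * (θ + 1))) (hdeg l (by omega) _) (fun τ hτ => ?_) b).trans ?_
  · have := h3 ω hω l (by omega) τ hτ
    rwa [mul_one] at this
  · refine le_trans ?_ hexp
    have h5 : Real.exp (C₁ * (θ + 1)) ≤ Real.exp ((C₁ + C₂) * (θ + 1)) :=
      Real.exp_le_exp.2 (mul_le_mul_of_nonneg_right (by linarith) hθ1)
    exact mul_le_mul (by linarith) h5 (Real.exp_pos _).le (by linarith)

/-- **The output of `c1_cls`**: the relative gradient in the direction of the last place of the chain is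
closed. -/
def C1O {m : ℕ} (S : PCl m) (c : ℕ → Fin m) (v K : ℕ) (w δW j x : ℝ) (p s : ℕ → ℝ)
    (qr ξ μ κ₂ E ε : ℝ) : Prop :=
  Bas S (fun J F B => ∀ (ks nn : ℕ) (gm : ℕ → ℕ)
    (G : ℕ → PtT F → ℕ → MvPolynomial (Option (Fin m)) ℝ)
    (H : LnT F → ℕ → MvPolynomial (Option (Fin m)) ℝ) (U : ℝ),
    LbsE F c v K w p s E gm B (G 0) H → ClU F (v + 2) ks ⌊j * J⌋₊ B G →
    ClU F (v + 2) nn ⌊x * J⌋₊ B G → ks ≤ nn →
    GrdE F c 0 (v + 1) ks nn ⌊qr * J⌋₊ ⌊ξ * J⌋₊ gm U B G → U ≤ 2 ^ (μ / 2 * J) →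
    ∃ W : ℕ, ⌊w * J⌋₊ ≤ W ∧ (W : ℝ) ≤ (w + δW) * J ∧ ∃ mu : LnT F → Polynomial ℝ,
      (∀ s, (mu s).natDegree ≤ K + 1) ∧
      Pb (Pool.Agent.H49.Ent.cond F.p B True) (fun ω => (2 : ℝ) ^ (-(κ₂ * ⌊ξ * J⌋₊)) <
        |gnh F c (v + 1) gm (G 0) (G nn) ω v -
          (mu (slam F W ω)).eval (rt F W ω)|) ≤ ε)

/-- **The gradient along a chain of balls**, in the direction of the last place: the change is
natural of the coarsest ball. -/
theorem winb_tel (D r : ℕ) : ∃ C : ℕ, 1 ≤ C ∧ ∀ {m J : ℕ} {F : Fam m J} {c : ℕ → Fin m}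
    {Dr N M : ℕ} {C₀ a Eb ηm : ℝ} {o η σ : ℕ → ℝ} {lv b : ℕ → ℕ → ℝ}
    {κ : ℝ} {z : ℕ → ℕ → ℕ} {B : F.Ω → Prop} {g₀ : ℕ → ℕ → ℕ}
    {G : ℕ → PtT F → ℕ → MvPolynomial (Option (Fin m)) ℝ}
    {H : ℕ → LnT F → ℕ → MvPolynomial (Option (Fin m)) ℝ}
    (_ : WinB F c r D Dr N M C₀ a Eb ηm o η σ lv b κ z B g₀ G H)
    {f jj : ℕ → ℕ} {n i Y : ℕ} {ρ : ℝ}, Set.InjOn c (Set.Iio (r + 1)) → 1 ≤ i → i ≤ r →
    (∀ k ≤ n, f k ≤ N) →
    (∀ k < n, jj k ≤ M ∧ z (f k) (jj k) = ⌊o (f (k + 1)) * J⌋₊ - ⌊o (f k) * J⌋₊ ∧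
      o (f k) ≤ o (f (k + 1))) →
    C₀ * (ηm * J) ≤ Y → 3 ≤ Y →
    (∀ k < n, ∀ l ≤ i, (lv (f (k + 1)) l - lv (f k) l) * J ≤ Y ∧
      (lv (f k) l - lv (f (k + 1)) l) * J ≤ Y) →
    (∀ k < n, (2 : ℝ) ^ g₀ (f k) (i - 1) / 2 ^ g₀ (f k) i ≤ ρ) → ∀ ω, B ω →
    |grd (G (f n) (ptr F J ω) i) (bt F ω) (some (c (i - 1))) -
      grd (G (f 0) (ptr F J ω) i) (bt F ω) (some (c (i - 1)))| ≤ n * (2 ^ (C * Y) * ρ) := by
  obtain ⟨C, hC, h⟩ := winb_grd D r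
  refine ⟨C, hC, ?_⟩
  intro m J F c Dr N M C₀ a Eb ηm o η σ lv b κ z B g₀ G H W f jj n i Y ρ hc hi hir hf hst hY hY3
    hlv hρ ω hω
  have hJ : (0 : ℝ) ≤ J := Nat.cast_nonneg J
  have hY3R : (3 : ℝ) ≤ Y := by exact_mod_cast hY3
  have hci : Set.InjOn c (Set.Iio i) := hc.mono fun y hy => by
    rw [Set.mem_Iio] at hy ⊢
    omega
  have hstep : ∀ k < n, |grd (G (f (k + 1)) (ptr F J ω) i) (bt F ω) (some (c (i - 1))) -
      grd (G (f k) (ptr F J ω) i) (bt F ω) (some (c (i - 1)))| ≤ 2 ^ (C * Y) * ρ := by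
    intro k hk
    obtain ⟨h1, -⟩ := h W (f := fun k' => f (k + k')) (jj := fun k' => jj (k + k')) (n := 1)
      (i := i) (k₀ := 0) (ks := 0) (q := 3) (X := 0) (Y := Y) (S := 0) (b' := 0) hc hir
      (fun k' hk' => hf _ (by omega)) (fun k' hk' => by
        have : k' = 0 := by omega
        subst this
        exact hst k hk) hY hY3 (by
        rw [Nat.cast_one]
        exact one_le_pow₀ (by norm_num)) le_rfl le_rfl (fun k' hk' => by
        have : k' = 0 := by omega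
        subst this
        exact hlv k hk) (fun k' _ => by rw [zero_mul]; linarith) (fun k' k'' hkk hk'' l hl _ => by
        rw [zero_mul, zero_add]
        have h5 : (k' = 0 ∧ k'' = 0) ∨ (k' = 0 ∧ k'' = 1) ∨ (k' = 1 ∧ k'' = 1) := by omega
        rcases h5 with ⟨rfl, rfl⟩ | ⟨rfl, rfl⟩ | ⟨rfl, rfl⟩
        · rw [sub_self, zero_mul]
          linarith
        · exact (hlv k hk l (by omega)).1
        · rw [sub_self, zero_mul]
          linarith) (fun k' hk' => by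
        rw [zero_mul]
        have h5 : k' = 0 ∨ k' = 1 := by omega
        rcases h5 with rfl | rfl
        · rw [sub_self, zero_mul]
          linarith
        · have h6 := (hlv k hk i le_rfl).2
          have h7 : (lv (f (k + 1)) i - lv (f (k + 0)) i) * J =
              -((lv (f k) i - lv (f (k + 1)) i) * J) := by
            rw [add_zero]
            ring
          rw [h7]
          linarith) (by norm_num) (by
        push_cast
        linarith) (Nat.zero_le _) (Nat.zero_le _) (by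
        push_cast
        linarith)
    have h2 := h1 ω hω (i - 1) (by omega) (Nat.zero_le _)
    have h3 := gnh_last hi hci (g₀ (f k)) (fun y l => (W.ev (f k) (hf k (by omega))).ball.depG y l)
      (fun y l => (W.ev (f (k + 1)) (hf (k + 1) (by omega))).ball.depG y l) ω
    have h4 : gnh F c i (g₀ (f (k + 0))) (G (f (k + 0))) (G (f (k + 1))) ω (i - 1) =
        gnh F c i (g₀ (f k)) (G (f k)) (G (f (k + 1))) ω (i - 1) := rfl
    rw [h4, h3] at h2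
    obtain ⟨x, hx⟩ : ∃ x, x = grd (G (f (k + 1)) (ptr F J ω) i) (bt F ω) (some (c (i - 1))) -
        grd (G (f k) (ptr F J ω) i) (bt F ω) (some (c (i - 1))) := ⟨_, rfl⟩
    rw [← hx] at h2 ⊢
    have p1 : (0 : ℝ) < 2 ^ g₀ (f k) i / 2 ^ g₀ (f k) (i - 1) := by positivity
    rw [abs_mul, abs_of_pos p1] at h2
    have p2 : |x| = 2 ^ g₀ (f k) (i - 1) / 2 ^ g₀ (f k) i *
        (2 ^ g₀ (f k) i / 2 ^ g₀ (f k) (i - 1) * |x|) := by field_simp
    rw [p2]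
    calc _ ≤ 2 ^ g₀ (f k) (i - 1) / 2 ^ g₀ (f k) i * 2 ^ (C * Y) :=
          mul_le_mul_of_nonneg_left h2 (by positivity)
      _ ≤ ρ * 2 ^ (C * Y) := mul_le_mul_of_nonneg_right (hρ k hk) (by positivity)
      _ = _ := mul_comm _ _
  have hall : ∀ j ≤ n, |grd (G (f j) (ptr F J ω) i) (bt F ω) (some (c (i - 1))) -
      grd (G (f 0) (ptr F J ω) i) (bt F ω) (some (c (i - 1)))| ≤ j * (2 ^ (C * Y) * ρ) := by
    intro j
    induction j with
    | zero =>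
      intro _
      rw [sub_self, abs_zero, Nat.cast_zero, zero_mul]
    | succ j ih =>
      intro hj
      have h5 := ih (by omega)
      have h6 := hstep j (by omega)
      have h7 := abs_add_le (grd (G (f (j + 1)) (ptr F J ω) i) (bt F ω) (some (c (i - 1))) -
        grd (G (f j) (ptr F J ω) i) (bt F ω) (some (c (i - 1))))
        (grd (G (f j) (ptr F J ω) i) (bt F ω) (some (c (i - 1))) -
        grd (G (f 0) (ptr F J ω) i) (bt F ω) (some (c (i - 1))))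
      rw [sub_add_sub_cancel] at h7
      push_cast
      linarith
  exact hall n le_rfl

/-- Half of the event is good. -/
theorem good_half {Ω : Type} [Fintype Ω] {p : Ω → ℝ} (hp : IsLaw p) {B : Ω → Prop}
    (hB : 0 < Pe p B) {err : Ω → ℝ} {δ : ℝ}
    (h : Pb (Pool.Agent.H49.Ent.cond p B True) (fun ω => δ < err ω) ≤ 1 / 2) :
    Pe p B / 2 ≤ Pe p (fun ω => B ω ∧ err ω ≤ δ) := by
  rw [Pool.LA91.Pb_cond hB, div_le_iff₀ hB] at h
  have h3 := Pe_or hp (A := B) (B₀ := fun ω => B ω ∧ δ < err ω) (B₁ := fun ω => B ω ∧ err ω ≤ δ)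
    (fun ω hω => by
      by_cases h4 : err ω ≤ δ
      · exact Or.inr ⟨hω, h4⟩
      · exact Or.inl ⟨hω, not_le.1 h4⟩)
  linarith

section

variable {m : ℕ} {S : PCl m} {P P₂ : List (Fin m) × Fin m → ℝ → ℝ → ℝ} {θ θ₂ : ℝ}
    {c : ℕ → Fin m} {i : ℕ} {Pt : ℝ → ℝ → ℝ} {L T : ℕ → ℝ → ℝ → ℝ} {Sl : ℕ → ℝ} {kd : ℕ → Kd}
    {S₀ N : ℕ} {A V : ℕ → ℝ} {S₂ N' : ℕ} {V' : ℕ → ℝ} {Eb e₂ K ε q t : ℝ}

/-- The difference of two levels. -/
theorem RecQ.dLd (R : RecQ S P P₂ θ θ₂ c i Pt L T Sl kd S₀ N A V S₂ N' V' Eb e₂ K ε q t) {l : ℕ}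
    (hl : l ≤ i) {a b : ℝ} (ha : |a| ≤ K) (hb : |b| ≤ K) (J : ℕ) :
    Sl l * ((a - b) * (q * J)) - 2 * ε * (q * J) ≤
      (L l (t + a * q) (t + a * q) - L l (t + b * q) (t + b * q)) * J ∧
    (L l (t + a * q) (t + a * q) - L l (t + b * q) (t + b * q)) * J ≤
      Sl l * ((a - b) * (q * J)) + 2 * ε * (q * J) := by
  have hq := R.q0
  have hJ : (0 : ℝ) ≤ J := Nat.cast_nonneg J
  have h1 : ∀ x : ℝ, |x| ≤ K → |t + x * q - t| ≤ K * q := fun x hx => by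
    rw [add_sub_cancel_left, abs_mul, abs_of_pos hq]
    exact mul_le_mul_of_nonneg_right hx hq.le
  have h2 := abs_le.1 (R.dL l hl _ (h1 a ha))
  have h3 := abs_le.1 (R.dL l hl _ (h1 b hb))
  rw [add_sub_cancel_left] at h2 h3
  have h4 : Sl l * ((a - b) * q) - 2 * ε * q ≤
      L l (t + a * q) (t + a * q) - L l (t + b * q) (t + b * q) := by
    have : Sl l * ((a - b) * q) = Sl l * (a * q) - Sl l * (b * q) := by ring
    linarith
  have h5 : L l (t + a * q) (t + a * q) - L l (t + b * q) (t + b * q) ≤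
      Sl l * ((a - b) * q) + 2 * ε * q := by
    have : Sl l * ((a - b) * q) = Sl l * (a * q) - Sl l * (b * q) := by ring
    linarith
  have h6 := mul_le_mul_of_nonneg_right h4 hJ
  have h7 := mul_le_mul_of_nonneg_right h5 hJ
  constructor
  · calc _ = (Sl l * ((a - b) * q) - 2 * ε * q) * J := by ring
      _ ≤ _ := h6
  · calc _ ≤ (Sl l * ((a - b) * q) + 2 * ε * q) * J := h7
      _ = _ := by ring

/-- **A fine chain of balls.** -/
structure ChF (u : ℕ → ℝ) (N₃ n p : ℕ) (u₀ K : ℝ) (f : ℕ → ℕ) : Prop where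
  p1 : 1 ≤ p
  fN : ∀ k ≤ n, f k ≤ N₃
  fu : ∀ k ≤ n, u (f k) = u₀ + k / p
  fK : ∀ k ≤ n, |u (f k)| ≤ K

theorem ChF.le {u : ℕ → ℝ} {N₃ n p : ℕ} {u₀ K : ℝ} {f : ℕ → ℕ} (h : ChF u N₃ n p u₀ K f)
    {k : ℕ} (hk : k < n) : u (f k) + 1 / p = u (f (k + 1)) := by
  rw [h.fu k hk.le, h.fu (k + 1) hk]
  push_cast
  ring

end

/-- **The relative gradient over a fine chain** of the balls of the record. -/
theorem grdA (D i : ℕ) : ∃ C : ℕ, 1 ≤ C ∧ ∀ {m : ℕ} {S : PCl m}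
    {P P₂ : List (Fin m) × Fin m → ℝ → ℝ → ℝ} {θ θ₂ : ℝ} {c : ℕ → Fin m} {Pt : ℝ → ℝ → ℝ}
    {L T : ℕ → ℝ → ℝ → ℝ} {Sl : ℕ → ℝ} {kd : ℕ → Kd} {S₀ N : ℕ} {A V : ℕ → ℝ} {S₂ N' : ℕ}
    {V' : ℕ → ℝ} {Eb e₂ K ε q t : ℝ}
    (_ : RecQ S P P₂ θ θ₂ c i Pt L T Sl kd S₀ N A V S₂ N' V' Eb e₂ K ε q t)
    {J Dr N₃ : ℕ} {F : Fam m J} {CB a Eb' y₁ κ : ℝ} {u : ℕ → ℝ} {b : ℕ → ℕ → ℝ} {z : ℕ → ℕ → ℕ}
    {B : F.Ω → Prop} {g₀ : ℕ → ℕ → ℕ} {G : ℕ → PtT F → ℕ → MvPolynomial (Option (Fin m)) ℝ}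
    {H : ℕ → LnT F → ℕ → MvPolynomial (Option (Fin m)) ℝ}
    (_ : WinB F c i D Dr N₃ N₃ CB a Eb' (y₁ * q) (fun k => t + u k * q) (fun _ => y₁ * q)
      (fun _ => y₁ * q) (fun k l => L l (t + u k * q) (t + u k * q)) b κ z B g₀ G H)
    {f : ℕ → ℕ} {n p ks Y : ℕ} {u₀ β Sm qr ξ τ y₂ : ℝ}, ChF u N₃ n p u₀ K f →
    (∀ k < n, z (f k) (f (k + 1)) = ⌊(t + u (f (k + 1)) * q) * J⌋₊ -
      ⌊(t + u (f k) * q) * J⌋₊) → 0 ≤ ε → Y = ⌊y₂ * (q * J)⌋₊ → 4 * (CB * y₁) ≤ y₂ →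
    16 * ε ≤ y₂ → 16 * β ≤ y₂ * p → 8 ≤ y₂ * (q * J) → (n : ℝ) ≤ 2 ^ Y →
    (∀ l ≤ i, |Sl l| ≤ β) → 0 ≤ Sm → Sm ≤ Sl i → (∀ l < i, Sl l ≤ Sm) → ks ≤ n →
    Sm * (n / p) + τ ≤ qr → qr + ξ ≤ Sl i * (n / p) → 0 ≤ ξ → ξ ≤ qr →
    ξ ≤ (Sl i - Sm) * (ks / p) + 2 * (β / p) → 4 ≤ τ * (q * J) →
    GrdE F c 0 i ks n ⌊qr * q * J⌋₊ ⌊ξ * q * J⌋₊ (g₀ (f 0)) (2 ^ (C * Y)) B
      (fun k => G (f k)) := by
  obtain ⟨C, hC, h⟩ := winb_grdE D i
  refine ⟨C, hC, ?_⟩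
  intro m S P P₂ θ θ₂ c Pt L T Sl kd S₀ N A V S₂ N' V' Eb e₂ K ε q t R J Dr N₃ F CB a Eb' y₁ κ u b
    z B g₀ G H W f n p ks Y u₀ β Sm qr ξ τ y₂ ch hz hε hY hy₁ hεy hβ hy₂ hn hSl hSm hSb hSs hks hq1
    hq2 hξ0 hξq hξk hτ
  have hq := R.q0
  have hJ : (0 : ℝ) ≤ J := Nat.cast_nonneg J
  obtain ⟨U, hU⟩ : ∃ U : ℝ, U = q * J := ⟨_, rfl⟩
  have hU0 : 0 ≤ U := by rw [hU]; positivity
  have hp : (0 : ℝ) < p := by exact_mod_cast ch.p1
  have hYl : y₂ * U - 1 ≤ Y := by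
    rw [hY, hU]
    linarith [Nat.lt_floor_add_one (y₂ * (q * J))]
  rw [← hU] at hy₂ hτ
  have hY7 : y₂ * U / 2 + 3 ≤ Y := by linarith
  have hβp : β / p ≤ y₂ / 16 := by
    rw [div_le_iff₀ hp]
    linarith
  have hβ0 : 0 ≤ β := (abs_nonneg _).trans (hSl i le_rfl)
  have hβU : 2 * (β / p) * U ≤ y₂ * U / 8 := by
    have := mul_le_mul_of_nonneg_right hβp hU0
    linarith
  have hεU : 2 * ε * U ≤ y₂ * U / 8 := by
    have := mul_le_mul_of_nonneg_right hεy hU0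
    linarith
  have hβU0 : 0 ≤ β / p * U := by positivity
  have hkp : ∀ k ≤ n, u (f k) = u₀ + k / p := ch.fu
  have hf0 : u (f 0) = u₀ := by
    rw [ch.fu 0 (Nat.zero_le _), Nat.cast_zero, zero_div, add_zero]
  -- the levels
  have hlv : ∀ k ≤ n, ∀ k' ≤ n, ∀ l ≤ i, Sl l * ((u (f k) - u (f k')) * U) - 2 * ε * U ≤
      (L l (t + u (f k) * q) (t + u (f k) * q) - L l (t + u (f k') * q) (t + u (f k') * q)) * J ∧
      (L l (t + u (f k) * q) (t + u (f k) * q) - L l (t + u (f k') * q) (t + u (f k') * q)) * J ≤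
      Sl l * ((u (f k) - u (f k')) * U) + 2 * ε * U := by
    intro k hk k' hk' l hl
    rw [hU]
    exact RecQ.dLd R hl (ch.fK k hk) (ch.fK k' hk') J
  have hstepS : ∀ l ≤ i, |Sl l * (1 / p * U)| ≤ β / p * U := by
    intro l hl
    rw [abs_mul, abs_of_nonneg (show (0 : ℝ) ≤ 1 / p * U by positivity)]
    calc _ ≤ β * (1 / p * U) := mul_le_mul_of_nonneg_right (hSl l hl) (by positivity)
      _ = _ := by ring
  have hou : ∀ k k' : ℕ, (t + u (f k') * q - (t + u (f k) * q)) * J =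
      (u (f k') - u (f k)) * U := fun k k' => by rw [hU]; ring
  have hnp : ∀ k ≤ n, u (f k) - u (f 0) = k / p := fun k hk => by
    rw [ch.fu k hk, hf0]
    ring
  have hXU : ξ * q * J = ξ * U := by rw [hU]; ring
  have hQU : qr * q * J = qr * U := by rw [hU]; ring
  rw [hXU, hQU]
  have hqr0 : 0 ≤ qr := hξ0.trans hξq
  have hXf : (⌊ξ * U⌋₊ : ℝ) ≤ ξ * U := Nat.floor_le (by positivity)
  have hQf : (⌊qr * U⌋₊ : ℝ) ≤ qr * U := Nat.floor_le (by positivity)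
  have hQl := Nat.lt_floor_add_one (qr * U)
  have hCBq : CB * (y₁ * q * J) ≤ Y := by
    have h1 : CB * (y₁ * q * J) = CB * y₁ * U := by rw [hU]; ring
    have h2 := mul_le_mul_of_nonneg_right hy₁ hU0
    rw [h1]
    linarith
  exact h W (f := f) (jj := fun k => f (k + 1)) (n := n) (i := i) (k₀ := 0) (ks := ks)
    (S := Sm) (b' := Sl i) R.inj le_rfl ch.fN
    (fun k hk => ⟨ch.fN (k + 1) hk, hz k hk, by
      have h1 : u (f k) ≤ u (f (k + 1)) := by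
        rw [← ch.le hk]
        have : (0 : ℝ) ≤ 1 / p := by positivity
        linarith
      have := mul_le_mul_of_nonneg_right h1 hq.le
      show t + u (f k) * q ≤ t + u (f (k + 1)) * q
      linarith⟩) hCBq (by
      have : (3 : ℝ) ≤ Y := by linarith
      exact_mod_cast this) hn hSm hSb
    (fun k hk l hl => by
      have h1 := hlv (k + 1) hk k hk.le l hl
      have h2 : u (f (k + 1)) - u (f k) = 1 / p := by rw [← ch.le hk]; ring
      rw [h2] at h1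
      have h3 := abs_le.1 (hstepS l hl)
      constructor
      · linarith [h1.2, h3.2]
      · have h4 : (L l (t + u (f k) * q) (t + u (f k) * q) -
          L l (t + u (f (k + 1)) * q) (t + u (f (k + 1)) * q)) * J =
          -((L l (t + u (f (k + 1)) * q) (t + u (f (k + 1)) * q) -
            L l (t + u (f k) * q) (t + u (f k) * q)) * J) := by ring
        rw [h4]
        linarith [h1.1, h3.1])
    (fun k hk => by
      rw [hou]
      have h2 : u (f (k + 1)) - u (f k) = 1 / p := by rw [← ch.le hk]; ring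
      rw [h2]
      linarith [(abs_le.1 (hstepS i le_rfl)).2])
    (fun k k' hkk hk' l hl _ => by
      rw [hou]
      have h1 := (hlv k' hk' k (hkk.trans hk') l hl.le).2
      have h2 : 0 ≤ u (f k') - u (f k) := by
        rw [ch.fu k' hk', ch.fu k (hkk.trans hk')]
        have : (k : ℝ) / p ≤ k' / p := div_le_div_of_nonneg_right (by exact_mod_cast hkk) hp.le
        linarith
      have h3 : Sl l * ((u (f k') - u (f k)) * U) ≤ Sm * ((u (f k') - u (f k)) * U) :=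
        mul_le_mul_of_nonneg_right (hSs l hl) (mul_nonneg h2 hU0)
      linarith)
    (fun k hk => by
      rw [hou]
      have h1 := (hlv k hk 0 (Nat.zero_le _) i le_rfl).1
      linarith)
    (by
      rw [hou, hnp n le_rfl]
      have h1 := mul_le_mul_of_nonneg_right hq1 hU0
      have h2 : (Sm * (n / p) + τ) * U = Sm * (n / p * U) + τ * U := by ring
      linarith)
    (by
      rw [hou, hnp n le_rfl]
      have h1 := mul_le_mul_of_nonneg_right hq2 hU0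
      have h2 : Sl i * (n / p) * U = Sl i * (n / p * U) := by ring
      linarith)
    (Nat.floor_le_floor (mul_le_mul_of_nonneg_right hξq hU0)) hks
    (by
      rw [hou, hnp ks hks]
      have h1 := mul_le_mul_of_nonneg_right hξk hU0
      have h2 : ((Sl i - Sm) * (ks / p) + 2 * (β / p)) * U =
        (Sl i - Sm) * (ks / p * U) + 2 * (β / p) * U := by ring
      linarith)

/-- **The gradient of the target along a fine chain** of the balls of the record: natural of the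
ball `k₀` if it is the coarsest. -/
theorem grdT (D i : ℕ) (hi : 1 ≤ i) : ∃ C : ℕ, 1 ≤ C ∧ ∀ {m : ℕ} {S : PCl m}
    {P P₂ : List (Fin m) × Fin m → ℝ → ℝ → ℝ} {θ θ₂ : ℝ} {c : ℕ → Fin m} {Pt : ℝ → ℝ → ℝ}
    {L T : ℕ → ℝ → ℝ → ℝ} {Sl : ℕ → ℝ} {kd : ℕ → Kd} {S₀ N : ℕ} {A V : ℕ → ℝ} {S₂ N' : ℕ}
    {V' : ℕ → ℝ} {Eb e₂ K ε q t : ℝ}
    (_ : RecQ S P P₂ θ θ₂ c i Pt L T Sl kd S₀ N A V S₂ N' V' Eb e₂ K ε q t)
    {J Dr N₃ : ℕ} {F : Fam m J} {CB a Eb' y₁ κ : ℝ} {u : ℕ → ℝ} {b : ℕ → ℕ → ℝ} {z : ℕ → ℕ → ℕ}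
    {B : F.Ω → Prop} {g₀ : ℕ → ℕ → ℕ} {G : ℕ → PtT F → ℕ → MvPolynomial (Option (Fin m)) ℝ}
    {H : ℕ → LnT F → ℕ → MvPolynomial (Option (Fin m)) ℝ}
    (_ : WinB F c i D Dr N₃ N₃ CB a Eb' (y₁ * q) (fun k => t + u k * q) (fun _ => y₁ * q)
      (fun _ => y₁ * q) (fun k l => L l (t + u k * q) (t + u k * q)) b κ z B g₀ G H)
    {f : ℕ → ℕ} {n p k₀ Y : ℕ} {u₀ β y₂ : ℝ}, ChF u N₃ n p u₀ K f → k₀ ≤ N₃ → |u k₀| ≤ K →
    (∀ k < n, z (f k) (f (k + 1)) = ⌊(t + u (f (k + 1)) * q) * J⌋₊ -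
      ⌊(t + u (f k) * q) * J⌋₊) → 0 ≤ ε → Y = ⌊y₂ * (q * J)⌋₊ → 4 * (CB * y₁) ≤ y₂ →
    8 * y₁ ≤ y₂ → 16 * ε ≤ y₂ → 16 * β ≤ y₂ * p → 8 ≤ y₂ * (q * J) → (n : ℝ) ≤ 2 ^ Y →
    (∀ l ≤ i, |Sl l| ≤ β) →
    (∀ k < n, (Sl (i - 1) - Sl i) * (u (f k) - u k₀) ≤ 0) → ∀ ω, B ω →
    |grd (G (f n) (ptr F J ω) i) (bt F ω) (some (c (i - 1))) -
      grd (G (f 0) (ptr F J ω) i) (bt F ω) (some (c (i - 1)))| ≤
      2 ^ (C * Y) * (2 ^ g₀ k₀ (i - 1) / 2 ^ g₀ k₀ i) := by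
  obtain ⟨C, hC, h⟩ := winb_tel D i
  refine ⟨C + 2, by omega, ?_⟩
  intro m S P P₂ θ θ₂ c Pt L T Sl kd S₀ N A V S₂ N' V' Eb e₂ K ε q t R J Dr N₃ F CB a Eb' y₁ κ u b
    z B g₀ G H W f n p k₀ Y u₀ β y₂ ch hk₀ huk hz hε hY hy₁ hy₁' hεy hβ hy₂ hn hSl hslo ω hω
  have hq := R.q0
  have hJ : (0 : ℝ) ≤ J := Nat.cast_nonneg J
  obtain ⟨U, hU⟩ : ∃ U : ℝ, U = q * J := ⟨_, rfl⟩
  have hU0 : 0 ≤ U := by rw [hU]; positivity
  have hp : (0 : ℝ) < p := by exact_mod_cast ch.p1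
  have hYl : y₂ * U - 1 ≤ Y := by
    rw [hY, hU]
    linarith [Nat.lt_floor_add_one (y₂ * (q * J))]
  rw [← hU] at hy₂
  have hY7 : y₂ * U / 2 + 3 ≤ Y := by linarith
  have hβp : β / p ≤ y₂ / 16 := by
    rw [div_le_iff₀ hp]
    linarith
  have hβ0 : 0 ≤ β := (abs_nonneg _).trans (hSl i le_rfl)
  have hβU : 2 * (β / p) * U ≤ y₂ * U / 8 := by
    have := mul_le_mul_of_nonneg_right hβp hU0
    linarith
  have hεU : 2 * ε * U ≤ y₂ * U / 8 := by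
    have := mul_le_mul_of_nonneg_right hεy hU0
    linarith
  have hy₁U : 2 * y₁ * U ≤ y₂ * U / 4 := by
    have := mul_le_mul_of_nonneg_right hy₁' hU0
    linarith
  have hβU0 : 0 ≤ β / p * U := by positivity
  have hlv : ∀ k ≤ n, ∀ k' ≤ n, ∀ l ≤ i, Sl l * ((u (f k) - u (f k')) * U) - 2 * ε * U ≤
      (L l (t + u (f k) * q) (t + u (f k) * q) - L l (t + u (f k') * q) (t + u (f k') * q)) * J ∧
      (L l (t + u (f k) * q) (t + u (f k) * q) - L l (t + u (f k') * q) (t + u (f k') * q)) * J ≤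
      Sl l * ((u (f k) - u (f k')) * U) + 2 * ε * U := by
    intro k hk k' hk' l hl
    rw [hU]
    exact RecQ.dLd R hl (ch.fK k hk) (ch.fK k' hk') J
  have hstepS : ∀ l ≤ i, |Sl l * (1 / p * U)| ≤ β / p * U := by
    intro l hl
    rw [abs_mul, abs_of_nonneg (show (0 : ℝ) ≤ 1 / p * U by positivity)]
    calc _ ≤ β * (1 / p * U) := mul_le_mul_of_nonneg_right (hSl l hl) (by positivity)
      _ = _ := by ring
  have hCBq : CB * (y₁ * q * J) ≤ Y := by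
    have h1 : CB * (y₁ * q * J) = CB * y₁ * U := by rw [hU]; ring
    have h2 := mul_le_mul_of_nonneg_right hy₁ hU0
    rw [h1]
    linarith
  have hnum : ∀ k ≤ N₃, ∀ l ≤ i, L l (t + u k * q) (t + u k * q) * J - y₁ * U ≤ g₀ k l ∧
      (g₀ k l : ℝ) ≤ L l (t + u k * q) (t + u k * q) * J := fun k hk l hl => by
    obtain ⟨h1, h2⟩ := W.sds k hk l hl
    refine ⟨?_, h2⟩
    have : (L l (t + u k * q) (t + u k * q) - y₁ * q) * J =
        L l (t + u k * q) (t + u k * q) * J - y₁ * U := by rw [hU]; ring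
    linarith
  have hmain := h W (f := f) (jj := fun k => f (k + 1)) (n := n) (i := i)
    (ρ := 2 ^ Y * (2 ^ g₀ k₀ (i - 1) / 2 ^ g₀ k₀ i)) R.inj hi le_rfl ch.fN
    (fun k hk => ⟨ch.fN (k + 1) hk, hz k hk, by
      have h1 : u (f k) ≤ u (f (k + 1)) := by
        rw [← ch.le hk]
        have : (0 : ℝ) ≤ 1 / p := by positivity
        linarith
      have := mul_le_mul_of_nonneg_right h1 hq.le
      show t + u (f k) * q ≤ t + u (f (k + 1)) * q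
      linarith⟩) hCBq (by
      have : (3 : ℝ) ≤ Y := by linarith
      exact_mod_cast this)
    (fun k hk l hl => by
      have h1 := hlv (k + 1) hk k hk.le l hl
      have h2 : u (f (k + 1)) - u (f k) = 1 / p := by rw [← ch.le hk]; ring
      rw [h2] at h1
      have h3 := abs_le.1 (hstepS l hl)
      constructor
      · linarith [h1.2, h3.2]
      · have h4 : (L l (t + u (f k) * q) (t + u (f k) * q) -
          L l (t + u (f (k + 1)) * q) (t + u (f (k + 1)) * q)) * J =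
          -((L l (t + u (f (k + 1)) * q) (t + u (f (k + 1)) * q) -
            L l (t + u (f k) * q) (t + u (f k) * q)) * J) := by ring
        rw [h4]
        linarith [h1.1, h3.1])
    (fun k hk => by
      rw [div_le_iff₀ (by positivity)]
      have e1 : (2 : ℝ) ^ Y * (2 ^ g₀ k₀ (i - 1) / 2 ^ g₀ k₀ i) * 2 ^ g₀ (f k) i =
          2 ^ (Y + g₀ k₀ (i - 1) + g₀ (f k) i) / 2 ^ g₀ k₀ i := by
        rw [pow_add, pow_add]
        ring
      rw [e1, le_div_iff₀ (by positivity), ← pow_add]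
      refine pow_le_pow_right₀ (by norm_num) ?_
      have h1 := (hnum (f k) (ch.fN k hk.le) (i - 1) (by omega)).2
      have h2 := (hnum (f k) (ch.fN k hk.le) i le_rfl).1
      have h3 := (hnum k₀ hk₀ (i - 1) (by omega)).1
      have h4 := (hnum k₀ hk₀ i le_rfl).2
      have h5 := (RecQ.dLd R (show i - 1 ≤ i by omega) (ch.fK k hk.le) huk J).2
      have h6 := (RecQ.dLd R (le_refl i) (ch.fK k hk.le) huk J).1
      rw [← hU] at h5 h6
      have h7 := mul_le_mul_of_nonneg_right (hslo k hk) hU0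
      have h8 : ((g₀ (f k) (i - 1) + g₀ k₀ i : ℕ) : ℝ) ≤
          ((Y + g₀ k₀ (i - 1) + g₀ (f k) i : ℕ) : ℝ) := by
        push_cast
        have h9 : (Sl (i - 1) - Sl i) * (u (f k) - u k₀) * U =
          Sl (i - 1) * ((u (f k) - u k₀) * U) - Sl i * ((u (f k) - u k₀) * U) := by ring
        linarith
      exact_mod_cast h8) ω hω
  refine hmain.trans ?_
  have e2 : (2 : ℝ) ^ ((C + 2) * Y) = 2 ^ Y * (2 ^ (C * Y) * 2 ^ Y) := by
    rw [← pow_add, ← pow_add]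
    congr 1
    ring
  rw [e2]
  have p1 : (0 : ℝ) ≤ 2 ^ (C * Y) * (2 ^ Y * (2 ^ g₀ k₀ (i - 1) / 2 ^ g₀ k₀ i)) := by positivity
  calc _ ≤ 2 ^ Y * (2 ^ (C * Y) * (2 ^ Y * (2 ^ g₀ k₀ (i - 1) / 2 ^ g₀ k₀ i))) :=
        mul_le_mul_of_nonneg_right hn p1
    _ = _ := by ring

end Pool.TN
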