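import Pool.Agent.H23.D2.Par

/-!
# The thin chain of an earlier window

`evS_sta`: two windows `w₁ ≤ w₂` of one event, with one radius. If the sides of the thin chain of
`w₂` are not larger than those of `w₁`, up to `q` (the coordinates are static), then the data of the
window `w₂` hold with the thin chain of the window `w₁`.
-/

set_option autoImplicit false

namespace Pool.RCV

open Finset Real MvPolynomial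
open Pool.Agent.H49.Ent Pool.Agent.H32.Dense Pool.STK Pool.KA Pool.KSAT Pool.K2S Pool.PB Pool.S6C
open Pool.GEN Pool.CHT Pool.CHX Pool.ISO Pool.D2R
open Pool.FLF (Fam.sub)

variable {m J : ℕ}

/-- **The thin chain of an earlier window.** -/
theorem evS_sta (D Dr r : ℕ) (hD : 1 ≤ D) (hDr : D ≤ Dr) : ∃ C : ℕ, 1 ≤ C ∧ ∀ {m J : ℕ} {F : Fam m J}
    {c : ℕ → Fin m} {w₁ w₂ v₁ v₂ M₁ M₂ e₁ e₂ h₁ h₂ p₁ p₂ q p' : ℕ} {z₁ z₂ : ℕ → ℕ}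
    {R₁ R₂ : ℕ → Prop} {g₁ gc₁ gT₁ g₀₁ g₂ gc₂ gT₂ g₀₂ : ℕ → ℕ} {κ₁ κ₂ κ' : ℝ} {B : F.Ω → Prop}
    {G₁ G₂ : PtT F → ℕ → MvPolynomial (Option (Fin m)) ℝ}
    {H₁ H₂ : LnT F → ℕ → MvPolynomial (Option (Fin m)) ℝ}
    {T₁ T₂ : PtT F → ℕ → MvPolynomial (Option (Fin m)) ℝ}
    {TH₁ TH₂ : LnT F → ℕ → MvPolynomial (Option (Fin m)) ℝ}
    {Gt₁ Gt₂ : PtT F → MvPolynomial (Option (Fin m)) ℝ}
    {Ht₁ Ht₂ : LnT F → MvPolynomial (Option (Fin m)) ℝ},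
    Set.InjOn c (Set.Iio r) → w₁ ≤ w₂ → w₂ ≤ J → w₁ + v₁ = w₂ + v₂ →
    EvS F c r D Dr w₁ v₁ M₁ z₁ e₁ h₁ p₁ R₁ g₁ gc₁ gT₁ g₀₁ κ₁ B G₁ H₁ T₁ TH₁ Gt₁ Ht₁ →
    EvS F c r D Dr w₂ v₂ M₂ z₂ e₂ h₂ p₂ R₂ g₂ gc₂ gT₂ g₀₂ κ₂ B G₂ H₂ T₂ TH₂ Gt₂ Ht₂ →
    0 ≤ κ₂ → κ₂ * 2 ^ (r + 1) ≤ 1 → κ₂ * 2 ^ r ≤ κ' → (∀ l < r, gT₂ l ≤ gT₁ l + q) →
    p' + C * (h₂ + q + 1) ≤ p₂ →
    ∃ B' : F.Ω → Prop, Sub B' B ∧ Pe F.p B ≤ 2 ^ r * Pe F.p B' ∧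
      EvS F c r D Dr w₂ v₂ M₂ z₂ (max e₁ e₂) (C * (h₂ + q + 1)) p' (fun _ => False) g₂ gc₂ gT₁
        g₀₂ κ' B' G₂ H₂ T₁ (fun s => TH₁ (co (w₂ - w₁) s)) Gt₂ Ht₂ := by
  classical
  obtain ⟨C₁, hmv⟩ := move_all D (r + 1) hD
  obtain ⟨C₂, hbs⟩ := box_swap D (r + 1)
  obtain ⟨C₃, hls⟩ := lab_swap D (r + 1)
  obtain ⟨C₄, hrs⟩ := relv_swap Dr (r + 1)
  obtain ⟨X, hX⟩ : ∃ X, X = (C₂ + 2) * (C₁ + 2) := ⟨_, rfl⟩
  refine ⟨(C₃ + C₄ + 1) * (2 * X), by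
    have : 1 ≤ (C₃ + C₄ + 1) * (2 * X) := by
      rw [hX]
      exact Nat.one_le_iff_ne_zero.2 (by positivity)
    exact this, ?_⟩
  intro m J F c w₁ w₂ v₁ v₂ M₁ M₂ e₁ e₂ h₁ h₂ p₁ p₂ q p' z₁ z₂ R₁ R₂ g₁ gc₁ gT₁ g₀₁ g₂ gc₂ gT₂
    g₀₂ κ₁ κ₂ κ' B G₁ G₂ H₁ H₂ T₁ T₂ TH₁ TH₂ Gt₁ Gt₂ Ht₁ Ht₂ hc hw hw2 hrad hE₁ hE₂ hκ0 hκ hκ'
    hg hp'
  have hp := Pe_nonneg F.isLaw
  have h2 : (0 : ℝ) < 2 ^ r := by positivity
  have hR : RelvF F c r (w₂ + v₂) w₂ gT₂ D h₂ κ₂ B T₂ := hE₂.relt.mono hDr le_rfl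
  have hT₁ := chok_co hE₁.thin hw hw2
  rw [hrad] at hT₁
  obtain ⟨B₁, k1, k2, k3⟩ := hmv (κ' := 1) (Nat.lt_succ_self r) hc hR (fun _ h => h)
    (by rw [one_mul]) hκ hT₁
  have hP1 : Pe F.p B ≤ 2 ^ r * Pe F.p B₁ := by
    rw [div_le_iff₀ h2] at k2
    linarith
  have hP1' : 1 / 2 ^ r * Pe F.p B ≤ Pe F.p B₁ := by
    rw [one_div, inv_mul_le_iff₀ h2]
    exact hP1
  have hκ'0 : 0 ≤ κ' := (mul_nonneg hκ0 h2.le).trans hκ'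
  have hκκ : κ₂ ≤ κ' * (1 / 2 ^ r) := by
    rw [mul_one_div, le_div_iff₀ h2]
    exact hκ'
  -- the exponent of the two inclusions
  obtain ⟨p₀, hp₀⟩ : ∃ p₀, p₀ = C₂ * (C₁ * (h₂ + 1) + q + 1) + C₁ * (h₂ + 1) := ⟨_, rfl⟩
  have hp₀X : p₀ + 1 ≤ X * (h₂ + q + 1) := by
    rw [hp₀, hX]
    nlinarith [Nat.zero_le (C₁ * q), Nat.zero_le (C₂ * q), Nat.zero_le (C₂ * C₁ * q),
      Nat.zero_le (C₂ * h₂), Nat.zero_le (C₁ * h₂), Nat.zero_le (C₂ * C₁), Nat.zero_le C₁,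
      Nat.zero_le C₂, Nat.zero_le (C₂ * C₁ * h₂)]
  have hdiv : ∀ {x y n : ℕ}, x ≤ y → (2 : ℝ) ^ x / 2 ^ n ≤ 2 ^ y / 2 ^ n := fun h =>
    div_le_div_of_nonneg_right (pow_le_pow_right₀ (by norm_num) h) (by positivity)
  have h21 : ∀ ω, B₁ ω → ∀ b, NBx c (T₂ (ptr F J ω)) gT₂ (w₂ + v₂) (F.t ω) r b → ∀ j < r,
      |b (some (c j)) - eval b (T₁ (ptr F J ω) j)| ≤ 2 ^ p₀ / 2 ^ gT₁ j := fun ω hω b hb j hj =>
    (k3 ω hω b hb j hj).trans (hdiv (by rw [hp₀]; omega))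
  have h12 : ∀ ω, B₁ ω → ∀ b, NBx c (T₁ (ptr F J ω)) gT₁ (w₂ + v₂) (F.t ω) r b → ∀ j < r,
      |b (some (c j)) - eval b (T₂ (ptr F J ω) j)| ≤ 2 ^ p₀ / 2 ^ gT₂ j := fun ω hω b hb j hj =>
    (hbs (Nat.lt_succ_self r) hc (hE₂.thin.degG _) (hE₂.thin.depG _) (hE₁.thin.degG _)
      (hE₁.thin.depG _) hg (fun b hb j hj => k3 ω hω b hb j hj) b hb j hj).trans
      (hdiv (by rw [hp₀]; omega))
  have hXb : (C₃ + C₄ + 1) * (X * (h₂ + q + 1)) ≤ (C₃ + C₄ + 1) * (2 * X) * (h₂ + q + 1) := by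
    have : (C₃ + C₄ + 1) * (2 * X) * (h₂ + q + 1) =
      2 * ((C₃ + C₄ + 1) * (X * (h₂ + q + 1))) := by ring
    omega
  have hh : h₂ ≤ (C₃ + C₄ + 1) * (X * (h₂ + q + 1)) := by
    have h3 : 1 ≤ (C₃ + C₄ + 1) * X := by
      rw [hX]
      exact Nat.one_le_iff_ne_zero.2 (by positivity)
    calc h₂ ≤ 1 * (h₂ + q + 1) := by omega
      _ ≤ (C₃ + C₄ + 1) * X * (h₂ + q + 1) := Nat.mul_le_mul_right _ h3
      _ = _ := by ring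
  have hc3 : C₃ * (p₀ + 1) ≤ (C₃ + C₄ + 1) * (X * (h₂ + q + 1)) :=
    Nat.mul_le_mul (by omega) hp₀X
  have hc4 : h₂ + C₄ * (p₀ + 1) ≤ (C₃ + C₄ + 1) * (2 * X) * (h₂ + q + 1) := by
    have h3 : C₄ * (p₀ + 1) ≤ (C₃ + C₄ + 1) * (X * (h₂ + q + 1)) :=
      Nat.mul_le_mul (by omega) hp₀X
    have : (C₃ + C₄ + 1) * (2 * X) * (h₂ + q + 1) =
      2 * ((C₃ + C₄ + 1) * (X * (h₂ + q + 1))) := by ring
    omega
  have hbig : h₂ ≤ (C₃ + C₄ + 1) * (2 * X) * (h₂ + q + 1) := hh.trans hXb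
  refine ⟨B₁, k1, hP1, ?_⟩
  exact
    { ball := (hE₂.ball.mono le_rfl (fun _ => le_rfl) le_rfl (le_max_right _ _)).sub k1
      cls := hE₂.cls.sub k1
      relb := relvF_exp (hE₂.relb.sub k1 hP1' hκ'0 hκκ) hbig
      near := fun ω hω => hE₂.near ω (k1 ω hω)
      rad := fun i hi => ((hE₂.rad i hi).mono le_rfl (fun _ => le_rfl) le_rfl
        (le_max_right _ _)).sub k1
      top := (hE₂.top.mono le_rfl (fun _ => le_rfl) le_rfl (le_max_right _ _)).sub k1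
      gle := hE₂.gle
      thin := (hT₁.mono le_rfl (fun _ => le_rfl) le_rfl (le_max_left _ _)).sub k1
      relt := relvF_exp (hrs (Nat.lt_succ_self r) hc hE₂.relt k1 hP1' hκ'0 hκκ
        (fun y l => (hE₂.thin.degG y l).trans hDr) hE₂.thin.depG
        (fun y l => (hE₁.thin.degG y l).trans hDr) hE₁.thin.depG h21 h12) hc4
      rgh := fun l _ h => h.elim
      dG := hE₂.dG
      dH := hE₂.dH
      pG := hE₂.pG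
      pH := hE₂.pH
      pos := fun ω hω => (hE₂.pos ω (k1 ω hω)).trans (inv_mono (by omega))
      agr := fun ω hω b hb => by
        have h3 := hls (c := c) (i := r) (p := p₀) (a := w₂ + v₂) (t := F.t ω)
          (M := 1 / 2 ^ p₂) (G := T₂ (ptr F J ω)) (G' := T₁ (ptr F J ω)) (g := gT₂) (g' := gT₁)
          (Q := Gt₂ (ptr F J ω) - Ht₂ (slam F w₂ ω)) (Nat.lt_succ_self r) hc
          (hE₂.thin.degG _) (hE₂.thin.depG _)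
          (fun y y' hn hy => by
            rw [map_sub, map_sub, hE₂.pG (ptr F J ω) y y' hn hy, hE₂.pH (slam F w₂ ω) y y' hn hy])
          ((totalDegree_sub _ _).trans (max_le (hE₂.dG _) (hE₂.dH _))) (by positivity)
          (h12 ω hω) (fun b hb => by
            rw [map_sub]
            exact hE₂.agr ω (k1 ω hω) b hb) b hb
        rw [map_sub] at h3
        refine h3.trans ?_
        rw [mul_one_div, div_le_div_iff₀ (by positivity) (by positivity), one_mul, ← pow_add]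
        exact pow_le_pow_right₀ (by norm_num) (by omega) }

end Pool.RCV
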