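import Pool.Agent.H88.D2.Jst
import Pool.Agent.H88.D2.Mix
import Pool.Agent.H60.D2.Flt

/-!
# One rough and one static coordinate: the class theorem

`stv_cls`: four windows `W 0 ≤ W 1 ≤ W 2 ≤ W 3` and one radius; the first coordinate has slope one,
the second one is static; the fat boxes of the target are steep. Then the target has a label of the
pair `(W 2, W 1)` of natural precision: if this is above the threshold, the event is small.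
-/

set_option autoImplicit false

namespace Pool.JST

open Finset Real MvPolynomial
open Pool.Agent.H49.Ent Pool.Agent.H32.Dense Pool.STK Pool.KA Pool.KSAT Pool.K2S Pool.PB Pool.S6C
open Pool.GEN Pool.CHT Pool.CHX Pool.ISO Pool.D2R Pool.D2Z Pool.D2F Pool.RCV Pool.AFT
open Pool.LBT (ThrOf)
open Pool.FLF (Fam.sub)
open Pool.PB.Trl (rt rt_mem t_rt)

variable {m J : ℕ}

section

variable {F : Fam m J} {c : ℕ → Fin m} {a v q x : ℕ} {g₀ gT : ℕ → ℕ} {U : ℝ}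
  {B : F.Ω → Prop} {G₀ : PtT F → ℕ → MvPolynomial (Option (Fin m)) ℝ}
  {H₀ : LnT F → ℕ → MvPolynomial (Option (Fin m)) ℝ}
  {T : PtT F → ℕ → MvPolynomial (Option (Fin m)) ℝ}
  {TH : LnT F → ℕ → MvPolynomial (Option (Fin m)) ℝ}

/-- The slope of the static coordinate. -/
theorem ex_one (hV : ROut1 F c 1 a a v g₀ gT q U B G₀ H₀ T TH (fun s => TH s 1)) (haJ : a ≤ J)
    (hdG : ∀ y l, DepC c l (G₀ y l)) (hdT : ∀ s, ∀ l < 2, DepC c l (TH s l))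
    (hU : U ≤ 2 ^ x) (n1 : gT 0 + g₀ 1 ≤ x + g₀ 0 + q) {ω : F.Ω} (hω : B ω)
    {V : Option (Fin m) → ℝ} (hVn : V none = 0) :
    |dd (TH (slam F a ω) 1) (bt F ω) V - dd (G₀ (ptr F J ω) 1) (bt F ω) V| ≤
      2 ^ (2 * x + 1) * (2 ^ g₀ 0 / 2 ^ g₀ 1) * |V (some (c 0))| := by
  have h1 := rel1 hV haJ hω V
  rw [nrm_one (hdT _ 0 (by norm_num)) hVn, nrm_one (hdG _ 0) hVn] at h1
  refine h1.trans ?_
  have f1 : (2 : ℝ) ^ gT 0 / 2 ^ q ≤ 2 ^ x * (2 ^ g₀ 0 / 2 ^ g₀ 1) := by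
    rw [← mul_div_assoc, div_le_div_iff₀ (by positivity) (by positivity), ← pow_add, ← pow_add,
      ← pow_add]
    exact pow_le_pow_right₀ (by norm_num) n1
  have h2 : U / 2 ^ q * (2 ^ gT 0 * |V (some (c 0))|) ≤
      2 ^ x * 2 ^ x * (2 ^ g₀ 0 / 2 ^ g₀ 1) * |V (some (c 0))| := by
    calc U / 2 ^ q * (2 ^ gT 0 * |V (some (c 0))|) =
          U * (2 ^ gT 0 / 2 ^ q) * |V (some (c 0))| := by ring
      _ ≤ 2 ^ x * (2 ^ x * (2 ^ g₀ 0 / 2 ^ g₀ 1)) * |V (some (c 0))| :=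
          mul_le_mul_of_nonneg_right (mul_le_mul hU f1 (by positivity) (by positivity))
            (abs_nonneg _)
      _ = _ := by ring
  have h3 : U / 2 ^ g₀ 1 * (2 ^ g₀ 0 * |V (some (c 0))|) ≤
      2 ^ x * 2 ^ x * (2 ^ g₀ 0 / 2 ^ g₀ 1) * |V (some (c 0))| := by
    have h4 : (2 : ℝ) ^ x ≤ 2 ^ x * 2 ^ x :=
      le_mul_of_one_le_left (by positivity) (one_le_pow₀ (by norm_num))
    calc U / 2 ^ g₀ 1 * (2 ^ g₀ 0 * |V (some (c 0))|) =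
          U * ((2 ^ g₀ 0 / 2 ^ g₀ 1) * |V (some (c 0))|) := by ring
      _ ≤ 2 ^ x * 2 ^ x * ((2 ^ g₀ 0 / 2 ^ g₀ 1) * |V (some (c 0))|) :=
          mul_le_mul_of_nonneg_right (hU.trans h4) (by positivity)
      _ = _ := by ring
  refine (add_le_add h2 h3).trans (le_of_eq ?_)
  rw [show 2 * x + 1 = x + x + 1 by ring, pow_succ, pow_add]
  ring

/-- The speed of the slope of the static coordinate. -/
theorem ex_two (hV : ROut1 F c 1 a a v g₀ gT q U B G₀ H₀ T TH (fun s => TH s 1)) (haJ : a ≤ J)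
    (hdG : ∀ y l, DepC c l (G₀ y l)) (hdT : ∀ s, ∀ l < 2, DepC c l (TH s l))
    (hU : U ≤ 2 ^ x) (n1 : gT 0 + g₀ 1 ≤ x + g₀ 0 + q) {ω : F.Ω} (hω : B ω)
    (hcur : ∀ V : Option (Fin m) → ℝ, |hs (G₀ (ptr F J ω) 1) (bt F ω) (bd F ω) V| ≤
      2 ^ x * (2 ^ a / 2 ^ g₀ 1) * nrm c (G₀ (ptr F J ω)) g₀ a 1 (bt F ω) V) :
    |hs (TH (slam F a ω) 1) (bt F ω) (bd F ω) (ev (c 0))| ≤
      2 ^ (2 * x + 2) * (2 ^ a * 2 ^ g₀ 0 / 2 ^ g₀ 1) := by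
  have e0 : ∀ P : MvPolynomial (Option (Fin m)) ℝ, dd P (bt F ω) 0 = 0 := fun P => by
    have := dd_smul P (bt F ω) (0 : Option (Fin m) → ℝ) 0
    rwa [zero_smul, zero_mul] at this
  have h1 := rel2 hV haJ hω (ev (c 0)) 0
  have z1 : nrz c (TH (slam F a ω)) gT (a + v) 1 (bt F ω) (bd F ω) (ev (c 0)) 0 = 0 := by
    unfold nrz
    rw [Finset.sum_range_one, hs_nil (hdT _ 0 (by norm_num)) _ _ (ev_none _), e0]
    simp
  have z2 : nrz c (G₀ (ptr F J ω)) g₀ a 1 (bt F ω) (bd F ω) (ev (c 0)) 0 = 0 := by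
    unfold nrz
    rw [Finset.sum_range_one, hs_nil (hdG _ 0) _ _ (ev_none _), e0]
    simp
  have s1 : nrm c (G₀ (ptr F J ω)) g₀ a 1 (bt F ω) (ev (c 0)) = 2 ^ g₀ 0 := by
    rw [nrm_one (hdG _ 0) (ev_none _), ev_self, abs_one, mul_one]
  have s2 : nrm c (TH (slam F a ω)) gT (a + v) 1 (bt F ω) (ev (c 0)) = 2 ^ gT 0 := by
    rw [nrm_one (hdT _ 0 (by norm_num)) (ev_none _), ev_self, abs_one, mul_one]
  have h2 := hcur (ev (c 0))
  rw [s1] at h2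
  rw [e0, e0, add_zero, add_zero, z1, z2, s1, s2, add_zero, add_zero] at h1
  have h3 := nrm_bd hV hω
  rw [Nat.cast_one, one_mul] at h3
  obtain ⟨κh, hκh⟩ : ∃ κh : ℝ, κh = 2 ^ a * 2 ^ g₀ 0 / 2 ^ g₀ 1 := ⟨_, rfl⟩
  have hκ0 : 0 < κh := by rw [hκh]; positivity
  have f1 : (2 : ℝ) ^ gT 0 / 2 ^ q ≤ 2 ^ x * (2 ^ g₀ 0 / 2 ^ g₀ 1) := by
    rw [← mul_div_assoc, div_le_div_iff₀ (by positivity) (by positivity), ← pow_add, ← pow_add,
      ← pow_add]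
    exact pow_le_pow_right₀ (by norm_num) n1
  have h4 : U / 2 ^ q * (2 ^ a * 2 ^ gT 0) ≤ 2 ^ x * 2 ^ x * κh := by
    calc U / 2 ^ q * (2 ^ a * 2 ^ gT 0) = U * (2 ^ gT 0 / 2 ^ q) * 2 ^ a := by ring
      _ ≤ 2 ^ x * (2 ^ x * (2 ^ g₀ 0 / 2 ^ g₀ 1)) * 2 ^ a := mul_le_mul_of_nonneg_right
          (mul_le_mul hU f1 (by positivity) (by positivity)) (by positivity)
      _ = _ := by rw [hκh]; ring
  have h5 : U / 2 ^ g₀ 1 * (nrm c (G₀ (ptr F J ω)) g₀ a 1 (bt F ω) (bd F ω) * 2 ^ g₀ 0) ≤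
      2 ^ x * (1 + 2 ^ x) * κh := by
    calc U / 2 ^ g₀ 1 * (nrm c (G₀ (ptr F J ω)) g₀ a 1 (bt F ω) (bd F ω) * 2 ^ g₀ 0) ≤
          2 ^ x / 2 ^ g₀ 1 * ((1 + 2 ^ x) * 2 ^ a * 2 ^ g₀ 0) := by
          refine mul_le_mul (div_le_div_of_nonneg_right hU (by positivity))
            (mul_le_mul_of_nonneg_right (h3.trans ?_) (by positivity))
            (mul_nonneg (nrm_nonneg _ _ _ _ _ _ _) (by positivity)) (by positivity)
          exact mul_le_mul_of_nonneg_right (by linarith) (by positivity)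
      _ = _ := by rw [hκh]; ring
  have h6 : (2 : ℝ) ^ x * (2 ^ a / 2 ^ g₀ 1) * 2 ^ g₀ 0 = 2 ^ x * κh := by
    rw [hκh]
    ring
  rw [h6] at h2
  rw [← hκh]
  have e1 : hs (TH (slam F a ω) 1) (bt F ω) (bd F ω) (ev (c 0)) =
      (hs (TH (slam F a ω) 1) (bt F ω) (bd F ω) (ev (c 0)) -
        hs (G₀ (ptr F J ω) 1) (bt F ω) (bd F ω) (ev (c 0))) +
      hs (G₀ (ptr F J ω) 1) (bt F ω) (bd F ω) (ev (c 0)) := by ring
  rw [e1]
  refine (abs_add_le _ _).trans ((add_le_add (h1.trans (add_le_add h4 h5)) h2).trans ?_)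
  have h7 : (1 : ℝ) ≤ 2 ^ x := one_le_pow₀ (by norm_num)
  have h8 : (2 : ℝ) ^ (2 * x + 2) = 4 * (2 ^ x * 2 ^ x) := by
    rw [show 2 * x + 2 = x + x + 2 by ring, pow_add, pow_add]
    ring
  rw [h8]
  have h9 : (2 : ℝ) ^ x ≤ 2 ^ x * 2 ^ x := le_mul_of_one_le_left (by positivity) h7
  calc 2 ^ x * 2 ^ x * κh + 2 ^ x * (1 + 2 ^ x) * κh + 2 ^ x * κh =
        (2 * (2 ^ x * 2 ^ x) + 2 * 2 ^ x) * κh := by ring
    _ ≤ (4 * (2 ^ x * 2 ^ x)) * κh := mul_le_mul_of_nonneg_right (by linarith) hκ0.le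

end

/-- Smaller units of a near list. -/
theorem Nc.units {c : ℕ → Fin m} {g g' : ℕ → ℕ} {a a' k : ℕ} {K : ℝ}
    {χ φ : ℕ → Option (Fin m) → ℝ} (h : Nc c g' a' 2 K χ φ) (hK : 0 ≤ K)
    (u0 : a' + g 0 ≤ g' 0 + a + k) (u1 : a' + g 1 ≤ g' 1 + a + k)
    (u2 : g' 0 + g 1 ≤ g' 1 + g 0 + k) : Nc c g a 2 (K * 2 ^ k) χ φ := by
  intro l hl V
  have hq : ∀ {x y z w : ℕ}, x + y ≤ z + w + k →
      (2 : ℝ) ^ x / 2 ^ z ≤ 2 ^ k * (2 ^ w / 2 ^ y) := by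
    intro x y z w h1
    rw [← mul_div_assoc, div_le_div_iff₀ (by positivity) (by positivity), ← pow_add, ← pow_add,
      ← pow_add]
    exact pow_le_pow_right₀ (by norm_num) (by omega)
  refine (h l hl V).trans ?_
  rcases Nat.lt_succ_iff_lt_or_eq.1 hl with h1 | h1
  · rw [Nat.lt_one_iff.1 h1, en_zero, en_zero]
    calc K / 2 ^ g' 0 * (2 ^ a' * |V none|) = K * (2 ^ a' / 2 ^ g' 0) * |V none| := by ring
      _ ≤ K * (2 ^ k * (2 ^ a / 2 ^ g 0)) * |V none| :=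
          mul_le_mul_of_nonneg_right (mul_le_mul_of_nonneg_left (hq u0) hK) (abs_nonneg _)
      _ = _ := by ring
  · rw [h1, en_succ, en_succ, en_zero, en_zero]
    calc K / 2 ^ g' 1 * (2 ^ a' * |V none| + 2 ^ g' 0 * |V (some (c 0)) - cv (χ 0) V|) =
          K * (2 ^ a' / 2 ^ g' 1) * |V none| +
            K * (2 ^ g' 0 / 2 ^ g' 1) * |V (some (c 0)) - cv (χ 0) V| := by ring
      _ ≤ K * (2 ^ k * (2 ^ a / 2 ^ g 1)) * |V none| +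
            K * (2 ^ k * (2 ^ g 0 / 2 ^ g 1)) * |V (some (c 0)) - cv (χ 0) V| :=
          add_le_add (mul_le_mul_of_nonneg_right (mul_le_mul_of_nonneg_left (hq u1) hK)
            (abs_nonneg _)) (mul_le_mul_of_nonneg_right (mul_le_mul_of_nonneg_left
            (hq (by omega)) hK) (abs_nonneg _))
      _ = _ := by ring

/-- **The rows of the static coordinate and of the target** from four windows. -/
theorem stv_ev (m D Dr : ℕ) (hD : 1 ≤ D) (hDr : D ≤ Dr) : ∃ C : ℕ, 1 ≤ C ∧ ∀ {J : ℕ} {F : Fam m J}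
    {c : ℕ → Fin m} {Ar M e k : ℕ} {R : ℕ → Prop} {W p : ℕ → ℕ} {z g gc gT g₀ : ℕ → ℕ → ℕ}
    {κ θ : ℝ} {B : F.Ω → Prop} {G : ℕ → PtT F → ℕ → MvPolynomial (Option (Fin m)) ℝ}
    {H : ℕ → LnT F → ℕ → MvPolynomial (Option (Fin m)) ℝ}
    {T : ℕ → PtT F → ℕ → MvPolynomial (Option (Fin m)) ℝ}
    {TH : ℕ → LnT F → ℕ → MvPolynomial (Option (Fin m)) ℝ}
    {Gt : ℕ → PtT F → MvPolynomial (Option (Fin m)) ℝ}
    {Ht : ℕ → LnT F → MvPolynomial (Option (Fin m)) ℝ} (_ : 0 < Pe F.p B),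
    Set.InjOn c (Set.Iio 3) → W 0 ≤ W 1 → W 1 ≤ W 2 → W 2 ≤ W 3 → W 3 ≤ Ar → Ar ≤ J →
    (∀ j < 4, EvS F c 2 D Dr (W j) (Ar - W j) M (z j) e k (p j) R (g j) (gc j) (gT j) (g₀ j) κ B
      (G j) (H j) (T j) (TH j) (Gt j) (Ht j)) → 0 ≤ κ → κ * 2 ^ 24 ≤ 1 →
    (∀ l < 2, gT 2 l ≤ gT 0 l + k) → (∀ l < 2, gT 3 l ≤ gT 0 l + k) →
    C * (k + 1) ≤ p 2 → C * (k + 1) ≤ p 3 → (∀ l < 2, 1 ≤ gT 0 l) →
    (∀ j < 4, ∀ l < 3, e + g₀ j l + C * (k + 1) ≤ J) →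
    (∀ l < 2, e + gT 0 l + C * (k + 1) ≤ J) → 0 ≤ θ →
    (∀ (B' : F.Ω → Prop) (hB' : 0 < Pe F.p B'), Sub B' B →
      Pe F.p B ≤ 2 ^ 24 * Pe F.p B' → (Fam.sub F B' hB').Tm θ) →
    C * (θ + 1) ≤ ((J : ℝ) - W 3) * Real.log 2 → Real.exp (C * (θ + 1)) ≤ 2 ^ k →
    ∃ B' : F.Ω → Prop, Sub B' B ∧ Pe F.p B ≤ 2 ^ 24 * Pe F.p B' ∧
      (∀ q : ℕ, q + C * (k + 1) ≤ p 1 → q + C * (k + 1) ≤ gc 2 2 →
        ROut1 F c 2 (W 1) (W 2) (Ar - W 2) (g₀ 2) (gT 0) q (2 ^ (C * (k + 1))) B' (G 2) (H 2)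
          (T 0) (fun s => TH 0 (co (W 2 - W 0) s)) (Ht 1)) ∧
      ∀ j, 2 ≤ j → j < 4 → ∀ q : ℕ, q + C * (k + 1) ≤ gT 0 1 → q + C * (k + 1) ≤ gc j 1 →
        ROut1 F c 1 (W j) (W j) (Ar - W j) (g₀ j) (gT 0) q (2 ^ (C * (k + 1))) B' (G j) (H j)
          (T 0) (fun s => TH 0 (co (W j - W 0) s)) (fun s => TH 0 (co (W j - W 0) s) 1) := by
  classical
  obtain ⟨C₁, hC₁, hsta⟩ := evS_sta D Dr 2 hD hDr
  obtain ⟨C₂, hC₂, hp2⟩ := pair_out m D 2 hD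
  obtain ⟨C₃, hC₃, hp1⟩ := pair_out m D 1 hD
  obtain ⟨C, hC⟩ : ∃ C : ℕ, C = (C₂ + C₃) * (2 * C₁ + 1) := ⟨_, rfl⟩
  have hC1 : 2 * C₁ ≤ C := by
    rw [hC]
    nlinarith
  have hC2 : C₂ * (2 * C₁ + 1) ≤ C := by
    rw [hC]
    nlinarith [Nat.zero_le (C₃ * (2 * C₁ + 1))]
  have hC3 : C₃ * (2 * C₁ + 1) ≤ C := by
    rw [hC]
    nlinarith [Nat.zero_le (C₂ * (2 * C₁ + 1))]
  have hC2' : C₂ ≤ C := le_trans (Nat.le_mul_of_pos_right _ (by omega)) hC2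
  have hC3' : C₃ ≤ C := le_trans (Nat.le_mul_of_pos_right _ (by omega)) hC3
  refine ⟨C, by omega, ?_⟩
  intro J F c Ar M e k R W p z g gc gT g₀ κ θ B G H T TH Gt Ht hB0 hc w01 w12 w23 w3 hAJ hE hκ0 hκ
    hg2 hg3 hp2' hp3' hgT hJ hJT hθ hTm hCJ hexp
  have hp := Pe_nonneg F.isLaw
  have hc2 : Set.InjOn c (Set.Iio 2) := hc.mono fun x hx => by
    rw [Set.mem_Iio] at hx ⊢
    omega
  have h1k : C₁ * (k + k + 1) ≤ 2 * C₁ * (k + 1) := by nlinarith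
  have h1k' : 2 * C₁ * (k + 1) ≤ C * (k + 1) := Nat.mul_le_mul_right _ hC1
  -- the thin chain of the first window at the window `W 2`
  have E0 := hE 0 (by norm_num)
  have E1 := hE 1 (by norm_num)
  have E2 := hE 2 (by norm_num)
  have E3 := hE 3 (by norm_num)
  obtain ⟨B₁, s1, s2, E2'⟩ := hsta (κ' := κ * 4) (p' := p 2 - 2 * C₁ * (k + 1)) (q := k) hc2
    (w01.trans w12) (by omega) (by omega) E0 E2 hκ0 (by norm_num; linarith) (by norm_num) hg2 (by omega)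
  have hP1 : Pe F.p B ≤ 4 * Pe F.p B₁ := by
    refine s2.trans (le_of_eq ?_)
    norm_num
  have hR1 : 1 / 4 * Pe F.p B ≤ Pe F.p B₁ := by linarith
  -- the thin chain of the first window at the window `W 3`
  have E0b := E0.sub (κ₂ := κ * 4) s1 hR1 (by positivity) (by linarith)
  have E1b := E1.sub (κ₂ := κ * 4) s1 hR1 (by positivity) (by linarith)
  have E3b := E3.sub (κ₂ := κ * 4) s1 hR1 (by positivity) (by linarith)
  obtain ⟨B₂, t1, t2, E3'⟩ := hsta (κ' := κ * 16) (p' := p 3 - 2 * C₁ * (k + 1)) (q := k) hc2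
    ((w01.trans w12).trans w23) (by omega) (by omega) E0b E3b (by positivity)
    (by norm_num; linarith)
    (by norm_num; linarith) hg3 (by omega)
  have hR2 : 1 / 4 * Pe F.p B₁ ≤ Pe F.p B₂ := by
    have : Pe F.p B₁ ≤ 4 * Pe F.p B₂ := t2.trans (le_of_eq (by norm_num))
    linarith
  have E1c := E1b.sub (κ₂ := κ * 16) t1 hR2 (by positivity) (by linarith)
  have E2c := E2'.sub (κ₂ := κ * 16) t1 hR2 (by positivity) (by linarith)
  have hB2 : Sub B₂ B := fun ω hω => s1 ω (t1 ω hω)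
  have hP2 : Pe F.p B ≤ 16 * Pe F.p B₂ := by linarith
  have hpos : ∀ {B' : F.Ω → Prop} {K : ℝ}, Pe F.p B ≤ K * Pe F.p B' → 0 < Pe F.p B' := by
    intro B' K h
    by_contra hcon
    have : Pe F.p B' = 0 := le_antisymm (not_lt.1 hcon) (hp _)
    rw [this, mul_zero] at h
    linarith
  -- the row of the target
  have hhk : C₁ * (k + k + 1) ≤ 2 * C₁ * (k + 1) := h1k
  have hN1 : C₂ * (C₁ * (k + k + 1) + 1) ≤ C * (k + 1) := by
    refine le_trans (Nat.mul_le_mul_left _ (show C₁ * (k + k + 1) + 1 ≤ (2 * C₁ + 1) * (k + 1)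
      by nlinarith)) ?_
    rw [← mul_assoc]
    exact Nat.mul_le_mul_right _ hC2
  have hN2 : C₂ * (C₁ * (k + k + 1) + k + 1) ≤ C * (k + 1) := by
    refine le_trans (Nat.mul_le_mul_left _ (show C₁ * (k + k + 1) + k + 1 ≤
      (2 * C₁ + 1) * (k + 1) by nlinarith)) ?_
    rw [← mul_assoc]
    exact Nat.mul_le_mul_right _ hC2
  have hM1 : C₃ * (C₁ * (k + k + 1) + 1) ≤ C * (k + 1) := by
    refine le_trans (Nat.mul_le_mul_left _ (show C₁ * (k + k + 1) + 1 ≤ (2 * C₁ + 1) * (k + 1)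
      by nlinarith)) ?_
    rw [← mul_assoc]
    exact Nat.mul_le_mul_right _ hC3
  have hM2 : C₃ * (C₁ * (k + k + 1) + k + 1) ≤ C * (k + 1) := by
    refine le_trans (Nat.mul_le_mul_left _ (show C₁ * (k + k + 1) + k + 1 ≤
      (2 * C₁ + 1) * (k + 1) by nlinarith)) ?_
    rw [← mul_assoc]
    exact Nat.mul_le_mul_right _ hC3
  have hkk2 : C₂ * (k + 1) ≤ C * (k + 1) := Nat.mul_le_mul_right _ hC2'
  have hkk3 : C₃ * (k + 1) ≤ C * (k + 1) := Nat.mul_le_mul_right _ hC3'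
  have hW2 : ((J : ℝ) - W 3) * Real.log 2 ≤ ((J : ℝ) - W 2) * Real.log 2 := by
    refine mul_le_mul_of_nonneg_right ?_ (Real.log_pos (by norm_num)).le
    have : (W 2 : ℝ) ≤ W 3 := by exact_mod_cast w23
    linarith
  have hCθ : ∀ {n : ℕ}, n ≤ C → (n : ℝ) * (θ + 1) ≤ C * (θ + 1) := fun hn =>
    mul_le_mul_of_nonneg_right (by exact_mod_cast hn) (by linarith)
  have hTm' : ∀ {B₀ : F.Ω → Prop} {K L : ℝ}, Sub B₀ B → Pe F.p B ≤ K * Pe F.p B₀ → 0 ≤ K →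
      K * L ≤ 2 ^ 24 → 0 < L → ∀ (B' : F.Ω → Prop) (hB' : 0 < Pe F.p B'), Sub B' B₀ →
      Pe F.p B₀ / L ≤ Pe F.p B' → (Fam.sub F B' hB').Tm θ := by
    intro B₀ K L h1 h2 hK h3 hL B' hB' h4 h5
    refine hTm B' hB' (fun ω hω => h1 ω (h4 ω hω)) ?_
    rw [div_le_iff₀ hL] at h5
    calc Pe F.p B ≤ K * Pe F.p B₀ := h2
      _ ≤ K * (Pe F.p B' * L) := mul_le_mul_of_nonneg_left h5 hK
      _ = K * L * Pe F.p B' := by ring
      _ ≤ _ := mul_le_mul_of_nonneg_right h3 (hp _)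
  obtain ⟨B₃, u1, u2, hN⟩ := hp2 (k := k) (θ := θ) (hpos hP2) hc w12 (by omega) (by omega) hDr E1c
    E2c (by positivity) (by norm_num; linarith) hgT
    (fun l hl => by
      have := hJ 2 (by norm_num) l (by omega)
      have : e ⊔ e = e := max_self e
      omega)
    (fun l hl => by
      have := hJT l hl
      have : e ⊔ e = e := max_self e
      omega) hθ (hTm' (K := 16) hB2 hP2 (by norm_num) (by norm_num) (by norm_num))
    (((hCθ hC2').trans hCJ).trans hW2) ((Real.exp_le_exp.2 (hCθ hC2')).trans hexp)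
  have hB3 : Sub B₃ B := fun ω hω => hB2 ω (u1 ω hω)
  have u2' : Pe F.p B₂ ≤ 2 ^ 8 * Pe F.p B₃ := u2.trans (le_of_eq (by norm_num))
  have hP3 : Pe F.p B ≤ 2 ^ 12 * Pe F.p B₃ := by
    norm_num at u2' ⊢
    linarith
  have hR3 : 1 / 2 ^ 8 * Pe F.p B₂ ≤ Pe F.p B₃ := by
    rw [one_div, inv_mul_le_iff₀ (by norm_num)]
    exact u2'
  -- the rows of the static coordinate
  have E2d := E2c.sub (κ₂ := κ * 2 ^ 12) u1 hR3 (by positivity) (by norm_num; linarith)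
  have E3d := E3'.sub (κ₂ := κ * 2 ^ 12) u1 hR3 (by positivity) (by norm_num; linarith)
  have T2 := evS_tgt hc2 E2d (l := 1) (by norm_num)
  obtain ⟨B₄, v1, v2, hV2⟩ := hp1 (k := k) (θ := θ) (hpos hP3) hc2 le_rfl (by omega) rfl hDr T2 T2
    (by positivity) (by norm_num; linarith) (fun l hl => hgT l (by omega))
    (fun l hl => by
      have := hJ 2 (by norm_num) l (by omega)
      have : e ⊔ e = e := max_self e
      omega)
    (fun l hl => by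
      have := hJT l (by omega)
      have : e ⊔ e = e := max_self e
      omega) hθ (hTm' (K := 2 ^ 12) hB3 hP3 (by norm_num) (by norm_num) (by norm_num))
    (((hCθ hC3').trans hCJ).trans hW2) ((Real.exp_le_exp.2 (hCθ hC3')).trans hexp)
  have v2' : Pe F.p B₃ ≤ 2 ^ 6 * Pe F.p B₄ := v2.trans (le_of_eq (by norm_num))
  have hB4 : Sub B₄ B := fun ω hω => hB3 ω (v1 ω hω)
  have hP4 : Pe F.p B ≤ 2 ^ 18 * Pe F.p B₄ := by
    norm_num at v2' hP3 ⊢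
    linarith
  have hR4 : 1 / 2 ^ 6 * Pe F.p B₃ ≤ Pe F.p B₄ := by
    rw [one_div, inv_mul_le_iff₀ (by norm_num)]
    exact v2'
  have E3e := E3d.sub (κ₂ := κ * 2 ^ 18) v1 hR4 (by positivity) (by norm_num; linarith)
  have T3 := evS_tgt hc2 E3e (l := 1) (by norm_num)
  obtain ⟨B₅, x1, x2, hV3⟩ := hp1 (k := k) (θ := θ) (hpos hP4) hc2 le_rfl (by omega) rfl hDr T3 T3
    (by positivity) (by norm_num; linarith) (fun l hl => hgT l (by omega))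
    (fun l hl => by
      have := hJ 3 (by norm_num) l (by omega)
      have : e ⊔ e = e := max_self e
      omega)
    (fun l hl => by
      have := hJT l (by omega)
      have : e ⊔ e = e := max_self e
      omega) hθ (hTm' (K := 2 ^ 18) hB4 hP4 (by norm_num) (by norm_num) (by norm_num))
    ((hCθ hC3').trans hCJ) ((Real.exp_le_exp.2 (hCθ hC3')).trans hexp)
  have x2' : Pe F.p B₄ ≤ 2 ^ 6 * Pe F.p B₅ := x2.trans (le_of_eq (by norm_num))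
  refine ⟨B₅, fun ω hω => hB4 ω (x1 ω hω), ?_, fun q q1 q2 => ?_, fun j j1 j2 q q1 q2 => ?_⟩
  · norm_num at x2' hP4 ⊢
    linarith
  · exact ((hN q (by omega) (by omega)).mono le_rfl (by positivity)
      (pow_le_pow_right₀ (by norm_num) hN2)).sub (fun ω hω => v1 ω (x1 ω hω))
  · have h2 : j = 2 ∨ j = 3 := by omega
    rcases h2 with rfl | rfl
    · exact ((hV2 q (by omega) (by omega)).mono le_rfl (by positivity)
        (pow_le_pow_right₀ (by norm_num) hM2)).sub x1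
    · exact (hV3 q (by omega) (by omega)).mono le_rfl (by positivity)
        (pow_le_pow_right₀ (by norm_num) hM2)

/-- The numbers of `stv_cls`. -/
theorem num_stv {Ce Cf Cj Cg k X kf k₄ t kJ u xa C : ℕ} (hX : X = Ce * (k + 1))
    (hkf : kf = X + 4 * k + 3) (hk₄ : k₄ = Cf * (kf + k + 1)) (ht : t = 4 * k₄ + 18 + k)
    (hkJ : kJ = 2 * X + k + t) (hu : u = 27 * (kJ + 1)) (hxa : xa = 2 * u + 5)
    (hC : C = 1000 * (Ce + Cf * (Ce + 5) + Cj + Cg + 20)) :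
    X ≤ C * (k + 1) ∧ 3 * xa + 4 * X + 10 * k₄ + 20 * k + 2 * kJ + t + Cj + Cg + 100 +
      Cj * (k + 1) ≤ C * (k + 1) ∧ Cg ≤ C * (k + 1) := by
  have e1 : k₄ ≤ Cf * (Ce + 5) * (k + 1) := by
    rw [hk₄, hkf, hX, mul_assoc]
    exact Nat.mul_le_mul_left _ (by nlinarith)
  have e2 : C * (k + 1) = 1000 * (Ce * (k + 1)) + 1000 * (Cf * (Ce + 5) * (k + 1)) +
      1000 * (Cj * (k + 1)) + 1000 * (Cg * (k + 1)) + 20000 * (k + 1) := by
    rw [hC]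
    ring
  have e3 : Cj ≤ Cj * (k + 1) := Nat.le_mul_of_pos_right _ (Nat.succ_pos k)
  have e4 : Cg ≤ Cg * (k + 1) := Nat.le_mul_of_pos_right _ (Nat.succ_pos k)
  rw [e2, ← hX]
  obtain ⟨Q, hQ⟩ : ∃ Q, Q = Cf * (Ce + 5) * (k + 1) := ⟨_, rfl⟩
  obtain ⟨Q₁, hQ₁⟩ : ∃ Q, Q = Cj * (k + 1) := ⟨_, rfl⟩
  obtain ⟨Q₂, hQ₂⟩ : ∃ Q, Q = Cg * (k + 1) := ⟨_, rfl⟩
  rw [← hQ] at e1 ⊢
  rw [← hQ₁] at e3 ⊢
  rw [← hQ₂] at e4 ⊢
  refine ⟨by omega, by omega, by omega⟩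

/-- **One rough and one static coordinate**: events where the target is steep are small. -/
theorem stv_cls (m D Dr : ℕ) (hD : 1 ≤ D) (hDr : D ≤ Dr) : ∃ C : ℕ, 1 ≤ C ∧
    ∀ {θ : ℝ} {S : PCl m} {P : List (Fin m) × Fin m → ℝ → ℝ → ℝ} (_ : ThrOf (chsys m θ) S P)
    (_ : TmH S) (c : ℕ → Fin m) (_ : Set.InjOn c (Set.Iio 3)) (a w : ℚ) (b e h ε κ : ℝ)
    (_ : 0 ≤ θ) (_ : 0 ≤ w) (_ : w ≤ a) (_ : a < 1) (_ : b < 1) (_ : e < θ * w) (_ : 0 < h)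
    (_ : bet P c 0 a a + h ≤ 1) (_ : bet P c 1 a a + h ≤ 1) (_ : bet P c 2 a w + h ≤ 1)
    (_ : 0 < ε) (_ : 0 < κ),
    Bas S (fun J F A => ∀ (Ar M e₀ k : ℕ) (R : ℕ → Prop) (W p : ℕ → ℕ)
      (z g gc gT g₀ : ℕ → ℕ → ℕ) (κ' : ℝ) (G : ℕ → PtT F → ℕ → MvPolynomial (Option (Fin m)) ℝ)
      (H : ℕ → LnT F → ℕ → MvPolynomial (Option (Fin m)) ℝ)
      (T : ℕ → PtT F → ℕ → MvPolynomial (Option (Fin m)) ℝ)
      (TH : ℕ → LnT F → ℕ → MvPolynomial (Option (Fin m)) ℝ)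
      (Gt : ℕ → PtT F → MvPolynomial (Option (Fin m)) ℝ)
      (Ht : ℕ → LnT F → MvPolynomial (Option (Fin m)) ℝ) (B : F.Ω → Prop),
      W 0 ≤ W 1 → W 1 ≤ W 2 → W 2 ≤ W 3 → W 3 ≤ Ar → Ar ≤ J → (W 3 : ℝ) ≤ b * J →
      W 2 ≤ ⌊(a : ℝ) * J⌋₊ → W 1 ≤ ⌊(w : ℝ) * J⌋₊ → ε * J ≤ k → Sub B A →
      (∀ j < 4, EvS F c 2 D Dr (W j) (Ar - W j) M (z j) e₀ k (p j) R (g j) (gc j) (gT j) (g₀ j)
        κ' B (G j) (H j) (T j) (TH j) (Gt j) (Ht j)) → 0 ≤ κ' → κ' * 2 ^ 24 ≤ 1 →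
      (∀ l < 2, gT 2 l ≤ gT 0 l + k) → (∀ l < 2, gT 3 l ≤ gT 0 l + k) →
      (∀ j < 4, 1 ≤ j → C * (k + 1) ≤ p j) → (∀ l < 2, C * (k + 1) ≤ gT 0 l) →
      (∀ j < 4, 2 ≤ j → ∀ l < 3, C * (k + 1) ≤ gc j l) → (∀ l < 3, C * (k + 1) ≤ g₀ 2 l) →
      (∀ j < 4, ∀ l < 3, e₀ + g₀ j l + C * (k + 1) ≤ J) →
      (∀ l < 2, e₀ + gT 0 l + C * (k + 1) ≤ J) → e₀ + C * (k + 1) ≤ ⌊e * J⌋₊ →
      (∀ ω, B ω → Nc c (g₀ 2) (W 2) 2 (2 ^ k) (fun j => grd (G 2 (ptr F J ω) j) (bt F ω))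
        (fun j => grd (G 3 (ptr F J ω) j) (bt F ω))) →
      (∀ ω, B ω → ∀ l < 3, ∀ V : Option (Fin m) → ℝ,
        |hs (G 2 (ptr F J ω) l) (bt F ω) (bd F ω) V| ≤
          2 ^ k * (2 ^ W 2 / 2 ^ g₀ 2 l) * nrm c (G 2 (ptr F J ω)) (g₀ 2) (W 2) l (bt F ω) V) →
      (∀ j < 4, 2 ≤ j → gT 0 0 + g₀ j 1 ≤ k + g₀ j 0 + min (gT 0 1) (gc j 1)) →
      gT 0 0 + g₀ 2 2 ≤ k + g₀ 2 0 + min (p 1) (gc 2 2) → g₀ 2 2 ≤ k + min (p 1) (gc 2 2) →
      gT 0 1 + g₀ 2 2 + W 0 + C * (k + 1) ≤ g₀ 2 1 + min (p 1) (gc 2 2) + W 1 →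
      W 0 + C * (k + 1) ≤ W 1 → W 3 + g₀ 2 1 + C * (k + 1) ≤ g₀ 3 1 + W 2 →
      g₀ 3 0 + g₀ 2 1 + C * (k + 1) ≤ g₀ 3 1 + g₀ 2 0 → W 3 + g₀ 2 0 ≤ g₀ 3 0 + W 2 + k →
      ⌊(bet P c 0 a a + h) * J⌋₊ + W 2 ≤ g₀ 2 0 + k + ⌊(a : ℝ) * J⌋₊ →
      ⌊(bet P c 1 a a + h) * J⌋₊ + W 2 ≤ g₀ 2 1 + k + ⌊(a : ℝ) * J⌋₊ →
      ⌊(bet P c 2 a w + h) * J⌋₊ + W 2 + C * (k + 1) ≤ g₀ 2 2 + ⌊(a : ℝ) * J⌋₊ →
      Pe F.p B < κ * Pe F.p A) := by
  classical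
  obtain ⟨Ce, hCe, hev⟩ := stv_ev m D Dr hD hDr
  obtain ⟨Cf, hCf, hfrm⟩ := frm_cls m D 2 2 hD (by norm_num) (by norm_num)
  obtain ⟨Cz, hCz, hfrz⟩ := frz_k m D
  obtain ⟨Cj, hCj, hjst⟩ := jst_fam m D hD
  obtain ⟨Cg, hCg, hgpt⟩ := gpt_near D 3
  obtain ⟨C, hC⟩ : ∃ C, C = 1000 * (Ce + Cf * (Ce + 5) + Cj + Cg + 20) := ⟨_, rfl⟩
  refine ⟨C, by omega, ?_⟩
  intro θ S P hP hT c hc a w b e h ε κ hθ0 hw0 hwa ha hb he hh h0 h1 h2 hε hκ
  have hL2 : 0 < Real.log 2 := Real.log_pos (by norm_num)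
  have haR : (a : ℝ) < 1 := by exact_mod_cast ha
  have hw0R : (0 : ℝ) ≤ w := by exact_mod_cast hw0
  have hwaR : (w : ℝ) ≤ a := by exact_mod_cast hwa
  have ha0 : (0 : ℚ) ≤ a := hw0.trans hwa
  have hea : e < θ * a := he.trans_le (mul_le_mul_of_nonneg_left hwaR hθ0)
  have hc2 : Set.InjOn c (Set.Iio 2) := hc.mono fun x hx => by
    rw [Set.mem_Iio] at hx ⊢
    omega
  have hCfR : (1 : ℝ) ≤ Cf := by exact_mod_cast hCf
  have hκ24 : 0 < κ / 2 ^ 24 := by positivity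
  obtain ⟨κ₁, hκ₁⟩ : ∃ κ₁ : ℝ, κ₁ = κ / (2 ^ 25 * Cf) := ⟨_, rfl⟩
  have hκ₁0 : 0 < κ₁ := by
    rw [hκ₁]
    exact div_pos hκ (by linarith)
  have b1 := hfrm hP hT c hc2 a e h ε (κ / 2 ^ 24) ha0 ha hea hh h0 hε hκ24
  have b2 := flat_cls hP hT c 1 D hc2 a e h ε κ₁ ha0 ha hea hh h1 hε hκ₁0
  obtain ⟨δ, hδ, b3⟩ := aff_no hP c 2 (3 * D) hc a w e h hw0 hwa ha.le he hh h2
  obtain ⟨μ, hμ⟩ : ∃ μ : ℝ, μ = min ε (1 - b) * Real.log 2 / 2 := ⟨_, rfl⟩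
  have hμ0 : 0 < μ := by
    rw [hμ]
    have : 0 < min ε (1 - b) := lt_min hε (by linarith)
    positivity
  obtain ⟨CM, hCM⟩ : ∃ CM : ℝ, CM = Ce + Cz + Cj := ⟨_, rfl⟩
  have hCM0 : 0 < CM := by
    rw [hCM]
    have : (1 : ℝ) ≤ Ce := by exact_mod_cast hCe
    have : (0 : ℝ) ≤ Cj := Nat.cast_nonneg _
    linarith
  obtain ⟨ε₁, hε₁⟩ : ∃ ε₁ : ℝ, ε₁ = μ / CM := ⟨_, rfl⟩
  have hε₁0 : 0 < ε₁ := by rw [hε₁]; positivity
  have htm := bas_ev (hT.2 ε₁ hε₁0) (κ := κ₁ / 8) (by positivity)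
  have hpos : Bas S (fun _ F A => 0 < Pe F.p A) := ⟨1, one_pos, 0, fun J _ F A hA =>
    hT.1 1 J F A hA⟩
  obtain ⟨J₁, hJ₁⟩ := exists_nat_ge (CM / μ)
  obtain ⟨J₂, hJ₂⟩ := exists_nat_ge (-Real.log (κ₁ / 16) / δ)
  refine Bas.mono (max J₁ J₂) ((((b1.and b2).and b3).and htm).and hpos) ?_
  rintro J hJ F A ⟨⟨⟨⟨hfA, hlA⟩, haA⟩, htA⟩, hA0⟩
  intro Ar M e₀ k R W p z g gc gT g₀ κ' G H T TH Gt Ht B w01 w12 w23 w3 hAJ hWb hWa hWw hk hBA hE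
    hκ0 hκ2 hg2 hg3 hpj hgT hgc hg₀ hJ3 hJT hef hnc hcur n1 n4a n4b n5 n6 k1 k2 k3 f0 f1 f2
  by_contra hcon
  rw [not_lt] at hcon
  have hp := Pe_nonneg F.isLaw
  have hB0 : 0 < Pe F.p B := (mul_pos hκ hA0).trans_le hcon
  have hJ0 : (0 : ℝ) ≤ J := Nat.cast_nonneg J
  have hJ1 : CM ≤ μ * J := by
    have h2 : (J₁ : ℝ) ≤ J := by exact_mod_cast (le_max_left _ _).trans hJ
    have h3 := hJ₁.trans h2
    rw [div_le_iff₀ hμ0] at h3
    linarith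
  have hJ2 : Real.exp (-(δ * J)) ≤ κ₁ / 16 := by
    have h2 : (J₂ : ℝ) ≤ J := by exact_mod_cast (le_max_right _ _).trans hJ
    have h3 := hJ₂.trans h2
    rw [div_le_iff₀ hδ] at h3
    have h4 : -(δ * (J : ℝ)) ≤ Real.log (κ₁ / 16) := by linarith
    exact (Real.exp_le_exp.2 h4).trans (Real.exp_log (by positivity)).le
  -- the times
  have hθ0' : 0 ≤ ε₁ * J := by positivity
  have hmain : CM * (ε₁ * J + 1) ≤ min ε (1 - b) * Real.log 2 * J := by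
    have e1 : CM * (ε₁ * J) = μ * J := by rw [hε₁]; field_simp
    have e2 : 2 * (μ * J) = min ε (1 - b) * Real.log 2 * J := by rw [hμ]; ring
    rw [mul_add, mul_one, e1]
    linarith
  have hm1 : CM * (ε₁ * J + 1) ≤ k * Real.log 2 := by
    refine hmain.trans ?_
    have e1 : min ε (1 - b) * Real.log 2 * J ≤ ε * Real.log 2 * J :=
      mul_le_mul_of_nonneg_right (mul_le_mul_of_nonneg_right (min_le_left _ _) hL2.le) hJ0
    have e2 := mul_le_mul_of_nonneg_right hk hL2.le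
    linarith
  have hm2 : CM * (ε₁ * J + 1) ≤ ((J : ℝ) - W 3) * Real.log 2 := by
    refine hmain.trans ?_
    have e1 : min ε (1 - b) * Real.log 2 * J ≤ (1 - b) * Real.log 2 * J :=
      mul_le_mul_of_nonneg_right (mul_le_mul_of_nonneg_right (min_le_right _ _) hL2.le) hJ0
    have e3 := mul_le_mul_of_nonneg_right hWb hL2.le
    linarith
  have hci : ∀ Ci : ℝ, Ci ≤ CM → Ci * (ε₁ * J + 1) ≤ ((J : ℝ) - W 3) * Real.log 2 ∧
      ∀ k' : ℕ, k ≤ k' → Real.exp (Ci * (ε₁ * J + 1)) ≤ 2 ^ k' := by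
    intro Ci hCi
    have e1 : Ci * (ε₁ * J + 1) ≤ CM * (ε₁ * J + 1) :=
      mul_le_mul_of_nonneg_right hCi (by linarith)
    refine ⟨e1.trans hm2, fun k' hk' => ?_⟩
    have e2 : Real.exp (Ci * (ε₁ * J + 1)) ≤ Real.exp (k * Real.log 2) :=
      Real.exp_le_exp.2 (e1.trans hm1)
    rw [mul_comm (k : ℝ), ← Real.rpow_def_of_pos (by norm_num), Real.rpow_natCast] at e2
    exact e2.trans (pow_le_pow_right₀ (by norm_num) hk')
  have hCeM : (Ce : ℝ) ≤ CM := by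
    rw [hCM]
    linarith [(Nat.cast_nonneg Cj : (0 : ℝ) ≤ Cj)]
  have hCzM : Cz ≤ CM := by
    rw [hCM]
    linarith [(Nat.cast_nonneg Cj : (0 : ℝ) ≤ Cj), (Nat.cast_nonneg Ce : (0 : ℝ) ≤ Ce)]
  have hCjM : (Cj : ℝ) ≤ CM := by
    rw [hCM]
    linarith [(Nat.cast_nonneg Ce : (0 : ℝ) ≤ Ce)]
  have hWmon : ∀ {i : ℕ}, W i ≤ W 3 → ((J : ℝ) - W 3) * Real.log 2 ≤
      ((J : ℝ) - W i) * Real.log 2 := by
    intro i hi
    refine mul_le_mul_of_nonneg_right ?_ hL2.le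
    have : (W i : ℝ) ≤ W 3 := by exact_mod_cast hi
    linarith
  have htm' : ∀ {B' : F.Ω → Prop} (hB' : 0 < Pe F.p B'), Sub B' B →
      κ₁ / 8 * Pe F.p A ≤ Pe F.p B' → (Fam.sub F B' hB').Tm (ε₁ * J) := fun {B'} hB' s1 s2 =>
    htA B' (fun ω hω => hBA ω (s1 ω hω)) s2 hB'
  -- the numbers
  obtain ⟨X, hX⟩ : ∃ X, X = Ce * (k + 1) := ⟨_, rfl⟩
  obtain ⟨kf, hkf⟩ : ∃ kf, kf = X + 4 * k + 3 := ⟨_, rfl⟩
  obtain ⟨k₄, hk₄⟩ : ∃ k₄, k₄ = Cf * (kf + k + 1) := ⟨_, rfl⟩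
  obtain ⟨t, ht⟩ : ∃ t, t = 4 * k₄ + 18 + k := ⟨_, rfl⟩
  obtain ⟨kJ, hkJ⟩ : ∃ kJ, kJ = 2 * X + k + t := ⟨_, rfl⟩
  obtain ⟨u, hu⟩ : ∃ u, u = 27 * (kJ + 1) := ⟨_, rfl⟩
  obtain ⟨xa, hxa⟩ : ∃ xa, xa = 2 * u + 5 := ⟨_, rfl⟩
  obtain ⟨m1, m2, m3⟩ := num_stv hX hkf hk₄ ht hkJ hu hxa hC
  obtain ⟨N, hN⟩ : ∃ N, N = C * (k + 1) := ⟨_, rfl⟩
  obtain ⟨Q₁, hQ₁⟩ : ∃ Q, Q = Cj * (k + 1) := ⟨_, rfl⟩
  rw [← hN] at m1 m2 m3 hef n5 n6 k1 k2 f2
  rw [← hQ₁] at m2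
  simp only [← hN] at hpj hgT hgc hg₀ hJ3 hJT
  have hkk₄ : kf + k + 1 ≤ k₄ := by
    rw [hk₄]
    exact Nat.le_mul_of_pos_left _ (by omega)
  have hE0 := hE 0 (by norm_num)
  have hE2 := hE 2 (by norm_num)
  have hE3 := hE 3 (by norm_num)
  have g21 := hg₀ 1 (by norm_num)
  have g20 := hg₀ 0 (by norm_num)
  -- the rows
  obtain ⟨B₁, c1, c2, hNr, hVr⟩ := hev (θ := ε₁ * J) hB0 hc w01 w12 w23 w3 hAJ hE hκ0 hκ2 hg2 hg3
    (by rw [← hX]; exact m1.trans (hpj 2 (by norm_num) (by norm_num)))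
    (by rw [← hX]; exact m1.trans (hpj 3 (by norm_num) (by norm_num)))
    (fun l hl => by
      have := hgT l hl
      omega) (fun j hj l hl => by
      rw [← hX]
      have := hJ3 j hj l hl
      omega) (fun l hl => by
      rw [← hX]
      have := hJT l hl
      omega) hθ0' (fun B' hB' s1 s2 => htm' hB' s1 (by
        have e1 : κ₁ / 8 * Pe F.p A ≤ κ * Pe F.p A / 2 ^ 24 := by
          rw [hκ₁, div_div, div_mul_eq_mul_div]
          refine div_le_div_of_nonneg_left (mul_pos hκ hA0).le (by positivity) ?_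
          norm_num
          linarith
        refine e1.trans ?_
        rw [div_le_iff₀ (by positivity)]
        linarith))
    (hci Ce hCeM).1 ((hci Ce hCeM).2 k le_rfl)
  rw [← hX] at hNr hVr
  have hP1 : κ / 2 ^ 24 * Pe F.p A ≤ Pe F.p B₁ := by
    rw [div_mul_eq_mul_div, div_le_iff₀ (by positivity)]
    linarith
  obtain ⟨pN, hpN⟩ : ∃ pN, pN = min (p 1) (gc 2 2) - X := ⟨_, rfl⟩
  obtain ⟨q, hq⟩ : ∃ q : ℕ → ℕ, q = fun j => min (gT 0 1) (gc j 1) - X := ⟨_, rfl⟩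
  have hpNX : pN + X = min (p 1) (gc 2 2) := by
    rw [hpN]
    refine Nat.sub_add_cancel (le_min ?_ ?_)
    · exact m1.trans (hpj 1 (by norm_num) (by norm_num))
    · exact m1.trans (hgc 2 (by norm_num) le_rfl 2 (by norm_num))
  have hqX : ∀ j < 4, 2 ≤ j → q j + X = min (gT 0 1) (gc j 1) := by
    intro j hj hj2
    rw [hq]
    refine Nat.sub_add_cancel (le_min ?_ ?_)
    · exact m1.trans (hgT 1 (by norm_num))
    · exact m1.trans (hgc j hj hj2 1 (by norm_num))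
  have hN1 : ROut1 F c 2 (W 1) (W 2) (Ar - W 2) (g₀ 2) (gT 0) pN (2 ^ X) B₁ (G 2) (H 2) (T 0)
      (fun s => TH 0 (co (W 2 - W 0) s)) (Ht 1) := hNr pN
    (by rw [hpNX]; exact min_le_left _ _) (by rw [hpNX]; exact min_le_right _ _)
  have hV1 : ∀ j < 4, 2 ≤ j → ROut1 F c 1 (W j) (W j) (Ar - W j) (g₀ j) (gT 0) (q j) (2 ^ X) B₁
      (G j) (H j) (T 0) (fun s => TH 0 (co (W j - W 0) s))
      (fun s => TH 0 (co (W j - W 0) s) 1) := fun j hj hj2 => hVr j hj2 hj (q j)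
    (by rw [hqX j hj hj2]; exact min_le_left _ _) (by rw [hqX j hj hj2]; exact min_le_right _ _)
  have hV2 := hV1 2 (by norm_num) le_rfl
  have hV3 := hV1 3 (by norm_num) (by norm_num)
  -- the gradient of the deeper ball
  have hγg : ∀ ω, B ω → Nc c (g₀ 3) (W 3) 3 1 (fun j => grd (G 3 (ptr F J ω) j) (bt F ω))
      (gpt F (G 3) (ptr F J ω)) := hgpt hc le_rfl hE3.ball (fun l hl => by
    have := hJ3 3 (by norm_num) l hl
    omega)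
  have hγn : ∀ ω, B ω → Nc c (g₀ 2) (W 2) 2 (2 ^ kf) (fun j => grd (G 2 (ptr F J ω) j) (bt F ω))
      (gpt F (G 3) (ptr F J ω)) := by
    intro ω hω
    have e1 := Nc.units (k := k) ((hγg ω hω).le (by norm_num : 2 ≤ 3)) zero_le_one k3 (by omega)
      (by omega)
    rw [one_mul] at e1
    exact ((hnc ω hω).trans2 e1).mono (pow_le_pow_right₀ (by norm_num) (by omega))
  have hγc : ∀ (y : PtT F) l, CvC c l (gpt F (G 3) y l) := fun y l => cvc_grd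
    (hE3.ball.depG y l) _
  -- the frame
  obtain ⟨B₂, ψ, ψH, d1, d2, d3, d4, -⟩ := hfA (W 1) (W 2) (Ar - W 2) e₀ kf k k₄ pN
    (g₀ 2 0 + k) (g₀ 2) (gT 0) (2 ^ X) (G 2) (H 2) (T 0) (fun s => TH 0 (co (W 2 - W 0) s)) (Ht 1)
    (gpt F (G 3)) B₁ (by omega) hWa (hk.trans (by exact_mod_cast (by omega : k ≤ kf)))
    (by rw [← hk₄]; omega) (by rw [← hk₄]) (by
      rw [← hk₄]
      have := hJ3 2 (by norm_num) 0 (by norm_num)
      omega) le_rfl (by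
      have := hJ3 2 (by norm_num) 0 (by norm_num)
      omega) (by omega) (fun ω hω => hBA ω (c1 ω hω)) hP1 (hE2.ball.sub c1) hN1 (by positivity)
    (pow_le_pow_right₀ (by norm_num) (by omega)) (fun l h2 h3 => absurd h3 (by omega)) hγc
    (fun ω hω => hγn ω (c1 ω hω))
  rw [← hk₄] at d3 d4
  have dB : Sub B₂ B := fun ω hω => c1 ω (d1 ω hω)
  have hP2 : 2 * κ₁ * Pe F.p A ≤ Pe F.p B₂ := by
    have e1 : κ / 2 ^ 24 * Pe F.p A ≤ Cf * Pe F.p B₂ := hP1.trans d2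
    have e2 : 2 * κ₁ * Pe F.p A * Cf = κ / 2 ^ 24 * Pe F.p A := by
      rw [hκ₁]
      have : (Cf : ℝ) ≠ 0 := by linarith
      field_simp
    have e3 : 2 * κ₁ * Pe F.p A * Cf ≤ Pe F.p B₂ * Cf := by
      rw [e2, mul_comm (Pe F.p B₂)]
      exact e1
    exact le_of_mul_le_mul_right e3 (by linarith)
  -- the speed of the slope of the static coordinate
  have hW02 : ∀ ω, co (W 2 - W 0) (slam F (W 2) ω) = slam F (W 0) ω := fun ω =>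
    co_slam F (w01.trans w12) (by omega) ω
  have hW03 : ∀ ω, co (W 3 - W 0) (slam F (W 3) ω) = slam F (W 0) ω := fun ω =>
    co_slam F ((w01.trans w12).trans w23) (by omega) ω
  have hW01 : ∀ ω, co (W 1 - W 0) (slam F (W 1) ω) = slam F (W 0) ω := fun ω =>
    co_slam F w01 (by omega) ω
  have hThd : ∀ s l, (TH 0 s l).totalDegree ≤ D := fun s l => hE0.thin.degH s l
  have hThc : ∀ s l, DepC c l (TH 0 s l) := fun s l => hE0.thin.depH s l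
  obtain ⟨κh, hκh⟩ : ∃ κh : ℝ, κh = 2 ^ W 2 * 2 ^ g₀ 2 0 / 2 ^ g₀ 2 1 := ⟨_, rfl⟩
  have hκh0 : 0 < κh := by rw [hκh]; positivity
  obtain ⟨kk, hkk⟩ : ∃ kk : F.Ω → ℝ, kk = fun ω =>
    hs (TH 0 (slam F (W 0) ω) 1) (bt F ω) (bd F ω) (ev (c 0)) := ⟨_, rfl⟩
  obtain ⟨x, hx⟩ : ∃ x, x = k + X := ⟨_, rfl⟩
  have hXx : (2 : ℝ) ^ X ≤ 2 ^ x := pow_le_pow_right₀ (by norm_num) (by omega)
  have hkkle : ∀ ω, B₁ ω → |kk ω| ≤ 2 ^ (2 * x + 2) * κh := by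
    intro ω hω
    have h3 := ex_two (x := x) hV2 (by omega) hE2.ball.depG (fun s l _ => hThc _ l) hXx
      (by
        have := n1 2 (by norm_num) le_rfl
        have := hqX 2 (by norm_num) le_rfl
        omega) hω (fun V => (hcur ω (c1 ω hω) 1 (by norm_num) V).trans
      (mul_le_mul_of_nonneg_right (mul_le_mul_of_nonneg_right
        (pow_le_pow_right₀ (by norm_num) (by omega)) (by positivity)) (nrm_nonneg _ _ _ _ _ _ _)))
    rw [hW02] at h3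
    rw [hkk, hκh]
    exact h3
  -- the gradient of the static coordinate is that of the closed chart
  have hpw : ∀ {n y : ℕ}, n + y ≤ N → (2 : ℝ) ^ n * 2 ^ y ≤ 2 ^ N := fun h => by
    rw [← pow_add]
    exact pow_le_pow_right₀ (by norm_num) h
  have q1 : (2 : ℝ) ^ N * (2 ^ W 3 / 2 ^ g₀ 3 1) ≤ 2 ^ W 2 / 2 ^ g₀ 2 1 := by
    rw [← mul_div_assoc, div_le_div_iff₀ (by positivity) (by positivity), ← pow_add, ← pow_add,
      ← pow_add]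
    exact pow_le_pow_right₀ (by norm_num) (by omega)
  have q2 : (2 : ℝ) ^ N * (2 ^ g₀ 3 0 / 2 ^ g₀ 3 1) ≤ 2 ^ g₀ 2 0 / 2 ^ g₀ 2 1 := by
    rw [← mul_div_assoc, div_le_div_iff₀ (by positivity) (by positivity), ← pow_add, ← pow_add,
      ← pow_add]
    exact pow_le_pow_right₀ (by norm_num) (by omega)
  have q3 : ∀ y : ℕ, y + t ≤ N → (2 : ℝ) ^ y ≤ 1 / 2 ^ t * 2 ^ N := by
    intro y hy
    rw [div_mul_eq_mul_div, one_mul, le_div_iff₀ (by positivity), ← pow_add]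
    exact pow_le_pow_right₀ (by norm_num) hy
  have hrow : ∀ ω, B₁ ω → ∀ V : Option (Fin m) → ℝ, V none = 0 →
      |dd (TH 0 (slam F (W 0) ω) 1) (bt F ω) V - cv (gpt F (G 3) (ptr F J ω) 1) V| ≤
        1 / 2 ^ t * (2 ^ g₀ 2 0 / 2 ^ g₀ 2 1) * |V (some (c 0))| := by
    intro ω hω V hV0
    have h3 := ex_one (x := x) hV3 (by omega) hE3.ball.depG (fun s l _ => hThc _ l) hXx
      (by
        have := n1 3 (by norm_num) (by norm_num)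
        have := hqX 3 (by norm_num) (by norm_num)
        omega) hω hV0
    rw [hW03] at h3
    have h4 := hγg ω (c1 ω hω) 1 (by norm_num) V
    rw [cv_subl, cv_grd, ← nrm_en, nrm_one (hE3.ball.depG _ 0) hV0] at h4
    have e1 : dd (TH 0 (slam F (W 0) ω) 1) (bt F ω) V - cv (gpt F (G 3) (ptr F J ω) 1) V =
        (dd (TH 0 (slam F (W 0) ω) 1) (bt F ω) V - dd (G 3 (ptr F J ω) 1) (bt F ω) V) -
        (cv (gpt F (G 3) (ptr F J ω) 1) V - dd (G 3 (ptr F J ω) 1) (bt F ω) V) := by ring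
    rw [e1]
    refine (abs_sub _ _).trans ((add_le_add h3 h4).trans ?_)
    have e2 : (2 : ℝ) ^ (2 * x + 1) + 1 ≤ 2 ^ (2 * x + 2) := by
      have : (1 : ℝ) ≤ 2 ^ (2 * x + 1) := one_le_pow₀ (by norm_num)
      rw [pow_succ 2 (2 * x + 1)]
      linarith
    calc 2 ^ (2 * x + 1) * (2 ^ g₀ 3 0 / 2 ^ g₀ 3 1) * |V (some (c 0))| +
          1 / 2 ^ g₀ 3 1 * (2 ^ g₀ 3 0 * |V (some (c 0))|) =
          (2 ^ (2 * x + 1) + 1) * (2 ^ g₀ 3 0 / 2 ^ g₀ 3 1) * |V (some (c 0))| := by ring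
      _ ≤ (1 / 2 ^ t * 2 ^ N) * (2 ^ g₀ 3 0 / 2 ^ g₀ 3 1) * |V (some (c 0))| := by
          refine mul_le_mul_of_nonneg_right (mul_le_mul_of_nonneg_right
            (e2.trans (q3 _ (by omega))) (by positivity)) (abs_nonneg _)
      _ = 1 / 2 ^ t * (2 ^ N * (2 ^ g₀ 3 0 / 2 ^ g₀ 3 1)) * |V (some (c 0))| := by ring
      _ ≤ _ := mul_le_mul_of_nonneg_right (mul_le_mul_of_nonneg_left q2 (by positivity))
          (abs_nonneg _)
  have hvel : ∀ ω, B₁ ω → |bd F ω (some (c 1)) - cv (gpt F (G 3) (ptr F J ω) 1) (bd F ω)| ≤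
      1 / 2 ^ t * (2 ^ W 2 / 2 ^ g₀ 2 1) := by
    intro ω hω
    have h3 := hV3.vel ω ω hω hω rfl 1 le_rfl
    have h4 := hγg ω (c1 ω hω) 1 (by norm_num) (bd F ω)
    rw [cv_subl, cv_grd, ← nrm_en] at h4
    have h5 := nrm_bd hV3 hω
    rw [Nat.cast_one, one_mul] at h5
    have e1 : bd F ω (some (c 1)) - cv (gpt F (G 3) (ptr F J ω) 1) (bd F ω) =
        (bd F ω (some (c 1)) - dd (G 3 (ptr F J ω) 1) (bt F ω) (bd F ω)) -
        (cv (gpt F (G 3) (ptr F J ω) 1) (bd F ω) -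
          dd (G 3 (ptr F J ω) 1) (bt F ω) (bd F ω)) := by ring
    rw [e1]
    refine (abs_sub _ _).trans ((add_le_add h3 (h4.trans (mul_le_mul_of_nonneg_left h5
      (by positivity)))).trans ?_)
    have h6 : (1 : ℝ) ≤ 2 ^ X := one_le_pow₀ (by norm_num)
    have e2 : (2 : ℝ) ^ X + (1 + 2 ^ X) ≤ 2 ^ (X + 2) := by
      rw [pow_add]
      linarith
    calc 2 ^ X * 2 ^ W 3 / 2 ^ g₀ 3 1 + 1 / 2 ^ g₀ 3 1 * ((1 + 2 ^ X) * 2 ^ W 3) =
          (2 ^ X + (1 + 2 ^ X)) * (2 ^ W 3 / 2 ^ g₀ 3 1) := by ring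
      _ ≤ (1 / 2 ^ t * 2 ^ N) * (2 ^ W 3 / 2 ^ g₀ 3 1) :=
          mul_le_mul_of_nonneg_right (e2.trans (q3 _ (by omega))) (by positivity)
      _ = 1 / 2 ^ t * (2 ^ N * (2 ^ W 3 / 2 ^ g₀ 3 1)) := by ring
      _ ≤ _ := mul_le_mul_of_nonneg_left q1 (by positivity)
  have hen : ∀ y (V : Option (Fin m) → ℝ), V none = 0 →
      en c (g₀ 2) (W 2) (ψ y) 1 V = 2 ^ g₀ 2 0 * |V (some (c 0))| := by
    intro y V hV0
    have e1 : cv (ψ y 0) V = 0 := by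
      have e2 : cv (ψ y 0) V = cv (ψ y 0) 0 := cv_congr (d3.dep y 0) (by rw [hV0]; rfl)
        fun j hj => absurd hj (Nat.not_lt_zero j)
      rw [e2]
      unfold cv
      simp
    rw [en_succ, en_zero, hV0, e1, abs_zero, mul_zero, zero_add, sub_zero]
  have hflat : Pe F.p (fun ω => B₂ ω ∧ |kk ω| ≤ 1 / 2 ^ t * κh) < κ₁ * Pe F.p A := by
    have hsub : Sub (fun ω => B₂ ω ∧ |kk ω| ≤ 1 / 2 ^ t * κh) B₂ := fun ω hω => hω.1
    refine hlA 2 (W 2) (e₀ + k₄) k₄ k (2 * k₄ + k + 14) (g₀ 2 1 + k) (g₀ 2) ψ (gpt F (G 3)) ψH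
      (fun s => TH 0 (co (W 2 - W 0) s) 1) (1 / 2 ^ t) (by norm_num) (by omega) hWa
      (hk.trans (by exact_mod_cast (by omega : k ≤ k₄))) (by omega) (by omega)
      (fun j hj => by
        have := hJ3 2 (by norm_num) j (by omega)
        omega) (fun l hl => by
        rw [Nat.lt_one_iff.1 hl]
        omega) le_rfl (by
        have := hJ3 2 (by norm_num) 1 (by norm_num)
        omega) (by omega) (by positivity) ?_ (fun s => hThd _ 1) (fun s => hThc _ 1) _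
      (fun ω hω => hBA ω (dB ω (hsub ω hω))) (frok_sub' d3 hsub) hγc ?_ ?_ ?_ ?_
    · rw [div_mul_eq_mul_div, one_mul]
      refine div_le_one_of_le₀ (pow_le_pow_right₀ (by norm_num) (by omega)) (by positivity)
    · intro ω hω V
      exact d4 ω (hsub ω hω) 1 (by norm_num) V
    · intro ω hω
      exact hvel ω (d1 ω (hsub ω hω))
    · intro ω hω V hV0
      rw [hen _ V hV0, hW02]
      refine (hrow ω (d1 ω (hsub ω hω)) V hV0).trans (le_of_eq (by ring))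
    · intro ω hω V hV0
      rw [hen _ V hV0, hW02, hs_one (hThc _ 1) _ _ hV0, abs_mul]
      have h3 : |kk ω| ≤ 1 / 2 ^ t * κh := hω.2
      rw [hkk] at h3
      calc |V (some (c 0))| * |hs (TH 0 (slam F (W 0) ω) 1) (bt F ω) (bd F ω) (ev (c 0))| ≤
            |V (some (c 0))| * (1 / 2 ^ t * κh) := mul_le_mul_of_nonneg_left h3 (abs_nonneg _)
        _ = _ := by rw [hκh]; ring
  -- the slope moves
  obtain ⟨B₃, hB₃⟩ : ∃ B₃ : F.Ω → Prop, B₃ = fun ω => B₂ ω ∧ ¬ |kk ω| ≤ 1 / 2 ^ t * κh :=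
    ⟨_, rfl⟩
  have r1 : Sub B₃ B₂ := fun ω hω => by
    rw [hB₃] at hω
    exact hω.1
  have hP3 : κ₁ * Pe F.p A ≤ Pe F.p B₃ := by
    have h3 := Pe_or F.isLaw (A := B₂) (B₀ := fun ω => B₂ ω ∧ |kk ω| ≤ 1 / 2 ^ t * κh)
      (B₁ := B₃) (fun ω hω => by
        rw [hB₃]
        by_cases h4 : |kk ω| ≤ 1 / 2 ^ t * κh
        · exact Or.inl ⟨hω, h4⟩
        · exact Or.inr ⟨hω, h4⟩)
    linarith
  have hκA : 0 < κ₁ * Pe F.p A := mul_pos hκ₁0 hA0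
  have hB30 : 0 < Pe F.p B₃ := by linarith
  have hMp : ∀ ω, (Polynomial.derivative (Mp c (fun s => TH 0 s 1) (slam F (W 0) ω))).eval
      (F.t ω) = kk ω := fun ω => by
    rw [hkk]
    exact pl_der F (W 0) ω _ _
  have hMp1 : ∀ ω, (Polynomial.derivative (Mp c (fun s => TH 0 (co (W 1 - W 0) s) 1)
      (slam F (W 1) ω))).eval (F.t ω) = kk ω := fun ω => by
    rw [hkk]
    show (Polynomial.derivative (pl (slam F (W 1) ω) (pderiv (some (c 0))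
      (TH 0 (co (W 1 - W 0) (slam F (W 1) ω)) 1)))).eval (F.t ω) = _
    rw [hW01, pl_der]
  have r1B : Sub B₃ B := fun ω hω => dB ω (r1 ω hω)
  obtain ⟨B₄, r2, r3, r4⟩ := hfrz (c := c) (w₀ := W 0) (w := W 1) (S := 2 ^ (2 * x + 2) * κh)
    (θ := ε₁ * J) (Hv := fun s => TH 0 s 1) hB30 w01 (by omega) (fun s => hThd s 1)
    (by positivity) (fun ω hω => by
      rw [hMp]
      exact hkkle ω (d1 ω (r1 ω hω))) hθ0' (htm' hB30 r1B (by linarith))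
    ((hci Cz hCzM).1.trans (hWmon ((w01.trans w12).trans w23)))
  have hB40 : 0 < Pe F.p B₄ := by linarith
  have r2B : Sub B₄ B := fun ω hω => r1B ω (r2 ω hω)
  have r2B1 : Sub B₄ B₁ := fun ω hω => d1 ω (r1 ω (r2 ω hω))
  obtain ⟨d, hd⟩ : ∃ d, d = W 1 - W 0 - (k + 2 * x + 2) := ⟨_, rfl⟩
  have hdN : W 0 + (k + 2 * x + 2) + d = W 1 := by omega
  obtain ⟨B₅, s1, s2, s3⟩ := hjst (c := c) (w := W 1) (a := W 2) (v := Ar - W 2)
    (v' := gT 0 0 - g₀ 2 0) (e := e₀) (p := pN) (q := q 2) (k := kJ) (d := d) (g₀ := g₀ 2)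
    (gT := gT 0) (U := 2 ^ X) (θ := ε₁ * J) (A := B₄) (G₀ := G 2) (H₀ := H 2) (T := T 0)
    (TH := fun s => TH 0 (co (W 2 - W 0) s)) (Hv := fun s => TH 0 (co (W 1 - W 0) s) 1)
    (Ht := Ht 1) hB40 hc w12 (by omega) (fun l hl => by
      have := hJ3 2 (by norm_num) l hl
      omega) (hE2.ball.sub r2B) (fun s => hThd _ 1) (hE 1 (by norm_num)).dH
    (fun s l _ => hThc _ l) (fun ω _ => by rw [hW02, hW01]) (hV2.sub r2B1) (hN1.sub r2B1)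
    (by positivity) (pow_le_pow_right₀ (by norm_num) (by omega)) (fun ω hω l hl V =>
      (hcur ω (r2B ω hω) l hl V).trans (mul_le_mul_of_nonneg_right (mul_le_mul_of_nonneg_right
        (pow_le_pow_right₀ (by norm_num) (by omega)) (by positivity)) (nrm_nonneg _ _ _ _ _ _ _)))
    (by omega) (by
      have := n1 2 (by norm_num) le_rfl
      have := hqX 2 (by norm_num) le_rfl
      omega) (by omega) (by omega) (by omega) (fun ω hω => by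
      rw [hMp1, ← hκh]
      have h3 : ¬ |kk ω| ≤ 1 / 2 ^ t * κh := by
        have := r2 ω hω
        rw [hB₃] at this
        exact this.2
      rw [not_le, div_mul_eq_mul_div, one_mul, div_lt_iff₀ (by positivity)] at h3
      refine h3.le.trans ?_
      rw [mul_comm]
      exact mul_le_mul_of_nonneg_right (pow_le_pow_right₀ (by norm_num) (by omega))
        (abs_nonneg _)) (fun ω hω => by
      rw [hMp1, ← hκh]
      have h3 := r4 ω hω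
      rw [hMp] at h3
      refine h3.trans ?_
      have h4 := (hci Cz hCzM).2 k le_rfl
      have e1 : (2 : ℝ) ^ k * 2 ^ (2 * x + 2) * (2 ^ W 0 / 2 ^ W 1) = 1 / 2 ^ d := by
        rw [← hdN, pow_add 2 (W 0 + (k + 2 * x + 2)) d, pow_add 2 (W 0) (k + 2 * x + 2),
          show k + 2 * x + 2 = k + (2 * x + 2) by ring, pow_add 2 k (2 * x + 2)]
        field_simp
      calc Real.exp (Cz * (ε₁ * J + 1)) * (2 ^ (2 * x + 2) * κh) * (2 ^ W 0 / 2 ^ W 1) ≤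
            2 ^ k * (2 ^ (2 * x + 2) * κh) * (2 ^ W 0 / 2 ^ W 1) :=
            mul_le_mul_of_nonneg_right (mul_le_mul_of_nonneg_right h4 (by positivity))
              (by positivity)
        _ = (2 ^ k * 2 ^ (2 * x + 2) * (2 ^ W 0 / 2 ^ W 1)) * κh := by ring
        _ = _ := by rw [e1]) hθ0' (fun B' hB' u1 u2 => htm' hB' (fun ω hω => r2B ω (u1 ω hω))
      (by linarith)) ((hci Cj hCjM).1.trans (hWmon w23)) ((hci Cj hCjM).2 kJ (by omega))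
  rw [← hu] at s3
  have h5 := haA (W 2) (W 1) (e₀ + 4) xa (g₀ 2) (2 ^ u) (gpt F (G 2))
    (lamJ c (W 1) (fun s => TH 0 (co (W 1 - W 0) s) 1) (Ht 1)) B₅ w12 hWa hWw (by omega)
    (fun l hl => by
      have := hJ3 2 (by norm_num) l (by omega)
      omega) (by positivity) (by
      have h3 : (1 : ℝ) ≤ 2 ^ u := one_le_pow₀ (by norm_num)
      rw [hxa, pow_add, mul_comm 2 u, pow_mul]
      push_cast
      nlinarith) (fun l hl => by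
      have := hg₀ l (by omega)
      have h6 : l < 3 := by omega
      interval_cases l <;> omega) (by omega)
    (fun ω hω => hBA ω (r2B ω (s1 ω hω))) s3
  have h6 : Pe F.p B₅ ≤ κ₁ / 16 * Pe F.p A := h5.trans (mul_le_mul_of_nonneg_right hJ2 (hp A))
  linarith

end Pool.JST
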