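import Pool.Agent.H60.D2.Fra
import Pool.Agent.H46.D2.NoLb
import Pool.Agent.H95.GN.Nwb

/-!
# Affine towers

`AfD`: for the coordinates `c l`, `l < n`: a visible covector `St l` and a gradient `lam l`, which
consists of polynomials of the time, closed on the window `w`; they are near at the sample, in
natural units of the radius `a`, and the closed gradient moves at most at the natural speed. Then the
visible affine germs and the closed germs along the own line are a chain of labels of the pair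
`(a, w)`, of natural precision (`AfD.chok`). `aff_no`: in a class with the thresholds of the chain
labels, the event is small if the precision is above the threshold.
-/

set_option autoImplicit false

namespace Pool.AFT

open Finset Real MvPolynomial
open Pool.Agent.H49.Ent Pool.Agent.H32.Dense Pool.STK Pool.KA Pool.KSAT Pool.K2S Pool.PB Pool.S6C
open Pool.GEN Pool.CHT Pool.CHX Pool.ISO Pool.D2R Pool.D2Z Pool.D2F
open Pool.LBT (ThrOf)
open Pool.RLV (toN toN_eval toN_deg toN_dep)

variable {m J : ℕ}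

/-- The visible affine label. -/
noncomputable def Ga (F : Fam m J) (c : ℕ → Fin m) (St : PtT F → ℕ → Option (Fin m) → ℝ)
    (y : PtT F) (l : ℕ) : MvPolynomial (Option (Fin m)) ℝ :=
  C (bho J J y (some (c l))) + ∑ o, C (St y l o) * (X o - C (bho J J y o))

/-- The closed label. -/
noncomputable def Ha {ζ : Type} (c : ℕ → Fin m)
    (lam : ((Fin m → ℝ) × (Fin m → ℝ)) × ζ × ℕ → ℕ → ℕ → Polynomial ℝ)
    (s : ((Fin m → ℝ) × (Fin m → ℝ)) × ζ × ℕ) (l : ℕ) : MvPolynomial (Option (Fin m)) ℝ :=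
  C (s.1.1 (c l)) + C (s.1.2 (c l)) * X none + ∑ j ∈ range l, toN m (lam s l j) *
    (X (some (c j)) - (C (s.1.1 (c j)) + C (s.1.2 (c j)) * X none))

theorem eval_Ga (F : Fam m J) (c : ℕ → Fin m) (St : PtT F → ℕ → Option (Fin m) → ℝ)
    (y : PtT F) (l : ℕ) (b : Option (Fin m) → ℝ) :
    eval b (Ga F c St y l) = bho J J y (some (c l)) + cv (St y l) (b - bho J J y) := by
  unfold Ga cv
  rw [map_add, eval_C, map_sum]
  congr 1
  refine Finset.sum_congr rfl fun o _ => ?_
  rw [map_mul, eval_C, map_sub, eval_X, eval_C]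
  rfl

theorem eval_Ha {ζ : Type} (c : ℕ → Fin m)
    (lam : ((Fin m → ℝ) × (Fin m → ℝ)) × ζ × ℕ → ℕ → ℕ → Polynomial ℝ)
    (s : ((Fin m → ℝ) × (Fin m → ℝ)) × ζ × ℕ) (l : ℕ) (b : Option (Fin m) → ℝ) :
    eval b (Ha c lam s l) = blo s (b none) (some (c l)) + ∑ j ∈ range l,
      (lam s l j).eval (b none) * (b (some (c j)) - blo s (b none) (some (c j))) := by
  unfold Ha
  rw [map_add, map_add, map_mul, eval_C, eval_C, eval_X, map_sum]
  congr 1
  refine Finset.sum_congr rfl fun j _ => ?_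
  rw [map_mul, toN_eval, map_sub, eval_X, map_add, map_mul, eval_C, eval_C, eval_X]
  rfl

theorem deg_Ga (F : Fam m J) (c : ℕ → Fin m) (St : PtT F → ℕ → Option (Fin m) → ℝ)
    (y : PtT F) (l : ℕ) : (Ga F c St y l).totalDegree ≤ 1 := by
  unfold Ga
  refine (totalDegree_add _ _).trans (max_le ?_ ?_)
  · rw [totalDegree_C]
    exact Nat.zero_le _
  · refine totalDegree_finsetSum_le fun o _ => ?_
    refine (totalDegree_mul _ _).trans ?_
    rw [totalDegree_C, zero_add]
    refine (totalDegree_sub _ _).trans (max_le (totalDegree_X _).le ?_)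
    rw [totalDegree_C]
    exact Nat.zero_le _

theorem deg_Ha {ζ : Type} (c : ℕ → Fin m)
    {lam : ((Fin m → ℝ) × (Fin m → ℝ)) × ζ × ℕ → ℕ → ℕ → Polynomial ℝ}
    {s : ((Fin m → ℝ) × (Fin m → ℝ)) × ζ × ℕ} {l K : ℕ} (h : ∀ j, (lam s l j).natDegree ≤ K) :
    (Ha c lam s l).totalDegree ≤ K + 1 := by
  have h0 : ∀ x : ℝ, (C x : MvPolynomial (Option (Fin m)) ℝ).totalDegree ≤ 1 := by
    intro x
    rw [totalDegree_C]
    exact Nat.zero_le _
  have h1 : ∀ x : ℝ, (C x * X none : MvPolynomial (Option (Fin m)) ℝ).totalDegree ≤ 1 := by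
    intro x
    refine (totalDegree_mul _ _).trans ?_
    rw [totalDegree_C, totalDegree_X]
  have h2 : ∀ x y : ℝ,
      (C x + C y * X none : MvPolynomial (Option (Fin m)) ℝ).totalDegree ≤ 1 := fun x y =>
    (totalDegree_add _ _).trans (max_le (h0 _) (h1 _))
  unfold Ha
  refine (totalDegree_add _ _).trans (max_le ((h2 _ _).trans (by omega)) ?_)
  refine totalDegree_finsetSum_le fun j _ => ?_
  refine (totalDegree_mul _ _).trans (Nat.add_le_add (toN_deg (h j)) ?_)
  exact (totalDegree_sub _ _).trans (max_le (totalDegree_X _).le (h2 _ _))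

theorem dep_Ga {F : Fam m J} {c : ℕ → Fin m} {St : PtT F → ℕ → Option (Fin m) → ℝ}
    {y : PtT F} {l : ℕ} (h : CvC c l (St y l)) : DepC c l (Ga F c St y l) := by
  intro b b' hn hb
  rw [eval_Ga, eval_Ga, cv_congr h (W := b - bho J J y) (W' := b' - bho J J y)
    (by rw [Pi.sub_apply, Pi.sub_apply, hn]) fun j hj => by
      rw [Pi.sub_apply, Pi.sub_apply, hb j hj]]

theorem dep_Ha {ζ : Type} {c : ℕ → Fin m}
    {lam : ((Fin m → ℝ) × (Fin m → ℝ)) × ζ × ℕ → ℕ → ℕ → Polynomial ℝ}
    {s : ((Fin m → ℝ) × (Fin m → ℝ)) × ζ × ℕ} {l : ℕ} : DepC c l (Ha c lam s l) := by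
  intro b b' hn hb
  rw [eval_Ha, eval_Ha, hn]
  congr 1
  refine Finset.sum_congr rfl fun j hj => ?_
  rw [hb j (Finset.mem_range.1 hj)]

theorem pd_Ga (F : Fam m J) (c : ℕ → Fin m) (St : PtT F → ℕ → Option (Fin m) → ℝ)
    (y : PtT F) (l : ℕ) (o : Option (Fin m)) (b : Option (Fin m) → ℝ) :
    eval b (pderiv o (Ga F c St y l)) = St y l o := by
  classical
  unfold Ga
  rw [map_add, pderiv_C, zero_add, map_sum, map_sum]
  rw [Finset.sum_eq_single o]
  · rw [pderiv_C_mul, map_sub, pderiv_X_self, pderiv_C, sub_zero, map_mul, eval_C, map_one,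
      mul_one]
  · intro o' _ ho'
    rw [pderiv_C_mul, map_sub, pderiv_X_of_ne ho', pderiv_C, sub_zero, mul_zero, map_zero]
  · intro h
    exact absurd (Finset.mem_univ _) h

/-- **The data of an affine tower.** -/
structure AfD (F : Fam m J) (c : ℕ → Fin m) (n K w a e : ℕ) (g : ℕ → ℕ) (U : ℝ) (B : F.Ω → Prop)
    (St : PtT F → ℕ → Option (Fin m) → ℝ) (lam : LnT F → ℕ → ℕ → Polynomial ℝ) : Prop where
  dep : ∀ y l, CvC c l (St y l)
  deg : ∀ s l j, (lam s l j).natDegree ≤ K
  lip : ∀ ω, B ω → ∀ l < n, ∀ j < l, |St (ptr F J ω) l (some (c j))| ≤ 2 ^ (e + nlp g j l)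
  vel : ∀ ω, B ω → ∀ l < n, |bd F ω (some (c l)) - cv (St (ptr F J ω) l) (bd F ω)| ≤
    U * (2 ^ a / 2 ^ g l)
  spa : ∀ ω, B ω → ∀ l < n, ∀ V : Option (Fin m) → ℝ, V none = 0 →
    |∑ j ∈ range l, (lam (slam F w ω) l j).eval (F.t ω) * V (some (c j)) -
      cv (St (ptr F J ω) l) V| ≤ U / 2 ^ g l * en c g a (St (ptr F J ω)) l V
  var : ∀ ω, B ω → ∀ l < n, ∀ t : ℝ, |t - F.t ω| ≤ 1 / 2 ^ a → ∀ V : Option (Fin m) → ℝ,
    V none = 0 →
    |∑ j ∈ range l, (Polynomial.derivative (lam (slam F w ω) l j)).eval t * V (some (c j))| ≤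
      U * 2 ^ a / 2 ^ g l * en c g a (St (ptr F J ω)) l V

theorem AfD.sub {F : Fam m J} {c : ℕ → Fin m} {n K w a e : ℕ} {g : ℕ → ℕ} {U : ℝ}
    {B B' : F.Ω → Prop} {St : PtT F → ℕ → Option (Fin m) → ℝ}
    {lam : LnT F → ℕ → ℕ → Polynomial ℝ} (h : AfD F c n K w a e g U B St lam) (hB : Sub B' B) :
    AfD F c n K w a e g U B' St lam :=
  ⟨h.dep, h.deg, fun ω hω => h.lip ω (hB ω hω), fun ω hω => h.vel ω (hB ω hω),
    fun ω hω => h.spa ω (hB ω hω), fun ω hω => h.var ω (hB ω hω)⟩

/-- The visible affine label at the sample. -/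
theorem Ga_near {F : Fam m J} {c : ℕ → Fin m} {n K w a e : ℕ} {g : ℕ → ℕ} {U : ℝ}
    {B : F.Ω → Prop} {St : PtT F → ℕ → Option (Fin m) → ℝ}
    {lam : LnT F → ℕ → ℕ → Polynomial ℝ} (hc : Set.InjOn c (Set.Iio n))
    (h : AfD F c n K w a e g U B St lam) (hJ : ∀ l < n, e + g l + n ≤ J) {ω : F.Ω} (hω : B ω)
    {l : ℕ} (hl : l < n) : |F.x ω (c l) - eval (bt F ω) (Ga F c St (ptr F J ω) l)| ≤
      1 / 2 ^ g l := by
  have hcl : Set.InjOn c (Set.Iio l) := hc.mono (Set.Iio_subset_Iio hl.le)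
  rw [eval_Ga]
  have h1 : |cv (St (ptr F J ω) l) (bt F ω - bho J J (ptr F J ω))| ≤
      l * (1 / 2 ^ (g l + n)) := by
    refine cv_small hcl (h.dep _ l) (h.lip ω hω l hl) ?_ (fun k => ?_) fun j hj =>
      hJ j (by omega)
    · rw [Pi.sub_apply]
      exact sub_self _
    · rw [Pi.sub_apply, abs_sub_comm]
      exact Pool.PB.Trl.x_near F J ω k
  have h2 : |F.x ω (c l) - bho J J (ptr F J ω) (some (c l))| ≤ 1 / 2 ^ (g l + n) := by
    rw [abs_sub_comm]
    exact (Pool.PB.Trl.x_near F J ω (c l)).trans (inv_mono (by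
      have := hJ l hl
      omega))
  have e1 : F.x ω (c l) - (bho J J (ptr F J ω) (some (c l)) +
      cv (St (ptr F J ω) l) (bt F ω - bho J J (ptr F J ω))) =
      (F.x ω (c l) - bho J J (ptr F J ω) (some (c l))) -
      cv (St (ptr F J ω) l) (bt F ω - bho J J (ptr F J ω)) := by ring
  rw [e1]
  refine (abs_sub _ _).trans ((add_le_add h2 h1).trans ?_)
  have h4 : (l : ℝ) + 1 ≤ 2 ^ n := by
    have h5 : ((l + 1 : ℕ) : ℝ) ≤ ((2 ^ n : ℕ) : ℝ) := by
      exact_mod_cast hl.trans_le (Nat.lt_two_pow_self (n := n)).le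
    push_cast at h5
    exact h5
  calc (1 : ℝ) / 2 ^ (g l + n) + l * (1 / 2 ^ (g l + n)) = (l + 1) / 2 ^ (g l + n) := by ring
    _ ≤ 2 ^ n / 2 ^ (g l + n) := div_le_div_of_nonneg_right h4 (by positivity)
    _ = _ := by
      rw [pow_add]
      field_simp

theorem nlp_low {g : ℕ → ℕ} {x n : ℕ} (hg : ∀ l < n, (l + 1) * x ≤ g l) {j l : ℕ} (hj : j ≤ l)
    (hl : l < n) : nlp g j l ≤ nlp (fun l => g l - (l + 1) * x) j l := by
  unfold nlp
  obtain ⟨i, hi, hie⟩ := Finset.exists_mem_eq_sup (Finset.Icc j l)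
    ⟨j, Finset.mem_Icc.2 ⟨le_rfl, hj⟩⟩ g
  have h1 : g i - (i + 1) * x ≤ (Finset.Icc j l).sup fun l => g l - (l + 1) * x :=
    Finset.le_sup (f := fun l => g l - (l + 1) * x) hi
  rw [Finset.mem_Icc] at hi
  have h2 := hg i (by omega)
  have h3 := hg l hl
  have h4 : (i + 1) * x ≤ (l + 1) * x := Nat.mul_le_mul_right _ (by omega)
  rw [hie]
  show g i - g l ≤ _ - (g l - (l + 1) * x)
  omega

/-- **An affine tower is a chain of labels.** -/
theorem AfD.chok {F : Fam m J} {c : ℕ → Fin m} {n K w a e x : ℕ} {g : ℕ → ℕ} {U : ℝ}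
    {B : F.Ω → Prop} {St : PtT F → ℕ → Option (Fin m) → ℝ}
    {lam : LnT F → ℕ → ℕ → Polynomial ℝ} (hc : Set.InjOn c (Set.Iio n))
    (h : AfD F c n K w a e g U B St lam) (hJ : ∀ l < n, e + g l + n ≤ J) (hU : 0 ≤ U)
    (hx : (1 + U) + 2 * n * U * (2 + U) ≤ 2 ^ x) (hg : ∀ l < n, (l + 1) * x ≤ g l) :
    ChOK F c n (fun _ => K + 1) a w e (fun l => g l - (l + 1) * x) B (Ga F c St)
      (Ha c lam) := by
  have hn0 : (0 : ℝ) ≤ n := Nat.cast_nonneg n
  have hgle : ∀ l, (1 : ℝ) / 2 ^ g l ≤ 1 / 2 ^ (g l - (l + 1) * x) := fun l =>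
    inv_mono (Nat.sub_le _ _)
  refine ⟨fun y i => (deg_Ga F c St y i).trans (by omega), fun s i => deg_Ha c (h.deg s i),
    fun y i => dep_Ga (h.dep y i), fun s i => dep_Ha, fun ω hω i hi =>
      (Ga_near hc h hJ hω hi).trans (hgle i), fun ω hω l hl b hb => ?_,
    fun ω hω i hi b hb j hj => ?_⟩
  · obtain ⟨y, hy⟩ : ∃ y, y = ptr F J ω := ⟨_, rfl⟩
    obtain ⟨V, hV⟩ : ∃ V : Option (Fin m) → ℝ, V = fun o => b o - blo (slam F w ω) (b none) o :=
      ⟨_, rfl⟩
    have hV0 : V none = 0 := by rw [hV]; exact sub_self _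
    obtain ⟨u, hu⟩ : ∃ u, u = b none - F.t ω := ⟨_, rfl⟩
    have hu1 : |u| ≤ 1 / 2 ^ a := by rw [hu]; exact hb.1
    -- the decomposition of the point
    have hdec : b - bho J J y = V + (u • bd F ω + (bt F ω - bho J J y)) := by
      funext o
      rw [Pi.sub_apply, Pi.add_apply, Pi.add_apply, Pi.smul_apply, Pi.sub_apply, smul_eq_mul, hV,
        hu]
      show b o - bho J J y o = b o - blo (slam F w ω) (b none) o +
        ((b none - F.t ω) * bd F ω o + (bt F ω o - bho J J y o))
      have e1 : blo (slam F w ω) (b none) o = bt F ω o + (b none - F.t ω) * bd F ω o := by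
        cases o with
        | none =>
          show b none = F.t ω + (b none - F.t ω) * 1
          ring
        | some k =>
          show F.u ω k + F.d ω k * b none = (F.u ω k + F.t ω * F.d ω k) +
            (b none - F.t ω) * F.d ω k
          ring
      rw [e1]
      ring
    have hcvd : ∀ l, cv (St y l) (b - bho J J y) = cv (St y l) V + (u * cv (St y l) (bd F ω) +
        cv (St y l) (bt F ω - bho J J y)) := fun l => by
      rw [hdec, cv_add, cv_add, cv_smul]
    have hblo : ∀ k : Fin m, blo (slam F w ω) (b none) (some k) =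
        F.x ω k + u * bd F ω (some k) := fun k => by
      rw [hu]
      show F.u ω k + F.d ω k * b none = (F.u ω k + F.t ω * F.d ω k) +
        (b none - F.t ω) * F.d ω k
      ring
    have hpos : ∀ j < n, |F.x ω (c j) - (bho J J y (some (c j)) +
        cv (St y j) (bt F ω - bho J J y))| ≤ 1 / 2 ^ g j := fun j hj => by
      have h1 := Ga_near hc h hJ hω hj
      rwa [eval_Ga, ← hy] at h1
    have hvel : ∀ j < n, |u * (bd F ω (some (c j)) - cv (St y j) (bd F ω))| ≤ U / 2 ^ g j := by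
      intro j hj
      have h1 := h.vel ω hω j hj
      rw [← hy] at h1
      rw [abs_mul]
      refine (mul_le_mul hu1 h1 (abs_nonneg _) (by positivity)).trans (le_of_eq ?_)
      field_simp
    -- the size of `V`
    have hVj : ∀ j < l, 2 ^ g j * |V (some (c j)) - cv (St y j) V| ≤
        2 ^ ((j + 1) * x) + 1 + U := by
      intro j hj
      have hjn : j < n := hj.trans hl
      have h1 := hb.2 j hj
      rw [eval_Ga, ← hy, hcvd] at h1
      have e1 : V (some (c j)) - cv (St y j) V = (b (some (c j)) - (bho J J y (some (c j)) +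
          (cv (St y j) V + (u * cv (St y j) (bd F ω) + cv (St y j) (bt F ω - bho J J y))))) -
          (F.x ω (c j) - (bho J J y (some (c j)) + cv (St y j) (bt F ω - bho J J y))) -
          u * (bd F ω (some (c j)) - cv (St y j) (bd F ω)) := by
        rw [show V (some (c j)) = b (some (c j)) - blo (slam F w ω) (b none) (some (c j)) by
          rw [hV], hblo]
        ring
      have h2 : |V (some (c j)) - cv (St y j) V| ≤ 1 / 2 ^ (g j - (j + 1) * x) + 1 / 2 ^ g j +
          U / 2 ^ g j := by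
        rw [e1]
        refine (abs_sub _ _).trans (add_le_add ((abs_sub _ _).trans (add_le_add h1
          (hpos j hjn))) (hvel j hjn))
      have h3 : (2 : ℝ) ^ g j * (1 / 2 ^ (g j - (j + 1) * x)) ≤ 2 ^ ((j + 1) * x) := by
        rw [mul_one_div, div_le_iff₀ (by positivity), ← pow_add]
        exact pow_le_pow_right₀ (by norm_num) (by omega)
      calc 2 ^ g j * |V (some (c j)) - cv (St y j) V| ≤
            2 ^ g j * (1 / 2 ^ (g j - (j + 1) * x) + 1 / 2 ^ g j + U / 2 ^ g j) :=
            mul_le_mul_of_nonneg_left h2 (by positivity)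
        _ = 2 ^ g j * (1 / 2 ^ (g j - (j + 1) * x)) + 1 + U := by
            field_simp
        _ ≤ _ := by linarith
    have h2x : (1 : ℝ) ≤ 2 ^ x := one_le_pow₀ (by norm_num)
    have hen : en c g a (St y) l V ≤ n * (2 + U) * 2 ^ (l * x) := by
      rw [en_eq, hV0, abs_zero, mul_zero, zero_add]
      have h1 : ∀ j ∈ range l, 2 ^ g j * |V (some (c j)) - cv (St y j) V| ≤
          (2 + U) * 2 ^ (l * x) := by
        intro j hj
        have hj' := Finset.mem_range.1 hj
        refine (hVj j hj').trans ?_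
        have h3 : (2 : ℝ) ^ ((j + 1) * x) ≤ 2 ^ (l * x) :=
          pow_le_pow_right₀ (by norm_num) (Nat.mul_le_mul_right _ hj')
        have h4 : (1 : ℝ) ≤ 2 ^ (l * x) := one_le_pow₀ (by norm_num)
        nlinarith
      refine (Finset.sum_le_sum h1).trans ?_
      rw [Finset.sum_const, Finset.card_range, nsmul_eq_mul, ← mul_assoc]
      have h3 : (l : ℝ) ≤ n := by exact_mod_cast hl.le
      exact mul_le_mul_of_nonneg_right (mul_le_mul_of_nonneg_right h3 (by linarith))
        (by positivity)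
    have hen0 := en_nonneg c g a (St y) l V
    -- the gradient at the two times
    have hmv : |∑ j ∈ range l, (lam (slam F w ω) l j).eval (b none) * V (some (c j)) -
        ∑ j ∈ range l, (lam (slam F w ω) l j).eval (F.t ω) * V (some (c j))| ≤
        U / 2 ^ g l * en c g a (St y) l V := by
      obtain ⟨q, hq⟩ : ∃ q : Polynomial ℝ, q = ∑ j ∈ range l,
          lam (slam F w ω) l j * Polynomial.C (V (some (c j))) := ⟨_, rfl⟩
      have hqe : ∀ t, q.eval t = ∑ j ∈ range l, (lam (slam F w ω) l j).eval t *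
          V (some (c j)) := fun t => by
        rw [hq, Polynomial.eval_finsetSum]
        exact Finset.sum_congr rfl fun j _ => by rw [Polynomial.eval_mul, Polynomial.eval_C]
      have hqd : ∀ t, (Polynomial.derivative q).eval t = ∑ j ∈ range l,
          (Polynomial.derivative (lam (slam F w ω) l j)).eval t * V (some (c j)) := fun t => by
        rw [hq, Polynomial.derivative_sum, Polynomial.eval_finsetSum]
        refine Finset.sum_congr rfl fun j _ => ?_
        rw [Polynomial.derivative_mul, Polynomial.derivative_C, mul_zero, add_zero,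
          Polynomial.eval_mul, Polynomial.eval_C]
      rw [← hqe, ← hqe]
      have h1 := Convex.norm_image_sub_le_of_norm_hasDerivWithin_le (f := fun t => q.eval t)
        (f' := fun t => (Polynomial.derivative q).eval t) (s := Metric.closedBall (F.t ω)
        (1 / 2 ^ a)) (C := U * 2 ^ a / 2 ^ g l * en c g a (St y) l V)
        (fun t _ => (q.hasDerivAt t).hasDerivWithinAt) (fun t ht => by
          rw [Real.norm_eq_abs, hqd]
          have h2 : |t - F.t ω| ≤ 1 / 2 ^ a := by
            rw [← Real.dist_eq]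
            exact ht
          have h3 := h.var ω hω l hl t h2 V hV0
          rwa [← hy] at h3) (convex_closedBall _ _)
        (Metric.mem_closedBall_self (by positivity)) (show b none ∈ _ by
          rw [Metric.mem_closedBall, Real.dist_eq]
          exact hb.1)
      rw [Real.norm_eq_abs, Real.norm_eq_abs] at h1
      refine h1.trans ?_
      calc U * 2 ^ a / 2 ^ g l * en c g a (St y) l V * |b none - F.t ω| ≤
            U * 2 ^ a / 2 ^ g l * en c g a (St y) l V * (1 / 2 ^ a) :=
            mul_le_mul_of_nonneg_left hb.1 (by positivity)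
        _ = _ := by field_simp
    have hspa := h.spa ω hω l hl V hV0
    rw [← hy] at hspa ⊢
    rw [eval_Ga, eval_Ha, hcvd, hblo]
    have hsum : ∑ j ∈ range l, (lam (slam F w ω) l j).eval (b none) *
        (b (some (c j)) - blo (slam F w ω) (b none) (some (c j))) =
        ∑ j ∈ range l, (lam (slam F w ω) l j).eval (b none) * V (some (c j)) := by rw [hV]
    rw [hsum]
    have e1 : bho J J y (some (c l)) + (cv (St y l) V + (u * cv (St y l) (bd F ω) +
        cv (St y l) (bt F ω - bho J J y))) - (F.x ω (c l) + u * bd F ω (some (c l)) +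
        ∑ j ∈ range l, (lam (slam F w ω) l j).eval (b none) * V (some (c j))) =
        -(F.x ω (c l) - (bho J J y (some (c l)) + cv (St y l) (bt F ω - bho J J y))) -
        u * (bd F ω (some (c l)) - cv (St y l) (bd F ω)) -
        (∑ j ∈ range l, (lam (slam F w ω) l j).eval (F.t ω) * V (some (c j)) -
          cv (St y l) V) -
        (∑ j ∈ range l, (lam (slam F w ω) l j).eval (b none) * V (some (c j)) -
          ∑ j ∈ range l, (lam (slam F w ω) l j).eval (F.t ω) * V (some (c j))) := by ring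
    rw [e1]
    have h4 : |-(F.x ω (c l) - (bho J J y (some (c l)) + cv (St y l) (bt F ω - bho J J y))) -
        u * (bd F ω (some (c l)) - cv (St y l) (bd F ω)) -
        (∑ j ∈ range l, (lam (slam F w ω) l j).eval (F.t ω) * V (some (c j)) -
          cv (St y l) V) -
        (∑ j ∈ range l, (lam (slam F w ω) l j).eval (b none) * V (some (c j)) -
          ∑ j ∈ range l, (lam (slam F w ω) l j).eval (F.t ω) * V (some (c j)))| ≤
        1 / 2 ^ g l + U / 2 ^ g l + U / 2 ^ g l * en c g a (St y) l V +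
          U / 2 ^ g l * en c g a (St y) l V := by
      refine (abs_sub _ _).trans (add_le_add ((abs_sub _ _).trans (add_le_add
        ((abs_sub _ _).trans (add_le_add ?_ (hvel l hl))) hspa)) hmv)
      rw [abs_neg]
      exact hpos l hl
    refine h4.trans ?_
    have h5 : 1 / 2 ^ g l + U / 2 ^ g l + U / 2 ^ g l * en c g a (St y) l V +
        U / 2 ^ g l * en c g a (St y) l V = (1 + U + 2 * U * en c g a (St y) l V) / 2 ^ g l := by
      ring
    rw [h5]
    have h6 : 1 + U + 2 * U * en c g a (St y) l V ≤ 2 ^ ((l + 1) * x) := by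
      have h7 : 2 * U * en c g a (St y) l V ≤ 2 * U * (n * (2 + U) * 2 ^ (l * x)) :=
        mul_le_mul_of_nonneg_left hen (by positivity)
      have h8 : (1 : ℝ) ≤ 2 ^ (l * x) := one_le_pow₀ (by norm_num)
      calc 1 + U + 2 * U * en c g a (St y) l V ≤
            (1 + U) * 2 ^ (l * x) + 2 * U * (n * (2 + U) * 2 ^ (l * x)) := by
            have : 1 + U ≤ (1 + U) * 2 ^ (l * x) := le_mul_of_one_le_right (by linarith) h8
            linarith
        _ = ((1 + U) + 2 * n * U * (2 + U)) * 2 ^ (l * x) := by ring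
        _ ≤ 2 ^ x * 2 ^ (l * x) := mul_le_mul_of_nonneg_right hx (by positivity)
        _ = _ := by
            rw [← pow_add]
            congr 1
            ring
    rw [div_le_div_iff₀ (by positivity) (by positivity), one_mul]
    have h7 := hg l hl
    calc (1 + U + 2 * U * en c g a (St y) l V) * 2 ^ (g l - (l + 1) * x) ≤
          2 ^ ((l + 1) * x) * 2 ^ (g l - (l + 1) * x) :=
          mul_le_mul_of_nonneg_right h6 (by positivity)
      _ = _ := by
          rw [← pow_add]
          congr 1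
          omega
  · rw [pd_Ga]
    exact (h.lip ω hω i hi j hj).trans (pow_le_pow_right₀ (by norm_num)
      (Nat.add_le_add_left (nlp_low hg hj.le hi) _))

variable {θ : ℝ} {S : PCl m} {P : List (Fin m) × Fin m → ℝ → ℝ → ℝ}

/-- **Affine towers above the threshold** are on small events. -/
theorem aff_no (hP : ThrOf (chsys m θ) S P) (c : ℕ → Fin m) (i K : ℕ)
    (hc : Set.InjOn c (Set.Iio (i + 1))) (a w : ℚ) (e h : ℝ)
    (hw : 0 ≤ w) (hwa : w ≤ a) (ha : a ≤ 1) (he : e < θ * w) (hh : 0 < h)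
    (h1 : bet P c i a w + h ≤ 1) :
    ∃ δ : ℝ, 0 < δ ∧ Bas S (fun J F A => ∀ (a₀ w₀ e₀ x : ℕ) (g : ℕ → ℕ) (U : ℝ)
      (St : PtT F → ℕ → Option (Fin m) → ℝ) (lam : LnT F → ℕ → ℕ → Polynomial ℝ)
      (B : F.Ω → Prop), w₀ ≤ a₀ → a₀ ≤ ⌊(a : ℝ) * J⌋₊ → w₀ ≤ ⌊(w : ℝ) * J⌋₊ → e₀ ≤ ⌊e * J⌋₊ →
      (∀ l < i + 1, e₀ + g l + (i + 1) ≤ J) → 0 ≤ U →
      (1 + U) + 2 * (i + 1) * U * (2 + U) ≤ 2 ^ x → (∀ l < i + 1, (l + 1) * x ≤ g l) →
      ⌊(bet P c i a w + h) * J⌋₊ + a₀ + (i + 1) * x ≤ g i + ⌊(a : ℝ) * J⌋₊ → Sub B A →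
      AfD F c (i + 1) K w₀ a₀ e₀ g U B St lam → Pe F.p B ≤ Real.exp (-(δ * J)) * Pe F.p A) := by
  obtain ⟨δ, hδ, τ, hτ, J₁, hlab⟩ := Pool.NLB46.lab_ev hP c i (K + 1) a w e h hw hwa ha he hh h1
  refine ⟨δ, hδ, τ, hτ, J₁, ?_⟩
  intro J hJ F A hA a₀ w₀ e₀ x g U St lam B k0 k1 k2 k3 k4 hU hx hg k5 hBA hD
  have hch := hD.chok (x := x) hc (fun l hl => k4 l hl) hU (by
    push_cast
    exact hx) hg
  have hgi := hg i (Nat.lt_succ_self i)
  refine hlab J hJ F A hA a₀ w₀ e₀ (g i - (i + 1) * x) (fun _ => K + 1)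
    (fun l => g l - (l + 1) * x) (Ga F c St) (Ha c lam) (fun y => Ga F c St y i)
    (fun s => Ha c lam s i) k0 k1 k2 k3 (fun _ => le_rfl) (fun l hl => ?_) ?_ ?_ B hBA
    (hch.mono (Nat.le_succ i) (fun _ => le_rfl) le_rfl le_rfl) ?_
  · have := k4 l (by omega)
    exact (Nat.sub_le _ _).trans (by omega)
  · have := k4 i (Nat.lt_succ_self i)
    exact (Nat.sub_le _ _).trans (by omega)
  · omega
  · exact
      { degG := fun y => hch.degG y i
        degH := fun s => hch.degH s i
        depG := fun y => hch.depG y i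
        depH := fun s => hch.depH s i
        pos := fun ω hω => hch.pos ω hω i (Nat.lt_succ_self i)
        agr := fun ω hω b hb => hch.agr ω hω i (Nat.lt_succ_self i) b hb
        lip := fun ω hω b hb j hj => by
          refine (hch.lip ω hω i (Nat.lt_succ_self i) b hb j hj).trans (le_of_eq ?_)
          rw [nlp_congr (g := fun l => g l - (l + 1) * x) (g' := fun j => if j < i then
            g j - (j + 1) * x else g i - (i + 1) * x) (l := j) (i := i) fun y hy => ?_]
          show _ = if y < i then g y - (y + 1) * x else g i - (i + 1) * x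
          by_cases h5 : y < i
          · rw [if_pos h5]
          · rw [if_neg h5]
            have h6 : y = i := by omega
            rw [h6] }

end Pool.AFT
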