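import Pool.Agent.H64.D2.Vh
import Pool.Agent.H68.OWN.Npt

/-!
# Vector hops: tools

`mi_dens`: the mutual information of a law of bounded density. `side`: the height of a pair of
coordinates is full on the fibres of its own direction, also given the direction of a copy.
`pick_copy`: a copy as a function of the record.
-/

set_option autoImplicit false

namespace Pool.D2V

open Finset Real
open Pool.Agent.H49.Ent Pool.Agent.H32.Dense Pool.STK Pool.NFD Pool.OWN68 Pool.VH64

/-! ### Mutual information and densities -/

/-- **The mutual information of a law of bounded density.** -/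
theorem mi_dens {Ω S T U : Type} [Fintype Ω] {p q : Ω → ℝ} (hp : IsLaw p) (hq : IsLaw q)
    {R : ℝ} (hR : 1 ≤ R) (hd : ∀ ω, q ω ≤ R * p ω) (X : Ω → S) (Z : Ω → T) (W : Ω → U) :
    CH q X W - CH q X (fun ω => (Z ω, W ω)) ≤
      R * (CH p X W - CH p X (fun ω => (Z ω, W ω)) + Real.log 2) := by
  classical
  have h0 := hp.nonneg
  have hR0 : 0 < R := by linarith
  have hl2 : 0 ≤ Real.log 2 := Real.log_nonneg (by norm_num)
  -- the law with the extra bit
  set P : Ω × Bool → ℝ := fun w => if w.2 then q w.1 / R else p w.1 - q w.1 / R with hP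
  have hq1 : ∀ ω, q ω / R ≤ p ω := fun ω => by
    rw [div_le_iff₀ hR0]
    linarith [hd ω]
  have hPlaw : IsLaw P := by
    refine ⟨fun w => ?_, ?_⟩
    · rw [hP]
      dsimp only
      split_ifs
      · exact div_nonneg (hq.nonneg _) hR0.le
      · linarith [hq1 w.1]
    · rw [Fintype.sum_prod_type]
      have e1 : ∀ ω, ∑ b : Bool, P (ω, b) = p ω := fun ω => by
        rw [Fintype.sum_bool, hP]
        simp
      rw [Finset.sum_congr rfl fun ω _ => e1 ω, hp.sum_one]
  have hm : Marg P p (fun w => w.1) := by
    intro ω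
    rw [Fintype.sum_prod_type]
    rw [Finset.sum_eq_single ω]
    · rw [Fintype.sum_bool, hP]
      simp
    · intro b _ hb
      refine Finset.sum_eq_zero fun c _ => ?_
      exact if_neg hb
    · intro hh
      exact absurd (Finset.mem_univ _) hh
  set E : Ω × Bool → Prop := fun w => w.2 = true with hE
  have et : ∀ ω, E (ω, true) = True := fun ω => eq_true (show (ω, true).2 = true from rfl)
  have ef : ∀ ω, ¬ (E (ω, false) = True) := fun ω h => by
    have h1 : (ω, false).2 = true := of_eq_true h
    exact absurd h1 (by simp)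
  have hlE : law P E True = 1 / R := by
    unfold law
    rw [Fintype.sum_prod_type, ← hq.sum_one, Finset.sum_div]
    refine Finset.sum_congr rfl fun ω _ => ?_
    rw [Fintype.sum_bool, if_pos (et ω), if_neg (ef ω), add_zero]
    simp [hP]
  have hlE0 : 0 < law P E True := by
    rw [hlE]
    positivity
  -- the law on the event
  have hc : Marg (cond P E True) q (fun w => w.1) := by
    intro ω
    rw [Fintype.sum_prod_type, Finset.sum_eq_single ω]
    · rw [Fintype.sum_bool, if_pos rfl, if_pos rfl]
      unfold Pool.Agent.H49.Ent.cond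
      rw [hlE, if_pos (et ω), if_neg (ef ω), add_zero]
      simp only [hP, if_true]
      field_simp
    · intro b _ hb
      refine Finset.sum_eq_zero fun c _ => ?_
      exact if_neg hb
    · intro hh
      exact absurd (Finset.mem_univ _) hh
  -- the chain rules
  have a1 : CH P (fun w => X w.1) (fun w => (E w, W w.1)) ≤ CH p X W := by
    rw [← hm.CH X W]
    exact CH_mono_cond hPlaw.nonneg fun w w' _ _ h => (Prod.ext_iff.mp h).2
  have a2 : CH p X (fun ω => (Z ω, W ω)) - Real.log 2 ≤
      CH P (fun w => X w.1) (fun w => (E w, (Z w.1, W w.1))) := by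
    rw [← hm.CH X (fun ω => (Z ω, W ω))]
    have h1 := CH_cond_add hPlaw.nonneg (fun w => X w.1) E (fun w => (Z w.1, W w.1))
    have h2 := CH_bit hPlaw E (fun w => (Z w.1, W w.1))
    linarith
  have a3 : CH P (fun w => X w.1) (fun w => (E w, W w.1)) =
      ∑ j ∈ univ.image E, law P E j * CH (cond P E j) (fun w => X w.1) (fun w => W w.1) := by
    rw [← CH_split hPlaw.nonneg (fun w => X w.1) (fun w => W w.1) E]
    refine CH_congr hPlaw.nonneg ?_ ?_ ?_ ?_ <;>
    · intro w w' _ _ h
      simp only [Prod.mk.injEq] at h ⊢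
      tauto
  have a4 : CH P (fun w => X w.1) (fun w => (E w, (Z w.1, W w.1))) =
      ∑ j ∈ univ.image E, law P E j *
        CH (cond P E j) (fun w => X w.1) (fun w => (Z w.1, W w.1)) := by
    rw [← CH_split hPlaw.nonneg (fun w => X w.1) (fun w => (Z w.1, W w.1)) E]
    refine CH_congr hPlaw.nonneg ?_ ?_ ?_ ?_ <;>
    · intro w w' _ _ h
      simp only [Prod.mk.injEq] at h ⊢
      tauto
  have a5 : law P E True * (CH q X W - CH q X (fun ω => (Z ω, W ω))) ≤
      CH P (fun w => X w.1) (fun w => (E w, W w.1)) -
        CH P (fun w => X w.1) (fun w => (E w, (Z w.1, W w.1))) := by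
    rw [a3, a4, ← Finset.sum_sub_distrib]
    have hmem : True ∈ univ.image E := by
      by_contra hcon
      rw [law_eq_zero_of_notMem P E hcon] at hlE0
      exact lt_irrefl _ hlE0
    rw [← hc.CH X W, ← hc.CH X (fun ω => (Z ω, W ω)), mul_sub]
    refine Finset.single_le_sum (f := fun j => law P E j * CH (cond P E j) (fun w => X w.1)
      (fun w => W w.1) - law P E j * CH (cond P E j) (fun w => X w.1)
      (fun w => (Z w.1, W w.1))) (fun j _ => ?_) hmem
    rw [← mul_sub]
    refine mul_nonneg (law_nonneg hPlaw.nonneg E j) ?_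
    have := CH_mono_cond (cond_nonneg hPlaw.nonneg E j) (X := fun w => X w.1)
      (W' := fun w => (Z w.1, W w.1)) (W := fun w => W w.1)
      fun w w' _ _ h => (Prod.ext_iff.mp h).2
    linarith
  rw [hlE] at a5
  have a6 : 1 / R * (CH q X W - CH q X (fun ω => (Z ω, W ω))) ≤
      CH p X W - CH p X (fun ω => (Z ω, W ω)) + Real.log 2 := by linarith
  have a7 := mul_le_mul_of_nonneg_left a6 hR0.le
  have a8 : R * (1 / R * (CH q X W - CH q X (fun ω => (Z ω, W ω)))) =
      CH q X W - CH q X (fun ω => (Z ω, W ω)) := by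
    field_simp
  rw [a8] at a7
  exact a7

end Pool.D2V
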