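import Pool.Agent.H88.D2.Rcv
import Pool.Agent.H88.D2.Aft
import Pool.Agent.H23.D2.Cnu
import Pool.Agent.H60.D2.Trf

/-!
# One rough and one static coordinate: the closed gradient of the target

Two coordinates `y = c 0`, `v = c 1` and the target `c 2`. The closed label of `v` and the row label
of the target are polynomials of the line. `lamJ`: the gradient of the target in the coordinates
`y`, `v` which is made of the first derivatives of the row label and of its second derivative in the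
direction of the own line, divided by the speed `κ` of the slope of `v`. `jst_fam`: it is natural,
and moves at the natural speed.
-/

set_option autoImplicit false

namespace Pool.JST

open Finset Real MvPolynomial
open Pool.Agent.H49.Ent Pool.Agent.H32.Dense Pool.STK Pool.KA Pool.KSAT Pool.K2S Pool.PB Pool.S6C
open Pool.GEN Pool.CHT Pool.CHX Pool.ISO Pool.D2R Pool.D2Z Pool.D2F Pool.RCV Pool.AFT
open Pool.FLF (Fam.sub)
open Pool.PB.Trl (rt rt_mem t_rt)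

variable {m J : ℕ} {ζ : Type}

/-! ### Polynomials of the absolute time -/

/-- The line. -/
noncomputable def la (s : ((Fin m → ℝ) × (Fin m → ℝ)) × ζ × ℕ) : Option (Fin m) → Polynomial ℝ
  | none => Polynomial.X
  | some j => Polynomial.C (s.1.1 j) + Polynomial.C (s.1.2 j) * Polynomial.X

/-- A polynomial along the line. -/
noncomputable def pl (s : ((Fin m → ℝ) × (Fin m → ℝ)) × ζ × ℕ)
    (R : MvPolynomial (Option (Fin m)) ℝ) : Polynomial ℝ := MvPolynomial.aeval (la s) R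

theorem eval_la (s : ((Fin m → ℝ) × (Fin m → ℝ)) × ζ × ℕ) (o : Option (Fin m)) (t : ℝ) :
    (la s o).eval t = blo s t o := by
  cases o with
  | none => simp [la, blo]
  | some j => simp [la, blo]

theorem der_la (s : ((Fin m → ℝ) × (Fin m → ℝ)) × ζ × ℕ) (o : Option (Fin m)) :
    Polynomial.derivative (la s o) = Polynomial.C (wd s o) := by
  cases o with
  | none => simp [la, wd]
  | some j => simp [la, wd]

theorem eval_pl (s : ((Fin m → ℝ) × (Fin m → ℝ)) × ζ × ℕ)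
    (R : MvPolynomial (Option (Fin m)) ℝ) (t : ℝ) : (pl s R).eval t = eval (blo s t) R := by
  unfold pl
  rw [Pool.KBX.eval_aeval_poly]
  congr 1
  exact congrArg eval (funext fun o => eval_la s o t)

theorem der_pl (s : ((Fin m → ℝ) × (Fin m → ℝ)) × ζ × ℕ)
    (R : MvPolynomial (Option (Fin m)) ℝ) (t : ℝ) :
    (Polynomial.derivative (pl s R)).eval t = dd R (blo s t) (wd s) :=
  (der_curve (la s) (x := blo s t) (V := wd s) (Z := 0) (s := t) (fun o => eval_la s o t)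
    (fun o => by rw [der_la, Polynomial.eval_C]) (fun o => by
      rw [der_la, Polynomial.derivative_C, Polynomial.eval_zero]; rfl) R).1

theorem deg_la (s : ((Fin m → ℝ) × (Fin m → ℝ)) × ζ × ℕ) (o : Option (Fin m)) :
    (la s o).natDegree ≤ 1 := by
  cases o with
  | none => exact Polynomial.natDegree_X_le
  | some j =>
    refine (Polynomial.natDegree_add_le _ _).trans (max_le ?_ ?_)
    · rw [Polynomial.natDegree_C]
      exact Nat.zero_le _
    · exact (Polynomial.natDegree_C_mul_le _ _).trans Polynomial.natDegree_X_le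

theorem deg_pl (s : ((Fin m → ℝ) × (Fin m → ℝ)) × ζ × ℕ) {D : ℕ}
    {R : MvPolynomial (Option (Fin m)) ℝ} (h : R.totalDegree ≤ D) : (pl s R).natDegree ≤ D :=
  Pool.KBX.natDegree_aeval_le _ _ (deg_la s) h

theorem pl_congr {s s' : ((Fin m → ℝ) × (Fin m → ℝ)) × ζ × ℕ} (h : s.1 = s'.1)
    (R : MvPolynomial (Option (Fin m)) ℝ) : pl s R = pl s' R := by
  have e : la s = la s' := by
    funext o
    cases o with
    | none => rfl
    | some j => simp only [la, h]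
  unfold pl
  rw [e]

theorem blo_slam (F : Fam m J) (w : ℕ) (ω : F.Ω) : blo (slam F w ω) (F.t ω) = bt F ω := by
  funext o
  cases o with
  | none => rfl
  | some k =>
    show F.u ω k + F.d ω k * F.t ω = F.u ω k + F.t ω * F.d ω k
    ring

/-! ### The unit vectors -/

/-- The unit vector. -/
noncomputable def ev (k : Fin m) : Option (Fin m) → ℝ := fun o => if o = some k then 1 else 0

theorem ev_none (k : Fin m) : ev k none = 0 := if_neg (by simp)

theorem ev_self (k : Fin m) : ev k (some k) = 1 := if_pos rfl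

theorem ev_ne {j k : Fin m} (h : j ≠ k) : ev k (some j) = 0 := if_neg (by simpa using h)

theorem dd_ev (R : MvPolynomial (Option (Fin m)) ℝ) (x : Option (Fin m) → ℝ) (k : Fin m) :
    dd R x (ev k) = eval x (pderiv (some k) R) := by
  unfold dd
  rw [Finset.sum_eq_single (some k)]
  · rw [ev_self, mul_one]
  · intro o _ ho
    rw [show ev k o = 0 from if_neg ho, mul_zero]
  · intro h
    exact absurd (Finset.mem_univ _) h

theorem hs_ev (R : MvPolynomial (Option (Fin m)) ℝ) (x W : Option (Fin m) → ℝ) (k : Fin m) :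
    hs R x W (ev k) = dd (pderiv (some k) R) x W := by
  unfold hs
  rw [Finset.sum_eq_single (some k)]
  · rw [ev_self, mul_one]
  · intro o _ ho
    rw [show ev k o = 0 from if_neg ho, mul_zero]
  · intro h
    exact absurd (Finset.mem_univ _) h

/-! ### Remez on a window, in the absolute time -/

/-- **Remez, in the absolute time.** -/
theorem rem_abs (m K N : ℕ) : ∃ C : ℝ, 1 ≤ C ∧ ∀ (J : ℕ) (F : Fam m J)
    (A : F.Ω → Prop) (hA : 0 < Pe F.p A) (w : ℕ)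
    (q : ℕ → ((Fin m → ℝ) × (Fin m → ℝ)) × F.ζ × ℕ → Polynomial ℝ) (S : ℕ → ℝ) (θ : ℝ),
    w ≤ J → (∀ i < N, ∀ s, (q i s).natDegree ≤ K) → (∀ i < N, 0 < S i) → 0 ≤ θ →
    (Fam.sub F A hA).Tm θ → C * (θ + 1) ≤ ((J : ℝ) - w) * Real.log 2 →
    (∀ ω, A ω → ∀ i < N, |(q i (slam F w ω)).eval (F.t ω)| ≤ S i) →
    ∃ B : F.Ω → Prop, Sub B A ∧ Pe F.p A / 2 ≤ Pe F.p B ∧ ∀ ω, B ω → ∀ i < N, ∀ t : ℝ,
      |t - F.t ω| ≤ 1 / 2 ^ w → |(q i (slam F w ω)).eval t| ≤ Real.exp (C * (θ + 1)) * S i ∧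
        |(Polynomial.derivative (q i (slam F w ω))).eval t| ≤
          Real.exp (C * (θ + 1)) * 2 ^ w * S i := by
  classical
  obtain ⟨C₁, hC₁, hrem⟩ := rem_fam m K N
  obtain ⟨C₂, hC₂, hext⟩ := pol_ext K
  obtain ⟨C₃, hC₃, hder⟩ := der_one K
  obtain ⟨C, hC⟩ : ∃ C : ℝ, C = C₁ + Real.log C₂ + Real.log C₃ := ⟨_, rfl⟩
  have hl2 : 0 ≤ Real.log C₂ := Real.log_nonneg hC₂
  have hl3 : 0 ≤ Real.log C₃ := Real.log_nonneg hC₃
  refine ⟨C, by linarith, ?_⟩
  intro J F A hA w q S θ hw hq hS hθ hTm hJ hqS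
  have hw0 : (0 : ℝ) < 2 ^ w := by positivity
  obtain ⟨B, h1, h2, h3⟩ := hrem J F A hA w (fun i s => (q i s).comp (lc w s none)) S θ hw
    (fun i hi s => by
      refine (Polynomial.natDegree_comp_le).trans ?_
      calc (q i s).natDegree * (lc w s none).natDegree ≤ K * 1 :=
            Nat.mul_le_mul (hq i hi s) (natDegree_lc w s none)
        _ = K := mul_one K) hS hθ hTm (by
      refine le_trans (mul_le_mul_of_nonneg_right ?_ (by linarith)) hJ
      linarith) (by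
      intro ω hω i hi
      have h4 := hqS ω hω i hi
      rw [Polynomial.eval_comp]
      have e1 : (lc w (slam F w ω) none).eval (rt F w ω) = F.t ω := eval_lc F hw ω none
      rw [e1]
      exact h4)
  have hE : Real.exp (C₁ * (θ + 1)) * C₂ * C₃ ≤ Real.exp (C * (θ + 1)) := by
    have e2 : Real.exp (Real.log C₂) = C₂ := Real.exp_log (by linarith)
    have e3 : Real.exp (Real.log C₃) = C₃ := Real.exp_log (by linarith)
    have e4 : Real.exp (C₁ * (θ + 1)) * C₂ * C₃ =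
        Real.exp (C₁ * (θ + 1) + Real.log C₂ + Real.log C₃) := by
      rw [Real.exp_add, Real.exp_add, e2, e3]
    rw [e4]
    refine Real.exp_le_exp.2 ?_
    rw [hC]
    nlinarith
  have hE0 : 0 < Real.exp (C₁ * (θ + 1)) := Real.exp_pos _
  refine ⟨B, h1, h2, fun ω hω i hi t ht => ?_⟩
  obtain ⟨s, hs'⟩ : ∃ s, s = slam F w ω := ⟨_, rfl⟩
  obtain ⟨Q, hQ⟩ : ∃ Q : Polynomial ℝ, Q = (q i s).comp (lc w s none) := ⟨_, rfl⟩
  have hQd : Q.natDegree ≤ K := by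
    rw [hQ]
    refine (Polynomial.natDegree_comp_le).trans ?_
    calc (q i s).natDegree * (lc w s none).natDegree ≤ K * 1 :=
          Nat.mul_le_mul (hq i hi s) (natDegree_lc w s none)
      _ = K := mul_one K
  have h4 : ∀ τ ∈ Set.Icc (0 : ℝ) 1, |Q.eval τ| ≤ Real.exp (C₁ * (θ + 1)) * S i := by
    intro τ hτ
    have h5 := h3 ω hω i hi τ hτ
    rw [← hs', ← hQ] at h5
    exact h5
  obtain ⟨x, hx⟩ : ∃ x : ℝ, x = 2 ^ w * t - s.2.2 := ⟨_, rfl⟩
  have hxt : (lc w s none).eval x = t := by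
    have e1 : (lc w s none).eval x = ((s.2.2 : ℝ) + x) / 2 ^ w := by
      have := eval_lc' s w x none
      rw [this]
      rfl
    rw [e1, hx]
    field_simp
    ring
  have hx2 : |x| ≤ 2 := by
    have e1 := t_rt F hw ω
    have e2 := rt_mem F w ω
    have e3 : x = rt F w ω + 2 ^ w * (t - F.t ω) := by
      rw [hx, hs', e1]
      field_simp
      ring
    have e4 : |2 ^ w * (t - F.t ω)| ≤ 1 := by
      rw [abs_mul, abs_of_pos hw0]
      calc 2 ^ w * |t - F.t ω| ≤ 2 ^ w * (1 / 2 ^ w) := mul_le_mul_of_nonneg_left ht hw0.le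
        _ = 1 := by field_simp
    rw [e3, abs_le]
    rw [abs_le] at e4
    constructor <;> linarith [e4.1, e4.2, e2.1, e2.2]
  have h5 := hext Q _ hQd h4 x hx2
  have hS0 := hS i hi
  have hQx : Q.eval x = (q i s).eval t := by
    rw [hQ, Polynomial.eval_comp, hxt]
  have hQdx : (Polynomial.derivative Q).eval x =
      1 / 2 ^ w * (Polynomial.derivative (q i s)).eval t := by
    rw [hQ, Polynomial.derivative_comp, Polynomial.eval_mul, Polynomial.eval_comp, hxt, der_lc',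
      Polynomial.eval_C]
    show 1 / 2 ^ w * 1 * _ = _
    rw [mul_one]
  rw [hQx] at h5
  have h6 : ∀ y ∈ Set.Icc (0 : ℝ) 1, |(Polynomial.derivative Q).eval y| ≤
      C₃ * (Real.exp (C₁ * (θ + 1)) * S i) := fun y hy =>
    hder Q _ hQd h4 y (by rw [abs_of_nonneg hy.1]; exact hy.2)
  have h7 := hext (Polynomial.derivative Q) _ ((Polynomial.natDegree_derivative_le Q).trans
    (by omega)) h6 x hx2
  rw [hQdx, abs_mul, abs_of_pos (by positivity : (0 : ℝ) < 1 / 2 ^ w)] at h7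
  rw [← hs']
  constructor
  · refine h5.trans ?_
    calc C₂ * (Real.exp (C₁ * (θ + 1)) * S i) = Real.exp (C₁ * (θ + 1)) * C₂ * 1 * S i := by ring
      _ ≤ Real.exp (C₁ * (θ + 1)) * C₂ * C₃ * S i := by
          refine mul_le_mul_of_nonneg_right (mul_le_mul_of_nonneg_left hC₃ (by positivity))
            hS0.le
      _ ≤ _ := mul_le_mul_of_nonneg_right hE hS0.le
  · rw [one_div_mul_eq_div, div_le_iff₀ hw0] at h7
    refine h7.trans ?_
    calc C₂ * (C₃ * (Real.exp (C₁ * (θ + 1)) * S i)) * 2 ^ w =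
          Real.exp (C₁ * (θ + 1)) * C₂ * C₃ * (2 ^ w * S i) := by ring
      _ ≤ Real.exp (C * (θ + 1)) * (2 ^ w * S i) :=
          mul_le_mul_of_nonneg_right hE (by positivity)
      _ = _ := by ring

/-! ### The estimates at the exact time -/

/-- The second derivative of a polynomial which does not depend on the other coordinates. -/
theorem hs_cg {c : ℕ → Fin m} {r : ℕ} {Q : MvPolynomial (Option (Fin m)) ℝ} (hQ : DepC c r Q)
    (x W : Option (Fin m) → ℝ) {V V' : Option (Fin m) → ℝ} (hn : V none = V' none)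
    (h : ∀ l < r, V (some (c l)) = V' (some (c l))) : hs Q x W V = hs Q x W V' := by
  unfold hs
  refine Finset.sum_congr rfl fun o _ => ?_
  cases o with
  | none => rw [hn]
  | some k =>
    by_cases hk : ∃ l < r, c l = k
    · obtain ⟨l, hl, rfl⟩ := hk
      rw [h l hl]
    · rw [pd_zero' hQ (fun l hl h' => hk ⟨l, hl, h'⟩)]
      unfold dd
      simp

theorem two_pw {Y : ℝ} (hY : 2 ≤ Y) (n : ℕ) : 2 * Y ^ n ≤ Y ^ (n + 1) := by
  rw [pow_succ, mul_comm]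
  exact mul_le_mul_of_nonneg_left hY (by positivity)

/-- The frozen speed. -/
theorem frz_num {κ κ₀ κh Nm v vG R Y δ : ℝ} (hY : 2 ≤ Y) (hκh : 0 < κh) (hR : 0 ≤ R)
    (hδ : 0 ≤ δ) (hδY : 2 * Y * δ ≤ 1) (hk : κh ≤ Y * |κ|) (h3 : |κ| ≤ Y ^ 4 * κh)
    (hf : |κ₀ - κ| ≤ δ * κh) (h4 : |Nm + κ * (v - vG)| ≤ Y ^ 9 * (κh * R))
    (h6 : δ * |v - vG| ≤ Y ^ 2 * R) :
    κh ≤ 2 * Y * |κ₀| ∧ |v + 1 / κ₀ * Nm - vG| ≤ Y ^ 12 * R ∧
      |Nm * (1 - 1 / κ₀ * κ)| ≤ Y ^ 12 * (κh * R) := by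
  have hY0 : 0 < Y := by linarith
  have hYp : ∀ {n k : ℕ}, n ≤ k → Y ^ n ≤ Y ^ k := fun h => pow_le_pow_right₀ (by linarith) h
  have h1 : κh ≤ 2 * Y * |κ₀| := by
    have e1 : |κ| ≤ |κ₀| + δ * κh := by
      have e2 : κ = κ₀ - (κ₀ - κ) := by ring
      calc |κ| = |κ₀ - (κ₀ - κ)| := by rw [← e2]
        _ ≤ |κ₀| + |κ₀ - κ| := abs_sub _ _
        _ ≤ _ := by linarith
    have e3 : Y * |κ| ≤ Y * |κ₀| + Y * (δ * κh) := by nlinarith
    have e4 : 2 * Y * δ * κh ≤ 1 * κh := mul_le_mul_of_nonneg_right hδY hκh.le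
    nlinarith
  have hκ0 : 0 < |κ₀| := by
    by_contra h
    have : |κ₀| = 0 := le_antisymm (not_lt.1 h) (abs_nonneg _)
    rw [this, mul_zero] at h1
    linarith
  have hκne : κ₀ ≠ 0 := abs_pos.1 hκ0
  refine ⟨h1, ?_, ?_⟩
  · have e1 : κ₀ * (v + 1 / κ₀ * Nm - vG) = (Nm + κ * (v - vG)) + (κ₀ - κ) * (v - vG) := by
      field_simp
      ring
    have e2 : |κ₀| * |v + 1 / κ₀ * Nm - vG| ≤ Y ^ 9 * (κh * R) + Y ^ 2 * (κh * R) := by
      rw [← abs_mul, e1]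
      refine (abs_add_le _ _).trans (add_le_add h4 ?_)
      rw [abs_mul]
      calc |κ₀ - κ| * |v - vG| ≤ δ * κh * |v - vG| :=
            mul_le_mul_of_nonneg_right hf (abs_nonneg _)
        _ = κh * (δ * |v - vG|) := by ring
        _ ≤ κh * (Y ^ 2 * R) := mul_le_mul_of_nonneg_left h6 hκh.le
        _ = _ := by ring
    have e3 : κh * |v + 1 / κ₀ * Nm - vG| ≤ κh * (Y ^ 12 * R) := by
      calc κh * |v + 1 / κ₀ * Nm - vG| ≤ 2 * Y * |κ₀| * |v + 1 / κ₀ * Nm - vG| :=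
            mul_le_mul_of_nonneg_right h1 (abs_nonneg _)
        _ = 2 * Y * (|κ₀| * |v + 1 / κ₀ * Nm - vG|) := by ring
        _ ≤ 2 * Y * (Y ^ 9 * (κh * R) + Y ^ 2 * (κh * R)) :=
            mul_le_mul_of_nonneg_left e2 (by positivity)
        _ ≤ _ := by
            have e4 : 2 * Y * (Y ^ 9 + Y ^ 2) ≤ Y ^ 12 := by
              have e5 : Y ^ 2 ≤ Y ^ 9 := hYp (by norm_num)
              have e6 : 2 * Y ≤ Y ^ 2 := by nlinarith
              calc 2 * Y * (Y ^ 9 + Y ^ 2) ≤ Y ^ 2 * (Y * Y ^ 9) := by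
                    refine mul_le_mul e6 ?_ (by positivity) (by positivity)
                    nlinarith [pow_pos hY0 9]
                _ = _ := by ring
            have e7 : 0 ≤ κh * R := mul_nonneg hκh.le hR
            nlinarith [mul_le_mul_of_nonneg_right e4 e7]
    exact le_of_mul_le_mul_left e3 hκh
  · have e1 : |1 - 1 / κ₀ * κ| ≤ 2 * Y * δ := by
      have e2 : 1 - 1 / κ₀ * κ = (κ₀ - κ) / κ₀ := by field_simp
      rw [e2, abs_div, div_le_iff₀ hκ0]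
      refine hf.trans ?_
      nlinarith
    have e3 : |Nm| ≤ Y ^ 9 * (κh * R) + Y ^ 4 * κh * |v - vG| := by
      have e4 : Nm = (Nm + κ * (v - vG)) - κ * (v - vG) := by ring
      calc |Nm| = |(Nm + κ * (v - vG)) - κ * (v - vG)| := by rw [← e4]
        _ ≤ |Nm + κ * (v - vG)| + |κ * (v - vG)| := abs_sub _ _
        _ ≤ _ := by
            rw [abs_mul]
            exact add_le_add h4 (mul_le_mul_of_nonneg_right h3 (abs_nonneg _))
    rw [abs_mul]
    calc |Nm| * |1 - 1 / κ₀ * κ| ≤ (Y ^ 9 * (κh * R) + Y ^ 4 * κh * |v - vG|) * (2 * Y * δ) :=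
          mul_le_mul e3 e1 (abs_nonneg _) (by positivity)
      _ = Y ^ 9 * (κh * R) * (2 * Y * δ) + 2 * Y * Y ^ 4 * κh * (δ * |v - vG|) := by ring
      _ ≤ Y ^ 9 * (κh * R) * 1 + 2 * Y * Y ^ 4 * κh * (Y ^ 2 * R) :=
          add_le_add (mul_le_mul_of_nonneg_left hδY (by positivity))
            (mul_le_mul_of_nonneg_left h6 (by positivity))
      _ = (Y ^ 9 + 2 * Y * Y ^ 6) * (κh * R) := by ring
      _ ≤ _ := by
          refine mul_le_mul_of_nonneg_right ?_ (mul_nonneg hκh.le hR)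
          have e6 : 2 * Y ≤ Y ^ 2 := by nlinarith
          have e7 : 2 * Y * Y ^ 6 ≤ Y ^ 2 * Y ^ 6 := mul_le_mul_of_nonneg_right e6 (by positivity)
          have e8 : Y ^ 2 * Y ^ 6 = Y ^ 8 := by ring
          have e9 : Y ^ 8 ≤ Y ^ 9 := hYp (by norm_num)
          have e10 : Y ^ 9 * 2 ≤ Y ^ 9 * Y := mul_le_mul_of_nonneg_left hY (by positivity)
          have e11 : Y ^ 9 * Y = Y ^ 10 := by ring
          have e12 : Y ^ 10 ≤ Y ^ 12 := hYp (by norm_num)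
          linarith

section

variable {F : Fam m J} {c : ℕ → Fin m} {w a v p q : ℕ} {g₀ gT : ℕ → ℕ} {U : ℝ}
  {B : F.Ω → Prop} {G₀ : PtT F → ℕ → MvPolynomial (Option (Fin m)) ℝ}
  {H₀ : LnT F → ℕ → MvPolynomial (Option (Fin m)) ℝ}
  {T : PtT F → ℕ → MvPolynomial (Option (Fin m)) ℝ}
  {TH : LnT F → ℕ → MvPolynomial (Option (Fin m)) ℝ}
  {Ht : LnT F → MvPolynomial (Option (Fin m)) ℝ}

/-- The derivatives of a polynomial of the time and one coordinate. -/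
theorem dd_one {c : ℕ → Fin m} {Q : MvPolynomial (Option (Fin m)) ℝ} (hQ : DepC c 1 Q)
    (x : Option (Fin m) → ℝ) {V : Option (Fin m) → ℝ} (hn : V none = 0) :
    dd Q x V = V (some (c 0)) * dd Q x (ev (c 0)) := by
  rw [← dd_smul]
  refine dd_congr hQ x (by rw [hn, Pi.smul_apply, ev_none, smul_zero]) fun l hl => ?_
  rw [Nat.lt_one_iff.1 hl, Pi.smul_apply, ev_self, smul_eq_mul, mul_one]

theorem hs_one {c : ℕ → Fin m} {Q : MvPolynomial (Option (Fin m)) ℝ} (hQ : DepC c 1 Q)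
    (x W : Option (Fin m) → ℝ) {V : Option (Fin m) → ℝ} (hn : V none = 0) :
    hs Q x W V = V (some (c 0)) * hs Q x W (ev (c 0)) := by
  rw [← hs_smul_right]
  refine hs_cg hQ x W (by rw [hn, Pi.smul_apply, ev_none, smul_zero]) fun l hl => ?_
  rw [Nat.lt_one_iff.1 hl, Pi.smul_apply, ev_self, smul_eq_mul, mul_one]

theorem dd_nil {c : ℕ → Fin m} {Q : MvPolynomial (Option (Fin m)) ℝ} (hQ : DepC c 0 Q)
    (x : Option (Fin m) → ℝ) {V : Option (Fin m) → ℝ} (hn : V none = 0) : dd Q x V = 0 := by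
  have h1 : dd Q x V = dd Q x 0 := dd_congr hQ x (by rw [hn]; rfl) fun l hl =>
    absurd hl (by omega)
  have h2 := dd_smul Q x (0 : Option (Fin m) → ℝ) 0
  rw [zero_smul, zero_mul] at h2
  rw [h1, h2]

theorem hs_nil {c : ℕ → Fin m} {Q : MvPolynomial (Option (Fin m)) ℝ} (hQ : DepC c 0 Q)
    (x W : Option (Fin m) → ℝ) {V : Option (Fin m) → ℝ} (hn : V none = 0) : hs Q x W V = 0 := by
  have h1 : hs Q x W V = hs Q x W 0 :=
    hs_cg hQ x W (by rw [hn]; rfl) fun l hl => absurd hl (by omega)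
  have h2 := hs_smul_right Q x W (0 : Option (Fin m) → ℝ) 0
  rw [zero_smul, zero_mul] at h2
  rw [h1, h2]

theorem dd_two {c : ℕ → Fin m} (h01 : c 0 ≠ c 1) {Q : MvPolynomial (Option (Fin m)) ℝ}
    (hQ : DepC c 2 Q) (x : Option (Fin m) → ℝ) {V : Option (Fin m) → ℝ} (hn : V none = 0) :
    dd Q x V = V (some (c 0)) * dd Q x (ev (c 0)) + V (some (c 1)) * dd Q x (ev (c 1)) := by
  rw [← dd_smul, ← dd_smul, ← dd_add]
  refine dd_congr hQ x (by simp [hn, ev_none]) fun l hl => ?_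
  rcases Nat.lt_succ_iff_lt_or_eq.1 hl with h | h
  · rw [Nat.lt_one_iff.1 h]
    simp [ev_self, ev_ne h01]
  · rw [h]
    simp [ev_self, ev_ne h01.symm]

theorem nrm_one {c : ℕ → Fin m} {ψ : ℕ → MvPolynomial (Option (Fin m)) ℝ} {g : ℕ → ℕ} {a : ℕ}
    {x : Option (Fin m) → ℝ} (h0 : DepC c 0 (ψ 0)) {V : Option (Fin m) → ℝ} (hn : V none = 0) :
    nrm c ψ g a 1 x V = 2 ^ g 0 * |V (some (c 0))| := by
  unfold nrm
  rw [hn, abs_zero, mul_zero, zero_add, Finset.sum_range_one, dd_nil h0 x hn, sub_zero]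

theorem nrm_two {c : ℕ → Fin m} {ψ : ℕ → MvPolynomial (Option (Fin m)) ℝ} {g : ℕ → ℕ} {a : ℕ}
    {x : Option (Fin m) → ℝ} (h0 : DepC c 0 (ψ 0)) (h1 : DepC c 1 (ψ 1))
    {V : Option (Fin m) → ℝ} (hn : V none = 0) :
    nrm c ψ g a 2 x V = 2 ^ g 0 * |V (some (c 0))| +
      2 ^ g 1 * |V (some (c 1)) - V (some (c 0)) * dd (ψ 1) x (ev (c 0))| := by
  unfold nrm
  rw [hn, abs_zero, mul_zero, zero_add, Finset.sum_range_succ, Finset.sum_range_one,
    dd_nil h0 x hn, sub_zero, dd_one h1 x hn]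

/-- **The estimates at the exact time.** -/
theorem ex_pt (hV : ROut1 F c 1 a a v g₀ gT q U B G₀ H₀ T TH (fun s => TH s 1))
    (hN : ROut1 F c 2 w a v g₀ gT p U B G₀ H₀ T TH Ht) (haJ : a ≤ J) (h01 : c 0 ≠ c 1)
    (hdG : ∀ y l, DepC c l (G₀ y l)) (hdT : ∀ s, ∀ l < 2, DepC c l (TH s l)) {Y δ : ℝ} {v' : ℕ} (hU0 : 0 ≤ U) (hU : U ≤ Y) (hY : 2 ≤ Y)
    (hδ : 0 ≤ δ) (hδY : 2 * Y * δ ≤ 1) (n1 : 2 ^ gT 0 * 2 ^ g₀ 1 ≤ Y * 2 ^ g₀ 0 * 2 ^ q)
    (n3 : gT 0 ≤ g₀ 0 + v') (n4 : 2 ^ v' * 2 ^ g₀ 2 ≤ Y * 2 ^ p)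
    (n5 : δ * 2 ^ gT 1 * 2 ^ g₀ 2 ≤ 2 ^ g₀ 1 * 2 ^ p) {ω : F.Ω} (hω : B ω)
    (hcur : ∀ l < 3, ∀ V : Option (Fin m) → ℝ, |hs (G₀ (ptr F J ω) l) (bt F ω) (bd F ω) V| ≤
      Y * (2 ^ a / 2 ^ g₀ l) * nrm c (G₀ (ptr F J ω)) g₀ a l (bt F ω) V) {κ₀ : ℝ}
    (hk : 2 ^ a * 2 ^ g₀ 0 / 2 ^ g₀ 1 ≤
      Y * |hs (TH (slam F a ω) 1) (bt F ω) (bd F ω) (ev (c 0))|)
    (hf : |κ₀ - hs (TH (slam F a ω) 1) (bt F ω) (bd F ω) (ev (c 0))| ≤
      δ * (2 ^ a * 2 ^ g₀ 0 / 2 ^ g₀ 1)) :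
    |dd (TH (slam F a ω) 1) (bt F ω) (ev (c 0)) - dd (G₀ (ptr F J ω) 1) (bt F ω) (ev (c 0))| ≤
      Y ^ 3 * (2 ^ g₀ 0 / 2 ^ g₀ 1) ∧
    |hs (TH (slam F a ω) 1) (bt F ω) (bd F ω) (ev (c 0))| ≤
      Y ^ 4 * (2 ^ a * 2 ^ g₀ 0 / 2 ^ g₀ 1) ∧
    |dd (Ht (slam F w ω)) (bt F ω) (ev (c 0)) + dd (TH (slam F a ω) 1) (bt F ω) (ev (c 0)) *
      dd (Ht (slam F w ω)) (bt F ω) (ev (c 1)) - (dd (G₀ (ptr F J ω) 2) (bt F ω) (ev (c 0)) +
      dd (TH (slam F a ω) 1) (bt F ω) (ev (c 0)) * dd (G₀ (ptr F J ω) 2) (bt F ω) (ev (c 1)))| ≤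
      Y ^ 6 * (2 ^ g₀ 0 / 2 ^ g₀ 2) ∧
    2 ^ a * 2 ^ g₀ 0 / 2 ^ g₀ 1 ≤ 2 * Y * |κ₀| ∧
    |dd (Ht (slam F w ω)) (bt F ω) (ev (c 1)) + 1 / κ₀ *
      (hs (Ht (slam F w ω)) (bt F ω) (bd F ω) (ev (c 0)) +
        dd (TH (slam F a ω) 1) (bt F ω) (ev (c 0)) *
        hs (Ht (slam F w ω)) (bt F ω) (bd F ω) (ev (c 1))) -
      dd (G₀ (ptr F J ω) 2) (bt F ω) (ev (c 1))| ≤ Y ^ 12 * (2 ^ g₀ 1 / 2 ^ g₀ 2) ∧
    |(hs (Ht (slam F w ω)) (bt F ω) (bd F ω) (ev (c 0)) +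
        dd (TH (slam F a ω) 1) (bt F ω) (ev (c 0)) *
        hs (Ht (slam F w ω)) (bt F ω) (bd F ω) (ev (c 1))) *
        (1 - 1 / κ₀ * hs (TH (slam F a ω) 1) (bt F ω) (bd F ω) (ev (c 0)))| ≤
      Y ^ 12 * (2 ^ a * 2 ^ g₀ 0 / 2 ^ g₀ 1 * (2 ^ g₀ 1 / 2 ^ g₀ 2)) := by
  obtain ⟨x, hx⟩ : ∃ x, x = bt F ω := ⟨_, rfl⟩
  obtain ⟨W, hW⟩ : ∃ W, W = bd F ω := ⟨_, rfl⟩
  obtain ⟨X0, hX0⟩ : ∃ X0 : ℝ, X0 = 2 ^ g₀ 0 := ⟨_, rfl⟩
  obtain ⟨X1, hX1⟩ : ∃ X1 : ℝ, X1 = 2 ^ g₀ 1 := ⟨_, rfl⟩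
  obtain ⟨X2, hX2⟩ : ∃ X2 : ℝ, X2 = 2 ^ g₀ 2 := ⟨_, rfl⟩
  obtain ⟨A2, hA2⟩ : ∃ A2 : ℝ, A2 = 2 ^ a := ⟨_, rfl⟩
  obtain ⟨M, hM⟩ : ∃ M, M = dd (TH (slam F a ω) 1) x (ev (c 0)) := ⟨_, rfl⟩
  obtain ⟨MG, hMG⟩ : ∃ MG, MG = dd (G₀ (ptr F J ω) 1) x (ev (c 0)) := ⟨_, rfl⟩
  obtain ⟨κ, hκ⟩ : ∃ κ, κ = hs (TH (slam F a ω) 1) x W (ev (c 0)) := ⟨_, rfl⟩
  obtain ⟨V₁, hV₁⟩ : ∃ V₁ : Option (Fin m) → ℝ, V₁ = ev (c 0) + M • ev (c 1) := ⟨_, rfl⟩
  have pX0 : 0 < X0 := by rw [hX0]; positivity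
  have pX1 : 0 < X1 := by rw [hX1]; positivity
  have pX2 : 0 < X2 := by rw [hX2]; positivity
  have pA2 : 0 < A2 := by rw [hA2]; positivity
  have pY : 0 < Y := by linarith
  have hV1n : V₁ none = 0 := by rw [hV₁]; simp [ev_none]
  have hV10 : V₁ (some (c 0)) = 1 := by rw [hV₁]; simp [ev_self, ev_ne h01]
  have hV11 : V₁ (some (c 1)) = M := by rw [hV₁]; simp [ev_self, ev_ne h01.symm]
  have dG0 := hdG (ptr F J ω) 0
  have dG1 := hdG (ptr F J ω) 1
  have dG2 := hdG (ptr F J ω) 2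
  have dT0 := hdT (slam F a ω) 0 (by norm_num)
  have dT1 := hdT (slam F a ω) 1 (by norm_num)
  rw [← hx, ← hW] at hcur hk hf
  rw [← hx, ← hW, ← hM, ← hMG, ← hκ, ← hX0, ← hX1, ← hX2, ← hA2]
  rw [← hκ, ← hX0, ← hX1, ← hA2] at hk hf
  rw [← hX0, ← hX1] at n1
  rw [← hX2] at n4
  rw [← hX1, ← hX2] at n5
  have f1 : (2 : ℝ) ^ gT 0 / 2 ^ q ≤ Y * (X0 / X1) := by
    rw [div_le_iff₀ (by positivity), ← mul_div_assoc, div_mul_eq_mul_div, le_div_iff₀ pX1]
    exact n1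
  have f4 : (2 : ℝ) ^ v' / 2 ^ p ≤ Y / X2 := by
    rw [div_le_div_iff₀ (by positivity) pX2]
    exact n4
  have f3 : (2 : ℝ) ^ gT 0 ≤ 2 ^ v' * X0 := by
    rw [hX0, ← pow_add]
    exact pow_le_pow_right₀ (by norm_num) (by omega)
  have hYp : ∀ {n k : ℕ}, n ≤ k → Y ^ n ≤ Y ^ k := fun h => pow_le_pow_right₀ (by linarith) h
  have y0 := two_pw hY 0
  have y1 := two_pw hY 1
  have y2 := two_pw hY 2
  have y3 := two_pw hY 3
  have y4 := two_pw hY 4
  have y5 := two_pw hY 5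
  norm_num at y0 y1 y2 y3 y4 y5
  -- the sizes
  have s1G : nrm c (G₀ (ptr F J ω)) g₀ a 1 x V₁ = X0 := by
    rw [nrm_one dG0 hV1n, hV10, abs_one, mul_one, hX0]
  have s2G : nrm c (G₀ (ptr F J ω)) g₀ a 2 x V₁ = X0 + X1 * |M - MG| := by
    rw [nrm_two dG0 dG1 hV1n, hV10, hV11, abs_one, mul_one, one_mul, hX0, hX1, hMG]
  have s1T : nrm c (TH (slam F a ω)) gT (a + v) 1 x V₁ = 2 ^ gT 0 := by
    rw [nrm_one dT0 hV1n, hV10, abs_one, mul_one]
  have s2T : nrm c (TH (slam F a ω)) gT (a + v) 2 x V₁ = 2 ^ gT 0 := by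
    rw [nrm_two dT0 dT1 hV1n, hV10, hV11, abs_one, mul_one, one_mul, ← hM, sub_self, abs_zero,
      mul_zero, add_zero]
  -- the slope of the static coordinate
  have e1 : |M - MG| ≤ Y ^ 3 * (X0 / X1) := by
    have h1 := rel1 hV haJ hω V₁
    rw [← hx, s1G, s1T, dd_one dT1 x hV1n, dd_one dG1 x hV1n, hV10, one_mul, one_mul, ← hM,
      ← hMG, ← hX1] at h1
    refine h1.trans ?_
    have h2 : U / 2 ^ q * 2 ^ gT 0 ≤ Y * (Y * (X0 / X1)) := by
      calc U / 2 ^ q * 2 ^ gT 0 = U * (2 ^ gT 0 / 2 ^ q) := by ring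
        _ ≤ Y * (Y * (X0 / X1)) := mul_le_mul hU f1 (by positivity) pY.le
    have h3 : U / X1 * X0 ≤ Y * (X0 / X1) := by
      calc U / X1 * X0 = U * (X0 / X1) := by ring
        _ ≤ _ := mul_le_mul_of_nonneg_right hU (by positivity)
    have h4 : Y * Y + Y ≤ Y ^ 3 := by
      rw [← pow_two]
      linarith
    have h5 : 0 ≤ X0 / X1 := by positivity
    calc U / 2 ^ q * 2 ^ gT 0 + U / X1 * X0 ≤ Y * (Y * (X0 / X1)) + Y * (X0 / X1) :=
          add_le_add h2 h3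
      _ = (Y * Y + Y) * (X0 / X1) := by ring
      _ ≤ _ := mul_le_mul_of_nonneg_right h4 h5
  have e1' : X0 + X1 * |M - MG| ≤ Y ^ 4 * X0 := by
    have h1 : X1 * |M - MG| ≤ Y ^ 3 * X0 := by
      calc X1 * |M - MG| ≤ X1 * (Y ^ 3 * (X0 / X1)) := mul_le_mul_of_nonneg_left e1 pX1.le
        _ = _ := by field_simp
    have h2 : 1 + Y ^ 3 ≤ Y ^ 4 := by
      have : Y ^ 0 ≤ Y ^ 3 := hYp (by norm_num)
      rw [pow_zero] at this
      linarith
    calc X0 + X1 * |M - MG| ≤ X0 + Y ^ 3 * X0 := add_le_add le_rfl h1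
      _ = (1 + Y ^ 3) * X0 := by ring
      _ ≤ _ := mul_le_mul_of_nonneg_right h2 pX0.le
  -- the speed of the slope
  have e2 : |κ - hs (G₀ (ptr F J ω) 1) x W V₁| ≤ 3 * Y ^ 2 * (A2 * X0 / X1) := by
    have h1 := rel2 hV haJ hω V₁ 0
    have e0 : ∀ P : MvPolynomial (Option (Fin m)) ℝ, dd P (bt F ω) 0 = 0 := fun P => by
      have := dd_smul P (bt F ω) (0 : Option (Fin m) → ℝ) 0
      rwa [zero_smul, zero_mul] at this
    have z1 : nrz c (TH (slam F a ω)) gT (a + v) 1 x W V₁ 0 = 0 := by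
      unfold nrz
      rw [Finset.sum_range_one, hs_nil dT0 x W hV1n, hx, e0]
      simp
    have z2 : nrz c (G₀ (ptr F J ω)) g₀ a 1 x W V₁ 0 = 0 := by
      unfold nrz
      rw [Finset.sum_range_one, hs_nil dG0 x W hV1n, hx, e0]
      simp
    rw [e0, e0, add_zero, add_zero, ← hx, ← hW, z1, z2, s1G, s1T, add_zero, add_zero,
      hs_one dT1 x W hV1n, hV10, one_mul, ← hκ, ← hX1] at h1
    refine h1.trans ?_
    have h2 := nrm_bd hV hω
    rw [← hx, ← hW, ← hA2, Nat.cast_one, one_mul] at h2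
    have h3 : U / 2 ^ q * (2 ^ a * 2 ^ gT 0) ≤ Y * Y * (A2 * X0 / X1) := by
      calc U / 2 ^ q * (2 ^ a * 2 ^ gT 0) = U * (2 ^ gT 0 / 2 ^ q) * A2 := by rw [hA2]; ring
        _ ≤ Y * (Y * (X0 / X1)) * A2 := mul_le_mul_of_nonneg_right
            (mul_le_mul hU f1 (by positivity) pY.le) pA2.le
        _ = _ := by ring
    have h4 : U / X1 * (nrm c (G₀ (ptr F J ω)) g₀ a 1 x W * X0) ≤
        Y * (1 + Y) * (A2 * X0 / X1) := by
      calc U / X1 * (nrm c (G₀ (ptr F J ω)) g₀ a 1 x W * X0) ≤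
            Y / X1 * ((1 + U) * A2 * X0) :=
            mul_le_mul (div_le_div_of_nonneg_right hU pX1.le)
              (mul_le_mul_of_nonneg_right h2 pX0.le)
              (mul_nonneg (nrm_nonneg _ _ _ _ _ _ _) pX0.le) (by positivity)
        _ ≤ Y / X1 * ((1 + Y) * A2 * X0) := by
            refine mul_le_mul_of_nonneg_left (mul_le_mul_of_nonneg_right
              (mul_le_mul_of_nonneg_right (by linarith) pA2.le) pX0.le) (by positivity)
        _ = _ := by ring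
    have h5 : Y * Y + Y * (1 + Y) ≤ 3 * Y ^ 2 := by
      have : Y * Y + Y * (1 + Y) = 2 * Y ^ 2 + Y := by ring
      linarith
    have h6 : 0 ≤ A2 * X0 / X1 := by positivity
    calc U / 2 ^ q * (2 ^ a * 2 ^ gT 0) +
          U / X1 * (nrm c (G₀ (ptr F J ω)) g₀ a 1 x W * X0) ≤
          Y * Y * (A2 * X0 / X1) + Y * (1 + Y) * (A2 * X0 / X1) := add_le_add h3 h4
      _ = (Y * Y + Y * (1 + Y)) * (A2 * X0 / X1) := by ring
      _ ≤ _ := mul_le_mul_of_nonneg_right h5 h6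
  have e3 : |κ| ≤ Y ^ 4 * (A2 * X0 / X1) := by
    have h1 := hcur 1 (by norm_num) V₁
    rw [s1G, ← hX1, ← hA2] at h1
    have h2 : κ = (κ - hs (G₀ (ptr F J ω) 1) x W V₁) + hs (G₀ (ptr F J ω) 1) x W V₁ := by ring
    rw [h2]
    refine (abs_add_le _ _).trans ((add_le_add e2 h1).trans ?_)
    have h3 : 3 * Y ^ 2 + Y ≤ Y ^ 4 := by linarith
    have h4 : 0 ≤ A2 * X0 / X1 := by positivity
    calc 3 * Y ^ 2 * (A2 * X0 / X1) + Y * (A2 / X1) * X0 =
          (3 * Y ^ 2 + Y) * (A2 * X0 / X1) := by ring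
      _ ≤ _ := mul_le_mul_of_nonneg_right h3 h4
  -- the row covector
  have e4 : |(hs (Ht (slam F w ω)) x W (ev (c 0)) + M * hs (Ht (slam F w ω)) x W (ev (c 1))) +
      κ * (dd (Ht (slam F w ω)) x (ev (c 1)) - dd (G₀ (ptr F J ω) 2) x (ev (c 1)))| ≤
      Y ^ 9 * (A2 * X0 / X1 * (X1 / X2)) := by
    have hZn : (κ • ev (c 1) : Option (Fin m) → ℝ) none = 0 := by
      rw [Pi.smul_apply, ev_none, smul_zero]
    have hZ0 : (κ • ev (c 1) : Option (Fin m) → ℝ) (some (c 0)) = 0 := by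
      rw [Pi.smul_apply, ev_ne h01, smul_zero]
    have hZ1 : (κ • ev (c 1) : Option (Fin m) → ℝ) (some (c 1)) = κ := by
      rw [Pi.smul_apply, ev_self, smul_eq_mul, mul_one]
    have z1 : nrz c (TH (slam F a ω)) gT (a + v) 2 x W V₁ (κ • ev (c 1)) = 0 := by
      unfold nrz
      rw [Finset.sum_range_succ, Finset.sum_range_one, hs_nil dT0 x W hV1n,
        dd_nil dT0 x hZn, hs_one dT1 x W hV1n, dd_one dT1 x hZn, hZn, hZ0, hZ1, hV10, ← hκ]
      simp
    have z2 : nrz c (G₀ (ptr F J ω)) g₀ a 2 x W V₁ (κ • ev (c 1)) =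
        X1 * |κ - hs (G₀ (ptr F J ω) 1) x W V₁| := by
      unfold nrz
      rw [Finset.sum_range_succ, Finset.sum_range_one, hs_nil dG0 x W hV1n,
        dd_nil dG0 x hZn, dd_one dG1 x hZn, hZn, hZ0, hZ1, hX1]
      simp
    have h1 := row_cov (K := Y) (X := Y ^ 4 * X0) (v' := v') hN haJ hU0 hω (V := V₁)
      (Z := κ • ev (c 1)) (by rw [← hx, s2G]; exact e1') (by
        rw [← hx, s2T]
        refine f3.trans ?_
        have : 1 ≤ Y * Y ^ 4 := by
          have h0 : Y ^ 0 ≤ Y ^ 5 := hYp (by norm_num)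
          have h1 : Y * Y ^ 4 = Y ^ 5 := by ring
          rw [pow_zero] at h0
          linarith
        calc (2 : ℝ) ^ v' * X0 = 1 * (2 ^ v' * X0) := (one_mul _).symm
          _ ≤ Y * Y ^ 4 * (2 ^ v' * X0) := mul_le_mul_of_nonneg_right this (by positivity)
          _ = _ := by ring) (by
        rw [← hx, ← hW, z1]
        positivity) (by
        rw [← hx, ← hW, z2]
        calc X1 * |κ - hs (G₀ (ptr F J ω) 1) x W V₁| ≤ X1 * (3 * Y ^ 2 * (A2 * X0 / X1)) :=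
              mul_le_mul_of_nonneg_left e2 pX1.le
          _ = 3 * Y ^ 2 * (A2 * X0) := by field_simp
          _ ≤ Y * Y ^ 4 * (A2 * X0) := by
              refine mul_le_mul_of_nonneg_right ?_ (by positivity)
              have h1 : Y * Y ^ 4 = Y ^ 5 := by ring
              linarith [pow_pos pY 3]
          _ = _ := by rw [hA2]; ring) (by
        rw [← hx, ← hW]
        refine (hcur 2 (by norm_num) V₁).trans ?_
        rw [s2G]
        exact mul_le_mul_of_nonneg_left e1' (by positivity))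
    rw [← hx, ← hW, dd_smul, dd_smul, ← hA2, ← hX2] at h1
    have h2 : hs (Ht (slam F w ω)) x W V₁ = hs (Ht (slam F w ω)) x W (ev (c 0)) +
        M * hs (Ht (slam F w ω)) x W (ev (c 1)) := by
      rw [hV₁, hs_add_right, hs_smul_right]
    rw [h2] at h1
    have h3 : hs (Ht (slam F w ω)) x W (ev (c 0)) + M * hs (Ht (slam F w ω)) x W (ev (c 1)) +
        κ * (dd (Ht (slam F w ω)) x (ev (c 1)) - dd (G₀ (ptr F J ω) 2) x (ev (c 1))) =
        hs (Ht (slam F w ω)) x W (ev (c 0)) + M * hs (Ht (slam F w ω)) x W (ev (c 1)) +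
        κ * dd (Ht (slam F w ω)) x (ev (c 1)) - κ * dd (G₀ (ptr F J ω) 2) x (ev (c 1)) := by
      ring
    rw [h3]
    refine h1.trans ?_
    have h4 : 2 * U * Y * (2 ^ (a + v') / 2 ^ p) ≤ 2 * Y ^ 3 * (A2 / X2) := by
      calc 2 * U * Y * (2 ^ (a + v') / 2 ^ p) = 2 * U * Y * (A2 * (2 ^ v' / 2 ^ p)) := by
            rw [hA2, pow_add]
            ring
        _ ≤ 2 * Y * Y * (A2 * (Y / X2)) := mul_le_mul (mul_le_mul_of_nonneg_right (by linarith)
            pY.le) (mul_le_mul_of_nonneg_left f4 pA2.le) (by positivity) (by positivity)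
        _ = _ := by ring
    have h5 : U * (1 + (2 : ℕ) * U + Y) + Y ≤ 3 * Y ^ 2 + 2 * Y := by
      push_cast
      calc U * (1 + 2 * U + Y) + Y ≤ Y * (1 + 2 * Y + Y) + Y := by
            refine add_le_add (mul_le_mul hU (by linarith) (by positivity) pY.le) le_rfl
        _ = 3 * Y ^ 2 + 2 * Y := by ring
    have h6 : 2 * Y ^ 3 + (3 * Y ^ 2 + 2 * Y) ≤ Y ^ 5 := by
      linarith [pow_pos pY 3]
    calc (2 * U * Y * (2 ^ (a + v') / 2 ^ p) + (U * (1 + (2 : ℕ) * U + Y) + Y) * (A2 / X2)) *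
          (Y ^ 4 * X0) ≤ (2 * Y ^ 3 * (A2 / X2) + (3 * Y ^ 2 + 2 * Y) * (A2 / X2)) *
            (Y ^ 4 * X0) := by
          refine mul_le_mul_of_nonneg_right (add_le_add h4 ?_) (by positivity)
          exact mul_le_mul_of_nonneg_right h5 (by positivity)
      _ = (2 * Y ^ 3 + (3 * Y ^ 2 + 2 * Y)) * (A2 / X2 * (Y ^ 4 * X0)) := by ring
      _ ≤ Y ^ 5 * (A2 / X2 * (Y ^ 4 * X0)) := mul_le_mul_of_nonneg_right h6 (by positivity)
      _ = _ := by field_simp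
  have e5 : |dd (Ht (slam F w ω)) x (ev (c 0)) + M * dd (Ht (slam F w ω)) x (ev (c 1)) -
      (dd (G₀ (ptr F J ω) 2) x (ev (c 0)) + M * dd (G₀ (ptr F J ω) 2) x (ev (c 1)))| ≤
      Y ^ 6 * (X0 / X2) := by
    have h1 := rel1 hN haJ hω V₁
    rw [← hx, s2T, s2G, ← hX2] at h1
    have h2 : ∀ P : MvPolynomial (Option (Fin m)) ℝ,
        dd P x V₁ = dd P x (ev (c 0)) + M * dd P x (ev (c 1)) := fun P => by
      rw [hV₁, dd_add, dd_smul]
    rw [h2, h2] at h1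
    refine h1.trans ?_
    have h3 : U / 2 ^ p * 2 ^ gT 0 ≤ Y * Y * (X0 / X2) := by
      calc U / 2 ^ p * 2 ^ gT 0 ≤ U / 2 ^ p * (2 ^ v' * X0) :=
            mul_le_mul_of_nonneg_left f3 (by positivity)
        _ = U * (2 ^ v' / 2 ^ p) * X0 := by ring
        _ ≤ Y * (Y / X2) * X0 := mul_le_mul_of_nonneg_right
            (mul_le_mul hU f4 (by positivity) pY.le) pX0.le
        _ = _ := by ring
    have h4 : U / X2 * (X0 + X1 * |M - MG|) ≤ Y ^ 5 * (X0 / X2) := by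
      calc U / X2 * (X0 + X1 * |M - MG|) ≤ Y / X2 * (Y ^ 4 * X0) :=
            mul_le_mul (div_le_div_of_nonneg_right hU pX2.le) e1' (by positivity)
              (by positivity)
        _ = _ := by ring
    have h5 : Y * Y + Y ^ 5 ≤ Y ^ 6 := by
      have h6 : Y * Y ≤ Y ^ 5 := by
        rw [← pow_two]
        exact hYp (by norm_num)
      linarith
    have h6 : 0 ≤ X0 / X2 := by positivity
    calc U / 2 ^ p * 2 ^ gT 0 + U / X2 * (X0 + X1 * |M - MG|) ≤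
          Y * Y * (X0 / X2) + Y ^ 5 * (X0 / X2) := add_le_add h3 h4
      _ = (Y * Y + Y ^ 5) * (X0 / X2) := by ring
      _ ≤ _ := mul_le_mul_of_nonneg_right h5 h6
  have e6 : δ * |dd (Ht (slam F w ω)) x (ev (c 1)) - dd (G₀ (ptr F J ω) 2) x (ev (c 1))| ≤
      Y ^ 2 * (X1 / X2) := by
    have h1 := rel1 hN haJ hω (ev (c 1))
    have h2 : nrm c (TH (slam F a ω)) gT (a + v) 2 x (ev (c 1)) = 2 ^ gT 1 := by
      rw [nrm_two dT0 dT1 (ev_none _), ev_self, ev_ne h01]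
      simp
    have h3 : nrm c (G₀ (ptr F J ω)) g₀ a 2 x (ev (c 1)) = X1 := by
      rw [nrm_two dG0 dG1 (ev_none _), ev_self, ev_ne h01, hX1]
      simp
    rw [← hx, h2, h3, ← hX2] at h1
    have hδ1 : δ ≤ 1 := by nlinarith
    have h4 : δ * (U / 2 ^ p * 2 ^ gT 1) ≤ Y * (X1 / X2) := by
      have h5 : δ * (2 ^ gT 1 / 2 ^ p) ≤ X1 / X2 := by
        rw [← mul_div_assoc, div_le_div_iff₀ (by positivity) pX2]
        exact n5
      calc δ * (U / 2 ^ p * 2 ^ gT 1) = U * (δ * (2 ^ gT 1 / 2 ^ p)) := by ring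
        _ ≤ Y * (X1 / X2) := mul_le_mul hU h5 (by positivity) pY.le
    have h5 : δ * (U / X2 * X1) ≤ Y * (X1 / X2) := by
      calc δ * (U / X2 * X1) ≤ 1 * (U / X2 * X1) :=
            mul_le_mul_of_nonneg_right hδ1 (by positivity)
        _ = U * (X1 / X2) := by ring
        _ ≤ _ := mul_le_mul_of_nonneg_right hU (by positivity)
    have h6 := mul_le_mul_of_nonneg_left h1 hδ
    have h7 : 0 ≤ X1 / X2 := by positivity
    have h8 : Y + Y ≤ Y ^ 2 := by linarith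
    refine h6.trans ?_
    rw [mul_add]
    calc δ * (U / 2 ^ p * 2 ^ gT 1) + δ * (U / X2 * X1) ≤ Y * (X1 / X2) + Y * (X1 / X2) :=
          add_le_add h4 h5
      _ = (Y + Y) * (X1 / X2) := by ring
      _ ≤ _ := mul_le_mul_of_nonneg_right h8 h7
  have hf' := frz_num hY (κh := A2 * X0 / X1) (R := X1 / X2) (by positivity) (by positivity) hδ
    hδY hk e3 hf e4 e6
  exact ⟨e1, e3, e5, hf'.1, hf'.2.1, hf'.2.2⟩

end

/-! ### The closed gradient -/

/-- The slope of `v` along the line. -/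
noncomputable def Mp (c : ℕ → Fin m)
    (Hv : ((Fin m → ℝ) × (Fin m → ℝ)) × ζ × ℕ → MvPolynomial (Option (Fin m)) ℝ)
    (s : ((Fin m → ℝ) × (Fin m → ℝ)) × ζ × ℕ) : Polynomial ℝ := pl s (pderiv (some (c 0)) (Hv s))

/-- The derivatives of the row label along the line. -/
noncomputable def Qj (c : ℕ → Fin m)
    (Ht : ((Fin m → ℝ) × (Fin m → ℝ)) × ζ × ℕ → MvPolynomial (Option (Fin m)) ℝ) (j : ℕ)
    (s : ((Fin m → ℝ) × (Fin m → ℝ)) × ζ × ℕ) : Polynomial ℝ := pl s (pderiv (some (c j)) (Ht s))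

/-- The numerator. -/
noncomputable def Nm (c : ℕ → Fin m)
    (Hv Ht : ((Fin m → ℝ) × (Fin m → ℝ)) × ζ × ℕ → MvPolynomial (Option (Fin m)) ℝ)
    (s : ((Fin m → ℝ) × (Fin m → ℝ)) × ζ × ℕ) : Polynomial ℝ :=
  Polynomial.derivative (Qj c Ht 0 s) + Mp c Hv s * Polynomial.derivative (Qj c Ht 1 s)

/-- The frozen speed of the slope. -/
noncomputable def k0 (c : ℕ → Fin m) (w : ℕ)
    (Hv : ((Fin m → ℝ) × (Fin m → ℝ)) × ζ × ℕ → MvPolynomial (Option (Fin m)) ℝ)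
    (s : ((Fin m → ℝ) × (Fin m → ℝ)) × ζ × ℕ) : ℝ :=
  (Polynomial.derivative (Mp c Hv s)).eval ((s.2.2 : ℝ) / 2 ^ w)

/-- The closed gradient in the coordinate `v`. -/
noncomputable def L1 (c : ℕ → Fin m) (w : ℕ)
    (Hv Ht : ((Fin m → ℝ) × (Fin m → ℝ)) × ζ × ℕ → MvPolynomial (Option (Fin m)) ℝ)
    (s : ((Fin m → ℝ) × (Fin m → ℝ)) × ζ × ℕ) : Polynomial ℝ :=
  Qj c Ht 1 s + Polynomial.C (1 / k0 c w Hv s) * Nm c Hv Ht s

/-- The closed gradient in the coordinate `y`. -/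
noncomputable def L0 (c : ℕ → Fin m) (w : ℕ)
    (Hv Ht : ((Fin m → ℝ) × (Fin m → ℝ)) × ζ × ℕ → MvPolynomial (Option (Fin m)) ℝ)
    (s : ((Fin m → ℝ) × (Fin m → ℝ)) × ζ × ℕ) : Polynomial ℝ :=
  Qj c Ht 0 s - Polynomial.C (1 / k0 c w Hv s) * (Mp c Hv s * Nm c Hv Ht s)

/-- **The closed gradients.** -/
noncomputable def lamJ (c : ℕ → Fin m) (w : ℕ)
    (Hv Ht : ((Fin m → ℝ) × (Fin m → ℝ)) × ζ × ℕ → MvPolynomial (Option (Fin m)) ℝ)
    (s : ((Fin m → ℝ) × (Fin m → ℝ)) × ζ × ℕ) (l j : ℕ) : Polynomial ℝ :=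
  if l = 1 then (if j = 0 then Mp c Hv s else 0)
  else if l = 2 then (if j = 0 then L0 c w Hv Ht s else if j = 1 then L1 c w Hv Ht s else 0)
  else 0

section

variable (c : ℕ → Fin m) (w : ℕ)
    (Hv Ht : ((Fin m → ℝ) × (Fin m → ℝ)) × ζ × ℕ → MvPolynomial (Option (Fin m)) ℝ)
    (s : ((Fin m → ℝ) × (Fin m → ℝ)) × ζ × ℕ)

theorem val_L (t : ℝ) : (L0 c w Hv Ht s).eval t + (Mp c Hv s).eval t * (L1 c w Hv Ht s).eval t =
    (Qj c Ht 0 s).eval t + (Mp c Hv s).eval t * (Qj c Ht 1 s).eval t := by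
  unfold L0 L1
  simp only [Polynomial.eval_sub, Polynomial.eval_add, Polynomial.eval_mul, Polynomial.eval_C]
  ring

theorem der_L (t V0 V1 : ℝ) : (Polynomial.derivative (L0 c w Hv Ht s)).eval t * V0 +
    (Polynomial.derivative (L1 c w Hv Ht s)).eval t * V1 =
    (Nm c Hv Ht s * (1 - Polynomial.C (1 / k0 c w Hv s) *
      Polynomial.derivative (Mp c Hv s))).eval t * V0 +
    (Polynomial.derivative (L1 c w Hv Ht s)).eval t * (V1 - (Mp c Hv s).eval t * V0) := by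
  have e1 : Polynomial.derivative (L0 c w Hv Ht s) + Mp c Hv s *
      Polynomial.derivative (L1 c w Hv Ht s) = Nm c Hv Ht s *
      (1 - Polynomial.C (1 / k0 c w Hv s) * Polynomial.derivative (Mp c Hv s)) := by
    unfold L0 L1
    rw [Polynomial.derivative_sub, Polynomial.derivative_add, Polynomial.derivative_C_mul,
      Polynomial.derivative_C_mul, Polynomial.derivative_mul]
    have e2 : Nm c Hv Ht s = Polynomial.derivative (Qj c Ht 0 s) +
      Mp c Hv s * Polynomial.derivative (Qj c Ht 1 s) := rfl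
    have e3 : Polynomial.derivative (Qj c Ht 0 s) = Nm c Hv Ht s -
      Mp c Hv s * Polynomial.derivative (Qj c Ht 1 s) := by rw [e2]; ring
    rw [e3]
    ring
  rw [← e1, Polynomial.eval_add, Polynomial.eval_mul]
  ring

variable {c Hv Ht} {D : ℕ}

theorem deg_Mp (hv : ∀ s, (Hv s).totalDegree ≤ D) : (Mp c Hv s).natDegree ≤ D :=
  deg_pl s (totalDegree_pdσ (hv s) _)

theorem deg_Qj (ht : ∀ s, (Ht s).totalDegree ≤ D) (j : ℕ) : (Qj c Ht j s).natDegree ≤ D :=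
  deg_pl s (totalDegree_pdσ (ht s) _)

theorem deg_der {q : Polynomial ℝ} {K : ℕ} (h : q.natDegree ≤ K) :
    (Polynomial.derivative q).natDegree ≤ K :=
  (Polynomial.natDegree_derivative_le q).trans (by omega)

theorem deg_Nm (hv : ∀ s, (Hv s).totalDegree ≤ D) (ht : ∀ s, (Ht s).totalDegree ≤ D) :
    (Nm c Hv Ht s).natDegree ≤ 2 * D := by
  refine (Polynomial.natDegree_add_le _ _).trans (max_le ?_ ?_)
  · exact (deg_der (deg_Qj s ht 0)).trans (by omega)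
  · refine Polynomial.natDegree_mul_le.trans ?_
    have h1 := deg_Mp (c := c) s hv
    have h2 := deg_der (deg_Qj (c := c) s ht 1)
    omega

theorem deg_L1 (hv : ∀ s, (Hv s).totalDegree ≤ D) (ht : ∀ s, (Ht s).totalDegree ≤ D) :
    (L1 c w Hv Ht s).natDegree ≤ 3 * D := by
  refine (Polynomial.natDegree_add_le _ _).trans (max_le ?_ ?_)
  · exact (deg_Qj s ht 1).trans (by omega)
  · refine (Polynomial.natDegree_C_mul_le _ _).trans ?_
    have := deg_Nm (c := c) s hv ht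
    omega

theorem deg_L0 (hv : ∀ s, (Hv s).totalDegree ≤ D) (ht : ∀ s, (Ht s).totalDegree ≤ D) :
    (L0 c w Hv Ht s).natDegree ≤ 3 * D := by
  refine (Polynomial.natDegree_sub_le _ _).trans (max_le ?_ ?_)
  · exact (deg_Qj s ht 0).trans (by omega)
  · refine (Polynomial.natDegree_C_mul_le _ _).trans (Polynomial.natDegree_mul_le.trans ?_)
    have h1 := deg_Nm (c := c) s hv ht
    have h2 := deg_Mp (c := c) s hv
    omega

theorem deg_lamJ (hv : ∀ s, (Hv s).totalDegree ≤ D) (ht : ∀ s, (Ht s).totalDegree ≤ D)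
    (l j : ℕ) : (lamJ c w Hv Ht s l j).natDegree ≤ 3 * D := by
  unfold lamJ
  split_ifs
  · exact (deg_Mp s hv).trans (by omega)
  · simp
  · exact deg_L0 w s hv ht
  · exact deg_L1 w s hv ht
  · simp
  · simp

end

theorem pl_at (F : Fam m J) (w : ℕ) (ω : F.Ω) (R : MvPolynomial (Option (Fin m)) ℝ) (k : Fin m) :
    (pl (slam F w ω) (pderiv (some k) R)).eval (F.t ω) = dd R (bt F ω) (ev k) := by
  rw [eval_pl, blo_slam, dd_ev]

theorem pl_der (F : Fam m J) (w : ℕ) (ω : F.Ω) (R : MvPolynomial (Option (Fin m)) ℝ)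
    (k : Fin m) : (Polynomial.derivative (pl (slam F w ω) (pderiv (some k) R))).eval (F.t ω) =
      hs R (bt F ω) (bd F ω) (ev k) := by
  rw [der_pl, blo_slam, wd_slam, hs_ev]

/-- **The frozen speed.** -/
theorem frz_k (m D : ℕ) : ∃ C : ℝ, 1 ≤ C ∧ ∀ {J : ℕ} {F : Fam m J} {c : ℕ → Fin m} {w₀ w : ℕ}
    {S θ : ℝ} {A : F.Ω → Prop} {Hv : LnT F → MvPolynomial (Option (Fin m)) ℝ}
    (hA : 0 < Pe F.p A), w₀ ≤ w → w ≤ J → (∀ s, (Hv s).totalDegree ≤ D) → 0 < S →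
    (∀ ω, A ω → |(Polynomial.derivative (Mp c Hv (slam F w₀ ω))).eval (F.t ω)| ≤ S) → 0 ≤ θ →
    (Fam.sub F A hA).Tm θ → C * (θ + 1) ≤ ((J : ℝ) - w₀) * Real.log 2 →
    ∃ B : F.Ω → Prop, Sub B A ∧ Pe F.p A ≤ 2 * Pe F.p B ∧ ∀ ω, B ω →
      |k0 c w (fun s => Hv (co (w - w₀) s)) (slam F w ω) -
        (Polynomial.derivative (Mp c Hv (slam F w₀ ω))).eval (F.t ω)| ≤
        Real.exp (C * (θ + 1)) * S * (2 ^ w₀ / 2 ^ w) := by
  obtain ⟨C, hC, hrem⟩ := rem_abs m D 1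
  refine ⟨C, hC, ?_⟩
  intro J F c w₀ w S θ A Hv hA hw hwJ hdeg hS hb hθ hTm hJ
  obtain ⟨B, h1, h2, h3⟩ := hrem J F A hA w₀
    (fun _ s => Polynomial.derivative (Mp c Hv s)) (fun _ => S) θ (hw.trans hwJ)
    (fun _ _ s => deg_der (deg_Mp s hdeg)) (fun _ _ => hS) hθ hTm hJ
    (fun ω hω _ _ => hb ω hω)
  refine ⟨B, h1, by linarith, fun ω hω => ?_⟩
  have ha0 : (0 : ℝ) < 2 ^ w := by positivity
  obtain ⟨t₀, ht₀⟩ : ∃ t₀ : ℝ, t₀ = ((slam F w ω).2.2 : ℝ) / 2 ^ w := ⟨_, rfl⟩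
  have ht1 : |t₀ - F.t ω| ≤ 1 / 2 ^ w := by
    have e1 := t_rt F hwJ ω
    have e2 := rt_mem F w ω
    have e3 : t₀ - F.t ω = -(rt F w ω) / 2 ^ w := by
      rw [ht₀, e1]
      field_simp
      ring
    rw [e3, abs_div, abs_of_pos ha0, abs_neg, abs_of_nonneg e2.1]
    exact div_le_div_of_nonneg_right e2.2 ha0.le
  have hww : (1 : ℝ) / 2 ^ w ≤ 1 / 2 ^ w₀ :=
    one_div_le_one_div_of_le (by positivity) (pow_le_pow_right₀ (by norm_num) hw)
  obtain ⟨q, hq⟩ : ∃ q : Polynomial ℝ, q = Polynomial.derivative (Mp c Hv (slam F w₀ ω)) :=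
    ⟨_, rfl⟩
  have hk0 : k0 c w (fun s => Hv (co (w - w₀) s)) (slam F w ω) = q.eval t₀ := by
    unfold k0 Mp
    rw [← ht₀, hq]
    unfold Mp
    simp only [co_slam F hw hwJ]
    rw [pl_congr (s := slam F w ω) (s' := slam F w₀ ω) rfl]
  rw [hk0, ← hq]
  have h4 := Convex.norm_image_sub_le_of_norm_hasDerivWithin_le (f := fun t => q.eval t)
    (f' := fun t => (Polynomial.derivative q).eval t) (s := Metric.closedBall (F.t ω)
    (1 / 2 ^ w)) (C := Real.exp (C * (θ + 1)) * 2 ^ w₀ * S)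
    (fun t _ => (q.hasDerivAt t).hasDerivWithinAt) (fun t ht => by
      rw [Real.norm_eq_abs]
      have h5 : |t - F.t ω| ≤ 1 / 2 ^ w := by
        rw [← Real.dist_eq]
        exact ht
      have h6 := (h3 ω hω 0 (by norm_num) t (h5.trans hww)).2
      rw [← hq] at h6
      exact h6) (convex_closedBall _ _)
    (Metric.mem_closedBall_self (by positivity)) (show t₀ ∈ _ by
      rw [Metric.mem_closedBall, Real.dist_eq]
      exact ht1)
  rw [Real.norm_eq_abs, Real.norm_eq_abs] at h4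
  refine h4.trans ?_
  calc Real.exp (C * (θ + 1)) * 2 ^ w₀ * S * |t₀ - F.t ω| ≤
        Real.exp (C * (θ + 1)) * 2 ^ w₀ * S * (1 / 2 ^ w) :=
        mul_le_mul_of_nonneg_left ht1 (by positivity)
    _ = _ := by ring

/-- The size of the difference of two polynomials at near times. -/
theorem mv_pol (q : Polynomial ℝ) {t t' r M : ℝ} (hM : ∀ u : ℝ, |u - t| ≤ r →
    |(Polynomial.derivative q).eval u| ≤ M) (h : |t' - t| ≤ r) :
    |q.eval t' - q.eval t| ≤ M * |t' - t| := by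
  have hr : 0 ≤ r := (abs_nonneg _).trans h
  have h4 := Convex.norm_image_sub_le_of_norm_hasDerivWithin_le (f := fun t => q.eval t)
    (f' := fun t => (Polynomial.derivative q).eval t) (s := Metric.closedBall t r) (C := M)
    (fun t _ => (q.hasDerivAt t).hasDerivWithinAt) (fun u hu => by
      rw [Real.norm_eq_abs]
      exact hM u (by rw [← Real.dist_eq]; exact hu)) (convex_closedBall _ _)
    (Metric.mem_closedBall_self hr) (show t' ∈ _ by
      rw [Metric.mem_closedBall, Real.dist_eq]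
      exact h)
  rwa [Real.norm_eq_abs, Real.norm_eq_abs] at h4

/-- **One rough and one static coordinate: the closed gradient of the target.** -/
theorem jst_fam (m D : ℕ) (hD : 1 ≤ D) : ∃ C : ℕ, 1 ≤ C ∧ ∀ {J : ℕ} {F : Fam m J}
    {c : ℕ → Fin m} {w a v v' e p q k d : ℕ} {g₀ gT : ℕ → ℕ} {U θ : ℝ} {A : F.Ω → Prop}
    {G₀ : PtT F → ℕ → MvPolynomial (Option (Fin m)) ℝ}
    {H₀ : LnT F → ℕ → MvPolynomial (Option (Fin m)) ℝ}
    {T : PtT F → ℕ → MvPolynomial (Option (Fin m)) ℝ}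
    {TH : LnT F → ℕ → MvPolynomial (Option (Fin m)) ℝ}
    {Hv Ht : LnT F → MvPolynomial (Option (Fin m)) ℝ},
    0 < Pe F.p A → Set.InjOn c (Set.Iio 3) → w ≤ a → a ≤ J → (∀ l < 3, e + g₀ l + C ≤ J) →
    ChOK F c 3 (fun _ => D) a a e g₀ A G₀ H₀ → (∀ s, (Hv s).totalDegree ≤ D) →
    (∀ s, (Ht s).totalDegree ≤ D) → (∀ s, ∀ l < 2, DepC c l (TH s l)) →
    (∀ ω, A ω → TH (slam F a ω) 1 = Hv (slam F w ω)) →
    ROut1 F c 1 a a v g₀ gT q U A G₀ H₀ T TH (fun s => TH s 1) →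
    ROut1 F c 2 w a v g₀ gT p U A G₀ H₀ T TH Ht → 0 ≤ U → U ≤ 2 ^ k →
    (∀ ω, A ω → ∀ l < 3, ∀ V : Option (Fin m) → ℝ,
      |hs (G₀ (ptr F J ω) l) (bt F ω) (bd F ω) V| ≤
        2 ^ k * (2 ^ a / 2 ^ g₀ l) * nrm c (G₀ (ptr F J ω)) g₀ a l (bt F ω) V) →
    k + 2 ≤ d → gT 0 + g₀ 1 ≤ k + g₀ 0 + q → gT 0 ≤ g₀ 0 + v' → v' + g₀ 2 ≤ k + p →
    gT 1 + g₀ 2 ≤ g₀ 1 + p + d →
    (∀ ω, A ω → 2 ^ a * 2 ^ g₀ 0 / 2 ^ g₀ 1 ≤
      2 ^ k * |(Polynomial.derivative (Mp c Hv (slam F w ω))).eval (F.t ω)|) →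
    (∀ ω, A ω → |k0 c w Hv (slam F w ω) -
      (Polynomial.derivative (Mp c Hv (slam F w ω))).eval (F.t ω)| ≤
      1 / 2 ^ d * (2 ^ a * 2 ^ g₀ 0 / 2 ^ g₀ 1)) → 0 ≤ θ →
    (∀ (B' : F.Ω → Prop) (hB' : 0 < Pe F.p B'), Sub B' A → Pe F.p A ≤ 2 * Pe F.p B' →
      (Fam.sub F B' hB').Tm θ) → C * (θ + 1) ≤ ((J : ℝ) - a) * Real.log 2 →
    Real.exp (C * (θ + 1)) ≤ 2 ^ k →
    ∃ B : F.Ω → Prop, Sub B A ∧ Pe F.p A ≤ 4 * Pe F.p B ∧
      AfD F c 3 (3 * D) w a (e + 4) g₀ (2 ^ (27 * (k + 1))) B (gpt F G₀)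
        (lamJ c w Hv Ht) := by
  obtain ⟨C₁, hC₁, hrem⟩ := rem_abs m (3 * D) 3
  obtain ⟨C₂, hC₂, hgpt⟩ := gpt_near D 3
  obtain ⟨C, hC⟩ : ∃ C : ℕ, C = ⌈C₁⌉₊ + C₂ := ⟨_, rfl⟩
  refine ⟨C, by omega, ?_⟩
  intro J F c w a v v' e p q k d g₀ gT U θ A G₀ H₀ T TH Hv Ht hA hc hwa haJ hJ3 hch hv ht hdT hTH
    hV hN hU0 hU hcur hkd n1 n3 n4 n5 hk hf hθ hTm hCJ hexp
  have hCR : C₁ ≤ (C : ℝ) := by
    have e1 : C₁ ≤ (⌈C₁⌉₊ : ℝ) := Nat.le_ceil C₁
    have e2 : ((⌈C₁⌉₊ : ℕ) : ℝ) ≤ C := by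
      rw [hC]
      exact_mod_cast Nat.le_add_right _ _
    exact e1.trans e2
  have h01 : c 0 ≠ c 1 := fun h => absurd (hc (by simp) (by simp) h) (by norm_num)
  obtain ⟨Y, hYd⟩ : ∃ Y : ℝ, Y = 2 ^ (k + 1) := ⟨_, rfl⟩
  obtain ⟨δ, hδd⟩ : ∃ δ : ℝ, δ = 1 / 2 ^ d := ⟨_, rfl⟩
  obtain ⟨E, hEd⟩ : ∃ E : ℝ, E = Real.exp (C₁ * (θ + 1)) := ⟨_, rfl⟩
  have hkY : (2 : ℝ) ^ k ≤ Y := by
    rw [hYd]
    exact pow_le_pow_right₀ (by norm_num) (by omega)
  have hY : 2 ≤ Y := by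
    rw [hYd, pow_succ]
    have : (1 : ℝ) ≤ 2 ^ k := one_le_pow₀ (by norm_num)
    linarith
  have hY0 : 0 < Y := by linarith
  have hYp : ∀ {n k : ℕ}, n ≤ k → Y ^ n ≤ Y ^ k := fun h => pow_le_pow_right₀ (by linarith) h
  have hY1 : ∀ n : ℕ, 1 ≤ Y ^ n := fun n => one_le_pow₀ (by linarith)
  have hUY : U ≤ Y := hU.trans hkY
  have hδ0 : 0 ≤ δ := by rw [hδd]; positivity
  have hδY : 2 * Y * δ ≤ 1 := by
    rw [hδd, hYd, mul_one_div, div_le_one (by positivity)]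
    calc 2 * (2 : ℝ) ^ (k + 1) = 2 ^ (k + 2) := by ring
      _ ≤ 2 ^ d := pow_le_pow_right₀ (by norm_num) hkd
  have hE0 : 0 < E := by rw [hEd]; exact Real.exp_pos _
  have hEY : E ≤ Y := by
    rw [hEd]
    refine le_trans (Real.exp_le_exp.2 ?_) (hexp.trans hkY)
    exact mul_le_mul_of_nonneg_right hCR (by linarith)
  have hCJ' : C₁ * (θ + 1) ≤ ((J : ℝ) - a) * Real.log 2 :=
    (mul_le_mul_of_nonneg_right hCR (by linarith)).trans hCJ
  obtain ⟨X0, hX0⟩ : ∃ X0 : ℝ, X0 = 2 ^ g₀ 0 := ⟨_, rfl⟩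
  obtain ⟨X1, hX1⟩ : ∃ X1 : ℝ, X1 = 2 ^ g₀ 1 := ⟨_, rfl⟩
  obtain ⟨X2, hX2⟩ : ∃ X2 : ℝ, X2 = 2 ^ g₀ 2 := ⟨_, rfl⟩
  obtain ⟨A2, hA2⟩ : ∃ A2 : ℝ, A2 = 2 ^ a := ⟨_, rfl⟩
  have pX0 : 0 < X0 := by rw [hX0]; positivity
  have pX1 : 0 < X1 := by rw [hX1]; positivity
  have pX2 : 0 < X2 := by rw [hX2]; positivity
  have pA2 : 0 < A2 := by rw [hA2]; positivity
  -- the exact time
  have hex : ∀ ω, A ω →
      |(Mp c Hv (slam F w ω)).eval (F.t ω) - dd (G₀ (ptr F J ω) 1) (bt F ω) (ev (c 0))| ≤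
        Y ^ 3 * (X0 / X1) ∧
      |(Polynomial.derivative (Mp c Hv (slam F w ω))).eval (F.t ω)| ≤
        Y ^ 4 * (A2 * X0 / X1) ∧
      |(Qj c Ht 0 (slam F w ω)).eval (F.t ω) + (Mp c Hv (slam F w ω)).eval (F.t ω) *
        (Qj c Ht 1 (slam F w ω)).eval (F.t ω) - (dd (G₀ (ptr F J ω) 2) (bt F ω) (ev (c 0)) +
        (Mp c Hv (slam F w ω)).eval (F.t ω) * dd (G₀ (ptr F J ω) 2) (bt F ω) (ev (c 1)))| ≤
        Y ^ 6 * (X0 / X2) ∧
      |(L1 c w Hv Ht (slam F w ω)).eval (F.t ω) - dd (G₀ (ptr F J ω) 2) (bt F ω) (ev (c 1))| ≤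
        Y ^ 12 * (X1 / X2) ∧
      |(Nm c Hv Ht (slam F w ω) * (1 - Polynomial.C (1 / k0 c w Hv (slam F w ω)) *
        Polynomial.derivative (Mp c Hv (slam F w ω)))).eval (F.t ω)| ≤
        Y ^ 12 * (A2 * X0 / X1 * (X1 / X2)) := by
    intro ω hω
    have hMd : (Polynomial.derivative (Mp c Hv (slam F w ω))).eval (F.t ω) =
        hs (TH (slam F a ω) 1) (bt F ω) (bd F ω) (ev (c 0)) := by
      unfold Mp
      rw [pl_der, hTH ω hω]
    have hMe : (Mp c Hv (slam F w ω)).eval (F.t ω) =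
        dd (TH (slam F a ω) 1) (bt F ω) (ev (c 0)) := by
      unfold Mp
      rw [pl_at, hTH ω hω]
    have hQe : ∀ j, (Qj c Ht j (slam F w ω)).eval (F.t ω) =
        dd (Ht (slam F w ω)) (bt F ω) (ev (c j)) := fun j => by
      unfold Qj
      rw [pl_at]
    have hQd : ∀ j, (Polynomial.derivative (Qj c Ht j (slam F w ω))).eval (F.t ω) =
        hs (Ht (slam F w ω)) (bt F ω) (bd F ω) (ev (c j)) := fun j => by
      unfold Qj
      rw [pl_der]
    have hNe : (Nm c Hv Ht (slam F w ω)).eval (F.t ω) =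
        hs (Ht (slam F w ω)) (bt F ω) (bd F ω) (ev (c 0)) +
        dd (TH (slam F a ω) 1) (bt F ω) (ev (c 0)) *
        hs (Ht (slam F w ω)) (bt F ω) (bd F ω) (ev (c 1)) := by
      unfold Nm
      rw [Polynomial.eval_add, Polynomial.eval_mul, hQd, hQd, hMe]
    have h1 := ex_pt hV hN haJ h01 hch.depG hdT (Y := Y) (δ := δ) (v' := v') hU0 hUY hY hδ0 hδY
      (by
        calc (2 : ℝ) ^ gT 0 * 2 ^ g₀ 1 = 2 ^ (gT 0 + g₀ 1) := (pow_add _ _ _).symm
          _ ≤ 2 ^ (k + g₀ 0 + q) := pow_le_pow_right₀ (by norm_num) n1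
          _ = 2 ^ k * 2 ^ g₀ 0 * 2 ^ q := by rw [pow_add, pow_add]
          _ ≤ Y * 2 ^ g₀ 0 * 2 ^ q := mul_le_mul_of_nonneg_right
              (mul_le_mul_of_nonneg_right hkY (by positivity)) (by positivity)) n3 (by
        calc (2 : ℝ) ^ v' * 2 ^ g₀ 2 = 2 ^ (v' + g₀ 2) := (pow_add _ _ _).symm
          _ ≤ 2 ^ (k + p) := pow_le_pow_right₀ (by norm_num) n4
          _ = 2 ^ k * 2 ^ p := pow_add _ _ _
          _ ≤ Y * 2 ^ p := mul_le_mul_of_nonneg_right hkY (by positivity)) (by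
        rw [hδd]
        calc 1 / (2 : ℝ) ^ d * 2 ^ gT 1 * 2 ^ g₀ 2 = 2 ^ (gT 1 + g₀ 2) / 2 ^ d := by
              rw [pow_add]
              ring
          _ ≤ 2 ^ (g₀ 1 + p + d) / 2 ^ d := div_le_div_of_nonneg_right
              (pow_le_pow_right₀ (by norm_num) n5) (by positivity)
          _ = 2 ^ g₀ 1 * 2 ^ p := by
              rw [pow_add, pow_add]
              field_simp) hω (fun l hl V => (hcur ω hω l hl V).trans (by
        refine mul_le_mul_of_nonneg_right ?_ (nrm_nonneg _ _ _ _ _ _ _)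
        exact mul_le_mul_of_nonneg_right hkY (by positivity)))
      (κ₀ := k0 c w Hv (slam F w ω)) (by
        have h2 := hk ω hω
        rw [hMd] at h2
        exact h2.trans (mul_le_mul_of_nonneg_right hkY (abs_nonneg _))) (by
        have h2 := hf ω hω
        rw [hMd, ← hδd] at h2
        exact h2)
    obtain ⟨g1, g2, g3, -, g5, g6⟩ := h1
    refine ⟨?_, ?_, ?_, ?_, ?_⟩
    · rw [hMe, hX0, hX1]
      exact g1
    · rw [hMd, hA2, hX0, hX1]
      exact g2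
    · rw [hMe, hQe, hQe, hX0, hX2]
      exact g3
    · unfold L1
      rw [Polynomial.eval_add, Polynomial.eval_mul, Polynomial.eval_C, hQe, hNe, hX1, hX2]
      exact g5
    · rw [Polynomial.eval_mul, Polynomial.eval_sub, Polynomial.eval_mul, Polynomial.eval_C,
        Polynomial.eval_one, hNe, hMd, hA2, hX0, hX1, hX2]
      exact g6
  -- the closed chart of the ball
  have hev : ∀ ω, nrm c (G₀ (ptr F J ω)) g₀ a 2 (bt F ω) (ev (c 1)) = X1 := fun ω => by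
    rw [nrm_two (hch.depG _ 0) (hch.depG _ 1) (ev_none _), ev_self, ev_ne h01, hX1]
    simp
  have hd1 : ∀ ω, A ω → |(pl (slam F a ω) (pderiv (some (c 1))
      (hn c H₀ (slam F a ω) 2))).eval (F.t ω) -
      dd (G₀ (ptr F J ω) 2) (bt F ω) (ev (c 1))| ≤ Y * (X1 / X2) := by
    intro ω hω
    have h1 := (hN.dif ω hω 2 le_rfl).1 (ev (c 1))
    rw [dd_sub, hev, ← hX2] at h1
    rw [pl_at]
    refine h1.trans ?_
    rw [div_mul_eq_mul_div, ← mul_div_assoc]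
    exact div_le_div_of_nonneg_right (mul_le_mul_of_nonneg_right hUY pX1.le) pX2.le
  have hd2 : ∀ ω, A ω → |(Polynomial.derivative (pl (slam F a ω) (pderiv (some (c 1))
      (hn c H₀ (slam F a ω) 2)))).eval (F.t ω)| ≤ Y ^ 4 * (A2 * (X1 / X2)) := by
    intro ω hω
    have h1 := (hN.dif ω hω 2 le_rfl).2 (bd F ω) (ev (c 1)) 0
    have e0 : ∀ P : MvPolynomial (Option (Fin m)) ℝ, dd P (bt F ω) 0 = 0 := fun P => by
      have := dd_smul P (bt F ω) (0 : Option (Fin m) → ℝ) 0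
      rwa [zero_smul, zero_mul] at this
    have z2 : nrz c (G₀ (ptr F J ω)) g₀ a 2 (bt F ω) (bd F ω) (ev (c 1)) 0 = 0 := by
      unfold nrz
      rw [Finset.sum_range_succ, Finset.sum_range_one, hs_nil (hch.depG _ 0) _ _ (ev_none _),
        hs_one (hch.depG _ 1) _ _ (ev_none _), ev_ne h01, e0, e0]
      simp
    have h2 := nrm_bd hN hω
    have h3 := hcur ω hω 2 (by norm_num) (ev (c 1))
    rw [hs_sub, e0, add_zero, z2, add_zero, hev, ← hX2] at h1
    rw [hev, ← hX2, ← hA2] at h3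
    rw [← hA2] at h2
    rw [pl_der]
    have e1 : hs (hn c H₀ (slam F a ω) 2) (bt F ω) (bd F ω) (ev (c 1)) =
        (hs (Hno (c 2) (fun s => H₀ s 2) (slam F a ω)) (bt F ω) (bd F ω) (ev (c 1)) -
          hs (G₀ (ptr F J ω) 2) (bt F ω) (bd F ω) (ev (c 1))) +
        hs (G₀ (ptr F J ω) 2) (bt F ω) (bd F ω) (ev (c 1)) := by
      unfold hn
      ring
    rw [e1]
    refine (abs_add_le _ _).trans ((add_le_add h1 h3).trans ?_)
    have h4 : U / X2 * (nrm c (G₀ (ptr F J ω)) g₀ a 2 (bt F ω) (bd F ω) * X1) ≤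
        Y * (1 + 2 * Y) * (A2 * (X1 / X2)) := by
      calc U / X2 * (nrm c (G₀ (ptr F J ω)) g₀ a 2 (bt F ω) (bd F ω) * X1) ≤
            Y / X2 * ((1 + 2 * Y) * A2 * X1) := by
            refine mul_le_mul (div_le_div_of_nonneg_right hUY pX2.le)
              (mul_le_mul_of_nonneg_right (h2.trans ?_) pX1.le)
              (mul_nonneg (nrm_nonneg _ _ _ _ _ _ _) pX1.le) (by positivity)
            push_cast
            exact mul_le_mul_of_nonneg_right (by linarith) pA2.le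
        _ = _ := by ring
    have h5 : (2 : ℝ) ^ k * (A2 / X2) * X1 ≤ Y * (A2 * (X1 / X2)) := by
      calc (2 : ℝ) ^ k * (A2 / X2) * X1 = 2 ^ k * (A2 * (X1 / X2)) := by ring
        _ ≤ _ := mul_le_mul_of_nonneg_right hkY (by positivity)
    have y1 := two_pw hY 1
    have y2 := two_pw hY 2
    have y3 := two_pw hY 3
    norm_num at y1 y2 y3
    calc U / X2 * (nrm c (G₀ (ptr F J ω)) g₀ a 2 (bt F ω) (bd F ω) * X1) +
          2 ^ k * (A2 / X2) * X1 ≤ Y * (1 + 2 * Y) * (A2 * (X1 / X2)) +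
            Y * (A2 * (X1 / X2)) := add_le_add h4 h5
      _ = (2 * Y + 2 * Y ^ 2) * (A2 * (X1 / X2)) := by ring
      _ ≤ Y ^ 4 * (A2 * (X1 / X2)) := mul_le_mul_of_nonneg_right (by linarith) (by positivity)
  -- Remez
  have hco : ∀ ω, co (a - w) (slam F a ω) = slam F w ω := fun ω => co_slam F hwa haJ ω
  obtain ⟨B₁, b1, b2, b3⟩ := hrem J F A hA a (fun i s => if i = 0 then
      L1 c w Hv Ht (co (a - w) s) - pl s (pderiv (some (c 1)) (hn c H₀ s 2))
    else if i = 1 then Polynomial.derivative (Mp c Hv (co (a - w) s))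
    else Nm c Hv Ht (co (a - w) s) * (1 - Polynomial.C (1 / k0 c w Hv (co (a - w) s)) *
      Polynomial.derivative (Mp c Hv (co (a - w) s))))
    (fun i => if i = 0 then Y ^ 13 * (X1 / X2) else if i = 1 then Y ^ 4 * (A2 * X0 / X1) else
      Y ^ 12 * (A2 * X0 / X1 * (X1 / X2))) θ haJ (fun i _ s => by
        show (if i = 0 then _ else if i = 1 then _ else _ : Polynomial ℝ).natDegree ≤ 3 * D
        split_ifs
        · refine (Polynomial.natDegree_sub_le _ _).trans (max_le (deg_L1 w _ hv ht) ?_)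
          exact (deg_pl s (totalDegree_pdσ (deg_Hno (c 2) (fun s => H₀ s 2) s hD
            (hch.degH s 2)) _)).trans (by omega)
        · exact (deg_der (deg_Mp _ hv)).trans (by omega)
        · refine Polynomial.natDegree_mul_le.trans ?_
          have h1 := deg_Nm (c := c) (co (a - w) s) hv ht
          have h2 : (1 - Polynomial.C (1 / k0 c w Hv (co (a - w) s)) *
              Polynomial.derivative (Mp c Hv (co (a - w) s))).natDegree ≤ D := by
            refine (Polynomial.natDegree_sub_le _ _).trans (max_le (by simp) ?_)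
            exact (Polynomial.natDegree_C_mul_le _ _).trans (deg_der (deg_Mp _ hv))
          omega) (fun i _ => by
        show (0 : ℝ) < if i = 0 then _ else if i = 1 then _ else _
        split_ifs <;> positivity) hθ (hTm A hA (fun _ h => h) (by linarith)) hCJ' (by
        intro ω hω i _
        obtain ⟨-, k2, -, k4, k5⟩ := hex ω hω
        show |(if i = 0 then _ else if i = 1 then _ else _ : Polynomial ℝ).eval (F.t ω)| ≤
          if i = 0 then _ else if i = 1 then _ else _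
        rw [hco]
        split_ifs
        · rw [Polynomial.eval_sub]
          have e1 : (L1 c w Hv Ht (slam F w ω)).eval (F.t ω) -
              (pl (slam F a ω) (pderiv (some (c 1)) (hn c H₀ (slam F a ω) 2))).eval (F.t ω) =
              ((L1 c w Hv Ht (slam F w ω)).eval (F.t ω) -
                dd (G₀ (ptr F J ω) 2) (bt F ω) (ev (c 1))) -
              ((pl (slam F a ω) (pderiv (some (c 1))
                (hn c H₀ (slam F a ω) 2))).eval (F.t ω) -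
                dd (G₀ (ptr F J ω) 2) (bt F ω) (ev (c 1))) := by ring
          rw [e1]
          refine (abs_sub _ _).trans ((add_le_add k4 (hd1 ω hω)).trans ?_)
          have h1 : Y ^ 12 + Y ≤ Y ^ 13 := by
            have e2 : 2 * Y ^ 12 ≤ Y ^ 13 := two_pw hY 12
            have e3 : Y ^ 1 ≤ Y ^ 12 := hYp (by norm_num)
            rw [pow_one] at e3
            linarith
          calc Y ^ 12 * (X1 / X2) + Y * (X1 / X2) = (Y ^ 12 + Y) * (X1 / X2) := by ring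
            _ ≤ _ := mul_le_mul_of_nonneg_right h1 (by positivity)
        · exact k2
        · exact k5)
  have hB₁ : 0 < Pe F.p B₁ := by linarith
  have h0t : ∀ ω, |F.t ω - F.t ω| ≤ 1 / 2 ^ a := fun ω => by
    rw [sub_self, abs_zero]
    positivity
  obtain ⟨B₂, d1, d2, d3⟩ := hrem J F B₁ hB₁ a
    (fun _ s => Polynomial.derivative (L1 c w Hv Ht (co (a - w) s)))
    (fun _ => Y ^ 15 * (A2 * (X1 / X2))) θ haJ (fun _ _ s => deg_der (deg_L1 w _ hv ht))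
    (fun _ _ => by positivity) hθ (hTm B₁ hB₁ b1 (by linarith)) hCJ' (by
      intro ω hω _ _
      have h1 := (b3 ω hω 0 (by norm_num) (F.t ω) (h0t ω)).2
      have h2 := hd2 ω (b1 ω hω)
      rw [if_pos rfl, if_pos rfl, hco, Polynomial.derivative_sub, Polynomial.eval_sub,
        ← hEd, ← hA2] at h1
      rw [hco]
      have e1 : (Polynomial.derivative (L1 c w Hv Ht (slam F w ω))).eval (F.t ω) =
          ((Polynomial.derivative (L1 c w Hv Ht (slam F w ω))).eval (F.t ω) -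
            (Polynomial.derivative (pl (slam F a ω) (pderiv (some (c 1))
              (hn c H₀ (slam F a ω) 2)))).eval (F.t ω)) +
          (Polynomial.derivative (pl (slam F a ω) (pderiv (some (c 1))
              (hn c H₀ (slam F a ω) 2)))).eval (F.t ω) := by ring
      rw [e1]
      refine (abs_add_le _ _).trans ((add_le_add h1 h2).trans ?_)
      have h3 : E * A2 * (Y ^ 13 * (X1 / X2)) ≤ Y ^ 14 * (A2 * (X1 / X2)) := by
        calc E * A2 * (Y ^ 13 * (X1 / X2)) ≤ Y * A2 * (Y ^ 13 * (X1 / X2)) :=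
              mul_le_mul_of_nonneg_right (mul_le_mul_of_nonneg_right hEY pA2.le)
                (by positivity)
          _ = _ := by ring
      have h4 : Y ^ 14 + Y ^ 4 ≤ Y ^ 15 := by
        have e2 : 2 * Y ^ 14 ≤ Y ^ 15 := two_pw hY 14
        have e3 : Y ^ 4 ≤ Y ^ 14 := hYp (by norm_num)
        linarith
      calc E * A2 * (Y ^ 13 * (X1 / X2)) + Y ^ 4 * (A2 * (X1 / X2)) ≤
            Y ^ 14 * (A2 * (X1 / X2)) + Y ^ 4 * (A2 * (X1 / X2)) := add_le_add h3 le_rfl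
        _ = (Y ^ 14 + Y ^ 4) * (A2 * (X1 / X2)) := by ring
        _ ≤ _ := mul_le_mul_of_nonneg_right h4 (by positivity))
  have d1' : Sub B₂ A := fun ω hω => b1 ω (d1 ω hω)
  refine ⟨B₂, d1', by linarith, ?_⟩
  -- the visible gradients
  have hnc : ∀ ω, B₂ ω → Nc c g₀ a 3 (2 ^ 0) (fun j => grd (G₀ (ptr F J ω) j) (bt F ω))
      (gpt F G₀ (ptr F J ω)) := fun ω hω => by
    rw [pow_zero]
    exact hgpt hc le_rfl hch (fun l hl => by have := hJ3 l hl; omega) ω (d1' ω hω)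
  have h8 : ∀ ω, B₂ ω → ∀ l ≤ 3, ∀ V : Option (Fin m) → ℝ,
      nrm c (G₀ (ptr F J ω)) g₀ a l (bt F ω) V ≤
        Y ^ 3 * en c g₀ a (gpt F G₀ (ptr F J ω)) l V := by
    intro ω hω l hl V
    have h1 := (hnc ω hω).en_ge (by positivity) hl V
    rw [← nrm_en] at h1
    refine h1.trans (mul_le_mul_of_nonneg_right ?_ (en_nonneg _ _ _ _ _ _))
    rw [pow_zero]
    exact pow_le_pow_left₀ (by norm_num) (by linarith) 3
  have hcvn : ∀ ω, B₂ ω → ∀ l < 3, ∀ V : Option (Fin m) → ℝ,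
      |cv (gpt F G₀ (ptr F J ω) l) V - dd (G₀ (ptr F J ω) l) (bt F ω) V| ≤
        1 / 2 ^ g₀ l * nrm c (G₀ (ptr F J ω)) g₀ a l (bt F ω) V := by
    intro ω hω l hl V
    have h1 := hnc ω hω l hl V
    rw [cv_subl, cv_grd, ← nrm_en, pow_zero] at h1
    exact h1
  have hU27 : (2 : ℝ) ^ (27 * (k + 1)) = Y ^ 27 := by
    rw [hYd, ← pow_mul]
    congr 1
    ring
  have l10 : ∀ s : LnT F, lamJ c w Hv Ht s 1 0 = Mp c Hv s := fun s => rfl
  have l20 : ∀ s : LnT F, lamJ c w Hv Ht s 2 0 = L0 c w Hv Ht s := fun s => rfl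
  have l21 : ∀ s : LnT F, lamJ c w Hv Ht s 2 1 = L1 c w Hv Ht s := fun s => rfl
  have hsp : ∀ ω, A ω → ∀ l < 3, ∀ V : Option (Fin m) → ℝ, V none = 0 →
      |∑ j ∈ range l, (lamJ c w Hv Ht (slam F w ω) l j).eval (F.t ω) * V (some (c j)) -
        dd (G₀ (ptr F J ω) l) (bt F ω) V| ≤
      Y ^ 16 / 2 ^ g₀ l * nrm c (G₀ (ptr F J ω)) g₀ a l (bt F ω) V := by
    intro ω hω l hl V hVn
    obtain ⟨k1, -, k3, k4, -⟩ := hex ω hω
    rcases Nat.lt_succ_iff_lt_or_eq.1 hl with hl | hl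
    · rcases Nat.lt_succ_iff_lt_or_eq.1 hl with hl | hl
      · rw [Nat.lt_one_iff.1 hl, Finset.sum_range_zero, dd_nil (hch.depG _ 0) _ hVn, sub_zero,
          abs_zero]
        exact mul_nonneg (by positivity) (nrm_nonneg _ _ _ _ _ _ _)
      · rw [hl, Finset.sum_range_one, l10, dd_one (hch.depG _ 1) _ hVn,
          nrm_one (hch.depG _ 0) hVn, ← hX0, ← hX1]
        have e1 : (Mp c Hv (slam F w ω)).eval (F.t ω) * V (some (c 0)) - V (some (c 0)) *
            dd (G₀ (ptr F J ω) 1) (bt F ω) (ev (c 0)) =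
            ((Mp c Hv (slam F w ω)).eval (F.t ω) -
              dd (G₀ (ptr F J ω) 1) (bt F ω) (ev (c 0))) * V (some (c 0)) := by ring
        rw [e1, abs_mul]
        calc _ ≤ Y ^ 3 * (X0 / X1) * |V (some (c 0))| :=
              mul_le_mul_of_nonneg_right k1 (abs_nonneg _)
          _ ≤ Y ^ 16 * (X0 / X1) * |V (some (c 0))| := mul_le_mul_of_nonneg_right
              (mul_le_mul_of_nonneg_right (hYp (by norm_num)) (by positivity)) (abs_nonneg _)
          _ = _ := by ring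
    · rw [hl, Finset.sum_range_succ, Finset.sum_range_one, l20, l21,
        dd_two h01 (hch.depG _ 2) _ hVn, nrm_two (hch.depG _ 0) (hch.depG _ 1) hVn, ← hX0,
        ← hX1, ← hX2]
      obtain ⟨M, hM⟩ : ∃ M, M = (Mp c Hv (slam F w ω)).eval (F.t ω) := ⟨_, rfl⟩
      obtain ⟨MG, hMG⟩ : ∃ MG, MG = dd (G₀ (ptr F J ω) 1) (bt F ω) (ev (c 0)) := ⟨_, rfl⟩
      obtain ⟨g0, hg0⟩ : ∃ g0, g0 = dd (G₀ (ptr F J ω) 2) (bt F ω) (ev (c 0)) := ⟨_, rfl⟩
      obtain ⟨g1, hg1⟩ : ∃ g1, g1 = dd (G₀ (ptr F J ω) 2) (bt F ω) (ev (c 1)) := ⟨_, rfl⟩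
      obtain ⟨V0, hV0⟩ : ∃ V0, V0 = V (some (c 0)) := ⟨_, rfl⟩
      obtain ⟨V1, hV1⟩ : ∃ V1, V1 = V (some (c 1)) := ⟨_, rfl⟩
      obtain ⟨a0, ha0⟩ : ∃ a0, a0 = (L0 c w Hv Ht (slam F w ω)).eval (F.t ω) := ⟨_, rfl⟩
      obtain ⟨a1, ha1⟩ : ∃ a1, a1 = (L1 c w Hv Ht (slam F w ω)).eval (F.t ω) := ⟨_, rfl⟩
      have e1 := val_L c w Hv Ht (slam F w ω) (F.t ω)
      rw [← ha0, ← ha1, ← hM] at e1
      rw [← hM, ← hMG] at k1
      rw [← hM, ← e1, ← hg0, ← hg1] at k3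
      rw [← ha1, ← hg1] at k4
      rw [← ha0, ← ha1, ← hg0, ← hg1, ← hMG, ← hV0, ← hV1]
      have e2 : a0 * V0 + a1 * V1 - (V0 * g0 + V1 * g1) =
          (a0 + M * a1 - (g0 + M * g1)) * V0 + (a1 - g1) * (V1 - M * V0) := by ring
      rw [e2]
      have e3 : |V1 - M * V0| ≤ |V1 - V0 * MG| + Y ^ 3 * (X0 / X1) * |V0| := by
        have e4 : V1 - M * V0 = (V1 - V0 * MG) - (M - MG) * V0 := by ring
        rw [e4]
        refine (abs_sub _ _).trans (add_le_add le_rfl ?_)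
        rw [abs_mul]
        exact mul_le_mul_of_nonneg_right k1 (abs_nonneg _)
      have h0V : 0 ≤ |V0| := abs_nonneg _
      have h1V : 0 ≤ |V1 - V0 * MG| := abs_nonneg _
      calc _ ≤ Y ^ 6 * (X0 / X2) * |V0| + Y ^ 12 * (X1 / X2) *
            (|V1 - V0 * MG| + Y ^ 3 * (X0 / X1) * |V0|) := by
            refine (abs_add_le _ _).trans ?_
            rw [abs_mul, abs_mul]
            exact add_le_add (mul_le_mul_of_nonneg_right k3 h0V)
              (mul_le_mul k4 e3 (abs_nonneg _) (by positivity))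
        _ = (Y ^ 6 + Y ^ 15) / X2 * (X0 * |V0|) + Y ^ 12 / X2 * (X1 * |V1 - V0 * MG|) := by
            field_simp
            ring
        _ ≤ Y ^ 16 / X2 * (X0 * |V0|) + Y ^ 16 / X2 * (X1 * |V1 - V0 * MG|) := by
            have h1 : Y ^ 6 + Y ^ 15 ≤ Y ^ 16 := by
              have e5 : 2 * Y ^ 15 ≤ Y ^ 16 := two_pw hY 15
              have e6 : Y ^ 6 ≤ Y ^ 15 := hYp (by norm_num)
              linarith
            have h2 : Y ^ 12 ≤ Y ^ 16 := hYp (by norm_num)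
            exact add_le_add (mul_le_mul_of_nonneg_right (div_le_div_of_nonneg_right h1 pX2.le)
              (by positivity)) (mul_le_mul_of_nonneg_right
              (div_le_div_of_nonneg_right h2 pX2.le) (by positivity))
        _ = _ := by ring
  have hvr : ∀ ω, B₂ ω → ∀ l < 3, ∀ t : ℝ, |t - F.t ω| ≤ 1 / 2 ^ a →
      ∀ V : Option (Fin m) → ℝ, V none = 0 →
      |∑ j ∈ range l, (Polynomial.derivative (lamJ c w Hv Ht (slam F w ω) l j)).eval t *
        V (some (c j))| ≤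
      Y ^ 23 * 2 ^ a / 2 ^ g₀ l * nrm c (G₀ (ptr F J ω)) g₀ a l (bt F ω) V := by
    intro ω hω l hl t htt V hVn
    have q1 : |(Polynomial.derivative (Mp c Hv (slam F w ω))).eval t| ≤
        Y ^ 5 * (A2 * X0 / X1) := by
      have h1 := (b3 ω (d1 ω hω) 1 (by norm_num) t htt).1
      rw [if_neg one_ne_zero, if_neg one_ne_zero, if_pos rfl, if_pos rfl, hco, ← hEd] at h1
      refine h1.trans ?_
      calc E * (Y ^ 4 * (A2 * X0 / X1)) ≤ Y * (Y ^ 4 * (A2 * X0 / X1)) :=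
            mul_le_mul_of_nonneg_right hEY (by positivity)
        _ = _ := by ring
    rcases Nat.lt_succ_iff_lt_or_eq.1 hl with hl | hl
    · rcases Nat.lt_succ_iff_lt_or_eq.1 hl with hl | hl
      · rw [Nat.lt_one_iff.1 hl, Finset.sum_range_zero, abs_zero]
        exact mul_nonneg (by positivity) (nrm_nonneg _ _ _ _ _ _ _)
      · rw [hl, Finset.sum_range_one, l10, nrm_one (hch.depG _ 0) hVn, ← hX0, ← hX1, ← hA2,
          abs_mul]
        calc _ ≤ Y ^ 5 * (A2 * X0 / X1) * |V (some (c 0))| :=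
              mul_le_mul_of_nonneg_right q1 (abs_nonneg _)
          _ ≤ Y ^ 23 * (A2 * X0 / X1) * |V (some (c 0))| := mul_le_mul_of_nonneg_right
              (mul_le_mul_of_nonneg_right (hYp (by norm_num)) (by positivity)) (abs_nonneg _)
          _ = _ := by ring
    · obtain ⟨k1, -, -, -, -⟩ := hex ω (d1' ω hω)
      have q2 : |(Nm c Hv Ht (slam F w ω) * (1 - Polynomial.C (1 / k0 c w Hv (slam F w ω)) *
          Polynomial.derivative (Mp c Hv (slam F w ω)))).eval t| ≤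
          Y ^ 13 * (A2 * X0 / X1 * (X1 / X2)) := by
        have h1 := (b3 ω (d1 ω hω) 2 (by norm_num) t htt).1
        rw [if_neg two_ne_zero, if_neg two_ne_zero, if_neg (by norm_num), if_neg (by norm_num),
          hco, ← hEd] at h1
        refine h1.trans ?_
        calc E * (Y ^ 12 * (A2 * X0 / X1 * (X1 / X2))) ≤
              Y * (Y ^ 12 * (A2 * X0 / X1 * (X1 / X2))) :=
              mul_le_mul_of_nonneg_right hEY (by positivity)
          _ = _ := by ring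
      have q3 : |(Polynomial.derivative (L1 c w Hv Ht (slam F w ω))).eval t| ≤
          Y ^ 16 * (A2 * (X1 / X2)) := by
        have h1 := (d3 ω hω 0 (by norm_num) t htt).1
        rw [hco, ← hEd] at h1
        refine h1.trans ?_
        calc E * (Y ^ 15 * (A2 * (X1 / X2))) ≤ Y * (Y ^ 15 * (A2 * (X1 / X2))) :=
              mul_le_mul_of_nonneg_right hEY (by positivity)
          _ = _ := by ring
      have q4 : |(Mp c Hv (slam F w ω)).eval t - (Mp c Hv (slam F w ω)).eval (F.t ω)| ≤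
          Y ^ 5 * (X0 / X1) := by
        have h1 := mv_pol (Mp c Hv (slam F w ω)) (t := F.t ω) (t' := t) (r := 1 / 2 ^ a)
          (M := Y ^ 5 * (A2 * X0 / X1)) (fun u hu => by
            have h1 := (b3 ω (d1 ω hω) 1 (by norm_num) u hu).1
            rw [if_neg one_ne_zero, if_neg one_ne_zero, if_pos rfl, if_pos rfl, hco,
              ← hEd] at h1
            refine h1.trans ?_
            calc E * (Y ^ 4 * (A2 * X0 / X1)) ≤ Y * (Y ^ 4 * (A2 * X0 / X1)) :=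
                  mul_le_mul_of_nonneg_right hEY (by positivity)
              _ = _ := by ring) htt
        refine h1.trans ?_
        calc Y ^ 5 * (A2 * X0 / X1) * |t - F.t ω| ≤ Y ^ 5 * (A2 * X0 / X1) * (1 / 2 ^ a) :=
              mul_le_mul_of_nonneg_left htt (by positivity)
          _ = _ := by
              rw [← hA2]
              field_simp
      rw [hl, Finset.sum_range_succ, Finset.sum_range_one, l20, l21, der_L,
        nrm_two (hch.depG _ 0) (hch.depG _ 1) hVn, ← hX0, ← hX1, ← hX2, ← hA2]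
      obtain ⟨M, hM⟩ : ∃ M, M = (Mp c Hv (slam F w ω)).eval t := ⟨_, rfl⟩
      obtain ⟨MG, hMG⟩ : ∃ MG, MG = dd (G₀ (ptr F J ω) 1) (bt F ω) (ev (c 0)) := ⟨_, rfl⟩
      obtain ⟨V0, hV0⟩ : ∃ V0, V0 = V (some (c 0)) := ⟨_, rfl⟩
      obtain ⟨V1, hV1⟩ : ∃ V1, V1 = V (some (c 1)) := ⟨_, rfl⟩
      rw [← hM] at q4
      rw [← hMG] at k1
      rw [← hM, ← hMG, ← hV0, ← hV1]
      have q5 : |M - MG| ≤ Y ^ 6 * (X0 / X1) := by
        have e1 : M - MG = (M - (Mp c Hv (slam F w ω)).eval (F.t ω)) +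
            ((Mp c Hv (slam F w ω)).eval (F.t ω) - MG) := by ring
        rw [e1]
        refine (abs_add_le _ _).trans ((add_le_add q4 k1).trans ?_)
        have h1 : Y ^ 5 + Y ^ 3 ≤ Y ^ 6 := by
          have e5 : 2 * Y ^ 5 ≤ Y ^ 6 := two_pw hY 5
          have e6 : Y ^ 3 ≤ Y ^ 5 := hYp (by norm_num)
          linarith
        calc Y ^ 5 * (X0 / X1) + Y ^ 3 * (X0 / X1) = (Y ^ 5 + Y ^ 3) * (X0 / X1) := by ring
          _ ≤ _ := mul_le_mul_of_nonneg_right h1 (by positivity)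
      have e3 : |V1 - M * V0| ≤ |V1 - V0 * MG| + Y ^ 6 * (X0 / X1) * |V0| := by
        have e4 : V1 - M * V0 = (V1 - V0 * MG) - (M - MG) * V0 := by ring
        rw [e4]
        refine (abs_sub _ _).trans (add_le_add le_rfl ?_)
        rw [abs_mul]
        exact mul_le_mul_of_nonneg_right q5 (abs_nonneg _)
      have h0V : 0 ≤ |V0| := abs_nonneg _
      have h1V : 0 ≤ |V1 - V0 * MG| := abs_nonneg _
      calc _ ≤ Y ^ 13 * (A2 * X0 / X1 * (X1 / X2)) * |V0| + Y ^ 16 * (A2 * (X1 / X2)) *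
            (|V1 - V0 * MG| + Y ^ 6 * (X0 / X1) * |V0|) := by
            refine (abs_add_le _ _).trans ?_
            rw [abs_mul, abs_mul]
            exact add_le_add (mul_le_mul_of_nonneg_right q2 h0V)
              (mul_le_mul q3 e3 (abs_nonneg _) (by positivity))
        _ = (Y ^ 13 + Y ^ 22) * A2 / X2 * (X0 * |V0|) +
            Y ^ 16 * A2 / X2 * (X1 * |V1 - V0 * MG|) := by
            field_simp
            ring
        _ ≤ Y ^ 23 * A2 / X2 * (X0 * |V0|) + Y ^ 23 * A2 / X2 * (X1 * |V1 - V0 * MG|) := by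
            have h1 : Y ^ 13 + Y ^ 22 ≤ Y ^ 23 := by
              have e5 : 2 * Y ^ 22 ≤ Y ^ 23 := two_pw hY 22
              have e6 : Y ^ 13 ≤ Y ^ 22 := hYp (by norm_num)
              linarith
            have h2 : Y ^ 16 ≤ Y ^ 23 := hYp (by norm_num)
            exact add_le_add (mul_le_mul_of_nonneg_right (div_le_div_of_nonneg_right
              (mul_le_mul_of_nonneg_right h1 pA2.le) pX2.le) (by positivity))
              (mul_le_mul_of_nonneg_right (div_le_div_of_nonneg_right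
              (mul_le_mul_of_nonneg_right h2 pA2.le) pX2.le) (by positivity))
        _ = _ := by ring
  refine ⟨fun y l => cvc_grd (hch.depG y l) _, fun s l j => deg_lamJ w s hv ht l j,
    fun ω hω l hl j hj => ?_, fun ω hω l hl => ?_, fun ω hω l hl V hVn => ?_,
    fun ω hω l hl t ht' V hVn => ?_⟩
  · have h1 := lip_near (κ := 0) hc (fun l => cvc_grd (hch.depG (ptr F J ω) l) (bt F ω))
      (hnc ω hω) (fun i hi l hl => hch.lip ω (d1' ω hω) i hi (bt F ω) ⟨by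
        show |F.t ω - F.t ω| ≤ _
        exact h0t ω, fun j hj => hch.pos ω (d1' ω hω) j (by omega)⟩ l hl) l hl j hj
    exact h1
  · have h1 := vel_near (κ := 0) (u := k) (hnc ω hω) (W := bd F ω) rfl (fun l hl => by
      rw [cv_grd]
      refine (hN.vel ω ω (d1' ω hω) (d1' ω hω) rfl l (by omega)).trans ?_
      refine div_le_div_of_nonneg_right ?_ (by positivity)
      rw [pow_add, mul_comm]
      exact mul_le_mul_of_nonneg_left hU (by positivity)) l hl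
    refine h1.trans ?_
    rw [← mul_div_assoc, ← pow_add]
    exact div_le_div_of_nonneg_right (pow_le_pow_right₀ (by norm_num) (by omega))
      (by positivity)
  · have hωA := d1' ω hω
    have h1 := hsp ω hωA l hl V hVn
    have h2 := hcvn ω hω l hl V
    have h3 := h8 ω hω l hl.le V
    have e1 : ∑ j ∈ range l, (lamJ c w Hv Ht (slam F w ω) l j).eval (F.t ω) * V (some (c j)) -
        cv (gpt F G₀ (ptr F J ω) l) V =
        (∑ j ∈ range l, (lamJ c w Hv Ht (slam F w ω) l j).eval (F.t ω) * V (some (c j)) -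
          dd (G₀ (ptr F J ω) l) (bt F ω) V) -
        (cv (gpt F G₀ (ptr F J ω) l) V - dd (G₀ (ptr F J ω) l) (bt F ω) V) := by ring
    rw [e1, hU27]
    refine (abs_sub _ _).trans ((add_le_add h1 h2).trans ?_)
    have hgl : (0 : ℝ) < 2 ^ g₀ l := by positivity
    have hen := en_nonneg c g₀ a (gpt F G₀ (ptr F J ω)) l V
    calc Y ^ 16 / 2 ^ g₀ l * nrm c (G₀ (ptr F J ω)) g₀ a l (bt F ω) V +
          1 / 2 ^ g₀ l * nrm c (G₀ (ptr F J ω)) g₀ a l (bt F ω) V =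
          (Y ^ 16 + 1) / 2 ^ g₀ l * nrm c (G₀ (ptr F J ω)) g₀ a l (bt F ω) V := by ring
      _ ≤ (Y ^ 16 + 1) / 2 ^ g₀ l * (Y ^ 3 * en c g₀ a (gpt F G₀ (ptr F J ω)) l V) :=
          mul_le_mul_of_nonneg_left h3 (by positivity)
      _ = (Y ^ 16 + 1) * Y ^ 3 / 2 ^ g₀ l * en c g₀ a (gpt F G₀ (ptr F J ω)) l V := by ring
      _ ≤ Y ^ 27 / 2 ^ g₀ l * en c g₀ a (gpt F G₀ (ptr F J ω)) l V := by
          refine mul_le_mul_of_nonneg_right (div_le_div_of_nonneg_right ?_ hgl.le) hen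
          have h4 : Y ^ 16 + 1 ≤ Y ^ 17 := by
            have e5 : 2 * Y ^ 16 ≤ Y ^ 17 := two_pw hY 16
            linarith [hY1 16]
          calc (Y ^ 16 + 1) * Y ^ 3 ≤ Y ^ 17 * Y ^ 3 :=
                mul_le_mul_of_nonneg_right h4 (by positivity)
            _ = Y ^ 20 := by ring
            _ ≤ Y ^ 27 := hYp (by norm_num)
  · have h1 := hvr ω hω l hl t ht' V hVn
    have h3 := h8 ω hω l hl.le V
    rw [hU27]
    refine h1.trans ?_
    have hgl : (0 : ℝ) < 2 ^ g₀ l := by positivity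
    have hen := en_nonneg c g₀ a (gpt F G₀ (ptr F J ω)) l V
    calc Y ^ 23 * 2 ^ a / 2 ^ g₀ l * nrm c (G₀ (ptr F J ω)) g₀ a l (bt F ω) V ≤
          Y ^ 23 * 2 ^ a / 2 ^ g₀ l * (Y ^ 3 * en c g₀ a (gpt F G₀ (ptr F J ω)) l V) :=
          mul_le_mul_of_nonneg_left h3 (by positivity)
      _ = Y ^ 26 * 2 ^ a / 2 ^ g₀ l * en c g₀ a (gpt F G₀ (ptr F J ω)) l V := by ring
      _ ≤ _ := by
          refine mul_le_mul_of_nonneg_right (div_le_div_of_nonneg_right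
            (mul_le_mul_of_nonneg_right (hYp (by norm_num)) (by positivity)) hgl.le) hen

end Pool.JST
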