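import Pool.Agent.H88.D2.Uov

/-!
# The closed gradients of two static places at a ball

`BNum`: the numbers at a ball `j` for the static labels of the window `i`. `CEv.u1`, `CEv.u2`: the
label of the static place one, and the label of the place two on the frame vector. `CEv.u3`: the label
of the place two on all spatial vectors, if its component in the direction of the place one is natural.
`CEv.u4`: then its curvature on the frame vector is natural. `CEv.u5`: the thin norm.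
-/

set_option autoImplicit false

namespace Pool.TN

open Finset Real MvPolynomial
open Pool.Agent.H49.Ent Pool.Agent.H32.Dense Pool.STK Pool.KA Pool.KSAT Pool.K2S Pool.PB Pool.S6C
open Pool.GEN Pool.CHT Pool.CHX Pool.ISO Pool.D2R Pool.D2Z Pool.D2F
open Pool.LBT (ThrOf)
open Pool.FLF (Fam.sub)
open Pool.PB.Trl (rt rt_mem t_rt)

variable {m J : ℕ}

/-- **The numbers at a ball** `j` for the static labels of the window `i`. -/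
structure BNum (r N A cl X : ℕ) (w pp : ℕ → ℕ) (gc gT g₀ : ℕ → ℕ → ℕ) (i j : ℕ) : Prop where
  iN : i ≤ N
  jN : j ≤ N
  ij : w i ≤ w j
  cT : ∀ l < r, cl ≤ gT i l ∧ cl ≤ gT j l ∧ cl ≤ gc j l
  cp : cl ≤ pp j
  cr : cl ≤ gc j r
  m1 : gT j 1 ≤ gT i 1 + X
  m2 : gT j 2 ≤ gT i 2 + X
  lb1 : g₀ j 1 + (A - w j) ≤ gT j 1 + X
  lb2 : g₀ j 2 + (A - w j) ≤ gT j 2 + X

theorem cv1v {c : ℕ → Fin m} {W : Option (Fin m) → ℝ} (hW : CvC c 1 W)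
    {V : Option (Fin m) → ℝ} (hV : V none = 0) : cv W V = W (some (c 0)) * V (some (c 0)) := by
  have hc1 : Set.InjOn c (Set.Iio 1) := fun x hx y hy _ => by
    rw [Set.mem_Iio] at hx hy
    omega
  rw [cv_eq hc1 hW, hV, mul_zero, zero_add, Finset.sum_range_one]

theorem cv2v {c : ℕ → Fin m} (hc : Set.InjOn c (Set.Iio 2)) {W : Option (Fin m) → ℝ}
    (hW : CvC c 2 W) {V : Option (Fin m) → ℝ} (hV : V none = 0) :
    cv W V = W (some (c 0)) * V (some (c 0)) + W (some (c 1)) * V (some (c 1)) := by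
  rw [cv_eq hc hW, hV, mul_zero, zero_add, Finset.sum_range_succ, Finset.sum_range_one]

theorem en1v {c : ℕ → Fin m} (g : ℕ → ℕ) (a : ℕ) {χ : ℕ → Option (Fin m) → ℝ}
    (hχ : ∀ l, CvC c l (χ l)) {V : Option (Fin m) → ℝ} (hV : V none = 0) :
    en c g a χ 1 V = 2 ^ g 0 * |V (some (c 0))| := by
  rw [en_succ, en_zero, hV, cv_c0 (hχ 0) hV]
  simp

theorem en2v {c : ℕ → Fin m} (g : ℕ → ℕ) (a : ℕ) {χ : ℕ → Option (Fin m) → ℝ}
    (hχ : ∀ l, CvC c l (χ l)) {V : Option (Fin m) → ℝ} (hV : V none = 0) :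
    en c g a χ 2 V = 2 ^ g 0 * |V (some (c 0))| +
      2 ^ g 1 * |V (some (c 1)) - cv (χ 1) V| := by
  rw [show (2 : ℕ) = 1 + 1 from rfl, en_succ, en1v g a hχ hV]

section

variable {F : Fam m J} {c : ℕ → Fin m} {r D Dr N M A cl X : ℕ} {Sc : ℕ → Prop}
    {w e h pp : ℕ → ℕ} {z g gc gT g₀ : ℕ → ℕ → ℕ} {κ : ℝ} {B : F.Ω → Prop}
    {G : ℕ → PtT F → ℕ → MvPolynomial (Option (Fin m)) ℝ}
    {H : ℕ → LnT F → ℕ → MvPolynomial (Option (Fin m)) ℝ}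
    {T : ℕ → PtT F → ℕ → MvPolynomial (Option (Fin m)) ℝ}
    {TH : ℕ → LnT F → ℕ → MvPolynomial (Option (Fin m)) ℝ}
    {Gt : ℕ → PtT F → MvPolynomial (Option (Fin m)) ℝ}
    {Ht : ℕ → LnT F → MvPolynomial (Option (Fin m)) ℝ}

theorem CEv.cΓ (E : CEv F c r D Dr N M A cl Sc w e h pp z g gc gT g₀ κ B G H T TH Gt Ht)
    {j : ℕ} (hj : j ≤ N) (ω : F.Ω) (l : ℕ) : CvC c l (gG G ω j l) :=
  cvc_grd ((E.evs j hj).ball.depG _ l) _

theorem CEv.cK (E : CEv F c r D Dr N M A cl Sc w e h pp z g gc gT g₀ κ B G H T TH Gt Ht)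
    {j : ℕ} (hj : j ≤ N) (ω : F.Ω) (l : ℕ) : CvC c l (kT w TH ω j l) :=
  cvc_grd ((E.evs j hj).thin.depH _ l) _

/-- The label of the static place one at a ball. -/
theorem CEv.u1 (E : CEv F c r D Dr N M A cl Sc w e h pp z g gc gT g₀ κ B G H T TH Gt Ht)
    (hr : 3 ≤ r) (hs0 : ¬ Sc 0) {i j : ℕ} (n : BNum r N A cl X w pp gc gT g₀ i j) {ω : F.Ω}
    (hω : B ω) {V : Option (Fin m) → ℝ} (hV : V none = 0) :
    2 ^ g₀ j 1 * |cv (kT w TH ω i 1 - gG G ω j 1) V| ≤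
      2 ^ (8 * (cl + X + 1)) * (2 ^ g₀ j 0 * |V (some (c 0))|) := by
  have hi := n.iN
  have hj := n.jN
  have hrad := E.radA hj
  have a0 := E.ng j hj 0 (by omega)
  have a1 := E.ng j hj 1 (by omega)
  have b1 := n.cT 1 (by omega)
  have m1 := n.m1
  have lb1 := n.lb1
  have hrg := E.t_rg hj (show 0 < r by omega) hs0
  obtain ⟨q, hq⟩ : ∃ q, q = g₀ j 1 + (A - w j) - (3 * cl + 2 * X) := ⟨_, rfl⟩
  have h3 := E.tb (show 1 < r by omega) hi hj n.ij (q := q) (by omega) (by omega) hω V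
  rw [en1v _ _ (E.cK hj ω) hV, en1v _ _ (E.cΓ hj ω) hV] at h3
  have hv0 := abs_nonneg (V (some (c 0)))
  refine (mul_le_mul_of_nonneg_left h3 (by positivity)).trans ?_
  have e1 : 2 ^ g₀ j 1 * (2 ^ cl / 2 ^ q * (2 ^ gT j 0 * |V (some (c 0))|) +
      2 ^ cl / 2 ^ g₀ j 1 * (2 ^ g₀ j 0 * |V (some (c 0))|)) =
      (2 ^ (g₀ j 1 + cl + gT j 0) / 2 ^ q + 2 ^ (cl + g₀ j 0)) * |V (some (c 0))| := by
    rw [pow_add 2 (g₀ j 1 + cl), pow_add 2 (g₀ j 1) cl, pow_add 2 cl]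
    field_simp
  rw [e1, ← mul_assoc]
  refine mul_le_mul_of_nonneg_right ?_ hv0
  have e2 : (2 : ℝ) ^ (g₀ j 1 + cl + gT j 0) / 2 ^ q ≤ 2 ^ (8 * cl + 2 * X + 3 + g₀ j 0) := by
    rw [div_le_iff₀ (by positivity), ← pow_add]
    exact p2 (by omega)
  have e3 : (2 : ℝ) ^ (cl + g₀ j 0) ≤ 2 ^ (8 * cl + 2 * X + 3 + g₀ j 0) := p2 (by omega)
  have e4 : 2 * (2 : ℝ) ^ (8 * cl + 2 * X + 3 + g₀ j 0) ≤ 2 ^ (8 * (cl + X + 1)) *
      2 ^ g₀ j 0 := by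
    rw [← pow_add, mul_comm, ← pow_succ]
    exact p2 (by omega)
  linarith only [e2, e3, e4]

/-- The frame vector of the rough direction: the label of the place one is `1 : cv κ`. -/
structure FrP (c : ℕ → Fin m) (w : ℕ → ℕ) (TH : ℕ → LnT F → ℕ → MvPolynomial (Option (Fin m)) ℝ)
    (ω : F.Ω) (i : ℕ) (P : Option (Fin m) → ℝ) : Prop where
  p0 : P none = 0
  p1 : P (some (c 0)) = 1
  p2 : P (some (c 1)) = cv (kT w TH ω i 1) P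

/-- The sizes of the frame vector and the label of the place two on it. -/
theorem CEv.u2 (E : CEv F c r D Dr N M A cl Sc w e h pp z g gc gT g₀ κ B G H T TH Gt Ht)
    (hr : 3 ≤ r) (hs0 : ¬ Sc 0) {i j : ℕ} (n : BNum r N A cl X w pp gc gT g₀ i j) {ω : F.Ω}
    (hω : B ω) {P : Option (Fin m) → ℝ} (hP : FrP c w TH ω i P) :
    en c (gT j) A (kT w TH ω j) 2 P ≤ 2 ^ (3 * (cl + X + 1)) * 2 ^ gT j 0 ∧
    en c (g₀ j) (w j) (gG G ω j) 2 P ≤ 2 ^ (9 * (cl + X + 1)) * 2 ^ g₀ j 0 ∧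
    |cv (kT w TH ω i 2 - gG G ω j 2) P| ≤
      2 ^ (14 * (cl + X + 1)) * (2 ^ g₀ j 0 / 2 ^ g₀ j 2) := by
  obtain ⟨p0, p1, p2'⟩ := hP
  have hi := n.iN
  have hj := n.jN
  have hrad := E.radA hj
  have a0 := E.ng j hj 0 (by omega)
  have a1 := E.ng j hj 1 (by omega)
  have a2 := E.ng j hj 2 (by omega)
  have b1 := n.cT 1 (by omega)
  have b2 := n.cT 2 (by omega)
  have m1 := n.m1
  have m2 := n.m2
  have lb1 := n.lb1
  have lb2 := n.lb2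
  have hrg := E.t_rg hj (show 0 < r by omega) hs0
  have hPT : en c (gT j) A (kT w TH ω j) 2 P ≤ 2 ^ (3 * (cl + X + 1)) * 2 ^ gT j 0 := by
    obtain ⟨q, hq⟩ : ∃ q, q = min (gT i 1) (gT j 1) - cl := ⟨_, rfl⟩
    have hq1 : q + cl ≤ gT i 1 := by omega
    have hq2 : q + cl ≤ gT j 1 := by omega
    have hq3 : gT j 1 ≤ q + cl + X := by omega
    have h3 := E.tt (show 1 < r by omega) hi hj n.ij hq1 hq2 hω P
    rw [en1v _ _ (E.cK hj ω) p0, p1, abs_one, mul_one] at h3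
    rw [en2v _ _ (E.cK hj ω) p0, p1, abs_one, mul_one, p2', ← cv_subl]
    have e1 : 2 ^ gT j 1 * (2 ^ cl / 2 ^ q * 2 ^ gT j 0) ≤ (2 : ℝ) ^ (2 * cl + X) * 2 ^ gT j 0 := by
      have e2 : 2 ^ gT j 1 * (2 ^ cl / 2 ^ q * 2 ^ gT j 0) =
          (2 : ℝ) ^ (gT j 1 + cl) / 2 ^ q * 2 ^ gT j 0 := by
        rw [pow_add]
        ring
      rw [e2]
      refine mul_le_mul_of_nonneg_right ?_ (by positivity)
      rw [div_le_iff₀ (by positivity), ← pow_add]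
      exact p2 (by omega)
    have e3 := (mul_le_mul_of_nonneg_left h3 (show (0 : ℝ) ≤ 2 ^ gT j 1 by positivity)).trans e1
    have e4 : (1 : ℝ) ≤ 2 ^ (2 * cl + X) := one_le_pow₀ (by norm_num)
    have e5 := mul_le_mul_of_nonneg_right e4 (show (0 : ℝ) ≤ 2 ^ gT j 0 by positivity)
    have e6 : (2 * 2 ^ (2 * cl + X) : ℝ) ≤ 2 ^ (3 * (cl + X + 1)) := by
      rw [mul_comm, ← pow_succ]
      exact p2 (by omega)
    have e7 := mul_le_mul_of_nonneg_right e6 (show (0 : ℝ) ≤ 2 ^ gT j 0 by positivity)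
    linarith only [e3, e5, e7]
  have hPG : en c (g₀ j) (w j) (gG G ω j) 2 P ≤ 2 ^ (9 * (cl + X + 1)) * 2 ^ g₀ j 0 := by
    have h3 := E.u1 hr hs0 n hω p0
    rw [p1, abs_one, mul_one] at h3
    rw [en2v _ _ (E.cΓ hj ω) p0, p1, abs_one, mul_one, p2', ← cv_subl]
    have e4 : (1 : ℝ) ≤ 2 ^ (8 * (cl + X + 1)) := one_le_pow₀ (by norm_num)
    have e5 := mul_le_mul_of_nonneg_right e4 (show (0 : ℝ) ≤ 2 ^ g₀ j 0 by positivity)
    have e6 : (2 * 2 ^ (8 * (cl + X + 1)) : ℝ) ≤ 2 ^ (9 * (cl + X + 1)) := by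
      rw [mul_comm, ← pow_succ]
      exact p2 (by omega)
    have e7 := mul_le_mul_of_nonneg_right e6 (show (0 : ℝ) ≤ 2 ^ g₀ j 0 by positivity)
    linarith only [h3, e5, e7]
  refine ⟨hPT, hPG, ?_⟩
  obtain ⟨q, hq⟩ : ∃ q, q = g₀ j 2 + (A - w j) - (3 * cl + 2 * X) := ⟨_, rfl⟩
  have hrow := E.tb (show 2 < r by omega) hi hj n.ij (q := q) (by omega) (by omega) hω P
  refine hrow.trans ((add_le_add (mul_le_mul_of_nonneg_left hPT (by positivity))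
    (mul_le_mul_of_nonneg_left hPG (by positivity))).trans ?_)
  obtain ⟨S, hS⟩ : ∃ S, S = cl + X + 1 := ⟨_, rfl⟩
  rw [← hS]
  have e1 : 2 ^ cl / 2 ^ q * (2 ^ (3 * S) * 2 ^ gT j 0) ≤
      2 ^ (13 * S) * ((2 : ℝ) ^ g₀ j 0 / 2 ^ g₀ j 2) := by
    have e2 : 2 ^ cl / 2 ^ q * (2 ^ (3 * S) * 2 ^ gT j 0) =
        (2 : ℝ) ^ (cl + 3 * S + gT j 0) / 2 ^ q := by
      rw [pow_add 2 (cl + 3 * S), pow_add 2 cl]
      ring
    rw [e2, ← mul_div_assoc, div_le_div_iff₀ (by positivity) (by positivity), ← pow_add,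
      ← pow_add, ← pow_add]
    exact p2 (by omega)
  have e3 : 2 ^ cl / 2 ^ g₀ j 2 * (2 ^ (9 * S) * 2 ^ g₀ j 0) ≤
      2 ^ (13 * S) * ((2 : ℝ) ^ g₀ j 0 / 2 ^ g₀ j 2) := by
    have e2 : 2 ^ cl / 2 ^ g₀ j 2 * (2 ^ (9 * S) * 2 ^ g₀ j 0) =
        (2 : ℝ) ^ (cl + 9 * S) * (2 ^ g₀ j 0 / 2 ^ g₀ j 2) := by
      rw [pow_add 2 cl]
      ring
    rw [e2]
    exact mul_le_mul_of_nonneg_right (p2 (by omega)) (by positivity)
  have e4 : (2 * 2 ^ (13 * S) : ℝ) ≤ 2 ^ (14 * S) := by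
    rw [mul_comm, ← pow_succ]
    exact p2 (by omega)
  have e5 := mul_le_mul_of_nonneg_right e4 (show (0 : ℝ) ≤ 2 ^ g₀ j 0 / 2 ^ g₀ j 2 by positivity)
  linarith only [e1, e3, e5]

/-- **The label of the place two on the spatial vectors.** -/
theorem CEv.u3 (E : CEv F c r D Dr N M A cl Sc w e h pp z g gc gT g₀ κ B G H T TH Gt Ht)
    (hr : 3 ≤ r) (hs0 : ¬ Sc 0) {i j : ℕ} (n : BNum r N A cl X w pp gc gT g₀ i j) {ω : F.Ω}
    (hω : B ω) {Z : ℕ} (hQ : |kT w TH ω i 2 (some (c 1)) - gG G ω j 2 (some (c 1))| ≤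
      2 ^ Z * (2 ^ g₀ j 1 / 2 ^ g₀ j 2)) {V : Option (Fin m) → ℝ} (hV : V none = 0) :
    |cv (kT w TH ω i 2 - gG G ω j 2) V| ≤
      2 ^ (15 * (cl + X + 1) + Z) / 2 ^ g₀ j 2 * en c (g₀ j) (w j) (gG G ω j) 2 V := by
  have hi := n.iN
  have hj := n.jN
  have hc2 : Set.InjOn c (Set.Iio 2) := E.inj.mono (Set.Iio_subset_Iio (by omega))
  obtain ⟨P, hPd⟩ : ∃ P, P = ev c 2 (kT w TH ω i) 0 := ⟨_, rfl⟩
  have hP : FrP c w TH ω i P := by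
    have h3 := ev_comp hc2 (E.cK hi ω) 0 (show 1 < 2 by norm_num)
    rw [if_neg (by norm_num), ← hPd] at h3
    exact ⟨by rw [hPd]; exact ev_none _ _ _ _, by
      rw [hPd]
      exact ev_eq hc2 (E.cK hi ω) (by norm_num), by linarith only [h3]⟩
  obtain ⟨-, -, h2⟩ := E.u2 hr hs0 n hω hP
  have h1 := E.u1 hr hs0 n hω hV
  obtain ⟨W, hW⟩ : ∃ W, W = kT w TH ω i 2 - gG G ω j 2 := ⟨_, rfl⟩
  have hWc : CvC c 2 W := by
    intro k hk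
    rw [hW, Pi.sub_apply, E.cK hi ω 2 k hk, E.cΓ hj ω 2 k hk, sub_zero]
  have hQ' : |W (some (c 1))| ≤ 2 ^ Z * (2 ^ g₀ j 1 / 2 ^ g₀ j 2) := by
    rw [hW]
    exact hQ
  rw [← hW] at h2 ⊢
  obtain ⟨x, hx⟩ : ∃ x, x = V (some (c 0)) := ⟨_, rfl⟩
  obtain ⟨x', hx'⟩ : ∃ x', x' = V (some (c 1)) - cv (kT w TH ω i 1) V := ⟨_, rfl⟩
  have hdec : cv W V = x * cv W P + x' * W (some (c 1)) := by
    rw [cv2v hc2 hWc hV, cv2v hc2 hWc hP.p0, hP.p1, hP.p2, cv1v (E.cK hi ω 1) hP.p0, hP.p1, hx',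
      cv1v (E.cK hi ω 1) hV, ← hx]
    ring
  rw [hdec, en2v _ _ (E.cΓ hj ω) hV, ← hx]
  obtain ⟨y, hy⟩ : ∃ y, y = V (some (c 1)) - cv (gG G ω j 1) V := ⟨_, rfl⟩
  have hxy : x' = y - cv (kT w TH ω i 1 - gG G ω j 1) V := by
    rw [hx', hy, cv_subl]
    ring
  rw [← hy]
  rw [← hx] at h1
  obtain ⟨S, hS⟩ : ∃ S, S = cl + X + 1 := ⟨_, rfl⟩
  rw [← hS] at h1 h2 ⊢
  obtain ⟨a, ha⟩ : ∃ a : ℝ, a = 2 ^ g₀ j 0 * |x| := ⟨_, rfl⟩
  obtain ⟨b, hb⟩ : ∃ b : ℝ, b = 2 ^ g₀ j 1 * |y| := ⟨_, rfl⟩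
  have ha0 : 0 ≤ a := by rw [ha]; positivity
  have hb0 : 0 ≤ b := by rw [hb]; positivity
  rw [← ha] at h1
  rw [← ha, ← hb]
  have hx1 : 2 ^ g₀ j 1 * |x'| ≤ b + 2 ^ (8 * S) * a := by
    rw [hxy, hb]
    refine (mul_le_mul_of_nonneg_left (abs_sub _ _) (by positivity)).trans ?_
    rw [mul_add]
    linarith only [h1]
  have k1 : |x * cv W P| ≤ 2 ^ (14 * S) / 2 ^ g₀ j 2 * a := by
    rw [abs_mul, ha]
    refine (mul_le_mul_of_nonneg_left h2 (abs_nonneg _)).trans (le_of_eq ?_)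
    ring
  have k2 : |x' * W (some (c 1))| ≤ 2 ^ Z / 2 ^ g₀ j 2 * (b + 2 ^ (8 * S) * a) := by
    rw [abs_mul]
    refine (mul_le_mul_of_nonneg_left hQ' (abs_nonneg _)).trans ?_
    have e1 : |x'| * (2 ^ Z * (2 ^ g₀ j 1 / 2 ^ g₀ j 2)) =
        2 ^ Z / 2 ^ g₀ j 2 * (2 ^ g₀ j 1 * |x'|) := by ring
    rw [e1]
    exact mul_le_mul_of_nonneg_left hx1 (by positivity)
  refine (abs_add_le _ _).trans ((add_le_add k1 k2).trans ?_)
  have e1 : 2 ^ (14 * S) / 2 ^ g₀ j 2 * a + 2 ^ Z / 2 ^ g₀ j 2 * (b + 2 ^ (8 * S) * a) =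
      ((2 ^ (14 * S) + 2 ^ Z * 2 ^ (8 * S)) * a + 2 ^ Z * b) / 2 ^ g₀ j 2 := by ring
  rw [e1, div_mul_eq_mul_div]
  refine div_le_div_of_nonneg_right ?_ (by positivity)
  have e2 : (2 : ℝ) ^ (14 * S) + 2 ^ Z * 2 ^ (8 * S) ≤ 2 ^ (15 * S + Z) := by
    have f1 : (2 : ℝ) ^ (14 * S) ≤ 2 ^ (14 * S + Z) := p2 (by omega)
    have f2 : (2 : ℝ) ^ Z * 2 ^ (8 * S) ≤ 2 ^ (14 * S + Z) := by
      rw [← pow_add]
      exact p2 (by omega)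
    have f3 : (2 : ℝ) ^ (14 * S + Z) * 2 ≤ 2 ^ (15 * S + Z) := by
      rw [← pow_succ]
      exact p2 (by omega)
    linarith only [f1, f2, f3]
  have e3 : (2 : ℝ) ^ Z ≤ 2 ^ (15 * S + Z) := p2 (by omega)
  have e4 := mul_le_mul_of_nonneg_right e2 ha0
  have e5 := mul_le_mul_of_nonneg_right e3 hb0
  linarith only [e4, e5]

/-- **The thin norm in the norm of the ball**, over one rough and one static place. -/
theorem CEv.u5 (E : CEv F c r D Dr N M A cl Sc w e h pp z g gc gT g₀ κ B G H T TH Gt Ht)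
    (hr : 3 ≤ r) (hs0 : ¬ Sc 0) {j : ℕ} (n : BNum r N A cl X w pp gc gT g₀ j j) {ω : F.Ω}
    (hω : B ω) {E₁ : ℕ} (_h1 : A - w j ≤ E₁) (_h2 : gT j 1 ≤ g₀ j 1 + E₁)
    (V : Option (Fin m) → ℝ) :
    en c (gT j) A (kT w TH ω j) 2 V ≤
      2 ^ (E₁ + 10 * (cl + X + 1) + r) * en c (g₀ j) (w j) (gG G ω j) 2 V := by
  have hj := n.jN
  have hrad := E.radA hj
  have a0 := E.ng j hj 0 (by omega)
  have a1 := E.ng j hj 1 (by omega)
  have b1 := n.cT 1 (by omega)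
  have lb1 := n.lb1
  have hg1 : ∀ l < r, cl ≤ gT j l ∧ cl ≤ gc j l := fun l hl => ⟨(n.cT l hl).2.1, (n.cT l hl).2.2⟩
  have hns : ∀ x < 1, ¬ Sc x := fun x hx => by
    rw [Nat.lt_one_iff.1 hx]
    exact hs0
  have h3 := E.tg hj hg1 hω (show 1 < r by omega) hns V
  obtain ⟨q, hq⟩ : ∃ q, q = g₀ j 1 + (A - w j) - (3 * cl + X) := ⟨_, rfl⟩
  have h4 := E.tb (show 1 < r by omega) hj hj le_rfl (q := q) (by omega) (by omega) hω V
  obtain ⟨a, ha⟩ : ∃ a : ℝ, a = en c (g₀ j) (w j) (gG G ω j) 1 V := ⟨_, rfl⟩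
  have ha0 : 0 ≤ a := by rw [ha]; exact en_nonneg _ _ _ _ _ _
  have e0 : en c (g₀ j) (w j) (gG G ω j) 2 V = a +
      2 ^ g₀ j 1 * |V (some (c 1)) - cv (gG G ω j 1) V| := by
    rw [show (2 : ℕ) = 1 + 1 from rfl, en_succ, ha]
  have e1 : en c (gT j) A (kT w TH ω j) 2 V = en c (gT j) A (kT w TH ω j) 1 V +
      2 ^ gT j 1 * |V (some (c 1)) - cv (kT w TH ω j 1) V| := by
    rw [show (2 : ℕ) = 1 + 1 from rfl, en_succ]
  obtain ⟨y, hy⟩ : ∃ y, y = V (some (c 1)) - cv (gG G ω j 1) V := ⟨_, rfl⟩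
  have e2 : V (some (c 1)) - cv (kT w TH ω j 1) V = y - cv (kT w TH ω j 1 - gG G ω j 1) V := by
    rw [hy, cv_subl]
    ring
  rw [e0, e1, e2, ← hy]
  rw [← ha] at h3 h4
  obtain ⟨S, hS⟩ : ∃ S, S = cl + X + 1 := ⟨_, rfl⟩
  rw [← hS]
  obtain ⟨b, hb⟩ : ∃ b : ℝ, b = 2 ^ g₀ j 1 * |y| := ⟨_, rfl⟩
  have hb0 : 0 ≤ b := by rw [hb]; positivity
  rw [← hb]
  have k1 : en c (gT j) A (kT w TH ω j) 1 V ≤ 2 ^ (E₁ + 4 * S + r) * a := by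
    refine h3.trans ?_
    rw [← mul_assoc, ← pow_add]
    exact mul_le_mul_of_nonneg_right (p2 (by omega)) ha0
  have k2 : |cv (kT w TH ω j 1 - gG G ω j 1) V| ≤ 2 ^ (8 * S + r) / 2 ^ g₀ j 1 * a := by
    refine h4.trans ?_
    have f1 : 2 ^ cl / 2 ^ q * en c (gT j) A (kT w TH ω j) 1 V ≤
        2 ^ (7 * S + r) / 2 ^ g₀ j 1 * a := by
      calc 2 ^ cl / 2 ^ q * en c (gT j) A (kT w TH ω j) 1 V ≤
            2 ^ cl / 2 ^ q * (2 ^ (A - w j) * (2 ^ (3 * cl + r + 2) * a)) :=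
            mul_le_mul_of_nonneg_left h3 (by positivity)
        _ = 2 ^ (cl + (A - w j) + (3 * cl + r + 2)) / 2 ^ q * a := by
            rw [pow_add 2 (cl + (A - w j)), pow_add 2 cl]
            ring
        _ ≤ _ := by
            refine mul_le_mul_of_nonneg_right ?_ ha0
            rw [div_le_div_iff₀ (by positivity) (by positivity), ← pow_add, ← pow_add]
            exact p2 (by omega)
    have f2 : 2 ^ cl / 2 ^ g₀ j 1 * a ≤ 2 ^ (7 * S + r) / 2 ^ g₀ j 1 * a :=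
      mul_le_mul_of_nonneg_right (div_le_div_of_nonneg_right (p2 (by omega)) (by positivity)) ha0
    have f3 : (2 : ℝ) ^ (7 * S + r) * 2 ≤ 2 ^ (8 * S + r) := by
      rw [← pow_succ]
      exact p2 (by omega)
    have f4 := mul_le_mul_of_nonneg_right (div_le_div_of_nonneg_right f3
      (show (0 : ℝ) ≤ 2 ^ g₀ j 1 by positivity)) ha0
    have f5 : (2 : ℝ) ^ (7 * S + r) * 2 / 2 ^ g₀ j 1 * a =
      2 ^ (7 * S + r) / 2 ^ g₀ j 1 * a + 2 ^ (7 * S + r) / 2 ^ g₀ j 1 * a := by ring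
    rw [f5] at f4
    linarith only [f1, f2, f4]
  have k3 : 2 ^ gT j 1 * |y - cv (kT w TH ω j 1 - gG G ω j 1) V| ≤
      2 ^ E₁ * (b + 2 ^ (8 * S + r) * a) := by
    have f1 : (2 : ℝ) ^ gT j 1 ≤ 2 ^ E₁ * 2 ^ g₀ j 1 := by
      rw [← pow_add]
      exact p2 (by omega)
    refine (mul_le_mul f1 ((abs_sub _ _).trans (add_le_add le_rfl k2)) (abs_nonneg _)
      (by positivity)).trans (le_of_eq ?_)
    rw [hb]
    field_simp
  have f1 : (2 : ℝ) ^ (E₁ + 4 * S + r) + 2 ^ E₁ * 2 ^ (8 * S + r) ≤ 2 ^ (E₁ + 10 * S + r) := by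
    have g1 : (2 : ℝ) ^ (E₁ + 4 * S + r) ≤ 2 ^ (E₁ + 9 * S + r) := p2 (by omega)
    have g2 : (2 : ℝ) ^ E₁ * 2 ^ (8 * S + r) ≤ 2 ^ (E₁ + 9 * S + r) := by
      rw [← pow_add]
      exact p2 (by omega)
    have g3 : (2 : ℝ) ^ (E₁ + 9 * S + r) * 2 ≤ 2 ^ (E₁ + 10 * S + r) := by
      rw [← pow_succ]
      exact p2 (by omega)
    linarith only [g1, g2, g3]
  have f2 : (2 : ℝ) ^ E₁ ≤ 2 ^ (E₁ + 10 * S + r) := p2 (by omega)
  have f3 := mul_le_mul_of_nonneg_right f1 ha0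
  have f4 := mul_le_mul_of_nonneg_right f2 hb0
  linarith only [k1, k3, f3, f4]

end

/-- **The curvature of the place two on the frame vector** is natural at a ball, if its component in
the direction of the place one is natural. -/
theorem CEv.u4 (r : ℕ) (hr : 3 ≤ r) : ∃ C : ℕ, 1 ≤ C ∧ ∀ {m J : ℕ} {F : Fam m J} {c : ℕ → Fin m}
    {D Dr N M A cl X : ℕ} {Sc : ℕ → Prop} {w e h pp : ℕ → ℕ} {z g gc gT g₀ : ℕ → ℕ → ℕ} {κ : ℝ}
    {B : F.Ω → Prop} {G : ℕ → PtT F → ℕ → MvPolynomial (Option (Fin m)) ℝ}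
    {H : ℕ → LnT F → ℕ → MvPolynomial (Option (Fin m)) ℝ}
    {T : ℕ → PtT F → ℕ → MvPolynomial (Option (Fin m)) ℝ}
    {TH : ℕ → LnT F → ℕ → MvPolynomial (Option (Fin m)) ℝ}
    {Gt : ℕ → PtT F → MvPolynomial (Option (Fin m)) ℝ}
    {Ht : ℕ → LnT F → MvPolynomial (Option (Fin m)) ℝ},
    CEv F c r D Dr N M A cl Sc w e h pp z g gc gT g₀ κ B G H T TH Gt Ht → ¬ Sc 0 → Sc 1 →
    ∀ {i j : ℕ}, BNum r N A cl X w pp gc gT g₀ i j →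
      g₀ j 1 + (A - w j) ≤ gT i 1 + X →
      ∀ {ω : F.Ω}, B ω → ∀ {Z : ℕ}, |kT w TH ω i 2 (some (c 1)) - gG G ω j 2 (some (c 1))| ≤
      2 ^ Z * (2 ^ g₀ j 1 / 2 ^ g₀ j 2) → ∀ {P : Option (Fin m) → ℝ}, FrP c w TH ω i P →
      |hs (TH i (slam F (w i) ω) 2) (bt F ω) (bd F ω) P| ≤
        2 ^ (C * (cl + X + 1) + Z) * (2 ^ (w j + g₀ j 0) / 2 ^ g₀ j 2) := by
  obtain ⟨C₁, hC₁, hex⟩ := CEv.ex 2
  refine ⟨C₁ + 20 + 4 * r + 5, by omega, ?_⟩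
  intro m J F c D Dr N M A cl X Sc w e h pp z g gc gT g₀ κ B G H T TH Gt Ht E hs0 hs1 i j n lb1'
    ω hω Z hQ P hP
  have hi := n.iN
  have hj := n.jN
  have hrad := E.radA hj
  have hc2 : Set.InjOn c (Set.Iio 2) := E.inj.mono (Set.Iio_subset_Iio (by omega))
  have a2 := E.ng j hj 2 (by omega)
  have b1 := n.cT 1 (by omega)
  have b2 := n.cT 2 (by omega)
  have m1 := n.m1
  have m2 := n.m2
  have lb1 := n.lb1
  have lb2 := n.lb2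
  obtain ⟨S, hS⟩ : ∃ S, S = cl + X + 1 := ⟨_, rfl⟩
  obtain ⟨q, hq⟩ : ∃ q, q = g₀ j 2 + (A - w j) - (3 * cl + 2 * X) := ⟨_, rfl⟩
  -- the frame of the relation
  obtain ⟨Ξ, hΞd⟩ : ∃ Ξ, Ξ = mx Sc (kT w TH ω i) (gG G ω j) := ⟨_, rfl⟩
  have hΞ : ∀ l, CvC c l (Ξ l) := fun l => by rw [hΞd]; exact mx_cvc (E.cK hi ω) (E.cΓ hj ω) l
  have hΞ1 : Ξ 1 = kT w TH ω i 1 := by rw [hΞd]; exact mx_pos hs1
  obtain ⟨P', hP'⟩ : ∃ P, P = ev c 2 Ξ 0 := ⟨_, rfl⟩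
  obtain ⟨Q, hQd⟩ : ∃ Q, Q = ev c 2 Ξ 1 := ⟨_, rfl⟩
  have hFP : FrP c w TH ω i P' := by
    have h3 := ev_comp hc2 hΞ 0 (show 1 < 2 by norm_num)
    rw [if_neg (by norm_num), ← hP', hΞ1] at h3
    exact ⟨by rw [hP']; exact ev_none _ _ _ _, by
      rw [hP']
      exact ev_eq hc2 hΞ (by norm_num), by linarith only [h3]⟩
  have q0 : Q none = 0 := by rw [hQd]; exact ev_none _ _ _ _
  have q1 : Q (some (c 0)) = 0 := by rw [hQd]; exact ev_lt hc2 hΞ (by norm_num) (by norm_num)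
  have q2 : Q (some (c 1)) = 1 := by rw [hQd]; exact ev_eq hc2 hΞ (by norm_num)
  have hPP : hs (TH i (slam F (w i) ω) 2) (bt F ω) (bd F ω) P =
      hs (TH i (slam F (w i) ω) 2) (bt F ω) (bd F ω) P' := by
    refine hs_cg ((E.evs i hi).thin.depH _ 2) _ _ (by rw [hP.p0, hFP.p0]) fun l hl => ?_
    have : l = 0 ∨ l = 1 := by omega
    rcases this with rfl | rfl
    · rw [hP.p1, hFP.p1]
    · rw [hP.p2, hFP.p2, cv1v (E.cK hi ω 1) hP.p0, cv1v (E.cK hi ω 1) hFP.p0, hP.p1, hFP.p1]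
  rw [hPP]
  obtain ⟨Nn, hNn⟩ : ∃ x, x = hs (TH i (slam F (w i) ω) 2) (bt F ω) (bd F ω) P' := ⟨_, rfl⟩
  obtain ⟨zz, hzz⟩ : ∃ x, x = hs (TH i (slam F (w i) ω) 1) (bt F ω) (bd F ω) P' := ⟨_, rfl⟩
  obtain ⟨a, ha⟩ : ∃ a, a = cv (gG G ω j 2 - kT w TH ω i 2) Q := ⟨_, rfl⟩
  have haB : |a| ≤ 2 ^ Z * (2 ^ g₀ j 1 / 2 ^ g₀ j 2) := by
    have e1 : a = gG G ω j 2 (some (c 1)) - kT w TH ω i 2 (some (c 1)) := by
      rw [ha, cv_subl, cv2v hc2 (E.cΓ hj ω 2) q0, cv2v hc2 (E.cK hi ω 2) q0, q1, q2]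
      ring
    rw [e1, abs_sub_comm]
    exact hQ
  have hE0 : |Nn - a * zz| ≤ 2 ^ (C₁ * S) * (2 ^ A / 2 ^ q + 2 ^ w j / 2 ^ g₀ j 2) *
      2 ^ g₀ j 0 := by
    have h3 := hex (E.tgt (show 2 < r by omega)) (i₀ := i) (i₁ := i) (k := j) (P := q) (X := X)
      hi hi hj n.ij n.ij (fun l hl hsl => by
        have : l = 1 := by
          by_contra hne
          exact hs0 (by rwa [show l = 0 by omega] at hsl)
        rw [this]
        exact ⟨b1.1, b1.2.1, b1.2.2⟩) (fun l hl hsl => by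
        have : l = 1 := by
          by_contra hne
          exact hs0 (by rwa [show l = 0 by omega] at hsl)
        rw [this]
        exact ⟨m1, lb1⟩) (by omega) (by omega) ω hω 0 hs0
    rw [← hΞd, ← hP', ← hNn, Finset.sum_range_succ, Finset.sum_range_one, wt_neg hs0, wt_pos hs1,
      zero_mul, zero_add, ← hQd, ← hzz, ← hS] at h3
    rw [ha]
    exact h3
  have hz : |zz| ≤ 2 ^ (12 * cl + 4 * r + X + 10) * 2 ^ w j / 2 ^ g₀ j 1 * 2 ^ g₀ j 0 := by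
    have hns : ∀ x < 1, ¬ Sc x := fun x hx => by
      rw [Nat.lt_one_iff.1 hx]
      exact hs0
    have hZ : ZNum r N A cl X w pp gc gT g₀ 1 i j :=
      ⟨hj, n.ij, fun l hl => ⟨(n.cT l hl).2.1, (n.cT l hl).2.2⟩, n.cp, n.cr, lb1'⟩
    rw [hzz]
    refine E.zV hi b1.1 (by omega) hns hZ hω (le_of_eq ?_)
    rw [en1v _ _ (E.cΓ hj ω) hFP.p0, hFP.p1, abs_one, mul_one]
  obtain ⟨n0, hn0⟩ : ∃ x : ℝ, x = 2 ^ (w j + g₀ j 0) / 2 ^ g₀ j 2 := ⟨_, rfl⟩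
  have hn00 : 0 < n0 := by rw [hn0]; positivity
  rw [← hNn, ← hS, ← hn0]
  have k1 : 2 ^ (C₁ * S) * (2 ^ A / 2 ^ q + 2 ^ w j / 2 ^ g₀ j 2) * 2 ^ g₀ j 0 ≤
      2 ^ (C₁ * S + 4 * S) * n0 := by
    have e1 : (2 : ℝ) ^ A / 2 ^ q ≤ 2 ^ (3 * S) * (2 ^ w j / 2 ^ g₀ j 2) := by
      rw [← mul_div_assoc, div_le_div_iff₀ (by positivity) (by positivity), ← pow_add,
        ← pow_add, ← pow_add]
      exact p2 (by omega)
    have e2 : (2 : ℝ) ^ w j / 2 ^ g₀ j 2 ≤ 2 ^ (3 * S) * (2 ^ w j / 2 ^ g₀ j 2) :=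
      le_mul_of_one_le_left (by positivity) (one_le_pow₀ (by norm_num))
    have e3 : (2 : ℝ) ^ (3 * S) * 2 ≤ 2 ^ (4 * S) := by
      rw [← pow_succ]
      exact p2 (by omega)
    have e4 := mul_le_mul_of_nonneg_right e3 (show (0 : ℝ) ≤ 2 ^ w j / 2 ^ g₀ j 2 by positivity)
    have e6 : (2 : ℝ) ^ A / 2 ^ q + 2 ^ w j / 2 ^ g₀ j 2 ≤
        2 ^ (4 * S) * (2 ^ w j / 2 ^ g₀ j 2) := by linarith only [e1, e2, e4]
    calc (2 : ℝ) ^ (C₁ * S) * (2 ^ A / 2 ^ q + 2 ^ w j / 2 ^ g₀ j 2) * 2 ^ g₀ j 0 ≤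
          2 ^ (C₁ * S) * (2 ^ (4 * S) * (2 ^ w j / 2 ^ g₀ j 2)) * 2 ^ g₀ j 0 :=
          mul_le_mul_of_nonneg_right (mul_le_mul_of_nonneg_left e6
            (by positivity)) (by positivity)
      _ = _ := by
          rw [hn0, pow_add 2 (C₁ * S), pow_add 2 (w j)]
          ring
  have k2 : |a * zz| ≤ 2 ^ (Z + (12 * cl + 4 * r + X + 10)) * n0 := by
    rw [abs_mul]
    refine (mul_le_mul haB hz (abs_nonneg _) (by positivity)).trans (le_of_eq ?_)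
    rw [hn0, pow_add 2 Z, pow_add 2 (w j)]
    field_simp
  have e1 : Nn = (Nn - a * zz) + a * zz := by ring
  rw [e1]
  refine (abs_add_le _ _).trans ((add_le_add (hE0.trans k1) k2).trans ?_)
  rw [← add_mul]
  refine mul_le_mul_of_nonneg_right ?_ hn00.le
  obtain ⟨T₁, hT₁⟩ : ∃ T₁, T₁ = (C₁ + 20 + 4 * r + 4) * S + Z := ⟨_, rfl⟩
  have hT1a : C₁ * S + 4 * S ≤ T₁ := by
    rw [hT₁]
    nlinarith only [Nat.zero_le (r * S), Nat.zero_le S, Nat.zero_le Z]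
  have hrS : 4 * r ≤ 4 * r * S := Nat.le_mul_of_pos_right _ (by omega)
  have hT1b : Z + (12 * cl + 4 * r + X + 10) ≤ T₁ := by
    have : (C₁ + 20 + 4 * r + 4) * S = C₁ * S + 4 * r * S + 24 * S := by ring
    omega
  have e5 : (2 : ℝ) ^ T₁ * 2 ≤ 2 ^ ((C₁ + 20 + 4 * r + 5) * S + Z) := by
    rw [← pow_succ]
    refine p2 ?_
    have : (C₁ + 20 + 4 * r + 5) * S = (C₁ + 20 + 4 * r + 4) * S + S := by ring
    omega
  have e6 : (2 : ℝ) ^ (C₁ * S + 4 * S) ≤ 2 ^ T₁ := p2 hT1a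
  have e7 : (2 : ℝ) ^ (Z + (12 * cl + 4 * r + X + 10)) ≤ 2 ^ T₁ := p2 hT1b
  linarith only [e5, e6, e7]

end Pool.TN
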