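import Pool.Agent.H88.D2.Sfk

/-!
# The relation of the target in the direction of the static place one

`CEv.rel3`: over one rough and two static coordinates, if the component of the static place two in the
direction of the place one is natural at the ball, the ball chart of the target has a closed natural
value in the corrected direction of the place one.
-/

set_option autoImplicit false

namespace Pool.TN

open Finset Real MvPolynomial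
open Pool.Agent.H49.Ent Pool.Agent.H32.Dense Pool.STK Pool.KA Pool.KSAT Pool.K2S Pool.PB Pool.S6C
open Pool.GEN Pool.CHT Pool.CHX Pool.ISO Pool.D2R Pool.D2Z Pool.D2F
open Pool.LBT (ThrOf)
open Pool.FLF (Fam.sub)
open Pool.PB.Trl (rt rt_mem t_rt)

variable {m J : ℕ}

/-- The curvature of the row label in the rough direction, as a polynomial. -/
noncomputable def nnF {F : Fam m J} (c : ℕ → Fin m) (t q q₁ : ℕ)
    (TH Φ : LnT F → ℕ → MvPolynomial (Option (Fin m)) ℝ) (s : LnT F) : Polynomial ℝ :=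
  Polynomial.derivative (kpol c t (ltr Φ q₁ 0) s 0) +
    Polynomial.derivative (kpol c t (ltr Φ q₁ 0) s 1) * kpol c t (ltr TH q 1) s 0 +
    Polynomial.derivative (kpol c t (ltr Φ q₁ 0) s 2) *
      (kpol c t (ltr TH q 2) s 0 + kpol c t (ltr TH q 2) s 1 * kpol c t (ltr TH q 1) s 0)

/-- The closed value of the chart of the target in the corrected direction of the place one. -/
noncomputable def rhoR {F : Fam m J} (c : ℕ → Fin m) (t q q₁ : ℕ)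
    (TH Φ : LnT F → ℕ → MvPolynomial (Option (Fin m)) ℝ) (s : LnT F) : Polynomial ℝ :=
  kpol c t (ltr Φ q₁ 0) s 1 + kpol c t (ltr Φ q₁ 0) s 2 * lamU c t q TH s 1 +
    Polynomial.C (((Polynomial.derivative (kpol c t (ltr TH q 1) s 0)).eval 0)⁻¹) *
      nnF c t q q₁ TH Φ s

/-- The closed component of the target in the direction of the place two. -/
noncomputable def muR {F : Fam m J} (c : ℕ → Fin m) (t q q₁ : ℕ)
    (TH Φ : LnT F → ℕ → MvPolynomial (Option (Fin m)) ℝ) (s : LnT F) : Polynomial ℝ :=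
  kpol c t (ltr Φ q₁ 0) s 2 +
    Polynomial.C (((Polynomial.derivative (kpol c t (ltr TH q 2) s 1)).eval 0)⁻¹) *
      (Polynomial.derivative (kpol c t (ltr Φ q₁ 0) s 1) +
        Polynomial.derivative (kpol c t (ltr Φ q₁ 0) s 2) * lamU c t q TH s 1 +
        Polynomial.C (((Polynomial.derivative (kpol c t (ltr TH q 1) s 0)).eval 0)⁻¹) *
          Polynomial.derivative (nnF c t q q₁ TH Φ s))

/-- The algebra of the relation. -/
theorem rel3_alg {n0 n1 n2 n3 W Aw T1 T2 y y₂ U A₁ B₁ N₃ zz z0 z2 x x' : ℝ} (_hn0 : 0 < n0)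
    (hn1 : 0 < n1) (hn3 : 0 < n3) (_hW : 0 < W) (hAw : 0 < Aw) (_hT1 : 0 < T1) (hU : 1 ≤ U)
    (hy : 1 ≤ y) (hy₂ : 1 ≤ y₂)
    (hA : n3 * Aw * |A₁| ≤ U * ((T1 + T2 * |x'|) + Aw * (n1 + n2 * |x|)))
    (h1 : T1 ≤ n1 * Aw * y) (h2 : T2 * |x'| ≤ U * T1) (h3 : n2 * |x| ≤ U * n1)
    (h8 : n3 * |N₃ - A₁ * zz - B₁ * z2| ≤ U * (W * n0)) (h9 : W * n0 ≤ U * (n1 * |z0|))
    (h9' : |zz - z0| * (y * y₂) ≤ |z0|) (hz : z0 ≠ 0) :
    n3 * |A₁ + B₁ * (z2 / z0) - N₃ / z0| ≤ 5 * U ^ 2 * n1 := by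
  have hU0 : 0 < U := by linarith only [hU]
  have hy0 : 0 < y := by linarith only [hy]
  have hz0 : 0 < |z0| := abs_pos.2 hz
  have k1 : n3 * |A₁| ≤ 4 * U ^ 2 * y * n1 := by
    have e1 : T1 + T2 * |x'| ≤ 2 * U * (n1 * Aw * y) := by
      have f1 : T1 ≤ U * (n1 * Aw * y) := h1.trans (le_mul_of_one_le_left (by positivity) hU)
      have f2 : U * T1 ≤ U * (n1 * Aw * y) := mul_le_mul_of_nonneg_left h1 hU0.le
      linarith only [f1, f2, h2]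
    have e2 : Aw * (n1 + n2 * |x|) ≤ 2 * U * (n1 * Aw * y) := by
      have f1 : n1 + n2 * |x| ≤ 2 * U * n1 := by
        have : n1 ≤ U * n1 := le_mul_of_one_le_left hn1.le hU
        linarith only [this, h3]
      have f2 := mul_le_mul_of_nonneg_left f1 hAw.le
      have f3 : 2 * U * n1 * Aw ≤ 2 * U * n1 * Aw * y := le_mul_of_one_le_right (by positivity) hy
      calc Aw * (n1 + n2 * |x|) ≤ Aw * (2 * U * n1) := f2
        _ = 2 * U * n1 * Aw := by ring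
        _ ≤ 2 * U * n1 * Aw * y := f3
        _ = _ := by ring
    have e3 : n3 * |A₁| * Aw ≤ 4 * U ^ 2 * y * n1 * Aw := by
      calc n3 * |A₁| * Aw = n3 * Aw * |A₁| := by ring
        _ ≤ U * ((T1 + T2 * |x'|) + Aw * (n1 + n2 * |x|)) := hA
        _ ≤ U * (2 * U * (n1 * Aw * y) + 2 * U * (n1 * Aw * y)) :=
            mul_le_mul_of_nonneg_left (add_le_add e1 e2) hU0.le
        _ = _ := by ring
    exact le_of_mul_le_mul_right e3 hAw
  obtain ⟨e, he⟩ : ∃ e, e = N₃ - A₁ * zz - B₁ * z2 := ⟨_, rfl⟩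
  rw [← he] at h8
  have e1 : A₁ + B₁ * (z2 / z0) - N₃ / z0 = (A₁ * (z0 - zz) - e) / z0 := by
    rw [he]
    field_simp
    ring
  rw [e1, abs_div, ← mul_div_assoc, div_le_iff₀ hz0]
  have k2 : |A₁ * (z0 - zz) - e| ≤ |A₁| * |zz - z0| + |e| := by
    refine (abs_sub _ _).trans ?_
    rw [abs_mul, abs_sub_comm z0 zz]
  have k3 : n3 * |A₁ * (z0 - zz) - e| ≤ 4 * U ^ 2 * y * n1 * |zz - z0| + U * (U * (n1 * |z0|)) := by
    refine (mul_le_mul_of_nonneg_left k2 hn3.le).trans ?_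
    rw [mul_add]
    refine add_le_add ?_ (h8.trans (mul_le_mul_of_nonneg_left h9 hU0.le))
    calc n3 * (|A₁| * |zz - z0|) = n3 * |A₁| * |zz - z0| := by ring
      _ ≤ 4 * U ^ 2 * y * n1 * |zz - z0| := mul_le_mul_of_nonneg_right k1 (abs_nonneg _)
  have k4 : y * |zz - z0| ≤ |z0| := by
    have f1 : |zz - z0| * y ≤ |zz - z0| * (y * y₂) := by
      refine mul_le_mul_of_nonneg_left (le_mul_of_one_le_right hy0.le hy₂) (abs_nonneg _)
    linarith only [f1, h9']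
  have k5 : 4 * U ^ 2 * n1 * (y * |zz - z0|) ≤ 4 * U ^ 2 * n1 * |z0| :=
    mul_le_mul_of_nonneg_left k4 (by positivity)
  calc n3 * |A₁ * (z0 - zz) - e| ≤ _ := k3
    _ = 4 * U ^ 2 * n1 * (y * |zz - z0|) + U ^ 2 * n1 * |z0| := by ring
    _ ≤ 4 * U ^ 2 * n1 * |z0| + U ^ 2 * n1 * |z0| := by linarith only [k5]
    _ = _ := by ring

/-- **The relation** of the target in the corrected direction of the static place one. -/
theorem CEv.rel3 : ∃ C : ℕ, 1 ≤ C ∧ ∀ {m J : ℕ} {F : Fam m J}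
    {c : ℕ → Fin m} {D Dr N M A cl : ℕ} {Sc : ℕ → Prop} {w e h pp : ℕ → ℕ}
    {z g gc gT g₀ : ℕ → ℕ → ℕ} {κ : ℝ}
    {B : F.Ω → Prop} {G : ℕ → PtT F → ℕ → MvPolynomial (Option (Fin m)) ℝ}
    {H : ℕ → LnT F → ℕ → MvPolynomial (Option (Fin m)) ℝ}
    {T : ℕ → PtT F → ℕ → MvPolynomial (Option (Fin m)) ℝ}
    {TH : ℕ → LnT F → ℕ → MvPolynomial (Option (Fin m)) ℝ}
    {Gt : ℕ → PtT F → MvPolynomial (Option (Fin m)) ℝ}
    {Ht : ℕ → LnT F → MvPolynomial (Option (Fin m)) ℝ},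
    CEv F c 3 D Dr N M A cl Sc w e h pp z g gc gT g₀ κ B G H T TH Gt Ht →
    ∀ {X y y₂ t₀ Y i i₁ t k : ℕ}, ¬ Sc 0 → Sc 1 → Sc 2 →
      NNum N A cl X y y₂ t₀ w pp gc gT g₀ i i₁ t k → ZNum 3 N A cl X w pp gc gT g₀ 1 i k →
    ∀ ω, B ω →
      (∀ V : Option (Fin m) → ℝ, V none = 0 → V (some (c 0)) = 1 →
        2 ^ (w k + g₀ k 0) / 2 ^ (g₀ k 1 + t₀) ≤
          |hs (TH i (slam F (w i) ω) 1) (bt F ω) (bd F ω) V|) →
      (∀ u ∈ Set.Icc (0 : ℝ) 1,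
        |2 ^ w t * (Polynomial.derivative (kpol c (w t) (ltr (TH i) (w t - w i) 1)
            (slam F (w t) ω) 0)).eval u -
          2 ^ w t * (Polynomial.derivative (kpol c (w t) (ltr (TH i) (w t - w i) 1)
            (slam F (w t) ω) 0)).eval 0| ≤
          2 ^ (w k + g₀ k 0) / 2 ^ (g₀ k 1 + (t₀ + (y + y₂) + 1))) →
      |kT w TH ω i 2 (some (c 1)) - gG G ω k 2 (some (c 1))| ≤
        2 ^ Y * (2 ^ g₀ k 1 / 2 ^ g₀ k 2) →
      |gG G ω k 3 (some (c 1)) + gG G ω k 3 (some (c 2)) *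
          (lamU c (w t) (w t - w i) (TH i) (slam F (w t) ω) 1).eval (rt F (w t) ω) -
        (rhoR c (w t) (w t - w i) (w t - w i₁) (TH i) (fun s _ => Ht i₁ s)
          (slam F (w t) ω)).eval (rt F (w t) ω)| ≤
        2 ^ (C * (cl + X + t₀ + Y + 1)) * (2 ^ g₀ k 1 / 2 ^ g₀ k 3) ∧
      |gG G ω k 3 (some (c 2)) - (kpol c (w t) (ltr (fun s _ => Ht i₁ s) (w t - w i₁) 0)
          (slam F (w t) ω) 2).eval (rt F (w t) ω)| ≤
        2 ^ (C * (cl + X + t₀ + Y + 1) + y₂) * (2 ^ g₀ k 2 / 2 ^ g₀ k 3) ∧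
      |(lamU c (w t) (w t - w i) (TH i) (slam F (w t) ω) 1).eval (rt F (w t) ω) -
          gG G ω k 2 (some (c 1))| ≤
        2 ^ (C * (cl + X + t₀ + Y + 1)) * (2 ^ g₀ k 1 / 2 ^ g₀ k 2) ∧
      2 ^ (w k + g₀ k 0) / 2 ^ (g₀ k 1 + t₀) / 2 ≤
        |2 ^ w t * (Polynomial.derivative (kpol c (w t) (ltr (TH i) (w t - w i) 1)
          (slam F (w t) ω) 0)).eval 0| := by
  obtain ⟨C₁, hC₁, huov⟩ := CEv.uov 3 le_rfl
  obtain ⟨C₃, hC₃, hex3⟩ := CEv.ex 3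
  refine ⟨5 * (C₁ + C₃ + 60) + 5, by omega, ?_⟩
  intro m J F c D Dr N M A cl Sc w e h pp z g gc gT g₀ κ B G H T TH Gt Ht E X y y₂ t₀ Y i i₁ t k
    hs0 hs1 hs2 n hZ ω hω hlow hvar hnear
  have hi := n.un.iN
  have ht := n.un.tN
  have hk := n.un.kN
  have hi1 := n.i1N
  have hik : w i ≤ w k := n.un.it.trans n.un.tk
  have hi1k : w i₁ ≤ w k := n.i1t.trans n.un.tk
  have hrad := E.radA hk
  have htJ : w t ≤ J := (E.wA t ht).trans E.AJ
  have hc3 : Set.InjOn c (Set.Iio 3) := E.inj.mono (Set.Iio_subset_Iio (by omega))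
  have hc2 : Set.InjOn c (Set.Iio 2) := E.inj.mono (Set.Iio_subset_Iio (by omega))
  have hns : ∀ x < 1, ¬ Sc x := fun x hx => by
    rw [Nat.lt_one_iff.1 hx]
    exact hs0
  have hΓ : ∀ l, CvC c l (gG G ω k l) := fun l => cvc_grd ((E.evs k hk).ball.depG _ l) _
  have hκ : ∀ j ≤ N, ∀ l, CvC c l (kT w TH ω j l) := fun j hj l =>
    cvc_grd ((E.evs j hj).thin.depH _ l) _
  have hΦc : CvC c 3 (grd (Ht i₁ (slam F (w i₁) ω)) (bt F ω)) := cvc_grd ((E.evs i₁ hi1).pH _) _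
  have a0 := E.ng k hk 0 (by omega)
  have a1 := E.ng k hk 1 (by omega)
  have a2 := E.ng k hk 2 (by omega)
  have a3 := E.ng k hk 3 (by omega)
  have b0 := n.un.cT 0 (by omega)
  have b1 := n.un.cT 1 (by omega)
  have b2 := n.un.cT 2 (by omega)
  have hrg := E.t_rg hk (show 0 < 3 by omega) hs0
  have m1 := n.un.m1
  have lb1 := n.un.lb1
  have lb2 := n.un.lb2
  have hxy := n.un.ex
  have m2 := n.m2
  have lb2' := n.lb2
  have lb3 := n.lb3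
  have hxy2 := n.ex2
  have c3 := n.c3
  have hgi1 := b1.1
  -- the constant
  obtain ⟨Q, hQ⟩ : ∃ Q, Q = cl + X + t₀ + Y + 1 := ⟨_, rfl⟩
  have q1 : C₁ * (cl + X + t₀ + 1) ≤ C₁ * Q := Nat.mul_le_mul_left _ (by omega)
  have q3 : C₃ * (cl + X + 1) ≤ C₃ * Q := Nat.mul_le_mul_left _ (by omega)
  have q4 : (C₁ + C₃ + 60) * Q = C₁ * Q + C₃ * Q + 60 * Q := by ring
  obtain ⟨Z, hZd⟩ : ∃ Z, Z = (C₁ + C₃ + 60) * Q := ⟨_, rfl⟩
  rw [← hZd] at q4
  obtain ⟨U, hU⟩ : ∃ U : ℝ, U = 2 ^ Z := ⟨_, rfl⟩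
  have hU1 : 1 ≤ U := by rw [hU]; exact one_le_pow₀ (by norm_num)
  have hU0 : 0 < U := by linarith
  have hUp : ∀ {x : ℕ}, x ≤ Z → (2 : ℝ) ^ x ≤ U := fun hx => by rw [hU]; exact p2 hx
  -- the components
  obtain ⟨k10, ek10⟩ : ∃ x, x = kT w TH ω i 1 (some (c 0)) := ⟨_, rfl⟩
  obtain ⟨k20, ek20⟩ : ∃ x, x = kT w TH ω i 2 (some (c 0)) := ⟨_, rfl⟩
  obtain ⟨k21, ek21⟩ : ∃ x, x = kT w TH ω i 2 (some (c 1)) := ⟨_, rfl⟩
  obtain ⟨k10', ek10'⟩ : ∃ x, x = kT w TH ω k 1 (some (c 0)) := ⟨_, rfl⟩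
  obtain ⟨k20', ek20'⟩ : ∃ x, x = kT w TH ω k 2 (some (c 0)) := ⟨_, rfl⟩
  obtain ⟨k21', ek21'⟩ : ∃ x, x = kT w TH ω k 2 (some (c 1)) := ⟨_, rfl⟩
  obtain ⟨g10, eg10⟩ : ∃ x, x = gG G ω k 1 (some (c 0)) := ⟨_, rfl⟩
  obtain ⟨g20, eg20⟩ : ∃ x, x = gG G ω k 2 (some (c 0)) := ⟨_, rfl⟩
  obtain ⟨g21, eg21⟩ : ∃ x, x = gG G ω k 2 (some (c 1)) := ⟨_, rfl⟩
  obtain ⟨g30, eg30⟩ : ∃ x, x = gG G ω k 3 (some (c 0)) := ⟨_, rfl⟩
  obtain ⟨g31, eg31⟩ : ∃ x, x = gG G ω k 3 (some (c 1)) := ⟨_, rfl⟩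
  obtain ⟨g32, eg32⟩ : ∃ x, x = gG G ω k 3 (some (c 2)) := ⟨_, rfl⟩
  obtain ⟨f0, ef0⟩ : ∃ x, x = grd (Ht i₁ (slam F (w i₁) ω)) (bt F ω) (some (c 0)) := ⟨_, rfl⟩
  obtain ⟨f1, ef1⟩ : ∃ x, x = grd (Ht i₁ (slam F (w i₁) ω)) (bt F ω) (some (c 1)) := ⟨_, rfl⟩
  obtain ⟨f2, ef2⟩ : ∃ x, x = grd (Ht i₁ (slam F (w i₁) ω)) (bt F ω) (some (c 2)) := ⟨_, rfl⟩
  -- evaluation of the covectors
  have vk1 : ∀ W : Option (Fin m) → ℝ, W none = 0 →
      cv (kT w TH ω i 1) W = k10 * W (some (c 0)) := fun W hW => by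
    rw [cvx1 hc3 (hκ i hi 1) hW, ← ek10]
  have vk2 : ∀ W : Option (Fin m) → ℝ, W none = 0 → cv (kT w TH ω i 2) W =
      k20 * W (some (c 0)) + k21 * W (some (c 1)) := fun W hW => by
    rw [cvx2 hc3 (hκ i hi 2) hW, ← ek20, ← ek21]
  have vk1' : ∀ W : Option (Fin m) → ℝ, W none = 0 →
      cv (kT w TH ω k 1) W = k10' * W (some (c 0)) := fun W hW => by
    rw [cvx1 hc3 (hκ k hk 1) hW, ← ek10']
  have vk2' : ∀ W : Option (Fin m) → ℝ, W none = 0 → cv (kT w TH ω k 2) W =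
      k20' * W (some (c 0)) + k21' * W (some (c 1)) := fun W hW => by
    rw [cvx2 hc3 (hκ k hk 2) hW, ← ek20', ← ek21']
  have vg1 : ∀ W : Option (Fin m) → ℝ, W none = 0 →
      cv (gG G ω k 1) W = g10 * W (some (c 0)) := fun W hW => by
    rw [cvx1 hc3 (hΓ 1) hW, ← eg10]
  have vg2 : ∀ W : Option (Fin m) → ℝ, W none = 0 → cv (gG G ω k 2) W =
      g20 * W (some (c 0)) + g21 * W (some (c 1)) := fun W hW => by
    rw [cvx2 hc3 (hΓ 2) hW, ← eg20, ← eg21]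
  have vg3 : ∀ W : Option (Fin m) → ℝ, W none = 0 → cv (gG G ω k 3) W =
      g30 * W (some (c 0)) + g31 * W (some (c 1)) + g32 * W (some (c 2)) := fun W hW => by
    rw [cvx3 hc3 (hΓ 3) hW, ← eg30, ← eg31, ← eg32]
  have vf : ∀ W : Option (Fin m) → ℝ, W none = 0 →
      cv (grd (Ht i₁ (slam F (w i₁) ω)) (bt F ω)) W =
      f0 * W (some (c 0)) + f1 * W (some (c 1)) + f2 * W (some (c 2)) := fun W hW => by
    rw [cvx3 hc3 hΦc hW, ← ef0, ← ef1, ← ef2]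
  -- evaluation of the norms
  have eT1 : ∀ W : Option (Fin m) → ℝ, W none = 0 →
      en c (gT k) A (kT w TH ω k) 1 W = 2 ^ gT k 0 * |W (some (c 0))| := fun W hW =>
    enx1 _ _ (hκ k hk) hW
  have eT2 : ∀ W : Option (Fin m) → ℝ, W none = 0 → en c (gT k) A (kT w TH ω k) 2 W =
      2 ^ gT k 0 * |W (some (c 0))| +
        2 ^ gT k 1 * |W (some (c 1)) - k10' * W (some (c 0))| := fun W hW => by
    rw [enx2 hc3 _ _ (hκ k hk) hW, ← ek10']
  have eT3 : ∀ W : Option (Fin m) → ℝ, W none = 0 → en c (gT k) A (kT w TH ω k) 3 W =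
      2 ^ gT k 0 * |W (some (c 0))| +
        2 ^ gT k 1 * |W (some (c 1)) - k10' * W (some (c 0))| +
        2 ^ gT k 2 * |W (some (c 2)) - (k20' * W (some (c 0)) + k21' * W (some (c 1)))| :=
    fun W hW => by
      rw [enx3 hc3 _ _ (hκ k hk) hW, ← ek10', ← ek20', ← ek21']
  have eG1 : ∀ W : Option (Fin m) → ℝ, W none = 0 →
      en c (g₀ k) (w k) (gG G ω k) 1 W = 2 ^ g₀ k 0 * |W (some (c 0))| := fun W hW =>
    enx1 _ _ hΓ hW
  have eG2 : ∀ W : Option (Fin m) → ℝ, W none = 0 → en c (g₀ k) (w k) (gG G ω k) 2 W =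
      2 ^ g₀ k 0 * |W (some (c 0))| +
        2 ^ g₀ k 1 * |W (some (c 1)) - g10 * W (some (c 0))| := fun W hW => by
    rw [enx2 hc3 _ _ hΓ hW, ← eg10]
  have eG3 : ∀ W : Option (Fin m) → ℝ, W none = 0 → en c (g₀ k) (w k) (gG G ω k) 3 W =
      2 ^ g₀ k 0 * |W (some (c 0))| +
        2 ^ g₀ k 1 * |W (some (c 1)) - g10 * W (some (c 0))| +
        2 ^ g₀ k 2 * |W (some (c 2)) - (g20 * W (some (c 0)) + g21 * W (some (c 1)))| :=
    fun W hW => by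
      rw [enx3 hc3 _ _ hΓ hW, ← eg10, ← eg20, ← eg21]
  -- the label of the place one
  have hAw : (2 : ℝ) ^ A = 2 ^ w k * 2 ^ (A - w k) := by rw [← pow_add, hrad]
  obtain ⟨qT, hqT⟩ : ∃ q, q = min (gT i 2) (gT k 2) - cl := ⟨_, rfl⟩
  have htt2 : ∀ W : Option (Fin m) → ℝ, W none = 0 →
      2 ^ gT k 2 * |cv (kT w TH ω i 2 - kT w TH ω k 2) W| ≤
        U * en c (gT k) A (kT w TH ω k) 2 W := fun W hW =>
    (tt_nat (g := gT k 2) (s := cl + X) (en_nonneg _ _ _ _ _ _)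
      (E.tt (show 2 < 3 by omega) hi hk hik (q := qT) (by omega) (by omega) hω W)
      (by omega)).trans (mul_le_mul_of_nonneg_right (hUp (by omega)) (en_nonneg _ _ _ _ _ _))
  have h3' : 2 ^ gT k 2 * |k21 - k21'| ≤ U * 2 ^ gT k 1 := by
    have h3 := htt2 (tvc c 0 1 0) (tvc_n _ _ _ _)
    rw [cv_subl, vk2 _ (tvc_n _ _ _ _), vk2' _ (tvc_n _ _ _ _), eT2 _ (tvc_n _ _ _ _), tvc_0,
      tvc_1 hc3] at h3
    simpa using h3
  -- the rows
  obtain ⟨qN, hqN⟩ : ∃ q, q = g₀ k 2 + (A - w k) - (3 * cl + X) := ⟨_, rfl⟩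
  obtain ⟨qR, hqR⟩ : ∃ q, q = g₀ k 3 + (A - w k) - (3 * cl + X) := ⟨_, rfl⟩
  have hcp := n.cp
  have hrow : ∀ W : Option (Fin m) → ℝ, W none = 0 → 2 ^ g₀ k 3 * 2 ^ (A - w k) *
      |(g30 - f0) * W (some (c 0)) + (g31 - f1) * W (some (c 1)) + (g32 - f2) * W (some (c 2))| ≤
      U * (en c (gT k) A (kT w TH ω k) 3 W +
        2 ^ (A - w k) * en c (g₀ k) (w k) (gG G ω k) 3 W) := fun W hW => by
    have h3 := E.rb hi1 hk hi1k (q := qR) (by omega) (by omega) hω W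
    rw [cv_subl, vf W hW, vg3 W hW, abs_sub_comm] at h3
    have e1 : (g30 - f0) * W (some (c 0)) + (g31 - f1) * W (some (c 1)) +
        (g32 - f2) * W (some (c 2)) = g30 * W (some (c 0)) + g31 * W (some (c 1)) +
        g32 * W (some (c 2)) - (f0 * W (some (c 0)) + f1 * W (some (c 1)) +
          f2 * W (some (c 2))) := by ring
    rw [e1]
    have n1 := en_nonneg c (gT k) A (kT w TH ω k) 3 W
    have n2 := en_nonneg c (g₀ k) (w k) (gG G ω k) 3 W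
    exact (row_nat (a := A - w k) (s := 3 * cl + X) n1 n2 h3
      (by omega)).trans (mul_le_mul_of_nonneg_right (hUp (by omega)) (by positivity))
  -- the polynomials at the sample
  obtain ⟨d, hd⟩ : ∃ d, d = w t - w i := ⟨_, rfl⟩
  obtain ⟨d₁, hd₁⟩ : ∃ d, d = w t - w i₁ := ⟨_, rfl⟩
  have hvar' : ∀ u ∈ Set.Icc (0 : ℝ) 1,
      |2 ^ w t * (Polynomial.derivative (kpol c (w t) (ltr (TH i) (w t - w i) 1)
          (slam F (w t) ω) 0)).eval u -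
        2 ^ w t * (Polynomial.derivative (kpol c (w t) (ltr (TH i) (w t - w i) 1)
          (slam F (w t) ω) 0)).eval 0| ≤
        2 ^ (w k + g₀ k 0) / 2 ^ (g₀ k 1 + (t₀ + y + 1)) := fun u hu =>
    (hvar u hu).trans (div_le_div_of_nonneg_left (by positivity) (by positivity)
      (p2 (by omega)))
  have huo := huov E hs0 hs1 n.un ω hω hlow hvar'
  rw [← hd] at huo hvar ⊢
  rw [← hd₁]
  obtain ⟨s, hsd⟩ : ∃ s, s = slam F (w t) ω := ⟨_, rfl⟩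
  obtain ⟨τ, hτ⟩ : ∃ τ, τ = rt F (w t) ω := ⟨_, rfl⟩
  rw [← hsd] at huo hvar ⊢
  rw [← hτ] at huo ⊢
  have hlt : ∀ l, ltr (TH i) d l s = TH i (slam F (w i) ω) l := fun l => by
    rw [hsd, hd]
    exact ltr_slam F (TH i) n.un.it htJ l ω
  have hltf : ltr (fun s (_ : ℕ) => Ht i₁ s) d₁ 0 s = Ht i₁ (slam F (w i₁) ω) := by
    rw [hsd, hd₁]
    exact ltr_slam F (fun s (_ : ℕ) => Ht i₁ s) n.i1t htJ 0 ω
  have hkv : ∀ l j, (kpol c (w t) (ltr (TH i) d l) s j).eval τ =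
      kT w TH ω i l (some (c j)) := fun l j => by
    rw [hsd, hτ, kpol_rt F c htJ, ← hsd, hlt]
    rfl
  have hfv : ∀ j, (kpol c (w t) (ltr (fun s (_ : ℕ) => Ht i₁ s) d₁ 0) s j).eval τ =
      grd (Ht i₁ (slam F (w i₁) ω)) (bt F ω) (some (c j)) := fun j => by
    rw [hsd, hτ, kpol_rt F c htJ, ← hsd, hltf]
  -- the frame
  obtain ⟨Ξ, hΞd⟩ : ∃ Ξ, Ξ = mx Sc (kT w TH ω i) (gG G ω k) := ⟨_, rfl⟩
  have hΞ : ∀ l, CvC c l (Ξ l) := fun l => by rw [hΞd]; exact mx_cvc (hκ i hi) hΓ l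
  have hΞ1 : Ξ 1 = kT w TH ω i 1 := by rw [hΞd]; exact mx_pos hs1
  have hΞ2 : Ξ 2 = kT w TH ω i 2 := by rw [hΞd]; exact mx_pos hs2
  obtain ⟨P, hP⟩ : ∃ P, P = ev c 3 Ξ 0 := ⟨_, rfl⟩
  obtain ⟨Q₁, hQ₁⟩ : ∃ Q, Q = ev c 3 Ξ 1 := ⟨_, rfl⟩
  obtain ⟨R, hR⟩ : ∃ R, R = ev c 3 Ξ 2 := ⟨_, rfl⟩
  have pn : P none = 0 := by rw [hP]; exact ev_none _ _ _ _
  have p0 : P (some (c 0)) = 1 := by rw [hP]; exact ev_eq hc3 hΞ (by norm_num)
  have p1 : P (some (c 1)) = k10 := by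
    have h3 := ev_comp hc3 hΞ 0 (show 1 < 3 by norm_num)
    rw [if_neg (by norm_num), ← hP, hΞ1, vk1 P pn, p0] at h3
    linarith
  have p2' : P (some (c 2)) = k20 + k21 * k10 := by
    have h3 := ev_comp hc3 hΞ 0 (show 2 < 3 by norm_num)
    rw [if_neg (by norm_num), ← hP, hΞ2, vk2 P pn, p0, p1] at h3
    linarith
  have qn : Q₁ none = 0 := by rw [hQ₁]; exact ev_none _ _ _ _
  have q0 : Q₁ (some (c 0)) = 0 := by
    rw [hQ₁]
    exact ev_lt hc3 hΞ (by norm_num) (by norm_num)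
  have q1' : Q₁ (some (c 1)) = 1 := by rw [hQ₁]; exact ev_eq hc3 hΞ (by norm_num)
  have q2' : Q₁ (some (c 2)) = k21 := by
    have h3 := ev_comp hc3 hΞ 1 (show 2 < 3 by norm_num)
    rw [if_neg (by norm_num), ← hQ₁, hΞ2, vk2 Q₁ qn, q0, q1'] at h3
    linarith
  have rn : R none = 0 := by rw [hR]; exact ev_none _ _ _ _
  have r0 : R (some (c 0)) = 0 := by
    rw [hR]
    exact ev_lt hc3 hΞ (by norm_num) (by norm_num)
  have r1 : R (some (c 1)) = 0 := by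
    rw [hR]
    exact ev_lt hc3 hΞ (by norm_num) (by norm_num)
  have r2 : R (some (c 2)) = 1 := by rw [hR]; exact ev_eq hc3 hΞ (by norm_num)
  obtain ⟨zz, hzz⟩ : ∃ x, x = hs (TH i (slam F (w i) ω) 1) (bt F ω) (bd F ω) P := ⟨_, rfl⟩
  obtain ⟨z2, hz2⟩ : ∃ x, x = hs (TH i (slam F (w i) ω) 2) (bt F ω) (bd F ω) P := ⟨_, rfl⟩
  obtain ⟨N3, hN3⟩ : ∃ x, x = hs (Ht i₁ (slam F (w i₁) ω)) (bt F ω) (bd F ω) P := ⟨_, rfl⟩
  -- the closed chart of the place two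
  obtain ⟨de, hde⟩ : ∃ de, de = (dlU c (w t) d 2 (TH i) s).eval τ := ⟨_, rfl⟩
  have hu0 : (lamU c (w t) d (TH i) s 0).eval τ = k20 - de * k10 := by
    unfold lamU
    rw [if_pos rfl, Polynomial.eval_sub, Polynomial.eval_mul, hkv, hkv, ← hde, ← ek20, ← ek10]
  have hu1 : (lamU c (w t) d (TH i) s 1).eval τ = k21 + de := by
    unfold lamU
    rw [if_neg (by norm_num), Polynomial.eval_add, hkv, ← hde, ← ek21]
  have huo' : ∀ W : Option (Fin m) → ℝ, W none = 0 →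
      2 ^ g₀ k 2 * |(k20 - de * k10) * W (some (c 0)) + (k21 + de) * W (some (c 1)) -
        (g20 * W (some (c 0)) + g21 * W (some (c 1)))| ≤
        U * en c (g₀ k) (w k) (gG G ω k) 2 W := fun W hW => by
    have h3 := huo W hW
    rw [Finset.sum_range_succ, Finset.sum_range_one, hu0, hu1, vg2 W hW] at h3
    refine (mul_le_mul_of_nonneg_left h3 (by positivity)).trans ?_
    have n1 := en_nonneg c (g₀ k) (w k) (gG G ω k) 2 W
    have e1 : (2 : ℝ) ^ g₀ k 2 * (2 ^ (C₁ * (cl + X + t₀ + 1)) / 2 ^ g₀ k 2 *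
        en c (g₀ k) (w k) (gG G ω k) 2 W) = 2 ^ (C₁ * (cl + X + t₀ + 1)) *
        en c (g₀ k) (w k) (gG G ω k) 2 W := by field_simp
    rw [e1]
    exact mul_le_mul_of_nonneg_right (hUp (by omega)) n1
  have h4' : 2 ^ g₀ k 2 * |k21 + de - g21| ≤ U * 2 ^ g₀ k 1 := by
    have h3 := huo' (tvc c 0 1 0) (tvc_n _ _ _ _)
    rw [eG2 _ (tvc_n _ _ _ _), tvc_0, tvc_1 hc3] at h3
    simpa using h3
  -- the second derivatives
  have hsw : ∀ l < 3, Sc l → l = 1 ∨ l = 2 := fun l hl hsl => by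
    have h3 : l ≠ 0 := fun h => hs0 (by rwa [← h])
    omega
  have hAg : ∀ l q, g₀ k l + (A - w k) ≤ q + (3 * cl + X) →
      A + g₀ k l ≤ q + w k + (3 * cl + X) := fun l q h => by omega
  have h8'' : 2 ^ g₀ k 3 * |N3 - ((g31 - f1) + (g32 - f2) * k21) * zz - (g32 - f2) * z2| ≤
      U * (2 ^ w k * 2 ^ g₀ k 0) := by
    have h3 := hex3 E (i₀ := i) (i₁ := i₁) (k := k) (P := qR) (X := X)
      hi hi1 hk hik hi1k (fun l hl hsl => by
        rcases hsw l hl hsl with h4 | h4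
        · rw [h4]
          exact ⟨b1.1, b1.2.1, b1.2.2⟩
        · rw [h4]
          exact ⟨b2.1, b2.2.1, b2.2.2⟩) (fun l hl hsl => by
        rcases hsw l hl hsl with h4 | h4
        · rw [h4]
          exact ⟨m1, lb1⟩
        · rw [h4]
          exact ⟨m2, lb2'⟩) (by omega) (by omega) ω hω 0 hs0
    rw [← hΞd, ← hP, ← hN3, Finset.sum_range_succ, Finset.sum_range_succ, Finset.sum_range_one,
      wt_neg hs0, wt_pos hs1, wt_pos hs2, zero_mul, zero_add, ← hQ₁, ← hR, ← hzz, ← hz2, cv_subl,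
      cv_subl, vg3 Q₁ qn, vf Q₁ qn, vg3 R rn, vf R rn, q0, q1', q2', r0, r1, r2] at h3
    have e1 : N3 - ((g31 - f1) + (g32 - f2) * k21) * zz - (g32 - f2) * z2 =
        N3 - ((g30 * 0 + g31 * 1 + g32 * k21 - (f0 * 0 + f1 * 1 + f2 * k21)) * zz +
          (g30 * 0 + g31 * 0 + g32 * 1 - (f0 * 0 + f1 * 0 + f2 * 1)) * z2) := by ring
    rw [e1]
    refine (ex_nat (by positivity) h3 (hAg 3 qR (by omega))).trans
      (mul_le_mul_of_nonneg_right ?_ (by positivity))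
    rw [← pow_add]
    exact hUp (by omega)
  -- the derivatives of the polynomials
  have hkd : ∀ (Ψ : LnT F → MvPolynomial (Option (Fin m)) ℝ), (∀ s, DepC c 3 (Ψ s)) →
      2 ^ w t * ((Polynomial.derivative (kpol c (w t) Ψ s 0)).eval τ +
        (Polynomial.derivative (kpol c (w t) Ψ s 1)).eval τ * k10 +
        (Polynomial.derivative (kpol c (w t) Ψ s 2)).eval τ * (k20 + k21 * k10)) =
      hs (Ψ s) (bt F ω) (bd F ω) P := fun Ψ hΨ => by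
    have h3 := kpol_hs F (c := c) (l := 3) (t := w t) hc3 htJ (Q := Ψ) hΨ ω pn
    rw [← hsd, ← hτ, Finset.sum_range_succ, Finset.sum_range_succ, Finset.sum_range_one, p0, p1,
      p2', mul_one] at h3
    rw [h3]
    field_simp
  have hk2 : 2 ^ w t * ((Polynomial.derivative (kpol c (w t) (ltr (TH i) d 2) s 0)).eval τ +
        (Polynomial.derivative (kpol c (w t) (ltr (TH i) d 2) s 1)).eval τ * k10) = z2 := by
    have h3 := kpol_hs F (c := c) (l := 2) (t := w t) hc2 htJ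
      (Q := ltr (TH i) d 2) (fun s => (E.evs i hi).thin.depH (co d s) 2) ω pn
    rw [← hsd, ← hτ, hlt, Finset.sum_range_succ, Finset.sum_range_one, p0, p1, mul_one,
      ← hz2] at h3
    rw [h3]
    field_simp
  have hk1 : 2 ^ w t * (Polynomial.derivative (kpol c (w t) (ltr (TH i) d 1) s 0)).eval τ =
      zz := by
    have h3 := kpol_hs F (c := c) (l := 1) (t := w t)
      (hc3.mono (Set.Iio_subset_Iio (by norm_num))) htJ
      (Q := ltr (TH i) d 1) (fun s => (E.evs i hi).thin.depH (co d s) 1) ω pn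
    rw [← hsd, ← hτ, hlt, Finset.sum_range_one, p0, mul_one, ← hzz] at h3
    rw [h3]
    field_simp
  have hk3 := hkd (ltr (fun s (_ : ℕ) => Ht i₁ s) d₁ 0) (fun s => (E.evs i₁ hi1).pH (co d₁ s))
  rw [hltf, ← hN3] at hk3
  obtain ⟨z0, hz0⟩ : ∃ x, x = 2 ^ w t * (Polynomial.derivative (kpol c (w t)
    (ltr (TH i) d 1) s 0)).eval 0 := ⟨_, rfl⟩
  -- the lower bound
  obtain ⟨Lw, hLw⟩ : ∃ x : ℝ, x = 2 ^ (w k + g₀ k 0) / 2 ^ (g₀ k 1 + t₀) := ⟨_, rfl⟩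
  have hLw0 : 0 < Lw := by rw [hLw]; positivity
  have hzz1 : Lw ≤ |zz| := by
    rw [hLw, hzz]
    exact hlow P pn p0
  have hvz : |zz - z0| ≤ Lw / 2 ^ (y + y₂ + 1) := by
    have h3 := hvar τ (by rw [hτ]; exact rt_mem F (w t) ω)
    rw [hk1, ← hz0] at h3
    refine h3.trans (le_of_eq ?_)
    rw [hLw, show g₀ k 1 + (t₀ + (y + y₂) + 1) = g₀ k 1 + t₀ + (y + y₂ + 1) by ring,
      pow_add 2 (g₀ k 1 + t₀) (y + y₂ + 1)]
    field_simp
  have h2y : (1 : ℝ) ≤ 2 ^ (y + y₂) := one_le_pow₀ (by norm_num)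
  have hz0L : Lw / 2 ≤ |z0| := by
    have h3 : Lw / 2 ^ (y + y₂ + 1) ≤ Lw / 2 := by
      refine div_le_div_of_nonneg_left hLw0.le (by norm_num) ?_
      rw [pow_succ 2 (y + y₂)]
      linarith
    have h4 := abs_sub_abs_le_abs_sub zz z0
    linarith
  have hz00 : z0 ≠ 0 := by
    intro h
    rw [h, abs_zero] at hz0L
    linarith
  have h9' : |zz - z0| * (2 ^ y * 2 ^ y₂) ≤ |z0| := by
    rw [← pow_add]
    have g1 := mul_le_mul_of_nonneg_right hvz (show (0 : ℝ) ≤ 2 ^ (y + y₂) by positivity)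
    have g2 : Lw / 2 ^ (y + y₂ + 1) * 2 ^ (y + y₂) = Lw / 2 := by
      rw [pow_succ 2 (y + y₂)]
      field_simp
    rw [g2] at g1
    exact g1.trans hz0L
  have h9 : (2 : ℝ) ^ w k * 2 ^ g₀ k 0 ≤ U * (2 ^ g₀ k 1 * |z0|) := by
    have g1 : (2 : ℝ) ^ w k * 2 ^ g₀ k 0 = 2 ^ (t₀ + 1) * 2 ^ g₀ k 1 * (Lw / 2) := by
      rw [hLw, pow_add 2 (w k), pow_add 2 (g₀ k 1) t₀, pow_succ 2 t₀]
      field_simp
    rw [g1]
    have g2 := mul_le_mul_of_nonneg_left hz0L (show (0 : ℝ) ≤ 2 ^ (t₀ + 1) * 2 ^ g₀ k 1 by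
      positivity)
    refine g2.trans ?_
    rw [mul_assoc]
    exact mul_le_mul_of_nonneg_right (hUp (by omega)) (by positivity)
  -- the conclusions
  have hde2 : de = z2 / z0 := by
    have hpw : (2 : ℝ) ^ w t ≠ 0 := by positivity
    rw [hde, dlU_np, Polynomial.eval_mul, Polynomial.eval_C, hz0, ← hk2]
    unfold npU
    rw [Polynomial.eval_add, Polynomial.eval_mul, hkv 1 0, ← ek10, inv_mul_eq_div,
      mul_div_mul_left _ _ hpw]
  have hnn : (nnF c (w t) d d₁ (TH i) (fun s _ => Ht i₁ s) s).eval τ = N3 / 2 ^ w t := by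
    have hpw : (2 : ℝ) ^ w t ≠ 0 := by positivity
    rw [eq_div_iff hpw, ← hk3]
    unfold nnF
    simp only [Polynomial.eval_add, Polynomial.eval_mul]
    rw [hkv, hkv, hkv, ← ek10, ← ek20, ← ek21]
    ring
  have hrho : (rhoR c (w t) d d₁ (TH i) (fun s _ => Ht i₁ s) s).eval τ =
      f1 + f2 * (k21 + de) + N3 / z0 := by
    have hpw : (2 : ℝ) ^ w t ≠ 0 := by positivity
    unfold rhoR
    rw [Polynomial.eval_add, Polynomial.eval_add, Polynomial.eval_mul, Polynomial.eval_mul,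
      Polynomial.eval_C, hfv, hfv, hu1, hnn, ← ef1, ← ef2, hz0]
    congr 1
    rw [inv_mul_eq_div, div_div]
  have t1 : (2 : ℝ) ^ gT k 1 ≤ 2 ^ g₀ k 1 * 2 ^ (A - w k) * 2 ^ y := by
    rw [← pow_add, ← pow_add]
    exact p2 (by omega)
  have t2 : (2 : ℝ) ^ gT k 2 ≤ 2 ^ g₀ k 2 * 2 ^ (A - w k) * 2 ^ y₂ := by
    rw [← pow_add, ← pow_add]
    exact p2 (by omega)
  have hA1 : 2 ^ g₀ k 3 * 2 ^ (A - w k) * |(g31 - f1) + (g32 - f2) * k21| ≤
      U * ((2 ^ gT k 1 + 2 ^ gT k 2 * |k21 - k21'|) +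
        2 ^ (A - w k) * (2 ^ g₀ k 1 + 2 ^ g₀ k 2 * |k21 - g21|)) := by
    have h3 := hrow (tvc c 0 1 k21) (tvc_n _ _ _ _)
    rw [eT3 _ (tvc_n _ _ _ _), eG3 _ (tvc_n _ _ _ _), tvc_0, tvc_1 hc3, tvc_2 hc3] at h3
    simpa only [mul_zero, mul_one, abs_zero, zero_add, sub_zero, abs_one] using h3
  have hB1 : 2 ^ g₀ k 3 * 2 ^ (A - w k) * |g32 - f2| ≤
      U * (2 ^ gT k 2 + 2 ^ (A - w k) * 2 ^ g₀ k 2) := by
    have h3 := hrow (tvc c 0 0 1) (tvc_n _ _ _ _)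
    rw [eT3 _ (tvc_n _ _ _ _), eG3 _ (tvc_n _ _ _ _), tvc_0, tvc_1 hc3, tvc_2 hc3] at h3
    simpa only [mul_zero, mul_one, abs_zero, zero_add, sub_zero, abs_one] using h3
  have hnr : 2 ^ g₀ k 2 * |k21 - g21| ≤ U * 2 ^ g₀ k 1 := by
    rw [← ek21, ← eg21] at hnear
    refine (mul_le_mul_of_nonneg_left hnear (by positivity)).trans ?_
    have e1 : (2 : ℝ) ^ g₀ k 2 * (2 ^ Y * (2 ^ g₀ k 1 / 2 ^ g₀ k 2)) = 2 ^ Y * 2 ^ g₀ k 1 := by
      field_simp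
    rw [e1]
    exact mul_le_mul_of_nonneg_right (hUp (by omega)) (by positivity)
  have hQ5 : (C₁ + C₃ + 60) * Q ≤ Z := by omega
  have hCQ : (5 * (C₁ + C₃ + 60) + 5) * (cl + X + t₀ + Y + 1) = 5 * Z + 5 * Q := by
    rw [← hQ, hZd]
    ring
  rw [hCQ, hu1, hrho, hfv, ← ef2, ← eg31, ← eg32, ← eg21]
  refine ⟨?_, ?_, ?_, ?_⟩
  · have hfin := rel3_alg (n0 := 2 ^ g₀ k 0) (n1 := 2 ^ g₀ k 1) (n2 := 2 ^ g₀ k 2)
      (n3 := 2 ^ g₀ k 3) (W := 2 ^ w k) (Aw := 2 ^ (A - w k)) (T1 := 2 ^ gT k 1)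
      (T2 := 2 ^ gT k 2) (y := 2 ^ y) (y₂ := 2 ^ y₂) (by positivity) (by positivity)
      (by positivity) (by positivity) (by positivity) (by positivity) hU1
      (one_le_pow₀ (by norm_num)) (one_le_pow₀ (by norm_num)) hA1 t1 h3' hnr h8'' h9 h9' hz00
    rw [← hde2] at hfin
    have e1 : g31 + g32 * (k21 + de) - (f1 + f2 * (k21 + de) + N3 / z0) =
        (g31 - f1) + (g32 - f2) * k21 + (g32 - f2) * de - N3 / z0 := by ring
    rw [e1, ← mul_div_assoc, le_div_iff₀ (by positivity), mul_comm (|_|)]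
    refine hfin.trans (mul_le_mul_of_nonneg_right ?_ (by positivity))
    calc (5 : ℝ) * U ^ 2 ≤ 2 ^ 3 * U ^ 2 := mul_le_mul_of_nonneg_right (by norm_num)
          (by positivity)
      _ = 2 ^ (3 + 2 * Z) := by
          rw [hU, ← pow_mul, ← pow_add]
          congr 1
          ring
      _ ≤ _ := p2 (by omega)
  · have k1 : 2 ^ g₀ k 3 * |g32 - f2| * 2 ^ (A - w k) ≤ 2 * U * 2 ^ y₂ * 2 ^ g₀ k 2 *
        2 ^ (A - w k) := by
      have e1 : (2 : ℝ) ^ (A - w k) * 2 ^ g₀ k 2 ≤ 2 ^ g₀ k 2 * 2 ^ (A - w k) * 2 ^ y₂ := by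
        rw [mul_comm ((2 : ℝ) ^ (A - w k))]
        exact le_mul_of_one_le_right (by positivity) (one_le_pow₀ (by norm_num))
      calc 2 ^ g₀ k 3 * |g32 - f2| * 2 ^ (A - w k) = 2 ^ g₀ k 3 * 2 ^ (A - w k) * |g32 - f2| := by
            ring
        _ ≤ U * (2 ^ gT k 2 + 2 ^ (A - w k) * 2 ^ g₀ k 2) := hB1
        _ ≤ U * (2 ^ g₀ k 2 * 2 ^ (A - w k) * 2 ^ y₂ + 2 ^ g₀ k 2 * 2 ^ (A - w k) * 2 ^ y₂) :=
            mul_le_mul_of_nonneg_left (add_le_add t2 e1) hU0.le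
        _ = _ := by ring
    have k2 := le_of_mul_le_mul_right k1 (by positivity)
    rw [← mul_div_assoc, le_div_iff₀ (by positivity), mul_comm (|_|)]
    refine k2.trans (mul_le_mul_of_nonneg_right ?_ (by positivity))
    calc 2 * U * 2 ^ y₂ = (2 : ℝ) ^ (1 + Z + y₂) := by
          rw [hU, pow_add 2 (1 + Z), pow_add 2 1]
          ring
      _ ≤ _ := p2 (by omega)
  · rw [← mul_div_assoc, le_div_iff₀ (by positivity), mul_comm (|_|)]
    exact h4'.trans (mul_le_mul_of_nonneg_right (by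
      rw [hU]
      exact p2 (by omega)) (by positivity))
  · rw [← hLw, ← hz0]
    exact hz0L

end Pool.TN
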