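import Pool.Agent.H88.D2.Kr3

/-!
# The component of the target in the direction of the static place two

`CEv.mu3`: from the relation in the corrected direction of the place one (`CEv.rel3`), the derivative
along the line gives the component of the target in the direction of the place two, if the component of
the place two in the direction of the place one moves.
-/

set_option autoImplicit false

namespace Pool.TN

open Finset Real MvPolynomial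
open Pool.Agent.H49.Ent Pool.Agent.H32.Dense Pool.STK Pool.KA Pool.KSAT Pool.K2S Pool.PB Pool.S6C
open Pool.GEN Pool.CHT Pool.CHX Pool.ISO Pool.D2R Pool.D2Z Pool.D2F
open Pool.LBT (ThrOf)
open Pool.FLF (Fam.sub)
open Pool.PB.Trl (rt rt_mem t_rt)
open Pool.D2T (sh sh_deg sh_rt sh_der_rt)

variable {m J : ℕ}

/-- The algebra of the derivative. -/
theorem mu3_alg {a b T Y V h32 f2 g32 Zd R mu x0 x d : ℝ} (ha : 0 < a) (hb : 0 < b) (hT : 1 ≤ T)
    (hY : 1 ≤ Y) (hV : 1 ≤ V) (hA : |h32 * Zd - R| ≤ V * (a * b)) (hR : R = (mu - f2) * x0 + f2 * Zd)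
    (hZ : Zd = x + d) (hx : b / T ≤ |x|) (hx0 : |x - x0| ≤ b / (T * Y * 2))
    (hd : |d| ≤ b / (T * Y * 2)) (hf : |h32 - f2| ≤ V * Y * a) (hg : |h32 - g32| ≤ V * a) :
    |mu - g32| ≤ 5 * V * T * a := by
  have hT0 : 0 < T := by linarith only [hT]
  have hY0 : 0 < Y := by linarith only [hY]
  have hV0 : 0 < V := by linarith only [hV]
  have k1 : |Zd - x0| ≤ b / (T * Y) := by
    have e1 : Zd - x0 = (x - x0) + d := by rw [hZ]; ring
    rw [e1]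
    refine (abs_add_le _ _).trans ((add_le_add hx0 hd).trans (le_of_eq ?_))
    field_simp
    ring
  have k2 : b / (2 * T) ≤ |x0| := by
    have e1 : |x| - |x - x0| ≤ |x0| := by
      have := abs_sub_abs_le_abs_sub x (x - x0)
      have e2 : x - (x - x0) = x0 := by ring
      rw [e2] at this
      exact this
    have e2 : b / (T * Y * 2) ≤ b / (2 * T) := by
      refine div_le_div_of_nonneg_left hb.le (by positivity) ?_
      have : T ≤ T * Y := le_mul_of_one_le_right hT0.le hY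
      linarith only [this]
    have e3 : b / T = b / (2 * T) + b / (2 * T) := by
      field_simp
      ring
    linarith only [e1, e2, e3, hx, hx0]
  have k3 : |(mu - h32) * x0| ≤ 2 * V * (a * b) := by
    have e1 : (mu - h32) * x0 = -(h32 * Zd - R) + (h32 - f2) * (Zd - x0) := by
      rw [hR]
      ring
    rw [e1]
    refine (abs_add_le _ _).trans ?_
    rw [abs_neg, abs_mul]
    have e2 : |h32 - f2| * |Zd - x0| ≤ V * Y * a * (b / (T * Y)) :=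
      mul_le_mul hf k1 (abs_nonneg _) (by positivity)
    have e3 : V * Y * a * (b / (T * Y)) ≤ V * (a * b) := by
      have e4 : V * Y * a * (b / (T * Y)) = V * (a * b) / T := by field_simp
      rw [e4]
      exact div_le_self (by positivity) hT
    linarith only [hA, e2, e3]
  have k4 : |mu - h32| ≤ 4 * V * T * a := by
    rw [abs_mul] at k3
    have e1 : |mu - h32| * (b / (2 * T)) ≤ 2 * V * (a * b) :=
      (mul_le_mul_of_nonneg_left k2 (abs_nonneg _)).trans k3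
    have e2 : |mu - h32| * (b / (2 * T)) = |mu - h32| * b / (2 * T) := by ring
    rw [e2, div_le_iff₀ (by positivity)] at e1
    have e3 : |mu - h32| * b ≤ 4 * V * T * a * b := by
      refine e1.trans (le_of_eq ?_)
      ring
    exact le_of_mul_le_mul_right e3 hb
  have e1 : mu - g32 = (mu - h32) + (h32 - g32) := by ring
  rw [e1]
  refine (abs_add_le _ _).trans ((add_le_add k4 hg).trans ?_)
  have : V * a ≤ V * a * T := le_mul_of_one_le_right (by positivity) hT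
  linarith only [this]

theorem nnF_deg {F : Fam m J} {c : ℕ → Fin m} {t q q₁ D : ℕ}
    {TH Φ : LnT F → ℕ → MvPolynomial (Option (Fin m)) ℝ}
    (h : ∀ s l, (TH s l).totalDegree ≤ D) (hΦ : ∀ s l, (Φ s l).totalDegree ≤ D) (s : LnT F) :
    (nnF c t q q₁ TH Φ s).natDegree ≤ 3 * D := by
  have h0 : ∀ (l j : ℕ), (kpol c t (ltr TH q l) s j).natDegree ≤ D := fun l j =>
    kpol_deg (F := F) c t (fun s => h (co q s) l) s j
  have h0' : ∀ (l j : ℕ), (kpol c t (ltr Φ q₁ l) s j).natDegree ≤ D := fun l j =>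
    kpol_deg (F := F) c t (fun s => hΦ (co q₁ s) l) s j
  have hd : ∀ {p : Polynomial ℝ} {n : ℕ}, p.natDegree ≤ n →
      (Polynomial.derivative p).natDegree ≤ n := fun hp =>
    (Polynomial.natDegree_derivative_le _).trans (by omega)
  have hm' : ∀ {p p' : Polynomial ℝ} {n n' : ℕ}, p.natDegree ≤ n → p'.natDegree ≤ n' →
      (p * p').natDegree ≤ n + n' := fun hp hp' =>
    Polynomial.natDegree_mul_le.trans (Nat.add_le_add hp hp')
  have ha : ∀ {p p' : Polynomial ℝ} {n : ℕ}, p.natDegree ≤ n → p'.natDegree ≤ n →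
      (p + p').natDegree ≤ n := fun hp hp' =>
    (Polynomial.natDegree_add_le _ _).trans (max_le hp hp')
  unfold nnF
  refine ha (ha ((hd (h0' 0 0)).trans (by omega))
      ((hm' (hd (h0' 0 1)) (h0 1 0)).trans (by omega)))
      ((hm' (hd (h0' 0 2)) (ha ((h0 2 0).trans (show D ≤ D + D by omega))
        (hm' (h0 2 1) (h0 1 0)))).trans (by omega))

theorem rhoR_deg {F : Fam m J} {c : ℕ → Fin m} {t q q₁ D : ℕ}
    {TH Φ : LnT F → ℕ → MvPolynomial (Option (Fin m)) ℝ}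
    (h : ∀ s l, (TH s l).totalDegree ≤ D) (hΦ : ∀ s l, (Φ s l).totalDegree ≤ D) (s : LnT F) :
    (rhoR c t q q₁ TH Φ s).natDegree ≤ 4 * D := by
  have h0' : ∀ (l j : ℕ), (kpol c t (ltr Φ q₁ l) s j).natDegree ≤ D := fun l j =>
    kpol_deg (F := F) c t (fun s => hΦ (co q₁ s) l) s j
  have h1 := lamU_deg (c := c) (t := t) (q := q) h s 1
  have h2 := nnF_deg (c := c) (t := t) (q := q) (q₁ := q₁) h hΦ s
  unfold rhoR
  refine (Polynomial.natDegree_add_le _ _).trans (max_le ((Polynomial.natDegree_add_le _ _).trans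
    (max_le ((h0' 0 1).trans (by omega)) (Polynomial.natDegree_mul_le.trans ?_)))
    ((Polynomial.natDegree_C_mul_le _ _).trans (by omega)))
  have := h0' 0 2
  omega

theorem muR_deg {F : Fam m J} {c : ℕ → Fin m} {t q q₁ D : ℕ}
    {TH Φ : LnT F → ℕ → MvPolynomial (Option (Fin m)) ℝ}
    (h : ∀ s l, (TH s l).totalDegree ≤ D) (hΦ : ∀ s l, (Φ s l).totalDegree ≤ D) (s : LnT F) :
    (muR c t q q₁ TH Φ s).natDegree ≤ 4 * D := by
  have h0' : ∀ (l j : ℕ), (kpol c t (ltr Φ q₁ l) s j).natDegree ≤ D := fun l j =>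
    kpol_deg (F := F) c t (fun s => hΦ (co q₁ s) l) s j
  have hd : ∀ {p : Polynomial ℝ} {n : ℕ}, p.natDegree ≤ n →
      (Polynomial.derivative p).natDegree ≤ n := fun hp =>
    (Polynomial.natDegree_derivative_le _).trans (by omega)
  have h1 := lamU_deg (c := c) (t := t) (q := q) h s 1
  have h2 := hd (nnF_deg (c := c) (t := t) (q := q) (q₁ := q₁) h hΦ s)
  have h3 := hd (h0' 0 1)
  have h4 := hd (h0' 0 2)
  unfold muR
  refine (Polynomial.natDegree_add_le _ _).trans (max_le ((h0' 0 2).trans (by omega))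
    ((Polynomial.natDegree_C_mul_le _ _).trans ((Polynomial.natDegree_add_le _ _).trans
    (max_le ((Polynomial.natDegree_add_le _ _).trans (max_le (h3.trans (by omega))
      (Polynomial.natDegree_mul_le.trans (by omega))))
      ((Polynomial.natDegree_C_mul_le _ _).trans (by omega))))))

/-- **The component of the target in the direction of the place two** is closed and natural. -/
theorem CEv.mu3 (m D : ℕ) (hD : 1 ≤ D) : ∃ C : ℕ, 1 ≤ C ∧ ∀ {J : ℕ} {F : Fam m J}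
    {c : ℕ → Fin m} {Dr N M A cl : ℕ} {Sc : ℕ → Prop} {w e h pp : ℕ → ℕ}
    {z g gc gT g₀ : ℕ → ℕ → ℕ} {κ θ : ℝ}
    {B : F.Ω → Prop} {G : ℕ → PtT F → ℕ → MvPolynomial (Option (Fin m)) ℝ}
    {H : ℕ → LnT F → ℕ → MvPolynomial (Option (Fin m)) ℝ}
    {T : ℕ → PtT F → ℕ → MvPolynomial (Option (Fin m)) ℝ}
    {TH : ℕ → LnT F → ℕ → MvPolynomial (Option (Fin m)) ℝ}
    {Gt : ℕ → PtT F → MvPolynomial (Option (Fin m)) ℝ}
    {Ht : ℕ → LnT F → MvPolynomial (Option (Fin m)) ℝ},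
    CEv F c 3 D Dr N M A cl Sc w e h pp z g gc gT g₀ κ B G H T TH Gt Ht →
    ∀ (hB : 0 < Pe F.p B) {i i₁ t k n Z t' y₂ : ℕ}, i ≤ N → i₁ ≤ N → t ≤ N → k ≤ N → w i ≤ w t →
      w i₁ ≤ w t → w t ≤ w k → cl ≤ pp k → cl ≤ gc k 3 → 0 ≤ θ → (Fam.sub F B hB).Tm θ →
      C * (θ + 1) ≤ ((J : ℝ) - w k) * Real.log 2 → Real.exp (C * (θ + 1)) ≤ 2 ^ n →
      (∀ ω, B ω → |gG G ω k 3 (some (c 1)) + gG G ω k 3 (some (c 2)) *
          (lamU c (w t) (w t - w i) (TH i) (slam F (w t) ω) 1).eval (rt F (w t) ω) -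
        (rhoR c (w t) (w t - w i) (w t - w i₁) (TH i) (fun s _ => Ht i₁ s)
          (slam F (w t) ω)).eval (rt F (w t) ω)| ≤ 2 ^ Z * (2 ^ g₀ k 1 / 2 ^ g₀ k 3) ∧
        |gG G ω k 3 (some (c 2)) - (kpol c (w t) (ltr (fun s _ => Ht i₁ s) (w t - w i₁) 0)
          (slam F (w t) ω) 2).eval (rt F (w t) ω)| ≤
          2 ^ (Z + y₂) * (2 ^ g₀ k 2 / 2 ^ g₀ k 3) ∧
        |(lamU c (w t) (w t - w i) (TH i) (slam F (w t) ω) 1).eval (rt F (w t) ω) -
          gG G ω k 2 (some (c 1))| ≤ 2 ^ Z * (2 ^ g₀ k 1 / 2 ^ g₀ k 2)) →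
      (∀ ω, B ω → 2 ^ (w k + g₀ k 1) / 2 ^ (g₀ k 2 + t') ≤
        |hs (TH i (slam F (w i) ω) 2) (bt F ω) (bd F ω) (uQ c)|) →
      (∀ ω, B ω → |2 ^ w t * (Polynomial.derivative (kpol c (w t) (ltr (TH i) (w t - w i) 2)
          (slam F (w t) ω) 1)).eval (rt F (w t) ω) -
        2 ^ w t * (Polynomial.derivative (kpol c (w t) (ltr (TH i) (w t - w i) 2)
          (slam F (w t) ω) 1)).eval 0| ≤ 2 ^ (w k + g₀ k 1) / 2 ^ (g₀ k 2 + (t' + y₂ + 1))) →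
      (∀ ω, B ω → |2 ^ w t * (Polynomial.derivative (dlU c (w t) (w t - w i) 2 (TH i)
          (slam F (w t) ω))).eval (rt F (w t) ω)| ≤
        2 ^ (w k + g₀ k 1) / 2 ^ (g₀ k 2 + (t' + y₂ + 1))) →
      ∃ B' : F.Ω → Prop, Sub B' B ∧ Pe F.p B / 2 ≤ Pe F.p B' ∧ ∀ ω, B' ω →
        |(muR c (w t) (w t - w i) (w t - w i₁) (TH i) (fun s _ => Ht i₁ s)
            (slam F (w t) ω)).eval (rt F (w t) ω) - gG G ω k 3 (some (c 2))| ≤
          2 ^ (C * (cl + n + Z + t' + 1)) * (2 ^ g₀ k 2 / 2 ^ g₀ k 3) := by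
  obtain ⟨C₁, hC₁, hrem⟩ := rem_fam m (4 * D) 1
  obtain ⟨C₂, hC₂, hmk⟩ := Pool.Agent.H40.BFL.unit_markov (4 * D)
  obtain ⟨C₃, hC₃⟩ := exists_nat_ge C₁
  obtain ⟨C₄, hC₄⟩ := pow_unbounded_of_one_lt C₂ (one_lt_two (α := ℝ))
  refine ⟨C₃ + C₄ + 40, by omega, ?_⟩
  intro J F c Dr N M A cl Sc w e h pp z g gc gT g₀ κ θ B G H T TH Gt Ht E hB i i₁ t k n Z t' y₂ hi
    hi1 ht hk hit hi1t htk hp hg hθ hTm hCJ hexp hR hlow hx0 hdl
  have hkJ : w k ≤ J := (E.wA k hk).trans E.AJ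
  have htJ : w t ≤ J := (E.wA t ht).trans E.AJ
  have hc3 : Set.InjOn c (Set.Iio 3) := E.inj.mono (Set.Iio_subset_Iio (by omega))
  have hc2 : Set.InjOn c (Set.Iio 2) := E.inj.mono (Set.Iio_subset_Iio (by omega))
  have hCC : C₁ * (θ + 1) ≤ ((C₃ + C₄ + 40 : ℕ) : ℝ) * (θ + 1) := by
    refine mul_le_mul_of_nonneg_right (hC₃.trans ?_) (by linarith)
    exact_mod_cast (by omega : C₃ ≤ C₃ + C₄ + 40)
  obtain ⟨d, hd⟩ : ∃ d, d = w t - w i := ⟨_, rfl⟩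
  obtain ⟨d₁, hd₁⟩ : ∃ d, d = w t - w i₁ := ⟨_, rfl⟩
  rw [← hd] at hR hx0 hdl ⊢
  rw [← hd₁] at hR ⊢
  -- the polynomials
  obtain ⟨lam, hlam⟩ : ∃ p : LnT F → Polynomial ℝ, p = fun s => lamU c (w t) d (TH i) s 1 :=
    ⟨_, rfl⟩
  obtain ⟨rho, hrho⟩ : ∃ p : LnT F → Polynomial ℝ,
    p = rhoR c (w t) d d₁ (TH i) (fun s _ => Ht i₁ s) := ⟨_, rfl⟩
  obtain ⟨H3, hH3⟩ : ∃ Q : LnT F → MvPolynomial (Option (Fin m)) ℝ,
    Q = Hno (c 3) (fun s => H k s 3) := ⟨_, rfl⟩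
  have hdT : ∀ s l, (TH i s l).totalDegree ≤ D := fun s l => (E.evs i hi).thin.degH s l
  have hdF : ∀ (s : LnT F) (_ : ℕ), (Ht i₁ s).totalDegree ≤ D := fun s _ => (E.evs i₁ hi1).dH s
  have hd3 : ∀ s, (H3 s).totalDegree ≤ D := fun s => by
    rw [hH3]
    exact deg_Hno _ _ _ hD ((E.evs k hk).ball.degH _ 3)
  have hp3 : ∀ s, DepC c 3 (H3 s) := fun s => by
    rw [hH3]
    exact depC_Hno _ _ _ ((E.evs k hk).ball.depH _ 3)
  have hlamd : ∀ s, (lam s).natDegree ≤ 3 * D := fun s => by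
    rw [hlam]
    exact lamU_deg hdT s 1
  have hrhod : ∀ s, (rho s).natDegree ≤ 4 * D := fun s => by
    rw [hrho]
    exact rhoR_deg hdT hdF s
  obtain ⟨q', hq'⟩ : ∃ q, q = w k - w t := ⟨_, rfl⟩
  obtain ⟨q, hq⟩ : ∃ q : ℕ → LnT F → Polynomial ℝ, q = fun _ s => kpol c (w k) H3 s 1 +
    kpol c (w k) H3 s 2 * sh q' lam s - sh q' rho s := ⟨_, rfl⟩
  have hqd : ∀ j' < 1, ∀ s, (q j' s).natDegree ≤ 4 * D := fun _ _ s => by
    rw [hq]
    have e1 := kpol_deg (F := F) c (w k) hd3 s 1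
    have e2 := kpol_deg (F := F) c (w k) hd3 s 2
    have e3 := sh_deg q' hlamd s
    refine (Polynomial.natDegree_sub_le _ _).trans (max_le ((Polynomial.natDegree_add_le _ _).trans
      (max_le (e1.trans (by omega)) (Polynomial.natDegree_mul_le.trans (by omega))))
      (sh_deg q' hrhod s))
  -- the numbers
  obtain ⟨n13, hn13⟩ : ∃ x : ℝ, x = 2 ^ g₀ k 1 / 2 ^ g₀ k 3 := ⟨_, rfl⟩
  obtain ⟨n23, hn23⟩ : ∃ x : ℝ, x = 2 ^ g₀ k 2 / 2 ^ g₀ k 3 := ⟨_, rfl⟩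
  obtain ⟨n12, hn12⟩ : ∃ x : ℝ, x = 2 ^ g₀ k 1 / 2 ^ g₀ k 2 := ⟨_, rfl⟩
  have p13 : 0 < n13 := by rw [hn13]; positivity
  have p23 : 0 < n23 := by rw [hn23]; positivity
  have p12 : 0 < n12 := by rw [hn12]; positivity
  have h123 : n12 * n23 = n13 := by
    rw [hn12, hn23, hn13]
    field_simp
  rw [← hn13, ← hn23, ← hn12] at hR
  rw [← hn23]
  obtain ⟨S, hS⟩ : ∃ S : ℝ, S = 2 ^ (cl + Z + 2) * n13 := ⟨_, rfl⟩
  have hS0 : 0 < S := by rw [hS]; positivity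
  have h1c : (1 : ℝ) ≤ 2 ^ cl := one_le_pow₀ (by norm_num)
  have h1Z : (1 : ℝ) ≤ 2 ^ Z := one_le_pow₀ (by norm_num)
  -- the vector
  obtain ⟨ζ, hζ⟩ : ∃ ζ : F.Ω → ℝ, ζ = fun ω => (lam (slam F (w t) ω)).eval (rt F (w t) ω) :=
    ⟨_, rfl⟩
  have hΓ : ∀ (ω : F.Ω) l, CvC c l (gG G ω k l) := fun ω l =>
    cvc_grd ((E.evs k hk).ball.depG _ l) _
  have hζ1 : ∀ ω, B ω → |ζ ω - gG G ω k 2 (some (c 1))| ≤ 2 ^ Z * n12 := fun ω hω => by
    rw [hζ, hlam]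
    exact (hR ω hω).2.2
  have henQ : ∀ ω, B ω → en c (g₀ k) (w k) (gG G ω k) 3 (tvc c 0 1 (ζ ω)) ≤
      2 ^ (Z + 1) * 2 ^ g₀ k 1 := fun ω hω => by
    rw [enx3 hc3 _ _ (hΓ ω) (tvc_n _ _ _ _), tvc_0, tvc_1 hc3, tvc_2 hc3, abs_zero, mul_zero,
      zero_add, mul_zero, sub_zero, abs_one, mul_one, mul_zero, zero_add, mul_one]
    have h3 := mul_le_mul_of_nonneg_left (hζ1 ω hω) (show (0 : ℝ) ≤ 2 ^ g₀ k 2 by positivity)
    have e1 : (2 : ℝ) ^ g₀ k 2 * (2 ^ Z * n12) = 2 ^ Z * 2 ^ g₀ k 1 := by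
      rw [hn12]
      field_simp
    rw [e1] at h3
    have e2 : (2 : ℝ) ^ (Z + 1) * 2 ^ g₀ k 1 = 2 ^ Z * 2 ^ g₀ k 1 + 2 ^ Z * 2 ^ g₀ k 1 := by
      rw [pow_succ]
      ring
    rw [e2]
    have e3 : (2 : ℝ) ^ g₀ k 1 ≤ 2 ^ Z * 2 ^ g₀ k 1 := le_mul_of_one_le_left (by positivity) h1Z
    linarith only [h3, e3]
  obtain ⟨h31, hh31⟩ : ∃ x : F.Ω → ℝ, x = fun ω => grd (H3 (slam F (w k) ω)) (bt F ω)
    (some (c 1)) := ⟨_, rfl⟩
  obtain ⟨h32, hh32⟩ : ∃ x : F.Ω → ℝ, x = fun ω => grd (H3 (slam F (w k) ω)) (bt F ω)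
    (some (c 2)) := ⟨_, rfl⟩
  have hdif : ∀ ω, B ω → ∀ V, V none = 0 → |cv (grd (H3 (slam F (w k) ω)) (bt F ω)) V -
      cv (gG G ω k 3) V| ≤ 2 ^ cl / 2 ^ g₀ k 3 * en c (g₀ k) (w k) (gG G ω k) 3 V :=
    fun ω hω V _ => by
      have h3 := ((E.row k hk k hk le_rfl 0 (by omega) (by omega)).dif ω hω 3 le_rfl).1 V
      rw [nrm_en, dd_sub] at h3
      have e0 : (fun j' => grd (G k (ptr F J ω) j') (bt F ω)) = gG G ω k := rfl
      rw [e0, ← cv_grd, ← cv_grd, ← hH3] at h3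
      exact h3
  have hcH : ∀ ω : F.Ω, CvC c 3 (grd (H3 (slam F (w k) ω)) (bt F ω)) := fun ω =>
    cvc_grd (hp3 _) _
  have hdQ : ∀ ω, B ω → |(h31 ω + h32 ω * ζ ω) - (gG G ω k 3 (some (c 1)) +
      gG G ω k 3 (some (c 2)) * ζ ω)| ≤ 2 ^ (cl + Z + 1) * n13 := fun ω hω => by
    have h3 := hdif ω hω (tvc c 0 1 (ζ ω)) (tvc_n _ _ _ _)
    rw [cvx3 hc3 (hcH ω) (tvc_n _ _ _ _), cvx3 hc3 (hΓ ω 3) (tvc_n _ _ _ _), tvc_0, tvc_1 hc3,
      tvc_2 hc3, mul_zero, mul_zero, zero_add, zero_add, mul_one, mul_one] at h3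
    rw [hh31, hh32]
    refine h3.trans ((mul_le_mul_of_nonneg_left (henQ ω hω) (by positivity)).trans (le_of_eq ?_))
    rw [hn13, show cl + Z + 1 = cl + (Z + 1) by ring, pow_add 2 cl (Z + 1)]
    ring
  have hd32 : ∀ ω, B ω → |h32 ω - gG G ω k 3 (some (c 2))| ≤ 2 ^ cl * n23 := fun ω hω => by
    have h3 := hdif ω hω (tvc c 0 0 1) (tvc_n _ _ _ _)
    rw [cvx3 hc3 (hcH ω) (tvc_n _ _ _ _), cvx3 hc3 (hΓ ω 3) (tvc_n _ _ _ _),
      enx3 hc3 _ _ (hΓ ω) (tvc_n _ _ _ _), tvc_0, tvc_1 hc3,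
      tvc_2 hc3, mul_zero, mul_zero, mul_zero, mul_zero, zero_add, zero_add, mul_one, mul_one,
      zero_add, mul_zero, sub_zero, abs_zero, mul_zero, mul_zero, zero_add, zero_add, mul_zero,
      mul_zero, add_zero, sub_zero, abs_one, mul_one] at h3
    rw [hh32, hn23]
    refine h3.trans (le_of_eq ?_)
    ring
  obtain ⟨B', c1, c2, c3⟩ := hrem J F B hB (w k) q (fun _ => S) θ hkJ hqd (fun _ _ => hS0) hθ hTm
    (hCC.trans hCJ) (fun ω hω _ _ => by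
      rw [hq]
      beta_reduce
      rw [Polynomial.eval_sub, Polynomial.eval_add, Polynomial.eval_mul, hq',
        sh_rt F htk hkJ lam ω, sh_rt F htk hkJ rho ω, kpol_rt F c hkJ H3 ω 1,
        kpol_rt F c hkJ H3 ω 2]
      have b1 := (hR ω hω).1
      have b2 := hdQ ω hω
      rw [hh31, hh32, hζ] at b2
      beta_reduce at b2
      have e1 : (lamU c (w t) d (TH i) (slam F (w t) ω) 1).eval (rt F (w t) ω) =
          (lam (slam F (w t) ω)).eval (rt F (w t) ω) := by rw [hlam]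
      rw [e1, ← hrho] at b1
      obtain ⟨v1, hv1⟩ : ∃ x, x = grd (H3 (slam F (w k) ω)) (bt F ω) (some (c 1)) +
        grd (H3 (slam F (w k) ω)) (bt F ω) (some (c 2)) *
          (lam (slam F (w t) ω)).eval (rt F (w t) ω) := ⟨_, rfl⟩
      obtain ⟨v2, hv2⟩ : ∃ x, x = gG G ω k 3 (some (c 1)) + gG G ω k 3 (some (c 2)) *
        (lam (slam F (w t) ω)).eval (rt F (w t) ω) := ⟨_, rfl⟩
      rw [← hv1] at b2 ⊢
      rw [← hv2] at b1 b2
      have e2 : v1 - (rho (slam F (w t) ω)).eval (rt F (w t) ω) = (v1 - v2) +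
          (v2 - (rho (slam F (w t) ω)).eval (rt F (w t) ω)) := by ring
      rw [e2]
      refine (abs_add_le _ _).trans ((add_le_add b2 b1).trans ?_)
      rw [← add_mul, hS]
      refine mul_le_mul_of_nonneg_right ?_ p13.le
      have f1 : (2 : ℝ) ^ Z ≤ 2 ^ (cl + Z + 1) := p2 (by omega)
      have f3 : (2 : ℝ) ^ (cl + Z + 2) = 2 ^ (cl + Z + 1) * 2 := pow_succ _ _
      linarith only [f1, f3])
  refine ⟨B', c1, c2, fun ω hω => ?_⟩
  have hωB := c1 ω hω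
  have hsup : ∀ τ ∈ Set.Icc (0 : ℝ) 1, |(q 0 (slam F (w k) ω)).eval τ| ≤ 2 ^ n * S :=
    fun τ hτ => (c3 ω hω 0 (by norm_num) τ hτ).trans (mul_le_mul_of_nonneg_right
      ((Real.exp_le_exp.2 hCC).trans hexp) hS0.le)
  have hder := hmk _ (2 ^ n * S) (hqd 0 (by norm_num) _) hsup (rt F (w k) ω) (rt_mem F (w k) ω)
  -- the derivative at the sample
  obtain ⟨s, hsd⟩ : ∃ s, s = slam F (w t) ω := ⟨_, rfl⟩
  obtain ⟨τ, hτ⟩ : ∃ τ, τ = rt F (w t) ω := ⟨_, rfl⟩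
  obtain ⟨Zd, hZd⟩ : ∃ x, x = 2 ^ w t * (Polynomial.derivative (lam s)).eval τ := ⟨_, rfl⟩
  obtain ⟨R, hRd⟩ : ∃ x, x = 2 ^ w t * (Polynomial.derivative (rho s)).eval τ := ⟨_, rfl⟩
  have hpk : (2 : ℝ) ^ w k = 2 ^ w t * 2 ^ q' := by rw [← pow_add, hq', Nat.add_sub_cancel' htk]
  have hder2 : 2 ^ w k * (Polynomial.derivative (q 0 (slam F (w k) ω))).eval (rt F (w k) ω) =
      hs (H3 (slam F (w k) ω)) (bt F ω) (bd F ω) (tvc c 0 1 (ζ ω)) + (h32 ω * Zd - R) := by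
    have h4 := kpol_hs F (c := c) (l := 3) (t := w k) hc3 hkJ (Q := H3) hp3 ω
      (V := tvc c 0 1 (ζ ω)) (tvc_n _ _ _ _)
    rw [Finset.sum_range_succ, Finset.sum_range_succ, Finset.sum_range_one, tvc_0, tvc_1 hc3,
      tvc_2 hc3, mul_zero, zero_add, mul_one] at h4
    have h5 : hs (H3 (slam F (w k) ω)) (bt F ω) (bd F ω) (tvc c 0 1 (ζ ω)) = 2 ^ w k *
        (1 / 2 ^ w k * hs (H3 (slam F (w k) ω)) (bt F ω) (bd F ω) (tvc c 0 1 (ζ ω))) := by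
      field_simp
    rw [h5, ← h4, hq]
    beta_reduce
    rw [Polynomial.derivative_sub, Polynomial.derivative_add, Polynomial.derivative_mul,
      Polynomial.eval_sub, Polynomial.eval_add, Polynomial.eval_add, Polynomial.eval_mul,
      Polynomial.eval_mul, hq', sh_der_rt F htk hkJ lam ω, sh_der_rt F htk hkJ rho ω,
      sh_rt F htk hkJ lam ω, kpol_rt F c hkJ H3 ω 2, ← hq', ← hsd, ← hτ]
    have e1 : (lam s).eval τ = ζ ω := by rw [hζ, hsd, hτ]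
    have e2 : grd (H3 (slam F (w k) ω)) (bt F ω) (some (c 2)) = h32 ω := by rw [hh32]
    rw [e1, e2, hZd, hRd, hpk]
    field_simp
    ring
  obtain ⟨Wn, hWn⟩ : ∃ x : ℝ, x = 2 ^ w k * n12 := ⟨_, rfl⟩
  have hWn0 : 0 < Wn := by rw [hWn]; positivity
  have hW13 : 2 ^ w k * n13 = n23 * Wn := by
    rw [hWn, ← h123]
    ring
  obtain ⟨Vx, hVx⟩ : ∃ x : ℕ, x = C₄ + n + 3 * cl + Z + 12 := ⟨_, rfl⟩
  obtain ⟨V, hV⟩ : ∃ x : ℝ, x = 2 ^ Vx := ⟨_, rfl⟩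
  have hV1 : 1 ≤ V := by rw [hV]; exact one_le_pow₀ (by norm_num)
  have hA : |h32 ω * Zd - R| ≤ V * (n23 * Wn) := by
    have b1 := E.zG hk hp hg hωB (l := 3) le_rfl (tvc c 0 1 (ζ ω))
    rw [← hH3] at b1
    have b2 := mul_le_mul_of_nonneg_left hder (show (0 : ℝ) ≤ 2 ^ w k by positivity)
    rw [← abs_of_pos (show (0 : ℝ) < 2 ^ w k by positivity), ← abs_mul,
      abs_of_pos (show (0 : ℝ) < 2 ^ w k by positivity), hder2] at b2
    obtain ⟨x1, hx1⟩ : ∃ x, x = hs (H3 (slam F (w k) ω)) (bt F ω) (bd F ω) (tvc c 0 1 (ζ ω)) :=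
      ⟨_, rfl⟩
    rw [← hx1] at b1 b2
    have e1 : h32 ω * Zd - R = (x1 + (h32 ω * Zd - R)) - x1 := by ring
    rw [e1]
    refine (abs_sub _ _).trans ((add_le_add b2 (b1.trans (mul_le_mul_of_nonneg_left
      (henQ ω hωB) (by positivity)))).trans ?_)
    have e2 : (2 : ℝ) ^ (3 * cl + 2 * 3 + 2) * 2 ^ w k / 2 ^ g₀ k 3 * (2 ^ (Z + 1) * 2 ^ g₀ k 1) =
        2 ^ (3 * cl + Z + 9) * (n23 * Wn) := by
      rw [← hW13, hn13, show 3 * cl + Z + 9 = (3 * cl + 2 * 3 + 2) + (Z + 1) by ring,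
        pow_add 2 (3 * cl + 2 * 3 + 2) (Z + 1)]
      ring
    have e3 : 2 ^ w k * (C₂ * (2 ^ n * S)) ≤ 2 ^ (C₄ + n + cl + Z + 2) * (n23 * Wn) := by
      rw [← hW13, hS]
      calc 2 ^ w k * (C₂ * (2 ^ n * (2 ^ (cl + Z + 2) * n13))) =
            C₂ * (2 ^ n * 2 ^ (cl + Z + 2)) * (2 ^ w k * n13) := by ring
        _ ≤ 2 ^ C₄ * (2 ^ n * 2 ^ (cl + Z + 2)) * (2 ^ w k * n13) :=
            mul_le_mul_of_nonneg_right (mul_le_mul_of_nonneg_right hC₄.le (by positivity))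
              (by positivity)
        _ = _ := by
            rw [← pow_add, ← pow_add]
            congr 2
            ring
    rw [e2]
    refine (add_le_add e3 le_rfl).trans ?_
    rw [← add_mul]
    refine mul_le_mul_of_nonneg_right ?_ (by positivity)
    have f1 : (2 : ℝ) ^ (C₄ + n + cl + Z + 2) ≤ 2 ^ (C₄ + n + 3 * cl + Z + 9) := p2 (by omega)
    have f2 : (2 : ℝ) ^ (3 * cl + Z + 9) ≤ 2 ^ (C₄ + n + 3 * cl + Z + 9) := p2 (by omega)
    have f3 : (2 : ℝ) ^ (C₄ + n + 3 * cl + Z + 9) * 2 ≤ V := by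
      rw [hV, ← pow_succ]
      exact p2 (by omega)
    linarith only [f1, f2, f3]
  -- the closed formula
  obtain ⟨f2, hf2⟩ : ∃ x, x = (kpol c (w t) (ltr (fun s (_ : ℕ) => Ht i₁ s) d₁ 0) s 2).eval τ :=
    ⟨_, rfl⟩
  obtain ⟨x, hx⟩ : ∃ x, x = 2 ^ w t * (Polynomial.derivative
    (kpol c (w t) (ltr (TH i) d 2) s 1)).eval τ := ⟨_, rfl⟩
  obtain ⟨xp, hxp⟩ : ∃ x, x = (Polynomial.derivative
    (kpol c (w t) (ltr (TH i) d 2) s 1)).eval 0 := ⟨_, rfl⟩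
  obtain ⟨dl, hdl'⟩ : ∃ x, x = 2 ^ w t * (Polynomial.derivative
    (dlU c (w t) d 2 (TH i) s)).eval τ := ⟨_, rfl⟩
  obtain ⟨mu, hmu⟩ : ∃ x, x = (muR c (w t) d d₁ (TH i) (fun s _ => Ht i₁ s) s).eval τ :=
    ⟨_, rfl⟩
  have hxv : x = hs (TH i (slam F (w i) ω) 2) (bt F ω) (bd F ω) (uQ c) := by
    have e1 := kpol_der F c htJ (ltr (TH i) d 2) ω 1
    rw [hx, hsd, hτ, e1, hd, ltr_slam F (TH i) hit htJ 2 ω,
      ← hs_uQ hc2 ((E.evs i hi).thin.depH _ 2)]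
    field_simp
  have hlowx := hlow ω hωB
  rw [← hxv] at hlowx
  have hx0' := hx0 ω hωB
  rw [← hsd, ← hτ, ← hx, ← hxp] at hx0'
  have hdlx := hdl ω hωB
  rw [← hsd, ← hτ, ← hdl'] at hdlx
  have hWe : (2 : ℝ) ^ (w k + g₀ k 1) = Wn * 2 ^ g₀ k 2 := by
    rw [hWn, hn12, pow_add]
    field_simp
  have hT1 : (2 : ℝ) ^ (w k + g₀ k 1) / 2 ^ (g₀ k 2 + t') = Wn / 2 ^ t' := by
    rw [hWe, pow_add 2 (g₀ k 2)]
    field_simp
  have hT2 : (2 : ℝ) ^ (w k + g₀ k 1) / 2 ^ (g₀ k 2 + (t' + y₂ + 1)) =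
      Wn / (2 ^ t' * 2 ^ y₂ * 2) := by
    rw [hWe, pow_add 2 (g₀ k 2), pow_succ 2 (t' + y₂), pow_add 2 t']
    field_simp
  rw [hT1] at hlowx
  rw [hT2] at hx0' hdlx
  have hxp0 : xp ≠ 0 := by
    intro h0
    rw [h0, mul_zero, sub_zero] at hx0'
    have f1 : Wn / (2 ^ t' * 2 ^ y₂ * 2) ≤ Wn / 2 ^ t' / 2 := by
      rw [div_div]
      refine div_le_div_of_nonneg_left hWn0.le (by positivity) ?_
      have : (1 : ℝ) ≤ 2 ^ y₂ := one_le_pow₀ (by norm_num)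
      have := le_mul_of_one_le_right (show (0 : ℝ) ≤ 2 ^ t' by positivity) this
      linarith only [this]
    have f2 : 0 < Wn / 2 ^ t' := by positivity
    linarith only [f1, f2, hx0', hlowx]
  have hZs : Zd = x + dl := by
    have e1 : lam s = kpol c (w t) (ltr (TH i) d 2) s 1 + dlU c (w t) d 2 (TH i) s := by
      rw [hlam]
      unfold lamU
      beta_reduce
      rw [if_neg (by norm_num)]
    rw [hZd, e1, Polynomial.derivative_add, Polynomial.eval_add, hx, hdl']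
    ring
  have hRs : R = (mu - f2) * (2 ^ w t * xp) + f2 * Zd := by
    rw [hRd, hZd, hmu, hrho]
    unfold rhoR muR
    rw [Polynomial.derivative_add, Polynomial.derivative_add, Polynomial.derivative_mul,
      Polynomial.derivative_C_mul, ← hxp]
    have e1 : lamU c (w t) d (TH i) s 1 = lam s := by rw [hlam]
    rw [e1]
    simp only [Polynomial.eval_add, Polynomial.eval_mul, Polynomial.eval_C]
    rw [← hf2]
    field_simp
    ring
  have hff : |h32 ω - f2| ≤ V * 2 ^ y₂ * n23 := by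
    have b1 := (hR ω hωB).2.1
    rw [← hsd, ← hτ, ← hf2] at b1
    have b2 := hd32 ω hωB
    have e1 : h32 ω - f2 = (h32 ω - gG G ω k 3 (some (c 2))) +
      (gG G ω k 3 (some (c 2)) - f2) := by ring
    rw [e1]
    refine (abs_add_le _ _).trans ((add_le_add b2 b1).trans ?_)
    rw [← add_mul]
    refine mul_le_mul_of_nonneg_right ?_ p23.le
    have f1 : (2 : ℝ) ^ cl ≤ 2 ^ (cl + Z + y₂) := p2 (by omega)
    have f2 : (2 : ℝ) ^ (Z + y₂) ≤ 2 ^ (cl + Z + y₂) := p2 (by omega)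
    have f3 : (2 : ℝ) ^ (cl + Z + y₂) * 2 ≤ V * 2 ^ y₂ := by
      rw [hV, ← pow_succ, ← pow_add]
      exact p2 (by omega)
    linarith only [f1, f2, f3]
  have hgg : |h32 ω - gG G ω k 3 (some (c 2))| ≤ V * n23 :=
    (hd32 ω hωB).trans (mul_le_mul_of_nonneg_right (by rw [hV]; exact p2 (by omega)) p23.le)
  have hfin := mu3_alg (a := n23) (b := Wn) (T := 2 ^ t') (Y := 2 ^ y₂) (V := V)
    p23 hWn0 (one_le_pow₀ (by norm_num)) (one_le_pow₀ (by norm_num)) hV1 hA hRs hZs hlowx hx0'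
    hdlx hff hgg
  rw [← hsd, ← hτ, ← hmu]
  refine hfin.trans (mul_le_mul_of_nonneg_right ?_ p23.le)
  have e5 : (5 : ℝ) * V * 2 ^ t' ≤ 2 ^ 3 * V * 2 ^ t' :=
    mul_le_mul_of_nonneg_right (mul_le_mul_of_nonneg_right (by norm_num) (by positivity))
      (by positivity)
  refine e5.trans ?_
  rw [hV, ← pow_add, ← pow_add]
  refine p2 ?_
  have h5 : (C₃ + C₄ + 40) * (cl + n + Z + t' + 1) = C₃ * (cl + n + Z + t' + 1) +
      C₄ * (cl + n + Z + t' + 1) + 40 * (cl + n + Z + t' + 1) := by ring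
  have h6 : C₄ ≤ C₄ * (cl + n + Z + t' + 1) := Nat.le_mul_of_pos_right _ (by omega)
  omega

end Pool.TN
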