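import Pool.Agent.H88.D2.Kr4
import Pool.Agent.H88.D2.Sse

/-!
# The end of the cell with two static coordinates of slopes two and three

`ss3_end`: over one rough coordinate and two static ones, if the component of the static place two in
the direction of the place one is natural at all balls, the event is small.
-/

set_option autoImplicit false

namespace Pool.TN

open Finset Real MvPolynomial
open Pool.Agent.H49.Ent Pool.Agent.H32.Dense Pool.STK Pool.KA Pool.KSAT Pool.K2S Pool.PB Pool.S6C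
open Pool.GEN Pool.CHT Pool.CHX Pool.ISO Pool.D2R Pool.D2Z Pool.D2F
open Pool.LBT (ThrOf)
open Pool.FLF (Fam.sub)
open Pool.PB.Trl (rt rt_mem t_rt)

variable {m : ℕ}

theorem NumSS.mono {J N A cl X Q Q' y y₂ : ℕ} {w e pp : ℕ → ℕ} {gc gT g₀ : ℕ → ℕ → ℕ}
    {i₀ i₁ i₂ i₃ a₁ e₁ b0 b1 : ℕ}
    (n : NumSS J N A cl X Q y y₂ w e pp gc gT g₀ i₀ i₁ i₂ i₃ a₁ e₁ b0 b1) (h : Q' ≤ Q) :
    NumSS J N A cl X Q' y y₂ w e pp gc gT g₀ i₀ i₁ i₂ i₃ a₁ e₁ b0 b1 :=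
  { n with
    l0 := by have := n.l0; omega
    l3 := by have := n.l3; omega
    g0 := by have := n.g0; omega
    rm := fun l hl => by have := n.rm l hl; omega
    ef := by have := n.ef; omega
    va := by have := n.va; omega }

theorem NumE.mono {r J t K at' wt' eb' bt' e Q Q' : ℕ} {g : ℕ → ℕ}
    (n : NumE r J t K at' wt' eb' bt' e Q g) (h : Q' ≤ Q) :
    NumE r J t K at' wt' eb' bt' e Q' g :=
  { n with
    n1 := by have := n.n1; omega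
    n2 := fun l hl => by have := n.n2 l hl; omega
    n4 := fun l hl => h.trans (n.n4 l hl)
    n6 := by have := n.n6; omega }

theorem SNum.mono {J r N A cl X Q Q' : ℕ} {w e pp : ℕ → ℕ} {gc gT g₀ : ℕ → ℕ → ℕ}
    {i k j l a₁ e₁ b0 b2 : ℕ} (n : SNum J r N A cl X Q w e pp gc gT g₀ i k j l a₁ e₁ b0 b2)
    (h : Q' ≤ Q) : SNum J r N A cl X Q' w e pp gc gT g₀ i k j l a₁ e₁ b0 b2 :=
  { n with
    ex := by
      obtain ⟨E₁, h1, h2, h3, h4⟩ := n.ex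
      exact ⟨E₁, h1, h2, by omega, by omega⟩
    g0 := fun x hx => by have := n.g0 x hx; omega
    rm := fun x hx => by have := n.rm x hx; omega
    ef := by have := n.ef; omega
    wt := by have := n.wt; omega }

/-- **The numbers of the cell with two static places** of slopes two and three: `i₀` the anchor, `t` the
window of the row label and of the line, `k` the ball, `j` a finer ball, `l` the last ball. -/
structure NumS3 (J N A cl X Q y y₂ : ℕ) (w e pp : ℕ → ℕ) (gc gT g₀ : ℕ → ℕ → ℕ)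
    (i₀ t k j l a₁ e₁ b0 b1 b2 : ℕ) : Prop where
  ss : NumSS J N A cl X Q y y₂ w e pp gc gT g₀ i₀ t t k a₁ e₁ b0 b1
  st : SNum J 3 N A cl X Q w e pp gc gT g₀ i₀ k j l a₁ e₁ b0 b2
  q0 : gT l 1 + g₀ i₀ 2 ≤ g₀ l 2 + (A - w l) + g₀ i₀ 1 + X ∧
    g₀ l 1 + g₀ i₀ 2 ≤ g₀ l 2 + g₀ i₀ 1 + X
  v1 : w i₀ + g₀ i₀ 1 + g₀ k 2 + y₂ + Q ≤ w k + g₀ k 1 + g₀ i₀ 2 + (w t - w i₀)
  v2 : w i₀ + y₂ + Q ≤ w k

/-- **The end of the cell with two static coordinates** of slopes two and three. -/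
theorem ss3_end (m D : ℕ) (hD : 1 ≤ D) : ∃ C : ℕ, 1 ≤ C ∧
    ∀ {θ : ℝ} {S : PCl m} {P : List (Fin m) × Fin m → ℝ → ℝ → ℝ} (_ : ThrOf (chsys m θ) S P)
    (_ : TmH S) (c : ℕ → Fin m) (_ : Set.InjOn c (Set.Iio (3 + 1))) (a₁ : ℚ) (e₁ h₁ : ℝ)
    (_ : 0 ≤ a₁) (_ : a₁ < 1) (_ : e₁ < θ * a₁) (_ : 0 < h₁) (_ : bet P c 0 a₁ a₁ + h₁ ≤ 1)
    (_ : bet P c 1 a₁ a₁ + h₁ ≤ 1) (_ : bet P c 2 a₁ a₁ + h₁ ≤ 1) (a w' : ℚ)
    (b eb h' ε κ₀ : ℝ) (_ : 0 ≤ w') (_ : w' ≤ a) (_ : a ≤ 1) (_ : b < 1) (_ : eb < θ * w')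
    (_ : 0 < h') (_ : bet P c 3 a w' + h' ≤ 1) (_ : 0 < ε) (_ : 0 < κ₀),
    Bas S (fun J F A₀ => ∀ {Dr N M A cl : ℕ} {Sc : ℕ → Prop} {w e h pp : ℕ → ℕ}
      {z g gc gT g₀ : ℕ → ℕ → ℕ} {κ : ℝ} {B : F.Ω → Prop}
      {G : ℕ → PtT F → ℕ → MvPolynomial (Option (Fin m)) ℝ}
      {H : ℕ → LnT F → ℕ → MvPolynomial (Option (Fin m)) ℝ}
      {T : ℕ → PtT F → ℕ → MvPolynomial (Option (Fin m)) ℝ}
      {TH : ℕ → LnT F → ℕ → MvPolynomial (Option (Fin m)) ℝ}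
      {Gt : ℕ → PtT F → MvPolynomial (Option (Fin m)) ℝ}
      {Ht : ℕ → LnT F → MvPolynomial (Option (Fin m)) ℝ},
      CEv F c 3 D Dr N M A cl Sc w e h pp z g gc gT g₀ κ B G H T TH Gt Ht → Sub B A₀ →
      ε * J ≤ cl → C ≤ cl → ¬ Sc 0 → Sc 1 → Sc 2 →
      ∀ {i₀ t k j l X Y y y₂ : ℕ},
      NumS3 J N A cl X (C * (cl + X + Y + 1)) y y₂ w e pp gc gT g₀ i₀ t k j l
        ⌊(a₁ : ℝ) * J⌋₊ ⌊e₁ * J⌋₊ ⌊(bet P c 0 a₁ a₁ + h₁) * J⌋₊ ⌊(bet P c 1 a₁ a₁ + h₁) * J⌋₊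
        ⌊(bet P c 2 a₁ a₁ + h₁) * J⌋₊ →
      (∀ ω, B ω → ∀ x, x = i₀ ∨ x = k ∨ x = j →
        |gG G ω l 2 (some (c 1)) - gG G ω x 2 (some (c 1))| ≤
          2 ^ Y * (2 ^ g₀ x 1 / 2 ^ g₀ x 2)) →
      (w k : ℝ) ≤ b * J →
      NumE 3 J (w t) (w k) ⌊(a : ℝ) * J⌋₊ ⌊(w' : ℝ) * J⌋₊ ⌊eb * J⌋₊
        ⌊(bet P c 3 a w' + h') * J⌋₊ (e k) (C * (cl + X + Y + 1)) (g₀ k) →
      Pe F.p B < κ₀ * Pe F.p A₀) := by
  classical
  obtain ⟨C₁, hC₁, hone⟩ := sta_one m D 3 hD (by norm_num)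
  obtain ⟨C₂, hC₂, hzv⟩ := CEv.zvar m D 3 (by norm_num)
  obtain ⟨C₃, hC₃, hdq⟩ := CEv.dq m D 3 hD le_rfl
  obtain ⟨C₄, hC₄, hrv⟩ := CEv.rvar m D 3 le_rfl
  obtain ⟨C₅, hC₅, hst⟩ := sta_st m D 3 hD le_rfl
  obtain ⟨C₆, hC₆, hrel⟩ := CEv.rel3
  obtain ⟨C₇, hC₇, hmu3⟩ := CEv.mu3 m D hD
  obtain ⟨C₈, hC₈, hse⟩ := ss_end m D (4 * D) hD
  obtain ⟨C₉, hC₉, hu4⟩ := CEv.u4 3 le_rfl
  obtain ⟨Ca, hCa⟩ : ∃ Ca, Ca = C₆ * (C₁ + 8) := ⟨_, rfl⟩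
  obtain ⟨Cb, hCb⟩ : ∃ Cb, Cb = C₇ * (Ca + 2 * C₅ + 3) := ⟨_, rfl⟩
  obtain ⟨C, hC⟩ : ∃ C, C = C₈ * (Cb + 2) + 2 * C₁ + 2 * C₂ + 2 * C₃ + C₄ + 2 * C₅ + C₉ + Cb +
      40 := ⟨_, rfl⟩
  have hC8C : C₈ ≤ C := by
    rw [hC]
    nlinarith [Nat.zero_le (C₈ * Cb)]
  refine ⟨C, by omega, ?_⟩
  intro θ S P hP hT c hc a₁ e₁ h₁ ha0 ha1 he1 hh1 hb0 hb1 hb2 a w' b eb h' ε κ₀ hw0 hwa ha hb he hh
    h2 hε hκ
  have hL2 : 0 < Real.log 2 := Real.log_pos (by norm_num)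
  have haR : (a₁ : ℝ) < 1 := by exact_mod_cast ha1
  have ha0R : (0 : ℝ) ≤ a₁ := by exact_mod_cast ha0
  obtain ⟨μ, hμ⟩ : ∃ μ : ℝ, μ = min ε (1 - a₁) * Real.log 2 / 2 := ⟨_, rfl⟩
  have hμ0 : 0 < μ := by
    rw [hμ]
    have : 0 < min ε (1 - (a₁ : ℝ)) := lt_min hε (by linarith only [haR])
    positivity
  obtain ⟨Cm, hCm⟩ : ∃ Cm, Cm = C₂ + C₃ + C₄ + C₇ := ⟨_, rfl⟩
  have hCm1 : (1 : ℝ) ≤ Cm := by exact_mod_cast (by omega : 1 ≤ Cm)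
  have hCm0 : (0 : ℝ) < Cm := by linarith only [hCm1]
  obtain ⟨ε₁, hε₁⟩ : ∃ ε₁ : ℝ, ε₁ = μ / Cm := ⟨_, rfl⟩
  have hε₁0 : 0 < ε₁ := by rw [hε₁]; positivity
  have htm := bas_ev (hT.2 ε₁ hε₁0) (κ := κ₀ / 64) (by positivity)
  have hpos : Bas S (fun _ F A => 0 < Pe F.p A) := ⟨1, one_pos, 0, fun J _ F A hA =>
    hT.1 1 J F A hA⟩
  obtain ⟨J₁, hJ₁⟩ := exists_nat_ge ((Cm : ℝ) / μ)
  refine Bas.mono J₁ (((((hone hP hT c hc a₁ e₁ h₁ ε (κ₀ / 8) ha0 ha1 he1 hh1 hb0 hb1 hε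
    (by positivity)).and htm).and hpos).and
    (hse hP hT c hc a₁ e₁ h₁ ha0 ha1 he1 hh1 hb0 hb1 a w' b eb h' ε (κ₀ / 64) hw0 hwa ha hb he hh
      h2 hε (by positivity))).and (hst hP hT c hc a₁ e₁ h₁ ε (κ₀ / 32) ha0 ha1 he1 hh1 hb0 hb2 hε
      (by positivity))) ?_
  rintro J hJ F A₀ ⟨⟨⟨⟨hoA, htA⟩, hA0⟩, hseA⟩, hstA⟩
  intro Dr N M A cl Sc w e h pp z g gc gT g₀ κ B G H T TH Gt Ht E hBA hεc hCc hs0 hs1 hs2 i₀ t k j
    l X Y y y₂ n hch hbJ ne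
  by_contra hcon
  rw [not_lt] at hcon
  have hpn := Pe_nonneg F.isLaw
  have hB0 : 0 < Pe F.p B := (mul_pos hκ hA0).trans_le hcon
  have hJ0 : (0 : ℝ) ≤ J := Nat.cast_nonneg J
  -- the numbers
  obtain ⟨q, hq⟩ : ∃ q, q = cl + X + Y + 1 := ⟨_, rfl⟩
  obtain ⟨S', hS'⟩ : ∃ S', S' = cl + X + 1 := ⟨_, rfl⟩
  rw [← hq] at n ne
  have hSq : S' ≤ q := by omega
  have hCq : C * q = C₈ * (Cb + 2) * q + 2 * (C₁ * q) + 2 * (C₂ * q) + 2 * (C₃ * q) + C₄ * q +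
      2 * (C₅ * q) + C₉ * q + Cb * q + 40 * q := by
    rw [hC]
    ring
  obtain ⟨Q, hQ⟩ : ∃ Q, Q = C * q := ⟨_, rfl⟩
  rw [← hQ] at n ne hCq
  have hC8q : C₈ * q ≤ C₈ * (Cb + 2) * q := Nat.mul_le_mul_right _
    (Nat.le_mul_of_pos_right _ (by omega))
  obtain ⟨t₀, ht₀⟩ : ∃ t, t = C₁ * S' := ⟨_, rfl⟩
  have ht₀q : t₀ ≤ C₁ * q := by rw [ht₀]; exact Nat.mul_le_mul_left _ hSq
  obtain ⟨Y', hY'⟩ : ∃ x, x = 6 * S' + Y := ⟨_, rfl⟩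
  obtain ⟨t', ht'⟩ : ∃ x, x = 2 * (C₅ * q) := ⟨_, rfl⟩
  obtain ⟨Zr, hZr⟩ : ∃ x, x = C₆ * (cl + X + t₀ + Y' + 1) := ⟨_, rfl⟩
  have hZrq : Zr ≤ Ca * q := by
    rw [hZr, hCa, Nat.mul_assoc]
    refine Nat.mul_le_mul_left _ ?_
    have : (C₁ + 8) * q = C₁ * q + 8 * q := by ring
    omega
  obtain ⟨Yf, hYf⟩ : ∃ x, x = C₇ * (cl + cl + Zr + t' + 1) := ⟨_, rfl⟩
  have hYfq : Yf ≤ Cb * q := by
    rw [hYf, hCb, Nat.mul_assoc]
    refine Nat.mul_le_mul_left _ ?_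
    have : (Ca + 2 * C₅ + 3) * q = Ca * q + 2 * (C₅ * q) + 3 * q := by ring
    omega
  have n0 := n.ss.h0
  have nt := n.ss.h1
  have nk := n.ss.h3
  have w0t := n.ss.w0
  have wtk := n.ss.w2
  have hik : w i₀ ≤ w k := w0t.trans wtk
  -- the times
  have hJ1 : (Cm : ℝ) ≤ μ * J := by
    have h2 : (J₁ : ℝ) ≤ J := by exact_mod_cast hJ
    have h3 := hJ₁.trans h2
    rw [div_le_iff₀ hμ0] at h3
    linarith only [h3]
  have hθ0 : 0 ≤ ε₁ * J := by positivity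
  have hmain : Cm * (ε₁ * J + 1) ≤ min ε (1 - (a₁ : ℝ)) * Real.log 2 * J := by
    have e1 : Cm * (ε₁ * J) = μ * J := by rw [hε₁]; field_simp
    have e2 : 2 * (μ * J) = min ε (1 - (a₁ : ℝ)) * Real.log 2 * J := by rw [hμ]; ring
    rw [mul_add, mul_one, e1]
    linarith only [e2, hJ1]
  have hCi : ∀ x : ℕ, x ≤ Cm → (x : ℝ) * (ε₁ * J + 1) ≤ Cm * (ε₁ * J + 1) := fun x hx =>
    mul_le_mul_of_nonneg_right (by exact_mod_cast hx) (by linarith only [hθ0])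
  have hm1 : Cm * (ε₁ * J + 1) ≤ cl * Real.log 2 := by
    refine hmain.trans ?_
    have e1 : min ε (1 - (a₁ : ℝ)) * Real.log 2 * J ≤ ε * Real.log 2 * J :=
      mul_le_mul_of_nonneg_right (mul_le_mul_of_nonneg_right (min_le_left _ _) hL2.le) hJ0
    have e2 := mul_le_mul_of_nonneg_right hεc hL2.le
    linarith only [e1, e2]
  have hm2 : ∀ x, w x ≤ w k → Cm * (ε₁ * J + 1) ≤ ((J : ℝ) - w x) * Real.log 2 := fun x hx => by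
    refine hmain.trans ?_
    have e1 : min ε (1 - (a₁ : ℝ)) * Real.log 2 * J ≤ (1 - a₁) * Real.log 2 * J :=
      mul_le_mul_of_nonneg_right (mul_le_mul_of_nonneg_right (min_le_right _ _) hL2.le) hJ0
    have e2 : (w x : ℝ) ≤ a₁ * J := by
      have h2 : (w x : ℝ) ≤ ⌊(a₁ : ℝ) * J⌋₊ := by exact_mod_cast hx.trans n.ss.K1
      exact h2.trans (Nat.floor_le (mul_nonneg ha0R hJ0))
    have e3 := mul_le_mul_of_nonneg_right e2 hL2.le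
    linarith only [e1, e3]
  have hexp : Real.exp (Cm * (ε₁ * J + 1)) ≤ 2 ^ cl := by
    have e2 : Real.exp (Cm * (ε₁ * J + 1)) ≤ Real.exp (cl * Real.log 2) :=
      Real.exp_le_exp.2 hm1
    rw [mul_comm (cl : ℝ), ← Real.rpow_def_of_pos (by norm_num), Real.rpow_natCast] at e2
    exact e2
  have hexpi : ∀ x : ℕ, x ≤ Cm → Real.exp (x * (ε₁ * J + 1)) ≤ 2 ^ cl := fun x hx =>
    (Real.exp_le_exp.2 (hCi x hx)).trans hexp
  have hTm : ∀ (B' : F.Ω → Prop) (hB' : 0 < Pe F.p B'), Sub B' B →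
      Pe F.p B / 64 ≤ Pe F.p B' → (Fam.sub F B' hB').Tm (ε₁ * J) := fun B' hB' hs hp =>
    htA B' (fun ω hω => hBA ω (hs ω hω)) (by linarith only [hp, hcon]) hB'
  -- the balls
  have hBNk : BNum 3 N A cl X w pp gc gT g₀ i₀ k := n.st.ik
  have hkq0 : ∀ ω, B ω → |kT w TH ω i₀ 2 (some (c 1)) - gG G ω i₀ 2 (some (c 1))| ≤
      2 ^ Y' * (2 ^ g₀ i₀ 1 / 2 ^ g₀ i₀ 2) := fun ω hω => by
    rw [hY', hS']
    exact E.kq le_rfl n.st.il hω (hch ω hω i₀ (Or.inl rfl)) n.q0.1 n.q0.2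
  have hkqk : ∀ ω, B ω → |kT w TH ω i₀ 2 (some (c 1)) - gG G ω k 2 (some (c 1))| ≤
      2 ^ Y' * (2 ^ g₀ k 1 / 2 ^ g₀ k 2) := fun ω hω => by
    rw [hY', hS']
    have h3 := n.st.qx k (Or.inl rfl)
    exact E.kq le_rfl n.st.il hω (hch ω hω k (Or.inr (Or.inl rfl))) h3.1 h3.2
  have hZ0 : ZNum 3 N A cl X w pp gc gT g₀ 1 i₀ i₀ :=
    ⟨n0, le_rfl, n.ss.p0, n.ss.q0.1, n.ss.q0.2, n.ss.s0⟩
  have hZ3 : ZNum 3 N A cl X w pp gc gT g₀ 1 i₀ k :=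
    ⟨nk, hik, n.ss.p3, n.ss.q3.1, n.ss.q3.2, (n.ss.s3 1 (Or.inl rfl)).2.2⟩
  -- the variation of the curvature of the place one
  obtain ⟨B₁, b1, b2, b3⟩ := hzv E hB0 (X := X) (n := cl) n0 nt w0t hs0
    (n.ss.p0 1 (by norm_num)).1 hZ0 hθ0 (hTm B hB0 (fun _ h => h) (by linarith only [hB0]))
    ((hCi C₂ (by omega)).trans (hm2 i₀ hik)) (hexpi C₂ (by omega))
  -- the lower bound
  obtain ⟨V₀, hV₀⟩ : ∃ V₀ : F.Ω → Option (Fin m) → ℝ, V₀ = fun ω => ev c 1 (gG G ω k) 0 :=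
    ⟨_, rfl⟩
  have hc1 : Set.InjOn c (Set.Iio 1) := hc.mono (Set.Iio_subset_Iio (by norm_num))
  have hΓ : ∀ ω l, CvC c l (gG G ω k l) := fun ω l => cvc_grd ((E.evs k nk).ball.depG _ l) _
  have v0 : ∀ ω, V₀ ω none = 0 := fun ω => by rw [hV₀]; exact ev_none _ _ _ _
  have v1 : ∀ ω, V₀ ω (some (c 0)) = 1 := fun ω => by
    rw [hV₀]
    exact ev_eq hc1 (hΓ ω) (by norm_num)
  have hbad := (hoA E hBA hεc (by omega) n0 nk hik n.ss.K1 hs0 n.ss.p3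
    n.ss.q3.1 n.ss.q3.2 (n.ss.p0 1 (by norm_num)).1 (t := t₀) (X := X)
    (by have := n.ss.l0; omega) (by have := n.ss.l3; omega) (by rw [ht₀, hS'])
    (by have := n.ss.g0; rw [← hS']; omega)
    (fun l hl => by
      have := n.ss.rm l hl
      rw [← hS']
      omega) (by have := n.ss.ef; rw [← hS']; omega) (by have := n.ss.f0; omega)
      (by have := n.ss.f1; omega)).1 V₀ (fun ω _ => ⟨v0 ω, v1 ω⟩)
  obtain ⟨bad, hbd⟩ : ∃ bad : F.Ω → Prop, bad = fun ω => B ω ∧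
      |hs (TH i₀ (slam F (w i₀) ω) 1) (bt F ω) (bd F ω) (V₀ ω)| ≤
        2 ^ (w k + g₀ k 0) / 2 ^ (g₀ k 1 + t₀) := ⟨_, rfl⟩
  rw [← hbd] at hbad
  obtain ⟨B₂, hB₂⟩ : ∃ B₂ : F.Ω → Prop, B₂ = fun ω => B₁ ω ∧ ¬ bad ω := ⟨_, rfl⟩
  have s1 : Sub B₂ B₁ := fun ω hω => by
    rw [hB₂] at hω
    exact hω.1
  have s2 : Sub B₂ B := fun ω hω => b1 ω (s1 ω hω)
  have hP2 : Pe F.p B / 4 ≤ Pe F.p B₂ := by
    have h3 := Pe_or F.isLaw (A := B₁) (B₀ := bad) (B₁ := B₂)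
      (fun ω hω => by
        rw [hB₂]
        by_cases h4 : bad ω
        · exact Or.inl h4
        · exact Or.inr ⟨hω, h4⟩)
    linarith only [h3, b2, hbad, hcon, hB0]
  have hlow : ∀ ω, B₂ ω → ∀ V : Option (Fin m) → ℝ, V none = 0 → V (some (c 0)) = 1 →
      2 ^ (w k + g₀ k 0) / 2 ^ (g₀ k 1 + t₀) ≤
        |hs (TH i₀ (slam F (w i₀) ω) 1) (bt F ω) (bd F ω) V| := fun ω hω V hV hV1 => by
    rw [hB₂] at hω
    have h3 : ¬ |hs (TH i₀ (slam F (w i₀) ω) 1) (bt F ω) (bd F ω) (V₀ ω)| ≤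
        2 ^ (w k + g₀ k 0) / 2 ^ (g₀ k 1 + t₀) := fun h => hω.2 (by
      rw [hbd]
      exact ⟨b1 ω hω.1, h⟩)
    rw [hs_cg ((E.evs i₀ n0).thin.depH _ 1) (bt F ω) (bd F ω) (V' := V₀ ω)
      (by rw [v0, hV]) (fun j hj => by rw [Nat.lt_one_iff.1 hj, v1, hV1])]
    exact (not_le.1 h3).le
  have hvar : ∀ ω, B₂ ω → ∀ u ∈ Set.Icc (0 : ℝ) 1,
      |2 ^ w t * (Polynomial.derivative (kpol c (w t) (ltr (TH i₀) (w t - w i₀) 1)
          (slam F (w t) ω) 0)).eval u -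
        2 ^ w t * (Polynomial.derivative (kpol c (w t) (ltr (TH i₀) (w t - w i₀) 1)
          (slam F (w t) ω) 0)).eval 0| ≤
        2 ^ (w k + g₀ k 0) / 2 ^ (g₀ k 1 + (t₀ + (y + y₂) + 1)) := fun ω hω u hu => by
    refine (b3 ω (s1 ω hω) u hu 0 (Set.left_mem_Icc.2 zero_le_one)).trans ?_
    rw [div_le_div_iff₀ (by positivity) (by positivity), ← pow_add, ← pow_add, ← pow_add]
    refine p2 ?_
    have e2 : C₂ * (cl + X + cl + 1) ≤ 2 * (C₂ * q) := by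
      have : cl + X + cl + 1 ≤ 2 * q := by omega
      have := Nat.mul_le_mul_left C₂ this
      have e3 : C₂ * (2 * q) = 2 * (C₂ * q) := by ring
      omega
    have := n.ss.va
    omega
  -- the derivative of the component of the place two
  have hE2 := E.sb (B' := B₂) (κ₁ := 1 / 4) (κ₂ := 4 * max κ 0) s2 (by linarith only [hP2])
    (by positivity) (by
      have := le_max_left κ 0
      linarith only [this])
  have hB20 : 0 < Pe F.p B₂ := by linarith only [hP2, hB0]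
  obtain ⟨B₃, g1, g2, g3⟩ := hdq hE2 hB20 (i := i₀) (j := i₀) (Y := Y') (n := cl) n0 n0 le_rfl
    n.ss.q0.1 n.ss.q0.2 hθ0 (hTm B₂ hB20 s2 (by linarith only [hP2, hB0]))
    ((hCi C₃ (by omega)).trans (hm2 i₀ hik)) (hexpi C₃ (by omega))
    (fun ω hω => hkq0 ω (s2 ω hω))
  have s3 : Sub B₃ B := fun ω hω => s2 ω (g1 ω hω)
  have hP3 : Pe F.p B / 8 ≤ Pe F.p B₃ := by linarith only [hP2, g2]
  have hB30 : 0 < Pe F.p B₃ := by linarith only [hP3, hB0]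
  have hE3 := E.sb (B' := B₃) (κ₁ := 1 / 8) (κ₂ := 8 * max κ 0) s3 (by linarith only [hP3])
    (by positivity) (by
      have := le_max_left κ 0
      linarith only [this])
  obtain ⟨S₁, hS₁⟩ : ∃ x : ℝ, x = 2 ^ (C₃ * (cl + cl + 1) + Y') *
    (2 ^ (w i₀ + g₀ i₀ 1) / 2 ^ g₀ i₀ 2) := ⟨_, rfl⟩
  obtain ⟨S₂, hS₂⟩ : ∃ x : ℝ, x = 2 ^ (C₉ * S' + Y') * (2 ^ (w k + g₀ k 0) / 2 ^ g₀ k 2) :=
    ⟨_, rfl⟩
  have hS₁0 : 0 < S₁ := by rw [hS₁]; positivity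
  have hS₂0 : 0 < S₂ := by rw [hS₂]; positivity
  obtain ⟨B₄, k1, k2, k3⟩ := hrv hE3 hB30 (i := i₀) (t := t) (n := cl) (S₁ := S₁) (S₂ := S₂) n0 nt
    w0t hS₁0 hS₂0 hθ0 (hTm B₃ hB30 s3 (by linarith only [hP3, hB0]))
    ((hCi C₄ (by omega)).trans (hm2 i₀ hik)) (hexpi C₄ (by omega))
    (fun ω hω => by
      rw [hS₁]
      exact g3 ω hω)
    (fun ω hω P hP => by
      rw [hS₂, hS']
      exact hu4 E hs0 hs1 hBNk (n.ss.s3 1 (Or.inl rfl)).2.2 (s3 ω hω) (hkqk ω (s3 ω hω)) hP)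
  have s4 : Sub B₄ B := fun ω hω => s3 ω (k1 ω hω)
  have s42 : Sub B₄ B₂ := fun ω hω => g1 ω (k1 ω hω)
  have hP4 : Pe F.p B / 16 ≤ Pe F.p B₄ := by linarith only [hP3, k2]
  -- the curvature of the place two
  have hstn := n.st.mono (Q' := C₅ * q) (by omega)
  rw [hq] at hstn
  have hbad2 := hstA E hBA (X := X) (Y := Y) (i := i₀) (k := k) (j := j) (l := l) hεc (by omega)
    hs0 hs1 hstn (fun ω hω x hx => hch ω hω x (Or.inr hx))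
  rw [← hq, ← ht'] at hbad2
  obtain ⟨bad2, hbd2⟩ : ∃ bad : F.Ω → Prop, bad = fun ω => B ω ∧
      |hs (TH i₀ (slam F (w i₀) ω) 2) (bt F ω) (bd F ω) (uQ c)| ≤
        2 ^ (w k + g₀ k 1) / 2 ^ (g₀ k 2 + t') := ⟨_, rfl⟩
  rw [← hbd2] at hbad2
  obtain ⟨B₅, hB₅⟩ : ∃ B₅ : F.Ω → Prop, B₅ = fun ω => B₄ ω ∧ ¬ bad2 ω := ⟨_, rfl⟩
  have s54 : Sub B₅ B₄ := fun ω hω => by
    rw [hB₅] at hω
    exact hω.1
  have s5 : Sub B₅ B := fun ω hω => s4 ω (s54 ω hω)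
  have hP5 : Pe F.p B / 32 ≤ Pe F.p B₅ := by
    have h3 := Pe_or F.isLaw (A := B₄) (B₀ := bad2) (B₁ := B₅)
      (fun ω hω => by
        rw [hB₅]
        by_cases h4 : bad2 ω
        · exact Or.inl h4
        · exact Or.inr ⟨hω, h4⟩)
    linarith only [h3, hP4, hbad2, hcon, hB0]
  have hB50 : 0 < Pe F.p B₅ := by linarith only [hP5, hB0]
  have hE5 := E.sb (B' := B₅) (κ₁ := 1 / 32) (κ₂ := 32 * max κ 0) s5 (by linarith only [hP5])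
    (by positivity) (by
      have := le_max_left κ 0
      linarith only [this])
  -- the relation
  have hnn : NNum N A cl X y y₂ t₀ w pp gc gT g₀ i₀ t t k :=
    { un :=
        { iN := n0
          tN := nt
          kN := nk
          it := w0t
          tk := wtk
          cT := fun l hl => ⟨(n.ss.p0 l (by omega)).1, (n.ss.p3 l (by omega)).1,
            (n.ss.p3 l (by omega)).2⟩
          m1 := (n.ss.s3 1 (Or.inl rfl)).1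
          lb1 := (n.ss.s3 1 (Or.inl rfl)).2.1
          lb2 := (n.ss.s3 2 (Or.inr rfl)).2.2
          ex := n.ss.ex }
      i1N := nt
      i1t := le_rfl
      c3 := n.ss.q3.2
      m2 := (n.ss.s3 2 (Or.inr rfl)).1
      lb2 := (n.ss.s3 2 (Or.inr rfl)).2.1
      lb3 := n.ss.rw
      cp := n.ss.q1
      ex2 := n.ss.ex2 }
  have hrelω := fun ω (hω : B₂ ω) => hrel E hs0 hs1 hs2 hnn hZ3 ω (s2 ω hω) (hlow ω hω)
    (hvar ω hω) (Y := Y') (hkqk ω (s2 ω hω))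
  have hs52 : Sub B₅ B₂ := fun ω hω => s42 ω (s54 ω hω)
  have hx1 : ∀ ω, B₅ ω → |2 ^ w t * (Polynomial.derivative (kpol c (w t)
        (ltr (TH i₀) (w t - w i₀) 2) (slam F (w t) ω) 1)).eval (rt F (w t) ω) -
        2 ^ w t * (Polynomial.derivative (kpol c (w t) (ltr (TH i₀) (w t - w i₀) 2)
          (slam F (w t) ω) 1)).eval 0| ≤ 2 ^ (w k + g₀ k 1) / 2 ^ (g₀ k 2 + (t' + y₂ + 1)) :=
    fun ω hω => by
      refine ((k3 ω (s54 ω hω) _ (rt_mem F (w t) ω)).1 0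
        (Set.left_mem_Icc.2 zero_le_one)).trans ?_
      have e1 : (2 : ℝ) ^ (C₄ * (cl + 1)) * S₁ / 2 ^ (w t - w i₀) =
          2 ^ (C₄ * (cl + 1) + (C₃ * (cl + cl + 1) + Y') + (w i₀ + g₀ i₀ 1)) /
            2 ^ (g₀ i₀ 2 + (w t - w i₀)) := by
        rw [hS₁, pow_add 2 (C₄ * (cl + 1) + (C₃ * (cl + cl + 1) + Y')),
          pow_add 2 (C₄ * (cl + 1)), pow_add 2 (g₀ i₀ 2)]
        field_simp
      rw [e1, div_le_div_iff₀ (by positivity) (by positivity), ← pow_add, ← pow_add]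
      refine p2 ?_
      have e2 : C₄ * (cl + 1) ≤ C₄ * q := Nat.mul_le_mul_left _ (by omega)
      have e3 : C₃ * (cl + cl + 1) ≤ 2 * (C₃ * q) := by
        have : cl + cl + 1 ≤ 2 * q := by omega
        have := Nat.mul_le_mul_left C₃ this
        have e3 : C₃ * (2 * q) = 2 * (C₃ * q) := by ring
        omega
      have := n.v1
      omega
  have hx2 : ∀ ω, B₅ ω → |2 ^ w t * (Polynomial.derivative (dlU c (w t) (w t - w i₀) 2 (TH i₀)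
        (slam F (w t) ω))).eval (rt F (w t) ω)| ≤
      2 ^ (w k + g₀ k 1) / 2 ^ (g₀ k 2 + (t' + y₂ + 1)) := fun ω hω => by
    have d1 := (k3 ω (s54 ω hω) _ (rt_mem F (w t) ω)).2
    have d2 := (hrelω ω (hs52 ω hω)).2.2.2
    rw [dlU_np, Polynomial.derivative_C_mul, Polynomial.eval_mul, Polynomial.eval_C]
    obtain ⟨np, hnp⟩ : ∃ x, x = (Polynomial.derivative (npU c (w t) (w t - w i₀) 2 (TH i₀)
      (slam F (w t) ω))).eval (rt F (w t) ω) := ⟨_, rfl⟩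
    obtain ⟨zp, hzp⟩ : ∃ x, x = (Polynomial.derivative (kpol c (w t)
      (ltr (TH i₀) (w t - w i₀) 1) (slam F (w t) ω) 0)).eval 0 := ⟨_, rfl⟩
    rw [← hnp] at d1 ⊢
    rw [← hzp] at d2 ⊢
    have hL0 : (0 : ℝ) < 2 ^ (w k + g₀ k 0) / 2 ^ (g₀ k 1 + t₀) / 2 := by positivity
    have hz0 : 0 < |2 ^ w t * zp| := hL0.trans_le d2
    have hzp0 : zp ≠ 0 := fun h0 => by
      rw [h0, mul_zero, abs_zero] at hz0
      exact lt_irrefl _ hz0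
    have e1 : 2 ^ w t * (zp⁻¹ * np) = (2 ^ w t * (2 ^ w t * np)) / (2 ^ w t * zp) := by
      field_simp
    rw [e1, abs_div, div_le_iff₀ hz0]
    refine d1.trans ?_
    have e2 : 2 ^ (w k + g₀ k 1) / 2 ^ (g₀ k 2 + (t' + y₂ + 1)) *
        (2 ^ (w k + g₀ k 0) / 2 ^ (g₀ k 1 + t₀) / 2) ≤
        2 ^ (w k + g₀ k 1) / 2 ^ (g₀ k 2 + (t' + y₂ + 1)) * |2 ^ w t * zp| :=
      mul_le_mul_of_nonneg_left d2 (by positivity)
    refine le_trans ?_ e2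
    have e3 : (2 : ℝ) ^ (w k + g₀ k 1) / 2 ^ (g₀ k 2 + (t' + y₂ + 1)) *
        (2 ^ (w k + g₀ k 0) / 2 ^ (g₀ k 1 + t₀) / 2) =
        2 ^ (w k + w k + g₀ k 0) / 2 ^ (g₀ k 2 + (t' + y₂ + 1) + t₀ + 1) := by
      rw [pow_add 2 (w k + w k), pow_add 2 (w k) (w k), pow_add 2 (w k) (g₀ k 1),
        pow_add 2 (w k) (g₀ k 0), pow_succ 2 (g₀ k 2 + (t' + y₂ + 1) + t₀),
        pow_add 2 (g₀ k 2 + (t' + y₂ + 1)) t₀, pow_add 2 (g₀ k 1) t₀]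
      field_simp
    have e4 : (2 : ℝ) ^ (C₄ * (cl + 1)) * 2 ^ w i₀ * S₂ =
        2 ^ (C₄ * (cl + 1) + w i₀ + (C₉ * S' + Y') + (w k + g₀ k 0)) / 2 ^ g₀ k 2 := by
      rw [hS₂, pow_add 2 (C₄ * (cl + 1) + w i₀ + (C₉ * S' + Y')),
        pow_add 2 (C₄ * (cl + 1) + w i₀), pow_add 2 (C₄ * (cl + 1))]
      ring
    rw [e3, e4, div_le_div_iff₀ (by positivity) (by positivity), ← pow_add, ← pow_add]
    refine p2 ?_
    have e5 : C₄ * (cl + 1) ≤ C₄ * q := Nat.mul_le_mul_left _ (by omega)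
    have e6 : C₉ * S' ≤ C₉ * q := Nat.mul_le_mul_left _ hSq
    have := n.v2
    omega
  obtain ⟨B₆, r1, r2, r3⟩ := hmu3 hE5 hB50 (i := i₀) (i₁ := t) (t := t) (k := k) (n := cl)
    (Z := Zr) (t' := t') (y₂ := y₂) n0 nt nt nk w0t le_rfl wtk n.ss.q3.1 n.ss.q3.2 hθ0
    (hTm B₅ hB50 s5 (by linarith only [hP5, hB0]))
    ((hCi C₇ (by omega)).trans (hm2 k le_rfl)) (hexpi C₇ (by omega))
    (fun ω hω => by
      have h3 := hrelω ω (hs52 ω hω)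
      rw [← hZr] at h3
      exact ⟨h3.1, h3.2.1, h3.2.2.1⟩)
    (fun ω hω => by
      have h3 : ¬ |hs (TH i₀ (slam F (w i₀) ω) 2) (bt F ω) (bd F ω) (uQ c)| ≤
          2 ^ (w k + g₀ k 1) / 2 ^ (g₀ k 2 + t') := fun h => by
        rw [hB₅] at hω
        exact hω.2 (by
          rw [hbd2]
          exact ⟨s4 ω hω.1, h⟩)
      exact (not_le.1 h3).le) hx1 hx2
  rw [← hYf] at r3
  have s6 : Sub B₆ B := fun ω hω => s5 ω (r1 ω hω)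
  have hP6 : Pe F.p B / 64 ≤ Pe F.p B₆ := by linarith only [hP5, r2]
  have hE6 := E.sb (B' := B₆) (κ₁ := 1 / 64) (κ₂ := 64 * max κ 0) s6 (by linarith only [hP6])
    (by positivity) (by
      have := le_max_left κ 0
      linarith only [this])
  have hssn := n.ss.mono (Q' := C₈ * S') ((Nat.mul_le_mul_left _ hSq).trans (by omega))
  rw [hS'] at hssn
  have hne := ne.mono (Q' := C₈ * (cl + X + Yf + 1)) (by
    have e1 : cl + X + Yf + 1 ≤ (Cb + 2) * q := by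
      have : (Cb + 2) * q = Cb * q + 2 * q := by ring
      omega
    have e2 := Nat.mul_le_mul_left C₈ e1
    rw [← Nat.mul_assoc] at e2
    omega)
  have hfin := hseA hE6 (fun ω hω => hBA ω (s6 ω hω)) hεc (by omega) hs0 hs1 hs2 (Y := Yf)
    (mu := muR c (w t) (w t - w i₀) (w t - w t) (TH i₀) (fun s _ => Ht t s)) hssn
    (fun s => muR_deg (fun s l => (E.evs i₀ n0).thin.degH s l)
      (fun s _ => (E.evs t nt).dH s) s)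
    (fun ω hω => by
      refine (r3 ω hω).trans (le_of_eq ?_)
      ring) hbJ hne
  linarith only [hfin, hP6, hcon, hB0]

end Pool.TN
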