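import Pool.Agent.H57.AVG.C2b
import Pool.Agent.H88.D2.Mcw
import Pool.Agent.H88.D2.Uov
import Pool.Agent.H66.D2.Apa

/-!
# The event of a static cell with the closed gradient at a ball

`RecQ.cevm`: the event of the windows (`CEv`) and, on the same event, a closed polynomial which is
the component of the ball chart of the target in the direction of the last place, at the ball
`t + q`, on the line of the window `t`.
-/

set_option autoImplicit false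

namespace Pool.TN

open Finset Real MvPolynomial
open Pool.Agent.H49.Ent Pool.Agent.H32.Dense Pool.STK Pool.KA Pool.KSAT Pool.K2S Pool.PB Pool.S6C
open Pool.GEN Pool.CHT Pool.CHX Pool.ISO Pool.D2R Pool.D2Z Pool.D2F
open Pool.AVG57 (LbsE ClU CGr)
open Pool.FLF (Fam.sub)
open Pool.D2T (sh sh_rt sh_deg)
open Pool.PB.Trl (rt rt_mem t_rt)
open Pool.BFL (Pb)
open Pool.PKG (RecQ Kd)

/-- The windows `u k`, `k ≤ N₁`, and the chain `-1 + k / p`. -/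
noncomputable def uch (N₁ p : ℕ) (u : ℕ → ℝ) (k : ℕ) : ℝ :=
  if k ≤ N₁ then u k else -1 + ((k - (N₁ + 1) : ℕ) : ℝ) / p

theorem uch_lo {N₁ p : ℕ} {u : ℕ → ℝ} {k : ℕ} (hk : k ≤ N₁) : uch N₁ p u k = u k := if_pos hk

theorem uch_hi {N₁ p : ℕ} {u : ℕ → ℝ} (k : ℕ) : uch N₁ p u (N₁ + 1 + k) = -1 + k / p := by
  unfold uch
  rw [if_neg (by omega), Nat.add_sub_cancel_left]

/-- **The numbers of the bridge**: the far window is `X`, the window of the closed charts `-1`, the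
window of the ball `1`. -/
structure MuN (v X : ℕ) (Sl : ℕ → ℝ) (Sm ξ qr μ vj κ₂ dW τ : ℝ) : Prop where
  X2 : 2 ≤ X
  Sm0 : 0 ≤ Sm
  sm : ∀ l ≤ v, Sl l ≤ Sm
  sb : Sm ≤ Sl (v + 1)
  t0 : 0 < τ
  m0 : 0 < μ
  q1 : Sm * (X + 1) + τ ≤ qr
  q2 : qr + ξ ≤ Sl (v + 1) * (X + 1)
  x0 : 0 ≤ ξ
  x1 : ξ ≤ qr
  j0 : -1 ≤ vj
  j1 : vj ≤ X
  j2 : ξ ≤ (Sl (v + 1) - Sm) * (vj + 1)
  d1 : dW ≤ 1
  k0 : 0 ≤ κ₂
  kx : (Sl (v + 1) - Sl v) * 2 ≤ κ₂ * ξ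

/-- **The closed gradient at the ball on one event**, the critical case: from the closed relative
gradient between the windows `-1` and `X`. -/
theorem mu_evA (D i : ℕ) (hi : 1 ≤ i) : ∃ C : ℕ, 1 ≤ C ∧ ∀ {m : ℕ} {S : PCl m}
    {P P₂ : List (Fin m) × Fin m → ℝ → ℝ → ℝ} {θ θ₂ : ℝ} {c : ℕ → Fin m} {Pt : ℝ → ℝ → ℝ}
    {L T : ℕ → ℝ → ℝ → ℝ} {Sl : ℕ → ℝ} {kd : ℕ → Kd} {S₀ N : ℕ} {A V : ℕ → ℝ} {S₂ N' : ℕ}
    {V' : ℕ → ℝ} {Eb e₂ K ε q t : ℝ}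
    (_ : RecQ S P P₂ θ θ₂ c i Pt L T Sl kd S₀ N A V S₂ N' V' Eb e₂ K ε q t)
    {J Dr N₁ N₃ p X Y iK : ℕ} {F : Fam m J} {CB a Eb' y₁ κ : ℝ} {u : ℕ → ℝ} {b : ℕ → ℕ → ℝ}
    {z : ℕ → ℕ → ℕ} {B : F.Ω → Prop} {g₀ : ℕ → ℕ → ℕ}
    {G : ℕ → PtT F → ℕ → MvPolynomial (Option (Fin m)) ℝ}
    {H : ℕ → LnT F → ℕ → MvPolynomial (Option (Fin m)) ℝ}
    (_ : WinB F c i D Dr N₃ N₃ CB a Eb' (y₁ * q) (fun k => t + u k * q) (fun _ => y₁ * q)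
      (fun _ => y₁ * q) (fun k l => L l (t + u k * q) (t + u k * q)) b κ z B g₀ G H)
    {β y₂ κ₂ ξ : ℝ}, 1 ≤ p → 2 ≤ X → N₃ = N₁ + 1 + (X + 1) * p → iK ≤ N₁ → u iK = 1 →
    (∀ k ≤ (X + 1) * p, u (N₁ + 1 + k) = -1 + k / p) → (X : ℝ) ≤ K →
    (∀ k ≤ N₃, ∀ k' ≤ N₃, u k + 1 / p ≤ u k' → z k k' = ⌊(t + u k' * q) * J⌋₊ -
      ⌊(t + u k * q) * J⌋₊) → 0 ≤ ε → Y = ⌊y₂ * (q * J)⌋₊ → 4 * (CB * y₁) ≤ y₂ →
    8 * y₁ ≤ y₂ → 16 * ε ≤ y₂ → 16 * β ≤ y₂ * p → 8 ≤ y₂ * (q * J) →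
    (((X + 1) * p : ℕ) : ℝ) ≤ 2 ^ Y → (∀ l ≤ i, |Sl l| ≤ β) → Sl (i - 1) ≤ Sl i →
    0 ≤ κ₂ → 8 * κ₂ ≤ y₂ * (q * J) → 0 ≤ ξ → (Sl i - Sl (i - 1)) * 2 ≤ κ₂ * ξ →
    ⌊t * J⌋₊ ≤ J → ∀ {W : ℕ}, W ≤ ⌊t * J⌋₊ → ∀ (mu : LnT F → Polynomial ℝ) (B' : F.Ω → Prop),
    Sub B' B → (∀ ω, B' ω → |gnh F c i (g₀ (N₁ + 1)) (G (N₁ + 1)) (G (N₁ + 1 + (X + 1) * p)) ω
      (i - 1) - (mu (slam F W ω)).eval (rt F W ω)| ≤ (2 : ℝ) ^ (-(κ₂ * ⌊ξ * q * J⌋₊))) →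
    ∀ ω, B' ω → |(muC c ⌊t * J⌋₊ W ⌊(t + u (N₁ + 1) * q) * J⌋₊ i (g₀ (N₁ + 1)) mu
        (H (N₁ + 1)) (slam F ⌊t * J⌋₊ ω)).eval (rt F ⌊t * J⌋₊ ω) -
      gG G ω iK i (some (c (i - 1)))| ≤
      2 ^ (C * Y) * (2 ^ g₀ iK (i - 1) / 2 ^ g₀ iK i) := by
  obtain ⟨C, hC, hT⟩ := grdT D i hi
  refine ⟨C + 1, by omega, ?_⟩
  intro m S P P₂ θ θ₂ c Pt L T Sl kd S₀ N A V S₂ N' V' Eb e₂ K ε q t R J Dr N₁ N₃ p X Y iK F CB a
    Eb' y₁ κ u b z B g₀ G H W' β y₂ κ₂ ξ hp hX hN₃ hiK huK hu hXK hz hε hY hy₁ hy₁' hεy hβ hy₂ hn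
    hSl hsb hκ₂ hκJ hξ hkx htJ W hW mu B' hB' hmu ω hω
  have hq := R.q0
  have hJ : (0 : ℝ) ≤ J := Nat.cast_nonneg J
  obtain ⟨U, hU⟩ : ∃ U : ℝ, U = q * J := ⟨_, rfl⟩
  have hU0 : 0 ≤ U := by rw [hU]; positivity
  have hpR : (0 : ℝ) < p := by exact_mod_cast hp
  have hX2 : (2 : ℝ) ≤ X := by exact_mod_cast hX
  have hK1 : (1 : ℝ) ≤ K := by linarith
  have hi1 : 1 ≤ i := hi
  -- the window of the closed charts
  have huw : u (N₁ + 1) = -1 := by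
    have := hu 0 (Nat.zero_le _)
    rw [add_zero, Nat.cast_zero, zero_div, add_zero] at this
    exact this
  have hw : (fun k => t + u k * q) (N₁ + 1) = t - q := by
    show t + u (N₁ + 1) * q = t - q
    rw [huw]
    ring
  -- the chain from the ball to the far window
  obtain ⟨n, hn'⟩ : ∃ n, n = (X - 1) * p := ⟨_, rfl⟩
  have hnX : 2 * p + n = (X + 1) * p := by
    rw [hn', ← add_mul]
    congr 1
    omega
  obtain ⟨f, hf⟩ : ∃ f : ℕ → ℕ, f = fun k => if k = 0 then iK else N₁ + 1 + (2 * p + k) := ⟨_, rfl⟩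
  have hf0 : f 0 = iK := by rw [hf]; rfl
  have hf1 : ∀ k, k ≠ 0 → f k = N₁ + 1 + (2 * p + k) := fun k hk => by
    rw [hf]
    exact if_neg hk
  have hn1 : 1 ≤ n := by
    rw [hn']
    exact Nat.mul_pos (by omega) (by omega)
  have hfn : f n = N₁ + 1 + (X + 1) * p := by rw [hf1 n (by omega), hnX]
  have hnR : (n : ℝ) = (X - 1) * p := by
    rw [hn']
    push_cast [Nat.cast_sub (show 1 ≤ X by omega)]
    ring
  have ch : ChF u N₃ n p 1 K f := by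
    have hfu : ∀ k ≤ n, u (f k) = 1 + k / p := by
      intro k hk
      rcases Nat.eq_zero_or_pos k with rfl | h0
      · rw [hf0, huK, Nat.cast_zero, zero_div, add_zero]
      · rw [hf1 k (by omega), hu _ (by omega)]
        push_cast
        field_simp
        ring
    refine ⟨hp, fun k hk => ?_, hfu, fun k hk => ?_⟩
    · rcases Nat.eq_zero_or_pos k with rfl | h0
      · rw [hf0]
        omega
      · rw [hf1 k (by omega)]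
        omega
    · rw [hfu k hk]
      have h1 : (0 : ℝ) ≤ k / p := by positivity
      have h2 : (k : ℝ) / p ≤ X - 1 := by
        rw [div_le_iff₀ hpR, ← hnR]
        exact_mod_cast hk
      rw [abs_of_nonneg (by linarith)]
      linarith
  have hzf : ∀ k < n, z (f k) (f (k + 1)) = ⌊(t + u (f (k + 1)) * q) * J⌋₊ -
      ⌊(t + u (f k) * q) * J⌋₊ := fun k hk =>
    hz _ (ch.fN k hk.le) _ (ch.fN (k + 1) hk) (ch.le hk).le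
  have hnle : (n : ℝ) ≤ 2 ^ Y := by
    refine le_trans ?_ hn
    have : n ≤ (X + 1) * p := by omega
    exact_mod_cast this
  have hNK : iK ≤ N₃ := by omega
  have huK' : |u iK| ≤ K := by
    rw [huK, abs_one]
    exact hK1
  have hgr := hT R W' (f := f) (n := n) (p := p) (k₀ := iK) ch hNK huK' hzf hε hY hy₁ hy₁' hεy hβ
    hy₂ hnle hSl (fun k hk => by
      rw [ch.fu k hk.le, huK]
      have h1 : (0 : ℝ) ≤ k / p := by positivity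
      have h2 : 0 ≤ (Sl i - Sl (i - 1)) * (k / p) := mul_nonneg (by linarith) h1
      linarith) ω (hB' ω hω)
  rw [hf0, hfn] at hgr
  -- the numbers
  have hci : Set.InjOn c (Set.Iio i) := R.inj.mono fun y hy => by
    rw [Set.mem_Iio] at hy ⊢
    omega
  have hWe : ∀ k ≤ N₃, EvB F c i D Dr ⌊(t + u k * q) * J⌋₊ N₃ (z k)
      ⌊(Eb' + y₁ * q + y₁ * q) * J⌋₊ ⌊y₁ * q * J⌋₊ (fun l => ⌊b k l * J⌋₊) (g₀ k) κ B (G k)
      (H k) := fun k hk => W'.ev k hk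
  have hww : ⌊(t + u (N₁ + 1) * q) * J⌋₊ ≤ ⌊t * J⌋₊ := by
    refine Nat.floor_le_floor (mul_le_mul_of_nonneg_right ?_ hJ)
    rw [huw]
    linarith
  have hdep : ∀ k ≤ N₃, ∀ y l, DepC c l (G k y l) := fun k hk y l => (hWe k hk).ball.depG y l
  obtain ⟨x, hx⟩ : ∃ x, x = N₁ + 1 + (X + 1) * p := ⟨_, rfl⟩
  rw [← hx] at hmu hgr hN₃
  have hxN : x ≤ N₃ := hN₃.ge
  have hUK : |gnh F c i (g₀ iK) (G iK) (G x) ω (i - 1)| ≤ 2 ^ (C * Y) := by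
    rw [gnh_last hi1 hci (g₀ iK) (hdep iK hNK) (hdep x hxN), abs_mul, abs_of_pos (by positivity)]
    calc _ ≤ (2 : ℝ) ^ g₀ iK i / 2 ^ g₀ iK (i - 1) * (2 ^ (C * Y) *
          (2 ^ g₀ iK (i - 1) / 2 ^ g₀ iK i)) := mul_le_mul_of_nonneg_left hgr (by positivity)
      _ = 2 ^ (C * Y) := by field_simp
  have hmain := mu_pt (t := ⌊t * J⌋₊) (W := W) (w := ⌊(t + u (N₁ + 1) * q) * J⌋₊) hi1 hci hW hww
    htJ (γ := g₀ (N₁ + 1)) (γK := g₀ iK) (Gw := G (N₁ + 1)) (Gx := G x) (GK := G iK)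
    (H := H (N₁ + 1)) (hdep _ (by omega)) (hdep x hxN) (hdep iK hNK) (ω := ω)
    ((hWe (N₁ + 1) (by omega)).cls ω (hB' ω hω) i (by omega)) (mu := mu) (hmu ω hω) hUK
  refine hmain.trans ?_
  -- the gain
  have hYl : y₂ * U - 1 ≤ Y := by
    rw [hY, hU]
    linarith [Nat.lt_floor_add_one (y₂ * (q * J))]
  rw [← hU] at hy₂ hκJ
  have hnum : ∀ k ≤ N₃, ∀ l ≤ i, L l (t + u k * q) (t + u k * q) * J - y₁ * U ≤ g₀ k l ∧
      (g₀ k l : ℝ) ≤ L l (t + u k * q) (t + u k * q) * J := fun k hk l hl => by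
    obtain ⟨h1, h2⟩ := W'.sds k hk l hl
    refine ⟨?_, h2⟩
    have : (L l (t + u k * q) (t + u k * q) - y₁ * q) * J =
        L l (t + u k * q) (t + u k * q) * J - y₁ * U := by rw [hU]; ring
    linarith
  have hεU : 4 * ε * U ≤ y₂ * U / 4 := by
    have := mul_le_mul_of_nonneg_right hεy hU0
    linarith
  have hy₁U : 2 * y₁ * U ≤ y₂ * U / 4 := by
    have := mul_le_mul_of_nonneg_right hy₁' hU0
    linarith
  have hXf := Nat.lt_floor_add_one (ξ * U)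
  have hXU : ξ * q * J = ξ * U := by rw [hU]; ring
  rw [hXU]
  have hg1 : (2 : ℝ) ^ g₀ (N₁ + 1) (i - 1) / 2 ^ g₀ (N₁ + 1) i * 2 ^ (-(κ₂ * ⌊ξ * U⌋₊)) ≤
      2 ^ Y * (2 ^ g₀ iK (i - 1) / 2 ^ g₀ iK i) := by
    rw [← Real.rpow_natCast 2 (g₀ (N₁ + 1) (i - 1)), ← Real.rpow_natCast 2 (g₀ (N₁ + 1) i),
      ← Real.rpow_natCast 2 (g₀ iK (i - 1)), ← Real.rpow_natCast 2 (g₀ iK i),
      ← Real.rpow_natCast 2 Y, ← Real.rpow_sub two_pos, ← Real.rpow_sub two_pos,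
      ← Real.rpow_add two_pos, ← Real.rpow_add two_pos]
    refine Real.rpow_le_rpow_of_exponent_le one_le_two ?_
    have h1 := (hnum (N₁ + 1) (by omega) (i - 1) (by omega)).2
    have h2 := (hnum (N₁ + 1) (by omega) i le_rfl).1
    have h3 := (hnum iK hNK (i - 1) (by omega)).1
    have h4 := (hnum iK hNK i le_rfl).2
    have hw1 : |u (N₁ + 1)| ≤ K := by
      rw [huw, abs_neg, abs_one]
      exact hK1
    have h5 := (RecQ.dLd R (show i - 1 ≤ i by omega) huK' hw1 J).1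
    have h6 := (RecQ.dLd R (le_refl i) huK' hw1 J).2
    rw [← hU, huK, huw] at h5 h6
    rw [huw] at h1 h2
    rw [huK] at h3 h4
    have h7 : (1 - -1 : ℝ) * U = 2 * U := by ring
    rw [h7] at h5 h6
    have h8 := mul_le_mul_of_nonneg_right hkx hU0
    have h9 : κ₂ * (ξ * U - 1) ≤ κ₂ * (⌊ξ * U⌋₊ : ℝ) :=
      mul_le_mul_of_nonneg_left (by linarith) hκ₂
    linarith
  have hY0 : (1 : ℝ) ≤ 2 ^ Y := one_le_pow₀ (by norm_num)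
  have hYC : (1 : ℝ) ≤ 2 ^ (C * Y) := one_le_pow₀ (by norm_num)
  have hn0 : (0 : ℝ) ≤ 2 ^ g₀ iK (i - 1) / 2 ^ g₀ iK i := by positivity
  have hY2 : (2 : ℝ) ≤ 2 ^ Y := by
    have h1 : 1 ≤ Y := by
      have : (1 : ℝ) ≤ Y := by linarith
      exact_mod_cast this
    calc (2 : ℝ) = 2 ^ 1 := (pow_one _).symm
      _ ≤ 2 ^ Y := pow_le_pow_right₀ (by norm_num) h1
  have e1 : (2 : ℝ) ^ ((C + 1) * Y) = 2 ^ (C * Y) * 2 ^ Y := by rw [← pow_add]; congr 1; ring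
  rw [e1]
  have h9 : (2 : ℝ) ^ Y ≤ 2 ^ (C * Y) := pow_le_pow_right₀ (by norm_num) (by nlinarith)
  have h10 : (2 : ℝ) ^ (C * Y) * 2 ≤ 2 ^ (C * Y) * 2 ^ Y :=
    mul_le_mul_of_nonneg_left hY2 (by positivity)
  have h11 : (2 : ℝ) ^ Y + 2 ^ (C * Y) ≤ 2 ^ (C * Y) * 2 ^ Y := by linarith
  have h12 := mul_le_mul_of_nonneg_right h11 hn0
  calc _ ≤ 2 ^ Y * (2 ^ g₀ iK (i - 1) / 2 ^ g₀ iK i) +
        2 ^ g₀ iK (i - 1) / 2 ^ g₀ iK i * 2 ^ (C * Y) := add_le_add hg1 le_rfl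
    _ = (2 ^ Y + 2 ^ (C * Y)) * (2 ^ g₀ iK (i - 1) / 2 ^ g₀ iK i) := by ring
    _ ≤ _ := h12


/-- **The closed gradient at the ball on one event**, the steep case: the chart of the window `t`. -/
theorem mu_evB (D i : ℕ) (hi : 1 ≤ i) : ∃ C : ℕ, 1 ≤ C ∧ ∀ {m : ℕ} {S : PCl m}
    {P P₂ : List (Fin m) × Fin m → ℝ → ℝ → ℝ} {θ θ₂ : ℝ} {c : ℕ → Fin m} {Pt : ℝ → ℝ → ℝ}
    {L T : ℕ → ℝ → ℝ → ℝ} {Sl : ℕ → ℝ} {kd : ℕ → Kd} {S₀ N : ℕ} {A V : ℕ → ℝ} {S₂ N' : ℕ}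
    {V' : ℕ → ℝ} {Eb e₂ K ε q t : ℝ}
    (_ : RecQ S P P₂ θ θ₂ c i Pt L T Sl kd S₀ N A V S₂ N' V' Eb e₂ K ε q t)
    {J Dr N₁ N₃ p X Y it iK : ℕ} {F : Fam m J} {CB a Eb' y₁ κ : ℝ} {u : ℕ → ℝ} {b : ℕ → ℕ → ℝ}
    {z : ℕ → ℕ → ℕ} {B : F.Ω → Prop} {g₀ : ℕ → ℕ → ℕ}
    {G : ℕ → PtT F → ℕ → MvPolynomial (Option (Fin m)) ℝ}
    {H : ℕ → LnT F → ℕ → MvPolynomial (Option (Fin m)) ℝ}
    (_ : WinB F c i D Dr N₃ N₃ CB a Eb' (y₁ * q) (fun k => t + u k * q) (fun _ => y₁ * q)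
      (fun _ => y₁ * q) (fun k l => L l (t + u k * q) (t + u k * q)) b κ z B g₀ G H)
    {β y₂ : ℝ}, 1 ≤ p → 1 ≤ X → N₃ = N₁ + 1 + (X + 1) * p → it ≤ N₁ → iK ≤ N₁ → u it = 0 →
    u iK = 1 → (∀ k ≤ (X + 1) * p, u (N₁ + 1 + k) = -1 + k / p) → 1 ≤ K →
    (∀ k ≤ N₃, ∀ k' ≤ N₃, u k + 1 / p ≤ u k' → z k k' = ⌊(t + u k' * q) * J⌋₊ -
      ⌊(t + u k * q) * J⌋₊) → 0 ≤ ε → Y = ⌊y₂ * (q * J)⌋₊ → 4 * (CB * y₁) ≤ y₂ →
    8 * y₁ ≤ y₂ → 16 * ε ≤ y₂ → 16 * β ≤ y₂ * p → 8 ≤ y₂ * (q * J) →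
    (((X + 1) * p : ℕ) : ℝ) ≤ 2 ^ Y → (∀ l ≤ i, |Sl l| ≤ β) → Sl i ≤ Sl (i - 1) →
    ⌊(t + u it * q) * J⌋₊ ≤ J → ∀ ω, B ω →
      |(kpol c ⌊(t + u it * q) * J⌋₊ (fun s => H it s i) (slam F ⌊(t + u it * q) * J⌋₊ ω)
        (i - 1)).eval (rt F ⌊(t + u it * q) * J⌋₊ ω) - gG G ω iK i (some (c (i - 1)))| ≤
      2 ^ (C * Y) * (2 ^ g₀ iK (i - 1) / 2 ^ g₀ iK i) := by
  obtain ⟨C, hC, hT⟩ := grdT D i hi
  refine ⟨C, hC, ?_⟩
  intro m S P P₂ θ θ₂ c Pt L T Sl kd S₀ N A V S₂ N' V' Eb e₂ K ε q t R J Dr N₁ N₃ p X Y it iK F CB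
    a Eb' y₁ κ u b z B g₀ G H W' β y₂ hp hX hN₃ hit hiK hut huK hu hK1 hz hε hY hy₁ hy₁' hεy hβ
    hy₂ hn hSl hsb htJ ω hω
  have hpR : (0 : ℝ) < p := by exact_mod_cast hp
  obtain ⟨f, hf⟩ : ∃ f : ℕ → ℕ, f = fun k => if k = 0 then it else if k = p then iK else
    N₁ + 1 + (p + k) := ⟨_, rfl⟩
  have hf0 : f 0 = it := by rw [hf]; rfl
  have hfp : f p = iK := by
    rw [hf]
    beta_reduce
    rw [if_neg (by omega), if_pos rfl]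
  have hf1 : ∀ k, k ≠ 0 → k ≠ p → f k = N₁ + 1 + (p + k) := fun k hk hk' => by
    rw [hf]
    beta_reduce
    rw [if_neg hk, if_neg hk']
  have hpX : 2 * p ≤ (X + 1) * p := Nat.mul_le_mul_right _ (by omega)
  have hfu : ∀ k ≤ p, u (f k) = 0 + k / p := by
    intro k hk
    rcases Nat.eq_zero_or_pos k with rfl | h0
    · rw [hf0, hut, Nat.cast_zero, zero_div, add_zero]
    · by_cases hkp : k = p
      · rw [hkp, hfp, huK, div_self hpR.ne', zero_add]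
      · rw [hf1 k (by omega) hkp, hu _ (by omega)]
        push_cast
        field_simp
        ring
  have ch : ChF u N₃ p p 0 K f := by
    refine ⟨hp, fun k hk => ?_, hfu, fun k hk => ?_⟩
    · rcases Nat.eq_zero_or_pos k with rfl | h0
      · rw [hf0]
        omega
      · by_cases hkp : k = p
        · rw [hkp, hfp]
          omega
        · rw [hf1 k (by omega) hkp]
          omega
    · rw [hfu k hk, zero_add, abs_of_nonneg (by positivity)]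
      refine le_trans ?_ hK1
      rw [div_le_one hpR]
      exact_mod_cast hk
  have hzf : ∀ k < p, z (f k) (f (k + 1)) = ⌊(t + u (f (k + 1)) * q) * J⌋₊ -
      ⌊(t + u (f k) * q) * J⌋₊ := fun k hk =>
    hz _ (ch.fN k hk.le) _ (ch.fN (k + 1) hk) (ch.le hk).le
  have hgr := hT R W' (f := f) (n := p) (p := p) (k₀ := iK) ch (by omega) (by
      rw [huK, abs_one]
      exact hK1) hzf hε hY hy₁ hy₁' hεy hβ hy₂ (by
      refine le_trans ?_ hn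
      have : p ≤ (X + 1) * p := by omega
      exact_mod_cast this) hSl (fun k hk => by
      rw [hfu k hk.le, huK, zero_add]
      have h1 : (k : ℝ) / p ≤ 1 := by
        rw [div_le_one hpR]
        exact_mod_cast hk.le
      have h2 : 0 ≤ (Sl (i - 1) - Sl i) * (1 - k / p) := mul_nonneg (by linarith) (by linarith)
      linarith) ω hω
  rw [hf0, hfp] at hgr
  rw [kpol_rt F c htJ, ← (W'.ev it (by omega)).cls ω hω i (by omega), abs_sub_comm]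
  exact hgr

end Pool.TN
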