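import Pool.Agent.H88.D2.Mcx

/-!
# The event of a static cell with the closed gradient at a ball, class level
-/

set_option autoImplicit false

namespace Pool.TN

open Finset Real MvPolynomial
open Pool.Agent.H49.Ent Pool.Agent.H32.Dense Pool.STK Pool.KA Pool.KSAT Pool.K2S Pool.PB Pool.S6C
open Pool.GEN Pool.CHT Pool.CHX Pool.ISO Pool.D2R Pool.D2Z Pool.D2F
open Pool.AVG57 (LbsE ClU CGr)
open Pool.FLF (Fam.sub)
open Pool.D2T (sh sh_rt sh_deg)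
open Pool.PB.Trl (rt rt_mem t_rt)
open Pool.BFL (Pb)
open Pool.PKG (RecQ Kd)

/-- The numbers of the Remez inequality. -/
theorem rem_num {C ε₁ d : ℝ} {J : ℕ} (hC : 1 ≤ C) (hd1 : d ≤ 1)
    (h1 : C * ε₁ ≤ d * Real.log 2 / 2) (h2 : 4 * C ≤ d * Real.log 2 * J) :
    C * (ε₁ * J + 1) ≤ d * J * Real.log 2 ∧
      C * Real.exp (C * (ε₁ * J + 1)) ≤ (2 : ℝ) ^ ((1 : ℝ) * J) := by
  have hJ : (0 : ℝ) ≤ J := Nat.cast_nonneg J
  have hL : 0 < Real.log 2 := Real.log_pos one_lt_two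
  have h3 := mul_le_mul_of_nonneg_right h1 hJ
  have h4 : C * (ε₁ * J + 1) ≤ d * J * Real.log 2 / 2 + C := by
    calc C * (ε₁ * J + 1) = C * ε₁ * J + C := by ring
      _ ≤ d * Real.log 2 / 2 * J + C := by linarith
      _ = _ := by ring
  have h5 : d * Real.log 2 * J = d * J * Real.log 2 := by ring
  refine ⟨by linarith, ?_⟩
  have h6 : C ≤ Real.exp C := by
    have := Real.add_one_le_exp C
    linarith
  have h7 : C * Real.exp (C * (ε₁ * J + 1)) ≤ Real.exp (C + C * (ε₁ * J + 1)) := by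
    rw [Real.exp_add]
    exact mul_le_mul_of_nonneg_right h6 (Real.exp_pos _).le
  refine h7.trans ?_
  rw [Real.rpow_def_of_pos two_pos]
  refine Real.exp_le_exp.2 ?_
  have h8 : d * J * Real.log 2 ≤ 1 * J * Real.log 2 :=
    mul_le_mul_of_nonneg_right (mul_le_mul_of_nonneg_right hd1 hJ) hL.le
  have h9 : Real.log 2 * (1 * (J : ℝ)) = 1 * J * Real.log 2 := by ring
  rw [h9]
  linarith

open Pool.D2R in
/-- **The event of a static cell with the closed gradient at the ball.** `u it = 0`: the window of the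
line, `u iK = 1`: the ball; the windows `-1 + k / p` are additional. -/
theorem cevm (m v S₀ : ℕ) (hv1 : 1 ≤ v) (hv2 : v ≤ 2) (hS₀ : 1 ≤ S₀) : ∃ D₀ : ℕ, 1 ≤ D₀ ∧
    ∀ S₂ : ℕ, S₀ ≤ S₂ → ∃ D : ℕ, D₀ ≤ D ∧ ∀ Dr : ℕ, D ≤ Dr → ∀ (Sl : ℕ → ℝ) (y gp : ℝ), 0 < y →
    y ≤ 1 / 8 → 0 < gp → (∀ l, 1 ≤ l → l ≤ 2 → l < v + 1 → 1 < Sl l) →
    (v + 1 = 3 → Sl 0 < Sl 1 ∧ Sl 0 < Sl 2) →
    ∀ (X : ℕ) (Sm ξ qr μ vj κ₂ dW τ yp : ℝ), 1 ≤ X → 0 < yp →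
    (Sl (v + 1) ≤ Sl v ∨ MuN v X Sl Sm ξ qr μ vj κ₂ dW τ) →
    ∃ (n₀ p : ℕ) (s ε₀ y' : ℝ), 1 ≤ n₀ ∧ 1 ≤ p ∧ 0 < s ∧ (n₀ + 1) * s ≤ gp ∧ 0 < ε₀ ∧ 0 < y' ∧
    y' ≤ y ∧
    ∀ {S : PCl m} {P P₂ : List (Fin m) × Fin m → ℝ → ℝ → ℝ} {θ θ₂ : ℝ} {c : ℕ → Fin m}
    {Pt : ℝ → ℝ → ℝ} {L T : ℕ → ℝ → ℝ → ℝ} {kd : ℕ → Kd} {N : ℕ} {A V : ℕ → ℝ} {N' : ℕ}
    {V' : ℕ → ℝ} {Eb e₂ K ε q t : ℝ},
    RecQ S P P₂ θ θ₂ c (v + 1) Pt L T Sl kd S₀ N A V S₂ N' V' Eb e₂ K ε q t → 0 ≤ ε →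
    ε ≤ ε₀ → 2 ≤ K → ∀ (A' : ℝ) (N₁ it iK : ℕ) (u : ℕ → ℝ) (Sc : ℕ → Prop), A' ≤ K →
    it ≤ N₁ → iK ≤ N₁ → u it = 0 → u iK = 1 →
    (∀ k ≤ N₁, -K + 1 ≤ u k ∧ u k + gp ≤ A') → X + gp ≤ A' →
    (∀ k ≤ N₁, ∃ j < N, A j = A' ∧ V j = u k) →
    (∀ k ≤ (X + 1) * p, u (N₁ + 1 + k) = -1 + k / p) →
    (∀ k ≤ (X + 1) * p, ∃ j < N', V' j = -1 + k / p) →
    (∀ k ≤ N₁, ∀ j, 1 ≤ j → j ≤ n₀ → ∃ j' < N', V' j' = u k + j * s) →
    (∀ l < v + 1, ¬ Sc l → kd l = .one ∨ kd l = .thin) →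
    ∀ (pl sl : ℕ → ℝ) (ι : ℝ) (k₁ : ℕ), (∀ l ≤ v + 1, pl l ≤ L l (t - q) (t - q) - yp * q ∧
      L l (t - q) (t - q) ≤ sl l) →
    (Sl (v + 1) ≤ Sl v ∨ CGr S c v D₀ (t - q) (dW * q) (t + vj * q) (t + X * q) pl sl (qr * q)
      (ξ * q) (μ * q) κ₂ ι k₁ (1 / 2)) →
    ∃ K₁ : ℝ, 0 < K₁ ∧ ∀ κ : ℝ, 0 < κ → Bas S (fun J F A₀ =>
      ∃ (M : ℕ) (z : ℕ → ℕ → ℕ) (B : F.Ω → Prop) (e h pp : ℕ → ℕ) (g gc gT g₀ : ℕ → ℕ → ℕ)
        (G : ℕ → PtT F → ℕ → MvPolynomial (Option (Fin m)) ℝ)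
        (H : ℕ → LnT F → ℕ → MvPolynomial (Option (Fin m)) ℝ)
        (Th : ℕ → PtT F → ℕ → MvPolynomial (Option (Fin m)) ℝ)
        (TH : ℕ → LnT F → ℕ → MvPolynomial (Option (Fin m)) ℝ)
        (Gt : ℕ → PtT F → MvPolynomial (Option (Fin m)) ℝ)
        (Ht : ℕ → LnT F → MvPolynomial (Option (Fin m)) ℝ)
        (mu : LnT F → Polynomial ℝ), Sub B A₀ ∧
        Pe F.p A₀ ≤ K₁ * Pe F.p B ∧
        CEv F c (v + 1) D Dr N₁ M ⌊(t + A' * q) * J⌋₊ ⌊y' * q * J⌋₊ Sc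
          (fun k => ⌊(t + u k * q) * J⌋₊) e h pp z g gc gT g₀ κ B G H Th TH Gt Ht ∧
        (∀ s, (mu s).natDegree ≤ D + D₀ + 1) ∧
        (∀ ω, B ω → |(mu (slam F ⌊(t + u it * q) * J⌋₊ ω)).eval (rt F ⌊(t + u it * q) * J⌋₊ ω) -
          gG G ω iK (v + 1) (some (c v))| ≤
          2 ^ ⌊y * q * J⌋₊ * 2 ^ g₀ iK v / 2 ^ g₀ iK (v + 1)) ∧
        ∀ k ≤ N₁, ((e k : ℝ) ≤ (Eb + y' * q) * J ∧ (h k : ℝ) ≤ y' * q * J) ∧
          (L (v + 1) (t + A' * q) (t + u k * q) * J - y' * q * J ≤ pp k ∧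
            (pp k : ℝ) ≤ L (v + 1) (t + A' * q) (t + u k * q) * J) ∧
          (∀ l ≤ v + 1, |(g₀ k l : ℝ) - L l (t + u k * q) (t + u k * q) * J| ≤ y' * q * J ∧
            |(g k l : ℝ) - L l (t + u k * q) (t + u k * q) * J| ≤ y' * q * J) ∧
          ∀ l < v + 1, Sc l → |(gT k l : ℝ) - L l (t + A' * q) (t + u k * q) * J| ≤
            y' * q * J) := by
  obtain ⟨D₀, hD₀, hcev⟩ := Pool.D2R.RecQ.cevx m (v + 1) S₀ (by omega) (by omega) hS₀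
  obtain ⟨Cl, hCl, hlbs⟩ := lbsE_of m D₀ v
  refine ⟨D₀, hD₀, fun S₂ hSS => ?_⟩
  obtain ⟨D, hDD, hcev⟩ := hcev S₂ hSS
  refine ⟨D, hDD, fun Dr hDr => ?_⟩
  obtain ⟨CB, hCB, hcev⟩ := hcev Dr hDr
  obtain ⟨Cg, hCg, hgrd⟩ := grdA D (v + 1)
  obtain ⟨Ca, hCa, hmuA⟩ := mu_evA D (v + 1) (by omega)
  obtain ⟨Cb, hCb, hmuB⟩ := mu_evB D (v + 1) (by omega)
  intro Sl y gp hy hy8 hgp hs1 hs3 X Sm ξ qr μ vj κ₂ dW τ yp hX hyp hMu
  have hCgR : (1 : ℝ) ≤ Cg := by exact_mod_cast hCg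
  have hCaR : (1 : ℝ) ≤ Ca := by exact_mod_cast hCa
  have hCbR : (1 : ℝ) ≤ Cb := by exact_mod_cast hCb
  obtain ⟨μ', hμ'0, hμ'⟩ : ∃ μ' : ℝ, 0 < μ' ∧ (MuN v X Sl Sm ξ qr μ vj κ₂ dW τ → μ' ≤ μ) := by
    by_cases h : 0 < μ
    · exact ⟨μ, h, fun _ => le_rfl⟩
    · exact ⟨1, one_pos, fun h' => absurd h'.m0 h⟩
  obtain ⟨β, hβ⟩ : ∃ β : ℝ, β = 1 + ∑ l ∈ range (v + 2), |Sl l| := ⟨_, rfl⟩
  have hβ1 : ∀ l ≤ v + 1, |Sl l| ≤ β := by
    intro l hl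
    have := Finset.single_le_sum (f := fun l => |Sl l|) (fun _ _ => abs_nonneg _)
      (Finset.mem_range.2 (show l < v + 2 by omega))
    rw [hβ]
    linarith
  have hβ0 : 0 < β := by
    rw [hβ]
    have : 0 ≤ ∑ l ∈ range (v + 2), |Sl l| := Finset.sum_nonneg fun _ _ => abs_nonneg _
    linarith
  obtain ⟨y₂, hy₂⟩ : ∃ y₂ : ℝ, y₂ = min (y / (2 * (Ca + Cb + 1))) (μ' / (2 * Cg)) := ⟨_, rfl⟩
  have hy₂0 : 0 < y₂ := by
    rw [hy₂]
    exact lt_min (by positivity) (by positivity)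
  have hy₂a : (Ca + Cb + 1) * y₂ ≤ y / 2 := by
    have h1 : y₂ ≤ y / (2 * (Ca + Cb + 1)) := by rw [hy₂]; exact min_le_left _ _
    rw [le_div_iff₀ (by positivity)] at h1
    linarith
  have hy₂b : Cg * y₂ ≤ μ' / 2 := by
    have h1 : y₂ ≤ μ' / (2 * Cg) := by rw [hy₂]; exact min_le_right _ _
    rw [le_div_iff₀ (by positivity)] at h1
    linarith
  have hy₂y : y₂ ≤ y := by
    have : y₂ ≤ (Ca + Cb + 1) * y₂ := le_mul_of_one_le_left hy₂0.le (by linarith)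
    linarith
  obtain ⟨y', hy'⟩ : ∃ y' : ℝ, y' = min (y₂ / 8) yp := ⟨_, rfl⟩
  have hy'0 : 0 < y' := by
    rw [hy']
    exact lt_min (by positivity) hyp
  have hy'a : y' ≤ y₂ / 8 := by rw [hy']; exact min_le_left _ _
  have hy'b : y' ≤ yp := by rw [hy']; exact min_le_right _ _
  obtain ⟨n₀, s, ε₀, y₁, hn₀, hs, hns, hε₀, hy₁, hCBy, hcev⟩ :=
    hcev Sl y' gp hy'0 (by linarith) hgp hs1 hs3
  have hy₁y : y₁ ≤ y' := (le_mul_of_one_le_left hy₁.le hCB).trans hCBy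
  obtain ⟨p, hp⟩ := exists_nat_ge (max (16 * β / y₂) (1 / gp))
  have hp1 : 16 * β ≤ y₂ * p := by
    have h1 := (le_max_left _ _).trans hp
    rw [div_le_iff₀ hy₂0] at h1
    linarith
  have hpR : (0 : ℝ) < p := by
    by_contra hcon
    have : y₂ * (p : ℝ) ≤ 0 := mul_nonpos_of_nonneg_of_nonpos hy₂0.le (not_lt.1 hcon)
    linarith
  have hp0 : 1 ≤ p := by
    have : 0 < p := by exact_mod_cast hpR
    omega
  have hpg : 1 / (p : ℝ) ≤ gp := by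
    have h1 := (le_max_right _ _).trans hp
    rw [div_le_iff₀ hgp] at h1
    rw [div_le_iff₀ hpR]
    linarith
  refine ⟨n₀, p, s, min ε₀ (y₂ / 16), y', hn₀, hp0, hs, hns, lt_min hε₀ (by positivity), hy'0,
    by linarith, ?_⟩
  intro S P P₂ θ θ₂ c Pt L T kd N A V N' V' Eb e₂ K ε q t R hε hεε hK A' N₁ it iK u Sc hAK hit hiK
    hut huK hub hXA hmn huc hxt hch hSc pl sl ι k₁ hpl hG
  have hεa : ε ≤ ε₀ := hεε.trans (min_le_left _ _)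
  have hεb : 16 * ε ≤ y₂ := by
    have := hεε.trans (min_le_right _ _)
    linarith
  have hq := R.q0
  have ht0 := R.t0
  have ht1 := R.t1
  obtain ⟨N₃, hN₃⟩ : ∃ N₃, N₃ = N₁ + 1 + (X + 1) * p := ⟨_, rfl⟩
  have hXR : (1 : ℝ) ≤ X := by exact_mod_cast hX
  have hcs : ∀ k ≤ N₃, k ≤ N₁ ∨ ∃ j ≤ (X + 1) * p, k = N₁ + 1 + j := fun k hk => by
    rcases Nat.lt_or_ge N₁ k with h | h
    · exact Or.inr ⟨k - (N₁ + 1), by omega, by omega⟩
    · exact Or.inl h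
  have hchb : ∀ k ≤ (X + 1) * p, -1 ≤ (-1 + k / p : ℝ) ∧ (-1 + k / p : ℝ) ≤ X := fun k hk => by
    have h1 : (0 : ℝ) ≤ k / p := by positivity
    have h2 : (k : ℝ) / p ≤ X + 1 := by
      rw [div_le_iff₀ hpR]
      have : (k : ℝ) ≤ ((X + 1) * p : ℕ) := by exact_mod_cast hk
      push_cast at this
      exact this
    constructor <;> linarith
  have hvb : ∀ k ≤ N₃, -K + 1 ≤ u k ∧ u k + gp ≤ A' := by
    intro k hk
    rcases hcs k hk with h | ⟨j, hj, rfl⟩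
    · exact hub k h
    · rw [huc j hj]
      have := hchb j hj
      constructor <;> linarith
  obtain ⟨r', hr'⟩ : ∃ r' : ℝ, r' = 1 / p / 2 := ⟨_, rfl⟩
  have hr'0 : 0 < r' := by rw [hr']; positivity
  obtain ⟨K₁, hK₁, hcev⟩ := hcev R hε hεa (by linarith) A' r' N₁ N₃ N₃ u Sc hAK hr'0 (by omega)
    hvb hmn (fun k h1 h2 => by
      rcases hcs k h2 with h | ⟨j, hj, rfl⟩
      · omega
      · rw [huc j hj]
        exact hxt j hj) hch hSc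
  refine ⟨4 * K₁, by positivity, fun κ hκ => ?_⟩
  have hB1 := hcev (κ / 4) (by positivity)
  -- the times
  obtain ⟨d, hd⟩ : ∃ d : ℝ, d = 1 - t := ⟨_, rfl⟩
  have hKq : 2 * q ≤ K * q := mul_le_mul_of_nonneg_right hK hq.le
  have hd0 : 0 < d := by rw [hd]; linarith
  have hd1 : d ≤ 1 := by rw [hd]; linarith
  have hL2 : 0 < Real.log 2 := Real.log_pos one_lt_two
  obtain ⟨ε₁, hε₁⟩ : ∃ ε₁ : ℝ, ε₁ = d * Real.log 2 / (2 * Cl) := ⟨_, rfl⟩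
  have hCl0 : 0 < Cl := by linarith
  have hε₁0 : 0 < ε₁ := by rw [hε₁]; positivity
  have hε₁1 : Cl * ε₁ ≤ d * Real.log 2 / 2 := by
    rw [hε₁]
    exact le_of_eq (by field_simp)
  have htm := bas_ev (R.tmh.2 ε₁ hε₁0) (κ := 1 / K₁) (by positivity)
  have hpos : Bas S (fun _ F A => 0 < Pe F.p A) := ⟨1, one_pos, 0, fun J _ F A hA =>
    R.tmh.1 1 J F A hA⟩
  have hGb : Bas S (fun J F A₀ => Sl (v + 1) ≤ Sl v ∨ ∀ B : F.Ω → Prop, Sub B A₀ →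
      1 / (2 * K₁) * Pe F.p A₀ ≤ Pe F.p B → ∀ (ks nn : ℕ) (gm : ℕ → ℕ)
      (G : ℕ → PtT F → ℕ → MvPolynomial (Option (Fin m)) ℝ)
      (H : LnT F → ℕ → MvPolynomial (Option (Fin m)) ℝ) (U : ℝ),
      LbsE F c v D₀ (t - q) pl sl 1 gm B (G 0) H → ClU F (v + 2) ks ⌊(t + vj * q) * J⌋₊ B G →
      ClU F (v + 2) nn ⌊(t + X * q) * J⌋₊ B G → ks ≤ nn →
      GrdE F c 0 (v + 1) ks nn ⌊qr * q * J⌋₊ ⌊ξ * q * J⌋₊ gm U B G →
      U ≤ 2 ^ (μ * q / 2 * J) →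
      ∃ W : ℕ, ⌊(t - q) * J⌋₊ ≤ W ∧ (W : ℝ) ≤ (t - q + dW * q) * J ∧
        ∃ mu : LnT F → Polynomial ℝ, (∀ s, (mu s).natDegree ≤ D₀ + 1) ∧
        Pb (Pool.Agent.H49.Ent.cond F.p B True) (fun ω => (2 : ℝ) ^ (-(κ₂ * ⌊ξ * q * J⌋₊)) <
          |gnh F c (v + 1) gm (G 0) (G nn) ω v -
            (mu (slam F W ω)).eval (rt F W ω)|) ≤ 1 / 2) := by
    rcases hG with hG | hG
    · exact ⟨1, one_pos, 0, fun _ _ _ _ _ => Or.inl hG⟩
    · refine Bas.mono 0 (bas_ev (hG 1) (κ := 1 / (2 * K₁)) (by positivity)) ?_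
      intro J _ F A₀ h
      refine Or.inr fun B b1 b2 ks nn gm G H U c1 c2 c3 c4 c5 c6 => ?_
      obtain ⟨W, w1, w2, mu, w3, -, w4⟩ := h B b1 b2 ks nn gm G H U c1 c2 c3 c4 c5 c6
      exact ⟨W, w1, w2, mu, w3, w4⟩
  -- large J
  obtain ⟨n, hn⟩ : ∃ n, n = (X + 1) * p := ⟨_, rfl⟩
  have hyq : 0 < y₂ * q := mul_pos hy₂0 hq
  obtain ⟨τ', hτ'0, hτ'⟩ : ∃ τ' : ℝ, 0 < τ' ∧ (MuN v X Sl Sm ξ qr μ vj κ₂ dW τ → τ' ≤ τ) := by
    by_cases h : 0 < τ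
    · exact ⟨τ, h, fun _ => le_rfl⟩
    · exact ⟨1, one_pos, fun h' => absurd h'.t0 h⟩
  obtain ⟨J₁, hJ₁⟩ := exists_nat_ge ((8 + n + 8 * |κ₂|) / (y₂ * q))
  obtain ⟨J₂, hJ₂⟩ := exists_nat_ge (4 / (τ' * q))
  obtain ⟨J₃, hJ₃⟩ := exists_nat_ge (1 / (r' * q))
  obtain ⟨J₄, hJ₄⟩ := exists_nat_ge (4 * Cl / (d * Real.log 2))
  refine Bas.mono (max (max J₁ J₂) (max J₃ J₄)) (((hB1.and htm).and hpos).and hGb) ?_
  rintro J hJ F A₀ ⟨⟨⟨hA1, hA2⟩, hA0⟩, hA3⟩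
  have hJ0 : (0 : ℝ) ≤ J := Nat.cast_nonneg J
  have hJa : 8 + n + 8 * |κ₂| ≤ y₂ * (q * J) := by
    have h1 : (J₁ : ℝ) ≤ J := by
      exact_mod_cast ((le_max_left _ _).trans (le_max_left _ _)).trans hJ
    have h2 := hJ₁.trans h1
    rw [div_le_iff₀ hyq] at h2
    linarith
  have hJb : 4 ≤ τ' * (q * J) := by
    have h1 : (J₂ : ℝ) ≤ J := by
      exact_mod_cast ((le_max_right _ _).trans (le_max_left _ _)).trans hJ
    have h2 := hJ₂.trans h1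
    rw [div_le_iff₀ (mul_pos hτ'0 hq)] at h2
    linarith
  have hJc : 1 ≤ r' * (q * J) := by
    have h1 : (J₃ : ℝ) ≤ J := by
      exact_mod_cast ((le_max_left _ _).trans (le_max_right _ _)).trans hJ
    have h2 := hJ₃.trans h1
    rw [div_le_iff₀ (mul_pos hr'0 hq)] at h2
    linarith
  have hJd : 4 * Cl ≤ d * Real.log 2 * J := by
    have h1 : (J₄ : ℝ) ≤ J := by
      exact_mod_cast ((le_max_right _ _).trans (le_max_right _ _)).trans hJ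
    have h2 := hJ₄.trans h1
    rw [div_le_iff₀ (by positivity)] at h2
    linarith
  have hκa : 0 ≤ |κ₂| := abs_nonneg _
  have hn0 : (0 : ℝ) ≤ n := Nat.cast_nonneg n
  obtain ⟨Y, hY⟩ : ∃ Y : ℕ, Y = ⌊y₂ * (q * J)⌋₊ := ⟨_, rfl⟩
  have hYl : y₂ * (q * J) - 1 ≤ Y := by
    rw [hY]
    linarith [Nat.lt_floor_add_one (y₂ * (q * J))]
  have hYu : (Y : ℝ) ≤ y₂ * (q * J) := by
    rw [hY]
    exact Nat.floor_le (by positivity)
  have hnY : (((X + 1) * p : ℕ) : ℝ) ≤ 2 ^ Y := by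
    rw [← hn]
    have h1 : n ≤ Y := by
      have : (n : ℝ) ≤ Y := by linarith
      exact_mod_cast this
    calc (n : ℝ) ≤ ((2 ^ n : ℕ) : ℝ) := by exact_mod_cast Nat.lt_two_pow_self.le
      _ = 2 ^ n := by push_cast; ring
      _ ≤ 2 ^ Y := pow_le_pow_right₀ (by norm_num) h1
  have hmulq : ∀ {x y : ℝ}, x ≤ y → x * q ≤ y * q := fun h => mul_le_mul_of_nonneg_right h hq.le
  have hmulJ : ∀ {x y : ℝ}, x ≤ y → x * (J : ℝ) ≤ y * J := fun h =>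
    mul_le_mul_of_nonneg_right h hJ0
  -- the radii
  obtain ⟨z, hz⟩ : ∃ z : ℕ → ℕ → ℕ, z = fun k k' => if u k + 1 / p ≤ u k' ∧ k' ≤ N₃ then
      ⌊(t + u k' * q) * J⌋₊ - ⌊(t + u k * q) * J⌋₊ else
      ⌊(t + A' * q) * J⌋₊ - ⌊(t + u k * q) * J⌋₊ := ⟨_, rfl⟩
  have hpos' : ∀ k ≤ N₃, 0 ≤ t + u k * q := fun k hk => by
    have := hmulq (show -K ≤ u k by linarith [(hvb k hk).1])
    linarith
  have hflo : ∀ x y : ℝ, 0 ≤ t + x * q → x + 1 / p ≤ y →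
      r' * q * J ≤ ((⌊(t + y * q) * J⌋₊ - ⌊(t + x * q) * J⌋₊ : ℕ) : ℝ) := by
    intro x y hx hxy
    have h1 : (⌊(t + x * q) * J⌋₊ : ℝ) ≤ (t + x * q) * J := Nat.floor_le (mul_nonneg hx hJ0)
    have h2 := (Nat.lt_floor_add_one ((t + y * q) * (J : ℝ))).le
    have hpp : (0 : ℝ) < 1 / p := by positivity
    have h3 : ⌊(t + x * q) * J⌋₊ ≤ ⌊(t + y * q) * J⌋₊ :=
      Nat.floor_le_floor (hmulJ (by linarith [hmulq (show x ≤ y by linarith)]))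
    rw [Nat.cast_sub h3]
    have h4 : (x + 1 / p) * q * J ≤ y * q * J := hmulJ (hmulq hxy)
    have h5 : 1 / (p : ℝ) = 2 * r' := by rw [hr']; ring
    rw [h5] at h4
    have h6 : (x + 2 * r') * q * J = x * q * J + 2 * (r' * (q * J)) := by ring
    have h7 : r' * q * J = r' * (q * J) := by ring
    rw [h6] at h4
    rw [h7]
    linarith
  have hz1 : ∀ k ≤ N₃, ∀ k' ≤ N₃, r' * q * J ≤ z k k' ∧
      z k k' ≤ ⌊(t + A' * q) * J⌋₊ - ⌊(t + u k * q) * J⌋₊ := by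
    intro k hk k' hk'
    rw [hz]
    beta_reduce
    split_ifs with h1
    · refine ⟨hflo _ _ (hpos' k hk) h1.1, Nat.sub_le_sub_right (Nat.floor_le_floor
        (hmulJ ?_)) _⟩
      have := hmulq (show u k' ≤ A' by linarith [(hvb k' hk').2])
      linarith
    · exact ⟨hflo _ _ (hpos' k hk) (by linarith [(hvb k hk).2]), le_rfl⟩
  have hz2 : ∀ k ≤ N₃, ∀ k' ≤ N₃, u k + 1 / p ≤ u k' → z k k' = ⌊(t + u k' * q) * J⌋₊ -
      ⌊(t + u k * q) * J⌋₊ := fun k _ k' hk' h => by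
    rw [hz]
    exact if_pos ⟨h, hk'⟩
  obtain ⟨B, e, h, pp, b, g, gc, gT, g₀, G, H, Th, TH, Gt, Ht, hBA, hBP, E, W, hE0, hnum⟩ :=
    hA1 z hz1
  have hpn := Pe_nonneg F.isLaw
  have hB0 : 0 < Pe F.p B := by
    by_contra hcon
    have h2 : Pe F.p B = 0 := le_antisymm (not_lt.1 hcon) (hpn _)
    rw [h2, mul_zero] at hBP
    linarith
  have hAJ : ⌊(t + A' * q) * J⌋₊ ≤ J := E.AJ
  have htJ : ⌊t * (J : ℝ)⌋₊ ≤ J := by
    have h1 : ⌊t * (J : ℝ)⌋₊ ≤ ⌊(1 : ℝ) * J⌋₊ := Nat.floor_le_floor (hmulJ (by linarith))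
    rwa [one_mul, Nat.floor_natCast] at h1
  have hut' : ⌊(t + u it * q) * (J : ℝ)⌋₊ = ⌊t * (J : ℝ)⌋₊ := by
    rw [hut, zero_mul, add_zero]
  have hCBy' : 4 * (CB * y₁) ≤ y₂ := by linarith
  have hy₁8 : 8 * y₁ ≤ y₂ := by linarith
  have hy₂8 : 8 ≤ y₂ * (q * J) := by linarith
  -- the final bound
  have hfin : ∀ C : ℕ, C ≤ Ca + Cb → (2 : ℝ) ^ (C * Y) ≤ 2 ^ ⌊y * q * J⌋₊ := by
    intro C hC
    refine pow_le_pow_right₀ (by norm_num) (Nat.le_floor ?_)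
    push_cast
    have h1 : (C : ℝ) ≤ Ca + Cb := by exact_mod_cast hC
    have h2 : (C : ℝ) * Y ≤ (Ca + Cb) * (y₂ * (q * J)) :=
      mul_le_mul h1 hYu (Nat.cast_nonneg _) (by linarith)
    have h3 := mul_le_mul_of_nonneg_right hy₂a (show 0 ≤ q * (J : ℝ) by positivity)
    have h4 : 0 ≤ y * (q * J) := by positivity
    have h5 : y * q * J = y * (q * J) := by ring
    have h6 : (Ca + Cb + 1) * y₂ * (q * J) = (Ca + Cb) * (y₂ * (q * J)) + y₂ * (q * J) := by ring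
    rw [h5]
    linarith
  have hnat : ∀ {C : ℕ} {x : ℝ}, C ≤ Ca + Cb →
      x ≤ 2 ^ (C * Y) * (2 ^ g₀ iK v / 2 ^ g₀ iK (v + 1)) →
      x ≤ 2 ^ ⌊y * q * J⌋₊ * 2 ^ g₀ iK v / 2 ^ g₀ iK (v + 1) := by
    intro C x hC hx
    refine hx.trans ?_
    rw [mul_div_assoc]
    exact mul_le_mul_of_nonneg_right (hfin C hC) (by positivity)
  by_cases hcs' : Sl (v + 1) ≤ Sl v
  · -- the steep case
    refine ⟨N₃, z, B, e, h, pp, g, gc, gT, g₀, G, H, Th, TH, Gt, Ht,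
      fun s => kpol c ⌊(t + u it * q) * J⌋₊ (fun s => H it s (v + 1)) s v, hBA, ?_, ?_, ?_, ?_, hnum⟩
    · have := mul_nonneg hK₁.le (hpn B)
      linarith
    · have := E.sb (B' := B) (κ₁ := 1) (κ₂ := κ) (fun _ h => h) (by rw [one_mul]) hκ.le (by linarith)
      exact this
    · intro s
      exact (kpol_deg c _ (fun s => (W.ev it (by omega)).ball.degH s (v + 1)) s v).trans
        (by omega)
    · intro ω hω
      exact hnat (C := Cb) (by omega) (hmuB R W hp0 hX hN₃ hit hiK hut huK huc (by linarith) hz2 hε hY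
        hCBy' hy₁8 hεb hp1 hy₂8 hnY hβ1 hcs' (by rw [hut']; exact htJ) ω hω)
  · -- the critical case
    have MU : MuN v X Sl Sm ξ qr μ vj κ₂ dW τ := hMu.resolve_left hcs'
    have hA3' := hA3.resolve_left hcs'
    have hX2 := MU.X2
    have huw : u (N₁ + 1) = -1 := by
      have := huc 0 (Nat.zero_le _)
      rw [add_zero, Nat.cast_zero, zero_div, add_zero] at this
      exact this
    have hwq : t + u (N₁ + 1) * q = t - q := by rw [huw]; ring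
    have hev := hE0 (N₁ + 1) (by omega) (by omega)
    beta_reduce at hev
    rw [hwq] at hev
    -- the coefficient bounds
    obtain ⟨r1, r2⟩ := rem_num (J := J) hCl hd1 hε₁1 hJd
    have hwJ : (⌊(t - q) * (J : ℝ)⌋₊ : ℝ) ≤ (t - q) * J := Nat.floor_le (by
      have : 0 ≤ t - q := by linarith
      positivity)
    have hwJ' : ⌊(t - q) * (J : ℝ)⌋₊ ≤ J := le_trans (Nat.floor_le_floor (hmulJ (by linarith)))
      htJ
    have hqJ : 0 ≤ q * (J : ℝ) := by positivity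
    obtain ⟨B₁, b1, b2, b3⟩ := hlbs (K := D₀) (E := 1) (p := pl) (s := sl) hB0 hev le_rfl hwJ'
      (θ := ε₁ * J) (by positivity) (hA2 B hBA (by
        rw [div_mul_eq_mul_div, one_mul, div_le_iff₀ hK₁]
        linarith) hB0) (by
        refine r1.trans (mul_le_mul_of_nonneg_right ?_ hL2.le)
        rw [hd]
        linarith) r2 (fun l hl => by
        have h1 := (W.sds (N₁ + 1) (by omega) l hl).1
        rw [hwq] at h1
        refine Nat.floor_le_of_le (le_trans (hmulJ ?_) h1)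
        have h2 := (hpl l hl).1
        have h3 := hmulq (show y₁ ≤ yp by linarith)
        linarith) (fun l hl => by
        have h1 := (W.sds (N₁ + 1) (by omega) l hl).2
        rw [hwq] at h1
        exact h1.trans (hmulJ (hpl l hl).2))
    have hB₁0 : 0 < Pe F.p B₁ := by linarith
    -- the chain
    obtain ⟨f, hf⟩ : ∃ f : ℕ → ℕ, f = fun k => N₁ + 1 + k := ⟨_, rfl⟩
    have hfk : ∀ k, f k = N₁ + 1 + k := fun k => by rw [hf]
    have hf0 : f 0 = N₁ + 1 := hfk 0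
    have ch : ChF u N₃ n p (-1) K f := by
      refine ⟨hp0, fun k hk => by rw [hfk]; omega, fun k hk => by rw [hfk, huc k (by omega)],
        fun k hk => ?_⟩
      rw [hfk, huc k (by omega)]
      have h1 := hchb k (by omega)
      have h2 : (X : ℝ) ≤ K := by linarith
      rw [abs_le]
      constructor <;> linarith
    obtain ⟨ks, hks⟩ : ∃ ks : ℕ, ks = ⌊(vj + 1) * p⌋₊ := ⟨_, rfl⟩
    have hj0 := MU.j0
    have hj1 := MU.j1
    have hksu : (ks : ℝ) ≤ (vj + 1) * p := by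
      rw [hks]
      exact Nat.floor_le (mul_nonneg (by linarith) hpR.le)
    have hksl : (vj + 1) * p - 1 ≤ ks := by
      rw [hks]
      linarith [Nat.lt_floor_add_one ((vj + 1) * (p : ℝ))]
    have hksn : ks ≤ n := by
      have h1 : (vj + 1) * (p : ℝ) ≤ (X + 1) * p := mul_le_mul_of_nonneg_right (by linarith) hpR.le
      have h2 : (ks : ℝ) ≤ n := by
        rw [hn]
        push_cast
        linarith
      exact_mod_cast h2
    have hnp : (n : ℝ) / p = X + 1 := by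
      rw [hn]
      push_cast
      field_simp
    have hSb0 : 0 ≤ Sl (v + 1) - Sm := by linarith [MU.sb]
    have hSbβ : Sl (v + 1) - Sm ≤ β := by
      have := (abs_le.1 (hβ1 (v + 1) le_rfl)).2
      linarith [MU.Sm0]
    have hgr := hgrd R W (f := f) (n := n) (p := p) (ks := ks) (Y := Y) (β := β) (Sm := Sm)
      (qr := qr) (ξ := ξ) (τ := τ) ch (fun k hk => hz2 _ (ch.fN k hk.le) _ (ch.fN (k + 1) hk)
        (ch.le hk).le) hε hY hCBy' hεb hp1 hy₂8 (by rw [hn]; exact hnY) hβ1 MU.Sm0 MU.sb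
      (fun l hl => MU.sm l (by omega)) hksn (by rw [hnp]; exact MU.q1) (by rw [hnp]; exact MU.q2)
      MU.x0 MU.x1 (by
        have h1 : (vj + 1) - 1 / p ≤ ks / p := by
          rw [le_div_iff₀ hpR]
          have : (vj + 1 - 1 / p) * p = (vj + 1) * p - 1 := by field_simp
          linarith
        have h2 := mul_le_mul_of_nonneg_left h1 hSb0
        have h3 : (Sl (v + 1) - Sm) * (vj + 1 - 1 / p) = (Sl (v + 1) - Sm) * (vj + 1) -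
          (Sl (v + 1) - Sm) * (1 / p) := by ring
        have h4 : (Sl (v + 1) - Sm) * (1 / p) ≤ β * (1 / p) :=
          mul_le_mul_of_nonneg_right hSbβ (by positivity)
        have h5 : β * (1 / p) = β / p := by ring
        have h6 : 0 ≤ β / p := by positivity
        linarith [MU.j2]) (by
        have := mul_le_mul_of_nonneg_right (hτ' MU) hqJ
        linarith)
    have hgr' : GrdE F c 0 (v + 1) ks n ⌊qr * q * J⌋₊ ⌊ξ * q * J⌋₊ (g₀ (f 0)) (2 ^ (Cg * Y)) B₁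
        (fun k => G (f k)) :=
      ⟨hgr.U0, fun ω hω => hgr.bm ω (b1 ω hω), fun ω ν hω hν => hgr.bj ω ν (b1 ω hω) (b1 ν hν),
        fun ω ν hω hν => hgr.bx ω ν (b1 ω hω) (b1 ν hν),
        fun ω ν hω hν => hgr.nx ω ν (b1 ω hω) (b1 ν hν)⟩
    have hcl : ∀ (kk : ℕ) (x : ℝ), kk ≤ n → (kk : ℝ) / p ≤ x + 1 →
        ClU F (v + 2) kk ⌊(t + x * q) * J⌋₊ B₁ (fun k => G (f k)) := by
      intro kk x hkk hx k hk
      refine ⟨⌊(t + u (f k) * q) * J⌋₊, H (f k), Nat.floor_le_floor (hmulJ ?_), fun ω hω l hl =>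
        (W.ev (f k) (ch.fN k (hk.trans hkk))).cls ω (b1 ω hω) l (by omega)⟩
      have h1 : u (f k) ≤ x := by
        rw [ch.fu k (hk.trans hkk)]
        have : (k : ℝ) / p ≤ kk / p := div_le_div_of_nonneg_right (by exact_mod_cast hk) hpR.le
        linarith
      linarith [hmulq h1]
    obtain ⟨Wm, w1, w2, mu, w3, w4⟩ := hA3' B₁ (fun ω hω => hBA ω (b1 ω hω)) (by
        rw [div_mul_eq_mul_div, one_mul, div_le_iff₀ (by positivity)]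
        have h1 := mul_le_mul_of_nonneg_left b2 hK₁.le
        linarith) ks n (g₀ (N₁ + 1)) (fun k => G (f k)) (H (N₁ + 1)) (2 ^ (Cg * Y)) (by
        rw [hf0]
        exact b3) (hcl ks vj hksn (by
        rw [div_le_iff₀ hpR]
        exact hksu)) (hcl n X le_rfl (by rw [hnp])) hksn (by rw [← hf0]; exact hgr') (by
        rw [← Real.rpow_natCast]
        refine Real.rpow_le_rpow_of_exponent_le one_le_two ?_
        push_cast
        have h1 : (Cg : ℝ) * Y ≤ Cg * (y₂ * (q * J)) := mul_le_mul_of_nonneg_left hYu (by linarith)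
        have h2 := mul_le_mul_of_nonneg_right hy₂b hqJ
        have h3 := mul_le_mul_of_nonneg_right (hμ' MU) hqJ
        have h4 : μ * q / 2 * J = μ * (q * J) / 2 := by ring
        rw [h4]
        linarith)
    have hgh := good_half F.isLaw hB₁0 w4
    obtain ⟨B₂, hB₂⟩ : ∃ B₂ : F.Ω → Prop, B₂ = fun ω => B₁ ω ∧
        |gnh F c (v + 1) (g₀ (N₁ + 1)) (G (f 0)) (G (f n)) ω v -
          (mu (slam F Wm ω)).eval (rt F Wm ω)| ≤ (2 : ℝ) ^ (-(κ₂ * ⌊ξ * q * J⌋₊)) := ⟨_, rfl⟩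
    have hP2 : Pe F.p B₁ / 2 ≤ Pe F.p B₂ := by
      rw [hB₂]
      exact hgh
    have s1 : Sub B₂ B₁ := fun ω hω => by
      rw [hB₂] at hω
      exact hω.1
    have s2 : Sub B₂ B := fun ω hω => b1 ω (s1 ω hω)
    have hWt : Wm ≤ ⌊t * (J : ℝ)⌋₊ := by
      refine Nat.le_floor (w2.trans (hmulJ ?_))
      have := hmulq MU.d1
      linarith
    have hmuE := hmuA R W (N₁ := N₁) (X := X) (iK := iK) (W := Wm) hp0 hX2 hN₃ hiK huK huc
      (by linarith) hz2 hε hY hCBy' hy₁8 hεb hp1 hy₂8 hnY hβ1 (show Sl (v + 1 - 1) ≤ Sl (v + 1) by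
        rw [Nat.add_sub_cancel]
        linarith) MU.k0 (by
        have := le_abs_self κ₂
        linarith) MU.x0 (show (Sl (v + 1) - Sl (v + 1 - 1)) * 2 ≤ κ₂ * ξ by
        rw [Nat.add_sub_cancel]
        exact MU.kx) htJ hWt mu B₂ s2 (fun ω hω => by
        rw [hB₂] at hω
        have h1 := hω.2
        rw [hf0, hfk, hn] at h1
        rw [Nat.add_sub_cancel]
        exact h1)
    refine ⟨N₃, z, B₂, e, h, pp, g, gc, gT, g₀, G, H, Th, TH, Gt, Ht,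
      fun s => muC c ⌊t * J⌋₊ Wm ⌊(t + u (N₁ + 1) * q) * J⌋₊ (v + 1) (g₀ (N₁ + 1)) mu
        (H (N₁ + 1)) s, fun ω hω => hBA ω (s2 ω hω), ?_, ?_, ?_, ?_, hnum⟩
    · have h1 := mul_le_mul_of_nonneg_left (show Pe F.p B ≤ 4 * Pe F.p B₂ by linarith) hK₁.le
      linarith
    · exact E.sb (B' := B₂) (κ₁ := 1 / 4) (κ₂ := κ) s2 (by linarith) hκ.le (by linarith)
    · intro s
      exact (muC_deg w3 (fun s => (W.ev (N₁ + 1) (by omega)).ball.degH s (v + 1)) s).trans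
        (max_le (by omega) (by omega))
    · intro ω hω
      rw [hut']
      exact hnat (C := Ca) (by omega) (hmuE ω hω)

end Pool.TN
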