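import Mathlib

/-!
# The algebra of the third place over two static ones
-/

set_option autoImplicit false

namespace Pool.TN

/-- **The closed gradient of the third place**: the algebra. -/
theorem nov_alg {n0 n1 n2 n3 W Aw T0 T1 T2 U y y₂ k10 k20 k21 k10' k20' k21' g10 g20 g21 g30 g31
    g32 f0 f1 f2 de z2 zz z0 N3 mu : ℝ} (p0 : 0 < n0) (p1 : 0 < n1) (p2 : 0 < n2) (p3 : 0 < n3)
    (pW : 0 < W) (pA : 0 < Aw) (pT0 : 0 < T0) (pT2 : 0 < T2) (hU : 1 ≤ U)
    (hy : 1 ≤ y) (hy₂ : 1 ≤ y₂) (h1 : n1 * |k10 - g10| ≤ U * n0)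
    (h2 : T1 * |k10 - k10'| ≤ U * T0)
    (h3 : T2 * |(k20 + k21 * k10) - (k20' + k21' * k10)| ≤ U * (T0 + T1 * |k10 - k10'|))
    (h3' : T2 * |k21 - k21'| ≤ U * T1)
    (h4 : n2 * |(k20 + k21 * k10) - (g20 + g21 * k10)| ≤ U * (n0 + n1 * |k10 - g10|))
    (h4' : n2 * |k21 + de - g21| ≤ U * n1)
    (h5 : n3 * Aw * |(g30 - f0) + (g31 - f1) * k10 + (g32 - f2) * (k20 + k21 * k10)| ≤
      U * ((T0 + T1 * |k10 - k10'| + T2 * |(k20 + k21 * k10) - (k20' + k21' * k10)|) +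
        Aw * (n0 + n1 * |k10 - g10| + n2 * |(k20 + k21 * k10) - (g20 + g21 * k10)|)))
    (h5' : n3 * Aw * |(g31 - f1) + (g32 - f2) * (k21 + de)| ≤
      U * ((T1 + T2 * |k21 + de - k21'|) + Aw * (n1 + n2 * |k21 + de - g21|)))
    (h6 : n2 * Aw * |g21 - k21| ≤ U * (T1 + Aw * n1))
    (t0 : T0 ≤ U * (n0 * Aw)) (t1 : T1 ≤ n1 * Aw * y) (t2 : T2 ≤ n2 * Aw * y₂)
    (h8 : n1 * |zz| ≤ U * (W * n0)) (h8' : n2 * |z2 - (g21 - k21) * zz| ≤ U * (W * n0))
    (h8'' : n3 * |N3 - ((g31 - f1) + (g32 - f2) * k21) * zz - (g32 - f2) * z2| ≤ U * (W * n0))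
    (h9 : W * n0 ≤ U * (n1 * |z0|)) (h9' : |zz - z0| * (y * y₂) ≤ |z0|)
    (h10 : n3 * |g32 - mu| ≤ U * n2) (v0 v1 v2 : ℝ) :
    n3 * |f0 * v0 + f1 * v1 + f2 * v2 +
      (v1 - k10 * v0) * ((N3 - (z2 - de * zz) * (mu - f2)) / z0) +
      (v2 - ((k20 - de * k10) * v0 + (k21 + de) * v1)) * (mu - f2) -
      (g30 * v0 + g31 * v1 + g32 * v2)| ≤
    22 * U ^ 5 * (n0 * |v0| + n1 * |v1 - g10 * v0| + n2 * |v2 - (g20 * v0 + g21 * v1)|) := by
  have hU0 : 0 < U := by linarith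
  have hU2 : U ≤ U ^ 2 := by nlinarith
  have hU3 : U ^ 2 ≤ U ^ 3 := by nlinarith [sq_nonneg U]
  have hU4 : U ^ 3 ≤ U ^ 4 := by
    have : U ^ 4 = U ^ 3 * U := by ring
    rw [this]
    exact le_mul_of_one_le_right (by positivity) hU
  have hU5 : U ^ 4 ≤ U ^ 5 := by
    have : U ^ 5 = U ^ 4 * U := by ring
    rw [this]
    exact le_mul_of_one_le_right (by positivity) hU
  have hyy : 1 ≤ y * y₂ := by nlinarith
  have hyy' : y ≤ y * y₂ := le_mul_of_one_le_right (by linarith) hy₂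
  have hz0 : 0 < |z0| := by
    by_contra hcon
    have h11 : |z0| = 0 := le_antisymm (not_lt.1 hcon) (abs_nonneg _)
    rw [h11, mul_zero, mul_zero] at h9
    nlinarith [mul_pos pW p0]
  have hz00 : z0 ≠ 0 := abs_pos.1 hz0
  -- A
  obtain ⟨eP, heP⟩ : ∃ x, x = (g30 - f0) + (g31 - f1) * k10 + (g32 - f2) * (k20 + k21 * k10) :=
    ⟨_, rfl⟩
  obtain ⟨ac, hac⟩ : ∃ x, x = (g31 - f1) + (g32 - f2) * (k21 + de) := ⟨_, rfl⟩
  rw [← heP] at h5
  rw [← hac] at h5'
  have A1 : T2 * |(k20 + k21 * k10) - (k20' + k21' * k10)| ≤ 2 * U ^ 2 * T0 := by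
    refine h3.trans ?_
    have : U * (T0 + T1 * |k10 - k10'|) ≤ U * (T0 + U * T0) :=
      mul_le_mul_of_nonneg_left (by linarith) hU0.le
    refine this.trans ?_
    have e1 : U * (T0 + U * T0) = U * T0 + U ^ 2 * T0 := by ring
    have e2 := mul_le_mul_of_nonneg_right hU2 pT0.le
    rw [e1]
    linarith
  have A2 : n2 * |(k20 + k21 * k10) - (g20 + g21 * k10)| ≤ 2 * U ^ 2 * n0 := by
    refine h4.trans ?_
    have : U * (n0 + n1 * |k10 - g10|) ≤ U * (n0 + U * n0) :=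
      mul_le_mul_of_nonneg_left (by linarith) hU0.le
    refine this.trans ?_
    have e1 : U * (n0 + U * n0) = U * n0 + U ^ 2 * n0 := by ring
    have e2 := mul_le_mul_of_nonneg_right hU2 p0.le
    rw [e1]
    linarith
  have A3 : n3 * |eP| ≤ 8 * U ^ 4 * n0 := by
    have e1 : U * ((T0 + T1 * |k10 - k10'| + T2 * |(k20 + k21 * k10) - (k20' + k21' * k10)|) +
        Aw * (n0 + n1 * |k10 - g10| + n2 * |(k20 + k21 * k10) - (g20 + g21 * k10)|)) ≤
        U * ((T0 + U * T0 + 2 * U ^ 2 * T0) + Aw * (n0 + U * n0 + 2 * U ^ 2 * n0)) :=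
      mul_le_mul_of_nonneg_left (add_le_add (by linarith)
        (mul_le_mul_of_nonneg_left (by linarith) pA.le)) hU0.le
    have e2 : T0 + U * T0 + 2 * U ^ 2 * T0 ≤ 4 * U ^ 2 * T0 := by
      have a1 := mul_le_mul_of_nonneg_right hU2 pT0.le
      have a2 := mul_le_mul_of_nonneg_right hU pT0.le
      linarith
    have e3 : n0 + U * n0 + 2 * U ^ 2 * n0 ≤ 4 * U ^ 2 * n0 := by
      have a1 := mul_le_mul_of_nonneg_right hU2 p0.le
      have a2 := mul_le_mul_of_nonneg_right hU p0.le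
      linarith
    have e4 : 4 * U ^ 2 * T0 ≤ 4 * U ^ 3 * (n0 * Aw) := by
      have a1 := mul_le_mul_of_nonneg_left t0 (show 0 ≤ 4 * U ^ 2 by positivity)
      have a2 : 4 * U ^ 2 * (U * (n0 * Aw)) = 4 * U ^ 3 * (n0 * Aw) := by ring
      linarith
    have e5 : Aw * (4 * U ^ 2 * n0) ≤ 4 * U ^ 3 * (n0 * Aw) := by
      have a1 := mul_le_mul_of_nonneg_right hU3 (show 0 ≤ 4 * (n0 * Aw) by positivity)
      have a2 : Aw * (4 * U ^ 2 * n0) = U ^ 2 * (4 * (n0 * Aw)) := by ring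
      have a3 : 4 * U ^ 3 * (n0 * Aw) = U ^ 3 * (4 * (n0 * Aw)) := by ring
      rw [a2, a3]
      exact a1
    have e6 : n3 * Aw * |eP| ≤ U * (8 * U ^ 3 * (n0 * Aw)) := by
      refine (h5.trans e1).trans (mul_le_mul_of_nonneg_left ?_ hU0.le)
      have a1 := mul_le_mul_of_nonneg_left e3 pA.le
      linarith
    have e7 : n3 * |eP| * Aw ≤ 8 * U ^ 4 * n0 * Aw := by
      have a1 : n3 * Aw * |eP| = n3 * |eP| * Aw := by ring
      have a2 : U * (8 * U ^ 3 * (n0 * Aw)) = 8 * U ^ 4 * n0 * Aw := by ring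
      rw [← a1, ← a2]
      exact e6
    exact le_of_mul_le_mul_right e7 pA
  -- B
  have B1 : n2 * |de| ≤ 3 * U * n1 * y := by
    have e1 : de = (k21 + de - g21) + (g21 - k21) := by ring
    have e2 : n2 * |de| ≤ n2 * |k21 + de - g21| + n2 * |g21 - k21| := by
      have a1 := abs_add_le (k21 + de - g21) (g21 - k21)
      rw [← e1] at a1
      have a2 := mul_le_mul_of_nonneg_left a1 p2.le
      linarith
    have e3 : n2 * |g21 - k21| ≤ U * (n1 * y + n1) := by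
      have a1 : n2 * |g21 - k21| * Aw ≤ U * (n1 * y + n1) * Aw := by
        calc n2 * |g21 - k21| * Aw = n2 * Aw * |g21 - k21| := by ring
          _ ≤ U * (T1 + Aw * n1) := h6
          _ ≤ U * (n1 * Aw * y + Aw * n1) := mul_le_mul_of_nonneg_left (by linarith) hU0.le
          _ = _ := by ring
      exact le_of_mul_le_mul_right a1 pA
    have e4 : U * n1 ≤ U * n1 * y := le_mul_of_one_le_right (by positivity) hy
    have e5 : U * (n1 * y + n1) = U * n1 * y + U * n1 := by ring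
    rw [e5] at e3
    have e6 : 3 * U * n1 * y = U * n1 * y + U * n1 * y + U * n1 * y := by ring
    rw [e6]
    linarith
  -- C
  have C1 : T2 * |k21 + de - k21'| ≤ 4 * U * (Aw * n1) * (y * y₂) := by
    have e1 : k21 + de - k21' = (k21 - k21') + de := by ring
    have e2 : T2 * |k21 + de - k21'| ≤ T2 * |k21 - k21'| + T2 * |de| := by
      rw [e1]
      have a2 := mul_le_mul_of_nonneg_left (abs_add_le (k21 - k21') de) pT2.le
      linarith
    have e3 : T2 * |de| ≤ 3 * U * (Aw * n1) * (y * y₂) := by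
      calc T2 * |de| ≤ n2 * Aw * y₂ * |de| := mul_le_mul_of_nonneg_right t2 (abs_nonneg _)
        _ = Aw * y₂ * (n2 * |de|) := by ring
        _ ≤ Aw * y₂ * (3 * U * n1 * y) := mul_le_mul_of_nonneg_left B1 (by positivity)
        _ = _ := by ring
    have e4 : U * T1 ≤ U * (Aw * n1) * (y * y₂) := by
      calc U * T1 ≤ U * (n1 * Aw * y) := mul_le_mul_of_nonneg_left t1 hU0.le
        _ = U * (Aw * n1) * y := by ring
        _ ≤ _ := mul_le_mul_of_nonneg_left hyy' (by positivity)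
    have e5 : 4 * U * (Aw * n1) * (y * y₂) = U * (Aw * n1) * (y * y₂) +
        3 * U * (Aw * n1) * (y * y₂) := by ring
    rw [e5]
    linarith
  -- D
  have D1 : n3 * |ac| ≤ 7 * U ^ 2 * n1 * (y * y₂) := by
    obtain ⟨G, hG⟩ : ∃ G, G = Aw * n1 * (y * y₂) := ⟨_, rfl⟩
    have hG0 : 0 < G := by rw [hG]; positivity
    have e1 : T1 ≤ G := by
      rw [hG]
      calc T1 ≤ n1 * Aw * y := t1
        _ = (Aw * n1) * y := by ring
        _ ≤ _ := mul_le_mul_of_nonneg_left hyy' (by positivity)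
    have e2 : Aw * n1 ≤ G := by
      rw [hG]
      exact le_mul_of_one_le_right (by positivity) hyy
    have e3 : T2 * |k21 + de - k21'| ≤ 4 * U * G := by
      rw [hG]
      refine C1.trans (le_of_eq ?_)
      ring
    have e4 : Aw * (n1 + n2 * |k21 + de - g21|) ≤ G + U * G := by
      have a1 : Aw * (n1 + n2 * |k21 + de - g21|) ≤ Aw * (n1 + U * n1) :=
        mul_le_mul_of_nonneg_left (by linarith) pA.le
      have a2 : Aw * (n1 + U * n1) = Aw * n1 + U * (Aw * n1) := by ring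
      have a3 := mul_le_mul_of_nonneg_left e2 hU0.le
      linarith
    have e5 : G ≤ U * G := le_mul_of_one_le_left hG0.le hU
    have e6 : n3 * Aw * |ac| ≤ U * (7 * U * G) :=
      h5'.trans (mul_le_mul_of_nonneg_left (by linarith) hU0.le)
    have e7 : n3 * |ac| * Aw ≤ 7 * U ^ 2 * n1 * (y * y₂) * Aw := by
      have a1 : n3 * Aw * |ac| = n3 * |ac| * Aw := by ring
      have a2 : U * (7 * U * G) = 7 * U ^ 2 * n1 * (y * y₂) * Aw := by
        rw [hG]
        ring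
      rw [← a1, ← a2]
      exact e6
    exact le_of_mul_le_mul_right e7 pA
  -- E
  have E1 : n2 * |z2 - de * zz| ≤ 2 * U ^ 2 * (W * n0) := by
    have e1 : z2 - de * zz = (z2 - (g21 - k21) * zz) - (k21 + de - g21) * zz := by ring
    have e2 := mul_le_mul_of_nonneg_left (abs_sub (z2 - (g21 - k21) * zz)
      ((k21 + de - g21) * zz)) p2.le
    rw [← e1, abs_mul] at e2
    have e3 : n2 * (|k21 + de - g21| * |zz|) ≤ U * (U * (W * n0)) := by
      calc n2 * (|k21 + de - g21| * |zz|) = n2 * |k21 + de - g21| * |zz| := by ring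
        _ ≤ U * n1 * |zz| := mul_le_mul_of_nonneg_right h4' (abs_nonneg _)
        _ = U * (n1 * |zz|) := by ring
        _ ≤ _ := mul_le_mul_of_nonneg_left h8 hU0.le
    have e4 := mul_le_mul_of_nonneg_right hU2 (show 0 ≤ W * n0 by positivity)
    have e5 : U * (U * (W * n0)) = U ^ 2 * (W * n0) := by ring
    rw [e5] at e3
    rw [mul_add] at e2
    linarith
  -- F
  obtain ⟨al, hal⟩ : ∃ al, al = (N3 - (z2 - de * zz) * (mu - f2)) / z0 := ⟨_, rfl⟩
  rw [← hal]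
  have F0 : (al - ac) * z0 = (N3 - ((g31 - f1) + (g32 - f2) * k21) * zz - (g32 - f2) * z2) +
      (z2 - de * zz) * (g32 - mu) + (zz - z0) * ac := by
    have e1 : al * z0 = N3 - (z2 - de * zz) * (mu - f2) := by
      rw [hal]
      field_simp
    have e2 : (al - ac) * z0 = al * z0 - ac * z0 := by ring
    rw [e2, e1, hac]
    ring
  have F1 : n3 * |al - ac| * |z0| ≤ 10 * U ^ 4 * n1 * |z0| := by
    have e1 : n3 * |al - ac| * |z0| = n3 * |(al - ac) * z0| := by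
      rw [abs_mul]
      ring
    rw [e1, F0]
    obtain ⟨X1, hX1⟩ : ∃ x, x = N3 - ((g31 - f1) + (g32 - f2) * k21) * zz - (g32 - f2) * z2 :=
      ⟨_, rfl⟩
    rw [← hX1] at h8'' ⊢
    have e2 : |X1 + (z2 - de * zz) * (g32 - mu) + (zz - z0) * ac| ≤
        |X1| + |z2 - de * zz| * |g32 - mu| + |zz - z0| * |ac| := by
      refine (abs_add_le _ _).trans (add_le_add ((abs_add_le _ _).trans (le_of_eq ?_))
        (le_of_eq ?_))
      · rw [abs_mul]
      · rw [abs_mul]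
    have e3 := mul_le_mul_of_nonneg_left e2 p3.le
    have e4 : n3 * (|z2 - de * zz| * |g32 - mu|) ≤ 2 * U ^ 3 * (W * n0) := by
      calc n3 * (|z2 - de * zz| * |g32 - mu|) = |z2 - de * zz| * (n3 * |g32 - mu|) := by ring
        _ ≤ |z2 - de * zz| * (U * n2) := mul_le_mul_of_nonneg_left h10 (abs_nonneg _)
        _ = U * (n2 * |z2 - de * zz|) := by ring
        _ ≤ U * (2 * U ^ 2 * (W * n0)) := mul_le_mul_of_nonneg_left E1 hU0.le
        _ = _ := by ring
    have e5 : n3 * (|zz - z0| * |ac|) ≤ 7 * U ^ 2 * (n1 * |z0|) := by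
      calc n3 * (|zz - z0| * |ac|) = |zz - z0| * (n3 * |ac|) := by ring
        _ ≤ |zz - z0| * (7 * U ^ 2 * n1 * (y * y₂)) :=
            mul_le_mul_of_nonneg_left D1 (abs_nonneg _)
        _ = 7 * U ^ 2 * n1 * (|zz - z0| * (y * y₂)) := by ring
        _ ≤ 7 * U ^ 2 * n1 * |z0| := mul_le_mul_of_nonneg_left h9' (by positivity)
        _ = _ := by ring
    obtain ⟨H, hH⟩ : ∃ H, H = n1 * |z0| := ⟨_, rfl⟩
    have hH0 : 0 < H := by rw [hH]; positivity
    rw [← hH] at h9 e5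
    have e6 : U * (W * n0) + 2 * U ^ 3 * (W * n0) ≤ 3 * U ^ 4 * H := by
      have a1 : U * (W * n0) + 2 * U ^ 3 * (W * n0) ≤ 3 * U ^ 3 * (W * n0) := by
        have := mul_le_mul_of_nonneg_right (hU2.trans hU3) (show 0 ≤ W * n0 by positivity)
        linarith
      have a2 := mul_le_mul_of_nonneg_left h9 (show 0 ≤ 3 * U ^ 3 by positivity)
      have a3 : 3 * U ^ 3 * (U * H) = 3 * U ^ 4 * H := by ring
      linarith
    have e7 : 7 * U ^ 2 * H ≤ 7 * U ^ 4 * H := by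
      have := mul_le_mul_of_nonneg_right (hU3.trans hU4) (show 0 ≤ 7 * H by positivity)
      have a1 : 7 * U ^ 2 * H = U ^ 2 * (7 * H) := by ring
      have a2 : 7 * U ^ 4 * H = U ^ 4 * (7 * H) := by ring
      rw [a1, a2]
      exact this
    have e8 : 10 * U ^ 4 * n1 * |z0| = 3 * U ^ 4 * H + 7 * U ^ 4 * H := by
      rw [hH]
      ring
    rw [e8]
    have e9 : n3 * (|X1| + |z2 - de * zz| * |g32 - mu| + |zz - z0| * |ac|) = n3 * |X1| +
        n3 * (|z2 - de * zz| * |g32 - mu|) + n3 * (|zz - z0| * |ac|) := by ring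
    rw [e9] at e3
    linarith
  have F2 : n3 * |al - ac| ≤ 10 * U ^ 4 * n1 := le_of_mul_le_mul_right F1 hz0
  -- G
  obtain ⟨En, hEn⟩ : ∃ E, E = n0 * |v0| + n1 * |v1 - g10 * v0| +
      n2 * |v2 - (g20 * v0 + g21 * v1)| := ⟨_, rfl⟩
  rw [← hEn]
  have s0 : 0 ≤ n0 * |v0| := by positivity
  have s1 : 0 ≤ n1 * |v1 - g10 * v0| := by positivity
  have s2 : 0 ≤ n2 * |v2 - (g20 * v0 + g21 * v1)| := by positivity
  have hE0 : 0 ≤ En := by rw [hEn]; linarith
  have G1 : n1 * |v1 - k10 * v0| ≤ U * En := by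
    have e1 : v1 - k10 * v0 = (v1 - g10 * v0) - (k10 - g10) * v0 := by ring
    have e2 := mul_le_mul_of_nonneg_left (abs_sub (v1 - g10 * v0) ((k10 - g10) * v0)) p1.le
    rw [← e1, abs_mul] at e2
    have e3 : n1 * (|k10 - g10| * |v0|) ≤ U * (n0 * |v0|) := by
      calc n1 * (|k10 - g10| * |v0|) = n1 * |k10 - g10| * |v0| := by ring
        _ ≤ U * n0 * |v0| := mul_le_mul_of_nonneg_right h1 (abs_nonneg _)
        _ = _ := by ring
    have e4 : n1 * |v1 - g10 * v0| ≤ U * (n1 * |v1 - g10 * v0|) := le_mul_of_one_le_left s1 hU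
    have e5 := mul_nonneg hU0.le s2
    rw [hEn, mul_add, mul_add]
    rw [mul_add] at e2
    linarith
  obtain ⟨lv, hlv⟩ : ∃ x, x = (k20 - de * k10) * v0 + (k21 + de) * v1 := ⟨_, rfl⟩
  rw [← hlv]
  have G2 : n2 * |v2 - lv| ≤ 4 * U ^ 2 * En := by
    have e1 : v2 - lv = (v2 - (g20 * v0 + g21 * v1)) -
        (((k20 + k21 * k10) - (g20 + g21 * k10)) * v0 +
          (k21 + de - g21) * (v1 - k10 * v0)) := by
      rw [hlv]
      ring
    have e2 : |v2 - lv| ≤ |v2 - (g20 * v0 + g21 * v1)| +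
        (|(k20 + k21 * k10) - (g20 + g21 * k10)| * |v0| +
          |k21 + de - g21| * |v1 - k10 * v0|) := by
      rw [e1]
      refine (abs_sub _ _).trans (add_le_add le_rfl ((abs_add_le _ _).trans (le_of_eq ?_)))
      rw [abs_mul, abs_mul]
    have e3 := mul_le_mul_of_nonneg_left e2 p2.le
    have e4 : n2 * (|(k20 + k21 * k10) - (g20 + g21 * k10)| * |v0|) ≤ 2 * U ^ 2 * En := by
      calc n2 * (|(k20 + k21 * k10) - (g20 + g21 * k10)| * |v0|) =
            n2 * |(k20 + k21 * k10) - (g20 + g21 * k10)| * |v0| := by ring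
        _ ≤ 2 * U ^ 2 * n0 * |v0| := mul_le_mul_of_nonneg_right A2 (abs_nonneg _)
        _ = 2 * U ^ 2 * (n0 * |v0|) := by ring
        _ ≤ _ := mul_le_mul_of_nonneg_left (by rw [hEn]; linarith) (by positivity)
    have e5 : n2 * (|k21 + de - g21| * |v1 - k10 * v0|) ≤ U ^ 2 * En := by
      calc n2 * (|k21 + de - g21| * |v1 - k10 * v0|) =
            n2 * |k21 + de - g21| * |v1 - k10 * v0| := by ring
        _ ≤ U * n1 * |v1 - k10 * v0| := mul_le_mul_of_nonneg_right h4' (abs_nonneg _)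
        _ = U * (n1 * |v1 - k10 * v0|) := by ring
        _ ≤ U * (U * En) := mul_le_mul_of_nonneg_left G1 hU0.le
        _ = _ := by ring
    have e6 : n2 * |v2 - (g20 * v0 + g21 * v1)| ≤ U ^ 2 * En := by
      have a1 : n2 * |v2 - (g20 * v0 + g21 * v1)| ≤ En := by rw [hEn]; linarith
      have a2 : En ≤ U ^ 2 * En := le_mul_of_one_le_left hE0 (hU.trans hU2)
      exact a1.trans a2
    rw [mul_add, mul_add] at e3
    linarith
  -- the end
  have H0 : f0 * v0 + f1 * v1 + f2 * v2 + (v1 - k10 * v0) * al + (v2 - lv) * (mu - f2) -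
      (g30 * v0 + g31 * v1 + g32 * v2) = -(v0 * eP) + (v1 - k10 * v0) * (al - ac) -
        (v2 - lv) * (g32 - mu) := by
    rw [heP, hac, hlv]
    ring
  rw [H0]
  have H1 : |-(v0 * eP) + (v1 - k10 * v0) * (al - ac) - (v2 - lv) * (g32 - mu)| ≤
      |v0| * |eP| + |v1 - k10 * v0| * |al - ac| + |v2 - lv| * |g32 - mu| := by
    refine (abs_sub _ _).trans (add_le_add ((abs_add_le _ _).trans (le_of_eq ?_)) (le_of_eq ?_))
    · rw [abs_neg, abs_mul, abs_mul]
    · rw [abs_mul]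
  have H2 := mul_le_mul_of_nonneg_left H1 p3.le
  have H3 : n3 * (|v0| * |eP|) ≤ 8 * U ^ 5 * En := by
    calc n3 * (|v0| * |eP|) = |v0| * (n3 * |eP|) := by ring
      _ ≤ |v0| * (8 * U ^ 4 * n0) := mul_le_mul_of_nonneg_left A3 (abs_nonneg _)
      _ = 8 * U ^ 4 * (n0 * |v0|) := by ring
      _ ≤ 8 * U ^ 5 * En := mul_le_mul (by linarith) (by rw [hEn]; linarith) s0
          (by positivity)
  have H4 : n3 * (|v1 - k10 * v0| * |al - ac|) ≤ 10 * U ^ 5 * En := by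
    calc n3 * (|v1 - k10 * v0| * |al - ac|) = |v1 - k10 * v0| * (n3 * |al - ac|) := by ring
      _ ≤ |v1 - k10 * v0| * (10 * U ^ 4 * n1) := mul_le_mul_of_nonneg_left F2 (abs_nonneg _)
      _ = 10 * U ^ 4 * (n1 * |v1 - k10 * v0|) := by ring
      _ ≤ 10 * U ^ 4 * (U * En) := mul_le_mul_of_nonneg_left G1 (by positivity)
      _ = _ := by ring
  have H5 : n3 * (|v2 - lv| * |g32 - mu|) ≤ 4 * U ^ 5 * En := by
    calc n3 * (|v2 - lv| * |g32 - mu|) = |v2 - lv| * (n3 * |g32 - mu|) := by ring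
      _ ≤ |v2 - lv| * (U * n2) := mul_le_mul_of_nonneg_left h10 (abs_nonneg _)
      _ = U * (n2 * |v2 - lv|) := by ring
      _ ≤ U * (4 * U ^ 2 * En) := mul_le_mul_of_nonneg_left G2 hU0.le
      _ = 4 * U ^ 3 * En := by ring
      _ ≤ _ := mul_le_mul_of_nonneg_right (by linarith) hE0
  rw [mul_add, mul_add] at H2
  linarith

end Pool.TN
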