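import Pool.Agent.H88.D2.Uow
import Pool.Agent.H88.D2.Noa

/-!
# The third place over two static coordinates

`CEv.nov`: over one rough coordinate (place zero) and two static ones (places one and two), the ball
chart of the place three has a closed gradient, natural at the ball, if its component in the
direction of the place two has.
-/

set_option autoImplicit false

namespace Pool.TN

open Finset Real MvPolynomial
open Pool.Agent.H49.Ent Pool.Agent.H32.Dense Pool.STK Pool.KA Pool.KSAT Pool.K2S Pool.PB Pool.S6C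
open Pool.GEN Pool.CHT Pool.CHX Pool.ISO Pool.D2R Pool.D2Z Pool.D2F
open Pool.LBT (ThrOf)
open Pool.FLF (Fam.sub)
open Pool.PB.Trl (rt rt_mem t_rt)

variable {m J : ℕ}

/-! ### Vectors and norms in three coordinates -/

/-- The vector with the components `a`, `b`, `d` and without time component. -/
noncomputable def tvc (c : ℕ → Fin m) (a b d : ℝ) : Option (Fin m) → ℝ := fun o =>
  if o = some (c 0) then a else if o = some (c 1) then b else if o = some (c 2) then d else 0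

theorem tvc_n (c : ℕ → Fin m) (a b d : ℝ) : tvc c a b d none = 0 := by
  unfold tvc
  simp

theorem tvc_0 (c : ℕ → Fin m) (a b d : ℝ) : tvc c a b d (some (c 0)) = a := by
  unfold tvc
  simp

theorem tvc_1 {c : ℕ → Fin m} (hc : Set.InjOn c (Set.Iio 3)) (a b d : ℝ) :
    tvc c a b d (some (c 1)) = b := by
  have h1 : c 1 ≠ c 0 := fun h => absurd (hc (by simp) (by simp) h) (by norm_num)
  unfold tvc
  rw [if_neg (fun h => h1 (Option.some_injective _ h)), if_pos rfl]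

theorem tvc_2 {c : ℕ → Fin m} (hc : Set.InjOn c (Set.Iio 3)) (a b d : ℝ) :
    tvc c a b d (some (c 2)) = d := by
  have h1 : c 2 ≠ c 0 := fun h => absurd (hc (by simp) (by simp) h) (by norm_num)
  have h2 : c 2 ≠ c 1 := fun h => absurd (hc (by simp) (by simp) h) (by norm_num)
  unfold tvc
  rw [if_neg (fun h => h1 (Option.some_injective _ h)),
    if_neg (fun h => h2 (Option.some_injective _ h)), if_pos rfl]

theorem cvx1 {c : ℕ → Fin m} (hc : Set.InjOn c (Set.Iio 3)) {W : Option (Fin m) → ℝ}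
    (hW : CvC c 1 W) {V : Option (Fin m) → ℝ} (hV : V none = 0) :
    cv W V = W (some (c 0)) * V (some (c 0)) := by
  rw [cv_eq (hc.mono (Set.Iio_subset_Iio (by norm_num))) hW, hV, mul_zero, zero_add,
    Finset.sum_range_one]

theorem cvx2 {c : ℕ → Fin m} (hc : Set.InjOn c (Set.Iio 3)) {W : Option (Fin m) → ℝ}
    (hW : CvC c 2 W) {V : Option (Fin m) → ℝ} (hV : V none = 0) :
    cv W V = W (some (c 0)) * V (some (c 0)) + W (some (c 1)) * V (some (c 1)) := by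
  rw [cv_eq (hc.mono (Set.Iio_subset_Iio (by norm_num))) hW, hV, mul_zero, zero_add,
    Finset.sum_range_succ, Finset.sum_range_one]

theorem cvx3 {c : ℕ → Fin m} (hc : Set.InjOn c (Set.Iio 3)) {W : Option (Fin m) → ℝ}
    (hW : CvC c 3 W) {V : Option (Fin m) → ℝ} (hV : V none = 0) :
    cv W V = W (some (c 0)) * V (some (c 0)) + W (some (c 1)) * V (some (c 1)) +
      W (some (c 2)) * V (some (c 2)) := by
  rw [cv_eq hc hW, hV, mul_zero, zero_add, Finset.sum_range_succ, Finset.sum_range_succ,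
    Finset.sum_range_one]

theorem enx1 {c : ℕ → Fin m} (g : ℕ → ℕ) (a : ℕ)
    {χ : ℕ → Option (Fin m) → ℝ} (hχ : ∀ l, CvC c l (χ l)) {V : Option (Fin m) → ℝ}
    (hV : V none = 0) : en c g a χ 1 V = 2 ^ g 0 * |V (some (c 0))| := by
  rw [en_succ, en_zero, hV, cv_c0 (hχ 0) hV]
  simp

theorem enx2 {c : ℕ → Fin m} (hc : Set.InjOn c (Set.Iio 3)) (g : ℕ → ℕ) (a : ℕ)
    {χ : ℕ → Option (Fin m) → ℝ} (hχ : ∀ l, CvC c l (χ l)) {V : Option (Fin m) → ℝ}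
    (hV : V none = 0) : en c g a χ 2 V = 2 ^ g 0 * |V (some (c 0))| +
      2 ^ g 1 * |V (some (c 1)) - χ 1 (some (c 0)) * V (some (c 0))| := by
  rw [show (2 : ℕ) = 1 + 1 from rfl, en_succ, enx1 g a hχ hV, cvx1 hc (hχ 1) hV]

theorem enx3 {c : ℕ → Fin m} (hc : Set.InjOn c (Set.Iio 3)) (g : ℕ → ℕ) (a : ℕ)
    {χ : ℕ → Option (Fin m) → ℝ} (hχ : ∀ l, CvC c l (χ l)) {V : Option (Fin m) → ℝ}
    (hV : V none = 0) : en c g a χ 3 V = 2 ^ g 0 * |V (some (c 0))| +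
      2 ^ g 1 * |V (some (c 1)) - χ 1 (some (c 0)) * V (some (c 0))| +
      2 ^ g 2 * |V (some (c 2)) - (χ 2 (some (c 0)) * V (some (c 0)) +
        χ 2 (some (c 1)) * V (some (c 1)))| := by
  rw [show (3 : ℕ) = 2 + 1 from rfl, en_succ, enx2 hc g a hχ hV, cvx2 hc (hχ 2) hV]

/-- A bound in natural units. -/
theorem ex_nat {x K : ℝ} {A q w g g0 s : ℕ} (hK : 0 ≤ K)
    (h : |x| ≤ K * (2 ^ A / 2 ^ q + 2 ^ w / 2 ^ g) * 2 ^ g0) (hA : A + g ≤ q + w + s) :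
    2 ^ g * |x| ≤ K * 2 ^ (s + 1) * (2 ^ w * 2 ^ g0) := by
  refine (mul_le_mul_of_nonneg_left h (by positivity)).trans ?_
  have e1 : (2 : ℝ) ^ g * (K * (2 ^ A / 2 ^ q + 2 ^ w / 2 ^ g) * 2 ^ g0) =
      K * ((2 ^ A * 2 ^ g / 2 ^ q) + 2 ^ w) * 2 ^ g0 := by field_simp
  rw [e1]
  have e2 : (2 : ℝ) ^ A * 2 ^ g / 2 ^ q ≤ 2 ^ s * 2 ^ w := by
    rw [div_le_iff₀ (by positivity), ← pow_add, ← pow_add, ← pow_add]
    exact p2 (by omega)
  have e3 : (2 : ℝ) ^ w ≤ 2 ^ s * 2 ^ w := le_mul_of_one_le_left (by positivity)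
    (one_le_pow₀ (by norm_num))
  have e4 : K * 2 ^ (s + 1) * (2 ^ w * 2 ^ g0) = K * (2 ^ s * 2 ^ w + 2 ^ s * 2 ^ w) *
      (2 : ℝ) ^ g0 := by
    rw [pow_succ]
    ring
  rw [e4]
  exact mul_le_mul_of_nonneg_right (mul_le_mul_of_nonneg_left (add_le_add e2 e3) hK)
    (by positivity)

/-- A bound of a row in natural units. -/
theorem row_nat {x eT eG : ℝ} {cl q g a s : ℕ} (hT : 0 ≤ eT) (hG : 0 ≤ eG)
    (h : |x| ≤ 2 ^ cl / 2 ^ q * eT + 2 ^ cl / 2 ^ g * eG) (hq : g + a ≤ q + s) :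
    2 ^ g * 2 ^ a * |x| ≤ 2 ^ (cl + s) * (eT + 2 ^ a * eG) := by
  refine (mul_le_mul_of_nonneg_left h (by positivity)).trans ?_
  have e1 : (2 : ℝ) ^ g * 2 ^ a * (2 ^ cl / 2 ^ q * eT + 2 ^ cl / 2 ^ g * eG) =
      2 ^ cl * (2 ^ g * 2 ^ a / 2 ^ q) * eT + 2 ^ cl * (2 ^ a * eG) := by field_simp
  rw [e1, mul_add, pow_add]
  have e2 : (2 : ℝ) ^ g * 2 ^ a / 2 ^ q ≤ 2 ^ s := by
    rw [div_le_iff₀ (by positivity), ← pow_add, ← pow_add]
    exact p2 (by omega)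
  have e3 : (1 : ℝ) ≤ 2 ^ s := one_le_pow₀ (by norm_num)
  refine add_le_add (mul_le_mul_of_nonneg_right (mul_le_mul_of_nonneg_left e2
    (by positivity)) hT) (mul_le_mul_of_nonneg_right (le_mul_of_one_le_right (by positivity) e3)
    (by positivity))

/-- A bound of a chart in natural units. -/
theorem tt_nat {x e : ℝ} {cl q g s : ℕ} (he : 0 ≤ e) (h : |x| ≤ 2 ^ cl / 2 ^ q * e)
    (hq : g ≤ q + s) : 2 ^ g * |x| ≤ 2 ^ (cl + s) * e := by
  refine (mul_le_mul_of_nonneg_left h (by positivity)).trans ?_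
  rw [← mul_assoc]
  refine mul_le_mul_of_nonneg_right ?_ he
  rw [mul_div_assoc', div_le_iff₀ (by positivity), ← pow_add, ← pow_add]
  exact p2 (by omega)

/-! ### The closed gradient -/

/-- **The numerator** of the correction of the direction of the static place one. -/
noncomputable def nuN {F : Fam m J} (c : ℕ → Fin m) (t q q₁ : ℕ)
    (TH Φ : LnT F → ℕ → MvPolynomial (Option (Fin m)) ℝ) (mu : LnT F → Polynomial ℝ)
    (s : LnT F) : Polynomial ℝ :=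
  (Polynomial.derivative (kpol c t (ltr Φ q₁ 0) s 0) +
    Polynomial.derivative (kpol c t (ltr Φ q₁ 0) s 1) * kpol c t (ltr TH q 1) s 0 +
    Polynomial.derivative (kpol c t (ltr Φ q₁ 0) s 2) *
      (kpol c t (ltr TH q 2) s 0 + kpol c t (ltr TH q 2) s 1 * kpol c t (ltr TH q 1) s 0)) -
  (Polynomial.derivative (kpol c t (ltr TH q 2) s 0) +
    Polynomial.derivative (kpol c t (ltr TH q 2) s 1) * kpol c t (ltr TH q 1) s 0 -
    dlU c t q 2 TH s * Polynomial.derivative (kpol c t (ltr TH q 1) s 0)) *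
      (mu s - kpol c t (ltr Φ q₁ 0) s 2)

/-- **The closed correction** of the direction of the static place one. -/
noncomputable def alN {F : Fam m J} (c : ℕ → Fin m) (t q q₁ : ℕ)
    (TH Φ : LnT F → ℕ → MvPolynomial (Option (Fin m)) ℝ) (mu : LnT F → Polynomial ℝ)
    (s : LnT F) : Polynomial ℝ :=
  Polynomial.C (((Polynomial.derivative (kpol c t (ltr TH q 1) s 0)).eval 0)⁻¹) *
    nuN c t q q₁ TH Φ mu s

/-- **The closed gradient** of the place three over two static places. -/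
noncomputable def lamN {F : Fam m J} (c : ℕ → Fin m) (t q q₁ : ℕ)
    (TH Φ : LnT F → ℕ → MvPolynomial (Option (Fin m)) ℝ) (mu : LnT F → Polynomial ℝ)
    (s : LnT F) (j : ℕ) : Polynomial ℝ :=
  if j = 0 then kpol c t (ltr Φ q₁ 0) s 0 - kpol c t (ltr TH q 1) s 0 * alN c t q q₁ TH Φ mu s -
      lamU c t q TH s 0 * (mu s - kpol c t (ltr Φ q₁ 0) s 2)
  else if j = 1 then kpol c t (ltr Φ q₁ 0) s 1 + alN c t q q₁ TH Φ mu s -
      lamU c t q TH s 1 * (mu s - kpol c t (ltr Φ q₁ 0) s 2)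
  else mu s

theorem lamN_deg {F : Fam m J} {c : ℕ → Fin m} {t q q₁ D D₁ : ℕ}
    {TH Φ : LnT F → ℕ → MvPolynomial (Option (Fin m)) ℝ} {mu : LnT F → Polynomial ℝ}
    (h : ∀ s l, (TH s l).totalDegree ≤ D) (hΦ : ∀ s l, (Φ s l).totalDegree ≤ D)
    (hm : ∀ s, (mu s).natDegree ≤ D₁) (s : LnT F) (j : ℕ) :
    (lamN c t q q₁ TH Φ mu s j).natDegree ≤ 5 * D + D₁ := by
  have h0 : ∀ (l j : ℕ), (kpol c t (ltr TH q l) s j).natDegree ≤ D := fun l j =>
    kpol_deg (F := F) c t (fun s => h (co q s) l) s j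
  have h0' : ∀ (l j : ℕ), (kpol c t (ltr Φ q₁ l) s j).natDegree ≤ D := fun l j =>
    kpol_deg (F := F) c t (fun s => hΦ (co q₁ s) l) s j
  have hd : ∀ {p : Polynomial ℝ} {n : ℕ}, p.natDegree ≤ n →
      (Polynomial.derivative p).natDegree ≤ n := fun hp =>
    (Polynomial.natDegree_derivative_le _).trans (by omega)
  have hm' : ∀ {p p' : Polynomial ℝ} {n n' : ℕ}, p.natDegree ≤ n → p'.natDegree ≤ n' →
      (p * p').natDegree ≤ n + n' := fun hp hp' =>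
    Polynomial.natDegree_mul_le.trans (Nat.add_le_add hp hp')
  have ha : ∀ {p p' : Polynomial ℝ} {n : ℕ}, p.natDegree ≤ n → p'.natDegree ≤ n →
      (p + p').natDegree ≤ n := fun hp hp' =>
    (Polynomial.natDegree_add_le _ _).trans (max_le hp hp')
  have hs' : ∀ {p p' : Polynomial ℝ} {n : ℕ}, p.natDegree ≤ n → p'.natDegree ≤ n →
      (p - p').natDegree ≤ n := fun hp hp' =>
    (Polynomial.natDegree_sub_le _ _).trans (max_le hp hp')
  have hM : (mu s - kpol c t (ltr Φ q₁ 0) s 2).natDegree ≤ D + D₁ :=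
    hs' ((hm s).trans (by omega)) ((h0' 0 2).trans (by omega))
  have hN : (nuN c t q q₁ TH Φ mu s).natDegree ≤ 4 * D + D₁ := by
    unfold nuN
    refine hs' (ha (ha ((hd (h0' 0 0)).trans (by omega))
      ((hm' (hd (h0' 0 1)) (h0 1 0)).trans (by omega)))
      ((hm' (hd (h0' 0 2)) (ha ((h0 2 0).trans (show D ≤ D + D by omega))
        (hm' (h0 2 1) (h0 1 0)))).trans (by omega))) ?_
    refine (hm' (hs' (ha ((hd (h0 2 0)).trans (show D ≤ 3 * D by omega))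
      ((hm' (hd (h0 2 1)) (h0 1 0)).trans (by omega)))
      ((hm' (dlU_deg h s) (hd (h0 1 0))).trans (by omega))) hM).trans (by omega)
  have hA : (alN c t q q₁ TH Φ mu s).natDegree ≤ 4 * D + D₁ :=
    (Polynomial.natDegree_C_mul_le _ _).trans hN
  unfold lamN
  split_ifs
  · exact hs' (hs' ((h0' 0 0).trans (by omega)) ((hm' (h0 1 0) hA).trans (by omega)))
      ((hm' (lamU_deg h s 0) hM).trans (by omega))
  · exact hs' (ha ((h0' 0 1).trans (by omega)) (hA.trans (by omega)))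
      ((hm' (lamU_deg h s 1) hM).trans (by omega))
  · exact (hm s).trans (by omega)

/-- The numbers of `CEv.nov`. `i₁`: the window of the row label. -/
structure NNum (N A cl X y y₂ t₀ : ℕ) (w pp : ℕ → ℕ) (gc gT g₀ : ℕ → ℕ → ℕ)
    (i i₁ t k : ℕ) : Prop where
  un : UNum 3 N A cl X y t₀ w gc gT g₀ i t k
  i1N : i₁ ≤ N
  i1t : w i₁ ≤ w t
  c3 : cl ≤ gc k 3
  m2 : gT k 2 ≤ gT i 2 + X
  lb2 : g₀ k 2 + (A - w k) ≤ gT k 2 + X
  lb3 : g₀ k 3 + (A - w k) ≤ pp i₁ + X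
  cp : cl ≤ pp i₁
  ex2 : gT k 2 ≤ g₀ k 2 + (A - w k) + y₂

/-- **The ball chart of the place three over two static places has a closed gradient**, natural at
the ball, if its component in the direction of the place two has. -/
theorem CEv.nov : ∃ C : ℕ, 1 ≤ C ∧ ∀ {m J : ℕ} {F : Fam m J}
    {c : ℕ → Fin m} {D Dr N M A cl : ℕ} {Sc : ℕ → Prop} {w e h pp : ℕ → ℕ}
    {z g gc gT g₀ : ℕ → ℕ → ℕ} {κ : ℝ}
    {B : F.Ω → Prop} {G : ℕ → PtT F → ℕ → MvPolynomial (Option (Fin m)) ℝ}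
    {H : ℕ → LnT F → ℕ → MvPolynomial (Option (Fin m)) ℝ}
    {T : ℕ → PtT F → ℕ → MvPolynomial (Option (Fin m)) ℝ}
    {TH : ℕ → LnT F → ℕ → MvPolynomial (Option (Fin m)) ℝ}
    {Gt : ℕ → PtT F → MvPolynomial (Option (Fin m)) ℝ}
    {Ht : ℕ → LnT F → MvPolynomial (Option (Fin m)) ℝ},
    CEv F c 3 D Dr N M A cl Sc w e h pp z g gc gT g₀ κ B G H T TH Gt Ht →
    ∀ {X y y₂ t₀ Y i i₁ t k : ℕ}, ¬ Sc 0 → Sc 1 → Sc 2 →
      NNum N A cl X y y₂ t₀ w pp gc gT g₀ i i₁ t k → ZNum 3 N A cl X w pp gc gT g₀ 1 i k →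
    ∀ ω, B ω →
      (∀ V : Option (Fin m) → ℝ, V none = 0 → V (some (c 0)) = 1 →
        2 ^ (w k + g₀ k 0) / 2 ^ (g₀ k 1 + t₀) ≤
          |hs (TH i (slam F (w i) ω) 1) (bt F ω) (bd F ω) V|) →
      (∀ u ∈ Set.Icc (0 : ℝ) 1,
        |2 ^ w t * (Polynomial.derivative (kpol c (w t) (ltr (TH i) (w t - w i) 1)
            (slam F (w t) ω) 0)).eval u -
          2 ^ w t * (Polynomial.derivative (kpol c (w t) (ltr (TH i) (w t - w i) 1)
            (slam F (w t) ω) 0)).eval 0| ≤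
          2 ^ (w k + g₀ k 0) / 2 ^ (g₀ k 1 + (t₀ + (y + y₂) + 1))) →
      ∀ mu : LnT F → Polynomial ℝ,
      |(mu (slam F (w t) ω)).eval (rt F (w t) ω) - gG G ω k 3 (some (c 2))| ≤
        2 ^ Y * 2 ^ g₀ k 2 / 2 ^ g₀ k 3 →
      ∀ V : Option (Fin m) → ℝ, V none = 0 →
      |∑ j ∈ range 3, (lamN c (w t) (w t - w i) (w t - w i₁) (TH i) (fun s _ => Ht i₁ s) mu
          (slam F (w t) ω) j).eval (rt F (w t) ω) * V (some (c j)) - cv (gG G ω k 3) V| ≤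
        2 ^ (C * (cl + X + t₀ + Y + 1)) / 2 ^ g₀ k 3 *
          en c (g₀ k) (w k) (gG G ω k) 3 V := by
  obtain ⟨C₁, hC₁, huov⟩ := CEv.uov 3 le_rfl
  obtain ⟨C₂, hC₂, hex2⟩ := CEv.ex 2
  obtain ⟨C₃, hC₃, hex3⟩ := CEv.ex 3
  refine ⟨5 * (C₁ + C₂ + C₃ + 60) + 5, by omega, ?_⟩
  intro m J F c D Dr N M A cl Sc w e h pp z g gc gT g₀ κ B G H T TH Gt Ht E X y y₂ t₀ Y i i₁ t k
    hs0 hs1 hs2 n hZ ω hω hlow hvar mu hmu V hV0
  have hi := n.un.iN
  have ht := n.un.tN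
  have hk := n.un.kN
  have hi1 := n.i1N
  have hik : w i ≤ w k := n.un.it.trans n.un.tk
  have hi1k : w i₁ ≤ w k := n.i1t.trans n.un.tk
  have hrad := E.radA hk
  have htJ : w t ≤ J := (E.wA t ht).trans E.AJ
  have hc3 : Set.InjOn c (Set.Iio 3) := E.inj.mono (Set.Iio_subset_Iio (by omega))
  have hc2 : Set.InjOn c (Set.Iio 2) := E.inj.mono (Set.Iio_subset_Iio (by omega))
  have hns : ∀ x < 1, ¬ Sc x := fun x hx => by
    rw [Nat.lt_one_iff.1 hx]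
    exact hs0
  have hΓ : ∀ l, CvC c l (gG G ω k l) := fun l => cvc_grd ((E.evs k hk).ball.depG _ l) _
  have hκ : ∀ j ≤ N, ∀ l, CvC c l (kT w TH ω j l) := fun j hj l =>
    cvc_grd ((E.evs j hj).thin.depH _ l) _
  have hΦc : CvC c 3 (grd (Ht i₁ (slam F (w i₁) ω)) (bt F ω)) := cvc_grd ((E.evs i₁ hi1).pH _) _
  have a0 := E.ng k hk 0 (by omega)
  have a1 := E.ng k hk 1 (by omega)
  have a2 := E.ng k hk 2 (by omega)
  have a3 := E.ng k hk 3 (by omega)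
  have b0 := n.un.cT 0 (by omega)
  have b1 := n.un.cT 1 (by omega)
  have b2 := n.un.cT 2 (by omega)
  have hrg := E.t_rg hk (show 0 < 3 by omega) hs0
  have m1 := n.un.m1
  have lb1 := n.un.lb1
  have lb2 := n.un.lb2
  have hxy := n.un.ex
  have m2 := n.m2
  have lb2' := n.lb2
  have lb3 := n.lb3
  have hxy2 := n.ex2
  have c3 := n.c3
  have hgi1 := b1.1
  -- the constant
  obtain ⟨Q, hQ⟩ : ∃ Q, Q = cl + X + t₀ + Y + 1 := ⟨_, rfl⟩
  have q1 : C₁ * (cl + X + t₀ + 1) ≤ C₁ * Q := Nat.mul_le_mul_left _ (by omega)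
  have q2 : C₂ * (cl + X + 1) ≤ C₂ * Q := Nat.mul_le_mul_left _ (by omega)
  have q3 : C₃ * (cl + X + 1) ≤ C₃ * Q := Nat.mul_le_mul_left _ (by omega)
  have q4 : (C₁ + C₂ + C₃ + 60) * Q = C₁ * Q + C₂ * Q + C₃ * Q + 60 * Q := by ring
  obtain ⟨Z, hZd⟩ : ∃ Z, Z = (C₁ + C₂ + C₃ + 60) * Q := ⟨_, rfl⟩
  rw [← hZd] at q4
  obtain ⟨U, hU⟩ : ∃ U : ℝ, U = 2 ^ Z := ⟨_, rfl⟩
  have hU1 : 1 ≤ U := by rw [hU]; exact one_le_pow₀ (by norm_num)
  have hU0 : 0 < U := by linarith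
  have hUp : ∀ {x : ℕ}, x ≤ Z → (2 : ℝ) ^ x ≤ U := fun hx => by rw [hU]; exact p2 hx
  -- the components
  obtain ⟨k10, ek10⟩ : ∃ x, x = kT w TH ω i 1 (some (c 0)) := ⟨_, rfl⟩
  obtain ⟨k20, ek20⟩ : ∃ x, x = kT w TH ω i 2 (some (c 0)) := ⟨_, rfl⟩
  obtain ⟨k21, ek21⟩ : ∃ x, x = kT w TH ω i 2 (some (c 1)) := ⟨_, rfl⟩
  obtain ⟨k10', ek10'⟩ : ∃ x, x = kT w TH ω k 1 (some (c 0)) := ⟨_, rfl⟩
  obtain ⟨k20', ek20'⟩ : ∃ x, x = kT w TH ω k 2 (some (c 0)) := ⟨_, rfl⟩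
  obtain ⟨k21', ek21'⟩ : ∃ x, x = kT w TH ω k 2 (some (c 1)) := ⟨_, rfl⟩
  obtain ⟨g10, eg10⟩ : ∃ x, x = gG G ω k 1 (some (c 0)) := ⟨_, rfl⟩
  obtain ⟨g20, eg20⟩ : ∃ x, x = gG G ω k 2 (some (c 0)) := ⟨_, rfl⟩
  obtain ⟨g21, eg21⟩ : ∃ x, x = gG G ω k 2 (some (c 1)) := ⟨_, rfl⟩
  obtain ⟨g30, eg30⟩ : ∃ x, x = gG G ω k 3 (some (c 0)) := ⟨_, rfl⟩
  obtain ⟨g31, eg31⟩ : ∃ x, x = gG G ω k 3 (some (c 1)) := ⟨_, rfl⟩
  obtain ⟨g32, eg32⟩ : ∃ x, x = gG G ω k 3 (some (c 2)) := ⟨_, rfl⟩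
  obtain ⟨f0, ef0⟩ : ∃ x, x = grd (Ht i₁ (slam F (w i₁) ω)) (bt F ω) (some (c 0)) := ⟨_, rfl⟩
  obtain ⟨f1, ef1⟩ : ∃ x, x = grd (Ht i₁ (slam F (w i₁) ω)) (bt F ω) (some (c 1)) := ⟨_, rfl⟩
  obtain ⟨f2, ef2⟩ : ∃ x, x = grd (Ht i₁ (slam F (w i₁) ω)) (bt F ω) (some (c 2)) := ⟨_, rfl⟩
  -- evaluation of the covectors
  have vk1 : ∀ W : Option (Fin m) → ℝ, W none = 0 →
      cv (kT w TH ω i 1) W = k10 * W (some (c 0)) := fun W hW => by
    rw [cvx1 hc3 (hκ i hi 1) hW, ← ek10]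
  have vk2 : ∀ W : Option (Fin m) → ℝ, W none = 0 → cv (kT w TH ω i 2) W =
      k20 * W (some (c 0)) + k21 * W (some (c 1)) := fun W hW => by
    rw [cvx2 hc3 (hκ i hi 2) hW, ← ek20, ← ek21]
  have vk1' : ∀ W : Option (Fin m) → ℝ, W none = 0 →
      cv (kT w TH ω k 1) W = k10' * W (some (c 0)) := fun W hW => by
    rw [cvx1 hc3 (hκ k hk 1) hW, ← ek10']
  have vk2' : ∀ W : Option (Fin m) → ℝ, W none = 0 → cv (kT w TH ω k 2) W =
      k20' * W (some (c 0)) + k21' * W (some (c 1)) := fun W hW => by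
    rw [cvx2 hc3 (hκ k hk 2) hW, ← ek20', ← ek21']
  have vg1 : ∀ W : Option (Fin m) → ℝ, W none = 0 →
      cv (gG G ω k 1) W = g10 * W (some (c 0)) := fun W hW => by
    rw [cvx1 hc3 (hΓ 1) hW, ← eg10]
  have vg2 : ∀ W : Option (Fin m) → ℝ, W none = 0 → cv (gG G ω k 2) W =
      g20 * W (some (c 0)) + g21 * W (some (c 1)) := fun W hW => by
    rw [cvx2 hc3 (hΓ 2) hW, ← eg20, ← eg21]
  have vg3 : ∀ W : Option (Fin m) → ℝ, W none = 0 → cv (gG G ω k 3) W =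
      g30 * W (some (c 0)) + g31 * W (some (c 1)) + g32 * W (some (c 2)) := fun W hW => by
    rw [cvx3 hc3 (hΓ 3) hW, ← eg30, ← eg31, ← eg32]
  have vf : ∀ W : Option (Fin m) → ℝ, W none = 0 →
      cv (grd (Ht i₁ (slam F (w i₁) ω)) (bt F ω)) W =
      f0 * W (some (c 0)) + f1 * W (some (c 1)) + f2 * W (some (c 2)) := fun W hW => by
    rw [cvx3 hc3 hΦc hW, ← ef0, ← ef1, ← ef2]
  -- evaluation of the norms
  have eT1 : ∀ W : Option (Fin m) → ℝ, W none = 0 →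
      en c (gT k) A (kT w TH ω k) 1 W = 2 ^ gT k 0 * |W (some (c 0))| := fun W hW =>
    enx1 _ _ (hκ k hk) hW
  have eT2 : ∀ W : Option (Fin m) → ℝ, W none = 0 → en c (gT k) A (kT w TH ω k) 2 W =
      2 ^ gT k 0 * |W (some (c 0))| +
        2 ^ gT k 1 * |W (some (c 1)) - k10' * W (some (c 0))| := fun W hW => by
    rw [enx2 hc3 _ _ (hκ k hk) hW, ← ek10']
  have eT3 : ∀ W : Option (Fin m) → ℝ, W none = 0 → en c (gT k) A (kT w TH ω k) 3 W =
      2 ^ gT k 0 * |W (some (c 0))| +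
        2 ^ gT k 1 * |W (some (c 1)) - k10' * W (some (c 0))| +
        2 ^ gT k 2 * |W (some (c 2)) - (k20' * W (some (c 0)) + k21' * W (some (c 1)))| :=
    fun W hW => by
      rw [enx3 hc3 _ _ (hκ k hk) hW, ← ek10', ← ek20', ← ek21']
  have eG1 : ∀ W : Option (Fin m) → ℝ, W none = 0 →
      en c (g₀ k) (w k) (gG G ω k) 1 W = 2 ^ g₀ k 0 * |W (some (c 0))| := fun W hW =>
    enx1 _ _ hΓ hW
  have eG2 : ∀ W : Option (Fin m) → ℝ, W none = 0 → en c (g₀ k) (w k) (gG G ω k) 2 W =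
      2 ^ g₀ k 0 * |W (some (c 0))| +
        2 ^ g₀ k 1 * |W (some (c 1)) - g10 * W (some (c 0))| := fun W hW => by
    rw [enx2 hc3 _ _ hΓ hW, ← eg10]
  have eG3 : ∀ W : Option (Fin m) → ℝ, W none = 0 → en c (g₀ k) (w k) (gG G ω k) 3 W =
      2 ^ g₀ k 0 * |W (some (c 0))| +
        2 ^ g₀ k 1 * |W (some (c 1)) - g10 * W (some (c 0))| +
        2 ^ g₀ k 2 * |W (some (c 2)) - (g20 * W (some (c 0)) + g21 * W (some (c 1)))| :=
    fun W hW => by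
      rw [enx3 hc3 _ _ hΓ hW, ← eg10, ← eg20, ← eg21]
  -- the label of the place one
  have hAw : (2 : ℝ) ^ A = 2 ^ w k * 2 ^ (A - w k) := by rw [← pow_add, hrad]
  have h1 : 2 ^ g₀ k 1 * |k10 - g10| ≤ U * 2 ^ g₀ k 0 := by
    obtain ⟨q, hq⟩ : ∃ q, q = g₀ k 1 + (A - w k) - (3 * cl + 2 * X) := ⟨_, rfl⟩
    have h3 := E.tb (show 1 < 3 by omega) hi hk hik (q := q) (by omega) (by omega) hω
      (tvc c 1 0 0)
    rw [cv_subl, vk1 _ (tvc_n _ _ _ _), vg1 _ (tvc_n _ _ _ _), eT1 _ (tvc_n _ _ _ _),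
      eG1 _ (tvc_n _ _ _ _), tvc_0, mul_one, mul_one, abs_one, mul_one, mul_one] at h3
    have h4 := row_nat (a := A - w k) (s := 3 * cl + 2 * X) (by positivity) (by positivity) h3
      (by omega)
    have h5 : (2 : ℝ) ^ gT k 0 ≤ 2 ^ (3 * cl) * (2 ^ (A - w k) * 2 ^ g₀ k 0) := by
      rw [← pow_add, ← pow_add]
      exact p2 (by omega)
    have h6 : (1 : ℝ) ≤ 2 ^ (3 * cl) := one_le_pow₀ (by norm_num)
    have h7 : (2 : ℝ) ^ (A - w k) * 2 ^ g₀ k 0 ≤ 2 ^ (3 * cl) * (2 ^ (A - w k) * 2 ^ g₀ k 0) :=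
      le_mul_of_one_le_left (by positivity) h6
    have h8 : (2 : ℝ) ^ (cl + (3 * cl + 2 * X)) * (2 ^ gT k 0 + 2 ^ (A - w k) * 2 ^ g₀ k 0) ≤
        2 ^ (7 * cl + 2 * X + 1) * (2 ^ (A - w k) * 2 ^ g₀ k 0) := by
      refine (mul_le_mul_of_nonneg_left (add_le_add h5 h7) (by positivity)).trans (le_of_eq ?_)
      rw [show 7 * cl + 2 * X + 1 = (cl + (3 * cl + 2 * X)) + 3 * cl + 1 by ring,
        pow_succ 2 ((cl + (3 * cl + 2 * X)) + 3 * cl), pow_add 2 (cl + (3 * cl + 2 * X)) (3 * cl)]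
      ring
    have h9 : 2 ^ g₀ k 1 * |k10 - g10| * 2 ^ (A - w k) ≤ U * 2 ^ g₀ k 0 * 2 ^ (A - w k) := by
      calc 2 ^ g₀ k 1 * |k10 - g10| * 2 ^ (A - w k) =
            2 ^ g₀ k 1 * 2 ^ (A - w k) * |k10 - g10| := by ring
        _ ≤ 2 ^ (7 * cl + 2 * X + 1) * (2 ^ (A - w k) * 2 ^ g₀ k 0) := h4.trans h8
        _ ≤ U * (2 ^ (A - w k) * 2 ^ g₀ k 0) := mul_le_mul_of_nonneg_right (hUp (by omega))
            (by positivity)
        _ = _ := by ring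
    exact le_of_mul_le_mul_right h9 (by positivity)
  have h2 : 2 ^ gT k 1 * |k10 - k10'| ≤ U * 2 ^ gT k 0 := by
    obtain ⟨q, hq⟩ : ∃ q, q = min (gT i 1) (gT k 1) - cl := ⟨_, rfl⟩
    have h3 := E.tt (show 1 < 3 by omega) hi hk hik (q := q) (by omega) (by omega) hω
      (tvc c 1 0 0)
    rw [cv_subl, vk1 _ (tvc_n _ _ _ _), vk1' _ (tvc_n _ _ _ _), eT1 _ (tvc_n _ _ _ _), tvc_0,
      mul_one, mul_one, abs_one, mul_one] at h3
    exact (tt_nat (g := gT k 1) (s := cl + X) (by positivity) h3 (by omega)).trans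
      (mul_le_mul_of_nonneg_right (hUp (by omega)) (by positivity))
  obtain ⟨qT, hqT⟩ : ∃ q, q = min (gT i 2) (gT k 2) - cl := ⟨_, rfl⟩
  have htt2 : ∀ W : Option (Fin m) → ℝ, W none = 0 →
      2 ^ gT k 2 * |cv (kT w TH ω i 2 - kT w TH ω k 2) W| ≤
        U * en c (gT k) A (kT w TH ω k) 2 W := fun W hW =>
    (tt_nat (g := gT k 2) (s := cl + X) (en_nonneg _ _ _ _ _ _)
      (E.tt (show 2 < 3 by omega) hi hk hik (q := qT) (by omega) (by omega) hω W)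
      (by omega)).trans (mul_le_mul_of_nonneg_right (hUp (by omega)) (en_nonneg _ _ _ _ _ _))
  have h3 : 2 ^ gT k 2 * |(k20 + k21 * k10) - (k20' + k21' * k10)| ≤
      U * (2 ^ gT k 0 + 2 ^ gT k 1 * |k10 - k10'|) := by
    have h3 := htt2 (tvc c 1 k10 0) (tvc_n _ _ _ _)
    rw [cv_subl, vk2 _ (tvc_n _ _ _ _), vk2' _ (tvc_n _ _ _ _), eT2 _ (tvc_n _ _ _ _), tvc_0,
      tvc_1 hc3, mul_one, mul_one, abs_one, mul_one, mul_one] at h3
    exact h3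
  have h3' : 2 ^ gT k 2 * |k21 - k21'| ≤ U * 2 ^ gT k 1 := by
    have h3 := htt2 (tvc c 0 1 0) (tvc_n _ _ _ _)
    rw [cv_subl, vk2 _ (tvc_n _ _ _ _), vk2' _ (tvc_n _ _ _ _), eT2 _ (tvc_n _ _ _ _), tvc_0,
      tvc_1 hc3] at h3
    simpa using h3
  -- the rows
  obtain ⟨qN, hqN⟩ : ∃ q, q = g₀ k 2 + (A - w k) - (3 * cl + X) := ⟨_, rfl⟩
  obtain ⟨qR, hqR⟩ : ∃ q, q = g₀ k 3 + (A - w k) - (3 * cl + X) := ⟨_, rfl⟩
  have hcp := n.cp
  have h6 : 2 ^ g₀ k 2 * 2 ^ (A - w k) * |g21 - k21| ≤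
      U * (2 ^ gT k 1 + 2 ^ (A - w k) * 2 ^ g₀ k 1) := by
    have h3 := E.tb (show 2 < 3 by omega) hi hk hik (q := qN) (by omega) (by omega) hω
      (tvc c 0 1 0)
    rw [cv_subl, vk2 _ (tvc_n _ _ _ _), vg2 _ (tvc_n _ _ _ _), eT2 _ (tvc_n _ _ _ _),
      eG2 _ (tvc_n _ _ _ _), tvc_0, tvc_1 hc3] at h3
    have h4 : |g21 - k21| ≤ 2 ^ cl / 2 ^ qN * 2 ^ gT k 1 + 2 ^ cl / 2 ^ g₀ k 2 * 2 ^ g₀ k 1 := by
      rw [abs_sub_comm]
      simpa using h3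
    exact (row_nat (a := A - w k) (s := 3 * cl + X) (by positivity) (by positivity) h4
      (by omega)).trans (mul_le_mul_of_nonneg_right (hUp (by omega)) (by positivity))
  have hrow : ∀ W : Option (Fin m) → ℝ, W none = 0 → 2 ^ g₀ k 3 * 2 ^ (A - w k) *
      |(g30 - f0) * W (some (c 0)) + (g31 - f1) * W (some (c 1)) + (g32 - f2) * W (some (c 2))| ≤
      U * (en c (gT k) A (kT w TH ω k) 3 W +
        2 ^ (A - w k) * en c (g₀ k) (w k) (gG G ω k) 3 W) := fun W hW => by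
    have h3 := E.rb hi1 hk hi1k (q := qR) (by omega) (by omega) hω W
    rw [cv_subl, vf W hW, vg3 W hW, abs_sub_comm] at h3
    have e1 : (g30 - f0) * W (some (c 0)) + (g31 - f1) * W (some (c 1)) +
        (g32 - f2) * W (some (c 2)) = g30 * W (some (c 0)) + g31 * W (some (c 1)) +
        g32 * W (some (c 2)) - (f0 * W (some (c 0)) + f1 * W (some (c 1)) +
          f2 * W (some (c 2))) := by ring
    rw [e1]
    have n1 := en_nonneg c (gT k) A (kT w TH ω k) 3 W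
    have n2 := en_nonneg c (g₀ k) (w k) (gG G ω k) 3 W
    exact (row_nat (a := A - w k) (s := 3 * cl + X) n1 n2 h3
      (by omega)).trans (mul_le_mul_of_nonneg_right (hUp (by omega)) (by positivity))
  have h5 : 2 ^ g₀ k 3 * 2 ^ (A - w k) * |(g30 - f0) + (g31 - f1) * k10 +
      (g32 - f2) * (k20 + k21 * k10)| ≤ U * ((2 ^ gT k 0 + 2 ^ gT k 1 * |k10 - k10'| +
        2 ^ gT k 2 * |(k20 + k21 * k10) - (k20' + k21' * k10)|) +
        2 ^ (A - w k) * (2 ^ g₀ k 0 + 2 ^ g₀ k 1 * |k10 - g10| +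
          2 ^ g₀ k 2 * |(k20 + k21 * k10) - (g20 + g21 * k10)|)) := by
    have h3 := hrow (tvc c 1 k10 (k20 + k21 * k10)) (tvc_n _ _ _ _)
    rw [eT3 _ (tvc_n _ _ _ _), eG3 _ (tvc_n _ _ _ _), tvc_0, tvc_1 hc3, tvc_2 hc3] at h3
    simpa only [mul_one, abs_one] using h3
  -- the polynomials at the sample
  obtain ⟨d, hd⟩ : ∃ d, d = w t - w i := ⟨_, rfl⟩
  obtain ⟨d₁, hd₁⟩ : ∃ d, d = w t - w i₁ := ⟨_, rfl⟩
  have hvar' : ∀ u ∈ Set.Icc (0 : ℝ) 1,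
      |2 ^ w t * (Polynomial.derivative (kpol c (w t) (ltr (TH i) (w t - w i) 1)
          (slam F (w t) ω) 0)).eval u -
        2 ^ w t * (Polynomial.derivative (kpol c (w t) (ltr (TH i) (w t - w i) 1)
          (slam F (w t) ω) 0)).eval 0| ≤
        2 ^ (w k + g₀ k 0) / 2 ^ (g₀ k 1 + (t₀ + y + 1)) := fun u hu =>
    (hvar u hu).trans (div_le_div_of_nonneg_left (by positivity) (by positivity)
      (p2 (by omega)))
  have huo := huov E hs0 hs1 n.un ω hω hlow hvar'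
  rw [← hd] at huo hvar ⊢
  rw [← hd₁]
  obtain ⟨s, hsd⟩ : ∃ s, s = slam F (w t) ω := ⟨_, rfl⟩
  obtain ⟨τ, hτ⟩ : ∃ τ, τ = rt F (w t) ω := ⟨_, rfl⟩
  rw [← hsd] at huo hvar hmu ⊢
  rw [← hτ] at huo hmu ⊢
  have hlt : ∀ l, ltr (TH i) d l s = TH i (slam F (w i) ω) l := fun l => by
    rw [hsd, hd]
    exact ltr_slam F (TH i) n.un.it htJ l ω
  have hltf : ltr (fun s (_ : ℕ) => Ht i₁ s) d₁ 0 s = Ht i₁ (slam F (w i₁) ω) := by
    rw [hsd, hd₁]
    exact ltr_slam F (fun s (_ : ℕ) => Ht i₁ s) n.i1t htJ 0 ω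
  have hkv : ∀ l j, (kpol c (w t) (ltr (TH i) d l) s j).eval τ =
      kT w TH ω i l (some (c j)) := fun l j => by
    rw [hsd, hτ, kpol_rt F c htJ, ← hsd, hlt]
    rfl
  have hfv : ∀ j, (kpol c (w t) (ltr (fun s (_ : ℕ) => Ht i₁ s) d₁ 0) s j).eval τ =
      grd (Ht i₁ (slam F (w i₁) ω)) (bt F ω) (some (c j)) := fun j => by
    rw [hsd, hτ, kpol_rt F c htJ, ← hsd, hltf]
  -- the frame
  obtain ⟨Ξ, hΞd⟩ : ∃ Ξ, Ξ = mx Sc (kT w TH ω i) (gG G ω k) := ⟨_, rfl⟩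
  have hΞ : ∀ l, CvC c l (Ξ l) := fun l => by rw [hΞd]; exact mx_cvc (hκ i hi) hΓ l
  have hΞ1 : Ξ 1 = kT w TH ω i 1 := by rw [hΞd]; exact mx_pos hs1
  have hΞ2 : Ξ 2 = kT w TH ω i 2 := by rw [hΞd]; exact mx_pos hs2
  obtain ⟨P, hP⟩ : ∃ P, P = ev c 3 Ξ 0 := ⟨_, rfl⟩
  obtain ⟨Q₁, hQ₁⟩ : ∃ Q, Q = ev c 3 Ξ 1 := ⟨_, rfl⟩
  obtain ⟨R, hR⟩ : ∃ R, R = ev c 3 Ξ 2 := ⟨_, rfl⟩
  have pn : P none = 0 := by rw [hP]; exact ev_none _ _ _ _
  have p0 : P (some (c 0)) = 1 := by rw [hP]; exact ev_eq hc3 hΞ (by norm_num)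
  have p1 : P (some (c 1)) = k10 := by
    have h3 := ev_comp hc3 hΞ 0 (show 1 < 3 by norm_num)
    rw [if_neg (by norm_num), ← hP, hΞ1, vk1 P pn, p0] at h3
    linarith
  have p2' : P (some (c 2)) = k20 + k21 * k10 := by
    have h3 := ev_comp hc3 hΞ 0 (show 2 < 3 by norm_num)
    rw [if_neg (by norm_num), ← hP, hΞ2, vk2 P pn, p0, p1] at h3
    linarith
  have qn : Q₁ none = 0 := by rw [hQ₁]; exact ev_none _ _ _ _
  have q0 : Q₁ (some (c 0)) = 0 := by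
    rw [hQ₁]
    exact ev_lt hc3 hΞ (by norm_num) (by norm_num)
  have q1' : Q₁ (some (c 1)) = 1 := by rw [hQ₁]; exact ev_eq hc3 hΞ (by norm_num)
  have q2' : Q₁ (some (c 2)) = k21 := by
    have h3 := ev_comp hc3 hΞ 1 (show 2 < 3 by norm_num)
    rw [if_neg (by norm_num), ← hQ₁, hΞ2, vk2 Q₁ qn, q0, q1'] at h3
    linarith
  have rn : R none = 0 := by rw [hR]; exact ev_none _ _ _ _
  have r0 : R (some (c 0)) = 0 := by
    rw [hR]
    exact ev_lt hc3 hΞ (by norm_num) (by norm_num)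
  have r1 : R (some (c 1)) = 0 := by
    rw [hR]
    exact ev_lt hc3 hΞ (by norm_num) (by norm_num)
  have r2 : R (some (c 2)) = 1 := by rw [hR]; exact ev_eq hc3 hΞ (by norm_num)
  obtain ⟨zz, hzz⟩ : ∃ x, x = hs (TH i (slam F (w i) ω) 1) (bt F ω) (bd F ω) P := ⟨_, rfl⟩
  obtain ⟨z2, hz2⟩ : ∃ x, x = hs (TH i (slam F (w i) ω) 2) (bt F ω) (bd F ω) P := ⟨_, rfl⟩
  obtain ⟨N3, hN3⟩ : ∃ x, x = hs (Ht i₁ (slam F (w i₁) ω)) (bt F ω) (bd F ω) P := ⟨_, rfl⟩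
  -- the closed chart of the place two
  obtain ⟨de, hde⟩ : ∃ de, de = (dlU c (w t) d 2 (TH i) s).eval τ := ⟨_, rfl⟩
  have hu0 : (lamU c (w t) d (TH i) s 0).eval τ = k20 - de * k10 := by
    unfold lamU
    rw [if_pos rfl, Polynomial.eval_sub, Polynomial.eval_mul, hkv, hkv, ← hde, ← ek20, ← ek10]
  have hu1 : (lamU c (w t) d (TH i) s 1).eval τ = k21 + de := by
    unfold lamU
    rw [if_neg (by norm_num), Polynomial.eval_add, hkv, ← hde, ← ek21]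
  have huo' : ∀ W : Option (Fin m) → ℝ, W none = 0 →
      2 ^ g₀ k 2 * |(k20 - de * k10) * W (some (c 0)) + (k21 + de) * W (some (c 1)) -
        (g20 * W (some (c 0)) + g21 * W (some (c 1)))| ≤
        U * en c (g₀ k) (w k) (gG G ω k) 2 W := fun W hW => by
    have h3 := huo W hW
    rw [Finset.sum_range_succ, Finset.sum_range_one, hu0, hu1, vg2 W hW] at h3
    refine (mul_le_mul_of_nonneg_left h3 (by positivity)).trans ?_
    have n1 := en_nonneg c (g₀ k) (w k) (gG G ω k) 2 W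
    have e1 : (2 : ℝ) ^ g₀ k 2 * (2 ^ (C₁ * (cl + X + t₀ + 1)) / 2 ^ g₀ k 2 *
        en c (g₀ k) (w k) (gG G ω k) 2 W) = 2 ^ (C₁ * (cl + X + t₀ + 1)) *
        en c (g₀ k) (w k) (gG G ω k) 2 W := by field_simp
    rw [e1]
    exact mul_le_mul_of_nonneg_right (hUp (by omega)) n1
  have h4 : 2 ^ g₀ k 2 * |(k20 + k21 * k10) - (g20 + g21 * k10)| ≤
      U * (2 ^ g₀ k 0 + 2 ^ g₀ k 1 * |k10 - g10|) := by
    have h3 := huo' (tvc c 1 k10 0) (tvc_n _ _ _ _)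
    rw [eG2 _ (tvc_n _ _ _ _), tvc_0, tvc_1 hc3, mul_one, mul_one, mul_one, abs_one,
      mul_one] at h3
    have e1 : (k20 - de * k10) + (k21 + de) * k10 - (g20 + g21 * k10) =
        (k20 + k21 * k10) - (g20 + g21 * k10) := by ring
    rw [e1] at h3
    exact h3
  have h4' : 2 ^ g₀ k 2 * |k21 + de - g21| ≤ U * 2 ^ g₀ k 1 := by
    have h3 := huo' (tvc c 0 1 0) (tvc_n _ _ _ _)
    rw [eG2 _ (tvc_n _ _ _ _), tvc_0, tvc_1 hc3] at h3
    simpa using h3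
  have h5' : 2 ^ g₀ k 3 * 2 ^ (A - w k) * |(g31 - f1) + (g32 - f2) * (k21 + de)| ≤
      U * ((2 ^ gT k 1 + 2 ^ gT k 2 * |k21 + de - k21'|) +
        2 ^ (A - w k) * (2 ^ g₀ k 1 + 2 ^ g₀ k 2 * |k21 + de - g21|)) := by
    have h3 := hrow (tvc c 0 1 (k21 + de)) (tvc_n _ _ _ _)
    rw [eT3 _ (tvc_n _ _ _ _), eG3 _ (tvc_n _ _ _ _), tvc_0, tvc_1 hc3, tvc_2 hc3] at h3
    simpa only [mul_zero, mul_one, abs_zero, zero_add, sub_zero, abs_one] using h3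
  -- the second derivatives
  have h8 : 2 ^ g₀ k 1 * |zz| ≤ U * (2 ^ w k * 2 ^ g₀ k 0) := by
    have h3 := E.zV hi hgi1 (show 1 < 3 by omega) hns hZ hω (V := P) (Y := 2 ^ g₀ k 0) (by
      rw [eG1 P pn, p0, abs_one, mul_one])
    rw [← hzz] at h3
    refine (mul_le_mul_of_nonneg_left h3 (by positivity)).trans ?_
    have e1 : (2 : ℝ) ^ g₀ k 1 * (2 ^ (12 * cl + 4 * 3 + X + 10) * 2 ^ w k / 2 ^ g₀ k 1 *
        2 ^ g₀ k 0) = 2 ^ (12 * cl + 4 * 3 + X + 10) * (2 ^ w k * 2 ^ g₀ k 0) := by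
      field_simp
    rw [e1]
    exact mul_le_mul_of_nonneg_right (hUp (by omega)) (by positivity)
  have hsw : ∀ l < 3, Sc l → l = 1 ∨ l = 2 := fun l hl hsl => by
    have h3 : l ≠ 0 := fun h => hs0 (by rwa [← h])
    omega
  have hAg : ∀ l q, g₀ k l + (A - w k) ≤ q + (3 * cl + X) →
      A + g₀ k l ≤ q + w k + (3 * cl + X) := fun l q h => by omega
  have h8' : 2 ^ g₀ k 2 * |z2 - (g21 - k21) * zz| ≤ U * (2 ^ w k * 2 ^ g₀ k 0) := by
    have h3 := hex2 (E.tgt (show 2 < 3 by omega)) (i₀ := i) (i₁ := i) (k := k) (P := qN) (X := X)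
      hi hi hk hik hik (fun l hl hsl => by
        have h4 : l = 1 := (hsw l (by omega) hsl).resolve_right (by omega)
        rw [h4]
        exact ⟨b1.1, b1.2.1, b1.2.2⟩) (fun l hl hsl => by
        have h4 : l = 1 := (hsw l (by omega) hsl).resolve_right (by omega)
        rw [h4]
        exact ⟨m1, lb1⟩) (by omega) (by omega) ω hω 0 hs0
    rw [← hΞd] at h3
    obtain ⟨P', hP'⟩ : ∃ P', P' = ev c 2 Ξ 0 := ⟨_, rfl⟩
    obtain ⟨Q', hQ'⟩ : ∃ Q', Q' = ev c 2 Ξ 1 := ⟨_, rfl⟩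
    have u0 : P' none = 0 := by rw [hP']; exact ev_none _ _ _ _
    have u1 : P' (some (c 0)) = 1 := by rw [hP']; exact ev_eq hc2 hΞ (by norm_num)
    have u2 : P' (some (c 1)) = k10 := by
      have h4 := ev_comp hc2 hΞ 0 (show 1 < 2 by norm_num)
      rw [if_neg (by norm_num), ← hP', hΞ1, vk1 P' u0, u1] at h4
      linarith
    have s0 : Q' none = 0 := by rw [hQ']; exact ev_none _ _ _ _
    have s1 : Q' (some (c 0)) = 0 := by
      rw [hQ']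
      exact ev_lt hc2 hΞ (by norm_num) (by norm_num)
    have s2 : Q' (some (c 1)) = 1 := by rw [hQ']; exact ev_eq hc2 hΞ (by norm_num)
    have hvl : ∀ l ≤ 2, (∀ s, DepC c l (TH i s l)) →
        hs (TH i (slam F (w i) ω) l) (bt F ω) (bd F ω) P' =
        hs (TH i (slam F (w i) ω) l) (bt F ω) (bd F ω) P := fun l hl hdp =>
      hs_cg (hdp _) (bt F ω) (bd F ω) (by rw [u0, pn]) fun j hj => by
        have h4 : j = 0 ∨ j = 1 := by omega
        rcases h4 with rfl | rfl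
        · rw [u1, p0]
        · rw [u2, p1]
    rw [← hP', Finset.sum_range_succ, Finset.sum_range_one, wt_neg hs0, wt_pos hs1,
      zero_mul, zero_add, ← hQ', hvl 2 le_rfl (fun s => (E.evs i hi).thin.depH s 2),
      hvl 1 (by norm_num) (fun s => (E.evs i hi).thin.depH s 1), ← hzz, ← hz2, cv_subl,
      vg2 Q' s0] at h3
    have h4 : cv (grd (TH i (slam F (w i) ω) 2) (bt F ω)) Q' = k21 := by
      have h5 := vk2 Q' s0
      rw [s1, s2, mul_zero, zero_add, mul_one] at h5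
      exact h5
    rw [h4, s1, s2, mul_zero, zero_add, mul_one] at h3
    refine (ex_nat (by positivity) h3 (hAg 2 qN (by omega))).trans
      (mul_le_mul_of_nonneg_right ?_ (by positivity))
    rw [← pow_add]
    exact hUp (by omega)
  have h8'' : 2 ^ g₀ k 3 * |N3 - ((g31 - f1) + (g32 - f2) * k21) * zz - (g32 - f2) * z2| ≤
      U * (2 ^ w k * 2 ^ g₀ k 0) := by
    have h3 := hex3 E (i₀ := i) (i₁ := i₁) (k := k) (P := qR) (X := X)
      hi hi1 hk hik hi1k (fun l hl hsl => by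
        rcases hsw l hl hsl with h4 | h4
        · rw [h4]
          exact ⟨b1.1, b1.2.1, b1.2.2⟩
        · rw [h4]
          exact ⟨b2.1, b2.2.1, b2.2.2⟩) (fun l hl hsl => by
        rcases hsw l hl hsl with h4 | h4
        · rw [h4]
          exact ⟨m1, lb1⟩
        · rw [h4]
          exact ⟨m2, lb2'⟩) (by omega) (by omega) ω hω 0 hs0
    rw [← hΞd, ← hP, ← hN3, Finset.sum_range_succ, Finset.sum_range_succ, Finset.sum_range_one,
      wt_neg hs0, wt_pos hs1, wt_pos hs2, zero_mul, zero_add, ← hQ₁, ← hR, ← hzz, ← hz2, cv_subl,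
      cv_subl, vg3 Q₁ qn, vf Q₁ qn, vg3 R rn, vf R rn, q0, q1', q2', r0, r1, r2] at h3
    have e1 : N3 - ((g31 - f1) + (g32 - f2) * k21) * zz - (g32 - f2) * z2 =
        N3 - ((g30 * 0 + g31 * 1 + g32 * k21 - (f0 * 0 + f1 * 1 + f2 * k21)) * zz +
          (g30 * 0 + g31 * 0 + g32 * 1 - (f0 * 0 + f1 * 0 + f2 * 1)) * z2) := by ring
    rw [e1]
    refine (ex_nat (by positivity) h3 (hAg 3 qR (by omega))).trans
      (mul_le_mul_of_nonneg_right ?_ (by positivity))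
    rw [← pow_add]
    exact hUp (by omega)
  -- the derivatives of the polynomials
  have hkd : ∀ (Ψ : LnT F → MvPolynomial (Option (Fin m)) ℝ), (∀ s, DepC c 3 (Ψ s)) →
      2 ^ w t * ((Polynomial.derivative (kpol c (w t) Ψ s 0)).eval τ +
        (Polynomial.derivative (kpol c (w t) Ψ s 1)).eval τ * k10 +
        (Polynomial.derivative (kpol c (w t) Ψ s 2)).eval τ * (k20 + k21 * k10)) =
      hs (Ψ s) (bt F ω) (bd F ω) P := fun Ψ hΨ => by
    have h3 := kpol_hs F (c := c) (l := 3) (t := w t) hc3 htJ (Q := Ψ) hΨ ω pn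
    rw [← hsd, ← hτ, Finset.sum_range_succ, Finset.sum_range_succ, Finset.sum_range_one, p0, p1,
      p2', mul_one] at h3
    rw [h3]
    field_simp
  have hk2 : 2 ^ w t * ((Polynomial.derivative (kpol c (w t) (ltr (TH i) d 2) s 0)).eval τ +
        (Polynomial.derivative (kpol c (w t) (ltr (TH i) d 2) s 1)).eval τ * k10) = z2 := by
    have h3 := kpol_hs F (c := c) (l := 2) (t := w t) hc2 htJ
      (Q := ltr (TH i) d 2) (fun s => (E.evs i hi).thin.depH (co d s) 2) ω pn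
    rw [← hsd, ← hτ, hlt, Finset.sum_range_succ, Finset.sum_range_one, p0, p1, mul_one,
      ← hz2] at h3
    rw [h3]
    field_simp
  have hk1 : 2 ^ w t * (Polynomial.derivative (kpol c (w t) (ltr (TH i) d 1) s 0)).eval τ =
      zz := by
    have h3 := kpol_hs F (c := c) (l := 1) (t := w t)
      (hc3.mono (Set.Iio_subset_Iio (by norm_num))) htJ
      (Q := ltr (TH i) d 1) (fun s => (E.evs i hi).thin.depH (co d s) 1) ω pn
    rw [← hsd, ← hτ, hlt, Finset.sum_range_one, p0, mul_one, ← hzz] at h3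
    rw [h3]
    field_simp
  have hk3 := hkd (ltr (fun s (_ : ℕ) => Ht i₁ s) d₁ 0) (fun s => (E.evs i₁ hi1).pH (co d₁ s))
  rw [hltf, ← hN3] at hk3
  obtain ⟨z0, hz0⟩ : ∃ x, x = 2 ^ w t * (Polynomial.derivative (kpol c (w t)
    (ltr (TH i) d 1) s 0)).eval 0 := ⟨_, rfl⟩
  -- the lower bound
  obtain ⟨Lw, hLw⟩ : ∃ x : ℝ, x = 2 ^ (w k + g₀ k 0) / 2 ^ (g₀ k 1 + t₀) := ⟨_, rfl⟩
  have hLw0 : 0 < Lw := by rw [hLw]; positivity
  have hzz1 : Lw ≤ |zz| := by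
    rw [hLw, hzz]
    exact hlow P pn p0
  have hvz : |zz - z0| ≤ Lw / 2 ^ (y + y₂ + 1) := by
    have h3 := hvar τ (by rw [hτ]; exact rt_mem F (w t) ω)
    rw [hk1, ← hz0] at h3
    refine h3.trans (le_of_eq ?_)
    rw [hLw, show g₀ k 1 + (t₀ + (y + y₂) + 1) = g₀ k 1 + t₀ + (y + y₂ + 1) by ring,
      pow_add 2 (g₀ k 1 + t₀) (y + y₂ + 1)]
    field_simp
  have h2y : (1 : ℝ) ≤ 2 ^ (y + y₂) := one_le_pow₀ (by norm_num)
  have hz0L : Lw / 2 ≤ |z0| := by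
    have h3 : Lw / 2 ^ (y + y₂ + 1) ≤ Lw / 2 := by
      refine div_le_div_of_nonneg_left hLw0.le (by norm_num) ?_
      rw [pow_succ 2 (y + y₂)]
      linarith
    have h4 := abs_sub_abs_le_abs_sub zz z0
    linarith
  have hz00 : z0 ≠ 0 := by
    intro h
    rw [h, abs_zero] at hz0L
    linarith
  have h9' : |zz - z0| * (2 ^ y * 2 ^ y₂) ≤ |z0| := by
    rw [← pow_add]
    have g1 := mul_le_mul_of_nonneg_right hvz (show (0 : ℝ) ≤ 2 ^ (y + y₂) by positivity)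
    have g2 : Lw / 2 ^ (y + y₂ + 1) * 2 ^ (y + y₂) = Lw / 2 := by
      rw [pow_succ 2 (y + y₂)]
      field_simp
    rw [g2] at g1
    exact g1.trans hz0L
  have h9 : (2 : ℝ) ^ w k * 2 ^ g₀ k 0 ≤ U * (2 ^ g₀ k 1 * |z0|) := by
    have g1 : (2 : ℝ) ^ w k * 2 ^ g₀ k 0 = 2 ^ (t₀ + 1) * 2 ^ g₀ k 1 * (Lw / 2) := by
      rw [hLw, pow_add 2 (w k), pow_add 2 (g₀ k 1) t₀, pow_succ 2 t₀]
      field_simp
    rw [g1]
    have g2 := mul_le_mul_of_nonneg_left hz0L (show (0 : ℝ) ≤ 2 ^ (t₀ + 1) * 2 ^ g₀ k 1 by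
      positivity)
    refine g2.trans ?_
    rw [mul_assoc]
    exact mul_le_mul_of_nonneg_right (hUp (by omega)) (by positivity)
  -- the component of the moved place
  obtain ⟨mv, hmv⟩ : ∃ x, x = (mu s).eval τ := ⟨_, rfl⟩
  have h10 : 2 ^ g₀ k 3 * |g32 - mv| ≤ U * 2 ^ g₀ k 2 := by
    rw [← hmv, ← eg32, abs_sub_comm] at hmu
    refine (mul_le_mul_of_nonneg_left hmu (by positivity)).trans ?_
    have e1 : (2 : ℝ) ^ g₀ k 3 * (2 ^ Y * 2 ^ g₀ k 2 / 2 ^ g₀ k 3) = 2 ^ Y * 2 ^ g₀ k 2 := by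
      field_simp
    rw [e1]
    exact mul_le_mul_of_nonneg_right (hUp (by omega)) (by positivity)
  -- the closed gradient at the sample
  have hnu : (nuN c (w t) d d₁ (TH i) (fun s _ => Ht i₁ s) mu s).eval τ =
      (N3 - (z2 - de * zz) * (mv - f2)) / 2 ^ w t := by
    have hpw : (2 : ℝ) ^ w t ≠ 0 := by positivity
    rw [eq_div_iff hpw, ← hk3, ← hk2, ← hk1]
    unfold nuN
    simp only [Polynomial.eval_sub, Polynomial.eval_add, Polynomial.eval_mul]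
    rw [hkv, hkv, hkv, hfv, ← hde, ← hmv, ← ek10, ← ek20, ← ek21, ← ef2]
    ring
  have hal : (alN c (w t) d d₁ (TH i) (fun s _ => Ht i₁ s) mu s).eval τ =
      (N3 - (z2 - de * zz) * (mv - f2)) / z0 := by
    unfold alN
    rw [Polynomial.eval_mul, Polynomial.eval_C, hnu, hz0]
    have hpw : (2 : ℝ) ^ w t ≠ 0 := by positivity
    rw [inv_mul_eq_div, div_div]
  have hsum : ∑ j ∈ range 3, (lamN c (w t) d d₁ (TH i) (fun s _ => Ht i₁ s) mu s j).eval τ *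
      V (some (c j)) = f0 * V (some (c 0)) + f1 * V (some (c 1)) + f2 * V (some (c 2)) +
      (V (some (c 1)) - k10 * V (some (c 0))) * ((N3 - (z2 - de * zz) * (mv - f2)) / z0) +
      (V (some (c 2)) - ((k20 - de * k10) * V (some (c 0)) + (k21 + de) * V (some (c 1)))) *
        (mv - f2) := by
    rw [Finset.sum_range_succ, Finset.sum_range_succ, Finset.sum_range_one]
    unfold lamN
    rw [if_pos rfl, if_neg (by norm_num), if_pos rfl, if_neg (by norm_num),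
      if_neg (by norm_num)]
    simp only [Polynomial.eval_sub, Polynomial.eval_add, Polynomial.eval_mul]
    rw [hkv, hfv, hfv, hfv, hal, hu0, hu1, ← hmv, ← ek10, ← ef0, ← ef1, ← ef2]
    ring
  rw [hsum, vg3 V hV0, eG3 V hV0]
  have t0 : (2 : ℝ) ^ gT k 0 ≤ U * (2 ^ g₀ k 0 * 2 ^ (A - w k)) := by
    rw [hU, ← pow_add, ← pow_add]
    exact p2 (by omega)
  have t1 : (2 : ℝ) ^ gT k 1 ≤ 2 ^ g₀ k 1 * 2 ^ (A - w k) * 2 ^ y := by
    rw [← pow_add, ← pow_add]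
    exact p2 (by omega)
  have t2 : (2 : ℝ) ^ gT k 2 ≤ 2 ^ g₀ k 2 * 2 ^ (A - w k) * 2 ^ y₂ := by
    rw [← pow_add, ← pow_add]
    exact p2 (by omega)
  have hfin := nov_alg (n0 := 2 ^ g₀ k 0) (n1 := 2 ^ g₀ k 1) (n2 := 2 ^ g₀ k 2)
    (n3 := 2 ^ g₀ k 3) (W := 2 ^ w k) (Aw := 2 ^ (A - w k)) (T0 := 2 ^ gT k 0)
    (T1 := 2 ^ gT k 1) (T2 := 2 ^ gT k 2) (y := 2 ^ y) (y₂ := 2 ^ y₂)
    (by positivity) (by positivity) (by positivity) (by positivity) (by positivity)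
    (by positivity) (by positivity) (by positivity) hU1 (one_le_pow₀ (by norm_num))
    (one_le_pow₀ (by norm_num)) h1 h2 h3 h3' h4 h4' h5 h5' h6 t0 t1 t2 h8 h8' h8'' h9 h9' h10
    (V (some (c 0))) (V (some (c 1))) (V (some (c 2)))
  obtain ⟨En, hEn⟩ : ∃ x, x = 2 ^ g₀ k 0 * |V (some (c 0))| +
      2 ^ g₀ k 1 * |V (some (c 1)) - g10 * V (some (c 0))| +
      2 ^ g₀ k 2 * |V (some (c 2)) - (g20 * V (some (c 0)) + g21 * V (some (c 1)))| :=
    ⟨_, rfl⟩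
  rw [← hEn] at hfin ⊢
  have hEn0 : 0 ≤ En := by rw [hEn]; positivity
  rw [div_mul_eq_mul_div, le_div_iff₀ (by positivity), mul_comm (|_|)]
  refine hfin.trans (mul_le_mul_of_nonneg_right ?_ hEn0)
  have e1 : (22 : ℝ) ≤ 2 ^ 5 := by norm_num
  calc 22 * U ^ 5 ≤ 2 ^ 5 * U ^ 5 := mul_le_mul_of_nonneg_right e1 (by positivity)
    _ = 2 ^ (5 + 5 * Z) := by
        rw [hU, ← pow_mul, ← pow_add]
        congr 1
        ring
    _ ≤ _ := by
        refine p2 ?_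
        rw [hZd, ← hQ]
        have e2 : (5 * (C₁ + C₂ + C₃ + 60) + 5) * Q = 5 * ((C₁ + C₂ + C₃ + 60) * Q) +
            5 * Q := by ring
        rw [e2]
        omega

end Pool.TN
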