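import Pool.Agent.H88.D2.Sfg
import Pool.Agent.H88.D2.Knp

/-!
# Flat static coordinates over a static coordinate

`CEv.kq`: the component of the static label of the place two in the direction of the place one is
natural at a ball, from the last ball and the chain. `CEv.v2`: the visible chart of the place two.
`sta_st`: the event without curvature of the place two over a static place one is small.
-/

set_option autoImplicit false

namespace Pool.TN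

open Finset Real MvPolynomial
open Pool.Agent.H49.Ent Pool.Agent.H32.Dense Pool.STK Pool.KA Pool.KSAT Pool.K2S Pool.PB Pool.S6C
open Pool.GEN Pool.CHT Pool.CHX Pool.ISO Pool.D2R Pool.D2Z Pool.D2F
open Pool.LBT (ThrOf)
open Pool.FLF (Fam.sub)
open Pool.PB.Trl (rt rt_mem t_rt)

variable {m J : ℕ}

section

variable {F : Fam m J} {c : ℕ → Fin m} {r D Dr N M A cl X : ℕ} {Sc : ℕ → Prop}
    {w e h pp : ℕ → ℕ} {z g gc gT g₀ : ℕ → ℕ → ℕ} {κ : ℝ} {B : F.Ω → Prop}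
    {G : ℕ → PtT F → ℕ → MvPolynomial (Option (Fin m)) ℝ}
    {H : ℕ → LnT F → ℕ → MvPolynomial (Option (Fin m)) ℝ}
    {T : ℕ → PtT F → ℕ → MvPolynomial (Option (Fin m)) ℝ}
    {TH : ℕ → LnT F → ℕ → MvPolynomial (Option (Fin m)) ℝ}
    {Gt : ℕ → PtT F → MvPolynomial (Option (Fin m)) ℝ}
    {Ht : ℕ → LnT F → MvPolynomial (Option (Fin m)) ℝ}

/-- The unit vector of the place one. -/
noncomputable def uQ (c : ℕ → Fin m) : Option (Fin m) → ℝ := Pi.single (some (c 1)) 1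

theorem uQ_n (c : ℕ → Fin m) : uQ c none = 0 := by
  unfold uQ
  rw [Pi.single_apply, if_neg (by simp)]

theorem uQ_0 {c : ℕ → Fin m} (hc : Set.InjOn c (Set.Iio 2)) : uQ c (some (c 0)) = 0 := by
  have h1 : c 0 ≠ c 1 := fun h => absurd (hc (by simp) (by simp) h) (by norm_num)
  unfold uQ
  rw [Pi.single_apply, if_neg (fun h => h1 (Option.some_injective _ h))]

theorem uQ_1 (c : ℕ → Fin m) : uQ c (some (c 1)) = 1 := by
  unfold uQ
  rw [Pi.single_eq_same]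

theorem cv_uQ {c : ℕ → Fin m} (hc : Set.InjOn c (Set.Iio 2)) {W : Option (Fin m) → ℝ}
    (hW : CvC c 2 W) : cv W (uQ c) = W (some (c 1)) := by
  rw [cv2v hc hW (uQ_n c), uQ_0 hc, uQ_1]
  ring

/-- **The component in the direction of the place one**, at a ball `j`, from the ball `l` near the
radius `A`. -/
theorem CEv.kq (E : CEv F c r D Dr N M A cl Sc w e h pp z g gc gT g₀ κ B G H T TH Gt Ht)
    (hr : 3 ≤ r) {i j l : ℕ} (n : BNum r N A cl X w pp gc gT g₀ i l) {ω : F.Ω} (hω : B ω)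
    {Y : ℕ} (hch : |gG G ω l 2 (some (c 1)) - gG G ω j 2 (some (c 1))| ≤
      2 ^ Y * (2 ^ g₀ j 1 / 2 ^ g₀ j 2))
    (h1 : gT l 1 + g₀ j 2 ≤ g₀ l 2 + (A - w l) + g₀ j 1 + X)
    (h2 : g₀ l 1 + g₀ j 2 ≤ g₀ l 2 + g₀ j 1 + X) :
    |kT w TH ω i 2 (some (c 1)) - gG G ω j 2 (some (c 1))| ≤
      2 ^ (6 * (cl + X + 1) + Y) * (2 ^ g₀ j 1 / 2 ^ g₀ j 2) := by
  have hi := n.iN
  have hl := n.jN
  have hc2 : Set.InjOn c (Set.Iio 2) := E.inj.mono (Set.Iio_subset_Iio (by omega))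
  have a2 := E.ng l hl 2 (by omega)
  have b2 := n.cT 2 (by omega)
  have m2 := n.m2
  have lb2 := n.lb2
  obtain ⟨q, hq⟩ : ∃ q, q = g₀ l 2 + (A - w l) - (3 * cl + 2 * X) := ⟨_, rfl⟩
  have h3 := E.tb (show 2 < r by omega) hi hl n.ij (q := q) (by omega) (by omega) hω (uQ c)
  rw [en2v _ _ (E.cK hl ω) (uQ_n c), en2v _ _ (E.cΓ hl ω) (uQ_n c), cv1v (E.cK hl ω 1) (uQ_n c),
    cv1v (E.cΓ hl ω 1) (uQ_n c), uQ_0 hc2, uQ_1, abs_zero, mul_zero, mul_zero, mul_zero, mul_zero,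
    sub_zero, abs_one, mul_one, zero_add, mul_one, zero_add, cv_subl, cv_uQ hc2 (E.cK hi ω 2),
    cv_uQ hc2 (E.cΓ hl ω 2)] at h3
  obtain ⟨S, hS⟩ : ∃ S, S = cl + X + 1 := ⟨_, rfl⟩
  rw [← hS]
  obtain ⟨n0, hn0⟩ : ∃ x : ℝ, x = 2 ^ g₀ j 1 / 2 ^ g₀ j 2 := ⟨_, rfl⟩
  have hn00 : 0 < n0 := by rw [hn0]; positivity
  rw [← hn0] at hch ⊢
  have k1 : (2 : ℝ) ^ cl / 2 ^ q * 2 ^ gT l 1 ≤ 2 ^ (4 * S) * n0 := by
    rw [hn0, div_mul_eq_mul_div, ← mul_div_assoc, div_le_div_iff₀ (by positivity) (by positivity),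
      ← pow_add, ← pow_add, ← pow_add, ← pow_add]
    exact p2 (by omega)
  have k2 : (2 : ℝ) ^ cl / 2 ^ g₀ l 2 * 2 ^ g₀ l 1 ≤ 2 ^ (4 * S) * n0 := by
    rw [hn0, div_mul_eq_mul_div, ← mul_div_assoc, div_le_div_iff₀ (by positivity) (by positivity),
      ← pow_add, ← pow_add, ← pow_add, ← pow_add]
    exact p2 (by omega)
  have e1 : kT w TH ω i 2 (some (c 1)) - gG G ω j 2 (some (c 1)) =
      (kT w TH ω i 2 (some (c 1)) - gG G ω l 2 (some (c 1))) +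
      (gG G ω l 2 (some (c 1)) - gG G ω j 2 (some (c 1))) := by ring
  rw [e1]
  refine (abs_add_le _ _).trans ((add_le_add (h3.trans (add_le_add k1 k2)) hch).trans ?_)
  rw [← add_mul, ← add_mul]
  refine mul_le_mul_of_nonneg_right ?_ hn00.le
  have f1 : (2 : ℝ) ^ (4 * S) ≤ 2 ^ (4 * S + Y) := p2 (by omega)
  have f2 : (2 : ℝ) ^ Y ≤ 2 ^ (4 * S + Y) := p2 (by omega)
  have f3 : (2 : ℝ) ^ (6 * S + Y) ≥ 4 * 2 ^ (4 * S + Y) := by
    have : (2 : ℝ) ^ (4 * S + Y + 2) = 4 * 2 ^ (4 * S + Y) := by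
      rw [pow_add 2 (4 * S + Y) 2]
      ring
    rw [← this]
    exact p2 (by omega)
  linarith only [f1, f2, f3, (by positivity : (0 : ℝ) < 2 ^ (4 * S + Y))]

/-- The numbers of `v2`. -/
theorem num_v2 {r cl X S Z : ℕ} (hS : S = cl + X + 1) :
    (cl + 1) * r + (cl + 1) + 10 * S + r + 2 * cl ≤ 20 * (r + 1) * S ∧
      35 * S + 2 * r + Z + 5 ≤ 60 * (r + 1) * S + Z := by
  obtain ⟨y, hy⟩ : ∃ y, y = r * S := ⟨_, rfl⟩
  have h1 : (cl + 1) * r ≤ y := by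
    rw [hy, mul_comm]
    exact Nat.mul_le_mul_left _ (by omega)
  have h2 : r ≤ y := by
    rw [hy]
    exact Nat.le_mul_of_pos_right _ (by omega)
  have e1 : 20 * (r + 1) * S = 20 * y + 20 * S := by rw [hy]; ring
  have e2 : 60 * (r + 1) * S = 60 * y + 60 * S := by rw [hy]; ring
  constructor <;> omega

end

/-- **The visible chart of the static place two** over a static place one. -/
theorem CEv.v2 (D r : ℕ) (hr : 3 ≤ r) : ∃ C : ℕ, 1 ≤ C ∧ ∀ {m J : ℕ} {F : Fam m J} {c : ℕ → Fin m}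
    {Dr N M A cl X : ℕ} {Sc : ℕ → Prop} {w e h pp : ℕ → ℕ} {z g gc gT g₀ : ℕ → ℕ → ℕ} {κ : ℝ}
    {B : F.Ω → Prop} {G : ℕ → PtT F → ℕ → MvPolynomial (Option (Fin m)) ℝ}
    {H : ℕ → LnT F → ℕ → MvPolynomial (Option (Fin m)) ℝ}
    {T : ℕ → PtT F → ℕ → MvPolynomial (Option (Fin m)) ℝ}
    {TH : ℕ → LnT F → ℕ → MvPolynomial (Option (Fin m)) ℝ}
    {Gt : ℕ → PtT F → MvPolynomial (Option (Fin m)) ℝ}
    {Ht : ℕ → LnT F → MvPolynomial (Option (Fin m)) ℝ},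
    CEv F c r D Dr N M A cl Sc w e h pp z g gc gT g₀ κ B G H T TH Gt Ht → C ≤ cl → ¬ Sc 0 →
    ∀ {i k E₁ t : ℕ}, BNum r N A cl X w pp gc gT g₀ i k → BNum r N A cl X w pp gc gT g₀ k k →
    A - w k ≤ E₁ → gT k 1 ≤ g₀ k 1 + E₁ → E₁ + g₀ k 2 + t ≤ gT i 2 → E₁ + g₀ k 2 + t ≤ gT k 2 →
    ∀ {ω : F.Ω}, B ω → ∀ {Z : ℕ}, |kT w TH ω k 2 (some (c 1)) - gG G ω k 2 (some (c 1))| ≤
      2 ^ Z * (2 ^ g₀ k 1 / 2 ^ g₀ k 2) →
    (∀ V, |cv (gms (T k) 2 (ptr F J ω) 2 - gG G ω k 2) V| ≤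
      2 ^ (60 * (r + 1) * (cl + X + 1) + Z) / 2 ^ g₀ k 2 * en c (g₀ k) (w k) (gG G ω k) 2 V) ∧
    (∀ V : Option (Fin m) → ℝ, V none = 0 →
      |cv (kT w TH ω i 2 - gms (T k) 2 (ptr F J ω) 2) V| ≤
      2 ^ (60 * (r + 1) * (cl + X + 1) + Z) / 2 ^ (g₀ k 2 + t) *
        en c (g₀ k) (w k) (gG G ω k) 2 V) ∧
    |bd F ω (some (c 2)) - cv (gms (T k) 2 (ptr F J ω) 2) (bd F ω)| ≤
      2 ^ (60 * (r + 1) * (cl + X + 1) + Z) * 2 ^ w k / 2 ^ (g₀ k 2 + t) := by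
  obtain ⟨C₁, hC₁, htn⟩ := CEv.tn D r
  refine ⟨C₁, hC₁, ?_⟩
  intro m J F c Dr N M A cl X Sc w e h pp z g gc gT g₀ κ B G H T TH Gt Ht E hcl hs0 i k E₁ t n nk
    hE1 hE2 n1 n2 ω hω Z hQ
  have hi := n.iN
  have hk := n.jN
  have hrad := E.radA hk
  obtain ⟨t1, t2⟩ := htn E hcl k hk ω hω
  have lb2 := nk.lb2
  have hpt : gms (T k) 2 (ptr F J ω) 2 = grd (T k (ptr F J ω) 2) (hx F ω) := gms_self _ _ _
  rw [hpt]
  obtain ⟨S, hS⟩ : ∃ S, S = cl + X + 1 := ⟨_, rfl⟩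
  obtain ⟨c1, c2⟩ := num_v2 (r := r) (Z := Z) hS
  have h1c : (1 : ℝ) ≤ 2 ^ cl := one_le_pow₀ (by norm_num)
  -- the visible against the closed chart, in the thin norm
  obtain ⟨R₁, hR₁⟩ : ∃ R₁, R₁ = (cl + 1) * r + (cl + 1) := ⟨_, rfl⟩
  have hTT : ∀ V, |cv (grd (T k (ptr F J ω) 2) (hx F ω) - kT w TH ω k 2) V| ≤
      2 ^ R₁ / 2 ^ gT k 2 * en c (gT k) A (kT w TH ω k) 2 V := by
    intro V
    have b1 := t1 2 (by omega) V
    have b2 := t2 2 (by omega) V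
    have b3 := t1.en_ge (by positivity) (show 2 ≤ r by omega) V
    obtain ⟨N₁, hN₁⟩ : ∃ x : ℝ, x = en c (gT k) A (kT w TH ω k) 2 V := ⟨_, rfl⟩
    have hN₁0 : 0 ≤ N₁ := by rw [hN₁]; exact en_nonneg _ _ _ _ _ _
    rw [← hN₁] at b3 ⊢
    obtain ⟨N₂, hN₂⟩ : ∃ x : ℝ, x = en c (gT k) A (fun l => grd (T k (ptr F J ω) l) (bt F ω)) 2 V :=
      ⟨_, rfl⟩
    rw [← hN₂] at b1 b2 b3
    have e1 : cv (grd (T k (ptr F J ω) 2) (hx F ω) - kT w TH ω k 2) V =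
        cv (grd (T k (ptr F J ω) 2) (hx F ω) - grd (T k (ptr F J ω) 2) (bt F ω)) V -
        cv (kT w TH ω k 2 - grd (T k (ptr F J ω) 2) (bt F ω)) V := by
      rw [cv_subl, cv_subl, cv_subl]
      ring
    rw [e1]
    refine (abs_sub _ _).trans ((add_le_add b2 b1).trans ?_)
    have e2 : (1 + 2 ^ cl : ℝ) ≤ 2 ^ (cl + 1) := by
      rw [pow_succ]
      linarith only [h1c]
    have e3 : (1 + 2 ^ cl : ℝ) ^ r ≤ 2 ^ ((cl + 1) * r) := by
      rw [pow_mul]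
      exact pow_le_pow_left₀ (by positivity) e2 r
    have e4 : N₂ ≤ 2 ^ ((cl + 1) * r) * N₁ := b3.trans (mul_le_mul_of_nonneg_right e3 hN₁0)
    calc 1 / 2 ^ gT k 2 * N₂ + 2 ^ cl / 2 ^ gT k 2 * N₂ = (1 + 2 ^ cl) / 2 ^ gT k 2 * N₂ := by ring
      _ ≤ 2 ^ (cl + 1) / 2 ^ gT k 2 * (2 ^ ((cl + 1) * r) * N₁) :=
          mul_le_mul (div_le_div_of_nonneg_right e2 (by positivity)) e4
            (by rw [hN₂]; exact en_nonneg _ _ _ _ _ _) (by positivity)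
      _ = _ := by
          rw [hR₁, pow_add 2 ((cl + 1) * r)]
          ring
  have hthin : ∀ V, en c (gT k) A (kT w TH ω k) 2 V ≤
      2 ^ (E₁ + 10 * S + r) * en c (g₀ k) (w k) (gG G ω k) 2 V := fun V => by
    rw [hS]
    exact E.u5 hr hs0 nk hω hE1 hE2 V
  have hvis : ∀ V, |cv (grd (T k (ptr F J ω) 2) (hx F ω) - kT w TH ω k 2) V| ≤
      2 ^ (20 * (r + 1) * S) / 2 ^ (g₀ k 2 + t) * en c (g₀ k) (w k) (gG G ω k) 2 V := by
    intro V
    have hn0 := en_nonneg c (g₀ k) (w k) (gG G ω k) 2 V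
    refine (hTT V).trans ((mul_le_mul_of_nonneg_left (hthin V) (by positivity)).trans ?_)
    rw [← mul_assoc]
    refine mul_le_mul_of_nonneg_right ?_ hn0
    rw [div_mul_eq_mul_div, div_le_div_iff₀ (by positivity) (by positivity), ← pow_add,
      ← pow_add, ← pow_add]
    exact p2 (by omega)
  -- the label of the window `i`
  have hlab : ∀ V, |cv (kT w TH ω i 2 - kT w TH ω k 2) V| ≤
      2 ^ (20 * (r + 1) * S) / 2 ^ (g₀ k 2 + t) * en c (g₀ k) (w k) (gG G ω k) 2 V := by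
    intro V
    have hn0 := en_nonneg c (g₀ k) (w k) (gG G ω k) 2 V
    obtain ⟨q, hq⟩ : ∃ q, q = E₁ + g₀ k 2 + t - cl := ⟨_, rfl⟩
    have b2a := n.cT 2 (by omega)
    refine (E.tt (show 2 < r by omega) hi hk n.ij (q := q) (by omega) (by omega) hω V).trans
      ((mul_le_mul_of_nonneg_left (hthin V) (by positivity)).trans ?_)
    rw [← mul_assoc]
    refine mul_le_mul_of_nonneg_right ?_ hn0
    rw [div_mul_eq_mul_div, div_le_div_iff₀ (by positivity) (by positivity), ← pow_add,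
      ← pow_add, ← pow_add]
    exact p2 (by omega)
  have hfin : ∀ x : ℝ, 0 ≤ x → 2 ^ (20 * (r + 1) * S) * x + 2 ^ (20 * (r + 1) * S) * x ≤
      2 ^ (60 * (r + 1) * S + Z) * x := fun x hx => by
    rw [← add_mul]
    refine mul_le_mul_of_nonneg_right ?_ hx
    have : (2 : ℝ) ^ (20 * (r + 1) * S) + 2 ^ (20 * (r + 1) * S) = 2 ^ (20 * (r + 1) * S + 1) := by
      rw [pow_succ]
      ring
    rw [this]
    refine p2 ?_
    have h1 : 1 ≤ (r + 1) * S := Nat.mul_pos (by omega) (by omega)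
    have h2 : 60 * (r + 1) * S = 20 * (r + 1) * S + 40 * ((r + 1) * S) := by ring
    omega
  rw [← hS]
  refine ⟨fun V => ?_, fun V _ => ?_, ?_⟩
  · -- near the ball
    obtain ⟨W, hW⟩ : ∃ W, W = kT w TH ω k 2 - gG G ω k 2 := ⟨_, rfl⟩
    obtain ⟨b1, b1'⟩ := E.bdT hk nk.cp nk.cr hω
    obtain ⟨b2, b2'⟩ := E.bdG hk nk.cp nk.cr hω
    have b3 := b1 2 (by omega)
    have b4 := b2 2 (by omega)
    have b5 := b2' 2 (by omega)
    obtain ⟨N₁, hN₁⟩ : ∃ x : ℝ, x = en c (g₀ k) (w k) (gG G ω k) 2 V := ⟨_, rfl⟩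
    have hn0 : 0 ≤ N₁ := by rw [hN₁]; exact en_nonneg _ _ _ _ _ _
    have b6 := hvis V
    rw [← hN₁] at b6 ⊢
    -- `W` on the direction
    have hWb : |cv W (bd F ω)| ≤ 2 ^ (3 * S) * 2 ^ w k / 2 ^ g₀ k 2 := by
      have e1 : cv W (bd F ω) = (bd F ω (some (c 2)) - cv (gG G ω k 2) (bd F ω)) -
          (bd F ω (some (c 2)) - cv (kT w TH ω k 2) (bd F ω)) := by
        rw [hW, cv_subl]
        ring
      rw [e1]
      refine (abs_sub _ _).trans ((add_le_add b4 b3).trans ?_)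
      have e2 : (2 : ℝ) ^ cl * 2 ^ A / 2 ^ gT k 2 ≤ 2 ^ (2 * S) * 2 ^ w k / 2 ^ g₀ k 2 := by
        rw [div_le_div_iff₀ (by positivity) (by positivity), ← pow_add, ← pow_add, ← pow_add,
          ← pow_add]
        exact p2 (by omega)
      have e3 : (2 : ℝ) ^ cl * 2 ^ w k / 2 ^ g₀ k 2 ≤ 2 ^ (2 * S) * 2 ^ w k / 2 ^ g₀ k 2 :=
        div_le_div_of_nonneg_right (mul_le_mul_of_nonneg_right (p2 (by omega)) (by positivity))
          (by positivity)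
      have e4 : (2 : ℝ) ^ (2 * S) * 2 ≤ 2 ^ (3 * S) := by
        rw [← pow_succ]
        exact p2 (by omega)
      have e5 := mul_le_mul_of_nonneg_right e4 (show (0 : ℝ) ≤ 2 ^ w k / 2 ^ g₀ k 2 by positivity)
      have e6 : (2 : ℝ) ^ (2 * S) * 2 ^ w k / 2 ^ g₀ k 2 = 2 ^ (2 * S) * (2 ^ w k / 2 ^ g₀ k 2) := by
        ring
      have e7 : (2 : ℝ) ^ (3 * S) * 2 ^ w k / 2 ^ g₀ k 2 = 2 ^ (3 * S) * (2 ^ w k / 2 ^ g₀ k 2) := by
        ring
      rw [e7]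
      rw [e6] at e2 e3
      linarith only [e2, e3, e5]
    obtain ⟨V', hV'⟩ : ∃ V' : Option (Fin m) → ℝ, V' = V + (-V none) • bd F ω := ⟨_, rfl⟩
    have hb0 : (bd F ω : Option (Fin m) → ℝ) none = 1 := rfl
    have hV'0 : V' none = 0 := by
      rw [hV']
      show V none + -V none * 1 = 0
      ring
    have hVn : 2 ^ w k * |V none| ≤ N₁ := by
      rw [hN₁, en_eq]
      linarith only [Finset.sum_nonneg fun j (_ : j ∈ range 2) =>
        (by positivity : 0 ≤ (2 : ℝ) ^ g₀ k j * |V (some (c j)) - cv (gG G ω k j) V|)]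
    have hVn' : |V none| ≤ N₁ / 2 ^ w k := by
      rw [le_div_iff₀ (by positivity)]
      linarith only [hVn]
    have hbe : en c (g₀ k) (w k) (gG G ω k) 2 (bd F ω) ≤ 2 ^ (2 * S) * 2 ^ w k := by
      refine b5.trans (mul_le_mul_of_nonneg_right ?_ (by positivity))
      push_cast
      have : (2 : ℝ) ^ (cl + 2) ≤ 2 ^ (2 * S) := p2 (by omega)
      rw [pow_add 2 cl 2] at this
      linarith only [this, h1c]
    have henV : en c (g₀ k) (w k) (gG G ω k) 2 V' ≤ 2 ^ (3 * S) * N₁ := by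
      rw [hV']
      refine (en_add_le c _ _ _ 2 V _).trans ?_
      rw [en_smul, abs_neg, ← hN₁]
      have h1 := mul_le_mul hVn' hbe (en_nonneg _ _ _ _ _ _) (by positivity)
      have e1 : N₁ / 2 ^ w k * (2 ^ (2 * S) * 2 ^ w k) = 2 ^ (2 * S) * N₁ := by field_simp
      rw [e1] at h1
      have e4 : (2 : ℝ) ^ (2 * S) * 2 ≤ 2 ^ (3 * S) := by
        rw [← pow_succ]
        exact p2 (by omega)
      have e5 : (1 : ℝ) ≤ 2 ^ (2 * S) := one_le_pow₀ (by norm_num)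
      have e6 := mul_le_mul_of_nonneg_right e4 hn0
      have e7 := mul_le_mul_of_nonneg_right e5 hn0
      linarith only [h1, e6, e7]
    have b7 := E.u3 hr hs0 nk hω hQ hV'0
    rw [← hW, ← hS] at b7
    have hVe : V = V' + V none • bd F ω := by
      rw [hV', neg_smul]
      abel
    have k1 : |cv W V| ≤ 2 ^ (19 * S + Z) / 2 ^ g₀ k 2 * N₁ := by
      conv_lhs => rw [hVe]
      rw [cv_add, cv_smul]
      refine (abs_add_le _ _).trans ?_
      rw [abs_mul]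
      have f1 : |cv W V'| ≤ 2 ^ (18 * S + Z) / 2 ^ g₀ k 2 * N₁ := by
        refine b7.trans ((mul_le_mul_of_nonneg_left henV (by positivity)).trans (le_of_eq ?_))
        rw [show 18 * S + Z = (15 * S + Z) + 3 * S by ring, pow_add 2 (15 * S + Z)]
        ring
      have f2 : |V none| * |cv W (bd F ω)| ≤ 2 ^ (18 * S + Z) / 2 ^ g₀ k 2 * N₁ := by
        refine (mul_le_mul hVn' hWb (abs_nonneg _) (by positivity)).trans ?_
        have e1 : N₁ / 2 ^ w k * (2 ^ (3 * S) * 2 ^ w k / 2 ^ g₀ k 2) =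
            2 ^ (3 * S) / 2 ^ g₀ k 2 * N₁ := by field_simp
        rw [e1]
        exact mul_le_mul_of_nonneg_right (div_le_div_of_nonneg_right (p2 (by omega))
          (by positivity)) hn0
      have f3 : (2 : ℝ) ^ (18 * S + Z) * 2 ≤ 2 ^ (19 * S + Z) := by
        rw [← pow_succ]
        exact p2 (by omega)
      have f4 := mul_le_mul_of_nonneg_right (div_le_div_of_nonneg_right f3
        (show (0 : ℝ) ≤ 2 ^ g₀ k 2 by positivity)) hn0
      have f5 : (2 : ℝ) ^ (18 * S + Z) * 2 / 2 ^ g₀ k 2 * N₁ =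
        2 ^ (18 * S + Z) / 2 ^ g₀ k 2 * N₁ + 2 ^ (18 * S + Z) / 2 ^ g₀ k 2 * N₁ := by ring
      rw [f5] at f4
      linarith only [f1, f2, f4]
    have e1 : cv (grd (T k (ptr F J ω) 2) (hx F ω) - gG G ω k 2) V =
        cv (grd (T k (ptr F J ω) 2) (hx F ω) - kT w TH ω k 2) V + cv W V := by
      rw [hW, cv_subl, cv_subl, cv_subl]
      ring
    rw [e1]
    refine (abs_add_le _ _).trans ((add_le_add b6 k1).trans ?_)
    rw [← add_mul]
    refine mul_le_mul_of_nonneg_right ?_ hn0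
    have f1 : (2 : ℝ) ^ (20 * (r + 1) * S) / 2 ^ (g₀ k 2 + t) ≤
        2 ^ (20 * (r + 1) * S + Z) / 2 ^ g₀ k 2 := by
      rw [div_le_div_iff₀ (by positivity) (by positivity), ← pow_add, ← pow_add]
      exact p2 (by omega)
    have f2 : (2 : ℝ) ^ (19 * S + Z) / 2 ^ g₀ k 2 ≤ 2 ^ (20 * (r + 1) * S + Z) / 2 ^ g₀ k 2 := by
      refine div_le_div_of_nonneg_right (p2 ?_) (by positivity)
      have h2 : 20 * (r + 1) * S = 20 * (r * S) + 20 * S := by ring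
      omega
    have f3 : (2 : ℝ) ^ (20 * (r + 1) * S + Z) * 2 ≤ 2 ^ (60 * (r + 1) * S + Z) := by
      rw [← pow_succ]
      refine p2 ?_
      have h1 : 1 ≤ (r + 1) * S := Nat.mul_pos (by omega) (by omega)
      have h2 : 60 * (r + 1) * S = 20 * (r + 1) * S + 40 * ((r + 1) * S) := by ring
      omega
    have f4 := div_le_div_of_nonneg_right f3 (show (0 : ℝ) ≤ 2 ^ g₀ k 2 by positivity)
    have f5 : (2 : ℝ) ^ (20 * (r + 1) * S + Z) * 2 / 2 ^ g₀ k 2 =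
        2 ^ (20 * (r + 1) * S + Z) / 2 ^ g₀ k 2 + 2 ^ (20 * (r + 1) * S + Z) / 2 ^ g₀ k 2 := by ring
    rw [f5] at f4
    linarith only [f1, f2, f4]
  · -- the label
    have hn0 := en_nonneg c (g₀ k) (w k) (gG G ω k) 2 V
    have e1 : cv (kT w TH ω i 2 - grd (T k (ptr F J ω) 2) (hx F ω)) V =
        cv (kT w TH ω i 2 - kT w TH ω k 2) V -
        cv (grd (T k (ptr F J ω) 2) (hx F ω) - kT w TH ω k 2) V := by
      rw [cv_subl, cv_subl, cv_subl]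
      ring
    rw [e1]
    refine (abs_sub _ _).trans ((add_le_add (hlab V) (hvis V)).trans ?_)
    have := hfin (1 / 2 ^ (g₀ k 2 + t) * en c (g₀ k) (w k) (gG G ω k) 2 V) (by positivity)
    calc _ = 2 ^ (20 * (r + 1) * S) * (1 / 2 ^ (g₀ k 2 + t) *
          en c (g₀ k) (w k) (gG G ω k) 2 V) + 2 ^ (20 * (r + 1) * S) * (1 / 2 ^ (g₀ k 2 + t) *
          en c (g₀ k) (w k) (gG G ω k) 2 V) := by ring
      _ ≤ _ := this
      _ = _ := by ring
  · -- the velocity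
    obtain ⟨b1, -⟩ := E.bdT hk nk.cp nk.cr hω
    obtain ⟨-, b2'⟩ := E.bdG hk nk.cp nk.cr hω
    have b3 := b1 2 (by omega)
    have b5 := b2' 2 (by omega)
    have b6 := hvis (bd F ω)
    have e1 : bd F ω (some (c 2)) - cv (grd (T k (ptr F J ω) 2) (hx F ω)) (bd F ω) =
        (bd F ω (some (c 2)) - cv (kT w TH ω k 2) (bd F ω)) -
        cv (grd (T k (ptr F J ω) 2) (hx F ω) - kT w TH ω k 2) (bd F ω) := by
      rw [cv_subl]
      ring
    rw [e1]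
    refine (abs_sub _ _).trans ((add_le_add b3 (b6.trans (mul_le_mul_of_nonneg_left b5
      (by positivity)))).trans ?_)
    push_cast
    have f1 : (2 : ℝ) ^ cl * 2 ^ A / 2 ^ gT k 2 ≤ 2 ^ cl * (2 ^ w k / 2 ^ (g₀ k 2 + t)) := by
      rw [← mul_div_assoc, div_le_div_iff₀ (by positivity) (by positivity), ← pow_add, ← pow_add,
        ← pow_add, ← pow_add]
      exact p2 (by omega)
    have f2 : (2 : ℝ) ^ (20 * (r + 1) * S) / 2 ^ (g₀ k 2 + t) * ((1 + 2 * 2 ^ cl) * 2 ^ w k) ≤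
        2 ^ (20 * (r + 1) * S + (cl + 2)) * (2 ^ w k / 2 ^ (g₀ k 2 + t)) := by
      have : (1 + 2 * 2 ^ cl : ℝ) ≤ 2 ^ (cl + 2) := by
        rw [pow_add 2 cl 2]
        linarith only [h1c]
      rw [pow_add 2 (20 * (r + 1) * S)]
      calc (2 : ℝ) ^ (20 * (r + 1) * S) / 2 ^ (g₀ k 2 + t) * ((1 + 2 * 2 ^ cl) * 2 ^ w k) =
            (1 + 2 * 2 ^ cl) * (2 ^ (20 * (r + 1) * S) * (2 ^ w k / 2 ^ (g₀ k 2 + t))) := by ring
        _ ≤ 2 ^ (cl + 2) * (2 ^ (20 * (r + 1) * S) * (2 ^ w k / 2 ^ (g₀ k 2 + t))) :=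
            mul_le_mul_of_nonneg_right this (by positivity)
        _ = _ := by ring
    have f3 : (2 : ℝ) ^ cl + 2 ^ (20 * (r + 1) * S + (cl + 2)) ≤ 2 ^ (60 * (r + 1) * S + Z) := by
      have g1 : (2 : ℝ) ^ cl ≤ 2 ^ (20 * (r + 1) * S + (cl + 2)) := p2 (by omega)
      have g2 : (2 : ℝ) ^ (20 * (r + 1) * S + (cl + 2)) * 2 ≤ 2 ^ (60 * (r + 1) * S + Z) := by
        rw [← pow_succ]
        refine p2 ?_
        have h1 : S ≤ (r + 1) * S := Nat.le_mul_of_pos_left _ (by omega)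
        have h2 : 60 * (r + 1) * S = 20 * (r + 1) * S + 40 * ((r + 1) * S) := by ring
        omega
      linarith only [g1, g2]
    have f4 := mul_le_mul_of_nonneg_right f3 (show (0 : ℝ) ≤ 2 ^ w k / 2 ^ (g₀ k 2 + t) by
      positivity)
    have f5 : (2 : ℝ) ^ (60 * (r + 1) * S + Z) * 2 ^ w k / 2 ^ (g₀ k 2 + t) =
        2 ^ (60 * (r + 1) * S + Z) * (2 ^ w k / 2 ^ (g₀ k 2 + t)) := by ring
    rw [f5]
    linarith only [f1, f2, f4]

end Pool.TN
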