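import Pool.Agent.H88.D2.Sfi
import Pool.Agent.H88.D2.Nov

/-!
# The curvatures of the static place two hardly vary

`CEv.rvar`: from the sizes of the curvatures of the static place two at the anchor, the variation of the
one in the direction of the place one on a later window, and the derivative of the one in the rough
direction.
-/

set_option autoImplicit false

namespace Pool.TN

open Finset Real MvPolynomial
open Pool.Agent.H49.Ent Pool.Agent.H32.Dense Pool.STK Pool.KA Pool.KSAT Pool.K2S Pool.PB Pool.S6C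
open Pool.GEN Pool.CHT Pool.CHX Pool.ISO Pool.D2R Pool.D2Z Pool.D2F
open Pool.LBT (ThrOf)
open Pool.FLF (Fam.sub)
open Pool.PB.Trl (rt rt_mem t_rt)

variable {m J : ℕ}

/-- The curvature of the label `TH · l` in the rough direction, as a polynomial. -/
noncomputable def npU {F : Fam m J} (c : ℕ → Fin m) (t q l : ℕ)
    (TH : LnT F → ℕ → MvPolynomial (Option (Fin m)) ℝ) (s : LnT F) : Polynomial ℝ :=
  Polynomial.derivative (kpol c t (ltr TH q l) s 0) +
    Polynomial.derivative (kpol c t (ltr TH q l) s 1) * kpol c t (ltr TH q 1) s 0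

theorem dlU_np {F : Fam m J} (c : ℕ → Fin m) (t q l : ℕ)
    (TH : LnT F → ℕ → MvPolynomial (Option (Fin m)) ℝ) (s : LnT F) :
    dlU c t q l TH s = Polynomial.C (((Polynomial.derivative
      (kpol c t (ltr TH q 1) s 0)).eval 0)⁻¹) * npU c t q l TH s := rfl

/-- The rough curvature on a later window. -/
theorem npU_tr {F : Fam m J} (c : ℕ → Fin m)
    (TH : LnT F → ℕ → MvPolynomial (Option (Fin m)) ℝ) (a q l : ℕ) (s : LnT F) :
    npU c (a + q) q l TH s = Polynomial.C (1 / 2 ^ q) *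
      (Polynomial.derivative (kpol c a (fun s => TH s l) (co q s) 0) +
        Polynomial.derivative (kpol c a (fun s => TH s l) (co q s) 1) *
          kpol c a (fun s => TH s 1) (co q s) 0).comp
      (Polynomial.C (((s.2.2 % 2 ^ q : ℕ) : ℝ) / 2 ^ q) +
        Polynomial.C (1 / 2 ^ q) * Polynomial.X) := by
  unfold npU
  rw [kpol_ltr, kpol_ltr, kpol_ltr]
  simp only [Polynomial.derivative_comp, Polynomial.derivative_add, Polynomial.derivative_C,
    Polynomial.derivative_mul, Polynomial.derivative_X, zero_mul, zero_add, mul_one,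
    Polynomial.add_comp, Polynomial.mul_comp]
  ring

/-- The rough curvature at the sample. -/
theorem npU_rt (F : Fam m J) {c : ℕ → Fin m} (hc : Set.InjOn c (Set.Iio 2)) {t : ℕ} (ht : t ≤ J)
    {TH : LnT F → ℕ → MvPolynomial (Option (Fin m)) ℝ} (hd : ∀ s l, DepC c l (TH s l)) (ω : F.Ω)
    {P : Option (Fin m) → ℝ} (p0 : P none = 0) (p1 : P (some (c 0)) = 1)
    (p2 : P (some (c 1)) = grd (TH (slam F t ω) 1) (bt F ω) (some (c 0))) :
    2 ^ t * (Polynomial.derivative (kpol c t (fun s => TH s 2) (slam F t ω) 0) +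
        Polynomial.derivative (kpol c t (fun s => TH s 2) (slam F t ω) 1) *
          kpol c t (fun s => TH s 1) (slam F t ω) 0).eval (rt F t ω) =
      hs (TH (slam F t ω) 2) (bt F ω) (bd F ω) P := by
  have h2 := kpol_hs F hc ht (Q := fun s => TH s 2) (fun s => hd s 2) ω p0
  rw [Finset.sum_range_succ, Finset.sum_range_one, p1, mul_one, p2] at h2
  have h3 := kpol_rt F c ht (fun s => TH s 1) ω 0
  rw [Polynomial.eval_add, Polynomial.eval_mul, h3, h2]
  field_simp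

/-- **The curvatures of the static place two on a later window.** -/
theorem CEv.rvar (m D r : ℕ) (hr : 3 ≤ r) : ∃ C : ℕ, 1 ≤ C ∧ ∀ {J : ℕ} {F : Fam m J}
    {c : ℕ → Fin m} {Dr N M A cl : ℕ} {Sc : ℕ → Prop} {w e h pp : ℕ → ℕ}
    {z g gc gT g₀ : ℕ → ℕ → ℕ} {κ θ : ℝ}
    {B : F.Ω → Prop} {G : ℕ → PtT F → ℕ → MvPolynomial (Option (Fin m)) ℝ}
    {H : ℕ → LnT F → ℕ → MvPolynomial (Option (Fin m)) ℝ}
    {T : ℕ → PtT F → ℕ → MvPolynomial (Option (Fin m)) ℝ}
    {TH : ℕ → LnT F → ℕ → MvPolynomial (Option (Fin m)) ℝ}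
    {Gt : ℕ → PtT F → MvPolynomial (Option (Fin m)) ℝ}
    {Ht : ℕ → LnT F → MvPolynomial (Option (Fin m)) ℝ},
    CEv F c r D Dr N M A cl Sc w e h pp z g gc gT g₀ κ B G H T TH Gt Ht →
    ∀ (hB : 0 < Pe F.p B) {i t n : ℕ} {S₁ S₂ : ℝ}, i ≤ N → t ≤ N → w i ≤ w t → 0 < S₁ → 0 < S₂ →
      0 ≤ θ → (Fam.sub F B hB).Tm θ →
      C * (θ + 1) ≤ ((J : ℝ) - w i) * Real.log 2 → Real.exp (C * (θ + 1)) ≤ 2 ^ n →
      (∀ ω, B ω → |hs (TH i (slam F (w i) ω) 2) (bt F ω) (bd F ω) (uQ c)| ≤ S₁) →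
      (∀ ω, B ω → ∀ P, FrP c w TH ω i P →
        |hs (TH i (slam F (w i) ω) 2) (bt F ω) (bd F ω) P| ≤ S₂) →
      ∃ B' : F.Ω → Prop, Sub B' B ∧ Pe F.p B / 2 ≤ Pe F.p B' ∧ ∀ ω, B' ω →
        ∀ u ∈ Set.Icc (0 : ℝ) 1, (∀ u' ∈ Set.Icc (0 : ℝ) 1,
        |2 ^ w t * (Polynomial.derivative (kpol c (w t) (ltr (TH i) (w t - w i) 2)
            (slam F (w t) ω) 1)).eval u -
          2 ^ w t * (Polynomial.derivative (kpol c (w t) (ltr (TH i) (w t - w i) 2)
            (slam F (w t) ω) 1)).eval u'| ≤ 2 ^ (C * (n + 1)) * S₁ / 2 ^ (w t - w i)) ∧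
        |2 ^ w t * (2 ^ w t * (Polynomial.derivative (npU c (w t) (w t - w i) 2 (TH i)
            (slam F (w t) ω))).eval u)| ≤ 2 ^ (C * (n + 1)) * 2 ^ w i * S₂ := by
  obtain ⟨C₁, hC₁, hrem⟩ := rem_fam m (2 * D) 2
  obtain ⟨C₂, hC₂, hlip⟩ := Pool.Agent.H40.SLP.lip_one (2 * D)
  obtain ⟨C₅, hC₅, hmk⟩ := Pool.Agent.H40.BFL.unit_markov (2 * D)
  obtain ⟨C₃, hC₃⟩ := exists_nat_ge C₁
  obtain ⟨C₄, hC₄⟩ := pow_unbounded_of_one_lt C₂ (one_lt_two (α := ℝ))
  obtain ⟨C₆, hC₆⟩ := pow_unbounded_of_one_lt C₅ (one_lt_two (α := ℝ))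
  refine ⟨C₃ + C₄ + C₆ + 1, by omega, ?_⟩
  intro J F c Dr N M A cl Sc w e h pp z g gc gT g₀ κ θ B G H T TH Gt Ht E hB i t n S₁ S₂ hi ht hit
    hS₁ hS₂ hθ hTm hCJ hexp hq1 hq2
  have hiJ : w i ≤ J := (E.wA i hi).trans E.AJ
  have htJ : w t ≤ J := (E.wA t ht).trans E.AJ
  have hc2 : Set.InjOn c (Set.Iio 2) := E.inj.mono (Set.Iio_subset_Iio (by omega))
  have hCC : C₁ * (θ + 1) ≤ ((C₃ + C₄ + C₆ + 1 : ℕ) : ℝ) * (θ + 1) := by
    refine mul_le_mul_of_nonneg_right (hC₃.trans ?_) (by linarith)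
    exact_mod_cast (by omega : C₃ ≤ C₃ + C₄ + C₆ + 1)
  have hdT : ∀ (s : LnT F) l, (TH i s l).totalDegree ≤ D := fun s l =>
    (E.evs i hi).thin.degH s l
  have hpT : ∀ (s : LnT F) l, DepC c l (TH i s l) := fun s l => (E.evs i hi).thin.depH s l
  have hk0 : ∀ (l j : ℕ) (s : LnT F), (kpol c (w i) (fun s => TH i s l) s j).natDegree ≤ D :=
    fun l j s => kpol_deg (F := F) c (w i) (fun s => hdT s l) s j
  have hk1 : ∀ (l j : ℕ) (s : LnT F), (Polynomial.derivative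
      (kpol c (w i) (fun s => TH i s l) s j)).natDegree ≤ D := fun l j s =>
    (Polynomial.natDegree_derivative_le _).trans (by have := hk0 l j s; omega)
  obtain ⟨p₁, hp₁⟩ : ∃ p : LnT F → Polynomial ℝ,
    p = fun s => Polynomial.derivative (kpol c (w i) (fun s => TH i s 2) s 1) := ⟨_, rfl⟩
  obtain ⟨p₂, hp₂⟩ : ∃ p : LnT F → Polynomial ℝ,
    p = fun s => Polynomial.derivative (kpol c (w i) (fun s => TH i s 2) s 0) +
      Polynomial.derivative (kpol c (w i) (fun s => TH i s 2) s 1) *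
        kpol c (w i) (fun s => TH i s 1) s 0 := ⟨_, rfl⟩
  have hp1d : ∀ s, (p₁ s).natDegree ≤ 2 * D := fun s => by
    rw [hp₁]
    exact (hk1 2 1 s).trans (by omega)
  have hp2d : ∀ s, (p₂ s).natDegree ≤ 2 * D := fun s => by
    rw [hp₂]
    refine (Polynomial.natDegree_add_le _ _).trans (max_le ((hk1 2 0 s).trans (by omega))
      (Polynomial.natDegree_mul_le.trans ?_))
    have := hk1 2 1 s
    have := hk0 1 0 s
    omega
  obtain ⟨q, hq⟩ : ∃ q : ℕ → LnT F → Polynomial ℝ,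
    q = fun j s => Polynomial.C (2 ^ w i) * (if j = 0 then p₁ s else p₂ s) := ⟨_, rfl⟩
  obtain ⟨S, hS⟩ : ∃ S : ℕ → ℝ, S = fun j => if j = 0 then S₁ else S₂ := ⟨_, rfl⟩
  have q0' : ∀ s, q 0 s = Polynomial.C (2 ^ w i) * p₁ s := fun s => by rw [hq]; simp
  have q1' : ∀ s, q 1 s = Polynomial.C (2 ^ w i) * p₂ s := fun s => by rw [hq]; simp
  have S0' : S 0 = S₁ := by rw [hS]; simp
  have S1' : S 1 = S₂ := by rw [hS]; simp
  have hqd : ∀ j < 2, ∀ s, (q j s).natDegree ≤ 2 * D := fun j hj s => by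
    have h01 : j = 0 ∨ j = 1 := by omega
    rcases h01 with rfl | rfl
    · rw [q0']
      exact (Polynomial.natDegree_C_mul_le _ _).trans (hp1d s)
    · rw [q1']
      exact (Polynomial.natDegree_C_mul_le _ _).trans (hp2d s)
  obtain ⟨B', c1, c2, c3⟩ := hrem J F B hB (w i) q S θ hiJ hqd (fun j hj => by
      have h01 : j = 0 ∨ j = 1 := by omega
      rcases h01 with rfl | rfl
      · rw [S0']; exact hS₁
      · rw [S1']; exact hS₂) hθ hTm (hCC.trans hCJ) (fun ω hω j hj => by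
      have h01 : j = 0 ∨ j = 1 := by omega
      rcases h01 with rfl | rfl
      · rw [q0', S0', Polynomial.eval_mul, Polynomial.eval_C, hp₁]
        beta_reduce
        rw [kpol_der F c hiJ (fun s => TH i s 2) ω 1, ← hs_uQ hc2 (hpT _ 2)]
        have e1 : (2 : ℝ) ^ w i * (1 / 2 ^ w i * hs (TH i (slam F (w i) ω) 2) (bt F ω) (bd F ω)
            (uQ c)) = hs (TH i (slam F (w i) ω) 2) (bt F ω) (bd F ω) (uQ c) := by field_simp
        rw [e1]
        exact hq1 ω hω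
      · obtain ⟨P, hPd⟩ : ∃ P, P = ev c 2 (kT w TH ω i) 0 := ⟨_, rfl⟩
        have hP : FrP c w TH ω i P := by
          have h3 := ev_comp hc2 (E.cK hi ω) 0 (show 1 < 2 by norm_num)
          rw [if_neg (by norm_num), ← hPd] at h3
          exact ⟨by rw [hPd]; exact ev_none _ _ _ _, by
            rw [hPd]
            exact ev_eq hc2 (E.cK hi ω) (by norm_num), by linarith only [h3]⟩
        have hP2 : P (some (c 1)) = grd (TH i (slam F (w i) ω) 1) (bt F ω) (some (c 0)) := by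
          rw [hP.p2, cv1v (E.cK hi ω 1) hP.p0, hP.p1, mul_one]
          rfl
        rw [q1', S1', Polynomial.eval_mul, Polynomial.eval_C, hp₂]
        beta_reduce
        rw [npU_rt F hc2 hiJ hpT ω hP.p0 hP.p1 hP2]
        exact hq2 ω hω P hP)
  refine ⟨B', c1, c2, fun ω hω u hu => ?_⟩
  obtain ⟨d, hd⟩ : ∃ d, d = w t - w i := ⟨_, rfl⟩
  have hwt : w t = w i + d := by omega
  have hexp' : Real.exp (C₁ * (θ + 1)) ≤ 2 ^ n := (Real.exp_le_exp.2 hCC).trans hexp
  obtain ⟨al, hal⟩ : ∃ al : ℝ, al = (((slam F (w t) ω).2.2 % 2 ^ d : ℕ) : ℝ) / 2 ^ d := ⟨_, rfl⟩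
  have hal0 : 0 ≤ al := by rw [hal]; positivity
  have hd0 : (0 : ℝ) < 2 ^ d := by positivity
  have hal1 : al + 1 / 2 ^ d ≤ 1 := by
    rw [hal, ← add_div, div_le_one hd0]
    have h2 : (slam F (w t) ω).2.2 % 2 ^ d + 1 ≤ 2 ^ d := Nat.mod_lt _ (by positivity)
    exact_mod_cast h2
  have hb0 : (0 : ℝ) ≤ 1 / 2 ^ d := by positivity
  have hx1 : ∀ x ∈ Set.Icc (0 : ℝ) 1, al + 1 / 2 ^ d * x ∈ Set.Icc (0 : ℝ) 1 := by
    intro x hx
    have h3 : 1 / 2 ^ d * x ≤ 1 / 2 ^ d := mul_le_of_le_one_right hb0 hx.2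
    have h4 : 0 ≤ 1 / 2 ^ d * x := mul_nonneg hb0 hx.1
    exact ⟨by linarith, by linarith⟩
  have hx : ∀ x ∈ Set.Icc (0 : ℝ) 1, |al + 1 / 2 ^ d * x| ≤ 2 := by
    intro x hx
    have := hx1 x hx
    rw [abs_of_nonneg this.1]
    linarith [this.2]
  have hcoi : co d (slam F (w t) ω) = slam F (w i) ω := by
    rw [hd]
    exact co_slam F hit htJ ω
  have hpw : (2 : ℝ) ^ w t = 2 ^ w i * 2 ^ d := by rw [hwt, pow_add]
  rw [← hd]
  refine ⟨fun u' hu' => ?_, ?_⟩
  · have hkey : ∀ x : ℝ, 2 ^ w t * (Polynomial.derivative (kpol c (w t) (ltr (TH i) d 2)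
        (slam F (w t) ω) 1)).eval x = (q 0 (slam F (w i) ω)).eval (al + 1 / 2 ^ d * x) := by
      intro x
      have h1 := kpol_ltr (F := F) c (TH i) (w i) d 2 (slam F (w t) ω) 1
      rw [← hwt, ← hal] at h1
      rw [h1, q0', hp₁, hcoi]
      simp only [Polynomial.derivative_comp, Polynomial.eval_mul, Polynomial.eval_comp,
        Polynomial.eval_add, Polynomial.eval_C, Polynomial.eval_X, Polynomial.derivative_add,
        Polynomial.derivative_C, Polynomial.derivative_mul, Polynomial.derivative_X, zero_mul,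
        zero_add, mul_one]
      rw [hpw]
      field_simp
    have hsup : ∀ τ ∈ Set.Icc (0 : ℝ) 1, |(q 0 (slam F (w i) ω)).eval τ| ≤ 2 ^ n * S₁ :=
      fun τ hτ => by
        have := c3 ω hω 0 (by norm_num) τ hτ
        rw [S0'] at this
        exact this.trans (mul_le_mul_of_nonneg_right hexp' hS₁.le)
    rw [hkey, hkey]
    refine (hlip _ (2 ^ n * S₁) (hqd 0 (by norm_num) _) hsup _ _ (hx u hu) (hx u' hu')).trans ?_
    have e1 : |al + 1 / 2 ^ d * u - (al + 1 / 2 ^ d * u')| ≤ 1 / 2 ^ d := by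
      have e2 : al + 1 / 2 ^ d * u - (al + 1 / 2 ^ d * u') = 1 / 2 ^ d * (u - u') := by ring
      rw [e2, abs_mul, abs_of_nonneg hb0]
      refine mul_le_of_le_one_right hb0 ?_
      rw [abs_le]
      constructor
      · linarith [hu.1, hu'.2]
      · linarith [hu.2, hu'.1]
    have e3 : (2 : ℝ) ^ C₄ * 2 ^ n ≤ 2 ^ ((C₃ + C₄ + C₆ + 1) * (n + 1)) := by
      rw [← pow_add]
      refine p2 ?_
      have : (C₃ + C₄ + C₆ + 1) * (n + 1) = (C₃ + C₄ + C₆) * n + n + (C₃ + C₄ + C₆ + 1) := by ring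
      omega
    calc C₂ * (2 ^ n * S₁) * |al + 1 / 2 ^ d * u - (al + 1 / 2 ^ d * u')| ≤
          2 ^ C₄ * (2 ^ n * S₁) * (1 / 2 ^ d) :=
          mul_le_mul (mul_le_mul_of_nonneg_right hC₄.le (by positivity)) e1 (abs_nonneg _)
            (by positivity)
      _ = 2 ^ C₄ * 2 ^ n * (S₁ * (1 / 2 ^ d)) := by ring
      _ ≤ 2 ^ ((C₃ + C₄ + C₆ + 1) * (n + 1)) * (S₁ * (1 / 2 ^ d)) :=
          mul_le_mul_of_nonneg_right e3 (by positivity)
      _ = _ := by ring
  · have hkey : 2 ^ w t * (2 ^ w t * (Polynomial.derivative (npU c (w t) d 2 (TH i)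
        (slam F (w t) ω))).eval u) = 2 ^ w i *
        (Polynomial.derivative (q 1 (slam F (w i) ω))).eval (al + 1 / 2 ^ d * u) := by
      have h1 := npU_tr (F := F) c (TH i) (w i) d 2 (slam F (w t) ω)
      rw [← hwt, ← hal, hcoi] at h1
      rw [h1, q1', hp₂]
      beta_reduce
      rw [Polynomial.derivative_C_mul, Polynomial.derivative_comp, Polynomial.derivative_C_mul]
      simp only [Polynomial.eval_mul, Polynomial.eval_comp,
        Polynomial.eval_add, Polynomial.eval_C, Polynomial.eval_X, Polynomial.derivative_add,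
        Polynomial.derivative_C, Polynomial.derivative_mul, Polynomial.derivative_X, zero_mul,
        zero_add, mul_one]
      rw [hpw]
      field_simp
    have hsup : ∀ τ ∈ Set.Icc (0 : ℝ) 1, |(q 1 (slam F (w i) ω)).eval τ| ≤ 2 ^ n * S₂ :=
      fun τ hτ => by
        have := c3 ω hω 1 (by norm_num) τ hτ
        rw [S1'] at this
        exact this.trans (mul_le_mul_of_nonneg_right hexp' hS₂.le)
    rw [hkey, abs_mul, abs_of_pos (by positivity : (0 : ℝ) < 2 ^ w i)]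
    have h5 := hmk _ (2 ^ n * S₂) (hqd 1 (by norm_num) _) hsup _ (hx1 u hu)
    have e3 : C₅ * 2 ^ n ≤ 2 ^ ((C₃ + C₄ + C₆ + 1) * (n + 1)) := by
      refine (mul_le_mul_of_nonneg_right hC₆.le (by positivity)).trans ?_
      rw [← pow_add]
      refine p2 ?_
      have : (C₃ + C₄ + C₆ + 1) * (n + 1) = (C₃ + C₄ + C₆) * n + n + (C₃ + C₄ + C₆ + 1) := by ring
      omega
    calc (2 : ℝ) ^ w i * |(Polynomial.derivative (q 1 (slam F (w i) ω))).eval
          (al + 1 / 2 ^ d * u)| ≤ 2 ^ w i * (C₅ * (2 ^ n * S₂)) :=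
          mul_le_mul_of_nonneg_left h5 (by positivity)
      _ = C₅ * 2 ^ n * (2 ^ w i * S₂) := by ring
      _ ≤ 2 ^ ((C₃ + C₄ + C₆ + 1) * (n + 1)) * (2 ^ w i * S₂) :=
          mul_le_mul_of_nonneg_right e3 (by positivity)
      _ = _ := by ring

end Pool.TN
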