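import Pool.Agent.H66.D2.Zna
import Pool.Agent.H60.D2.Flt
import Pool.Agent.H60.D2.Trf

/-!
# Static coordinates without curvature

`sta_flat`: at a window of the event of a static cell, samples at which all components of the second
derivative of the label of a static coordinate are below the natural size are a small part of the
class (no static coordinate below).
-/

set_option autoImplicit false

namespace Pool.TN

open Finset Real MvPolynomial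
open Pool.Agent.H49.Ent Pool.Agent.H32.Dense Pool.STK Pool.KA Pool.KSAT Pool.K2S Pool.PB Pool.S6C
open Pool.GEN Pool.CHT Pool.CHX Pool.ISO Pool.D2R Pool.D2Z Pool.D2F
open Pool.LBT (ThrOf)
open Pool.FLF (Fam.sub)
open Pool.PB.Trl (rt rt_mem t_rt)

variable {m J : ℕ}

/-- The covector of the visible static chart at the rounded point. -/
noncomputable def gms {F : Fam m J} (T : PtT F → ℕ → MvPolynomial (Option (Fin m)) ℝ) (s : ℕ)
    (y : PtT F) (l : ℕ) : Option (Fin m) → ℝ :=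
  if l = s then grd (T y s) (bho J J y) else 0

theorem gms_self {F : Fam m J} (T : PtT F → ℕ → MvPolynomial (Option (Fin m)) ℝ) (s : ℕ)
    (y : PtT F) : gms T s y s = grd (T y s) (bho J J y) := by
  unfold gms
  rw [if_pos rfl]

theorem gms_cv {F : Fam m J} {c : ℕ → Fin m} {T : PtT F → ℕ → MvPolynomial (Option (Fin m)) ℝ}
    (h : ∀ y l, DepC c l (T y l)) (s : ℕ) (y : PtT F) (l : ℕ) : CvC c l (gms T s y l) := by
  unfold gms
  split_ifs with h1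
  · subst h1
    exact cvc_grd (h y l) _
  · intro k _
    rfl

section

variable {F : Fam m J} {c : ℕ → Fin m} {r D Dr N M A cl : ℕ} {Sc : ℕ → Prop}
    {w e h pp : ℕ → ℕ} {z g gc gT g₀ : ℕ → ℕ → ℕ} {κ : ℝ} {B : F.Ω → Prop}
    {G : ℕ → PtT F → ℕ → MvPolynomial (Option (Fin m)) ℝ}
    {H : ℕ → LnT F → ℕ → MvPolynomial (Option (Fin m)) ℝ}
    {T : ℕ → PtT F → ℕ → MvPolynomial (Option (Fin m)) ℝ}
    {TH : ℕ → LnT F → ℕ → MvPolynomial (Option (Fin m)) ℝ}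
    {Gt : ℕ → PtT F → MvPolynomial (Option (Fin m)) ℝ}
    {Ht : ℕ → LnT F → MvPolynomial (Option (Fin m)) ℝ}

/-- The norm of the visible thin chain over rough coordinates. -/
theorem CEv.tv (E : CEv F c r D Dr N M A cl Sc w e h pp z g gc gT g₀ κ B G H T TH Gt Ht)
    {k : ℕ} (hk : k ≤ N) (ω : F.Ω) {l : ℕ} (hl : l < r) (hns : ∀ x < l, ¬ Sc x)
    (V : Option (Fin m) → ℝ) :
    en c (gT k) A (fun j => grd (T k (ptr F J ω) j) (bt F ω)) l V ≤
      2 ^ (A - w k + 2 * cl) * en c (g₀ k) (w k) (gG G ω k) l V := by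
  have hrad := E.radA hk
  have e1 : en c (gT k) A (fun j => grd (T k (ptr F J ω) j) (bt F ω)) l V =
      en c (gT k) A (gG G ω k) l V := by
    rw [en_eq, en_eq]
    congr 1
    refine Finset.sum_congr rfl fun j hj => ?_
    have hj' := Finset.mem_range.1 hj
    rw [E.rgt hk (hj'.trans hl) (hns j hj') ω]
    rfl
  rw [e1]
  refine en_side ?_ (fun j hj => ?_) V
  · rw [← pow_add]
    exact p2 (by omega)
  · rw [← pow_add]
    have a1 := E.t_rg hk (hj.trans hl) (hns j hj)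
    have a2 := E.ng k hk j (hj.trans hl).le
    exact p2 (by omega)

end

/-- **The visible static chart at the rounded point.** -/
theorem CEv.vs (D r : ℕ) : ∃ C : ℕ, 1 ≤ C ∧ ∀ {m J : ℕ} {F : Fam m J} {c : ℕ → Fin m}
    {Dr N M A cl : ℕ} {Sc : ℕ → Prop} {w e h pp : ℕ → ℕ} {z g gc gT g₀ : ℕ → ℕ → ℕ} {κ : ℝ}
    {B : F.Ω → Prop} {G : ℕ → PtT F → ℕ → MvPolynomial (Option (Fin m)) ℝ}
    {H : ℕ → LnT F → ℕ → MvPolynomial (Option (Fin m)) ℝ}
    {T : ℕ → PtT F → ℕ → MvPolynomial (Option (Fin m)) ℝ}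
    {TH : ℕ → LnT F → ℕ → MvPolynomial (Option (Fin m)) ℝ}
    {Gt : ℕ → PtT F → MvPolynomial (Option (Fin m)) ℝ}
    {Ht : ℕ → LnT F → MvPolynomial (Option (Fin m)) ℝ},
    CEv F c r D Dr N M A cl Sc w e h pp z g gc gT g₀ κ B G H T TH Gt Ht → C ≤ cl →
    ∀ {i k s t : ℕ}, i ≤ N → k ≤ N → w i ≤ w k → s < r → (∀ x < s, ¬ Sc x) →
    (∀ l < r, cl ≤ gT k l ∧ cl ≤ gc k l) → cl ≤ pp k → cl ≤ gc k r →
    (A - w k) + g₀ k s + t ≤ gT i s → (A - w k) + g₀ k s + t ≤ gT k s → 2 * cl ≤ t →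
    ∀ ω, B ω →
    (∀ V, |cv (gms (T k) s (ptr F J ω) s - gG G ω k s) V| ≤
      2 ^ (7 * cl + r + 5) / 2 ^ g₀ k s * en c (g₀ k) (w k) (gG G ω k) s V) ∧
    (∀ V, |cv (kT w TH ω i s - gms (T k) s (ptr F J ω) s) V| ≤
      2 ^ (7 * cl + r + 5) / 2 ^ (g₀ k s + t) * en c (g₀ k) (w k) (gG G ω k) s V) ∧
    |bd F ω (some (c s)) - cv (gms (T k) s (ptr F J ω) s) (bd F ω)| ≤
      2 ^ (7 * cl + r + 5) * 2 ^ w k / 2 ^ (g₀ k s + t) := by
  obtain ⟨C₁, hC₁, htn⟩ := CEv.tn D r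
  refine ⟨C₁, hC₁, ?_⟩
  intro m J F c Dr N M A cl Sc w e h pp z g gc gT g₀ κ B G H T TH Gt Ht E hcl i k s t hi hk hw hs
    hns h1 hp hgr n1 n2 ht ω hω
  have hrad := E.radA hk
  obtain ⟨t1, t2⟩ := htn E hcl k hk ω hω
  have a0 := E.ng k hk s hs.le
  have a1 := h1 s hs
  have hpt : gms (T k) s (ptr F J ω) s = grd (T k (ptr F J ω) s) (hx F ω) := gms_self _ _ _
  rw [hpt]
  -- the rounded chart against the closed one
  have hv : ∀ V, |cv (grd (T k (ptr F J ω) s) (hx F ω) - kT w TH ω k s) V| ≤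
      2 ^ (4 * cl + 1) / 2 ^ (g₀ k s + t) * en c (g₀ k) (w k) (gG G ω k) s V := by
    intro V
    have b1 := t1 s hs V
    have b2 := t2 s hs V
    have b3 := E.tv hk ω hs hns V
    have n0 := en_nonneg c (g₀ k) (w k) (gG G ω k) s V
    obtain ⟨N₁, hN₁⟩ : ∃ x : ℝ, x = en c (g₀ k) (w k) (gG G ω k) s V := ⟨_, rfl⟩
    rw [← hN₁] at b3 n0 ⊢
    have e1 : cv (grd (T k (ptr F J ω) s) (hx F ω) - kT w TH ω k s) V =
        cv (grd (T k (ptr F J ω) s) (hx F ω) - grd (T k (ptr F J ω) s) (bt F ω)) V -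
        cv (kT w TH ω k s - grd (T k (ptr F J ω) s) (bt F ω)) V := by
      rw [cv_subl, cv_subl, cv_subl]
      ring
    rw [e1]
    refine (abs_sub _ _).trans ((add_le_add b2 b1).trans ?_)
    have h1c : (1 : ℝ) ≤ 2 ^ cl := one_le_pow₀ (by norm_num)
    calc 1 / 2 ^ gT k s * en c (gT k) A (fun l => grd (T k (ptr F J ω) l) (bt F ω)) s V +
          2 ^ cl / 2 ^ gT k s * en c (gT k) A (fun l => grd (T k (ptr F J ω) l) (bt F ω)) s V ≤
          1 / 2 ^ gT k s * (2 ^ (A - w k + 2 * cl) * N₁) +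
          2 ^ cl / 2 ^ gT k s * (2 ^ (A - w k + 2 * cl) * N₁) :=
          add_le_add (mul_le_mul_of_nonneg_left b3 (by positivity))
            (mul_le_mul_of_nonneg_left b3 (by positivity))
      _ = (1 + 2 ^ cl) * (2 ^ (A - w k + 2 * cl) / 2 ^ gT k s) * N₁ := by ring
      _ ≤ 2 ^ (cl + 1) * (2 ^ (3 * cl) / 2 ^ (g₀ k s + t)) * N₁ := by
          refine mul_le_mul_of_nonneg_right (mul_le_mul ?_ ?_ (by positivity)
            (by positivity)) n0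
          · rw [pow_succ]
            linarith
          · rw [div_le_div_iff₀ (by positivity) (by positivity), ← pow_add, ← pow_add]
            exact p2 (by omega)
      _ = _ := by
          rw [show 4 * cl + 1 = cl + 1 + 3 * cl by ring, pow_add 2 (cl + 1) (3 * cl)]
          ring
  refine ⟨fun V => ?_, fun V => ?_, ?_⟩
  · -- near the ball
    obtain ⟨q, hq⟩ : ∃ q, q = g₀ k s + (A - w k) - 3 * cl := ⟨_, rfl⟩
    have b1 := E.tb hs hk hk le_rfl (q := q) (by omega) (by omega) hω V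
    have b2 := E.tg hk h1 hω hs hns V
    have b3 := hv V
    have n0 := en_nonneg c (g₀ k) (w k) (gG G ω k) s V
    obtain ⟨N₁, hN₁⟩ : ∃ x : ℝ, x = en c (g₀ k) (w k) (gG G ω k) s V := ⟨_, rfl⟩
    rw [← hN₁] at b1 b2 b3 n0 ⊢
    have e1 : cv (grd (T k (ptr F J ω) s) (hx F ω) - gG G ω k s) V =
        cv (grd (T k (ptr F J ω) s) (hx F ω) - kT w TH ω k s) V +
        cv (kT w TH ω k s - gG G ω k s) V := by
      rw [cv_subl, cv_subl, cv_subl]
      ring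
    rw [e1]
    refine (abs_add_le _ _).trans ((add_le_add b3 b1).trans ?_)
    have f1 : (2 : ℝ) ^ (4 * cl + 1) / 2 ^ (g₀ k s + t) ≤ 2 ^ (7 * cl + r + 3) / 2 ^ g₀ k s := by
      rw [div_le_div_iff₀ (by positivity) (by positivity), ← pow_add, ← pow_add]
      exact p2 (by omega)
    have f2 : 2 ^ cl / 2 ^ q * en c (gT k) A (kT w TH ω k) s V ≤
        2 ^ (7 * cl + r + 3) / 2 ^ g₀ k s * N₁ := by
      calc 2 ^ cl / 2 ^ q * en c (gT k) A (kT w TH ω k) s V ≤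
            2 ^ cl / 2 ^ q * (2 ^ (A - w k) * (2 ^ (3 * cl + r + 2) * N₁)) :=
            mul_le_mul_of_nonneg_left b2 (by positivity)
        _ = (2 ^ cl * 2 ^ (A - w k) * 2 ^ (3 * cl + r + 2) / 2 ^ q) * N₁ := by ring
        _ ≤ _ := by
            refine mul_le_mul_of_nonneg_right ?_ n0
            rw [← pow_add, ← pow_add, div_le_div_iff₀ (by positivity) (by positivity),
              ← pow_add, ← pow_add]
            exact p2 (by omega)
    have f3 : (2 : ℝ) ^ cl / 2 ^ g₀ k s ≤ 2 ^ (7 * cl + r + 3) / 2 ^ g₀ k s :=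
      div_le_div_of_nonneg_right (p2 (by omega)) (by positivity)
    have f4 : (2 : ℝ) ^ (7 * cl + r + 5) / 2 ^ g₀ k s = 4 * (2 ^ (7 * cl + r + 3) / 2 ^ g₀ k s) := by
      rw [show 7 * cl + r + 5 = (7 * cl + r + 3) + 2 by ring, pow_add 2 (7 * cl + r + 3) 2]
      ring
    rw [f4]
    have f5 := mul_le_mul_of_nonneg_right f1 n0
    have f6 := mul_le_mul_of_nonneg_right f3 n0
    have f7 : 0 ≤ 2 ^ (7 * cl + r + 3) / 2 ^ g₀ k s * N₁ := by positivity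
    linarith
  · -- the label of the window `i`
    obtain ⟨q, hq⟩ : ∃ q, q = (A - w k) + g₀ k s + t - cl := ⟨_, rfl⟩
    have b1 := E.tt hs hi hk hw (q := q) (by omega) (by omega) hω V
    have b2 := E.tg hk h1 hω hs hns V
    have b3 := hv V
    have n0 := en_nonneg c (g₀ k) (w k) (gG G ω k) s V
    obtain ⟨N₁, hN₁⟩ : ∃ x : ℝ, x = en c (g₀ k) (w k) (gG G ω k) s V := ⟨_, rfl⟩
    rw [← hN₁] at b2 b3 n0 ⊢
    have e1 : cv (kT w TH ω i s - grd (T k (ptr F J ω) s) (hx F ω)) V =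
        cv (kT w TH ω i s - kT w TH ω k s) V -
        cv (grd (T k (ptr F J ω) s) (hx F ω) - kT w TH ω k s) V := by
      rw [cv_subl, cv_subl, cv_subl]
      ring
    rw [e1]
    refine (abs_sub _ _).trans ((add_le_add b1 b3).trans ?_)
    have f2 : 2 ^ cl / 2 ^ q * en c (gT k) A (kT w TH ω k) s V ≤
        2 ^ (5 * cl + r + 2) / 2 ^ (g₀ k s + t) * N₁ := by
      calc 2 ^ cl / 2 ^ q * en c (gT k) A (kT w TH ω k) s V ≤
            2 ^ cl / 2 ^ q * (2 ^ (A - w k) * (2 ^ (3 * cl + r + 2) * N₁)) :=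
            mul_le_mul_of_nonneg_left b2 (by positivity)
        _ = (2 ^ cl * 2 ^ (A - w k) * 2 ^ (3 * cl + r + 2) / 2 ^ q) * N₁ := by ring
        _ ≤ _ := by
            refine mul_le_mul_of_nonneg_right ?_ n0
            rw [← pow_add, ← pow_add, div_le_div_iff₀ (by positivity) (by positivity),
              ← pow_add, ← pow_add]
            exact p2 (by omega)
    have f3 : (2 : ℝ) ^ (5 * cl + r + 2) / 2 ^ (g₀ k s + t) + 2 ^ (4 * cl + 1) / 2 ^ (g₀ k s + t) ≤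
        2 ^ (7 * cl + r + 5) / 2 ^ (g₀ k s + t) := by
      rw [← add_div]
      refine div_le_div_of_nonneg_right ?_ (by positivity)
      have g1 : (2 : ℝ) ^ (5 * cl + r + 2) ≤ 2 ^ (7 * cl + r + 4) := p2 (by omega)
      have g2 : (2 : ℝ) ^ (4 * cl + 1) ≤ 2 ^ (7 * cl + r + 4) := p2 (by omega)
      have g3 : (2 : ℝ) ^ (7 * cl + r + 5) = 2 ^ (7 * cl + r + 4) * 2 := pow_succ _ _
      linarith
    have f4 := mul_le_mul_of_nonneg_right f3 n0
    linarith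
  · -- the velocity
    have b1 := (E.bdT hk hp hgr hω).1 s hs
    have b2 := hv (bd F ω)
    have b3 := (E.bdG hk hp hgr hω).2 s hs.le
    have h5 : (1 + (s : ℝ) * 2 ^ cl) ≤ 2 ^ (r + cl) := by
      refine le_trans ?_ (one_r r cl)
      have : (s : ℝ) ≤ r := by exact_mod_cast hs.le
      have := mul_le_mul_of_nonneg_right this (show (0 : ℝ) ≤ 2 ^ cl by positivity)
      linarith
    have b4 := b3.trans (mul_le_mul_of_nonneg_right h5 (by positivity))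
    have e1 : bd F ω (some (c s)) - cv (grd (T k (ptr F J ω) s) (hx F ω)) (bd F ω) =
        (bd F ω (some (c s)) - cv (kT w TH ω k s) (bd F ω)) -
        cv (grd (T k (ptr F J ω) s) (hx F ω) - kT w TH ω k s) (bd F ω) := by
      rw [cv_subl]
      ring
    rw [e1]
    refine (abs_sub _ _).trans ((add_le_add b1 (b2.trans (mul_le_mul_of_nonneg_left b4
      (by positivity)))).trans ?_)
    have f1 : (2 : ℝ) ^ cl * 2 ^ A / 2 ^ gT k s ≤ 2 ^ cl * 2 ^ w k / 2 ^ (g₀ k s + t) := by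
      rw [div_le_div_iff₀ (by positivity) (by positivity), ← pow_add, ← pow_add, ← pow_add,
        ← pow_add]
      exact p2 (by omega)
    have f2 : (2 : ℝ) ^ (4 * cl + 1) / 2 ^ (g₀ k s + t) * (2 ^ (r + cl) * 2 ^ w k) =
        2 ^ (5 * cl + r + 1) * (2 ^ w k / 2 ^ (g₀ k s + t)) := by
      rw [show 5 * cl + r + 1 = (4 * cl + 1) + (r + cl) by ring, pow_add 2 (4 * cl + 1) (r + cl)]
      ring
    have f3 : (2 : ℝ) ^ cl * 2 ^ w k / 2 ^ (g₀ k s + t) =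
        2 ^ cl * (2 ^ w k / 2 ^ (g₀ k s + t)) := by ring
    have f4 : (2 : ℝ) ^ (7 * cl + r + 5) * 2 ^ w k / 2 ^ (g₀ k s + t) =
        2 ^ (7 * cl + r + 5) * (2 ^ w k / 2 ^ (g₀ k s + t)) := by ring
    rw [f2, f4]
    rw [f3] at f1
    have f5 : (2 : ℝ) ^ cl + 2 ^ (5 * cl + r + 1) ≤ 2 ^ (7 * cl + r + 5) := by
      have g1 : (2 : ℝ) ^ cl ≤ 2 ^ (7 * cl + r + 4) := p2 (by omega)
      have g2 : (2 : ℝ) ^ (5 * cl + r + 1) ≤ 2 ^ (7 * cl + r + 4) := p2 (by omega)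
      have g3 : (2 : ℝ) ^ (7 * cl + r + 5) = 2 ^ (7 * cl + r + 4) * 2 := pow_succ _ _
      linarith
    have f6 := mul_le_mul_of_nonneg_right f5 (show (0 : ℝ) ≤ 2 ^ w k / 2 ^ (g₀ k s + t) by
      positivity)
    linarith

section

variable {F : Fam m J} {c : ℕ → Fin m} {r D Dr N M A cl : ℕ} {Sc : ℕ → Prop}
    {w e h pp : ℕ → ℕ} {z g gc gT g₀ : ℕ → ℕ → ℕ} {κ : ℝ} {B : F.Ω → Prop}
    {G : ℕ → PtT F → ℕ → MvPolynomial (Option (Fin m)) ℝ}
    {H : ℕ → LnT F → ℕ → MvPolynomial (Option (Fin m)) ℝ}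
    {T : ℕ → PtT F → ℕ → MvPolynomial (Option (Fin m)) ℝ}
    {TH : ℕ → LnT F → ℕ → MvPolynomial (Option (Fin m)) ℝ}
    {Gt : ℕ → PtT F → MvPolynomial (Option (Fin m)) ℝ}
    {Ht : ℕ → LnT F → MvPolynomial (Option (Fin m)) ℝ}

/-- The curvature between the lines through the point is natural. -/
theorem CEv.v1p (E : CEv F c r D Dr N M A cl Sc w e h pp z g gc gT g₀ κ B G H T TH Gt Ht)
    {k : ℕ} (hk : k ≤ N) (h1 : cl ≤ pp k) (h2 : cl ≤ gc k r) {B' : F.Ω → Prop} (hB : Sub B' B)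
    {l : ℕ} (hl : l ≤ r) : V1P F c (w k) (g₀ k) B' (G k) (2 ^ (2 * cl + r)) l := by
  intro ω ν hω hν hpt R _ _
  have h3 := E.cur k hk ω (hB ω hω) l hl (bd F ν) R
  have h4 := E.row k hk k hk le_rfl 0 (by omega) (by omega)
  have h5 : nrm c (G k (ptr F J ω)) (g₀ k) (w k) l (bt F ω) (bd F ν) ≤
      2 ^ (r + cl) * 2 ^ w k := by
    unfold nrm
    have h0 : bd F ν none = 1 := rfl
    rw [h0, abs_one, mul_one]
    have h6 : ∑ j ∈ range l, 2 ^ g₀ k j * |bd F ν (some (c j)) -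
        dd (G k (ptr F J ω) j) (bt F ω) (bd F ν)| ≤ ∑ j ∈ range l, 2 ^ cl * 2 ^ w k := by
      refine Finset.sum_le_sum fun j hj => ?_
      have h7 := h4.vel ω ν (hB ω hω) (hB ν hν) hpt j ((Finset.mem_range.1 hj).le.trans hl)
      rw [le_div_iff₀ (by positivity)] at h7
      linarith
    rw [Finset.sum_const, Finset.card_range, nsmul_eq_mul] at h6
    have h8 := one_r r cl
    have h9 : (l : ℝ) * (2 ^ cl * 2 ^ w k) ≤ r * (2 ^ cl * 2 ^ w k) :=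
      mul_le_mul_of_nonneg_right (by exact_mod_cast hl) (by positivity)
    have h10 := mul_le_mul_of_nonneg_right h8 (show (0 : ℝ) ≤ 2 ^ w k by positivity)
    linarith
  have n1 := nrm_nonneg c (G k (ptr F J ω)) (g₀ k) (w k) l (bt F ω) R
  refine h3.trans ((mul_le_mul_of_nonneg_left (mul_le_mul_of_nonneg_right h5 n1)
    (by positivity)).trans (le_of_eq ?_))
  rw [show 2 * cl + r = cl + (r + cl) by ring, pow_add 2 cl (r + cl)]
  ring

end

/-- The numbers of `sta_flat`. -/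
theorem num_sfl {Cf Cg r s cl X L Q₁ kk Q₂ S C : ℕ} (hsr : s + 1 ≤ r) (hS : S = cl + X + 1)
    (hL : L = Cf * (2 * cl + r + 1 + X + 1)) (hQ₁ : Q₁ = L + (s + 1) + (L + 1) * (s + 1) + 1)
    (hkk : kk = 7 * cl + r + 6 + (Q₁ + 2) * (s + 1)) (hQ₂ : Q₂ = 7 * cl + r + 5 + (Q₁ + 1) * (s + 1))
    (hC : C = 10 * ((Cf * (r + 3) + 2) * (r + 3) * (r + 3) + 13 + r) + 30 * (r + 2) + Cg + 30) :
    L ≤ C * S ∧ 4 * kk + Q₂ + L + 3 * kk + 10 * (s + 1) + 30 + 3 * X + cl + Cg ≤ C * S := by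
  obtain ⟨a, ha⟩ : ∃ a, a = Cf * (r + 3) := ⟨_, rfl⟩
  have hL1 : L ≤ a * S := by
    rw [hL, ha, hS, mul_assoc]
    exact Nat.mul_le_mul_left _ (by nlinarith)
  have hS1 : 1 ≤ S := by omega
  have hQ : Q₁ + 2 ≤ (a + 2) * (r + 3) * S := by
    have e1 : Q₁ + 2 = L * (s + 2) + 2 * s + 5 := by rw [hQ₁]; ring
    have e2 : L * (s + 2) ≤ a * S * (r + 3) := Nat.mul_le_mul hL1 (by omega)
    have e3 : 2 * s + 5 ≤ 2 * (r + 3) * S := by nlinarith
    calc Q₁ + 2 = L * (s + 2) + (2 * s + 5) := by omega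
      _ ≤ a * S * (r + 3) + 2 * (r + 3) * S := add_le_add e2 e3
      _ = _ := by ring
  obtain ⟨b, hb⟩ : ∃ b, b = (a + 2) * (r + 3) * (r + 3) := ⟨_, rfl⟩
  have hQ' : (Q₁ + 2) * (s + 1) ≤ b * S := by
    calc (Q₁ + 2) * (s + 1) ≤ ((a + 2) * (r + 3) * S) * (r + 3) :=
          Nat.mul_le_mul hQ (by omega)
      _ = _ := by rw [hb]; ring
  have hQ'' : (Q₁ + 1) * (s + 1) ≤ b * S := (Nat.mul_le_mul_right _ (by omega)).trans hQ'
  have hcS : 7 * cl + r + 6 ≤ (13 + r) * S := by rw [hS]; nlinarith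
  have hk1 : kk ≤ (b + 13 + r) * S := by
    rw [hkk]
    have : (b + 13 + r) * S = b * S + (13 + r) * S := by ring
    omega
  have hk2 : Q₂ ≤ (b + 13 + r) * S := by
    rw [hQ₂]
    have : (b + 13 + r) * S = b * S + (13 + r) * S := by ring
    omega
  have hab : a ≤ b := by
    rw [hb]
    nlinarith [Nat.zero_le (a * r), Nat.zero_le (a * r * r)]
  have hL2 : L ≤ (b + 13 + r) * S := hL1.trans (Nat.mul_le_mul_right _ (by omega))
  have hCS : C * S = 10 * ((b + 13 + r) * S) + 30 * (r + 2) * S + Cg * S + 30 * S := by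
    rw [hC, hb, ha]
    ring
  have h1 : 10 * (s + 1) ≤ 10 * (r + 2) * S := by nlinarith
  have h2 : 3 * X + cl ≤ 3 * S := by omega
  have h3 : Cg ≤ Cg * S := Nat.le_mul_of_pos_right _ (by omega)
  have h4 : 10 * (r + 2) * S ≤ 30 * (r + 2) * S := Nat.mul_le_mul_right _ (by omega)
  obtain ⟨y, hy⟩ : ∃ y, y = (b + 13 + r) * S := ⟨_, rfl⟩
  rw [← hy] at hk1 hk2 hL2 hCS
  obtain ⟨y₁, hy₁⟩ : ∃ y, y = 30 * (r + 2) * S := ⟨_, rfl⟩
  rw [← hy₁] at h4 hCS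
  have h5 := h1.trans h4
  obtain ⟨y₂, hy₂⟩ : ∃ y, y = Cg * S := ⟨_, rfl⟩
  rw [← hy₂] at h3 hCS
  constructor <;> omega

/-- **Static coordinates without curvature** are rare: the label of the static coordinate `s` at the
window `i`, the ball at the window `k`; no static coordinate below `s`. -/
theorem sta_flat (m D r s : ℕ) (hD : 1 ≤ D) (hsr : s + 1 ≤ r) : ∃ C : ℕ, 1 ≤ C ∧
    ∀ {θ : ℝ} {S : PCl m} {P : List (Fin m) × Fin m → ℝ → ℝ → ℝ} (_ : ThrOf (chsys m θ) S P)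
    (_ : TmH S) (c : ℕ → Fin m) (_ : Set.InjOn c (Set.Iio (r + 1))) (a : ℚ) (e₁ h₁ ε κ₀ : ℝ)
    (_ : 0 ≤ a) (_ : a < 1) (_ : e₁ < θ * a) (_ : 0 < h₁) (_ : bet P c 0 a a + h₁ ≤ 1)
    (_ : bet P c s a a + h₁ ≤ 1) (_ : 0 < ε) (_ : 0 < κ₀),
    Bas S (fun J F A₀ => ∀ {Dr N M A cl X t i k : ℕ} {Sc : ℕ → Prop} {w e h pp : ℕ → ℕ}
      {z g gc gT g₀ : ℕ → ℕ → ℕ} {κ : ℝ} {B : F.Ω → Prop}
      {G : ℕ → PtT F → ℕ → MvPolynomial (Option (Fin m)) ℝ}
      {H : ℕ → LnT F → ℕ → MvPolynomial (Option (Fin m)) ℝ}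
      {T : ℕ → PtT F → ℕ → MvPolynomial (Option (Fin m)) ℝ}
      {TH : ℕ → LnT F → ℕ → MvPolynomial (Option (Fin m)) ℝ}
      {Gt : ℕ → PtT F → MvPolynomial (Option (Fin m)) ℝ}
      {Ht : ℕ → LnT F → MvPolynomial (Option (Fin m)) ℝ},
      CEv F c r D Dr N M A cl Sc w e h pp z g gc gT g₀ κ B G H T TH Gt Ht → Sub B A₀ →
      ε * J ≤ cl → C ≤ cl → i ≤ N → k ≤ N → w i ≤ w k → w k ≤ ⌊(a : ℝ) * J⌋₊ →
      (∀ x < s, ¬ Sc x) → (∀ l < r, cl ≤ gT k l ∧ cl ≤ gc k l) → cl ≤ pp k → cl ≤ gc k r →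
      (A - w k) + g₀ k s + t ≤ gT i s → (A - w k) + g₀ k s + t ≤ gT k s →
      C * (cl + X + 1) ≤ t → (∀ l < s, C * (cl + X + 1) ≤ g₀ k l) →
      (∀ l ≤ s, e k + g₀ k l + C * (cl + X + 1) ≤ J) →
      e k + C * (cl + X + 1) ≤ ⌊e₁ * J⌋₊ →
      ⌊(bet P c 0 a a + h₁) * J⌋₊ + w k ≤ g₀ k 0 + X + ⌊(a : ℝ) * J⌋₊ →
      ⌊(bet P c s a a + h₁) * J⌋₊ + w k ≤ g₀ k s + X + ⌊(a : ℝ) * J⌋₊ →
      Pe F.p (fun ω => B ω ∧ ∀ x < s, |hs (TH i (slam F (w i) ω) s) (bt F ω) (bd F ω)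
        (ev c s (gG G ω k) x)| ≤ 2 ^ (w k + g₀ k x) / 2 ^ (g₀ k s + t)) < κ₀ * Pe F.p A₀) := by
  classical
  obtain ⟨Cf, hCf, hfrm⟩ := frm_cls m D r (s + 1) hD (by omega) (by omega)
  obtain ⟨C₁, hC₁, hvs⟩ := CEv.vs D r
  obtain ⟨Cg, hCg, hgpt⟩ := gpt_near D (s + 1)
  obtain ⟨C, hC⟩ : ∃ C, C = 10 * ((Cf * (r + 3) + 2) * (r + 3) * (r + 3) + 13 + r) +
      30 * (r + 2) + (C₁ + Cg) + 30 := ⟨_, rfl⟩
  refine ⟨C, by omega, ?_⟩
  intro θ S P hP hT c hc a e₁ h₁ ε κ₀ ha0 ha he hh hb0 hbs hε hκ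
  have hcs : Set.InjOn c (Set.Iio (s + 1)) := hc.mono (Set.Iio_subset_Iio (by omega))
  have hcs' : Set.InjOn c (Set.Iio s) := hc.mono (Set.Iio_subset_Iio (by omega))
  have hCfR : (1 : ℝ) ≤ Cf := by exact_mod_cast hCf
  obtain ⟨κ₁, hκ₁⟩ : ∃ κ₁ : ℝ, κ₁ = κ₀ / Cf := ⟨_, rfl⟩
  have hκ₁0 : 0 < κ₁ := by
    rw [hκ₁]
    exact div_pos hκ (by linarith)
  have b1 := hfrm hP hT c hcs a e₁ h₁ ε κ₀ ha0 ha he hh hb0 hε hκ
  have b2 := flat_cls hP hT c s D hcs a e₁ h₁ ε κ₁ ha0 ha he hh hbs hε hκ₁0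
  refine Bas.mono 0 (b1.and b2) ?_
  rintro J - F A₀ ⟨hfA, hlA⟩
  intro Dr N M A cl X t i k Sc w e h pp z g gc gT g₀ κ B G H T TH Gt Ht E hBA hεc hCc hi hk hw hwa
    hns h1 hp hgr n1 n2 ht hg₀ hroom hef f0 fs
  have hpn := Pe_nonneg F.isLaw
  have hpnA := hpn A₀
  by_contra hcon
  rw [not_lt] at hcon
  obtain ⟨B₁, hB₁⟩ : ∃ B₁ : F.Ω → Prop, B₁ = fun ω => B ω ∧ ∀ x < s,
      |hs (TH i (slam F (w i) ω) s) (bt F ω) (bd F ω) (ev c s (gG G ω k) x)| ≤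
        2 ^ (w k + g₀ k x) / 2 ^ (g₀ k s + t) := ⟨_, rfl⟩
  rw [← hB₁] at hcon
  have hsub : Sub B₁ B := fun ω hω => by
    rw [hB₁] at hω
    exact hω.1
  have hfl : ∀ ω, B₁ ω → ∀ x < s, |hs (TH i (slam F (w i) ω) s) (bt F ω) (bd F ω)
      (ev c s (gG G ω k) x)| ≤ 2 ^ (w k + g₀ k x) / 2 ^ (g₀ k s + t) := fun ω hω => by
    rw [hB₁] at hω
    exact hω.2
  -- the numbers
  obtain ⟨S', hS'⟩ : ∃ S', S' = cl + X + 1 := ⟨_, rfl⟩
  obtain ⟨L, hL⟩ : ∃ L, L = Cf * (2 * cl + r + 1 + X + 1) := ⟨_, rfl⟩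
  obtain ⟨Q₁, hQ₁⟩ : ∃ Q, Q = L + (s + 1) + (L + 1) * (s + 1) + 1 := ⟨_, rfl⟩
  obtain ⟨kk, hkk⟩ : ∃ Q, Q = 7 * cl + r + 6 + (Q₁ + 2) * (s + 1) := ⟨_, rfl⟩
  obtain ⟨Q₂, hQ₂⟩ : ∃ Q, Q = 7 * cl + r + 5 + (Q₁ + 1) * (s + 1) := ⟨_, rfl⟩
  obtain ⟨m1, m2⟩ := num_sfl (Cg := C₁ + Cg) hsr hS' hL hQ₁ hkk hQ₂ hC
  rw [← hS'] at ht hg₀ hroom hef
  obtain ⟨Z, hZ⟩ : ∃ Z, Z = C * S' := ⟨_, rfl⟩
  rw [← hZ] at m1 m2 ht hg₀ hroom hef
  have hLk : 2 * cl + r + 1 + X + 1 ≤ L := by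
    rw [hL]
    exact Nat.le_mul_of_pos_left _ (by omega)
  have hQk : Q₂ ≤ kk := by
    rw [hQ₂, hkk]
    have : (Q₁ + 1) * (s + 1) ≤ (Q₁ + 2) * (s + 1) := Nat.mul_le_mul_right _ (by omega)
    omega
  have hLQ : L ≤ Q₁ := by rw [hQ₁]; omega
  have hQ1k : Q₁ + 1 ≤ kk := by
    rw [hkk]
    have : Q₁ + 2 ≤ (Q₁ + 2) * (s + 1) := Nat.le_mul_of_pos_right _ (by omega)
    omega
  have hkJ : w k ≤ J := (E.wA k hk).trans E.AJ
  have hcu := E.ng k hk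
  -- the frame
  have hch := ((E.evs k hk).ball).sub hsub
  have hgp := hgpt hcs (by omega : s + 1 ≤ r + 1) hch (fun l hl => by
    have := hroom l (by omega)
    omega)
  obtain ⟨B₂, ψ, ψH, d1, d2, d3, d4, -⟩ := hfA (w k) (w k) (A - w k) (e k) (2 * cl + r + 1) X L 0
    (g₀ k 0 + X) (g₀ k) (gT k) (2 ^ cl) (G k) (H k) (T k) (TH k) (Ht k) (gpt F (G k)) B₁
    hkJ hwa (hεc.trans (by exact_mod_cast (by omega : cl ≤ 2 * cl + r + 1))) (by
      rw [← hL]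
      omega) (by rw [← hL]) (by
      rw [← hL]
      have := hroom 0 (by omega)
      omega) le_rfl (by
      have := hroom 0 (by omega)
      omega) f0 (fun ω hω => hBA ω (hsub ω hω)) hcon hch
    ((E.row k hk k hk le_rfl 0 (by omega) (by omega)).sub hsub) (by positivity)
    (p2 (by omega)) (fun l _ hl => by
      have h2 := E.v1p hk hp hgr hsub (l := l) (by omega)
      exact V1P.sub h2 (fun _ h => h) (p2 (by omega)))
    (fun y l => cvc_grd ((E.evs k hk).ball.depG y l) _)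
    (fun ω hω => (hgp ω hω).mono (one_le_pow₀ (by norm_num)))
  rw [← hL] at d3 d4
  -- the flat end
  have hB2 : Sub B₂ B := fun ω hω => hsub ω (d1 ω hω)
  have hcoi : ∀ ω, co (w k - w i) (slam F (w k) ω) = slam F (w i) ω := fun ω =>
    co_slam F hw hkJ ω
  have hNc : ∀ ω, B₂ ω → Nc c (g₀ k) (w k) (s + 1) (2 ^ Q₁) (ψ (ptr F J ω)) (gG G ω k) := by
    intro ω hω
    have h3 : Nc c (g₀ k) (w k) (s + 1) (2 ^ 0) (gG G ω k) (gpt F (G k) (ptr F J ω)) := by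
      rw [pow_zero]
      exact hgp ω (d1 ω hω)
    exact ((d4 ω hω).trans2 h3.symm2).mono (p2 (by
      rw [hQ₁]
      omega))
  have hen : ∀ ω, B₂ ω → ∀ V, en c (g₀ k) (w k) (gG G ω k) s V ≤
      2 ^ ((Q₁ + 1) * (s + 1)) * en c (g₀ k) (w k) (ψ (ptr F J ω)) s V := fun ω hω V =>
    ((hNc ω hω).en_le (by positivity) (Nat.le_succ s) V).trans
      (mul_le_mul_of_nonneg_right (pow1 _ _) (en_nonneg _ _ _ _ _ _))
  obtain ⟨et, het⟩ : ∃ et : ℝ, et = 2 ^ Q₂ / 2 ^ t := ⟨_, rfl⟩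
  have hvis := fun ω (hω : B₂ ω) => hvs E (by omega) hi hk hw (by omega) hns h1 hp hgr n1 n2
    (by omega : 2 * cl ≤ t) ω (hB2 ω hω)
  have h5 := hlA (s + 1) (w k) (e k + L) kk X (X + (kk + s + 1) + kk + 3 * (s + 1) + 6)
    (g₀ k s + X) (g₀ k) ψ (gms (T k) s) ψH (fun y => TH i (co (w k - w i) y) s) et
    (by omega) hkJ hwa (hεc.trans (by exact_mod_cast (by omega : cl ≤ kk))) (by omega) le_rfl
    (fun j hj => by
      have := hroom j hj
      omega) (fun l hl => by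
      have := hg₀ l hl
      omega) le_rfl (by
      have := hroom s le_rfl
      omega) fs (by rw [het]; positivity) (by
      rw [het, div_mul_eq_mul_div, div_le_one (by positivity), ← pow_add]
      exact p2 (by omega))
    (fun y => (E.evs i hi).thin.degH _ s) (fun y => (E.evs i hi).thin.depH _ s) B₂
    (fun ω hω => hBA ω (hB2 ω hω)) (frok_mono d3 (by omega) le_rfl)
    (gms_cv ((E.evs k hk).thin.depG) s) (fun ω hω V => ?_) (fun ω hω => ?_)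
    (fun ω hω V hV => ?_) (fun ω hω V hV => ?_)
  · -- the end
    have e1 : κ₀ * Pe F.p A₀ ≤ Cf * Pe F.p B₂ := hcon.trans d2
    have e2 : κ₁ * Pe F.p A₀ * Cf = κ₀ * Pe F.p A₀ := by
      rw [hκ₁]
      have : (Cf : ℝ) ≠ 0 := by linarith
      field_simp
    have e3 : κ₁ * Pe F.p A₀ * Cf ≤ Pe F.p B₂ * Cf := by
      rw [e2, mul_comm (Pe F.p B₂)]
      exact e1
    have e4 := le_of_mul_le_mul_right e3 (by linarith)
    linarith
  · -- near
    have b1 := (hvis ω hω).1 V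
    have b2 := hNc ω hω s (Nat.lt_succ_self s) V
    have b3 := hen ω hω V
    have n0 := en_nonneg c (g₀ k) (w k) (ψ (ptr F J ω)) s V
    have e1 : cv (gms (T k) s (ptr F J ω) s - ψ (ptr F J ω) s) V =
        cv (gms (T k) s (ptr F J ω) s - gG G ω k s) V + cv (gG G ω k s - ψ (ptr F J ω) s) V := by
      rw [cv_subl, cv_subl, cv_subl]
      ring
    rw [e1]
    refine (abs_add_le _ _).trans ((add_le_add (b1.trans (mul_le_mul_of_nonneg_left b3
      (by positivity))) b2).trans ?_)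
    have e2 : 2 ^ (7 * cl + r + 5) / 2 ^ g₀ k s * (2 ^ ((Q₁ + 1) * (s + 1)) *
        en c (g₀ k) (w k) (ψ (ptr F J ω)) s V) = 2 ^ Q₂ / 2 ^ g₀ k s *
        en c (g₀ k) (w k) (ψ (ptr F J ω)) s V := by
      rw [hQ₂, pow_add 2 (7 * cl + r + 5)]
      ring
    rw [e2, ← add_mul, ← add_div]
    refine mul_le_mul_of_nonneg_right (div_le_div_of_nonneg_right ?_ (by positivity)) n0
    have f1 : (2 : ℝ) ^ Q₂ ≤ 2 ^ (kk - 1) := p2 (by
      have : (Q₁ + 1) * (s + 1) + (s + 1) = (Q₁ + 2) * (s + 1) := by ring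
      omega)
    have f2 : (2 : ℝ) ^ Q₁ ≤ 2 ^ (kk - 1) := p2 (by omega)
    have f3 : (2 : ℝ) ^ kk = 2 ^ (kk - 1) * 2 := by
      rw [← pow_succ]
      congr 1
      omega
    linarith
  · -- the velocity
    refine (hvis ω hω).2.2.trans ?_
    rw [het]
    have e1 : (2 : ℝ) ^ Q₂ / 2 ^ t * (2 ^ w k / 2 ^ g₀ k s) =
        2 ^ Q₂ * 2 ^ w k / 2 ^ (g₀ k s + t) := by
      rw [pow_add]
      field_simp
    rw [e1]
    exact div_le_div_of_nonneg_right (mul_le_mul_of_nonneg_right (p2 (by omega)) (by positivity))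
      (by positivity)
  · -- the gradient
    have b1 := (hvis ω hω).2.1 V
    have b3 := hen ω hω V
    rw [hcoi]
    have e0 : dd (TH i (slam F (w i) ω) s) (bt F ω) V = cv (kT w TH ω i s) V := by
      unfold kT
      rw [cv_grd]
    rw [e0, ← cv_subl]
    refine b1.trans ((mul_le_mul_of_nonneg_left b3 (by positivity)).trans (le_of_eq ?_))
    rw [het, hQ₂, pow_add 2 (7 * cl + r + 5), pow_add 2 (g₀ k s) t]
    field_simp
  · -- the second derivative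
    rw [hcoi]
    have b3 := hen ω hω V
    obtain ⟨W, hW⟩ : ∃ W : Option (Fin m) → ℝ, W = fun o =>
        dd (pderiv o (TH i (slam F (w i) ω) s)) (bt F ω) (bd F ω) := ⟨_, rfl⟩
    have hWV : ∀ V', hs (TH i (slam F (w i) ω) s) (bt F ω) (bd F ω) V' = cv W V' := fun V' => by
      rw [hW]
      rfl
    have hWc : CvC c s W := by
      intro y hy
      rw [hW]
      show dd (pderiv (some y) (TH i (slam F (w i) ω) s)) (bt F ω) (bd F ω) = 0
      rw [pd_zero' ((E.evs i hi).thin.depH _ s) (fun j hj => (hy j hj).symm)]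
      unfold dd
      simp
    have hΓ : ∀ l, CvC c l (gG G ω k l) := fun l => cvc_grd ((E.evs k hk).ball.depG _ l) _
    rw [hWV, cv_ev hcs' hΓ hWc hV]
    have b4 : |∑ l ∈ range s, cv W (ev c s (gG G ω k) l) *
        (V (some (c l)) - cv (gG G ω k l) V)| ≤ 2 ^ w k / 2 ^ (g₀ k s + t) *
          en c (g₀ k) (w k) (gG G ω k) s V := by
      rw [en_sz _ _ _ _ _ hV]
      refine (Finset.abs_sum_le_sum_abs _ _).trans ?_
      unfold sz
      rw [Finset.mul_sum]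
      refine Finset.sum_le_sum fun l hl => ?_
      have hl' := Finset.mem_range.1 hl
      rw [abs_mul]
      have b5 := hfl ω (d1 ω hω) l hl'
      rw [hWV] at b5
      refine (mul_le_mul_of_nonneg_right b5 (abs_nonneg _)).trans (le_of_eq ?_)
      rw [pow_add 2 (w k)]
      ring
    refine b4.trans ((mul_le_mul_of_nonneg_left b3 (by positivity)).trans ?_)
    have n0 := en_nonneg c (g₀ k) (w k) (ψ (ptr F J ω)) s V
    rw [het]
    calc 2 ^ w k / 2 ^ (g₀ k s + t) * (2 ^ ((Q₁ + 1) * (s + 1)) *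
          en c (g₀ k) (w k) (ψ (ptr F J ω)) s V) = 2 ^ ((Q₁ + 1) * (s + 1)) *
          (2 ^ w k / 2 ^ (g₀ k s + t) * en c (g₀ k) (w k) (ψ (ptr F J ω)) s V) := by ring
      _ ≤ 2 ^ Q₂ * (2 ^ w k / 2 ^ (g₀ k s + t) * en c (g₀ k) (w k) (ψ (ptr F J ω)) s V) :=
          mul_le_mul_of_nonneg_right (p2 (by omega)) (by positivity)
      _ = _ := by
          rw [pow_add 2 (g₀ k s) t]
          field_simp

end Pool.TN
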