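import Pool.Agent.H88.D2.Mcd
import Pool.Agent.H88.D2.Nss
import Pool.Agent.H66.D2.Apn
import Pool.Agent.H95.R136.Rra

/-!
# The cell with two static coordinates of slope two

`cellC_ss`: the class theorem of the target over one coordinate of slope one and two static coordinates of
slope two, from the closed gradient `CGr` in the direction of the last place; `cellQ_ss2`: the target
of slope at most two.
-/

set_option autoImplicit false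

namespace Pool.TN

open Finset Real MvPolynomial
open Pool.Agent.H49.Ent Pool.Agent.H32.Dense Pool.STK Pool.KA Pool.KSAT Pool.K2S Pool.PB Pool.S6C
open Pool.GEN Pool.CHT Pool.CHX Pool.ISO Pool.D2R Pool.D2Z Pool.D2F Pool.AFT Pool.PKG
open Pool.LBT (ThrOf)
open Pool.AVG57 (CGr)

/-- The first windows. -/
def vss (v0 : ℝ) (k : ℕ) : ℝ := if k = 0 then v0 else if k = 1 then 0 else 1

theorem fl_le_sc {x B : ℝ} (h : x ≤ B) (hB : 0 ≤ B) : (⌊x⌋₊ : ℝ) ≤ B := by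
  rcases le_total 0 x with h1 | h1
  · exact (Nat.floor_le h1).trans h
  · rw [Nat.floor_of_nonpos h1]
    simpa using hB

/-- **The class theorem of the cell** `[one, sta, sta]`, static slopes two. -/
theorem cellC_ssO {n : ℕ} {Sl : ℕ → ℝ} {κ : ℕ → Kd} (k0 : κ 0 = .one) (k1 : κ 1 = .sta)
    (k2 : κ 2 = .sta) (h0 : Sl 0 = 1) (h1 : Sl 1 = 2) (h2 : Sl 2 = 2)
    (S₀ : ℕ) (hS₀ : 1 ≤ S₀) : ∃ D₀ : ℕ, 1 ≤ D₀ ∧ ∀ Dc : ℕ, D₀ ≤ Dc → ∀ del : ℝ, 0 < del →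
    ∀ (XX : ℕ) (Sm ξ qr μ vj κ₂ dW τ yp : ℝ), 1 ≤ XX → 0 < yp →
    (Sl 3 ≤ Sl 2 ∨ MuN 2 XX Sl Sm ξ qr μ vj κ₂ dW τ) →
    ∃ (K : ℝ) (N : ℕ) (A V : ℕ → ℝ), 1 ≤ K ∧ (∀ k < N, -K ≤ V k ∧ V k ≤ A k ∧ A k ≤ K) ∧
    ∀ S₂ : ℕ, S₀ ≤ S₂ → ∃ (N' : ℕ) (V' : ℕ → ℝ), (∀ k < N', -K ≤ V' k ∧ V' k ≤ K) ∧
      ∃ ε : ℝ, 0 < ε ∧ ∀ (S : PCl n)
      (P P₂ : List (Fin n) × Fin n → ℝ → ℝ → ℝ) (θ θ₂ : ℝ) (c : ℕ → Fin n) (Pt : ℝ → ℝ → ℝ)
      (L T : ℕ → ℝ → ℝ → ℝ) (Eb e₂ q t : ℝ),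
      RecQ S P P₂ θ θ₂ c 3 Pt L T Sl κ S₀ N A V S₂ N' V' Eb e₂ K ε q t →
      ∀ (pl sl : ℕ → ℝ) (ι : ℝ) (k₁ : ℕ),
      (∀ l ≤ 3, pl l ≤ L l (t - q) (t - q) - yp * q ∧ L l (t - q) (t - q) ≤ sl l) →
      (Sl 3 ≤ Sl 2 ∨ CGr S c 2 Dc (t - q) (dW * q) (t + vj * q) (t + XX * q) pl sl (qr * q)
        (ξ * q) (μ * q) κ₂ ι k₁ (1 / 2)) →
      L 3 (t + q) (t + q) ≤ L 3 (t + q) t + del * q := by
  obtain ⟨D₀, hD₀, hcev⟩ := cevmd n 2 S₀ (by norm_num) le_rfl hS₀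
  refine ⟨D₀, hD₀, fun Dc hDc del hdel XX Sm ξ qr μ vj κ₂ dW τ yp hXX1 hyp hMu => ?_⟩
  obtain ⟨b, hb⟩ : ∃ b, b = Sl 3 := ⟨_, rfl⟩
  have hXR : (1 : ℝ) ≤ XX := by exact_mod_cast hXX1
  obtain ⟨A', hA'⟩ : ∃ A' : ℝ, A' = |b| + XX + 4 := ⟨_, rfl⟩
  have hb0 := abs_nonneg b
  have hbA : b ≤ A' := by
    have := le_abs_self b
    linarith only [this, hA', hXR]
  have hA4 : 5 ≤ A' := by linarith only [hA', hb0, hXR]
  obtain ⟨v0, hv0⟩ : ∃ v0 : ℝ, v0 = -(2 * A' - 1) := ⟨_, rfl⟩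
  obtain ⟨K, hK⟩ : ∃ K : ℝ, K = 2 * A' + 4 := ⟨_, rfl⟩
  obtain ⟨v, hv⟩ : ∃ v : ℕ → ℝ, v = vss v0 := ⟨_, rfl⟩
  have e0 : v 0 = v0 := by rw [hv]; rfl
  have e1 : v 1 = 0 := by rw [hv]; rfl
  have e2 : v 2 = 1 := by rw [hv]; rfl
  have hvb : ∀ k ≤ 2, v0 ≤ v k ∧ v k + 1 + 3 ≤ A' := fun k hk => by
    have : k = 0 ∨ k = 1 ∨ k = 2 := by omega
    rcases this with rfl | rfl | rfl
    · rw [e0]
      exact ⟨le_rfl, by linarith only [hv0, hA4]⟩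
    · rw [e1]
      exact ⟨by linarith only [hv0, hA4], by linarith only [hA4]⟩
    · rw [e2]
      exact ⟨by linarith only [hv0, hA4], by linarith only [hA4]⟩
  obtain ⟨Al, hAl⟩ : ∃ Al : ℕ → ℝ, Al = fun k => if k = 3 then 1 else A' := ⟨_, rfl⟩
  obtain ⟨Vl, hVl⟩ : ∃ Vl : ℕ → ℝ, Vl = fun k => if k = 3 then 0 else v k := ⟨_, rfl⟩
  have Al4 : Al 3 = 1 := by rw [hAl]; simp
  have Vl4 : Vl 3 = 0 := by rw [hVl]; simp
  have Alk : ∀ k ≤ 2, Al k = A' := fun k hk => by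
    rw [hAl]
    simp only [show k ≠ 3 by omega, if_false]
  have Vlk : ∀ k ≤ 2, Vl k = v k := fun k hk => by
    rw [hVl]
    simp only [show k ≠ 3 by omega, if_false]
  refine ⟨K, 4, Al, Vl, by linarith only [hK, hA4], fun k hk => ?_, fun S₂ hS₂ => ?_⟩
  · rcases Nat.lt_or_ge k 3 with h5 | h5
    · rw [Alk k (by omega), Vlk k (by omega)]
      have h6 := hvb k (by omega)
      exact ⟨by linarith only [h6.1, hK, hv0], by linarith only [h6.2], by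
        linarith only [hK, hA4]⟩
    · have h6 : k = 3 := by omega
      subst h6
      rw [Al4, Vl4]
      exact ⟨by linarith only [hK, hA4], by norm_num, by linarith only [hK, hA4]⟩
  obtain ⟨D, hDD, hcev⟩ := hcev Dc hDc S₂ hS₂
  have hD : 1 ≤ D := hD₀.trans hDD
  obtain ⟨C, hC1, hend⟩ := ss_end n D (D + Dc + 1) hD
  have hCR : (1 : ℝ) ≤ C := by exact_mod_cast hC1
  have hC0 : (0 : ℝ) < C := by linarith only [hCR]
  obtain ⟨m₀, hm₀⟩ : ∃ m₀ : ℝ, m₀ = min 1 del := ⟨_, rfl⟩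
  have m00 : 0 < m₀ := by rw [hm₀]; exact lt_min one_pos hdel
  have m01 : m₀ ≤ 1 := by rw [hm₀]; exact min_le_left _ _
  have m02 : m₀ ≤ del := by rw [hm₀]; exact min_le_right _ _
  obtain ⟨y, hy⟩ : ∃ y : ℝ, y = m₀ / (12000 * C) := ⟨_, rfl⟩
  have hy0 : 0 < y := by rw [hy]; positivity
  have hyC : 12000 * (C * y) = m₀ := by rw [hy]; field_simp
  have hyy : y ≤ C * y := le_mul_of_one_le_left hy0.le hCR
  have hy1 : y ≤ 1 / 12000 := by linarith only [hyC, hyy, m01]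
  obtain ⟨n₀, p, s', ε₀, y', hn₀, hp, hs', hns, hε₀, hy'0, hy'y, hcev⟩ := hcev D le_rfl Sl y 1 hy0
    (by linarith only [hy1]) one_pos
    (fun l hl1 hl2 _ => by
      have : l = 1 ∨ l = 2 := by omega
      rcases this with rfl | rfl
      · rw [h1]; norm_num
      · rw [h2]; norm_num)
    (fun _ => by
      rw [h0, h1, h2]
      norm_num) XX Sm ξ qr μ vj κ₂ dW τ yp hXX1 hyp hMu
  have hpR : (0 : ℝ) < p := by
    have : 0 < p := by omega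
    exact_mod_cast this
  obtain ⟨V', hV'⟩ : ∃ V' : ℕ → ℝ, V' = fun j => if j < 3 * n₀ then
      v (j / n₀) + ((j % n₀ : ℕ) + 1) * s' else -1 + ((j - 3 * n₀ : ℕ) : ℝ) / p := ⟨_, rfl⟩
  obtain ⟨u, hu⟩ : ∃ u : ℕ → ℝ, u = fun k => if k ≤ 2 then v k else
      -1 + ((k - 3 : ℕ) : ℝ) / p := ⟨_, rfl⟩
  have huk : ∀ k ≤ 2, u k = v k := fun k hk => by
    rw [hu]
    simp only [hk, if_true]
  have hux : ∀ k : ℕ, u (2 + 1 + k) = -1 + k / p := fun k => by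
    rw [hu]
    simp only [show ¬ (2 + 1 + k ≤ 2) by omega, if_false, show 2 + 1 + k - 3 = k by omega]
  have q0 : u 0 = v0 := by rw [huk 0 (by norm_num), e0]
  have q1 : u 1 = 0 := by rw [huk 1 (by norm_num), e1]
  have q2 : u 2 = 1 := by rw [huk 2 (by norm_num), e2]
  have hub : ∀ k ≤ 2, v0 ≤ u k ∧ u k + 1 + 3 ≤ A' := fun k hk => by
    rw [huk k hk]
    exact hvb k hk
  refine ⟨3 * n₀ + ((XX + 1) * p + 1), V', fun j hj => ?_, min ε₀ (y' / 4),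
    lt_min hε₀ (by positivity), ?_⟩
  · rw [hV']
    beta_reduce
    split_ifs with h4
    · have h5 : j / n₀ ≤ 2 := by
        have : j / n₀ < 3 := Nat.div_lt_of_lt_mul (by omega)
        omega
      have h6 : ((j % n₀ : ℕ) : ℝ) + 1 ≤ n₀ + 1 := by
        have : j % n₀ < n₀ := Nat.mod_lt _ (by omega)
        have : ((j % n₀ : ℕ) : ℝ) ≤ n₀ := by exact_mod_cast this.le
        linarith only [this]
      have h7 := mul_le_mul_of_nonneg_right h6 hs'.le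
      have h8 := hvb _ h5
      have h9 : 0 ≤ ((j % n₀ : ℕ) + 1 : ℝ) * s' := by positivity
      exact ⟨by linarith only [h8.1, h9, hK, hv0], by linarith only [h8.2, h7, hns, hK, hA4]⟩
    · have h5 : j - 3 * n₀ ≤ (XX + 1) * p := by omega
      have h6 : ((j - 3 * n₀ : ℕ) : ℝ) ≤ (XX + 1) * p := by exact_mod_cast h5
      have h7 : ((j - 3 * n₀ : ℕ) : ℝ) / p ≤ XX + 1 := by
        rw [div_le_iff₀ hpR]
        exact h6
      have h8 : 0 ≤ ((j - 3 * n₀ : ℕ) : ℝ) / p := by positivity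
      exact ⟨by linarith only [h8, hK, hA4], by linarith only [h7, hK, hA', hb0, hXR]⟩
  intro S P P₂ θ θ₂ c Pt L T Eb e₂' q t R pl sl ι k₁ hpl hCG
  by_contra hcon
  rw [not_le] at hcon
  have hq := R.q0
  have hεe : min ε₀ (y' / 4) ≤ ε₀ := min_le_left _ _
  have hεy : min ε₀ (y' / 4) ≤ y' / 4 := min_le_right _ _
  have hε0 : 0 < min ε₀ (y' / 4) := lt_min hε₀ (by positivity)
  have hyq : 0 < y' * q := mul_pos hy'0 hq
  have hK3 : 3 ≤ K := by linarith only [hK, hA4]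
  have y3 : y' ≤ 1 / 1000 := by linarith only [hy1, hy'y]
  obtain ⟨a, w', ra1, ra2, ra3, ra4, ra5, ra6, ra7, ra8, ra9, rb, rn, rt3⟩ :=
    RecQ.ra R hy'0 y3 hεy hK3 (j := 3) (by norm_num) Al4 Vl4
  have ht0 := R.t0
  have ht1 := R.t1
  have hKq1 : 3 * q ≤ K * q := mul_le_mul_of_nonneg_right hK3 hq.le
  have bx1 : |t + q - t| ≤ K * q := by
    rw [abs_le]
    exact ⟨by linarith only [hKq1, hq], by linarith only [hKq1, hq]⟩
  have L13 : L 3 (t + q) (t + q) ≤ L 3 t t + b * q + y' / 4 * q := by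
    have h4 := abs_le.1 (R.dL 3 le_rfl (t + q) bx1)
    have h5 := mul_le_mul_of_nonneg_right hεy hq.le
    rw [add_sub_cancel_left, ← hb] at h4
    linarith only [h4.2, h5]
  have hbet3 : bet P₂ c 3 a w' + y' * q ≤ 1 := by
    have h4 := R.room 3 le_rfl (t + q) bx1
    have h5 := mul_le_mul_of_nonneg_right y3 hq.le
    have h6 : 0 < del * q := mul_pos hdel hq
    linarith only [h4, h5, h6, rt3, hcon, hKq1, hq, R.Eb0]
  -- the event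
  obtain ⟨K₁, hK₁, hcev⟩ := hcev R hε0.le hεe (by linarith only [hK3]) A' 2 1 2 u
    (fun l => l = 1 ∨ l = 2) (by linarith only [hK, hA4]) (by norm_num) le_rfl q1 q2
    (fun k hk => ⟨by linarith only [(hub k hk).1, hK, hv0], by linarith only [(hub k hk).2]⟩)
    (by linarith only [hA', hb0])
    (fun k hk => ⟨k, by omega, Alk k hk, by rw [huk k hk]; exact Vlk k hk⟩)
    (fun k _ => hux k)
    (fun k hk => ⟨3 * n₀ + k, by omega, by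
      rw [hV']
      simp only [show ¬ (3 * n₀ + k < 3 * n₀) by omega, if_false,
        show 3 * n₀ + k - 3 * n₀ = k by omega]⟩)
    (fun k hk j hj1 hj2 => by
      have h4 : k * n₀ ≤ 2 * n₀ := Nat.mul_le_mul_right _ hk
      have h4' : k * n₀ + (j - 1) < 3 * n₀ := by omega
      refine ⟨k * n₀ + (j - 1), by omega, ?_⟩
      have h5 : (k * n₀ + (j - 1)) / n₀ = k := by
        rw [mul_comm, Nat.mul_add_div (by omega), Nat.div_eq_of_lt (by omega), add_zero]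
      have h6 : (k * n₀ + (j - 1)) % n₀ = j - 1 := by
        rw [mul_comm, Nat.mul_add_mod, Nat.mod_eq_of_lt (by omega)]
      have h7 : ((j - 1 : ℕ) : ℝ) + 1 = j := by
        have : ((j - 1 + 1 : ℕ) : ℝ) = j := by rw [Nat.sub_add_cancel hj1]
        push_cast at this
        exact this
      rw [hV', huk k hk]
      simp only [h4', if_true]
      rw [h5, h6, h7]) (fun l hl hsc => by
      have : l = 0 := by
        by_contra h5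
        exact hsc (by omega)
      rw [this]
      exact Or.inl k0) pl sl ι k₁ hpl hCG
  have hV1 := hcev 1 one_pos
  have hV2 := hend R.thr₂ R.tmh c R.inj a e₂' (y' * q) (ra5.trans ra6) ra7 ra8 hyq
    (rb 0 (by norm_num)) (rb 1 (by norm_num)) a w' (t + K * q) e₂' (y' * q)
    (y' * q / 2) (1 / K₁) ra5 ra6 ra7.le ht1 ra9 hyq hbet3 (by positivity) (by positivity)
  have hpos : Bas S (fun _ F A => 0 < Pe F.p A) := ⟨1, one_pos, 0, fun J _ F A hA =>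
    R.tmh.1 1 J F A hA⟩
  obtain ⟨J₁, hJ₁⟩ := exists_nat_ge (((C : ℝ) + 2) / (y' * q))
  refine Pool.LBT.bas_false R.ne (Φ := fun _ _ _ => True) ⟨1, one_pos, 0, fun _ _ _ _ _ =>
    trivial⟩ (Bas.mono J₁ ((hV1.and hV2).and hpos) ?_)
  rintro J hJ F A₀ ⟨⟨hA1, hA2⟩, hA0⟩ -
  have hJR : (J₁ : ℝ) ≤ J := by exact_mod_cast hJ
  have hyU : (C : ℝ) + 2 ≤ y' * (q * J) := by
    have h4 := hJ₁.trans hJR
    rw [div_le_iff₀ hyq] at h4
    linarith only [h4]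
  have hJ0 : (0 : ℝ) ≤ J := Nat.cast_nonneg J
  obtain ⟨M, z, B, e, h, pp, g, gc, gT, g₀, G, H, Th, TH, Gt, Ht, mu, hBA, hBP, E, hmud,
    hmu, hnum⟩ := hA1
  have hap := apN_of R hy'0 hεy (by linarith only [hK, hA4]) (N₁ := 2) (v := u) (fun k hk =>
      ⟨by linarith only [(hub k hk).1, hK, hv0], by linarith only [(hub k hk).2]⟩)
      (fun k hk => ⟨k, by omega, Alk k hk, by rw [huk k hk]; exact Vlk k hk⟩)
      (Sc := fun l => l = 1 ∨ l = 2) (fun l hl hl1 => by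
        rcases hl1 with rfl | rfl
        · exact k1
        · exact k2) (by linarith only [hyU, hCR]) E hnum
  obtain ⟨U, hU⟩ : ∃ U : ℝ, U = q * J := ⟨_, rfl⟩
  rw [← hU] at hyU
  have hU0 : 0 ≤ U := by rw [hU]; positivity
  obtain ⟨w, hw⟩ : ∃ w : ℕ → ℕ, w = fun k => ⌊(t + u k * q) * J⌋₊ := ⟨_, rfl⟩
  obtain ⟨A, hA⟩ : ∃ A : ℕ, A = ⌊(t + A' * q) * J⌋₊ := ⟨_, rfl⟩
  obtain ⟨cl, hcl⟩ : ∃ cl : ℕ, cl = ⌊y' * q * J⌋₊ := ⟨_, rfl⟩
  obtain ⟨Y, hY⟩ : ∃ Y : ℕ, Y = ⌊y * q * J⌋₊ := ⟨_, rfl⟩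
  have hwk : ∀ k, ⌊(t + u k * q) * J⌋₊ = w k := fun k => by rw [hw]
  rw [← hcl, ← hA, ← hw] at E
  rw [← hcl, ← hA, ← hw, ← hU] at hap
  rw [hwk, ← hY] at hmu
  have yU0 : 0 ≤ y * U := mul_nonneg hy0.le hU0
  have hYR : (Y : ℝ) ≤ y * U := by
    rw [hY]
    have h4 : y * q * J = y * U := by rw [hU]; ring
    rw [h4]
    exact Nat.floor_le yU0
  obtain ⟨X, hX⟩ : ∃ X, X = 50 * cl := ⟨_, rfl⟩
  obtain ⟨Q, hQ⟩ : ∃ Q, Q = C * (cl + X + 1) := ⟨_, rfl⟩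
  obtain ⟨Q', hQ'⟩ : ∃ Q, Q = C * (cl + X + Y + 1) := ⟨_, rfl⟩
  have c1 := hap.cl1
  have c2 := hap.cl2
  have XR : (X : ℝ) = 50 * cl := by rw [hX]; push_cast; ring
  have hCyU : 12000 * (C * (y * U)) = m₀ * U := by
    rw [← hyC]
    ring
  have hmU1 : m₀ * U ≤ U := mul_le_of_le_one_left hU0 m01
  have hmU2 : m₀ * U ≤ del * U := mul_le_mul_of_nonneg_right m02 hU0
  have yUC : y * U ≤ C * (y * U) := le_mul_of_one_le_left yU0 hCR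
  have hy'U : y' * U ≤ y * U := mul_le_mul_of_nonneg_right hy'y hU0
  have Q0 : (Q' : ℝ) ≤ 53 * (C * (y * U)) := by
    have h5 : (Q' : ℝ) = C * (cl + 50 * cl + Y + 1) := by rw [hQ', hX]; push_cast; ring
    rw [h5]
    have h6 : (cl : ℝ) + 50 * cl + Y + 1 ≤ 53 * (y * U) := by
      linarith only [c1, hyU, hCR, hYR, hy'U]
    have h7 := mul_le_mul_of_nonneg_left h6 hC0.le
    linarith only [h7]
  have QR' : (Q' : ℝ) ≤ U / 100 := by linarith only [Q0, hCyU, hmU1, hU0]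
  have QQ : Q ≤ Q' := by
    rw [hQ, hQ']
    exact Nat.mul_le_mul_left _ (by omega)
  have QR : (Q : ℝ) ≤ U / 100 := by
    have : (Q : ℝ) ≤ Q' := by exact_mod_cast QQ
    linarith only [this, QR']
  have hX20 : 20 * (y' * U) ≤ X := by rw [XR]; linarith only [c2, hyU, hCR]
  have hKU : 3 * U ≤ K * U := mul_le_mul_of_nonneg_right hK3 hU0
  have W2 := hap.w1 2 (by norm_num)
  rw [q2] at W2
  have hwa2 : w 2 ≤ ⌊(a : ℝ) * J⌋₊ := by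
    rw [hw]
    exact Nat.floor_le_floor (mul_le_mul_of_nonneg_right
      (by rw [q2, one_mul]; exact ra1.le) hJ0)
  have hww1 : w 1 ≤ ⌊(w' : ℝ) * J⌋₊ := by
    rw [hw]
    exact Nat.floor_le_floor (mul_le_mul_of_nonneg_right
      (by rw [q1, zero_mul, add_zero]; exact ra3.le) hJ0)
  have heb1 : Eb * J + 3 * K * U - 1 ≤ (⌊e₂' * J⌋₊ : ℝ) := by
    have h5 := Nat.lt_floor_add_one (e₂' * J)
    have h6 := mul_le_mul_of_nonneg_right R.Ebe.le hJ0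
    have h9 : (Eb + 3 * K * q) * J = Eb * J + 3 * K * U := by rw [hU]; ring
    rw [h9] at h6
    linarith only [h5, h6]
  have hbt0 : (⌊(bet P₂ c 0 a a + y' * q) * J⌋₊ : ℝ) ≤ L 0 t t * J + U + 5 * (y' * U) := by
    have h5 := rn 0 (by norm_num) J
    rw [← hU, h0, one_mul] at h5
    exact h5
  have hbt1 : (⌊(bet P₂ c 1 a a + y' * q) * J⌋₊ : ℝ) ≤ L 1 t t * J + 2 * U + 5 * (y' * U) := by
    have h5 := rn 1 (by norm_num) J
    rw [← hU, h1] at h5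
    exact h5
  have hbt3 : (⌊(bet P₂ c 3 a w' + y' * q) * J⌋₊ : ℝ) + Q' + 5 * (y' * U) ≤
      L 3 t t * J + b * U := by
    have h5 : (⌊(bet P₂ c 3 a w' + y' * q) * J⌋₊ : ℝ) ≤ L 3 t t * J + b * U + 3 * (y' * U) -
        del * U := by
      refine fl_le_sc ?_ ?_
      · have h7 : bet P₂ c 3 a w' + y' * q ≤ L 3 t t + b * q + 3 * (y' * q) - del * q := by
          linarith only [rt3, hcon, L13, hyq]
        have h8 := mul_le_mul_of_nonneg_right h7 hJ0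
        have h9 : (L 3 t t + b * q + 3 * (y' * q) - del * q) * J = L 3 t t * J + b * U +
            3 * (y' * U) - del * U := by rw [hU]; ring
        rw [h9] at h8
        exact h8
      · have h7 := (R.lawL 3 le_rfl).mono_a t (t + q) t (by linarith only [ht0, hKq1, hq]) le_rfl
          (by linarith only [hq]) (by linarith only [ht1, hKq1, hq])
        have h8 : L 3 t t ≤ L 3 t t + b * q + 3 * (y' * q) - del * q := by
          linarith only [h7, hcon, L13, hyq]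
        have h9 := mul_le_mul_of_nonneg_right h8 hJ0
        have h9' : (L 3 t t + b * q + 3 * (y' * q) - del * q) * J = L 3 t t * J + b * U +
            3 * (y' * U) - del * U := by rw [hU]; ring
        rw [h9'] at h9
        have h10 := hap.lo 1 (by norm_num) 3 le_rfl
        rw [q1] at h10
        have h11 : 0 ≤ (K - y') * U := mul_nonneg (by linarith only [hK3, y3]) hU0
        linarith only [h9, h10, h11]
    linarith only [h5, Q0, hCyU, hmU2, hy'U, yUC, hU0]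
  obtain ⟨y₁, y₂, n1, n2⟩ := num_ss hap le_rfl (fun l _ => Iff.rfl) h0 h1 h2 hb.symm le_rfl q1 q2
    hbA (by linarith only [hA4]) (by rw [q0]; linarith only [hv0])
    (by linarith only [hK, hA4]) (by rw [q0]; linarith only [hK, hv0]) y3 hX20 QR QR'
    (a₁ := ⌊(a : ℝ) * J⌋₊) (e₁ := ⌊e₂' * J⌋₊) (b0 := ⌊(bet P₂ c 0 a a + y' * q) * J⌋₊)
    (b1 := ⌊(bet P₂ c 1 a a + y' * q) * J⌋₊) (at' := ⌊(a : ℝ) * J⌋₊) (wt' := ⌊(w' : ℝ) * J⌋₊)
    (eb' := ⌊e₂' * J⌋₊) (bt' := ⌊(bet P₂ c 3 a w' + y' * q) * J⌋₊) hwa2 heb1 hbt0 hbt1 hwa2 hww1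
    heb1 hbt3
  rw [hQ] at n1
  rw [hQ'] at n2
  have hfin := hA2 E hBA (by
      have : y' * q / 2 * J = y' * U / 2 := by rw [hU]; ring
      rw [this]
      linarith only [c2, hyU, hCR]) (nat_le_of_real (by linarith only [c2, hyU]))
    (by norm_num) (Or.inl rfl) (Or.inr rfl) n1 hmud hmu (by
      have h5 : (t + K * q) * J = t * J + K * U := by rw [hU]; ring
      rw [h5]
      linarith only [W2.2, hKU, hU0]) n2
  have h6 : 1 / K₁ * Pe F.p A₀ ≤ Pe F.p B := by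
    rw [div_mul_eq_mul_div, one_mul, div_le_iff₀ hK₁]
    linarith only [hBP]
  linarith only [hfin, h6]

/-- **The class theorem of the cell** `[one, sta, sta]`, static slopes two, from the closed gradient
in the direction of the last place. -/
theorem cellC_ss {n : ℕ} {Sl : ℕ → ℝ} {κ : ℕ → Kd} (k0 : κ 0 = .one) (k1 : κ 1 = .sta)
    (k2 : κ 2 = .sta) (h0 : Sl 0 = 1) (h1 : Sl 1 = 2) (h2 : Sl 2 = 2)
    (S₀ : ℕ) (hS₀ : 1 ≤ S₀) : ∃ D₀ : ℕ, 1 ≤ D₀ ∧ ∀ Dc : ℕ, D₀ ≤ Dc → ∀ del : ℝ, 0 < del →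
    ∀ (XX : ℕ) (Sm ξ qr μ vj κ₂ dW τ yp : ℝ), 1 ≤ XX → 0 < yp →
    MuN 2 XX Sl Sm ξ qr μ vj κ₂ dW τ →
    ∃ (K : ℝ) (N : ℕ) (A V : ℕ → ℝ), 1 ≤ K ∧ (∀ k < N, -K ≤ V k ∧ V k ≤ A k ∧ A k ≤ K) ∧
    ∀ S₂ : ℕ, S₀ ≤ S₂ → ∃ (N' : ℕ) (V' : ℕ → ℝ), (∀ k < N', -K ≤ V' k ∧ V' k ≤ K) ∧
      ∃ ε : ℝ, 0 < ε ∧ ∀ (S : PCl n)
      (P P₂ : List (Fin n) × Fin n → ℝ → ℝ → ℝ) (θ θ₂ : ℝ) (c : ℕ → Fin n) (Pt : ℝ → ℝ → ℝ)
      (L T : ℕ → ℝ → ℝ → ℝ) (Eb e₂ q t : ℝ),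
      RecQ S P P₂ θ θ₂ c 3 Pt L T Sl κ S₀ N A V S₂ N' V' Eb e₂ K ε q t →
      ∀ (pl sl : ℕ → ℝ) (ι : ℝ) (k₁ : ℕ),
      (∀ l ≤ 3, pl l ≤ L l (t - q) (t - q) - yp * q ∧ L l (t - q) (t - q) ≤ sl l) →
      CGr S c 2 Dc (t - q) (dW * q) (t + vj * q) (t + XX * q) pl sl (qr * q)
        (ξ * q) (μ * q) κ₂ ι k₁ (1 / 2) →
      L 3 (t + q) (t + q) ≤ L 3 (t + q) t + del * q := by
  obtain ⟨D₀, hD₀, hc⟩ := cellC_ssO k0 k1 k2 h0 h1 h2 S₀ hS₀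
  refine ⟨D₀, hD₀, fun Dc hDc del hdel XX Sm ξ qr μ vj κ₂ dW τ yp hXX hyp hMu => ?_⟩
  obtain ⟨K, N, A, V, hK, hV, hc⟩ := hc Dc hDc del hdel XX Sm ξ qr μ vj κ₂ dW τ yp hXX hyp (Or.inr hMu)
  refine ⟨K, N, A, V, hK, hV, fun S₂ hS₂ => ?_⟩
  obtain ⟨N', V', hV', ε, hε, hc⟩ := hc S₂ hS₂
  exact ⟨N', V', hV', ε, hε, fun S P P₂ θ θ₂ c Pt L T Eb e₂ q t R pl sl ι k₁ hp hG =>
    hc S P P₂ θ θ₂ c Pt L T Eb e₂ q t R pl sl ι k₁ hp (Or.inr hG)⟩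

/-- **The class theorem of the cells** `[one, sta, sta]` of slopes `1, 2, 2` for targets of slope at
most two. -/
theorem cellQ_ss2 {n : ℕ} {Sl : ℕ → ℝ} {κ : ℕ → Kd} (k0 : κ 0 = .one) (k1 : κ 1 = .sta)
    (k2 : κ 2 = .sta) (h0 : Sl 0 = 1) (h1 : Sl 1 = 2) (h2 : Sl 2 = 2) (h3 : Sl 3 ≤ 2) :
    CellQ n 3 Sl κ := by
  intro del hdel S₀ hS₀
  obtain ⟨D₀, hD₀, hc⟩ := cellC_ssO (n := n) k0 k1 k2 h0 h1 h2 S₀ hS₀
  have h4 : Sl 3 ≤ Sl 2 := by rw [h2]; exact h3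
  obtain ⟨K, N, A, V, hK, hV, hc⟩ := hc D₀ le_rfl del hdel 1 0 0 0 0 0 0 0 0 1 le_rfl one_pos
    (Or.inl h4)
  refine ⟨K, N, A, V, hK, hV, fun S₂ hS₂ => ?_⟩
  obtain ⟨N', V', hV', ε, hε, hc⟩ := hc S₂ hS₂
  exact ⟨N', V', hV', ε, hε, fun S P P₂ θ θ₂ c Pt L T Eb e₂ q t R =>
    hc S P P₂ θ θ₂ c Pt L T Eb e₂ q t R (fun l => L l (t - q) (t - q) - 1 * q)
      (fun l => L l (t - q) (t - q)) 0 0 (fun l _ => ⟨le_rfl, le_rfl⟩) (Or.inl h4)⟩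

end Pool.TN
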