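import Pool.Agent.H88.D2.Ss1
import Pool.Agent.H88.D2.Ss3
import Pool.Agent.H88.D2.Ssc
import Pool.Agent.H88.D2.Cqi

/-!
# The cells with two static coordinates

`lCellA_ss`: the cells `[one, sta, sta]` from the cell of the slopes `1, 2, 2` and a steep target.
-/

set_option autoImplicit false

namespace Pool.ASM

open MeasureTheory Set Filter Topology
open Pool.GEN Pool.PKG Pool.SW
open Pool.ONE (Ext0 Ext)
open Pool.MIC6

/-- **The cells** `[one, sta, sta]` from the cell of the slopes `1, 2, 2` with a target of slope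
larger than two. -/
theorem lCellA_ss {n : ℕ} (hn : 4 ≤ n) {ι : Type} [Countable ι] {Q : PropG n ι}
    (hQ : (∀ k, 1 ≤ k → k < n → FZX k) → AePG n Q)
    (hSS : ∀ h : ℝ, 0 < h → h ≤ 1 → ∀ Sl : ℕ → ℝ, Sl 0 = 1 → Sl 1 = 2 → Sl 2 = 2 → 2 < Sl 3 →
      (∀ l < n, 1 ≤ Sl l) → CelQI n 3 h Sl (kgL [.one, .sta, .sta]) Q) :
    LCellA n [.one, .sta, .sta] := by
  refine lCellA_of_gi hQ (by
    show 3 ≤ n - 1
    omega) fun h h0 h1 Sl hk h2 hsl => ?_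
  have k0 : Sl 0 = 1 := (hk 0 (by norm_num)).1 rfl
  have k1 : 2 ≤ Sl 1 := (hk 1 (by norm_num)).2.2 rfl
  have k2 : 2 ≤ Sl 2 := (hk 2 (by norm_num)).2.2 rfl
  have hκ : ∀ l < 3, kgL [Kd.one, Kd.sta, Kd.sta] l =
      ofKd ((fun l => [Kd.one, Kd.sta, Kd.sta].getD l .one) l) := fun l hl => by
    rw [kgL_lt (κ := [Kd.one, Kd.sta, Kd.sta]) hl]
    beta_reduce
    rw [List.getD_eq_getElem _ _ hl]
  have hqi : ∀ {Sl : ℕ → ℝ}, CellQ n 3 Sl (fun l => [Kd.one, Kd.sta, Kd.sta].getD l .one) →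
      CelQI n 3 h Sl (kgL [.one, .sta, .sta]) Q := fun H =>
    H.qi (by norm_num) (show 3 < n by omega) (kgL_len [Kd.one, Kd.sta, Kd.sta]) hκ
  show CelQI n 3 h Sl (kgL [.one, .sta, .sta]) Q
  rcases lt_or_eq_of_le k1 with h3 | h3
  · exact hqi (Pool.TN.cellQ_s1 rfl rfl k0 h3 (by linarith))
  rcases lt_or_eq_of_le k2 with h4 | h4
  · by_cases h5 : Sl 2 = 3
    · exact hqi (Pool.TN.cellQ_s3 rfl rfl rfl k0 h3.symm h5)
    · exact hqi (Pool.TN.cellQ_s2 rfl rfl rfl k0 h3.symm h4 h5)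
  · exact hSS h h0 h1 Sl k0 h3.symm h4.symm h2 hsl

end Pool.ASM
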