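import Pool.Agent.H88.D2.Stw
import Pool.Agent.H64.F5.All

/-!
# One rough and one static coordinate: the second derivatives at one window

`win_nc2`: one list of visible covectors from two windows, near the gradients at the first of them.
`sto_nat`: the second derivatives of the ball charts are natural at the first window.
-/

set_option autoImplicit false

namespace Pool.JST

open Finset Real MvPolynomial
open Pool.Agent.H49.Ent Pool.Agent.H32.Dense Pool.STK Pool.KA Pool.KSAT Pool.K2S Pool.PB Pool.S6C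
open Pool.GEN Pool.CHT Pool.CHX Pool.ISO Pool.D2R Pool.D2Z Pool.D2F Pool.RCV Pool.AFT
open Pool.LBT (ThrOf)
open Pool.FLF (Fam.sub)

variable {m J : ℕ}

/-- The covectors of the first two coordinates from `γ'`, the others from `γ`. -/
noncomputable def mx2 (γ' γ : ℕ → Option (Fin m) → ℝ) (l : ℕ) : Option (Fin m) → ℝ :=
  if l < 2 then γ' l else γ l

theorem mx2_dep {c : ℕ → Fin m} {γ' γ : ℕ → Option (Fin m) → ℝ} (h' : ∀ l, CvC c l (γ' l))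
    (h : ∀ l, CvC c l (γ l)) : ∀ l, CvC c l (mx2 γ' γ l) := by
  intro l
  unfold mx2
  split_ifs
  exacts [h' l, h l]

/-- **One list from two windows.** -/
theorem win_nc2 (D : ℕ) : ∃ C : ℕ, 1 ≤ C ∧ ∀ {m J : ℕ} {F : Fam m J} {c : ℕ → Fin m}
    {Dr N M : ℕ} {R : ℕ → Prop} {C₀ a Eb ηm : ℝ} {o ε p' η σ : ℕ → ℝ} {lv be b : ℕ → ℕ → ℝ}
    {κ : ℝ} {z : ℕ → ℕ → ℕ} {B : F.Ω → Prop} {gc gT g₀ : ℕ → ℕ → ℕ}
    {G : ℕ → PtT F → ℕ → MvPolynomial (Option (Fin m)) ℝ}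
    {H : ℕ → LnT F → ℕ → MvPolynomial (Option (Fin m)) ℝ}
    {T : ℕ → PtT F → ℕ → MvPolynomial (Option (Fin m)) ℝ}
    {TH : ℕ → LnT F → ℕ → MvPolynomial (Option (Fin m)) ℝ}
    {Gt : ℕ → PtT F → MvPolynomial (Option (Fin m)) ℝ}
    {Ht : ℕ → LnT F → MvPolynomial (Option (Fin m)) ℝ}
    (_ : Wins F c 2 D Dr N M R C₀ a Eb ηm o ε p' η σ lv be b κ z B gc gT g₀ G H T TH Gt Ht)
    {k k' jq Y : ℕ}, Set.InjOn c (Set.Iio 3) → k ≤ N → k' ≤ N → jq ≤ M →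
    z k jq = ⌊o k' * J⌋₊ - ⌊o k * J⌋₊ → o k ≤ o k' → C₀ * (ηm * J) ≤ Y → 1 ≤ Y →
    (lv k 0 - o k) * J ≤ (lv k' 0 - o k') * J + Y →
    (lv k' 0 - o k') * J ≤ (lv k 0 - o k) * J + Y →
    (lv k 1 - o k) * J ≤ (lv k' 1 - o k') * J + Y →
    (∀ l ≤ 2, (Eb + lv k l) * J + C * Y ≤ J) → (∀ l ≤ 1, (Eb + lv k' l) * J + C * Y ≤ J) →
    (∀ ω, B ω → Nc c (g₀ k) ⌊o k * J⌋₊ 3 (2 ^ (C * Y))
      (mx2 (gpt F (G k') (ptr F J ω)) (gpt F (G k) (ptr F J ω)))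
      (fun l => grd (G k (ptr F J ω) l) (bt F ω))) ∧
    ∀ ω, B ω → Nc c (g₀ k') ⌊o k' * J⌋₊ 2 (2 ^ 4)
      (mx2 (gpt F (G k') (ptr F J ω)) (gpt F (G k) (ptr F J ω)))
      (fun l => grd (G k' (ptr F J ω) l) (bt F ω)) := by
  obtain ⟨Cb, hbal⟩ := bale_dd D 2
  obtain ⟨Cg, hCg, hgpt⟩ := gpt_near D 3
  obtain ⟨Cg₂, hCg₂, hgpt₂⟩ := gpt_near D 2
  refine ⟨100 * (Cb + 20) + Cg + Cg₂ + 10, by omega, ?_⟩
  intro m J F c Dr N M R C₀ a Eb ηm o ε p' η σ lv be b κ z B gc gT g₀ G H T TH Gt Ht W k k' jq Y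
    hc hk hk' hjq hz hoo hY hY1 hl0 hl0' hl1 hJk hJk'
  have hJ : (0 : ℝ) ≤ J := Nat.cast_nonneg J
  have nt : ∀ {x y : ℕ}, (x : ℝ) ≤ y → x ≤ y := fun h => by exact_mod_cast h
  have hC1 := W.C1
  have hηm0 : 0 ≤ ηm := (W.hη k hk).1.trans (W.hη k hk).2
  have hηJ : 0 ≤ ηm * J := mul_nonneg hηm0 hJ
  have hηY : ηm * J ≤ Y := (le_mul_of_one_le_left hηJ hC1).trans hY
  have hY1R : (1 : ℝ) ≤ Y := by exact_mod_cast hY1
  have hc2 : Set.InjOn c (Set.Iio 2) := hc.mono (Set.Iio_subset_Iio (by omega))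
  have hoo' : ⌊o k * J⌋₊ ≤ ⌊o k' * J⌋₊ := Nat.floor_le_floor
    (mul_le_mul_of_nonneg_right hoo hJ)
  have a1 : (⌊o k * J⌋₊ : ℝ) ≤ o k * J := Nat.floor_le (mul_nonneg (W.ho k hk).1 hJ)
  have a2 := (Nat.lt_floor_add_one (o k * (J : ℝ))).le
  have a3 : (⌊o k' * J⌋₊ : ℝ) ≤ o k' * J := Nat.floor_le (mul_nonneg (W.ho k' hk').1 hJ)
  have a4 := (Nat.lt_floor_add_one (o k' * (J : ℝ))).le
  obtain ⟨p1, p2, p3, p4, p5, p6⟩ := W.g_num hk (show 0 ≤ 2 by omega)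
  obtain ⟨q1, q2, q3, q4, q5, q6⟩ := W.g_num hk' (show 0 ≤ 2 by omega)
  obtain ⟨r1, r2, r3, r4, r5, r6⟩ := W.g_num hk (show 1 ≤ 2 by omega)
  obtain ⟨s1, s2, s3, s4, s5, s6⟩ := W.g_num hk' (show 1 ≤ 2 by omega)
  obtain ⟨t1, t2, t3, t4, t5, t6⟩ := W.g_num hk (show 2 ≤ 2 by omega)
  obtain ⟨kk, hkk⟩ : ∃ kk : ℕ, kk = 8 * Y := ⟨_, rfl⟩
  have hkkR : (kk : ℝ) = 8 * Y := by rw [hkk]; push_cast; ring
  rw [sub_mul, sub_mul] at hl0 hl0' hl1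
  have u0 : g₀ k 0 ≤ ⌊b k 0 * J⌋₊ + kk := nt (by push_cast; linarith)
  have u1 : ⌊o k' * J⌋₊ + g₀ k 0 ≤ g₀ k' 0 + ⌊o k * J⌋₊ + kk := nt (by push_cast; linarith)
  have u2 : g₀ k 1 ≤ ⌊b k 1 * J⌋₊ + kk := nt (by push_cast; linarith)
  have u3 : ⌊o k' * J⌋₊ + g₀ k 1 ≤ g₀ k' 1 + ⌊o k * J⌋₊ + kk := nt (by push_cast; linarith)
  have u4 : g₀ k' 0 + ⌊o k * J⌋₊ + g₀ k 1 ≤ ⌊b k 1 * J⌋₊ + ⌊o k' * J⌋₊ + g₀ k 0 + kk :=
    nt (by push_cast; linarith)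
  have u5 : g₀ k' 0 + g₀ k 1 ≤ g₀ k' 1 + g₀ k 0 + kk := nt (by push_cast; linarith)
  have hes : ∀ {j : ℕ}, j ≤ N → ⌊(Eb + σ j + η j) * J⌋₊ ≤ ⌊(Eb + 2 * ηm) * J⌋₊ := fun {j} hj =>
    Nat.floor_le_floor (mul_le_mul_of_nonneg_right (by
      have h1 := (W.hη j hj).2
      have h2 := (W.hσ j hj).2
      linarith) hJ)
  have heb : (⌊(Eb + 2 * ηm) * J⌋₊ : ℝ) ≤ Eb * J + 2 * Y := by
    refine (Nat.floor_le (mul_nonneg (by linarith [W.Eb0]) hJ)).trans ?_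
    rw [add_mul]
    linarith
  have hCY : ((100 * (Cb + 20) + Cg + Cg₂ + 10 : ℕ) : ℝ) * Y =
      100 * (Cb * Y) + Cg * Y + Cg₂ * Y + 2010 * Y := by
    push_cast
    ring
  have hCg0 : (Cg : ℝ) ≤ Cg * Y := le_mul_of_one_le_right (Nat.cast_nonneg _) hY1R
  have hCg20 : (Cg₂ : ℝ) ≤ Cg₂ * Y := le_mul_of_one_le_right (Nat.cast_nonneg _) hY1R
  have hCb0 : (Cb : ℝ) ≤ Cb * Y := le_mul_of_one_le_right (Nat.cast_nonneg _) hY1R
  have hCb1 : (0 : ℝ) ≤ Cb := Nat.cast_nonneg _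
  have hCg1 : (0 : ℝ) ≤ Cg := Nat.cast_nonneg _
  have hCg21 : (0 : ℝ) ≤ Cg₂ := Nat.cast_nonneg _
  have hbk : ChOK F c 3 (fun _ => D) ⌊o k * J⌋₊ ⌊o k * J⌋₊ ⌊(Eb + 2 * ηm) * J⌋₊ (g₀ k) B (G k)
      (H k) := (W.evs k hk).ball.mono le_rfl (fun _ => le_rfl) le_rfl (hes hk)
  have hbk' : ChOK F c 3 (fun _ => D) ⌊o k' * J⌋₊ ⌊o k' * J⌋₊ ⌊(Eb + 2 * ηm) * J⌋₊ (g₀ k') B
      (G k') (H k') := (W.evs k' hk').ball.mono le_rfl (fun _ => le_rfl) le_rfl (hes hk')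
  -- the rounded points
  have n1 : ∀ ω, B ω → Nc c (g₀ k) ⌊o k * J⌋₊ 3 1
      (fun j => grd (G k (ptr F J ω) j) (bt F ω)) (gpt F (G k) (ptr F J ω)) :=
    hgpt hc le_rfl hbk (fun l hl => by
      obtain ⟨-, -, -, g4, -⟩ := W.g_num hk (show l ≤ 2 by omega)
      have h1 := hJk l (by omega)
      rw [hCY, add_mul] at h1
      exact nt (by push_cast; linarith))
  have n2 : ∀ ω, B ω → Nc c (g₀ k') ⌊o k' * J⌋₊ 2 1
      (fun j => grd (G k' (ptr F J ω) j) (bt F ω)) (gpt F (G k') (ptr F J ω)) :=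
    hgpt₂ hc2 (by norm_num) hbk' (fun l hl => by
      obtain ⟨-, -, -, g4, -⟩ := W.g_num hk' (show l ≤ 2 by omega)
      have h1 := hJk' l (by omega)
      rw [hCY, add_mul] at h1
      exact nt (by push_cast; linarith))
  have hm : ∀ ω : F.Ω, ∀ l < 2, mx2 (gpt F (G k') (ptr F J ω)) (gpt F (G k) (ptr F J ω)) l =
      gpt F (G k') (ptr F J ω) l := fun ω l hl => by
    unfold mx2
    rw [if_pos hl]
  refine ⟨fun ω hω => ?_, fun ω hω => ?_⟩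
  · have h1 := hbal (c := c) (k := k) (k' := k') (q := jq) hc2 W.bal (by positivity) hk hk' hjq
      hoo' hz (fun y l => hbk.degG y l) (fun y l => hbk.depG y l) (W.evs k' hk').ball ω hω
    obtain ⟨Z, hZ⟩ : ∃ Z : ℕ, Z = ⌊C₀ * (ηm * J)⌋₊ := ⟨_, rfl⟩
    have hZY : Z ≤ Y := by
      rw [hZ]
      exact nt ((Nat.floor_le (mul_nonneg (by linarith) hηJ)).trans hY)
    rw [← hZ] at h1
    have h2 : Nc c (g₀ k) ⌊o k * J⌋₊ 2 (2 ^ (Cb + Z) * 2 ^ kk)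
        (fun j => grd (G k' (ptr F J ω) j) (bt F ω))
        (fun j => grd (G k (ptr F J ω) j) (bt F ω)) :=
      nc_un (g' := g₀ k') (a' := ⌊o k' * J⌋₊) (μ := fun l =>
        min (⌊b k l * J⌋₊ + (⌊o k' * J⌋₊ - ⌊o k * J⌋₊)) (g₀ k' l))
        (fun l hl V => by
          rw [cv_subl, cv_grd, cv_grd, ← nrm_en, pow_add]
          exact h1 l (by omega) V) (by positivity)
        (by
          show ⌊o k' * J⌋₊ + g₀ k 0 ≤ min (⌊b k 0 * J⌋₊ + (⌊o k' * J⌋₊ -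
            ⌊o k * J⌋₊)) (g₀ k' 0) + ⌊o k * J⌋₊ + kk
          rcases min_choice (⌊b k 0 * J⌋₊ + (⌊o k' * J⌋₊ - ⌊o k * J⌋₊)) (g₀ k' 0)
            with h | h <;> rw [h] <;> omega)
        (by
          show ⌊o k' * J⌋₊ + g₀ k 1 ≤ min (⌊b k 1 * J⌋₊ + (⌊o k' * J⌋₊ -
            ⌊o k * J⌋₊)) (g₀ k' 1) + ⌊o k * J⌋₊ + kk
          rcases min_choice (⌊b k 1 * J⌋₊ + (⌊o k' * J⌋₊ - ⌊o k * J⌋₊)) (g₀ k' 1)
            with h | h <;> rw [h] <;> omega)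
        (by
          show g₀ k' 0 + g₀ k 1 ≤ min (⌊b k 1 * J⌋₊ + (⌊o k' * J⌋₊ -
            ⌊o k * J⌋₊)) (g₀ k' 1) + g₀ k 0 + kk
          rcases min_choice (⌊b k 1 * J⌋₊ + (⌊o k' * J⌋₊ - ⌊o k * J⌋₊)) (g₀ k' 1)
            with h | h <;> rw [h] <;> omega)
    rw [← pow_add] at h2
    have h3 : Nc c (g₀ k) ⌊o k * J⌋₊ 2 (1 * 2 ^ kk)
        (fun j => grd (G k' (ptr F J ω) j) (bt F ω)) (gpt F (G k') (ptr F J ω)) :=
      nc_un (g' := g₀ k') (a' := ⌊o k' * J⌋₊) (μ := fun l => g₀ k' l)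
        (fun l hl V => n2 ω hω l hl V) zero_le_one u1 u3 u5
    rw [one_mul] at h3
    obtain ⟨K, hK⟩ : ∃ K, K = 100 * (Cb + 20) * Y - 10 := ⟨_, rfl⟩
    have hYc : 20 * Y ≤ (Cb + 20) * Y := Nat.mul_le_mul_right _ (by omega)
    have hYd : (Cb + 20) * Y = Cb * Y + 20 * Y := by ring
    have hYe : Cb ≤ Cb * Y := Nat.le_mul_of_pos_right _ hY1
    have hYf : 100 * (Cb + 20) * Y = 100 * (Cb * Y) + 2000 * Y := by ring
    obtain ⟨X, hX⟩ : ∃ X, X = (kk + (kk + 1) * 2) + (Cb + Z + kk) + (kk + (kk + 1) * 2 + 1) * 2 +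
      1 := ⟨_, rfl⟩
    have h4 : Nc c (g₀ k) ⌊o k * J⌋₊ 2 (2 ^ X) (gpt F (G k') (ptr F J ω))
        (fun j => grd (G k (ptr F J ω) j) (bt F ω)) := by
      rw [hX]
      exact h3.symm2.trans2 h2
    have h5 : Nc c (g₀ k) ⌊o k * J⌋₊ 2 (2 ^ X)
        (mx2 (gpt F (G k') (ptr F J ω)) (gpt F (G k) (ptr F J ω)))
        (fun j => grd (G k (ptr F J ω) j) (bt F ω)) := by
      intro l hl V
      rw [hm ω l hl, en_cong (fun j hj => hm ω j (by omega)) V]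
      exact h4 l hl V
    have hXC : X + (X + 1) * 2 ≤ (100 * (Cb + 20) + Cg + Cg₂ + 10) * Y := by
      have e1 : (100 * (Cb + 20) + Cg + Cg₂ + 10) * Y =
          100 * (Cb * Y) + 2000 * Y + (Cg + Cg₂ + 10) * Y := by ring
      rw [e1, hX, hkk]
      omega
    intro l hl V
    have hCY2 : (2 : ℝ) ^ X ≤ 2 ^ ((100 * (Cb + 20) + Cg + Cg₂ + 10) * Y) :=
      pow_le_pow_right₀ (by norm_num) (by omega)
    rcases Nat.lt_or_ge l 2 with h6 | h6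
    · exact (h5.mono hCY2) l h6 V
    · have h7 : l = 2 := by omega
      rw [h7]
      have h8 : mx2 (gpt F (G k') (ptr F J ω)) (gpt F (G k) (ptr F J ω)) 2 =
          gpt F (G k) (ptr F J ω) 2 := by
        unfold mx2
        rw [if_neg (lt_irrefl 2)]
      rw [h8]
      have h9 := n1 ω hω 2 (by norm_num) V
      have h10 : cv (grd (G k (ptr F J ω) 2) (bt F ω) - gpt F (G k) (ptr F J ω) 2) V =
          -cv (gpt F (G k) (ptr F J ω) 2 - grd (G k (ptr F J ω) 2) (bt F ω)) V := by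
        rw [cv_subl, cv_subl]
        ring
      rw [h10, abs_neg]
      refine h9.trans ?_
      have h11 := h5.en_le (by positivity) le_rfl V
      have h12 := pow1 X 2
      have h13 := en_nonneg c (g₀ k) ⌊o k * J⌋₊
        (mx2 (gpt F (G k') (ptr F J ω)) (gpt F (G k) (ptr F J ω))) 2 V
      calc 1 / 2 ^ g₀ k 2 * en c (g₀ k) ⌊o k * J⌋₊
            (fun j => grd (G k (ptr F J ω) j) (bt F ω)) 2 V ≤
            1 / 2 ^ g₀ k 2 * (2 ^ ((X + 1) * 2) * en c (g₀ k) ⌊o k * J⌋₊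
              (mx2 (gpt F (G k') (ptr F J ω)) (gpt F (G k) (ptr F J ω))) 2 V) :=
            mul_le_mul_of_nonneg_left (h11.trans (mul_le_mul_of_nonneg_right h12 h13))
              (by positivity)
        _ = 2 ^ ((X + 1) * 2) / 2 ^ g₀ k 2 * en c (g₀ k) ⌊o k * J⌋₊
              (mx2 (gpt F (G k') (ptr F J ω)) (gpt F (G k) (ptr F J ω))) 2 V := by ring
        _ ≤ _ := mul_le_mul_of_nonneg_right (div_le_div_of_nonneg_right
            (pow_le_pow_right₀ (by norm_num) (by omega)) (by positivity)) h13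
  · have h1 : Nc c (g₀ k') ⌊o k' * J⌋₊ 2 (2 ^ 0)
        (fun j => grd (G k' (ptr F J ω) j) (bt F ω)) (gpt F (G k') (ptr F J ω)) := by
      rw [pow_zero]
      exact n2 ω hω
    have h2 := h1.symm2.mono (pow_le_pow_right₀ (by norm_num : (1 : ℝ) ≤ 2)
      (show 0 + (0 + 1) * 2 ≤ 4 by norm_num))
    intro l hl V
    rw [hm ω l hl, en_cong (fun j hj => hm ω j (by omega)) V]
    exact h2 l hl V

/-- **The second derivatives at the window `k`**, over finitely many windows. `k'`: a deeper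
window; `W`: a rational number above the window. -/
theorem sto_nat (m D : ℕ) (hD : 1 ≤ D) : ∃ C : ℕ, 1 ≤ C ∧ ∀ {S : PCl m}
    {P : List (Fin m) × Fin m → ℝ → ℝ → ℝ} {θ : ℝ} {c : ℕ → Fin m} {R : ℕ → Prop}
    {C₀ a Eb ηm ζ e h κ₀ : ℝ} {o ε p' η σ : ℕ → ℝ} {lv be : ℕ → ℕ → ℝ} {Dr N M k k' : ℕ} {W : ℚ},
    ThrOf (chsys m θ) S P → TmH S → Set.InjOn c (Set.Iio 3) → D ≤ Dr → k ≤ N → k' ≤ N →
    0 < h → 0 < ζ → 0 < κ₀ → C₀ * ηm ≤ ζ → 0 ≤ W → W < 1 → e < θ * W → Eb + C * ζ ≤ e →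
    o k ≤ W → o k ≤ o k' →
    (∀ l < 2, bet P c l W W + h ≤ 1 ∧ bet P c l W W + h + o k ≤ lv k l + W + ζ) →
    (∀ l ≤ 2, Eb + lv k l + C * ζ ≤ 1) → (∀ l ≤ 1, Eb + lv k' l + C * ζ ≤ 1) → C * ζ ≤ lv k 0 →
    |(lv k 0 - o k) - (lv k' 0 - o k')| ≤ ζ → lv k 1 - o k + C * ζ ≤ lv k' 1 - o k' →
    ∃ κ' : ℝ, 0 < κ' ∧ Bas S (fun J F A => ∀ (z : ℕ → ℕ → ℕ) (κ : ℝ) (b : ℕ → ℕ → ℝ)
      (B : F.Ω → Prop) (gc gT g₀ : ℕ → ℕ → ℕ)
      (G : ℕ → PtT F → ℕ → MvPolynomial (Option (Fin m)) ℝ)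
      (H : ℕ → LnT F → ℕ → MvPolynomial (Option (Fin m)) ℝ)
      (T : ℕ → PtT F → ℕ → MvPolynomial (Option (Fin m)) ℝ)
      (TH : ℕ → LnT F → ℕ → MvPolynomial (Option (Fin m)) ℝ)
      (Gt : ℕ → PtT F → MvPolynomial (Option (Fin m)) ℝ)
      (Ht : ℕ → LnT F → MvPolynomial (Option (Fin m)) ℝ) (jq : ℕ),
      Wins F c 2 D Dr N M R C₀ a Eb ηm o ε p' η σ lv be b κ z B gc gT g₀ G H T TH Gt Ht →
      κ ≤ κ' → Sub B A → κ₀ * Pe F.p A ≤ Pe F.p B → jq ≤ M →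
      z k jq = ⌊o k' * J⌋₊ - ⌊o k * J⌋₊ →
      ∃ B' : F.Ω → Prop, Sub B' B ∧ Pe F.p B ≤ C * Pe F.p B' ∧
        ∀ l < 3, Pool.F5.NatH F c ⌊o k * J⌋₊ (g₀ k) B' (G k) ⌊C * ζ * J⌋₊ l) := by
  obtain ⟨C₁, hC₁, hnc⟩ := win_nc2 D
  obtain ⟨C₂, hC₂, hlvl⟩ := Pool.F5.lvl_two m D 2 hD le_rfl
  obtain ⟨C, hC⟩ : ∃ C, C = 4 * (C₂ * (C₁ + 4)) + 2 * C₁ + 200 := ⟨_, rfl⟩
  refine ⟨C, by omega, ?_⟩
  intro S P θ c R C₀ a Eb ηm ζ e h κ₀ o ε p' η σ lv be Dr N M k k' W hP hT hc hDr hk hk' hh hζ hκ₀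
    hCη hW0 hW1 heW hEe hoW hoo hpl hnum hnum' hlow hone hdeep
  obtain ⟨κ', hκ', hb⟩ := hlvl hP hT c hc W e h ζ κ₀ hW0 hW1 heW hh (hpl 0 (by norm_num)).1
    (hpl 1 (by norm_num)).1 hζ hκ₀
  obtain ⟨J₁, hJ₁⟩ := exists_nat_gt (1 / ζ)
  refine ⟨κ', hκ', Bas.mono J₁ hb ?_⟩
  intro J hJ F A hA z κ b B gc gT g₀ G H T TH Gt Ht jq Wn hκκ hBA hκB hjq hz
  have hp := Pe_nonneg F.isLaw
  have hJ0 : (0 : ℝ) ≤ J := Nat.cast_nonneg J
  have nt : ∀ {x y : ℕ}, (x : ℝ) ≤ y → x ≤ y := fun h => by exact_mod_cast h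
  have mJ : ∀ {x y : ℝ}, x ≤ y → x * J ≤ y * J := fun h => mul_le_mul_of_nonneg_right h hJ0
  have hζJ : 1 ≤ ζ * J := by
    have : 1 / ζ < J := hJ₁.trans_le (by exact_mod_cast hJ)
    rw [div_lt_iff₀ hζ] at this
    linarith
  obtain ⟨Y, hY⟩ : ∃ Y : ℕ, Y = ⌊ζ * J⌋₊ + 1 := ⟨_, rfl⟩
  have hY1 : ζ * J ≤ Y := by
    rw [hY]
    push_cast
    exact (Nat.lt_floor_add_one _).le
  have hY2 : (Y : ℝ) ≤ 2 * (ζ * J) := by
    rw [hY]
    push_cast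
    have := Nat.floor_le (by linarith : 0 ≤ ζ * (J : ℝ))
    linarith
  have hYone : 1 ≤ Y := by omega
  have hYR : (1 : ℝ) ≤ Y := by exact_mod_cast hYone
  have hηm0 : 0 ≤ ηm := (Wn.hη k hk).1.trans (Wn.hη k hk).2
  have hCY : C₀ * (ηm * J) ≤ Y := by
    have : C₀ * (ηm * J) = C₀ * ηm * J := by ring
    rw [this]
    exact (mJ hCη).trans hY1
  have hηζ : ηm ≤ ζ := (le_mul_of_one_le_left hηm0 Wn.C1).trans hCη
  have hηJ : ηm * J ≤ ζ * J := mJ hηζ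
  have hEb := Wn.Eb0
  have hEbJ : 0 ≤ Eb * J := mul_nonneg hEb hJ0
  -- the constants
  obtain ⟨kk, hkk⟩ : ∃ kk, kk = C₁ * Y := ⟨_, rfl⟩
  obtain ⟨Ee, hEe'⟩ : ∃ Ee, Ee = kk + 3 * Y + 1 := ⟨_, rfl⟩
  have hkkY : Y ≤ kk := by
    rw [hkk]
    exact Nat.le_mul_of_pos_left _ hC₁
  have hEeY : Ee ≤ (C₁ + 4) * Y := by
    rw [hEe', hkk, add_mul]
    omega
  obtain ⟨Λ, hΛ⟩ : ∃ Λ : ℝ, Λ = C₂ * (C₁ + 4) * (ζ * J) := ⟨_, rfl⟩
  have hΛ0 : 0 ≤ Λ := by rw [hΛ]; positivity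
  have hCE : ((C₂ * Ee : ℕ) : ℝ) ≤ 2 * Λ := by
    have h1 : ((C₂ * Ee : ℕ) : ℝ) ≤ ((C₂ * ((C₁ + 4) * Y) : ℕ) : ℝ) := by
      exact_mod_cast Nat.mul_le_mul_left C₂ hEeY
    refine h1.trans ?_
    push_cast
    have h2 : (C₂ : ℝ) * (C₁ + 4) * Y ≤ C₂ * (C₁ + 4) * (2 * (ζ * J)) :=
      mul_le_mul_of_nonneg_left hY2 (by positivity)
    rw [hΛ]
    linarith
  have hCζ : C * ζ * J = 4 * Λ + 2 * (C₁ * (ζ * J)) + 200 * (ζ * J) := by
    rw [hC, hΛ]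
    push_cast
    ring
  have hC₁J : (C₁ : ℝ) * Y ≤ 2 * (C₁ * (ζ * J)) := by
    have := mul_le_mul_of_nonneg_left hY2 (Nat.cast_nonneg (α := ℝ) C₁)
    linarith
  have hC₁J0 : 0 ≤ (C₁ : ℝ) * (ζ * J) := by positivity
  obtain ⟨e₀, he₀⟩ : ∃ e₀, e₀ = ⌊(Eb + 2 * ηm) * J⌋₊ := ⟨_, rfl⟩
  have hfE : (e₀ : ℝ) ≤ Eb * J + 2 * (ζ * J) := by
    rw [he₀]
    refine (Nat.floor_le (mul_nonneg (by linarith) hJ0)).trans ?_
    rw [add_mul]
    linarith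
  have hnumJ : ∀ l ≤ 2, Eb * J + lv k l * J + C * ζ * J ≤ J := by
    intro l hl
    have h2 := mJ (hnum l hl)
    rw [add_mul, add_mul, one_mul] at h2
    exact h2
  have hnumJ' : ∀ l ≤ 1, Eb * J + lv k' l * J + C * ζ * J ≤ J := by
    intro l hl
    have h2 := mJ (hnum' l hl)
    rw [add_mul, add_mul, one_mul] at h2
    exact h2
  have hone1 := abs_le.1 hone
  have hone2 := mJ hone1.1
  have hone3 := mJ hone1.2
  have hdp := mJ hdeep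
  rw [add_mul, sub_mul, sub_mul] at hdp
  -- the near lists
  obtain ⟨hN1, hN2⟩ := hnc Wn (k := k) (k' := k') (jq := jq) (Y := Y) hc hk hk' hjq hz hoo hCY
    hYone (by linarith) (by linarith) (by
      rw [sub_mul, sub_mul]
      have : 0 ≤ C * ζ * J := by rw [hCζ]; positivity
      linarith)
    (fun l hl => by
      have := hnumJ l hl
      rw [add_mul]
      linarith) (fun l hl => by
      have := hnumJ' l hl
      rw [add_mul]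
      linarith)
  rw [← hkk] at hN1
  obtain ⟨Sv, hSv⟩ : ∃ Sv : PtT F → ℕ → Option (Fin m) → ℝ,
    Sv = fun y => mx2 (gpt F (G k') y) (gpt F (G k) y) := ⟨_, rfl⟩
  have hSd : ∀ y l, CvC c l (Sv y l) := by
    intro y
    rw [hSv]
    exact mx2_dep (fun l => cvc_grd ((Wn.evs k' hk').ball.depG y l) _)
      (fun l => cvc_grd ((Wn.evs k hk).ball.depG y l) _)
  have hWok := Pool.F5.wins_ok (Y := kk) Wn hk (hCY.trans (by exact_mod_cast hkkY))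
    (fun _ h => h) hSd (fun ω hω => by
      rw [hSv]
      exact hN1 ω hω)
  rw [← he₀] at hWok
  have hWR : (0 : ℝ) ≤ W := by exact_mod_cast hW0
  have hWR1 : (W : ℝ) < 1 := by exact_mod_cast hW1
  have haJ : ⌊o k * J⌋₊ ≤ J := by
    have h2 : o k * J ≤ J := by
      have := mJ (hoW.trans hWR1.le)
      rwa [one_mul] at this
    have h3 := Nat.floor_le_floor h2
    rwa [Nat.floor_natCast] at h3
  have hgl := fun (l : ℕ) (hl : l ≤ 2) => Wn.g_num hk hl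
  have hE5 : kk + 3 * Y + 1 = Ee := hEe'.symm
  obtain ⟨B', ψ, ψH, k1, k2, -, -, k5⟩ := hA ⌊o k * J⌋₊ ⌊o k * J⌋₊ (⌊a * J⌋₊ - ⌊o k * J⌋₊) e₀ kk
    (3 * Y) 0 (g₀ k) (gT k) _ (G k) (H k) (T k) (TH k) (Ht k) Sv B B haJ
    (Nat.floor_le_floor (mJ hoW)) (hY1.trans (by exact_mod_cast hkkY)) (by
      rw [hE5]
      refine Nat.le_floor ?_
      push_cast at hCE ⊢
      have := mJ hEe
      rw [add_mul] at this
      linarith) (fun j hj => by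
      rw [hE5]
      obtain ⟨-, -, -, g2, -⟩ := hgl j (by omega)
      have h2 := hnumJ j (by omega)
      exact nt (by push_cast at hCE ⊢; linarith)) (by
      obtain ⟨-, -, -, g2, -⟩ := hgl 2 (by omega)
      have h2 := hnumJ 2 (by omega)
      exact nt (by linarith)) (by
      rw [hE5]
      obtain ⟨-, -, g1, -, -⟩ := hgl 0 (by omega)
      have h2 := mJ hlow
      exact nt (by push_cast at hCE ⊢; linarith)) (fun l hl => by
      obtain ⟨-, -, g1, -, -⟩ := hgl l (by omega)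
      obtain ⟨h2, h3⟩ := hpl l (by omega)
      have h4 : (⌊(bet P c l W W + h) * J⌋₊ : ℝ) ≤ (bet P c l W W + h) * J := by
        refine Nat.floor_le (mul_nonneg ?_ hJ0)
        have : (0 : ℝ) ≤ bet P c l W W := hWR.trans (hP.low _ _ _ hWR le_rfl hWR1.le)
        linarith
      have h5 := mJ h3
      rw [add_mul, add_mul, add_mul] at h5
      have h6 := (Nat.lt_floor_add_one ((W : ℝ) * J)).le
      have h7 : (⌊o k * J⌋₊ : ℝ) ≤ o k * J := Nat.floor_le (mul_nonneg (Wn.ho k hk).1 hJ0)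
      refine nt ?_
      push_cast
      linarith) (fun _ h => h) hBA hκB hWok (by
      intro ω hω
      rw [hE5]
      have h1 := star_vel (S := Sv) (i := 1) (r := 1) (X := Y + 4) le_rfl (fun ω hω => by
        have h2 := (hN2 ω hω).mono (pow_le_pow_right₀ (by norm_num : (1 : ℝ) ≤ 2)
          (show 4 ≤ Y + 4 by omega))
        rw [hSv]
        exact h2) (fun ω ν hω hν hpt l hl => (Wn.vel hk' hCY ω ν hω hν hpt l (by omega)).trans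
        (div_le_div_of_nonneg_right (mul_le_mul_of_nonneg_right (pow_le_pow_right₀ (by norm_num)
          (by omega)) (by positivity)) (by positivity))) ω ω hω hω rfl
      rw [Pool.D2R.dd_afp] at h1
      refine h1.trans ?_
      rw [div_le_div_iff₀ (by positivity) (by positivity), ← pow_add, ← pow_add, ← pow_add,
        ← pow_add]
      refine pow_le_pow_right₀ (by norm_num) ?_
      obtain ⟨-, -, -, a1, -⟩ := Wn.g_num hk (show 1 ≤ 2 by omega)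
      obtain ⟨-, -, a2, -⟩ := Wn.g_num hk' (show 1 ≤ 2 by omega)
      have a3 : (⌊o k' * J⌋₊ : ℝ) ≤ o k' * J := Nat.floor_le (mul_nonneg (Wn.ho k' hk').1 hJ0)
      have a4 := (Nat.lt_floor_add_one (o k * (J : ℝ))).le
      refine nt ?_
      push_cast at hCE ⊢
      linarith)
    (Pool.ISO.relvF_exp ((Wn.evs k hk).relb.mono hDr hκκ) (by
      refine le_trans ?_ hkkY
      refine nt ((Nat.floor_le (mul_nonneg (Wn.hη k hk).1 hJ0)).trans ?_)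
      have := mJ (Wn.hη k hk).2
      linarith))
  rw [hE5] at k5
  refine ⟨B', k1, k2.trans (mul_le_mul_of_nonneg_right ?_ (hp _)), fun l hl =>
    (k5 l (by omega)).sub (fun _ h => h) (Nat.le_floor ?_)⟩
  · have : C₂ ≤ C := by
      rw [hC]
      nlinarith [Nat.zero_le (C₂ * C₁)]
    exact_mod_cast this
  · linarith

end Pool.JST
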