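import Pool.Agent.H88.D2.Stv
import Pool.Agent.H23.D2.Wno
import Pool.Agent.H64.F5.NatH

/-!
# One rough and one static coordinate, over finitely many windows

`StvN`: the numbers. `stv_win`: the class theorem `stv_cls` over 23's `Wins`.
-/

set_option autoImplicit false

namespace Pool.JST

open Finset Real MvPolynomial
open Pool.Agent.H49.Ent Pool.Agent.H32.Dense Pool.STK Pool.KA Pool.KSAT Pool.K2S Pool.PB Pool.S6C
open Pool.GEN Pool.CHT Pool.CHX Pool.ISO Pool.D2R Pool.D2Z Pool.D2F Pool.RCV Pool.AFT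
open Pool.LBT (ThrOf)
open Pool.FLF (Fam.sub)

variable {m J : ℕ}

/-- Near lists from different denominators. -/
theorem nc_un {c : ℕ → Fin m} {g g' μ : ℕ → ℕ} {a a' k : ℕ} {K : ℝ}
    {χ φ : ℕ → Option (Fin m) → ℝ} (h : ∀ l < 2, ∀ V : Option (Fin m) → ℝ,
      |cv (φ l - χ l) V| ≤ K / 2 ^ μ l * en c g' a' χ l V) (hK : 0 ≤ K)
    (u0 : a' + g 0 ≤ μ 0 + a + k) (u1 : a' + g 1 ≤ μ 1 + a + k)
    (u2 : g' 0 + g 1 ≤ μ 1 + g 0 + k) : Nc c g a 2 (K * 2 ^ k) χ φ := by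
  intro l hl V
  have hq : ∀ {x y z w : ℕ}, x + y ≤ z + w + k →
      (2 : ℝ) ^ x / 2 ^ z ≤ 2 ^ k * (2 ^ w / 2 ^ y) := by
    intro x y z w h1
    rw [← mul_div_assoc, div_le_div_iff₀ (by positivity) (by positivity), ← pow_add, ← pow_add,
      ← pow_add]
    exact pow_le_pow_right₀ (by norm_num) (by omega)
  refine (h l hl V).trans ?_
  rcases Nat.lt_succ_iff_lt_or_eq.1 hl with h1 | h1
  · rw [Nat.lt_one_iff.1 h1, en_zero, en_zero]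
    calc K / 2 ^ μ 0 * (2 ^ a' * |V none|) = K * (2 ^ a' / 2 ^ μ 0) * |V none| := by ring
      _ ≤ K * (2 ^ k * (2 ^ a / 2 ^ g 0)) * |V none| :=
          mul_le_mul_of_nonneg_right (mul_le_mul_of_nonneg_left (hq u0) hK) (abs_nonneg _)
      _ = _ := by ring
  · rw [h1, en_succ, en_succ, en_zero, en_zero]
    calc K / 2 ^ μ 1 * (2 ^ a' * |V none| + 2 ^ g' 0 * |V (some (c 0)) - cv (χ 0) V|) =
          K * (2 ^ a' / 2 ^ μ 1) * |V none| +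
            K * (2 ^ g' 0 / 2 ^ μ 1) * |V (some (c 0)) - cv (χ 0) V| := by ring
      _ ≤ K * (2 ^ k * (2 ^ a / 2 ^ g 1)) * |V none| +
            K * (2 ^ k * (2 ^ g 0 / 2 ^ g 1)) * |V (some (c 0)) - cv (χ 0) V| :=
          add_le_add (mul_le_mul_of_nonneg_right (mul_le_mul_of_nonneg_left (hq u1) hK)
            (abs_nonneg _)) (mul_le_mul_of_nonneg_right (mul_le_mul_of_nonneg_left
            (hq (by omega)) hK) (abs_nonneg _))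
      _ = _ := by ring

/-- **The numbers**: the windows `o 0 ≤ o 1 ≤ o 2 ≤ o 3`, the radius `a`, the levels `lv j l` of the
balls, the level `β` of the static coordinate, the precisions `p j` of the target; the pair
`(a', w')` of rational numbers near `(o 2, o 1)`. -/
structure StvN (P : List (Fin m) × Fin m → ℝ → ℝ → ℝ) (c : ℕ → Fin m) (C ζ Eb e h a : ℝ)
    (a' w' : ℚ) (o : ℕ → ℝ) (lv : ℕ → ℕ → ℝ) (be : ℕ → ℝ) (p : ℕ → ℝ) : Prop where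
  o01 : o 0 + C * ζ ≤ o 1
  o12 : o 1 ≤ o 2
  o23 : o 2 ≤ o 3
  o3 : o 3 < 1
  a1 : a ≤ 1
  wa : w' ≤ a'
  w0 : 0 ≤ w'
  a'1 : a' < 1
  oa : o 2 ≤ a'
  ow : o 1 ≤ w'
  eb : Eb + C * ζ ≤ e
  be2 : be 2 ≤ be 0 + ζ / 4
  be3 : be 3 ≤ be 0 + ζ / 4
  sp : ∀ j < 4, 1 ≤ j → C * ζ ≤ p j
  sb : C * ζ ≤ be 0
  sl : ∀ j < 4, ∀ l < 3, C * ζ ≤ lv j l
  rl : ∀ j < 4, ∀ l < 3, Eb + lv j l + C * ζ ≤ 1
  r0 : Eb + lv 0 0 + (a - o 0) + C * ζ ≤ 1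
  rb : Eb + be 0 + C * ζ ≤ 1
  one : ∀ j < 4, |(lv j 0 - o j) - (lv 0 0 - o 0)| ≤ ζ / 64
  n1 : ∀ j < 4, 2 ≤ j → lv 0 0 + (a - o 0) + lv j 1 ≤ lv j 0 + be 0 + ζ / 4
  n4 : lv 0 0 + (a - o 0) + lv 2 2 ≤ lv 2 0 + p 1 + ζ / 4
  n4' : lv 2 2 ≤ p 1 + ζ / 4
  n5 : be 0 + lv 2 2 + o 0 + C * ζ ≤ lv 2 1 + p 1 + o 1
  n5' : be 0 + o 0 + C * ζ ≤ lv 2 1 + (a - o 2) + o 1
  k1 : o 3 + lv 2 1 + C * ζ ≤ lv 3 1 + o 2
  f0 : bet P c 0 a' a' + h + o 2 ≤ lv 2 0 + a' + ζ / 4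
  f1 : bet P c 1 a' a' + h + o 2 ≤ lv 2 1 + a' + ζ / 4
  f2 : bet P c 2 a' w' + h + o 2 + C * ζ ≤ lv 2 2 + a'
  h0 : bet P c 0 a' a' + h ≤ 1
  h1 : bet P c 1 a' a' + h ≤ 1
  h2 : bet P c 2 a' w' + h ≤ 1
  b0 : 0 ≤ bet P c 0 a' a'
  b1 : 0 ≤ bet P c 1 a' a'
  b2 : 0 ≤ bet P c 2 a' w'

/-- **One rough and one static coordinate**, over finitely many windows. -/
theorem stv_win (m D Dr : ℕ) (hD : 1 ≤ D) (hDr : D ≤ Dr) : ∃ C : ℝ, 1 ≤ C ∧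
    ∀ {S : PCl m} {P : List (Fin m) × Fin m → ℝ → ℝ → ℝ} {θ : ℝ} {c : ℕ → Fin m}
    {R : ℕ → Prop} {C₀ a Eb ηm ζ h e κ : ℝ} {o ε p' η σ : ℕ → ℝ} {lv be : ℕ → ℕ → ℝ}
    {N M : ℕ} {f : ℕ → ℕ} {a' w' : ℚ}, ThrOf (chsys m θ) S P → TmH S →
    Set.InjOn c (Set.Iio 3) → (∀ j < 4, f j ≤ N) → R 0 → ¬ R 1 → 0 < ζ → 0 < h → 0 < κ →
    0 ≤ θ → e < θ * w' → 64 * (C₀ * ηm) ≤ ζ →
    StvN P c C ζ Eb e h a a' w' (fun j => o (f j)) (fun j => lv (f j)) (fun j => be (f j) 1)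
      (fun j => p' (f j)) →
    Bas S (fun J F A => ∀ (z : ℕ → ℕ → ℕ) (κ' K : ℝ) (b : ℕ → ℕ → ℝ) (B B' : F.Ω → Prop)
      (gc gT g₀ : ℕ → ℕ → ℕ) (G : ℕ → PtT F → ℕ → MvPolynomial (Option (Fin m)) ℝ)
      (H : ℕ → LnT F → ℕ → MvPolynomial (Option (Fin m)) ℝ)
      (T : ℕ → PtT F → ℕ → MvPolynomial (Option (Fin m)) ℝ)
      (TH : ℕ → LnT F → ℕ → MvPolynomial (Option (Fin m)) ℝ)
      (Gt : ℕ → PtT F → MvPolynomial (Option (Fin m)) ℝ)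
      (Ht : ℕ → LnT F → MvPolynomial (Option (Fin m)) ℝ) (jq kn : ℕ),
      Wins F c 2 D Dr N M R C₀ a Eb ηm o ε p' η σ lv be b κ' z B gc gT g₀ G H T TH Gt Ht →
      0 ≤ κ' → jq ≤ M → z (f 2) jq = ⌊o (f 3) * J⌋₊ - ⌊o (f 2) * J⌋₊ → Sub B' B →
      Pe F.p B ≤ K * Pe F.p B' → 0 < K → κ' * K * 2 ^ 24 ≤ 1 → Sub B A →
      (∀ l < 3, Pool.F5.NatH F c ⌊o (f 2) * J⌋₊ (g₀ (f 2)) B' (G (f 2)) kn l) →
      8 * (kn : ℝ) ≤ ζ * J → Pe F.p B' < κ * Pe F.p A) := by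
  obtain ⟨Cs, hCs, hcls⟩ := stv_cls m D Dr hD hDr
  obtain ⟨Cb, hbal⟩ := bale_dd D 2
  refine ⟨2 * Cs + 8, by
    have : (0 : ℝ) ≤ Cs := Nat.cast_nonneg _
    linarith, ?_⟩
  intro S P θ c R C₀ a Eb ηm ζ h e κ o ε p' η σ lv be N M f a' w' hP hT hc hf hR0 hR1 hζ hh hκ
    hθ0 hew hηζ hN
  have hb := hcls hP hT c hc a' w' (o (f 3)) e h ζ κ hθ0 hN.w0 hN.wa hN.a'1 hN.o3 hew hh hN.h0
    hN.h1 hN.h2 hζ hκ
  obtain ⟨J₀, hJ₀⟩ := exists_nat_ge ((64 + 8 * Cb) / ζ)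
  refine Bas.mono J₀ hb ?_
  intro J hJJ F A hA z κ' K b B B' gc gT g₀ G H T TH Gt Ht jq kn W hκ'0 hjq hz hBB hPK hK hκK hBA
    hNat hkn
  have hJ : (0 : ℝ) ≤ J := Nat.cast_nonneg J
  have hX : 64 + 8 * (Cb : ℝ) ≤ ζ * J := by
    have h1 : (J₀ : ℝ) ≤ J := by exact_mod_cast hJJ
    have h2 := hJ₀.trans h1
    rw [div_le_iff₀ hζ] at h2
    linarith
  have hCb0 : (0 : ℝ) ≤ Cb := Nat.cast_nonneg _
  have hCs0 : (0 : ℝ) ≤ Cs := Nat.cast_nonneg _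
  have hp := Pe_nonneg F.isLaw
  have hC1 := W.C1
  have hηm0 : 0 ≤ ηm := (W.hη _ (hf 0 (by norm_num))).1.trans (W.hη _ (hf 0 (by norm_num))).2
  have hηm1 : 64 * (C₀ * (ηm * J)) ≤ ζ * J := by
    have := mul_le_mul_of_nonneg_right hηζ hJ
    linarith
  have hηm2 : 64 * (ηm * J) ≤ ζ * J := by
    have h1 : ηm * J ≤ C₀ * (ηm * J) := le_mul_of_one_le_left (mul_nonneg hηm0 hJ) hC1
    linarith
  have hηm3 : 0 ≤ ηm * J := mul_nonneg hηm0 hJ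
  have nt : ∀ {x y : ℕ}, (x : ℝ) ≤ y → x ≤ y := fun h => by exact_mod_cast h
  have mJ : ∀ {x y : ℝ}, x ≤ y → x * J ≤ y * J := fun h => mul_le_mul_of_nonneg_right h hJ
  -- the unit
  obtain ⟨Y, hY⟩ : ∃ Y : ℕ, Y = ⌈ζ * J⌉₊ := ⟨_, rfl⟩
  have hY1 : ζ * J ≤ Y := by
    rw [hY]
    exact Nat.le_ceil _
  have hY2 : (Y : ℝ) < ζ * J + 1 := by
    rw [hY]
    exact Nat.ceil_lt_add_one (by positivity)
  obtain ⟨n, hn⟩ : ∃ n, n = Cs * (Y + 1) := ⟨_, rfl⟩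
  have hn1 : (n : ℝ) ≤ 2 * Cs * (ζ * J) := by
    rw [hn]
    push_cast
    have h1 : (Cs : ℝ) * (Y + 1) ≤ Cs * (2 * (ζ * J)) :=
      mul_le_mul_of_nonneg_left (by linarith) hCs0
    linarith
  have hn0 : (0 : ℝ) ≤ n := Nat.cast_nonneg _
  have hCn : (n : ℝ) + 8 * (ζ * J) ≤ (2 * Cs + 8) * ζ * J := by
    have e1 : (2 * Cs + 8) * ζ * J = 2 * Cs * (ζ * J) + 8 * (ζ * J) := by ring
    linarith
  -- the sides
  have hW1 : ∀ j < 4, (⌊o (f j) * J⌋₊ : ℝ) ≤ o (f j) * J := fun j hj =>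
    Nat.floor_le (mul_nonneg (W.ho _ (hf j hj)).1 hJ)
  have hW2 : ∀ j, o (f j) * J < (⌊o (f j) * J⌋₊ : ℝ) + 1 := fun j => Nat.lt_floor_add_one _
  have ha0 : 0 ≤ a := (W.ho _ (hf 0 (by norm_num))).1.trans (W.ho _ (hf 0 (by norm_num))).2
  have hA1 : (⌊a * J⌋₊ : ℝ) ≤ a * J := Nat.floor_le (mul_nonneg ha0 hJ)
  have hA2 : a * J < (⌊a * J⌋₊ : ℝ) + 1 := Nat.lt_floor_add_one _
  have hoA : ∀ j < 4, ⌊o (f j) * J⌋₊ ≤ ⌊a * J⌋₊ := fun j hj =>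
    Nat.floor_le_floor (mJ (W.ho _ (hf j hj)).2)
  have hg : ∀ j < 4, ∀ l < 3, (lv (f j) l * J - ζ * J / 64 - 1 ≤ (⌊b (f j) l * J⌋₊ : ℝ)) ∧
      (lv (f j) l * J - ζ * J / 64 ≤ (g₀ (f j) l : ℝ)) ∧ ((g₀ (f j) l : ℝ) ≤ lv (f j) l * J) ∧
      (lv (f j) l * J - ζ * J / 64 + (⌊a * J⌋₊ - ⌊o (f j) * J⌋₊) ≤ (gc (f j) l : ℝ)) := by
    intro j hj l hl
    obtain ⟨h1, h2, h3, h4, h5, h6⟩ := W.g_num (hf j hj) (show l ≤ 2 by omega)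
    exact ⟨by linarith, by linarith, h4, by linarith⟩
  have hT0 : ∀ j < 4, (lv (f j) 0 * J - ζ * J / 64 + (⌊a * J⌋₊ - ⌊o (f j) * J⌋₊) ≤
      (gT (f j) 0 : ℝ)) ∧
      ((gT (f j) 0 : ℝ) ≤ lv (f j) 0 * J + (⌊a * J⌋₊ - ⌊o (f j) * J⌋₊)) := by
    intro j hj
    obtain ⟨h1, h2⟩ := (W.t_num (hf j hj) (show 0 < 2 by norm_num)).1 hR0
    exact ⟨by linarith, h2⟩
  have hT1 : ∀ j < 4, (be (f j) 1 * J - ζ * J / 64 ≤ (gT (f j) 1 : ℝ)) ∧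
      ((gT (f j) 1 : ℝ) ≤ be (f j) 1 * J) := by
    intro j hj
    obtain ⟨h1, h2⟩ := (W.t_num (hf j hj) (show 1 < 2 by norm_num)).2 hR1
    exact ⟨by linarith, h2⟩
  have hpp : ∀ j, p' (f j) * J < (⌊p' (f j) * J⌋₊ : ℝ) + 1 := fun j => Nat.lt_floor_add_one _
  have hone : ∀ j < 4, (lv (f j) 0 - o (f j)) * J ≤ (lv (f 0) 0 - o (f 0)) * J + ζ * J / 64 ∧
      (lv (f 0) 0 - o (f 0)) * J ≤ (lv (f j) 0 - o (f j)) * J + ζ * J / 64 := by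
    intro j hj
    have h1 := abs_le.1 (hN.one j hj)
    have h2 := mJ h1.1
    have h3 := mJ h1.2
    exact ⟨by linarith, by linarith⟩
  have hJ1 : (⌊a * J⌋₊ : ℝ) ≤ J := by
    have := mJ hN.a1
    linarith
  have hw23 : ⌊o (f 2) * J⌋₊ ≤ ⌊o (f 3) * J⌋₊ := Nat.floor_le_floor (mJ hN.o23)
  have hE := fun (j : ℕ) (hj : j < 4) => W.evs (f j) (hf j hj)
  have m0 := hone 0 (by norm_num)
  have m1 := hone 1 (by norm_num)
  have m2 := hone 2 (by norm_num)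
  have m3 := hone 3 (by norm_num)
  have w0a := hW1 0 (by norm_num)
  have w1a := hW1 1 (by norm_num)
  have w2a := hW1 2 (by norm_num)
  have w3a := hW1 3 (by norm_num)
  have w0b := hW2 0
  have w1b := hW2 1
  have w2b := hW2 2
  have w3b := hW2 3
  obtain ⟨Z, hZ⟩ : ∃ Z : ℕ, Z = ⌊C₀ * (ηm * J)⌋₊ := ⟨_, rfl⟩
  have hZ1 : (Z : ℝ) ≤ ζ * J / 64 := by
    rw [hZ]
    refine (Nat.floor_le (mul_nonneg (by linarith) hηm3)).trans ?_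
    linarith
  -- the gradients of the two balls
  have hnc : ∀ ω, B' ω → Nc c (g₀ (f 2)) ⌊o (f 2) * J⌋₊ 2 (2 ^ Y)
      (fun j => grd (G (f 2) (ptr F J ω) j) (bt F ω))
      (fun j => grd (G (f 3) (ptr F J ω) j) (bt F ω)) := by
    intro ω hω
    obtain ⟨kk, hkk⟩ : ∃ kk : ℕ, kk = ⌈ζ * J / 8⌉₊ := ⟨_, rfl⟩
    have hkk1 : ζ * J / 8 ≤ kk := by
      rw [hkk]
      exact Nat.le_ceil _
    have hkk2 : (kk : ℝ) < ζ * J / 8 + 1 := by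
      rw [hkk]
      exact Nat.ceil_lt_add_one (by positivity)
    have h1 := hbal (c := c) (k := f 2) (k' := f 3) (q := jq) (hc.mono fun x hx => by
      rw [Set.mem_Iio] at hx ⊢
      omega) W.bal (by positivity) (hf 2 (by norm_num)) (hf 3 (by norm_num)) hjq hw23 hz
      (fun y l => (hE 2 (by norm_num)).ball.degG y l)
      (fun y l => (hE 2 (by norm_num)).ball.depG y l) (hE 3 (by norm_num)).ball ω (hBB ω hω)
    rw [← hZ] at h1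
    obtain ⟨p1, p2, p3, p4⟩ := hg 2 (by norm_num) 0 (by norm_num)
    obtain ⟨q1, q2, q3, q4⟩ := hg 3 (by norm_num) 0 (by norm_num)
    obtain ⟨r1, r2, r3, r4⟩ := hg 2 (by norm_num) 1 (by norm_num)
    obtain ⟨s1, s2, s3, s4⟩ := hg 3 (by norm_num) 1 (by norm_num)
    have hk1 := mJ hN.k1
    have u0 : g₀ (f 2) 0 ≤ ⌊b (f 2) 0 * J⌋₊ + kk := nt (by push_cast; linarith)
    have u1 : ⌊o (f 3) * J⌋₊ + g₀ (f 2) 0 ≤ g₀ (f 3) 0 + ⌊o (f 2) * J⌋₊ + kk :=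
      nt (by push_cast; linarith)
    have u2 : g₀ (f 2) 1 ≤ ⌊b (f 2) 1 * J⌋₊ + kk := nt (by push_cast; linarith)
    have u3 : ⌊o (f 3) * J⌋₊ + g₀ (f 2) 1 ≤ g₀ (f 3) 1 + ⌊o (f 2) * J⌋₊ + kk :=
      nt (by push_cast; linarith)
    have u4 : g₀ (f 3) 0 + ⌊o (f 2) * J⌋₊ + g₀ (f 2) 1 ≤
        ⌊b (f 2) 1 * J⌋₊ + ⌊o (f 3) * J⌋₊ + g₀ (f 2) 0 + kk := nt (by push_cast; linarith)
    have u5 : g₀ (f 3) 0 + g₀ (f 2) 1 ≤ g₀ (f 3) 1 + g₀ (f 2) 0 + kk :=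
      nt (by push_cast; linarith)
    have h2 : Nc c (g₀ (f 2)) ⌊o (f 2) * J⌋₊ 2 (2 ^ (Cb + Z) * 2 ^ kk)
        (fun j => grd (G (f 3) (ptr F J ω) j) (bt F ω))
        (fun j => grd (G (f 2) (ptr F J ω) j) (bt F ω)) :=
      nc_un (g' := g₀ (f 3)) (a' := ⌊o (f 3) * J⌋₊) (μ := fun l =>
        min (⌊b (f 2) l * J⌋₊ + (⌊o (f 3) * J⌋₊ - ⌊o (f 2) * J⌋₊)) (g₀ (f 3) l))
        (fun l hl V => by
          rw [cv_subl, cv_grd, cv_grd, ← nrm_en, pow_add]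
          exact h1 l (by omega) V) (by positivity)
        (by
          show ⌊o (f 3) * J⌋₊ + g₀ (f 2) 0 ≤ min (⌊b (f 2) 0 * J⌋₊ + (⌊o (f 3) * J⌋₊ -
            ⌊o (f 2) * J⌋₊)) (g₀ (f 3) 0) + ⌊o (f 2) * J⌋₊ + kk
          rcases min_choice (⌊b (f 2) 0 * J⌋₊ + (⌊o (f 3) * J⌋₊ - ⌊o (f 2) * J⌋₊)) (g₀ (f 3) 0)
            with h | h <;> rw [h] <;> omega)
        (by
          show ⌊o (f 3) * J⌋₊ + g₀ (f 2) 1 ≤ min (⌊b (f 2) 1 * J⌋₊ + (⌊o (f 3) * J⌋₊ -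
            ⌊o (f 2) * J⌋₊)) (g₀ (f 3) 1) + ⌊o (f 2) * J⌋₊ + kk
          rcases min_choice (⌊b (f 2) 1 * J⌋₊ + (⌊o (f 3) * J⌋₊ - ⌊o (f 2) * J⌋₊)) (g₀ (f 3) 1)
            with h | h <;> rw [h] <;> omega)
        (by
          show g₀ (f 3) 0 + g₀ (f 2) 1 ≤ min (⌊b (f 2) 1 * J⌋₊ + (⌊o (f 3) * J⌋₊ -
            ⌊o (f 2) * J⌋₊)) (g₀ (f 3) 1) + g₀ (f 2) 0 + kk
          rcases min_choice (⌊b (f 2) 1 * J⌋₊ + (⌊o (f 3) * J⌋₊ - ⌊o (f 2) * J⌋₊)) (g₀ (f 3) 1)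
            with h | h <;> rw [h] <;> omega)
    rw [← pow_add] at h2
    have u6 : 3 * (Cb + Z + kk) + 2 ≤ Y := nt (by push_cast; linarith)
    exact h2.symm2.mono (pow_le_pow_right₀ (by norm_num) (by omega))
  -- the curvature
  have hcur : ∀ ω, B' ω → ∀ l < 3, ∀ V : Option (Fin m) → ℝ,
      |hs (G (f 2) (ptr F J ω) l) (bt F ω) (bd F ω) V| ≤
        2 ^ Y * (2 ^ ⌊o (f 2) * J⌋₊ / 2 ^ g₀ (f 2) l) *
          nrm c (G (f 2) (ptr F J ω)) (g₀ (f 2)) ⌊o (f 2) * J⌋₊ l (bt F ω) V := by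
    intro ω hω l hl V
    have hk2 := hf 2 (by norm_num)
    have h1 := W.row (f 2) hk2 (f 2) hk2 le_rfl 0 (by
      have := mul_le_mul_of_nonneg_right (W.hp' (f 2) hk2) hJ
      rw [Nat.cast_zero, zero_add]
      linarith) (by
      rw [Nat.cast_zero, zero_add]
      exact W.hgr (f 2) hk2)
    have h2 := nrm_bd h1 (hBB ω hω)
    obtain ⟨Z₁, hZ₁⟩ : ∃ Z₁ : ℕ, Z₁ = ⌊C₀ * (η (f 2) * J)⌋₊ := ⟨_, rfl⟩
    rw [← hZ₁] at h2
    have hZ₁1 : (Z₁ : ℝ) ≤ ζ * J / 64 := by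
      rw [hZ₁]
      have h5 : C₀ * (η (f 2) * J) ≤ C₀ * (ηm * J) := mul_le_mul_of_nonneg_left
        (mul_le_mul_of_nonneg_right (W.hη (f 2) hk2).2 hJ) (by linarith)
      refine (Nat.floor_le (mul_nonneg (by linarith)
        (mul_nonneg (W.hη (f 2) hk2).1 hJ))).trans ?_
      linarith
    have h3 := hNat l hl ω hω (bt F ω) ⟨by
      show |F.t ω - F.t ω| ≤ _
      rw [sub_self, abs_zero]
      positivity, fun j hj => (hE 2 (by norm_num)).ball.pos ω (hBB ω hω) j (by omega)⟩ (bd F ω) V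
    have h4 : nrm c (G (f 2) (ptr F J ω)) (g₀ (f 2)) ⌊o (f 2) * J⌋₊ l (bt F ω) (bd F ω) ≤
        2 ^ (Z₁ + 2) * 2 ^ ⌊o (f 2) * J⌋₊ := by
      rw [nrm_en]
      rw [nrm_en] at h2
      refine ((en_mono _ _ _ _ (show l ≤ 2 by omega) _).trans h2).trans
        (mul_le_mul_of_nonneg_right ?_ (by positivity))
      have h5 : (1 : ℝ) ≤ 2 ^ Z₁ := one_le_pow₀ (by norm_num)
      rw [pow_add]
      push_cast
      linarith
    refine h3.trans ?_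
    have h6 : kn + (Z₁ + 2) ≤ Y := nt (by push_cast; linarith)
    calc 2 ^ kn / 2 ^ g₀ (f 2) l * (nrm c (G (f 2) (ptr F J ω)) (g₀ (f 2)) ⌊o (f 2) * J⌋₊ l
          (bt F ω) (bd F ω) * nrm c (G (f 2) (ptr F J ω)) (g₀ (f 2)) ⌊o (f 2) * J⌋₊ l
          (bt F ω) V) ≤ 2 ^ kn / 2 ^ g₀ (f 2) l * ((2 ^ (Z₁ + 2) * 2 ^ ⌊o (f 2) * J⌋₊) *
          nrm c (G (f 2) (ptr F J ω)) (g₀ (f 2)) ⌊o (f 2) * J⌋₊ l (bt F ω) V) :=
          mul_le_mul_of_nonneg_left (mul_le_mul_of_nonneg_right h4 (nrm_nonneg _ _ _ _ _ _ _))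
            (by positivity)
      _ = (2 ^ kn * 2 ^ (Z₁ + 2)) * (2 ^ ⌊o (f 2) * J⌋₊ / 2 ^ g₀ (f 2) l) *
          nrm c (G (f 2) (ptr F J ω)) (g₀ (f 2)) ⌊o (f 2) * J⌋₊ l (bt F ω) V := by ring
      _ ≤ _ := by
          rw [← pow_add]
          exact mul_le_mul_of_nonneg_right (mul_le_mul_of_nonneg_right
            (pow_le_pow_right₀ (by norm_num) h6) (by positivity)) (nrm_nonneg _ _ _ _ _ _ _)
  -- the class theorem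
  have hEm : ⌊(Eb + 2 * ηm) * J⌋₊ ≤ (Eb + 2 * ηm) * J := Nat.floor_le
    (mul_nonneg (by linarith [W.Eb0]) hJ)
  have hEv : ∀ j < 4, EvS F c 2 D Dr ⌊o (f j) * J⌋₊ (⌊a * J⌋₊ - ⌊o (f j) * J⌋₊) M (z (f j))
      ⌊(Eb + 2 * ηm) * J⌋₊ Y ⌊p' (f j) * J⌋₊ R (fun l => ⌊b (f j) l * J⌋₊) (gc (f j)) (gT (f j))
      (g₀ (f j)) (κ' * K) B' (G (f j)) (H (f j)) (T (f j)) (TH (f j)) (Gt (f j)) (Ht (f j)) := by
    intro j hj
    obtain ⟨e1, e2⟩ := W.hη (f j) (hf j hj)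
    obtain ⟨e3, e4⟩ := W.hσ (f j) (hf j hj)
    refine ((hE j hj).sub (κ₁ := 1 / K) (κ₂ := κ' * K) hBB ?_ (mul_nonneg hκ'0 hK.le) ?_).mono
      (Nat.floor_le_floor (mJ (by linarith))) ?_ le_rfl
    · rw [one_div, inv_mul_le_iff₀ hK]
      exact hPK
    · rw [mul_one_div, mul_div_assoc, div_self hK.ne', mul_one]
    · have h1 : η (f j) * J ≤ Y := by
        have := mJ e2
        linarith
      have h2 : (⌊η (f j) * J⌋₊ : ℝ) ≤ Y := (Nat.floor_le (mul_nonneg e1 hJ)).trans h1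
      exact nt h2
  have g20 := hg 2 (by norm_num) 0 (by norm_num)
  have g21 := hg 2 (by norm_num) 1 (by norm_num)
  have g22 := hg 2 (by norm_num) 2 (by norm_num)
  have g30 := hg 3 (by norm_num) 0 (by norm_num)
  have g31 := hg 3 (by norm_num) 1 (by norm_num)
  have t00 := hT0 0 (by norm_num)
  have t20 := hT0 2 (by norm_num)
  have t30 := hT0 3 (by norm_num)
  have t01 := hT1 0 (by norm_num)
  have t21 := hT1 2 (by norm_num)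
  have t31 := hT1 3 (by norm_num)
  have hfa : ((a' : ℝ) * J) < (⌊(a' : ℝ) * J⌋₊ : ℝ) + 1 := Nat.lt_floor_add_one _
  have hfe : e * J < (⌊e * J⌋₊ : ℝ) + 1 := Nat.lt_floor_add_one _
  have hfb : ∀ x : ℝ, 0 ≤ x → ((⌊(x + h) * J⌋₊ : ℕ) : ℝ) ≤ (x + h) * J := fun x hx =>
    Nat.floor_le (mul_nonneg (by linarith) hJ)
  have hvA : ∀ j < 4, ((⌊a * J⌋₊ : ℝ) - ⌊o (f j) * J⌋₊) ≥ 0 := fun j hj => by
    have : (⌊o (f j) * J⌋₊ : ℝ) ≤ ⌊a * J⌋₊ := by exact_mod_cast hoA j hj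
    linarith
  have p1 := hpp 1
  have k1 := mJ hN.k1
  refine hA ⌊a * J⌋₊ M ⌊(Eb + 2 * ηm) * J⌋₊ Y R (fun j => ⌊o (f j) * J⌋₊)
    (fun j => ⌊p' (f j) * J⌋₊) (fun j => z (f j)) (fun j l => ⌊b (f j) l * J⌋₊)
    (fun j => gc (f j)) (fun j => gT (f j)) (fun j => g₀ (f j)) (κ' * K) (fun j => G (f j))
    (fun j => H (f j)) (fun j => T (f j)) (fun j => TH (f j)) (fun j => Gt (f j))
    (fun j => Ht (f j)) B' ?_ ?_ hw23 (hoA 3 (by norm_num)) (nt hJ1) w3a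
    (Nat.floor_le_floor (mJ hN.oa)) (Nat.floor_le_floor (mJ hN.ow)) hY1
    (fun ω hω => hBA ω (hBB ω hω)) hEv (mul_nonneg hκ'0 hK.le) hκK ?_ ?_ ?_ ?_ ?_ ?_ ?_ ?_ ?_
    hnc hcur ?_ ?_ ?_ ?_ ?_ ?_ ?_ ?_ ?_ ?_ ?_
  · have := mJ hN.o01
    exact nt (by linarith)
  · exact Nat.floor_le_floor (mJ hN.o12)
  · intro l hl
    have h2 := mJ hN.be2
    rcases Nat.lt_succ_iff_lt_or_eq.1 hl with h1 | h1
    · rw [Nat.lt_one_iff.1 h1]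
      exact nt (by push_cast; linarith)
    · rw [h1]
      exact nt (by push_cast; linarith)
  · intro l hl
    have h2 := mJ hN.be3
    rcases Nat.lt_succ_iff_lt_or_eq.1 hl with h1 | h1
    · rw [Nat.lt_one_iff.1 h1]
      exact nt (by push_cast; linarith)
    · rw [h1]
      exact nt (by push_cast; linarith)
  · intro j hj h1
    have h2 := mJ (hN.sp j hj h1)
    have h3 := hpp j
    rw [← hn]
    exact nt (by linarith)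
  · intro l hl
    rw [← hn]
    rcases Nat.lt_succ_iff_lt_or_eq.1 hl with h1 | h1
    · rw [Nat.lt_one_iff.1 h1]
      have h2 := mJ (hN.sl 0 (by norm_num) 0 (by norm_num))
      have h3 := hvA 0 (by norm_num)
      exact nt (by linarith)
    · rw [h1]
      have h2 := mJ hN.sb
      exact nt (by linarith)
  · intro j hj h1 l hl
    rw [← hn]
    have h2 := mJ (hN.sl j hj l hl)
    have h3 := hvA j hj
    have h4 := (hg j hj l hl).2.2.2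
    exact nt (by linarith)
  · intro l hl
    rw [← hn]
    have h2 := mJ (hN.sl 2 (by norm_num) l hl)
    have h4 := (hg 2 (by norm_num) l hl).2.1
    exact nt (by linarith)
  · intro j hj l hl
    rw [← hn]
    have h2 := mJ (hN.rl j hj l hl)
    have h4 := (hg j hj l hl).2.2.1
    exact nt (by push_cast; linarith)
  · intro l hl
    rw [← hn]
    rcases Nat.lt_succ_iff_lt_or_eq.1 hl with h1 | h1
    · rw [Nat.lt_one_iff.1 h1]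
      have h2 := mJ hN.r0
      exact nt (by push_cast; linarith)
    · rw [h1]
      have h2 := mJ hN.rb
      exact nt (by push_cast; linarith)
  · rw [← hn]
    have h2 := mJ hN.eb
    exact nt (by push_cast; linarith)
  · intro j hj h1
    have h2 := mJ (hN.n1 j hj h1)
    have h3 := hone j hj
    obtain ⟨a1, a2, a3, a4⟩ := hg j hj 0 (by norm_num)
    obtain ⟨b1, b2, b3, b4⟩ := hg j hj 1 (by norm_num)
    have h5 := hW1 j hj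
    have h6 := hW2 j
    have h7 : gT (f 0) 0 + g₀ (f j) 1 ≤ Y + g₀ (f j) 0 + gT (f 0) 1 :=
      nt (by push_cast; linarith)
    have h8 : gT (f 0) 0 + g₀ (f j) 1 ≤ Y + g₀ (f j) 0 + gc (f j) 1 :=
      nt (by push_cast; linarith)
    show gT (f 0) 0 + g₀ (f j) 1 ≤ Y + g₀ (f j) 0 + min (gT (f 0) 1) (gc (f j) 1)
    rcases min_choice (gT (f 0) 1) (gc (f j) 1) with h | h <;> rw [h] <;> omega
  · have h2 := mJ hN.n4
    have h7 : gT (f 0) 0 + g₀ (f 2) 2 ≤ Y + g₀ (f 2) 0 + ⌊p' (f 1) * J⌋₊ :=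
      nt (by push_cast; linarith)
    have h8 : gT (f 0) 0 + g₀ (f 2) 2 ≤ Y + g₀ (f 2) 0 + gc (f 2) 2 :=
      nt (by push_cast; linarith)
    show gT (f 0) 0 + g₀ (f 2) 2 ≤ Y + g₀ (f 2) 0 + min ⌊p' (f 1) * J⌋₊ (gc (f 2) 2)
    rcases min_choice ⌊p' (f 1) * J⌋₊ (gc (f 2) 2) with h | h <;> rw [h] <;> omega
  · have h2 := mJ hN.n4'
    have h3 := hvA 2 (by norm_num)
    have h7 : g₀ (f 2) 2 ≤ Y + ⌊p' (f 1) * J⌋₊ := nt (by push_cast; linarith)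
    have h8 : g₀ (f 2) 2 ≤ Y + gc (f 2) 2 := nt (by push_cast; linarith)
    show g₀ (f 2) 2 ≤ Y + min ⌊p' (f 1) * J⌋₊ (gc (f 2) 2)
    rcases min_choice ⌊p' (f 1) * J⌋₊ (gc (f 2) 2) with h | h <;> rw [h] <;> omega
  · rw [← hn]
    have h2 := mJ hN.n5
    have h3 := mJ hN.n5'
    have h7 : gT (f 0) 1 + g₀ (f 2) 2 + ⌊o (f 0) * J⌋₊ + n ≤
        g₀ (f 2) 1 + ⌊p' (f 1) * J⌋₊ + ⌊o (f 1) * J⌋₊ := nt (by push_cast; linarith)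
    have h8 : gT (f 0) 1 + g₀ (f 2) 2 + ⌊o (f 0) * J⌋₊ + n ≤
        g₀ (f 2) 1 + gc (f 2) 2 + ⌊o (f 1) * J⌋₊ := nt (by push_cast; linarith)
    show gT (f 0) 1 + g₀ (f 2) 2 + ⌊o (f 0) * J⌋₊ + n ≤
      g₀ (f 2) 1 + min ⌊p' (f 1) * J⌋₊ (gc (f 2) 2) + ⌊o (f 1) * J⌋₊
    rcases min_choice ⌊p' (f 1) * J⌋₊ (gc (f 2) 2) with h | h <;> rw [h] <;> omega
  · rw [← hn]
    have := mJ hN.o01
    exact nt (by push_cast; linarith)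
  · rw [← hn]
    exact nt (by push_cast; linarith)
  · rw [← hn]
    exact nt (by push_cast; linarith)
  · exact nt (by push_cast; linarith)
  · have h2 := mJ hN.f0
    have h3 := hfb _ hN.b0
    exact nt (by push_cast; linarith)
  · have h2 := mJ hN.f1
    have h3 := hfb _ hN.b1
    exact nt (by push_cast; linarith)
  · rw [← hn]
    have h2 := mJ hN.f2
    have h3 := hfb _ hN.b2
    exact nt (by push_cast; linarith)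

end Pool.JST
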