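import Pool.Agent.H35.TOR.Law
import Pool.Agent.H89.OWN.NfD

/-!
# Torsion in natural units

One ball of radius `2 ^ (-a)`; all quantities in its natural units. `Et` is the direction of a line,
`Dt` the velocity of a contact coordinate, `Av + Bv x` its visible velocity in the direction `x`,
`b0 + u kt` the closed form of `Bv` along the line (`kt` is the torsion). The record `G` knows the
point to `n` digits and `Av`, `Bv` to `j` digits. If `Dt` to `j` digits is few bits given the base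
coordinate to `n` digits, the direction, the time and the common context, two copies of one record
have the same torsion.
-/

set_option autoImplicit false

namespace Pool.TORN

open Finset Real
open Pool.Agent.H49.Ent Pool.Agent.H32.Dense Pool.STK Pool.OWN68 Pool.VH64 Pool.SLW13 Pool.TOR

variable {Ω Λ Γ 𝒞 : Type}

/-- **The data in natural units.** -/
structure TorD (p : Ω → ℝ) (n j K V : ℕ) (L : Ω → Λ) (G : Ω → Γ) (C : Λ → 𝒞) (u : Ω → ℝ)
    (Et Dt b0 kt y0 : Λ → ℝ) (Av Bv : Ω → ℝ) : Prop where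
  u0 : ∀ ω, 0 < p ω → 0 ≤ u ω
  u1 : ∀ ω, 0 < p ω → u ω ≤ 1
  bE : ∀ ω, 0 < p ω → |Et (L ω)| ≤ V
  bk : ∀ ω, 0 < p ω → |kt (L ω)| ≤ V
  bB : ∀ ω, 0 < p ω → |Bv ω| ≤ V
  vel : ∀ ω, 0 < p ω → |Dt (L ω) - (Av ω + Bv ω * Et (L ω))| ≤ K / 2 ^ j
  tor : ∀ ω, 0 < p ω → |Bv ω - (b0 (L ω) + u ω * kt (L ω))| ≤ K / 2 ^ j
  cC : ∀ ω ω', 0 < p ω → 0 < p ω' → G ω = G ω' → C (L ω) = C (L ω')
  cA : ∀ ω ω', 0 < p ω → 0 < p ω' → G ω = G ω' → |Av ω - Av ω'| ≤ K / 2 ^ j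
  cB : ∀ ω ω', 0 < p ω → 0 < p ω' → G ω = G ω' → |Bv ω - Bv ω'| ≤ K / 2 ^ j
  cu : ∀ ω ω', 0 < p ω → 0 < p ω' → G ω = G ω' → |u ω - u ω'| ≤ K / 2 ^ n
  cy : ∀ ω ω', 0 < p ω → 0 < p ω' → G ω = G ω' →
    |(y0 (L ω) + u ω * Et (L ω)) - (y0 (L ω') + u ω' * Et (L ω'))| ≤ K / 2 ^ n

/-- The rounded number. -/
noncomputable def rd (n : ℕ) (x : ℝ) : ℝ := (⌊(2 : ℝ) ^ n * x⌋ : ℝ) / 2 ^ n

theorem rd_near (n : ℕ) (x : ℝ) : |rd n x - x| ≤ 1 / 2 ^ n := by
  have h0 : (0 : ℝ) < 2 ^ n := by positivity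
  have h1 := Int.floor_le ((2 : ℝ) ^ n * x)
  have h2 := Int.lt_floor_add_one ((2 : ℝ) ^ n * x)
  have e : rd n x - x = ((⌊(2 : ℝ) ^ n * x⌋ : ℝ) - 2 ^ n * x) / 2 ^ n := by
    unfold rd
    field_simp
  rw [e, abs_div, abs_of_pos h0]
  refine div_le_div_of_nonneg_right ?_ h0.le
  rw [abs_le]
  constructor <;> linarith

theorem rd_abs {n : ℕ} {x : ℝ} {V : ℕ} (h : |x| ≤ V) : |rd n x| ≤ ((V + 1 : ℕ) : ℝ) := by
  have h1 := rd_near n x
  have h2 : (1 : ℝ) / 2 ^ n ≤ 1 := by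
    rw [div_le_one (by positivity)]
    exact one_le_pow₀ (by norm_num)
  push_cast
  rw [abs_le] at h h1 ⊢
  constructor <;> linarith [h.1, h.2, h1.1, h1.2]

section geo

variable (n j : ℕ) (Et Dt b0 kt y0 : Λ → ℝ)

/-- The base path. -/
noncomputable def yi (l : Λ) (τ : ℤ) : ℤ := ⌊(2 : ℝ) ^ n * y0 l + τ * Et l⌋

/-- The velocity of the contact coordinate in the direction `x`. -/
noncomputable def hi (l : Λ) (τ : ℤ) (x : ℝ) : ℝ :=
  2 ^ j * (Dt l + (b0 l + (τ : ℝ) / 2 ^ n * rd j (kt l)) * (x - rd n (Et l)))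

variable {n j} {Et Dt b0 kt y0}
variable {p : Ω → ℝ} {K V : ℕ} {L : Ω → Λ} {G : Ω → Γ} {C : Λ → 𝒞} {u : Ω → ℝ} {Av Bv : Ω → ℝ}

/-- The errors. -/
def Ke (K V : ℕ) : ℕ := 8 * (K + 1) * (V + 1) ^ 2

theorem torL_of (hnj : j ≤ n) (h : TorD p n j K V L G C u Et Dt b0 kt y0 Av Bv) {ω : Ω}
    (hω : 0 < p ω) : TorL (k := 0) (2 ^ n) (Ke K V) (V + 1) (2 ^ (n - j))
      (fun l => rd n (Et l)) (fun l => rd j (kt l)) (fun l => ⌊(2 : ℝ) ^ j * Dt l⌋)
      (hi n j Et Dt b0 kt) (fun _ _ _ => 0) (L ω) := by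
  have hKe : (1 : ℝ) ≤ (Ke K V : ℝ) := by
    have : 1 ≤ Ke K V := by
      unfold Ke
      exact Nat.one_le_iff_ne_zero.2 (by positivity)
    exact_mod_cast this
  have hW : ((2 ^ (n - j) : ℕ) : ℝ) = 2 ^ n / 2 ^ j := by
    push_cast
    rw [eq_div_iff (by positivity), ← pow_add]
    congr 1
    omega
  refine ⟨rd_abs (h.bE ω hω), rd_abs (h.bk ω hω), fun τ i => i.elim0, ?_, ?_, fun τ τ' i => i.elim0⟩
  · intro τ τ' x _ _ _
    have e : (hi n j Et Dt b0 kt (L ω) τ x - hi n j Et Dt b0 kt (L ω) τ' x) -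
        ((τ : ℝ) - τ') / ((2 ^ (n - j) : ℕ) : ℝ) * (rd j (kt (L ω)) * (x - rd n (Et (L ω)))) = 0 := by
      rw [hW]
      unfold hi
      field_simp
      ring
    rw [e, abs_zero]
    linarith
  · intro τ _
    have e : hi n j Et Dt b0 kt (L ω) τ (rd n (Et (L ω))) = 2 ^ j * Dt (L ω) := by
      unfold hi
      ring
    show |((⌊(2 : ℝ) ^ j * Dt (L ω)⌋ : ℤ) : ℝ) - hi n j Et Dt b0 kt (L ω) τ (rd n (Et (L ω)))| ≤ _
    rw [e]
    have h1 := Int.floor_le ((2 : ℝ) ^ j * Dt (L ω))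
    have h2 := Int.lt_floor_add_one ((2 : ℝ) ^ j * Dt (L ω))
    rw [abs_le]
    constructor <;> linarith

/-- The natural time and its integer part. -/
theorem u_near (h : TorD p n j K V L G C u Et Dt b0 kt y0 Av Bv) {ω : Ω} (hω : 0 < p ω) :
    |⌊(2 : ℝ) ^ n * u ω⌋| ≤ ((2 ^ n : ℕ) : ℤ) ∧
      |((⌊(2 : ℝ) ^ n * u ω⌋ : ℤ) : ℝ) - 2 ^ n * u ω| ≤ 1 := by
  have h0 : (0 : ℝ) < 2 ^ n := by positivity
  have h1 := Int.floor_le ((2 : ℝ) ^ n * u ω)
  have h2 := Int.lt_floor_add_one ((2 : ℝ) ^ n * u ω)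
  constructor
  · rw [abs_of_nonneg (Int.floor_nonneg.2 (mul_nonneg h0.le (h.u0 ω hω)))]
    have h3 : ((⌊(2 : ℝ) ^ n * u ω⌋ : ℤ) : ℝ) ≤ (((2 ^ n : ℕ) : ℤ) : ℝ) := by
      push_cast
      nlinarith [h.u1 ω hω]
    exact_mod_cast h3
  · rw [abs_le]
    constructor <;> linarith

/-- The velocity of the contact coordinate, from the record. -/
theorem hi_near (hnj : j ≤ n) (h : TorD p n j K V L G C u Et Dt b0 kt y0 Av Bv) {ω : Ω}
    (hω : 0 < p ω) {T : ℤ} {d : ℝ} (hT : |(T : ℝ)| ≤ 2 ^ n) (hd : |(T : ℝ) - 2 ^ n * u ω| ≤ d)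
    {x : ℝ} (hx : |x| ≤ ((V + 1 : ℕ) : ℝ)) :
    |hi n j Et Dt b0 kt (L ω) T x - 2 ^ j * (Av ω + Bv ω * x)| ≤
      (K + d * V + 1) * (2 * V + 2) + K + V := by
  have h0 : (0 : ℝ) < 2 ^ n := by positivity
  have hj0 : (0 : ℝ) < 2 ^ j := by positivity
  have hjn : (2 : ℝ) ^ j ≤ 2 ^ n := pow_le_pow_right₀ (by norm_num) hnj
  have hd0 : 0 ≤ d := (abs_nonneg _).trans hd
  have hV0 : (0 : ℝ) ≤ V := Nat.cast_nonneg V
  have hK0 : (0 : ℝ) ≤ K := Nat.cast_nonneg K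
  have e1 := rd_near n (Et (L ω))
  have e2 := rd_near j (kt (L ω))
  have e3 := rd_abs (n := n) (h.bE ω hω)
  have t1 : |(T : ℝ) / 2 ^ n| ≤ 1 := by
    rw [abs_div, abs_of_pos h0, div_le_one h0]
    exact hT
  -- the slope
  have s1 : 2 ^ j * |(b0 (L ω) + (T : ℝ) / 2 ^ n * rd j (kt (L ω))) - Bv ω| ≤ K + d * V + 1 := by
    have f1 : (b0 (L ω) + (T : ℝ) / 2 ^ n * rd j (kt (L ω))) - Bv ω =
        -(Bv ω - (b0 (L ω) + u ω * kt (L ω))) + ((T : ℝ) - 2 ^ n * u ω) / 2 ^ n * kt (L ω) +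
          (T : ℝ) / 2 ^ n * (rd j (kt (L ω)) - kt (L ω)) := by
      field_simp
      ring
    have f2 : |(Bv ω - (b0 (L ω) + u ω * kt (L ω)))| ≤ K / 2 ^ j := h.tor ω hω
    have f3 : |((T : ℝ) - 2 ^ n * u ω) / 2 ^ n * kt (L ω)| ≤ d * V / 2 ^ j := by
      rw [abs_mul, abs_div, abs_of_pos h0]
      calc |(T : ℝ) - 2 ^ n * u ω| / 2 ^ n * |kt (L ω)| ≤ d / 2 ^ n * V :=
            mul_le_mul (div_le_div_of_nonneg_right hd h0.le) (h.bk ω hω) (abs_nonneg _)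
              (by positivity)
        _ = d * V / 2 ^ n := by ring
        _ ≤ d * V / 2 ^ j := div_le_div_of_nonneg_left (by positivity) hj0 hjn
    have f4 : |(T : ℝ) / 2 ^ n * (rd j (kt (L ω)) - kt (L ω))| ≤ 1 / 2 ^ j := by
      rw [abs_mul]
      calc |(T : ℝ) / 2 ^ n| * |rd j (kt (L ω)) - kt (L ω)| ≤ 1 * (1 / 2 ^ j) :=
            mul_le_mul t1 e2 (abs_nonneg _) zero_le_one
        _ = 1 / 2 ^ j := one_mul _
    have f5 : |(b0 (L ω) + (T : ℝ) / 2 ^ n * rd j (kt (L ω))) - Bv ω| ≤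
        K / 2 ^ j + d * V / 2 ^ j + 1 / 2 ^ j := by
      rw [f1]
      refine (abs_add_le _ _).trans (add_le_add ((abs_add_le _ _).trans (add_le_add ?_ f3)) f4)
      rw [abs_neg]
      exact f2
    calc 2 ^ j * |(b0 (L ω) + (T : ℝ) / 2 ^ n * rd j (kt (L ω))) - Bv ω| ≤
          2 ^ j * (K / 2 ^ j + d * V / 2 ^ j + 1 / 2 ^ j) := mul_le_mul_of_nonneg_left f5 hj0.le
      _ = K + d * V + 1 := by field_simp
  have hxE : |x - rd n (Et (L ω))| ≤ 2 * V + 2 := by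
    push_cast at hx e3
    exact (abs_sub _ _).trans (by linarith)
  have g1 : hi n j Et Dt b0 kt (L ω) T x - 2 ^ j * (Av ω + Bv ω * x) =
      2 ^ j * ((b0 (L ω) + (T : ℝ) / 2 ^ n * rd j (kt (L ω))) - Bv ω) * (x - rd n (Et (L ω))) +
      2 ^ j * (Dt (L ω) - (Av ω + Bv ω * Et (L ω))) -
      2 ^ j * (Bv ω * (rd n (Et (L ω)) - Et (L ω))) := by
    unfold hi
    ring
  have g2 : |2 ^ j * ((b0 (L ω) + (T : ℝ) / 2 ^ n * rd j (kt (L ω))) - Bv ω) *
      (x - rd n (Et (L ω)))| ≤ (K + d * V + 1) * (2 * V + 2) := by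
    rw [abs_mul, abs_mul, abs_of_pos hj0]
    exact mul_le_mul s1 hxE (abs_nonneg _) (by positivity)
  have g3 : |2 ^ j * (Dt (L ω) - (Av ω + Bv ω * Et (L ω)))| ≤ K := by
    rw [abs_mul, abs_of_pos hj0]
    calc 2 ^ j * |Dt (L ω) - (Av ω + Bv ω * Et (L ω))| ≤ 2 ^ j * (K / 2 ^ j) :=
          mul_le_mul_of_nonneg_left (h.vel ω hω) hj0.le
      _ = K := by field_simp
  have g4 : |2 ^ j * (Bv ω * (rd n (Et (L ω)) - Et (L ω)))| ≤ V := by
    rw [abs_mul, abs_mul, abs_of_pos hj0]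
    calc 2 ^ j * (|Bv ω| * |rd n (Et (L ω)) - Et (L ω)|) ≤ 2 ^ j * (V * (1 / 2 ^ n)) :=
          mul_le_mul_of_nonneg_left (mul_le_mul (h.bB ω hω) e1 (abs_nonneg _) hV0) hj0.le
      _ ≤ 2 ^ j * (V * (1 / 2 ^ j)) := mul_le_mul_of_nonneg_left (mul_le_mul_of_nonneg_left
          (one_div_le_one_div_of_le hj0 hjn) hV0) hj0.le
      _ = V := by field_simp
  rw [g1]
  refine (abs_sub _ _).trans (add_le_add ((abs_add_le _ _).trans (add_le_add g2 g3)) g4)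

theorem torH_of (hnj : j ≤ n) (h : TorD p n j K V L G C u Et Dt b0 kt y0 Av Bv) {ω ω' : Ω}
    (hω : 0 < p ω) (hω' : 0 < p ω') (hG : G ω = G ω') :
    TorH (k := 0) (2 ^ n) (Ke K V) (V + 1) (2 ^ (n - j)) (fun l => rd n (Et l)) (yi n Et y0)
      (fun _ _ _ => 0) (hi n j Et Dt b0 kt) (fun _ _ _ => 0) (L ω) (L ω')
      ⌊(2 : ℝ) ^ n * u ω⌋ := by
  have h0 : (0 : ℝ) < 2 ^ n := by positivity
  have hj0 : (0 : ℝ) < 2 ^ j := by positivity
  have hjn : (2 : ℝ) ^ j ≤ 2 ^ n := pow_le_pow_right₀ (by norm_num) hnj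
  have hV0 : (0 : ℝ) ≤ V := Nat.cast_nonneg V
  have hK0 : (0 : ℝ) ≤ K := Nat.cast_nonneg K
  obtain ⟨tb, tn⟩ := u_near h hω
  obtain ⟨T, hT⟩ : ∃ T : ℤ, T = ⌊(2 : ℝ) ^ n * u ω⌋ := ⟨_, rfl⟩
  rw [← hT] at tb tn ⊢
  have tb' : |(T : ℝ)| ≤ 2 ^ n := by
    have : (((|T| : ℤ)) : ℝ) ≤ (((2 ^ n : ℕ) : ℤ) : ℝ) := by exact_mod_cast tb
    rw [Int.cast_abs] at this
    push_cast at this
    exact this
  refine ⟨?_, fun τ i => i.elim0, ?_, fun i => i.elim0⟩
  · intro τ hτ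
    have hτ' : |(τ : ℝ)| ≤ 2 ^ n := by
      have : (((|τ| : ℤ)) : ℝ) ≤ (((2 ^ n : ℕ) : ℤ) : ℝ) := by exact_mod_cast hτ
      rw [Int.cast_abs] at this
      push_cast at this
      exact this
    have f1 := Int.floor_le ((2 : ℝ) ^ n * y0 (L ω) + τ * Et (L ω))
    have f2 := Int.lt_floor_add_one ((2 : ℝ) ^ n * y0 (L ω) + τ * Et (L ω))
    have f3 := Int.floor_le ((2 : ℝ) ^ n * y0 (L ω') + τ * Et (L ω'))
    have f4 := Int.lt_floor_add_one ((2 : ℝ) ^ n * y0 (L ω') + τ * Et (L ω'))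
    have c1 : |2 ^ n * ((y0 (L ω) + u ω * Et (L ω)) - (y0 (L ω') + u ω' * Et (L ω')))| ≤ K := by
      rw [abs_mul, abs_of_pos h0]
      calc 2 ^ n * |(y0 (L ω) + u ω * Et (L ω)) - (y0 (L ω') + u ω' * Et (L ω'))| ≤
            2 ^ n * (K / 2 ^ n) := mul_le_mul_of_nonneg_left (h.cy ω ω' hω hω' hG) h0.le
        _ = K := by field_simp
    have c2 : |2 ^ n * (u ω - u ω') * Et (L ω')| ≤ K * V := by
      rw [abs_mul, abs_mul, abs_of_pos h0]
      refine mul_le_mul ?_ (h.bE ω' hω') (abs_nonneg _) hK0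
      calc 2 ^ n * |u ω - u ω'| ≤ 2 ^ n * (K / 2 ^ n) :=
            mul_le_mul_of_nonneg_left (h.cu ω ω' hω hω' hG) h0.le
        _ = K := by field_simp
    have c3 : |((T : ℝ) - 2 ^ n * u ω) * (Et (L ω') - Et (L ω))| ≤ 1 * (2 * V) := by
      rw [abs_mul]
      refine mul_le_mul tn ?_ (abs_nonneg _) zero_le_one
      exact (abs_sub _ _).trans (by linarith [h.bE ω hω, h.bE ω' hω'])
    have c4 : |(rd n (Et (L ω')) - Et (L ω')) * ((τ : ℝ) - T)| ≤ 2 := by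
      rw [abs_mul]
      calc |rd n (Et (L ω')) - Et (L ω')| * |(τ : ℝ) - T| ≤ (1 / 2 ^ n) * (2 * 2 ^ n) :=
            mul_le_mul (rd_near n _) ((abs_sub _ _).trans (by linarith)) (abs_nonneg _)
              (by positivity)
        _ = 2 := by field_simp
    have c5 : |(rd n (Et (L ω)) - Et (L ω)) * ((τ : ℝ) - T)| ≤ 2 := by
      rw [abs_mul]
      calc |rd n (Et (L ω)) - Et (L ω)| * |(τ : ℝ) - T| ≤ (1 / 2 ^ n) * (2 * 2 ^ n) :=
            mul_le_mul (rd_near n _) ((abs_sub _ _).trans (by linarith)) (abs_nonneg _)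
              (by positivity)
        _ = 2 := by field_simp
    have hKe : (K + K * V + 2 * V + 6 : ℝ) ≤ (Ke K V : ℝ) := by
      unfold Ke
      push_cast
      have : (0 : ℝ) ≤ K * V := by positivity
      have : (0 : ℝ) ≤ K * V ^ 2 := by positivity
      have : (0 : ℝ) ≤ (V : ℝ) ^ 2 := by positivity
      nlinarith
    show |(((⌊(2 : ℝ) ^ n * y0 (L ω') + τ * Et (L ω')⌋ : ℤ) : ℝ) -
      (⌊(2 : ℝ) ^ n * y0 (L ω) + τ * Et (L ω)⌋ : ℤ)) -
      (rd n (Et (L ω')) - rd n (Et (L ω))) * ((τ : ℝ) - T)| ≤ _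
    refine le_trans ?_ hKe
    rw [abs_le] at c1 c2 c3 c4 c5 ⊢
    constructor <;> nlinarith [c1.1, c1.2, c2.1, c2.2, c3.1, c3.2, c4.1, c4.2, c5.1, c5.2]
  · intro x hx
    have hd' : |(T : ℝ) - 2 ^ n * u ω'| ≤ K + 1 := by
      have e1 : (T : ℝ) - 2 ^ n * u ω' = ((T : ℝ) - 2 ^ n * u ω) + 2 ^ n * (u ω - u ω') := by ring
      have e2 : |2 ^ n * (u ω - u ω')| ≤ K := by
        rw [abs_mul, abs_of_pos h0]
        calc 2 ^ n * |u ω - u ω'| ≤ 2 ^ n * (K / 2 ^ n) :=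
              mul_le_mul_of_nonneg_left (h.cu ω ω' hω hω' hG) h0.le
          _ = K := by field_simp
      rw [e1]
      exact (abs_add_le _ _).trans (by linarith)
    have k1 := hi_near hnj h hω tb' tn hx
    have k2 := hi_near hnj h hω' tb' hd' hx
    have k3 : |2 ^ j * (Av ω' + Bv ω' * x) - 2 ^ j * (Av ω + Bv ω * x)| ≤ K + K * (V + 1) := by
      have e1 : 2 ^ j * (Av ω' + Bv ω' * x) - 2 ^ j * (Av ω + Bv ω * x) =
          -(2 ^ j * (Av ω - Av ω')) - 2 ^ j * (Bv ω - Bv ω') * x := by ring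
      have e2 : |2 ^ j * (Av ω - Av ω')| ≤ K := by
        rw [abs_mul, abs_of_pos hj0]
        calc 2 ^ j * |Av ω - Av ω'| ≤ 2 ^ j * (K / 2 ^ j) :=
              mul_le_mul_of_nonneg_left (h.cA ω ω' hω hω' hG) hj0.le
          _ = K := by field_simp
      have e3 : |2 ^ j * (Bv ω - Bv ω') * x| ≤ K * (V + 1) := by
        rw [abs_mul, abs_mul, abs_of_pos hj0]
        refine mul_le_mul ?_ (by push_cast at hx; exact hx) (abs_nonneg _) hK0
        calc 2 ^ j * |Bv ω - Bv ω'| ≤ 2 ^ j * (K / 2 ^ j) :=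
              mul_le_mul_of_nonneg_left (h.cB ω ω' hω hω' hG) hj0.le
          _ = K := by field_simp
      rw [e1]
      refine (abs_sub _ _).trans (add_le_add ?_ e3)
      rw [abs_neg]
      exact e2
    have hKe : ((K + 1 * V + 1) * (2 * V + 2) + K + V) +
        ((K + (K + 1) * V + 1) * (2 * V + 2) + K + V) + (K + K * (V + 1)) ≤ (Ke K V : ℝ) := by
      unfold Ke
      push_cast
      have : (0 : ℝ) ≤ K * V := by positivity
      have : (0 : ℝ) ≤ K * V ^ 2 := by positivity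
      have : (0 : ℝ) ≤ (V : ℝ) ^ 2 := by positivity
      nlinarith
    refine le_trans ?_ hKe
    rw [abs_le] at k1 k2 k3 ⊢
    constructor <;> linarith [k1.1, k1.2, k2.1, k2.2, k3.1, k3.2]

end geo

section law

variable [Fintype Ω] {p : Ω → ℝ} {n j K V : ℕ} {L : Ω → Λ} {G : Ω → Γ} {C : Λ → 𝒞} {u : Ω → ℝ}
  {Et Dt b0 kt y0 : Λ → ℝ} {Av Bv : Ω → ℝ}

open Classical in
/-- **The torsion lemma in natural units, for the chain of two hops.** -/
theorem tor_chain (hp : IsLaw p) (hnj : j ≤ n) (h : TorD p n j K V L G C u Et Dt b0 kt y0 Av Bv)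
    {m₀ g₀ R e e' U : ℝ} (hm₀ : 0 < m₀) (hm1 : m₀ ≤ 1) (hg₀ : 0 < g₀) (hg1 : g₀ ≤ 1) (hR : 0 < R)
    (he : 0 ≤ e) (he' : 0 ≤ e') (hmn : 1 ≤ 2 ^ n * m₀) (hgj : 1 ≤ 2 ^ j * g₀)
    (hfull : n * Real.log 2 - e ≤ CH p (fun ω => ⌊(2 : ℝ) ^ n * u ω⌋) L)
    (hfree : CH p (fun ω => (⌊(2 : ℝ) ^ n * Et (L ω)⌋, ⌊(2 : ℝ) ^ j * kt (L ω)⌋))
        (fun ω => C (L ω)) ≤
      CH p (fun ω => (⌊(2 : ℝ) ^ n * Et (L ω)⌋, ⌊(2 : ℝ) ^ j * kt (L ω)⌋)) G + e')
    (hP : CH p (fun ω => ⌊(2 : ℝ) ^ j * Dt (L ω)⌋)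
      (fun ω => (⌊(2 : ℝ) ^ n * (y0 (L ω) + u ω * Et (L ω))⌋, (⌊(2 : ℝ) ^ n * Et (L ω)⌋,
        (⌊(2 : ℝ) ^ n * u ω⌋, C (L ω))))) ≤ U)
    (hnum : R * (3 * e + 3 * e' + U + Real.log (54 * (2 * V + 3))) +
      Real.log (5481 * Ke K V ^ 3 * (V + 1)) < j * Real.log 2 + 2 * Real.log m₀ + Real.log g₀) :
    ∑ w, (if 3 * m₀ ≤ |Et (L w.2) - Et (L w.1.1.1)| ∧ 3 * m₀ ≤ |Et (L w.2) - Et (L w.1.2)| ∧
      3 * g₀ ≤ |kt (L w.1.1.1) - kt (L w.1.1.2)| then ch3 p L G w else 0) < 1 / R := by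
  have p0 := hp.nonneg
  have l3 := ch3_law hp L G
  have hV0 : (0 : ℝ) ≤ V := Nat.cast_nonneg V
  by_contra hcon
  rw [not_lt] at hcon
  have hKe1 : (1 : ℝ) ≤ (Ke K V : ℝ) := by
    have : 1 ≤ Ke K V := by
      unfold Ke
      exact Nat.one_le_iff_ne_zero.2 (by positivity)
    exact_mod_cast this
  have hn0 : (0 : ℝ) < 2 ^ n := by positivity
  have hj0 : (0 : ℝ) < 2 ^ j := by positivity
  -- the rounded events
  have hmn' : (1 : ℝ) / 2 ^ n ≤ m₀ := by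
    rw [div_le_iff₀ hn0]
    linarith
  have hgj' : (1 : ℝ) / 2 ^ j ≤ g₀ := by
    rw [div_le_iff₀ hj0]
    linarith
  have hround : ∀ {N : ℕ} {r x y : ℝ}, (1 : ℝ) / 2 ^ N ≤ r → 3 * r ≤ |x - y| →
      r ≤ |rd N x - rd N y| := by
    intro N r x y h1 h2
    have a1 := rd_near N x
    have a2 := rd_near N y
    have e1 : x - y = (rd N x - rd N y) - ((rd N x - x) - (rd N y - y)) := by ring
    rw [e1] at h2
    have a3 := h2.trans (abs_sub _ _)
    have a4 := abs_sub (rd N x - x) (rd N y - y)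
    linarith
  have hbig : 1 / R ≤ ∑ w, (if m₀ ≤ |rd n (Et (L w.2)) - rd n (Et (L w.1.1.1))| ∧
      m₀ ≤ |rd n (Et (L w.2)) - rd n (Et (L w.1.2))| ∧
      g₀ ≤ |rd j (kt (L w.1.1.1)) - rd j (kt (L w.1.1.2))| then ch3 p L G w else 0) := by
    refine hcon.trans (Finset.sum_le_sum fun w _ => ?_)
    by_cases hw : 3 * m₀ ≤ |Et (L w.2) - Et (L w.1.1.1)| ∧ 3 * m₀ ≤ |Et (L w.2) - Et (L w.1.2)| ∧
        3 * g₀ ≤ |kt (L w.1.1.1) - kt (L w.1.1.2)|
    · rw [if_pos hw, if_pos ⟨hround hmn' hw.1, hround hmn' hw.2.1, hround hgj' hw.2.2⟩]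
    · rw [if_neg hw]
      split_ifs
      · exact l3.nonneg w
      · exact le_rfl
  -- the inputs
  have hK1 : 1 ≤ Ke K V := by exact_mod_cast hKe1
  have hM1 : 1 ≤ 2 ^ n := Nat.one_le_two_pow
  have hW1 : 1 ≤ 2 ^ (n - j) := Nat.one_le_two_pow
  have hlogM : Real.log (2 * ((2 ^ n : ℕ) : ℝ) + 1) ≤ n * Real.log 2 + Real.log 3 := by
    rw [← Real.log_pow, ← Real.log_mul (by positivity) (by norm_num)]
    refine Real.log_le_log (by positivity) ?_
    push_cast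
    have : (1 : ℝ) ≤ 2 ^ n := one_le_pow₀ (by norm_num)
    linarith
  have hfull' : Real.log (2 * ((2 ^ n : ℕ) : ℝ) + 1) - (e + Real.log 3) ≤
      CH p (fun ω => ⌊(2 : ℝ) ^ n * u ω⌋) L := by linarith
  have hcell : ∀ {T : Type} (Z : Ω → T), CH p (fun ω => (rd n (Et (L ω)), rd j (kt (L ω)))) Z =
      CH p (fun ω => (⌊(2 : ℝ) ^ n * Et (L ω)⌋, ⌊(2 : ℝ) ^ j * kt (L ω)⌋)) Z := by
    intro T Z
    have inj : ∀ {N : ℕ} {x y : ℝ}, rd N x = rd N y → ⌊(2 : ℝ) ^ N * x⌋ = ⌊(2 : ℝ) ^ N * y⌋ := by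
      intro N x y hxy
      unfold rd at hxy
      have h1 : (⌊(2 : ℝ) ^ N * x⌋ : ℝ) = (⌊(2 : ℝ) ^ N * y⌋ : ℝ) := by
        have h2 : (2 : ℝ) ^ N ≠ 0 := by positivity
        field_simp at hxy
        exact hxy
      exact_mod_cast h1
    refine CH_congr p0 ?_ ?_ (fun _ _ _ _ h => h) (fun _ _ _ _ h => h)
    · intro ω ω' _ _ hz
      have h1 := Prod.ext_iff.mp (Prod.ext_iff.mp hz).1
      show (⌊(2 : ℝ) ^ n * Et (L ω)⌋, ⌊(2 : ℝ) ^ j * kt (L ω)⌋) =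
        (⌊(2 : ℝ) ^ n * Et (L ω')⌋, ⌊(2 : ℝ) ^ j * kt (L ω')⌋)
      rw [inj h1.1, inj h1.2]
    · intro ω ω' _ _ hz
      have h1 := Prod.ext_iff.mp (Prod.ext_iff.mp hz).1
      have h2 : ⌊(2 : ℝ) ^ n * Et (L ω)⌋ = ⌊(2 : ℝ) ^ n * Et (L ω')⌋ := h1.1
      have h3 : ⌊(2 : ℝ) ^ j * kt (L ω)⌋ = ⌊(2 : ℝ) ^ j * kt (L ω')⌋ := h1.2
      show (rd n (Et (L ω)), rd j (kt (L ω))) = (rd n (Et (L ω')), rd j (kt (L ω')))
      unfold rd
      rw [h2, h3]
  have hfree' : CH p (fun ω => (rd n (Et (L ω)), rd j (kt (L ω)))) (fun ω => C (L ω)) ≤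
      CH p (fun ω => (rd n (Et (L ω)), rd j (kt (L ω)))) G + e' := by
    rw [hcell, hcell]
    exact hfree
  have hlog3 : 0 ≤ Real.log 3 := Real.log_nonneg (by norm_num)
  obtain ⟨q, hq, hqp, hlow⟩ := tor (k := 0) hp hM1 hK1 (Nat.succ_le_succ (Nat.zero_le V)) hW1 L
    (fun ω => ⌊(2 : ℝ) ^ n * u ω⌋) G C (fun l => rd n (Et l)) (fun l => rd j (kt l))
    (fun l => ⌊(2 : ℝ) ^ j * Dt l⌋) (yi n Et y0) (fun _ _ _ => 0) (hi n j Et Dt b0 kt)
    (fun _ _ _ => 0) (e := e + Real.log 3) (e' := e') hm₀ hg₀ hR (by positivity) he'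
    (fun ω hω => (u_near h hω).1) h.cC (fun ω hω => torL_of hnj h hω)
    (fun ω ω' hω hω' hG => torH_of hnj h hω hω' hG) hfull' hfree' hbig
  -- the upper bound
  have hup : CH q (fun ω => ⌊(2 : ℝ) ^ j * Dt (L ω)⌋)
      (fun ω => ((fun _ : Fin 0 => (0 : ℤ)), (yi n Et y0 (L ω) ⌊(2 : ℝ) ^ n * u ω⌋,
        (rd n (Et (L ω)), (⌊(2 : ℝ) ^ n * u ω⌋, C (L ω)))))) ≤
      R * (U + Real.log (2 * (V + 1 : ℕ) + 1)) := by
    have hpos : ∀ ω, 0 < q ω → 0 < p ω := fun ω hω => by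
      by_contra hc
      have h1 : p ω = 0 := le_antisymm (not_lt.1 hc) (p0 ω)
      have h2 := hqp ω
      rw [h1, mul_zero] at h2
      linarith
    refine (Pool.NFD.CH_le_mul p0 hq hqp hpos _ _).trans (mul_le_mul_of_nonneg_left ?_ hR.le)
    have s1 : CH p (fun ω => ⌊(2 : ℝ) ^ j * Dt (L ω)⌋)
        (fun ω => ((fun _ : Fin 0 => (0 : ℤ)), (yi n Et y0 (L ω) ⌊(2 : ℝ) ^ n * u ω⌋,
          (rd n (Et (L ω)), (⌊(2 : ℝ) ^ n * u ω⌋, C (L ω)))))) ≤
        CH p (fun ω => ⌊(2 : ℝ) ^ j * Dt (L ω)⌋)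
        (fun ω => (yi n Et y0 (L ω) ⌊(2 : ℝ) ^ n * u ω⌋,
          (⌊(2 : ℝ) ^ n * Et (L ω)⌋, (⌊(2 : ℝ) ^ n * u ω⌋, C (L ω))))) := by
      refine CH_mono_cond p0 fun ω ω' _ _ hz => ?_
      have h1 := Prod.ext_iff.mp (Prod.ext_iff.mp hz).2
      have h2 : yi n Et y0 (L ω) ⌊(2 : ℝ) ^ n * u ω⌋ = yi n Et y0 (L ω') ⌊(2 : ℝ) ^ n * u ω'⌋ := h1.1
      have h3 := Prod.ext_iff.mp h1.2
      have h4 : rd n (Et (L ω)) = rd n (Et (L ω')) := h3.1
      have h5 : (⌊(2 : ℝ) ^ n * u ω⌋, C (L ω)) = (⌊(2 : ℝ) ^ n * u ω'⌋, C (L ω')) := h3.2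
      have h6 : ⌊(2 : ℝ) ^ n * Et (L ω)⌋ = ⌊(2 : ℝ) ^ n * Et (L ω')⌋ := by
        unfold rd at h4
        have h7 : (⌊(2 : ℝ) ^ n * Et (L ω)⌋ : ℝ) = (⌊(2 : ℝ) ^ n * Et (L ω')⌋ : ℝ) := by
          have h2 : (2 : ℝ) ^ n ≠ 0 := by positivity
          field_simp at h4
          exact h4
        exact_mod_cast h7
      show (yi n Et y0 (L ω) ⌊(2 : ℝ) ^ n * u ω⌋,
          (⌊(2 : ℝ) ^ n * Et (L ω)⌋, (⌊(2 : ℝ) ^ n * u ω⌋, C (L ω)))) =
        (yi n Et y0 (L ω') ⌊(2 : ℝ) ^ n * u ω'⌋,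
          (⌊(2 : ℝ) ^ n * Et (L ω')⌋, (⌊(2 : ℝ) ^ n * u ω'⌋, C (L ω'))))
      rw [h2, h6, h5]
    refine s1.trans ?_
    refine (CH_swap_cond p0 hp.sum_one _ (fun ω => yi n Et y0 (L ω) ⌊(2 : ℝ) ^ n * u ω⌋)
      (fun ω => ⌊(2 : ℝ) ^ n * (y0 (L ω) + u ω * Et (L ω))⌋) (V + 1) ?_ _).trans ?_
    · intro ω hω
      have t1 := (u_near h hω).2
      have f1 := Int.floor_le ((2 : ℝ) ^ n * y0 (L ω) + (⌊(2 : ℝ) ^ n * u ω⌋ : ℤ) * Et (L ω))
      have f2 := Int.lt_floor_add_one ((2 : ℝ) ^ n * y0 (L ω) +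
        (⌊(2 : ℝ) ^ n * u ω⌋ : ℤ) * Et (L ω))
      have f3 := Int.floor_le ((2 : ℝ) ^ n * (y0 (L ω) + u ω * Et (L ω)))
      have f4 := Int.lt_floor_add_one ((2 : ℝ) ^ n * (y0 (L ω) + u ω * Et (L ω)))
      have f5 : |(((⌊(2 : ℝ) ^ n * u ω⌋ : ℤ) : ℝ) - 2 ^ n * u ω) * Et (L ω)| ≤ 1 * V := by
        rw [abs_mul]
        exact mul_le_mul t1 (h.bE ω hω) (abs_nonneg _) zero_le_one
      have f6 : (((|yi n Et y0 (L ω) ⌊(2 : ℝ) ^ n * u ω⌋ -
          ⌊(2 : ℝ) ^ n * (y0 (L ω) + u ω * Et (L ω))⌋| : ℤ)) : ℝ) ≤ (((V + 1 : ℕ) : ℤ) : ℝ) := by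
        rw [Int.cast_abs]
        push_cast
        unfold yi
        rw [abs_le] at f5 ⊢
        constructor <;> nlinarith [f5.1, f5.2]
      exact_mod_cast f6
    · linarith
  -- the numbers
  have c0 : Real.log (16 * ((V + 1 : ℕ) : ℝ) * ((2 ^ n : ℕ) : ℝ) + 4 * (Ke K V : ℝ) + 1) ≤
      n * Real.log 2 + Real.log (21 * Ke K V) := by
    rw [← Real.log_pow, ← Real.log_mul (by positivity) (by positivity)]
    refine Real.log_le_log (by positivity) ?_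
    push_cast
    have h1 : (1 : ℝ) ≤ 2 ^ n := one_le_pow₀ (by norm_num)
    have h2 : (V + 1 : ℝ) ≤ (Ke K V : ℝ) := by
      unfold Ke
      push_cast
      have : (0 : ℝ) ≤ K * (V + 1) ^ 2 := by positivity
      nlinarith
    have h3 : (V + 1 : ℝ) * 2 ^ n ≤ Ke K V * 2 ^ n := mul_le_mul_of_nonneg_right h2 hn0.le
    have h4 : (Ke K V : ℝ) ≤ Ke K V * 2 ^ n := le_mul_of_one_le_right (by linarith) h1
    nlinarith
  have c1 : Real.log (28 * (Ke K V : ℝ) * ((V + 1 : ℕ) : ℝ) * ((2 ^ (n - j) : ℕ) : ℝ) /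
      (m₀ * g₀) + 1) ≤ (n - j) * Real.log 2 + Real.log (29 * Ke K V * (V + 1)) -
        Real.log m₀ - Real.log g₀ := by
    have e1 : ((n : ℝ) - j) * Real.log 2 = Real.log ((2 : ℝ) ^ (n - j)) := by
      rw [Real.log_pow, Nat.cast_sub hnj]
    rw [e1, ← Real.log_mul (by positivity) (by positivity), ← Real.log_div (by positivity)
      (by positivity), ← Real.log_div (by positivity) (by positivity)]
    refine Real.log_le_log (by positivity) ?_
    push_cast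
    have h1 : (1 : ℝ) ≤ 2 ^ (n - j) := one_le_pow₀ (by norm_num)
    have h3 : (1 : ℝ) ≤ Ke K V * (V + 1) * 2 ^ (n - j) := by
      have h4 : (1 : ℝ) ≤ Ke K V * (V + 1) := by nlinarith
      nlinarith
    have h5 : m₀ * g₀ ≤ 1 := by nlinarith
    have h6 : (1 : ℝ) ≤ Ke K V * (V + 1) * 2 ^ (n - j) / (m₀ * g₀) := by
      rw [le_div_iff₀ (by positivity)]
      linarith
    have e2 : 28 * (Ke K V : ℝ) * (V + 1) * 2 ^ (n - j) / (m₀ * g₀) =
        28 * (Ke K V * (V + 1) * 2 ^ (n - j) / (m₀ * g₀)) := by ring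
    have e3 : 2 ^ (n - j) * (29 * (Ke K V : ℝ) * (V + 1)) / m₀ / g₀ =
        29 * (Ke K V * (V + 1) * 2 ^ (n - j) / (m₀ * g₀)) := by
      field_simp
    rw [e2, e3]
    linarith
  have c2 : Real.log (8 * (Ke K V : ℝ) / m₀ + 1) ≤ Real.log (9 * Ke K V) - Real.log m₀ := by
    rw [← Real.log_div (by positivity) (by positivity)]
    refine Real.log_le_log (by positivity) ?_
    have h6 : (1 : ℝ) ≤ Ke K V / m₀ := by
      rw [le_div_iff₀ hm₀]
      linarith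
    have e2 : 8 * (Ke K V : ℝ) / m₀ = 8 * (Ke K V / m₀) := by ring
    have e3 : 9 * (Ke K V : ℝ) / m₀ = 9 * (Ke K V / m₀) := by ring
    rw [e2, e3]
    linarith
  have c3 : Real.log (5481 * Ke K V ^ 3 * (V + 1)) = Real.log (21 * Ke K V) +
      Real.log (29 * Ke K V * (V + 1)) + Real.log (9 * Ke K V) := by
    rw [← Real.log_mul (by positivity) (by positivity), ← Real.log_mul (by positivity)
      (by positivity)]
    congr 1
    ring
  have c4 : Real.log (54 * (2 * V + 3)) = 3 * Real.log 3 + Real.log 2 +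
      Real.log (2 * (V + 1 : ℕ) + 1) := by
    have e1 : Real.log 54 = 3 * Real.log 3 + Real.log 2 := by
      rw [show (54 : ℝ) = 3 ^ 3 * 2 by norm_num, Real.log_mul (by norm_num) (by norm_num),
        Real.log_pow]
      push_cast
      ring
    rw [Real.log_mul (by norm_num) (by positivity), e1]
    congr 2
    push_cast
    ring
  have c5 : n * Real.log 2 ≤ Real.log (2 * ((2 ^ n : ℕ) : ℝ) + 1) := by
    rw [← Real.log_pow]
    refine Real.log_le_log (by positivity) ?_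
    push_cast
    linarith
  have c6 : ((0 : ℕ) : ℝ) * Real.log (40 * (Ke K V : ℝ) * ((V + 1 : ℕ) : ℝ) + 3) = 0 := by
    rw [Nat.cast_zero, zero_mul]
  have hfin := hlow.trans hup
  rw [c6] at hfin
  rw [c4, c3] at hnum
  nlinarith

end law

/-! ### Copies -/

section copies

variable {Ω₁ : Type} [Fintype Ω₁] [Fintype Ω]

/-- A function of the record: the two laws. -/
theorem sum_rec {μ : Ω₁ → ℝ} {p : Ω → ℝ} (hμ : ∀ w, 0 ≤ μ w) (hp : ∀ ω, 0 ≤ p ω) (Z : Ω₁ → Γ)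
    (G : Ω → Γ) (hZ : ∀ z, law μ Z z = law p G z) (f : Γ → ℝ) :
    ∑ w, μ w * f (Z w) = ∑ ω, p ω * f (G ω) := by
  classical
  have h1 : ∑ w, μ w * f (Z w) = ∑ v : Ω₁ × Ω, glue μ p Z G v * f (Z v.1) := by
    rw [Fintype.sum_prod_type]
    refine Finset.sum_congr rfl fun w _ => ?_
    dsimp only
    rw [← Finset.sum_mul, glue_fst hμ hZ w]
  have h2 : ∑ ω, p ω * f (G ω) = ∑ v : Ω₁ × Ω, glue μ p Z G v * f (G v.2) := by
    rw [Fintype.sum_prod_type, Finset.sum_comm]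
    refine Finset.sum_congr rfl fun ω _ => ?_
    dsimp only
    rw [← Finset.sum_mul, glue_snd hp hZ ω]
  rw [h1, h2]
  refine Finset.sum_congr rfl fun v _ => ?_
  by_cases h : Z v.1 = G v.2
  · rw [h]
  · unfold glue
    rw [if_neg h, zero_mul, zero_mul]

open Classical in
/-- The kernel of the record. -/
noncomputable def ker (p : Ω → ℝ) (G : Ω → Γ) (z : Γ) (ω : Ω) : ℝ :=
  if G ω = z then p ω / law p G z else 0

theorem ker_nonneg {p : Ω → ℝ} (hp : ∀ ω, 0 ≤ p ω) (G : Ω → Γ) (z : Γ) (ω : Ω) :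
    0 ≤ ker p G z ω := by
  classical
  unfold ker
  split_ifs
  · exact div_nonneg (hp ω) (law_nonneg hp _ _)
  · exact le_rfl

theorem glue_ker {μ : Ω₁ → ℝ} {p : Ω → ℝ} (Z : Ω₁ → Γ) (G : Ω → Γ)
    (hZ : ∀ z, law μ Z z = law p G z) (v : Ω₁ × Ω) :
    glue μ p Z G v = μ v.1 * ker p G (Z v.1) v.2 := by
  classical
  unfold glue ker
  by_cases h : Z v.1 = G v.2
  · rw [if_pos h, if_pos h.symm, hZ, mul_div_assoc]
  · rw [if_neg h, if_neg (Ne.symm h), mul_zero]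

open Classical in
/-- **The direction of a copy is not near a function of the rest.** -/
theorem hop_sep {μ : Ω₁ → ℝ} {p : Ω → ℝ} (hμ : IsLaw μ) (hp : IsLaw p) (Z : Ω₁ → Γ) (G : Ω → Γ)
    (hZ : ∀ z, law μ Z z = law p G z) (x : Ω₁ → ℝ) (E : Ω → ℝ) {r ρ : ℝ} (hρ : 0 < ρ)
    (hact : ∑ v, (if |E v.2 - E v.1| < 2 * r then glue p p G G v else 0) ≤ ρ ^ 2) :
    ∑ v, (if |E v.2 - x v.1| < r then glue μ p Z G v else 0) ≤ ρ := by
  have p0 := hp.nonneg
  have hk := ker_nonneg p0 G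
  set s : Ω₁ → ℝ := fun w => ∑ ω, (if |E ω - x w| < r then ker p G (Z w) ω else 0) with hs
  set a : Γ → ℝ := fun z => ∑ ω, ∑ ω', (if |E ω' - E ω| < 2 * r then
    ker p G z ω * ker p G z ω' else 0) with ha
  have e1 : ∑ v, (if |E v.2 - x v.1| < r then glue μ p Z G v else 0) = ∑ w, μ w * s w := by
    rw [Fintype.sum_prod_type]
    refine Finset.sum_congr rfl fun w _ => ?_
    rw [hs, Finset.mul_sum]
    refine Finset.sum_congr rfl fun ω _ => ?_
    rw [glue_ker Z G hZ]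
    by_cases h : |E ω - x w| < r
    · rw [if_pos h, if_pos h]
    · rw [if_neg h, if_neg h, mul_zero]
  have e2 : ∀ w, s w ^ 2 ≤ a (Z w) := by
    intro w
    rw [hs, ha, pow_two, Finset.sum_mul_sum]
    refine Finset.sum_le_sum fun ω _ => Finset.sum_le_sum fun ω' _ => ?_
    by_cases h : |E ω - x w| < r
    · by_cases h' : |E ω' - x w| < r
      · rw [if_pos h, if_pos h', if_pos]
        have e : E ω' - E ω = (E ω' - x w) - (E ω - x w) := by ring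
        rw [e]
        exact (abs_sub _ _).trans_lt (by linarith)
      · rw [if_neg h', mul_zero]
        split_ifs
        · exact mul_nonneg (hk _ _) (hk _ _)
        · exact le_rfl
    · rw [if_neg h, zero_mul]
      split_ifs
      · exact mul_nonneg (hk _ _) (hk _ _)
      · exact le_rfl
  have e3 : ∑ w, μ w * a (Z w) ≤ ρ ^ 2 := by
    rw [sum_rec hμ.nonneg p0 Z G hZ a]
    refine le_trans (le_of_eq ?_) hact
    have f1 : ∀ ω, p ω * a (G ω) = ∑ ω₁, ∑ ω₂, p ω * (if |E ω₂ - E ω₁| < 2 * r then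
        ker p G (G ω) ω₁ * ker p G (G ω) ω₂ else 0) := by
      intro ω
      rw [ha, Finset.mul_sum]
      refine Finset.sum_congr rfl fun ω₁ _ => ?_
      rw [Finset.mul_sum]
    have f2 : ∀ ω₁ ω₂, ∑ ω, p ω * (if |E ω₂ - E ω₁| < 2 * r then
        ker p G (G ω) ω₁ * ker p G (G ω) ω₂ else 0) =
        if |E ω₂ - E ω₁| < 2 * r then glue p p G G (ω₁, ω₂) else 0 := by
      intro ω₁ ω₂
      by_cases h : |E ω₂ - E ω₁| < 2 * r
      · simp only [h, if_true]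
        rw [glue_ker G G (fun _ => rfl)]
        dsimp only
        unfold ker
        by_cases h2 : G ω₂ = G ω₁
        · rw [if_pos h2]
          by_cases h3 : 0 < law p G (G ω₁)
          · have f3 : ∀ ω, p ω * ((if G ω₁ = G ω then p ω₁ / law p G (G ω) else 0) *
                (if G ω₂ = G ω then p ω₂ / law p G (G ω) else 0)) =
                (if G ω = G ω₁ then p ω else 0) * (p ω₁ / law p G (G ω₁) *
                  (p ω₂ / law p G (G ω₁))) := by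
              intro ω
              by_cases h4 : G ω = G ω₁
              · rw [if_pos h4.symm, if_pos (h2.trans h4.symm), if_pos h4, h4]
              · rw [if_neg (Ne.symm h4), if_neg h4, zero_mul, mul_zero, zero_mul]
            rw [Finset.sum_congr rfl fun ω _ => f3 ω, ← Finset.sum_mul]
            have f4 : (∑ ω, if G ω = G ω₁ then p ω else 0) = law p G (G ω₁) := rfl
            rw [f4]
            field_simp
          · have h4 : law p G (G ω₁) = 0 := le_antisymm (not_lt.1 h3) (law_nonneg p0 _ _)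
            have h5 : p ω₁ = 0 := by
              by_contra hne
              exact h3 (law_pos p0 G (lt_of_le_of_ne (p0 ω₁) (Ne.symm hne)))
            rw [h5, zero_mul]
            refine Finset.sum_eq_zero fun ω _ => ?_
            rw [zero_div, ite_self, zero_mul, mul_zero]
        · rw [if_neg h2, mul_zero]
          refine Finset.sum_eq_zero fun ω _ => ?_
          by_cases h4 : G ω₁ = G ω
          · rw [if_neg (fun h5 : G ω₂ = G ω => h2 (h5.trans h4.symm)), mul_zero, mul_zero]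
          · rw [if_neg h4, zero_mul, mul_zero]
      · simp only [h, if_false, mul_zero, Finset.sum_const_zero]
    rw [Fintype.sum_prod_type]
    rw [Finset.sum_congr rfl fun ω _ => f1 ω, Finset.sum_comm]
    refine Finset.sum_congr rfl fun ω₁ _ => ?_
    rw [Finset.sum_comm]
    exact Finset.sum_congr rfl fun ω₂ _ => f2 ω₁ ω₂
  rw [e1]
  have e4 : ∀ w, μ w * s w ≤ (μ w * a (Z w)) / (2 * ρ) + μ w * (ρ / 2) := by
    intro w
    have h1 : s w ≤ a (Z w) / (2 * ρ) + ρ / 2 := by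
      have h2 := e2 w
      have h3 : 0 ≤ (s w - ρ) ^ 2 := sq_nonneg _
      rw [div_add_div _ _ (by positivity) (by norm_num), le_div_iff₀ (by positivity)]
      nlinarith
    calc μ w * s w ≤ μ w * (a (Z w) / (2 * ρ) + ρ / 2) :=
          mul_le_mul_of_nonneg_left h1 (hμ.nonneg w)
      _ = _ := by ring
  refine (Finset.sum_le_sum fun w _ => e4 w).trans ?_
  rw [Finset.sum_add_distrib, ← Finset.sum_div, ← Finset.sum_mul, hμ.sum_one, one_mul]
  have e5 : (∑ w, μ w * a (Z w)) / (2 * ρ) ≤ ρ / 2 := by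
    rw [div_le_iff₀ (by positivity)]
    nlinarith
  linarith

open Classical in
/-- **A copy as a function of the record.** -/
theorem pick {p : Ω → ℝ} (hp : IsLaw p) (G : Ω → Γ) (B : Ω → Ω → Prop) :
    ∃ f : Γ → Ω, (∀ ω, 0 < p ω → 0 < p (f (G ω)) ∧ G (f (G ω)) = G ω) ∧
      ∑ ω, (if B ω (f (G ω)) then p ω else 0) ≤
        ∑ v, (if B v.1 v.2 then glue p p G G v else 0) := by
  have p0 := hp.nonneg
  have hk := ker_nonneg p0 G
  obtain ⟨ω₁, -⟩ : ∃ ω, 0 < p ω := by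
    by_contra hc
    push Not at hc
    have h1 : ∑ ω, p ω ≤ 0 := Finset.sum_nonpos fun ω _ => hc ω
    rw [hp.sum_one] at h1
    linarith
  set b : Γ → Ω → ℝ := fun z ω' => ∑ ω, (if B ω ω' then ker p G z ω else 0) with hb
  have hker1 : ∀ ω, 0 < p ω → ∑ ω', ker p G (G ω) ω' = 1 := by
    intro ω hω
    have h1 : 0 < law p G (G ω) := law_pos p0 G hω
    have h2 : ∀ ω', ker p G (G ω) ω' = (if G ω' = G ω then p ω' else 0) / law p G (G ω) := by
      intro ω'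
      unfold ker
      split_ifs
      · rfl
      · rw [zero_div]
    rw [Finset.sum_congr rfl fun ω' _ => h2 ω', ← Finset.sum_div]
    exact div_self h1.ne'
  -- the best copy
  have hex : ∀ ω, 0 < p ω → ∃ ω', 0 < ker p G (G ω) ω' ∧
      b (G ω) ω' ≤ ∑ v, ker p G (G ω) v * b (G ω) v := by
    intro ω hω
    by_contra hc
    push Not at hc
    have h1 : ∑ v, ker p G (G ω) v * (∑ v', ker p G (G ω) v' * b (G ω) v') <
        ∑ v, ker p G (G ω) v * b (G ω) v := by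
      obtain ⟨v₀, hv₀⟩ : ∃ v, 0 < ker p G (G ω) v := by
        by_contra hn
        push Not at hn
        have h2 := Finset.sum_nonpos fun v (_ : v ∈ (Finset.univ : Finset Ω)) => hn v
        rw [hker1 ω hω] at h2
        linarith
      refine Finset.sum_lt_sum (fun v _ => ?_) ⟨v₀, Finset.mem_univ _, ?_⟩
      · rcases (hk (G ω) v).eq_or_lt with h0 | h0
        · rw [← h0, zero_mul, zero_mul]
        · exact mul_le_mul_of_nonneg_left (hc v h0).le h0.le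
      · exact mul_lt_mul_of_pos_left (hc v₀ hv₀) hv₀
    rw [← Finset.sum_mul, hker1 ω hω, one_mul] at h1
    exact lt_irrefl _ h1
  set f : Γ → Ω := fun z => if h : ∃ ω', 0 < ker p G z ω' ∧ b z ω' ≤ ∑ v, ker p G z v * b z v then
    h.choose else ω₁ with hf
  have hf1 : ∀ ω, 0 < p ω → 0 < ker p G (G ω) (f (G ω)) ∧
      b (G ω) (f (G ω)) ≤ ∑ v, ker p G (G ω) v * b (G ω) v := by
    intro ω hω
    have h := hex ω hω
    have e : f (G ω) = h.choose := by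
      rw [hf]
      exact dif_pos h
    rw [e]
    exact h.choose_spec
  refine ⟨f, ?_, ?_⟩
  · intro ω hω
    have h := (hf1 ω hω).1
    unfold ker at h
    split_ifs at h with h1
    · refine ⟨?_, h1⟩
      by_contra hc
      have h2 : p (f (G ω)) = 0 := le_antisymm (not_lt.1 hc) (p0 _)
      rw [h2, zero_div] at h
      exact lt_irrefl _ h
    · exact absurd h (lt_irrefl _)
  · have g1 : ∑ ω, (if B ω (f (G ω)) then p ω else 0) = ∑ ω, p ω * b (G ω) (f (G ω)) := by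
      have h1 : ∀ ω, (if B ω (f (G ω)) then p ω else 0) =
          ∑ v, (if B ω (f (G ω)) then glue p p G G (ω, v) else 0) := by
        intro ω
        split_ifs
        · exact (glue_fst p0 (fun _ => rfl) ω).symm
        · rw [Finset.sum_const_zero]
      rw [Finset.sum_congr rfl fun ω _ => h1 ω, Finset.sum_comm]
      refine Finset.sum_congr rfl fun v _ => ?_
      rw [hb, Finset.mul_sum]
      refine Finset.sum_congr rfl fun ω _ => ?_
      have h2 : glue p p G G (ω, v) = p v * ker p G (G v) ω := by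
        have h3 : glue p p G G (ω, v) = glue p p G G (v, ω) := by
          unfold glue
          dsimp only
          by_cases h : G ω = G v
          · rw [if_pos h, if_pos h.symm, h, mul_comm]
          · rw [if_neg h, if_neg (Ne.symm h)]
        rw [h3, glue_ker G G (fun _ => rfl)]
      by_cases hG : G ω = G v
      · rw [hG]
        split_ifs
        · exact h2
        · rw [mul_zero]
      · have h4 : glue p p G G (ω, v) = 0 := by
          unfold glue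
          exact if_neg hG
        have h5 : ker p G (G v) ω = 0 := by
          unfold ker
          exact if_neg hG
        rw [h4, h5, ite_self, ite_self, mul_zero]
    rw [g1]
    have g2 : ∑ ω, p ω * b (G ω) (f (G ω)) ≤ ∑ ω, p ω * (∑ v, ker p G (G ω) v * b (G ω) v) := by
      refine Finset.sum_le_sum fun ω _ => ?_
      rcases (p0 ω).eq_or_lt with h0 | h0
      · rw [← h0, zero_mul, zero_mul]
      · exact mul_le_mul_of_nonneg_left (hf1 ω h0).2 h0.le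
    refine g2.trans (le_of_eq ?_)
    have g3 : ∀ ω, p ω * (∑ v, ker p G (G ω) v * b (G ω) v) =
        ∑ v, glue p p G G (ω, v) * b (G v) v := by
      intro ω
      rw [Finset.mul_sum]
      refine Finset.sum_congr rfl fun v _ => ?_
      rw [glue_ker G G (fun _ => rfl), mul_assoc]
      by_cases hG : G v = G ω
      · rw [hG]
      · have h5 : ker p G (G ω) v = 0 := by
          unfold ker
          exact if_neg hG
        rw [h5]
        ring
    have r1 : ∑ v : Ω × Ω, (if B v.1 v.2 then glue p p G G v else 0) =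
        ∑ v, ∑ ω, (if B ω v then glue p p G G (ω, v) else 0) := by
      rw [Fintype.sum_prod_type, Finset.sum_comm]
    rw [Finset.sum_congr rfl fun ω _ => g3 ω, Finset.sum_comm, r1]
    refine Finset.sum_congr rfl fun v _ => ?_
    rw [← Finset.sum_mul, glue_snd p0 (fun _ => rfl) v, hb, Finset.mul_sum]
    refine Finset.sum_congr rfl fun ω _ => ?_
    have h2 : glue p p G G (ω, v) = p v * ker p G (G v) ω := by
      have h3 : glue p p G G (ω, v) = glue p p G G (v, ω) := by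
        unfold glue
        dsimp only
        by_cases h : G ω = G v
        · rw [if_pos h, if_pos h.symm, h, mul_comm]
        · rw [if_neg h, if_neg (Ne.symm h)]
      rw [h3, glue_ker G G (fun _ => rfl)]
    split_ifs
    · exact h2.symm
    · rw [mul_zero]

end copies

section pair

variable [Fintype Ω] {p : Ω → ℝ} {n j K V : ℕ} {L : Ω → Λ} {G : Ω → Γ} {C : Λ → 𝒞} {u : Ω → ℝ}
  {Et Dt b0 kt y0 : Λ → ℝ} {Av Bv : Ω → ℝ}

open Classical in
/-- **The torsion lemma in natural units.** Two copies of one record have the same torsion, outside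
a small mass. -/
theorem tor_pair (hp : IsLaw p) (hnj : j ≤ n) (h : TorD p n j K V L G C u Et Dt b0 kt y0 Av Bv)
    {m₀ g₀ R e e' U ρ : ℝ} (hm₀ : 0 < m₀) (hm1 : m₀ ≤ 1) (hg₀ : 0 < g₀) (hg1 : g₀ ≤ 1)
    (hR : 0 < R) (he : 0 ≤ e) (he' : 0 ≤ e') (hρ : 0 < ρ) (hmn : 1 ≤ 2 ^ n * m₀)
    (hgj : 1 ≤ 2 ^ j * g₀)
    (hfull : n * Real.log 2 - e ≤ CH p (fun ω => ⌊(2 : ℝ) ^ n * u ω⌋) L)
    (hfree : CH p (fun ω => (⌊(2 : ℝ) ^ n * Et (L ω)⌋, ⌊(2 : ℝ) ^ j * kt (L ω)⌋))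
        (fun ω => C (L ω)) ≤
      CH p (fun ω => (⌊(2 : ℝ) ^ n * Et (L ω)⌋, ⌊(2 : ℝ) ^ j * kt (L ω)⌋)) G + e')
    (hP : CH p (fun ω => ⌊(2 : ℝ) ^ j * Dt (L ω)⌋)
      (fun ω => (⌊(2 : ℝ) ^ n * (y0 (L ω) + u ω * Et (L ω))⌋, (⌊(2 : ℝ) ^ n * Et (L ω)⌋,
        (⌊(2 : ℝ) ^ n * u ω⌋, C (L ω))))) ≤ U)
    (hact : ∑ v, (if |Et (L v.2) - Et (L v.1)| < 6 * m₀ then glue p p G G v else 0) ≤ ρ ^ 2)
    (hnum : R * (3 * e + 3 * e' + U + Real.log (54 * (2 * V + 3))) +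
      Real.log (5481 * Ke K V ^ 3 * (V + 1)) < j * Real.log 2 + 2 * Real.log m₀ + Real.log g₀) :
    ∑ v, (if 3 * g₀ ≤ |kt (L v.1) - kt (L v.2)| then glue p p G G v else 0) < 1 / R + 2 * ρ := by
  have p0 := hp.nonneg
  have l2 := ch2_law hp L G
  have hc := tor_chain hp hnj h hm₀ hm1 hg₀ hg1 hR he he' hmn hgj hfull hfree hP hnum
  have s1 := hop_sep l2 hp (fun w => G w.2) G (ch3_Z hp L G)
    (fun w => Et (L w.1.1)) (fun ω => Et (L ω)) (r := 3 * m₀) hρ (by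
      have e : 2 * (3 * m₀) = 6 * m₀ := by ring
      rw [e]
      exact hact)
  have s2 := hop_sep l2 hp (fun w => G w.2) G (ch3_Z hp L G)
    (fun w => Et (L w.2)) (fun ω => Et (L ω)) (r := 3 * m₀) hρ (by
      have e : 2 * (3 * m₀) = 6 * m₀ := by ring
      rw [e]
      exact hact)
  have m3 : ∀ f : Ω × Ω → ℝ, ∑ v, glue p p G G v * f v = ∑ w, ch3 p L G w * f w.1.1 := by
    intro f
    have h1 : ∑ w, ch3 p L G w * f w.1.1 = ∑ w, ch2 p L G w * f w.1 := by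
      rw [Fintype.sum_prod_type]
      refine Finset.sum_congr rfl fun w _ => ?_
      dsimp only
      rw [← Finset.sum_mul]
      congr 1
      exact glue_fst l2.nonneg (ch3_Z hp L G) w
    rw [h1, Fintype.sum_prod_type (f := fun w : (Ω × Ω) × Ω => ch2 p L G w * f w.1)]
    refine Finset.sum_congr rfl fun w _ => ?_
    dsimp only
    rw [← Finset.sum_mul]
    congr 1
    exact (glue_fst (ch1_law hp G).nonneg (ch2_Z hp L G) w).symm
  have m4 : ∑ v, (if 3 * g₀ ≤ |kt (L v.1) - kt (L v.2)| then glue p p G G v else 0) =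
      ∑ w, (if 3 * g₀ ≤ |kt (L w.1.1.1) - kt (L w.1.1.2)| then ch3 p L G w else 0) := by
    have h1 := m3 (fun v => if 3 * g₀ ≤ |kt (L v.1) - kt (L v.2)| then 1 else 0)
    simp only [mul_ite, mul_one, mul_zero] at h1
    exact h1
  rw [m4]
  have l3 := ch3_law hp L G
  have m5 : ∀ w, (if 3 * g₀ ≤ |kt (L w.1.1.1) - kt (L w.1.1.2)| then ch3 p L G w else 0) ≤
      (if 3 * m₀ ≤ |Et (L w.2) - Et (L w.1.1.1)| ∧ 3 * m₀ ≤ |Et (L w.2) - Et (L w.1.2)| ∧
        3 * g₀ ≤ |kt (L w.1.1.1) - kt (L w.1.1.2)| then ch3 p L G w else 0) +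
      ((if |Et (L w.2) - Et (L w.1.1.1)| < 3 * m₀ then ch3 p L G w else 0) +
      (if |Et (L w.2) - Et (L w.1.2)| < 3 * m₀ then ch3 p L G w else 0)) := by
    intro w
    have h0 := l3.nonneg w
    by_cases h1 : 3 * g₀ ≤ |kt (L w.1.1.1) - kt (L w.1.1.2)|
    · rw [if_pos h1]
      by_cases h2 : |Et (L w.2) - Et (L w.1.1.1)| < 3 * m₀
      · rw [if_pos h2, if_neg (fun hh => absurd h2 (not_lt.2 hh.1))]
        split_ifs <;> linarith
      · by_cases h3 : |Et (L w.2) - Et (L w.1.2)| < 3 * m₀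
        · rw [if_pos h3, if_neg h2, if_neg (fun hh => absurd h3 (not_lt.2 hh.2.1))]
          linarith
        · rw [if_pos ⟨not_lt.1 h2, not_lt.1 h3, h1⟩, if_neg h2, if_neg h3]
          linarith
    · rw [if_neg h1]
      split_ifs <;> linarith
  refine (Finset.sum_le_sum fun w _ => m5 w).trans_lt ?_
  rw [Finset.sum_add_distrib, Finset.sum_add_distrib]
  have s1' : ∑ w, (if |Et (L w.2) - Et (L w.1.1.1)| < 3 * m₀ then ch3 p L G w else 0) ≤ ρ := s1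
  have s2' : ∑ w, (if |Et (L w.2) - Et (L w.1.2)| < 3 * m₀ then ch3 p L G w else 0) ≤ ρ := s2
  linarith

end pair

end Pool.TORN
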